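import Mathlib

set_option autoImplicit false

namespace Pool.Agent.Lib.helper15.AltSum

open Equiv Finset

def orN (a b c : ℕ) : ℤ :=
  bif Nat.blt a b then (bif Nat.blt b c then 1 else bif Nat.blt c a then 1 else
      bif Nat.beq b c || Nat.beq a c then 0 else -1)
  else bif Nat.beq a b then 0 else
    (bif Nat.blt c b then -1 else bif Nat.blt a c then -1 else
      bif Nat.beq b c || Nat.beq a c then 0 else 1)

def pk (a : ℕ) : List ℕ → (ℕ → List ℕ → ℤ) → ℤ
  | [], _ => 0
  | x :: l, k => k x (a :: l) + pk a l fun y r => k y (x :: r)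

def pick : List ℕ → (ℕ → List ℕ → ℤ) → ℤ
  | [], _ => 0
  | a :: l, k => k a l - pk a l k

def go : List (ℕ → ℕ) → ℕ → List ℕ → ℤ
  | [], _, _ => 1
  | p :: ps, x, l => pick l fun a r => pick r fun b s => orN (p x) (p a) (p b) * go ps b s

def prodF : List (ℕ → ℕ) → ℕ → List ℕ → ℤ
  | [], _, _ => 1
  | p :: ps, x, w => orN (p x) (p (w.getD 0 0)) (p (w.getD 1 0)) *
      prodF ps (w.getD 1 0) (w.drop 2)

def alt (n : ℕ) (F : List ℕ → ℤ) (l : List ℕ) : ℤ :=
  ∑ σ : Perm (Fin n), (Perm.sign σ : ℤ) * F (List.ofFn fun i => l.getD (σ i) 0)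

lemma pk_eq (a : ℕ) : ∀ (l : List ℕ) (n : ℕ) (k : ℕ → List ℕ → ℤ), l.length = n →
    pk a l k = ∑ i : Fin n, k (l.getD i 0) (l.set i a)
  | [], n, k, h => by subst h; simp [pk]
  | x :: l, n, k, h => by
    subst h
    rw [pk, pk_eq a l l.length _ rfl]
    exact (Fin.sum_univ_succ (n := l.length)
      fun i => k ((x :: l).getD i 0) ((x :: l).set i a)).symm

lemma pk_congr (a : ℕ) (l : List ℕ) (k k' : ℕ → List ℕ → ℤ)
    (h : ∀ y r, r.length = l.length → k y r = k' y r) : pk a l k = pk a l k' := by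
  rw [pk_eq a l _ _ rfl, pk_eq a l _ _ rfl]
  exact sum_congr rfl fun i _ => h _ _ (by simp)

lemma pick_congr (l : List ℕ) (k k' : ℕ → List ℕ → ℤ)
    (h : ∀ y r, r.length + 1 = l.length → k y r = k' y r) : pick l k = pick l k' := by
  cases l with
  | nil => rfl
  | cons a l =>
    rw [pick, pick, h a l rfl, pk_congr a l k k' fun y r e => h y r (by simp [e])]

lemma alt_succ (n : ℕ) (F : List ℕ → ℤ) (l : List ℕ) (h : l.length = n + 1) :
    alt (n + 1) F l = pick l fun a r => alt n (fun w => F (a :: w)) r := by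
  obtain _ | ⟨a, l⟩ := l
  · simp at h
  have hl : l.length = n := by simpa using h
  rw [pick, pk_eq a l n _ hl, alt, univ_perm_fin_succ, sum_map, Fintype.sum_prod_type,
    Fin.sum_univ_succ, sub_eq_add_neg, ← sum_neg_distrib]
  congr 1
  · refine sum_congr rfl fun e _ => ?_
    simp [List.ofFn_succ, Perm.decomposeFin.symm_sign]
  · refine sum_congr rfl fun i _ => ?_
    rw [alt, ← sum_neg_distrib]
    refine sum_congr rfl fun e _ => ?_
    simp only [Equiv.toEmbedding_apply, Perm.decomposeFin.symm_sign, List.ofFn_succ,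
      Perm.decomposeFin_symm_apply_zero, Perm.decomposeFin_symm_apply_succ, Fin.succ_ne_zero,
      if_false, Units.val_mul, Units.val_neg, Units.val_one, neg_mul, one_mul, Fin.val_succ,
      List.getD_cons_succ]
    congr 5
    funext j
    by_cases hj : e j = i
    · rw [hj, swap_apply_right]
      simp [List.getD_eq_getElem?_getD, hl]
    · rw [swap_apply_of_ne_of_ne (Fin.succ_ne_zero _) (by simpa using hj)]
      have : (i : ℕ) ≠ e j := fun h => hj (Fin.ext h.symm)
      simp [List.getD_eq_getElem?_getD, List.getElem?_set_ne this]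

lemma alt_mul (n : ℕ) (c : ℤ) (F : List ℕ → ℤ) (l : List ℕ) :
    alt n (fun w => c * F w) l = c * alt n F l := by
  simp only [alt, mul_sum, mul_left_comm]

lemma go_eq : ∀ (ps : List (ℕ → ℕ)) (x : ℕ) (l : List ℕ), l.length = 2 * ps.length →
    go ps x l = alt (2 * ps.length) (prodF ps x) l
  | [], x, l, h => by simp [go, alt, prodF]
  | p :: ps, x, l, h => by
    have e : 2 * (p :: ps).length = 2 * ps.length + 1 + 1 := by simp; ring
    rw [e] at h ⊢
    rw [go, alt_succ _ _ _ h]
    refine pick_congr _ _ _ fun a r hr => ?_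
    rw [alt_succ _ _ _ (by omega)]
    refine pick_congr _ _ _ fun b s hs => ?_
    rw [go_eq ps b s (by omega), ← alt_mul]
    rfl

lemma total (ps : List (ℕ → ℕ)) (l : List ℕ) (h : l.length = 2 * ps.length + 1) :
    alt (2 * ps.length + 1) (fun w => prodF ps (w.getD 0 0) w.tail) l = pick l (go ps) := by
  rw [alt_succ _ _ _ h]
  exact pick_congr _ _ _ fun a r hr => (go_eq ps a r (by omega)).symm

def ps1 : List (ℕ → ℕ) :=
  [fun j => 1 * j % 9, fun j => 2 * j % 9, fun j => 3 * j % 9, fun j => 4 * j % 9]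

def ps2 : List (ℕ → ℕ) :=
  [fun j => 824573601 / 10 ^ j % 10, fun j => 83156742 / 10 ^ j % 10,
    fun j => 614087325 / 10 ^ j % 10, fun j => 423716850 / 10 ^ j % 10]

theorem v1 : pick [0, 1, 2, 3, 4, 5, 6, 7, 8] (go ps1) = 12960 := by decide +kernel

theorem v2 : pick [0, 1, 2, 3, 4, 5, 6, 7, 8] (go ps2) = 24192 := by decide +kernel

end Pool.Agent.Lib.helper15.AltSum
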