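import Mathlib

set_option autoImplicit false
open Filter Topology TensorProduct

namespace Pool.Agent.Lib.helper15.Bac

variable {A : Type} [NormedRing A] [NormedAlgebra ℂ A]

def BAC (A : Type) [NormedRing A] [NormedAlgebra ℂ A] : Prop :=
  ∀ (X : Type) [NormedAddCommGroup X] [NormedSpace ℂ X] [CompleteSpace X]
    (L R : A →L[ℂ] X →L[ℂ] X),
    (∀ a b : A, L (a * b) = (L a).comp (L b)) →
    (∀ a b : A, R (a * b) = (R b).comp (R a)) →
    (∀ a b : A, (L a).comp (R b) = (R b).comp (L a)) →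
    ∀ D : A →L[ℂ] X, (∀ a b : A, D (a * b) = L a (D b) + R b (D a)) →
      ∃ C : ℝ, ∀ F : Finset A, ∀ ε : ℝ, 0 < ε → ∃ ξ : X,
        (∀ a : A, ‖L a ξ - R a ξ‖ ≤ C * ‖a‖) ∧
          ∀ a ∈ F, ‖D a - (L a ξ - R a ξ)‖ < ε

section gen
variable {Y : Type} [NormedAddCommGroup Y] [NormedSpace ℂ Y]

noncomputable def res (X : Submodule ℂ Y) (L : A →L[ℂ] Y →L[ℂ] Y) (h : ∀ a, ∀ y ∈ X, L a y ∈ X) :
    A →L[ℂ] X →L[ℂ] X :=
  LinearMap.mkContinuous₂
    (LinearMap.mk₂ ℂ (fun a y => (⟨L a y, h a y y.2⟩ : X))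
      (fun _ _ _ => by ext; simp) (fun _ _ _ => by ext; simp)
      (fun _ _ _ => by ext; simp) (fun _ _ _ => by ext; simp))
    ‖L‖ (fun a y => L.le_opNorm₂ a y)

lemma res_apply (X : Submodule ℂ Y) (L : A →L[ℂ] Y →L[ℂ] Y) (h : ∀ a, ∀ y ∈ X, L a y ∈ X)
    (a : A) (y : X) : (res X L h a y : Y) = L a y := rfl

lemma gen [CompleteSpace Y] (hA : BAC A) (L R : A →L[ℂ] Y →L[ℂ] Y)
    (hL : ∀ a b y, L (a * b) y = L a (L b y)) (hR : ∀ a b y, R (a * b) y = R b (R a y))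
    (hLR : ∀ a b y, L a (R b y) = R b (L a y)) (S : Submodule ℂ Y)
    (hSL : ∀ a, ∀ y ∈ S, L a y ∈ S) (hSR : ∀ a, ∀ y ∈ S, R a y ∈ S) (M : Y)
    (hM : ∀ a, L a M - R a M ∈ S) :
    ∃ C : ℝ, 0 ≤ C ∧ ∀ F : Finset A, ∀ ε : ℝ, 0 < ε → ∃ s ∈ S,
      (∀ a, ‖L a (M - s) - R a (M - s)‖ ≤ C * ‖a‖) ∧
        ∀ a ∈ F, ‖L a (M - s) - R a (M - s)‖ < ε := by
  let X := S.topologicalClosure
  have : CompleteSpace X := S.isClosed_topologicalClosure.completeSpace_coe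
  have hcl : ∀ T : Y →L[ℂ] Y, (∀ y ∈ S, T y ∈ S) → ∀ y ∈ X, T y ∈ X := fun T hT y hy =>
    map_mem_closure (f := T) (s := S) (t := S) T.continuous hy hT
  have hXL : ∀ a, ∀ y ∈ X, L a y ∈ X := fun a => hcl _ (hSL a)
  have hXR : ∀ a, ∀ y ∈ X, R a y ∈ X := fun a => hcl _ (hSR a)
  let D0 : A →L[ℂ] Y := L.flip M - R.flip M
  let D : A →L[ℂ] X := D0.codRestrict X (fun a => S.le_topologicalClosure (hM a))
  have hD : ∀ a, (D a : Y) = L a M - R a M := fun _ => rfl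
  obtain ⟨C, hC⟩ := hA X (res X L hXL) (res X R hXR)
    (fun a b => by ext y; exact hL a b y) (fun a b => by ext y; exact hR a b y)
    (fun a b => by ext y; exact hLR a b y) D (fun a b => by
      ext
      rw [Submodule.coe_add, res_apply, res_apply, hD, hD, hD, map_sub, map_sub, hL, hR, hLR]
      abel)
  have hcont : Continuous fun s : Y => (L - R).flip s := (L - R).flip.continuous
  refine ⟨‖D0‖ + |C| + 1, by positivity, fun F ε hε => ?_⟩
  obtain ⟨ξ, h1, h2⟩ := hC F ε hε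
  have e1 : ∀ᶠ s in 𝓝 (ξ : Y), ‖(L - R).flip s - (L - R).flip ξ‖ < 1 := by
    have := (hcont.tendsto (ξ : Y)).eventually (Metric.ball_mem_nhds _ one_pos)
    simpa only [dist_eq_norm] using this
  have e2 : ∀ᶠ s in 𝓝 (ξ : Y), ∀ a ∈ F, ‖L a (M - s) - R a (M - s)‖ < ε := by
    rw [Filter.eventually_all_finset]
    intro a ha
    have hc : Continuous fun s : Y => ‖L a (M - s) - R a (M - s)‖ := by fun_prop
    refine (hc.tendsto (ξ : Y)).eventually (gt_mem_nhds ?_)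
    have := h2 a ha
    rw [← Submodule.norm_coe, Submodule.coe_sub, Submodule.coe_sub, res_apply, res_apply, hD] at this
    have e : L a (M - ξ) - R a (M - ξ) = L a M - R a M - (L a ξ - R a ξ) := by
      rw [map_sub, map_sub]; abel
    rwa [e]
  obtain ⟨s, hs, hs1, hs2⟩ := mem_closure_iff_nhds.1 (show (ξ : Y) ∈ closure (S : Set Y) from ξ.2)
    _ (e1.and e2) |>.imp fun s hs => (⟨hs.2, hs.1⟩ : s ∈ S ∧ _)
  refine ⟨s, hs, fun a => ?_, hs2⟩
  have a1 := h1 a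
  rw [← Submodule.norm_coe, Submodule.coe_sub, res_apply, res_apply] at a1
  have a2 := ((L - R).flip s - (L - R).flip ξ).le_opNorm a
  have a3 := D0.le_opNorm a
  have e : L a (M - s) - R a (M - s) =
      D0 a - (L a ξ - R a ξ) - ((L - R).flip s - (L - R).flip ξ) a := by
    simp [D0]; abel
  rw [e]
  refine (norm_sub_le _ _).trans ((add_le_add_left (norm_sub_le _ _) _).trans ?_)
  have := le_abs_self C
  nlinarith [norm_nonneg a]

end gen

def Bil (A : Type) [NormedRing A] [NormedAlgebra ℂ A] : Type := A →L[ℂ] A →L[ℂ] ℂ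

noncomputable instance : NormedAddCommGroup (Bil A) :=
  inferInstanceAs (NormedAddCommGroup (A →L[ℂ] A →L[ℂ] ℂ))
noncomputable instance : NormedSpace ℂ (Bil A) :=
  inferInstanceAs (NormedSpace ℂ (A →L[ℂ] A →L[ℂ] ℂ))

def toB (B : A →L[ℂ] A →L[ℂ] ℂ) : Bil A := B
def ofB (B : Bil A) : A →L[ℂ] A →L[ℂ] ℂ := B

@[simp] lemma ofB_toB (B : A →L[ℂ] A →L[ℂ] ℂ) : ofB (toB B) = B := rfl
lemma norm_toB (B : A →L[ℂ] A →L[ℂ] ℂ) : ‖toB B‖ = ‖B‖ := rfl
lemma norm_ofB (B : Bil A) : ‖ofB B‖ = ‖B‖ := rfl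
@[simp] lemma ofB_add (B C : Bil A) : ofB (B + C) = ofB B + ofB C := rfl
@[simp] lemma ofB_smul (c : ℂ) (B : Bil A) : ofB (c • B) = c • ofB B := rfl
lemma Bil.ext {B C : Bil A} (h : ∀ x y, ofB B x y = ofB C x y) : B = C :=
  ContinuousLinearMap.ext fun x => ContinuousLinearMap.ext fun y => h x y

noncomputable def el (x y : A) : Bil A →L[ℂ] ℂ :=
  LinearMap.mkContinuous
    { toFun := fun B => ofB B x y, map_add' := fun _ _ => rfl, map_smul' := fun _ _ => rfl }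
    (‖x‖ * ‖y‖) (fun B => by
      have := (ofB B).le_opNorm₂ x y
      rw [norm_ofB] at this
      exact this.trans (le_of_eq (by ring)))

@[simp] lemma el_apply (x y : A) (B : Bil A) : el x y B = ofB B x y := rfl

/-- pairing of an algebraic tensor with a bounded bilinear form -/
noncomputable def io : A ⊗[ℂ] A →ₗ[ℂ] (Bil A →L[ℂ] ℂ) :=
  TensorProduct.lift (LinearMap.mk₂ ℂ el
    (fun _ _ _ => by ext; simp) (fun _ _ _ => by ext; simp)
    (fun _ _ _ => by ext; simp) (fun _ _ _ => by ext; simp))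

@[simp] lemma io_tmul (x y : A) (B : Bil A) : io (x ⊗ₜ y) B = ofB B x y := rfl

noncomputable def lB : A →L[ℂ] Bil A →L[ℂ] Bil A :=
  LinearMap.mkContinuous₂
    (LinearMap.mk₂ ℂ (fun a B => toB ((ofB B).comp (ContinuousLinearMap.mul ℂ A a)))
      (fun _ _ _ => Bil.ext fun _ _ => by simp [add_mul])
      (fun _ _ _ => Bil.ext fun _ _ => by simp)
      (fun _ _ _ => Bil.ext fun _ _ => by simp) (fun _ _ _ => Bil.ext fun _ _ => by simp))
    1 (fun a B => by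
      rw [LinearMap.mk₂_apply, norm_toB]
      refine ContinuousLinearMap.opNorm_le_bound₂ _ (by positivity) fun x y => ?_
      refine ((ofB B).le_opNorm₂ _ y).trans ?_
      rw [norm_ofB]
      calc _ ≤ ‖B‖ * (‖a‖ * ‖x‖) * ‖y‖ := by gcongr; exact norm_mul_le _ _
        _ = _ := by ring)

@[simp] lemma lB_apply (a : A) (B : Bil A) (x y : A) : ofB (lB a B) x y = ofB B (a * x) y := rfl

noncomputable def rB : A →L[ℂ] Bil A →L[ℂ] Bil A :=
  LinearMap.mkContinuous₂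
    (LinearMap.mk₂ ℂ (fun a B => toB ((ofB B).bilinearComp (ContinuousLinearMap.id ℂ A)
      ((ContinuousLinearMap.mul ℂ A).flip a)))
      (fun _ _ _ => Bil.ext fun _ _ => by simp [mul_add])
      (fun _ _ _ => Bil.ext fun _ _ => by simp)
      (fun _ _ _ => Bil.ext fun _ _ => by simp) (fun _ _ _ => Bil.ext fun _ _ => by simp))
    1 (fun a B => by
      rw [LinearMap.mk₂_apply, norm_toB]
      refine ContinuousLinearMap.opNorm_le_bound₂ _ (by positivity) fun x y => ?_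
      refine ((ofB B).le_opNorm₂ x (y * a)).trans ?_
      rw [norm_ofB]
      calc _ ≤ ‖B‖ * ‖x‖ * (‖y‖ * ‖a‖) := by gcongr; exact norm_mul_le _ _
        _ = _ := by ring)

@[simp] lemma rB_apply (a : A) (B : Bil A) (x y : A) : ofB (rB a B) x y = ofB B x (y * a) := rfl

noncomputable def dl {V : Type} [NormedAddCommGroup V] [NormedSpace ℂ V] (T : A →L[ℂ] V →L[ℂ] V) :
    A →L[ℂ] (V →L[ℂ] ℂ) →L[ℂ] (V →L[ℂ] ℂ) :=
  (ContinuousLinearMap.compL ℂ V V ℂ).flip.comp T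

lemma dl_apply {V : Type} [NormedAddCommGroup V] [NormedSpace ℂ V] (T : A →L[ℂ] V →L[ℂ] V)
    (a : A) (Φ : V →L[ℂ] ℂ) (B : V) : dl T a Φ B = Φ (T a B) := rfl

noncomputable def lm (a : A) : A ⊗[ℂ] A →ₗ[ℂ] A ⊗[ℂ] A :=
  TensorProduct.map (LinearMap.mulLeft ℂ a) LinearMap.id
noncomputable def rm (a : A) : A ⊗[ℂ] A →ₗ[ℂ] A ⊗[ℂ] A :=
  TensorProduct.map LinearMap.id (LinearMap.mulRight ℂ a)

@[simp] lemma lm_tmul (a x y : A) : lm a (x ⊗ₜ y) = (a * x) ⊗ₜ[ℂ] y := rfl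
@[simp] lemma rm_tmul (a x y : A) : rm a (x ⊗ₜ y) = x ⊗ₜ[ℂ] (y * a) := rfl

lemma io_lm (a : A) (t : A ⊗[ℂ] A) : dl lB a (io t) = io (lm a t) := by
  induction t using TensorProduct.induction_on with
  | zero => simp
  | tmul x y => ext B; rfl
  | add x y hx hy => simp only [map_add, hx, hy]

lemma io_rm (a : A) (t : A ⊗[ℂ] A) : dl rB a (io t) = io (rm a t) := by
  induction t using TensorProduct.induction_on with
  | zero => simp
  | tmul x y => ext B; rfl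
  | add x y hx hy => simp only [map_add, hx, hy]

lemma gen2 (hA : BAC A) (N : Submodule ℂ (A ⊗[ℂ] A)) (hl : ∀ a, ∀ t ∈ N, lm a t ∈ N)
    (hr : ∀ a, ∀ t ∈ N, rm a t ∈ N) (M0 : A ⊗[ℂ] A) (hM : ∀ a, lm a M0 - rm a M0 ∈ N) :
    ∃ C : ℝ, 0 ≤ C ∧ ∀ F : Finset A, ∀ ε : ℝ, 0 < ε → ∃ M, M0 - M ∈ N ∧
      (∀ a, ‖io (lm a M - rm a M)‖ ≤ C * ‖a‖) ∧ ∀ a ∈ F, ‖io (lm a M - rm a M)‖ < ε := by
  obtain ⟨C, hC0, hC⟩ := gen hA (dl lB) (dl rB)
    (fun a b y => by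
      ext B; simp only [dl_apply]; congr 1; exact Bil.ext fun x z => by simp [mul_assoc])
    (fun a b y => by
      ext B; simp only [dl_apply]; congr 1; exact Bil.ext fun x z => by simp [mul_assoc])
    (fun a b y => by
      ext B; simp only [dl_apply]; congr 1)
    (N.map io)
    (by rintro a _ ⟨t, ht, rfl⟩; exact ⟨_, hl a t ht, (io_lm a t).symm⟩)
    (by rintro a _ ⟨t, ht, rfl⟩; exact ⟨_, hr a t ht, (io_rm a t).symm⟩)
    (io M0) (fun a => ⟨_, hM a, by rw [map_sub, io_lm, io_rm]⟩)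
  refine ⟨C, hC0, fun F ε hε => ?_⟩
  obtain ⟨_, ⟨t, ht, rfl⟩, h1, h2⟩ := hC F ε hε
  simp only [← map_sub io, io_lm, io_rm] at h1 h2
  exact ⟨M0 - t, by simpa using ht, h1, h2⟩

/-- slice maps -/
noncomputable def sl (θ : A →ₗ[ℂ] ℂ) : A ⊗[ℂ] A →ₗ[ℂ] A :=
  TensorProduct.lift ((LinearMap.lsmul ℂ A).comp θ)
noncomputable def sr (θ : A →ₗ[ℂ] ℂ) : A ⊗[ℂ] A →ₗ[ℂ] A :=
  TensorProduct.lift ((LinearMap.lsmul ℂ A).comp θ).flip

@[simp] lemma sl_tmul (θ : A →ₗ[ℂ] ℂ) (x y : A) : sl θ (x ⊗ₜ y) = θ x • y := rfl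
@[simp] lemma sr_tmul (θ : A →ₗ[ℂ] ℂ) (x y : A) : sr θ (x ⊗ₜ y) = θ y • x := rfl

lemma sl_bd (θ μ : A →L[ℂ] ℂ) (t : A ⊗[ℂ] A) :
    ‖μ (sl (θ : A →ₗ[ℂ] ℂ) t)‖ ≤ ‖io t‖ * ‖θ‖ * ‖μ‖ := by
  have : μ (sl (θ : A →ₗ[ℂ] ℂ) t) = io t (toB (θ.smulRight μ)) := by
    induction t using TensorProduct.induction_on with
    | zero => simp
    | tmul x y => simp
    | add x y hx hy => simp only [map_add, hx, hy, add_apply]
  rw [this, mul_assoc, ← ContinuousLinearMap.norm_smulRight_apply, ← norm_toB]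
  exact (io t).le_opNorm _

lemma sr_bd (θ μ : A →L[ℂ] ℂ) (t : A ⊗[ℂ] A) :
    ‖μ (sr (θ : A →ₗ[ℂ] ℂ) t)‖ ≤ ‖io t‖ * ‖θ‖ * ‖μ‖ := by
  have : μ (sr (θ : A →ₗ[ℂ] ℂ) t) = io t (toB (μ.smulRight θ)) := by
    induction t using TensorProduct.induction_on with
    | zero => simp
    | tmul x y => simp [mul_comm]
    | add x y hx hy => simp only [map_add, hx, hy, add_apply]
  rw [this, mul_assoc, mul_comm ‖θ‖, ← ContinuousLinearMap.norm_smulRight_apply, ← norm_toB]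
  exact (io t).le_opNorm _

lemma sl_norm (θ : A →L[ℂ] ℂ) (t : A ⊗[ℂ] A) : ‖sl (θ : A →ₗ[ℂ] ℂ) t‖ ≤ ‖io t‖ * ‖θ‖ :=
  NormedSpace.norm_le_dual_bound ℂ _ (by positivity) fun μ => sl_bd θ μ t

lemma sr_norm (θ : A →L[ℂ] ℂ) (t : A ⊗[ℂ] A) : ‖sr (θ : A →ₗ[ℂ] ℂ) t‖ ≤ ‖io t‖ * ‖θ‖ :=
  NormedSpace.norm_le_dual_bound ℂ _ (by positivity) fun μ => sr_bd θ μ t

noncomputable def qq (J : Submodule ℂ A) : A ⊗[ℂ] A →ₗ[ℂ] (A ⧸ J) ⊗[ℂ] (A ⧸ J) :=
  TensorProduct.map J.mkQ J.mkQ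

lemma factor (J : Submodule ℂ A) {E : Type} [AddCommGroup E] [Module ℂ E]
    (β : A ⊗[ℂ] A →ₗ[ℂ] E) (h1 : ∀ x ∈ J, ∀ y, β (x ⊗ₜ y) = 0) (h2 : ∀ x, ∀ y ∈ J, β (x ⊗ₜ y) = 0)
    (t : A ⊗[ℂ] A) (ht : qq J t = 0) : β t = 0 := by
  obtain ⟨σ, hσ⟩ := J.mkQ.exists_rightInverse_of_surjective J.range_mkQ
  have hx : ∀ x, x - σ (J.mkQ x) ∈ J := fun x => by
    rw [← Submodule.Quotient.mk_eq_zero, ← Submodule.mkQ_apply, map_sub, sub_eq_zero]
    exact (LinearMap.congr_fun hσ _).symm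
  have : ∀ t, β t = β (TensorProduct.map σ σ (qq J t)) := by
    intro t
    induction t using TensorProduct.induction_on with
    | zero => simp
    | tmul x y =>
      have a1 := h1 _ (hx x) y
      have a2 := h2 (σ (J.mkQ x)) _ (hx y)
      rw [sub_tmul, map_sub, sub_eq_zero] at a1
      rw [tmul_sub, map_sub, sub_eq_zero] at a2
      rw [a1, a2]; rfl
    | add x y hx hy => simp only [map_add, ← hx, ← hy]
  rw [this, ht, map_zero, map_zero]

theorem exists_diag (hA : BAC A) (J : Submodule ℂ A) (hJ : ∀ a x : A, x ∈ J → a * x ∈ J ∧ x * a ∈ J)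
    (hc : IsClosed (J : Set A)) [FiniteDimensional ℂ (A ⧸ J)] :
    ∃ M0 : A ⊗[ℂ] A, LinearMap.mul' ℂ A M0 - 1 ∈ J ∧ ∀ a, qq J (lm a M0 - rm a M0) = 0 := by
  classical
  let N : Submodule ℂ (A ⊗[ℂ] A) := J.comap (LinearMap.mul' ℂ A)
  have hl : ∀ a t, LinearMap.mul' ℂ A (lm a t) = a * LinearMap.mul' ℂ A t := by
    intro a t
    induction t using TensorProduct.induction_on with
    | zero => simp
    | tmul x y => simp [mul_assoc]
    | add x y hx hy => simp only [map_add, hx, hy, mul_add]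
  have hr : ∀ a t, LinearMap.mul' ℂ A (rm a t) = LinearMap.mul' ℂ A t * a := by
    intro a t
    induction t using TensorProduct.induction_on with
    | zero => simp
    | tmul x y => simp [mul_assoc]
    | add x y hx hy => simp only [map_add, hx, hy, add_mul]
  obtain ⟨C, -, hC⟩ := gen2 hA N (fun a t ht => by
      show _ ∈ J; rw [hl]; exact (hJ a _ ht).1) (fun a t ht => by
      show _ ∈ J; rw [hr]; exact (hJ a _ ht).2) (1 ⊗ₜ 1) (fun a => by
      show _ ∈ J; simp)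
  let β := Module.finBasis ℂ (A ⧸ J)
  choose b hb using fun j => J.mkQ_surjective (β j)
  let Ψ : A ⊗[ℂ] A →ₗ[ℂ] (Fin (Module.finrank ℂ (A ⧸ J)) → (A ⧸ J) ⊗[ℂ] (A ⧸ J)) :=
    LinearMap.pi fun j => (qq J).comp (lm (b j) - rm (b j))
  have hmem : Ψ (1 ⊗ₜ 1) ∈ N.map Ψ := by
    by_contra hn
    obtain ⟨Λ, hΛ1, hΛ2⟩ := Submodule.exists_dual_map_eq_bot_of_notMem hn inferInstance
    have hB : ∀ φ : (A ⧸ J) ⊗[ℂ] (A ⧸ J) →ₗ[ℂ] ℂ, ∃ B : Bil A, ∀ t, io t B = φ (qq J t) := by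
      intro φ
      let D : (A ⧸ J) →L[ℂ] (A ⧸ J) →L[ℂ] ℂ := LinearMap.toContinuousLinearMap
        ((LinearMap.toContinuousLinearMap : ((A ⧸ J) →ₗ[ℂ] ℂ) ≃ₗ[ℂ] ((A ⧸ J) →L[ℂ] ℂ)).toLinearMap ∘ₗ
          TensorProduct.curry φ)
      refine ⟨toB (D.bilinearComp J.mkQL J.mkQL), fun t => ?_⟩
      induction t using TensorProduct.induction_on with
      | zero => simp
      | tmul x y => rfl
      | add x y hx hy => simp only [map_add, hx, hy, add_apply]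
    choose B hB using hB
    let c := ∑ j, ‖B (Λ.comp (LinearMap.single ℂ (fun _ => (A ⧸ J) ⊗[ℂ] (A ⧸ J)) j))‖
    have hc0 : 0 ≤ c := Finset.sum_nonneg fun _ _ => norm_nonneg _
    have hp : 0 < ‖Λ (Ψ (1 ⊗ₜ 1))‖ := norm_pos_iff.2 hΛ1
    obtain ⟨M, hM, -, h2⟩ := hC (Finset.univ.image b) (‖Λ (Ψ (1 ⊗ₜ 1))‖ / (c + 1)) (by positivity)
    have e1 : Λ (Ψ (1 ⊗ₜ 1)) = Λ (Ψ M) := by
      have : Λ (Ψ (1 ⊗ₜ 1 - M)) ∈ (N.map Ψ).map Λ := ⟨_, ⟨_, hM, rfl⟩, rfl⟩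
      rw [hΛ2, Submodule.mem_bot, map_sub, map_sub, sub_eq_zero] at this
      exact this
    have e2 : Λ (Ψ M) = ∑ j, io (lm (b j) M - rm (b j) M) (B (Λ.comp (LinearMap.single ℂ (fun _ => (A ⧸ J) ⊗[ℂ] (A ⧸ J)) j))) := by
      simp only [hB]
      rw [← Finset.univ_sum_single (Ψ M), map_sum]
      rfl
    have e3 : ‖Λ (Ψ M)‖ ≤ ‖Λ (Ψ (1 ⊗ₜ 1))‖ / (c + 1) * c := by
      rw [e2, Finset.mul_sum]
      refine (norm_sum_le _ _).trans (Finset.sum_le_sum fun j _ => ?_)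
      refine ((io _).le_opNorm _).trans (mul_le_mul_of_nonneg_right ?_ (norm_nonneg _))
      exact (h2 _ (Finset.mem_image_of_mem b (Finset.mem_univ j))).le
    rw [← e1, div_mul_eq_mul_div, le_div_iff₀ (by positivity)] at e3
    nlinarith
  obtain ⟨t, ht, hte⟩ := hmem
  have ht' : LinearMap.mul' ℂ A t ∈ J := ht
  refine ⟨1 ⊗ₜ 1 - t, by simpa using ht', fun a => ?_⟩
  set M0 := (1 : A) ⊗ₜ[ℂ] (1 : A) - t
  have h0 : ∀ j, qq J (lm (b j) M0 - rm (b j) M0) = 0 := fun j => by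
    have : Ψ M0 = 0 := by rw [map_sub, hte, sub_self]
    exact congrFun this j
  let Θ : A →ₗ[ℂ] (A ⧸ J) ⊗[ℂ] (A ⧸ J) :=
    { toFun := fun a => qq J (lm a M0 - rm a M0)
      map_add' := fun x y => by
        rw [← map_add]; congr 1
        induction M0 using TensorProduct.induction_on with
        | zero => simp
        | tmul u v => simp [add_mul, mul_add, add_tmul, tmul_add]; abel
        | add u v hu hv => simp only [map_add, add_sub_add_comm, hu, hv]; abel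
      map_smul' := fun c x => by
        rw [← map_smul]; congr 1
        induction M0 using TensorProduct.induction_on with
        | zero => simp
        | tmul u v => simp [smul_sub, smul_tmul']
        | add u v hu hv => simp only [map_add, add_sub_add_comm, hu, hv, smul_add] }
  have hΘJ : J ≤ LinearMap.ker Θ := by
    intro x hx
    show qq J (lm x M0 - rm x M0) = 0
    induction M0 using TensorProduct.induction_on with
    | zero => simp
    | tmul u v =>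
      simp [qq, (Submodule.Quotient.mk_eq_zero J).2 (hJ u x hx).2,
        (Submodule.Quotient.mk_eq_zero J).2 (hJ v x hx).1]
    | add u v hu hv => simp only [map_add, add_sub_add_comm, hu, hv, add_zero]
  have : J.liftQ Θ hΘJ = 0 := β.ext fun j => by
    rw [← hb]; exact h0 j
  exact LinearMap.congr_fun this (J.mkQ a)

end Pool.Agent.Lib.helper15.Bac
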