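import Mathlib

set_option autoImplicit false

open MeasureTheory Filter Topology Set
open scoped Real FourierTransform

namespace Pool.Agent.Lib.helper15.MagFour

/-- the character `exp (i t)` -/
noncomputable def e (t : ℝ) : ℂ := Complex.exp (t * Complex.I)

@[simp] lemma norm_e (t : ℝ) : ‖e t‖ = 1 := Complex.norm_exp_ofReal_mul_I t
lemma e_add (s t : ℝ) : e (s + t) = e s * e t := by
  simp [e, ← Complex.exp_add, add_mul]
@[simp] lemma e_zero : e 0 = 1 := by simp [e]
@[fun_prop] lemma cont_e : Continuous e := by unfold e; fun_prop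
lemma e_re (t : ℝ) : (e t).re = Real.cos t := Complex.exp_ofReal_mul_I_re t
lemma e_im (t : ℝ) : (e t).im = Real.sin t := Complex.exp_ofReal_mul_I_im t
lemma conj_e (t : ℝ) : (starRingEnd ℂ) (e t) = e (-t) := by
  simp [e, ← Complex.exp_conj]

lemma int_e {α : Type*} [MeasurableSpace α] {μ : Measure α} {f : α → ℂ} (hf : Integrable f μ)
    {θ : α → ℝ} (hθ : Measurable θ) : Integrable (fun a => e (θ a) * f a) μ :=
  hf.bdd_mul (c := 1) (cont_e.measurable.comp hθ).aestronglyMeasurable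
    (Eventually.of_forall fun a => (norm_e _).le)

lemma inv1 (f g : ℝ → ℂ) (hf : Integrable f) (hg : Integrable g)
    (h : ∀ᵐ ξ : ℝ, ∫ x, e (-(ξ * x)) * f x = g ξ) (s : ℝ) (hs : ContinuousAt f s) :
    ∫ ξ, e (s * ξ) * g ξ = 2 * π * f s := by
  let G : ℝ → ℂ := fun ξ => ∫ x, e (-(ξ * x)) * f x
  have hG : Integrable G := hg.congr (h.mono fun ξ h => h.symm)
  have p0 : (2 * π : ℝ) ≠ 0 := by positivity
  have e1 : 𝓕 f = fun w => G (2 * π * w) := by
    funext w
    rw [Real.fourier_real_eq_integral_exp_smul]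
    refine integral_congr_ae (Eventually.of_forall fun x => ?_)
    simp only [e, smul_eq_mul]
    congr 3; ring
  have h1 := hf.fourierInv_fourier_eq (by rw [e1]; exact hG.comp_mul_left' p0) hs
  rw [Real.fourierInv_eq', e1] at h1
  have h2 := Measure.integral_comp_mul_left (fun ξ => e (s * ξ) * G ξ) (2 * π)
  have h3 : ∫ v : ℝ, e (s * (2 * π * v)) * G (2 * π * v) = f s := by
    rw [← h1]
    refine integral_congr_ae (Eventually.of_forall fun x => ?_)
    simp only [e, smul_eq_mul]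
    congr 3
    simp; ring
  rw [h3, abs_of_pos (by positivity)] at h2
  have h4 : ∫ ξ, e (s * ξ) * g ξ = ∫ ξ, e (s * ξ) * G ξ :=
    integral_congr_ae (h.mono fun ξ h => by simp only [G, h])
  rw [h4, h2, Complex.real_smul]
  have : (π : ℂ) ≠ 0 := by simp
  push_cast; field_simp

lemma int_abs0 : Integrable fun x : ℝ => Real.exp (-|x|) := by
  rw [← integrableOn_univ, ← Iic_union_Ioi (a := (0 : ℝ))]
  refine IntegrableOn.union ?_ ?_
  · exact (integrableOn_exp_Iic 0).congr_fun (fun x hx => by simp [abs_of_nonpos (mem_Iic.1 hx)])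
      measurableSet_Iic
  · exact (integrableOn_exp_neg_Ioi 0).congr_fun (fun x hx => by simp [abs_of_pos (mem_Ioi.1 hx)])
      measurableSet_Ioi

lemma int_abs : Integrable fun x : ℝ => ((Real.exp (-|x|) : ℝ) : ℂ) := int_abs0.ofReal

lemma cauchy (s : ℝ) : ∫ ξ : ℝ, e (s * ξ) * (((1 + ξ ^ 2)⁻¹ : ℝ) : ℂ) = π * Real.exp (-|s|) := by
  have := inv1 _ (fun ξ => 2 * (((1 + ξ ^ 2)⁻¹ : ℝ) : ℂ)) int_abs
    ((integrable_inv_one_add_sq.ofReal).const_mul 2) (Eventually.of_forall fun ξ => ?_) s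
    (by fun_prop)
  · simp only [mul_left_comm _ (2 : ℂ), integral_const_mul] at this
    linear_combination this / 2
  · rw [← integral_add_compl (s := Iic 0) measurableSet_Iic (int_e int_abs (by fun_prop)), compl_Iic,
      setIntegral_congr_fun (g := fun x : ℝ => Complex.exp ((1 - ξ * Complex.I) * x))
        measurableSet_Iic, setIntegral_congr_fun
        (g := fun x : ℝ => Complex.exp ((-1 - ξ * Complex.I) * x)) measurableSet_Ioi,
      integral_exp_mul_complex_Iic (by simp), integral_exp_mul_complex_Ioi (by simp)]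
    · have h1 : (1 - ξ * Complex.I) ≠ 0 := fun h => by simpa using congrArg Complex.re h
      have h2 : (-1 - ξ * Complex.I) ≠ 0 := fun h => by simpa using congrArg Complex.re h
      have h3 : (1 + (ξ : ℂ) ^ 2) ≠ 0 := by exact_mod_cast (by positivity : (1 + ξ ^ 2) ≠ 0)
      simp only [Complex.ofReal_zero, mul_zero, Complex.exp_zero]
      push_cast
      field_simp
      linear_combination (-2 * ξ ^ 2) * Complex.I_sq
    · intro x hx
      simp only [e, abs_of_pos (mem_Ioi.1 hx), Complex.ofReal_exp, ← Complex.exp_add]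
      congr 1; push_cast; ring
    · intro x hx
      simp only [e, abs_of_nonpos (mem_Iic.1 hx), Complex.ofReal_exp, ← Complex.exp_add]
      congr 1; push_cast; ring

/-- the planar Poisson kernel -/
noncomputable def Φ (p : ℝ × ℝ) : ℝ := (2 * π * √(1 + p.1 ^ 2 + p.2 ^ 2) ^ 3)⁻¹

lemma Φ_pos (p : ℝ × ℝ) : 0 < Φ p := by unfold Φ; positivity

lemma cont_Φ : Continuous Φ := by
  unfold Φ
  exact Continuous.inv₀ (by fun_prop) fun p => by positivity

lemma int_Φ : Integrable Φ := by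
  have h := (integrable_rpow_neg_one_add_norm_sq (E := ℝ × ℝ) (μ := volume) (r := 3)
    (by simp; norm_num)).const_mul (2 * π)⁻¹
  refine h.mono' cont_Φ.aestronglyMeasurable (Eventually.of_forall fun p => ?_)
  rw [Real.norm_of_nonneg (Φ_pos p).le, Φ, mul_inv]
  gcongr
  have h1 : ‖p‖ ^ 2 ≤ p.1 ^ 2 + p.2 ^ 2 := by
    rw [Prod.norm_def, Real.norm_eq_abs, Real.norm_eq_abs]
    rcases le_total |p.1| |p.2| with h | h
    · rw [max_eq_right h, sq_abs]; nlinarith [sq_nonneg p.1]
    · rw [max_eq_left h, sq_abs]; nlinarith [sq_nonneg p.2]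
  have : (1 + ‖p‖ ^ 2) ^ (-(3 : ℝ) / 2) = (√(1 + ‖p‖ ^ 2) ^ 3)⁻¹ := by
    rw [Real.sqrt_eq_rpow, ← Real.rpow_natCast _ 3, ← Real.rpow_mul (by positivity),
      ← Real.rpow_neg (by positivity)]
    norm_num
  rw [this]
  have h2 : 1 + ‖p‖ ^ 2 ≤ 1 + p.1 ^ 2 + p.2 ^ 2 := by linarith
  gcongr

lemma marg (ξ : ℝ) (hi : Integrable fun η => Φ (ξ, η)) : ∫ η, Φ (ξ, η) = π⁻¹ * (1 + ξ ^ 2)⁻¹ := by
  set c := 1 + ξ ^ 2 with hc
  have c0 : 0 < c := by positivity
  have lim : Tendsto (fun η : ℝ => η / √(c + η ^ 2)) atTop (𝓝 1) := by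
    have h1 : Tendsto (fun η : ℝ => (√(c * η⁻¹ ^ 2 + 1))⁻¹) atTop (𝓝 (√(c * 0 ^ 2 + 1))⁻¹) :=
      (((tendsto_inv_atTop_zero.pow 2).const_mul c).add_const 1).sqrt.inv₀ (by simp)
    simp only [ne_eq, OfNat.ofNat_ne_zero, not_false_eq_true, zero_pow, mul_zero, zero_add,
      Real.sqrt_one, inv_one] at h1
    refine h1.congr' ((eventually_gt_atTop 0).mono fun η hη => ?_)
    have : c + η ^ 2 = η ^ 2 * (c * η⁻¹ ^ 2 + 1) := by field_simp
    simp only
    rw [this, Real.sqrt_mul (by positivity), Real.sqrt_sq hη.le]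
    field_simp
  have lim' : Tendsto (fun η : ℝ => η / √(c + η ^ 2)) atBot (𝓝 (-1)) := by
    have := (lim.comp tendsto_neg_atBot_atTop).neg
    refine this.congr fun η => by simp [neg_div]
  rw [integral_of_hasDerivAt_of_tendsto (f := fun η => (2 * π * c)⁻¹ * (η / √(c + η ^ 2)))
    (fun η => ?_) hi (lim'.const_mul _) (lim.const_mul _)]
  · field_simp; ring
  · have p : 0 < c + η ^ 2 := by positivity
    have sp : 0 < √(c + η ^ 2) := Real.sqrt_pos.2 p
    have d := ((hasDerivAt_id' η).div (((hasDerivAt_pow 2 η).const_add c).sqrt p.ne') sp.ne').const_mul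
      (2 * π * c)⁻¹
    refine d.congr_deriv ?_
    have hs := Real.sq_sqrt p.le
    simp only [Φ, ← hc]
    set s := √(c + η ^ 2)
    field_simp
    rw [hs]; simp; ring

lemma plane0 (r : ℝ) : ∫ p : ℝ × ℝ, e (r * p.1) * Φ p = Real.exp (-|r|) := by
  have hi : Integrable (fun p : ℝ × ℝ => e (r * p.1) * Φ p) (volume.prod volume) :=
    int_e int_Φ.ofReal (by fun_prop)
  rw [Measure.volume_eq_prod, integral_prod _ hi]
  have : ∀ᵐ ξ : ℝ, ∫ η : ℝ, e (r * ξ) * Φ (ξ, η) =
      (π : ℂ)⁻¹ * (e (r * ξ) * (((1 + ξ ^ 2)⁻¹ : ℝ) : ℂ)) := by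
    filter_upwards [Integrable.prod_right_ae (μ := volume) (ν := volume) int_Φ] with ξ h
    rw [integral_const_mul, integral_complex_ofReal, marg ξ h]
    push_cast; ring
  rw [integral_congr_ae this, integral_const_mul, cauchy]
  have : (π : ℂ) ≠ 0 := by simp
  field_simp

lemma plane (a b : ℝ) :
    ∫ p : ℝ × ℝ, e (a * p.1 + b * p.2) * Φ p = Real.exp (-√(a ^ 2 + b ^ 2)) := by
  have hn : ‖(⟨a, b⟩ : ℂ)‖ = √(a ^ 2 + b ^ 2) := by
    rw [Complex.norm_eq_sqrt_sq_add_sq]
  obtain ⟨u, hu⟩ : ∃ u : Circle, (⟨a, b⟩ : ℂ) = (‖(⟨a, b⟩ : ℂ)‖ : ℝ) * u :=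
    ⟨Circle.exp (Complex.arg ⟨a, b⟩), by simp⟩
  rw [hn] at hu
  set r := √(a ^ 2 + b ^ 2)
  have ha : a = r * (u : ℂ).re := by simpa using congrArg Complex.re hu
  have hb : b = r * (u : ℂ).im := by simpa using congrArg Complex.im hu
  have h1 : (u : ℂ).re ^ 2 + (u : ℂ).im ^ 2 = 1 := by
    have := Circle.normSq_coe u
    rw [Complex.normSq_apply] at this; nlinarith
  have h0 := plane0 r
  rw [abs_of_nonneg (Real.sqrt_nonneg _)] at h0
  rw [← h0, ← Complex.volume_preserving_equiv_real_prod.integral_comp',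
    ← Complex.volume_preserving_equiv_real_prod.integral_comp',
    ← (rotation u).measurePreserving.integral_comp (rotation u).toHomeomorph.measurableEmbedding]
  refine integral_congr_ae (Eventually.of_forall fun z => ?_)
  simp only [rotation_apply, Complex.measurableEquivRealProd_apply, Complex.mul_re, Complex.mul_im,
    Φ]
  congr 2
  · rw [ha, hb]; linear_combination r * z.re * h1
  · congr 4; linear_combination (z.re ^ 2 + z.im ^ 2) * h1

end Pool.Agent.Lib.helper15.MagFour
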