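import Mathlib
import Pool.Agent.Lib.helper15.MagFour

set_option autoImplicit false

open MeasureTheory Filter Topology Set
open scoped Real FourierTransform RealInnerProductSpace

namespace Pool.Agent.Lib.helper15.MagFour

section wd
variable {Ω F : Type*} [MeasurableSpace Ω] (m : Measure Ω) {g : Ω → ℝ}
  [NormedAddCommGroup F] [NormedSpace ℝ F]

/-- measure with a real density -/
noncomputable def wd (g : Ω → ℝ) : Measure Ω := m.withDensity fun x => ENNReal.ofReal (g x)

lemma wd_integral (hg : Measurable g) (g0 : ∀ x, 0 ≤ g x) (f : Ω → F) :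
    ∫ x, f x ∂(wd m g) = ∫ x, g x • f x ∂m := by
  rw [wd, integral_withDensity_eq_integral_toReal_smul hg.ennreal_ofReal (by simp)]
  simp only [ENNReal.toReal_ofReal (g0 _)]

lemma wd_integrable (hg : Measurable g) (g0 : ∀ x, 0 ≤ g x) (f : Ω → F) :
    Integrable f (wd m g) ↔ Integrable (fun x => g x • f x) m := by
  rw [wd, integrable_withDensity_iff_integrable_smul' hg.ennreal_ofReal (by simp)]
  simp only [ENNReal.toReal_ofReal (g0 _)]

lemma wd_finite (hg : Integrable g m) : IsFiniteMeasure (wd m g) :=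
  isFiniteMeasure_withDensity_ofReal hg.2

lemma wd_mass (hg : Measurable g) (g0 : ∀ x, 0 ≤ g x) : (wd m g).real univ = ∫ x, g x ∂m := by
  simpa using wd_integral m hg g0 (fun _ => (1 : ℝ))

end wd

lemma psd_int {Ω : Type*} [MeasurableSpace Ω] (μ : Measure Ω) [IsProbabilityMeasure μ]
    (K : Ω → Ω → ℝ) (hm : Measurable (Function.uncurry K)) (hb : ∀ x y, |K x y| ≤ 1)
    (hs : ∀ x y, K x y = K y x) (h : ∀ (n : ℕ) (x : Fin n → Ω), 0 ≤ ∑ i, ∑ j, K (x i) (x j)) :
    0 ≤ ∫ x, ∫ y, K x y ∂μ ∂μ := by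
  have i1 : ∀ x, Integrable (K x) μ := fun x =>
    Integrable.of_bound (hm.comp measurable_prodMk_left).aestronglyMeasurable 1
      (Eventually.of_forall (hb x))
  have i2 : Integrable (fun x => ∫ y, K x y ∂μ) μ :=
    (Integrable.of_bound (μ := μ.prod μ) hm.aestronglyMeasurable 1
      (Eventually.of_forall fun p => hb p.1 p.2)).integral_prod_left
  set I := ∫ x, ∫ y, K x y ∂μ ∂μ with hI
  have key : ∀ (n : ℕ) (u : Ω → ℝ), Integrable u μ → ∃ x : Fin n → Ω,
      ∑ i, ∑ j, K (x i) (x j) + ∑ i, u (x i) ≤ n + n * (n - 1) * I + n * ∫ y, u y ∂μ := by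
    intro n
    induction n with
    | zero => exact fun u _ => ⟨Fin.elim0, by simp⟩
    | succ n ih =>
      intro u hu
      obtain ⟨x, h1⟩ := ih (fun x => u x + 2 * ∫ y, K x y ∂μ) (hu.add (i2.const_mul 2))
      have i3 : Integrable (fun y => ∑ i, K (x i) y) μ := integrable_finsetSum _ fun i _ => i1 _
      obtain ⟨y, h2⟩ := exists_le_integral (μ := μ) (f := fun y => 2 * ∑ i, K (x i) y + u y)
        ((i3.const_mul 2).add hu)
      rw [integral_add (i3.const_mul 2) hu, integral_const_mul,
        integral_finsetSum _ fun i _ => i1 _] at h2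
      rw [integral_add hu (i2.const_mul 2), integral_const_mul, ← hI, Finset.sum_add_distrib,
        ← Finset.mul_sum] at h1
      refine ⟨Fin.cons y x, ?_⟩
      simp only [Fin.sum_univ_succ, Fin.cons_zero, Fin.cons_succ, Finset.sum_add_distrib, hs y]
      push_cast
      linarith [(abs_le.1 (hb y y)).2]
  by_contra hn
  push Not at hn
  obtain ⟨n, h1⟩ := exists_nat_gt (1 / -I)
  obtain ⟨x, h2⟩ := key (n + 1) (fun _ => 0) (integrable_zero _ _ _)
  have h3 := h _ x
  rw [div_lt_iff₀ (by linarith)] at h1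
  simp only [Finset.sum_const_zero, add_zero, integral_zero, mul_zero] at h2
  push_cast at h2
  nlinarith [(Nat.cast_nonneg n : (0 : ℝ) ≤ n)]

variable {V : Type} [NormedAddCommGroup V] [InnerProductSpace ℝ V] [MeasurableSpace V]
  [BorelSpace V] [FiniteDimensional ℝ V]

lemma int_exp_norm {a : ℝ} (ha : 0 < a) : Integrable fun x : V => Real.exp (-(a * ‖x‖)) := by
  have h := ((integrable_one_add_norm (E := V) (μ := volume) (r := (Module.finrank ℝ V + 1 : ℕ))
    (by simp)).comp_smul ha.ne').const_mul (Real.exp 1 * (Module.finrank ℝ V + 1).factorial)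
  refine h.mono' (by fun_prop) (Eventually.of_forall fun x => ?_)
  rw [Real.norm_of_nonneg (Real.exp_pos _).le, norm_smul, Real.norm_of_nonneg ha.le,
    Real.rpow_neg (by positivity), Real.rpow_natCast, ← div_eq_mul_inv, le_div_iff₀ (by positivity)]
  have := Real.pow_div_factorial_le_exp (1 + a * ‖x‖) (by positivity) (Module.finrank ℝ V + 1)
  rw [div_le_iff₀ (by positivity), Real.exp_add] at this
  rw [Real.exp_neg, inv_mul_le_iff₀ (Real.exp_pos _)]
  linarith

structure PN (N : Seminorm ℝ V) : Prop where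
  cont : Continuous N
  low : ∃ c > 0, ∀ x, c * ‖x‖ ≤ N x
  psd : ∀ (n : ℕ) (x : Fin n → V) (w : Fin n → ℝ),
    0 ≤ ∑ i, ∑ j, w i * w j * Real.exp (-N (x i - x j))

variable {N : Seminorm ℝ V} (hN : PN N)
include hN

lemma PN.int {a : ℝ} (ha : 0 < a) : Integrable fun x : V => Real.exp (-(a * N x)) := by
  obtain ⟨c, hc, h⟩ := hN.low
  have := hN.cont
  refine (int_exp_norm (mul_pos ha hc)).mono' (by fun_prop) (Eventually.of_forall fun x => ?_)
  rw [Real.norm_of_nonneg (Real.exp_pos _).le, Real.exp_le_exp]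
  nlinarith [h x]

lemma PN.window (ξ : V) {a : ℝ} (ha : 0 < a) : ∃ Λ : V → ℝ, Measurable Λ ∧
    (∀ z, Real.exp (-(a * N z)) ≤ Λ z ∧ Λ z ≤ Real.exp (a * N z)) ∧
    0 ≤ ∫ z, Real.exp (-N z) * Real.cos ⟪z, ξ⟫ * Λ z := by
  have hc := hN.cont
  let g : V → ℝ := fun x => Real.exp (-(a * N x))
  have gi : Integrable g := hN.int ha
  have g0 : ∀ x, 0 < g x := fun x => Real.exp_pos _
  have gc : Continuous g := by fun_prop
  have c0 : 0 < ∫ x, g x := integral_pos_of_integrable_nonneg_nonzero gc gi (fun x => (g0 x).le)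
    (x := 0) (g0 0).ne'
  set c := ∫ x, g x
  let k : V → ℝ := fun z => Real.exp (-N z) * Real.cos ⟪z, ξ⟫
  have kc : Continuous k := by fun_prop
  have kb : ∀ z, |k z| ≤ 1 := fun z => by
    rw [abs_mul, abs_of_pos (Real.exp_pos _)]
    exact mul_le_one₀ (by simp) (abs_nonneg _) (Real.abs_cos_le_one _)
  have gm : Measurable fun x => c⁻¹ * g x := by fun_prop
  have gp : ∀ x, 0 ≤ c⁻¹ * g x := fun x => (mul_pos (inv_pos.2 c0) (g0 x)).le
  have := wd_finite volume (gi.const_mul c⁻¹)
  have : IsProbabilityMeasure (wd volume fun x => c⁻¹ * g x) :=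
    isProbabilityMeasure_iff_real.2 (by
      rw [wd_mass _ gm gp, integral_const_mul, inv_mul_cancel₀ c0.ne'])
  have h := psd_int (wd volume fun x => c⁻¹ * g x) (fun x y => k (y - x))
    (Continuous.measurable (by fun_prop)) (fun x y => kb _) (fun x y => by
      simp only [k]; rw [← neg_sub x y, map_neg_eq_map, inner_neg_left, Real.cos_neg])
    (fun n x => by
      have h1 := hN.psd n x fun i => Real.cos ⟪x i, ξ⟫
      have h2 := hN.psd n x fun i => Real.sin ⟪x i, ξ⟫
      refine (add_nonneg h1 h2).trans_eq ?_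
      simp only [← Finset.sum_add_distrib, k, inner_sub_left, Real.cos_sub]
      refine Finset.sum_congr rfl fun i _ => Finset.sum_congr rfl fun j _ => ?_
      rw [map_sub_rev N (x j)]; ring)
  simp only [wd_integral _ gm gp, smul_eq_mul] at h
  have gb : ∀ x, g x ≤ 1 := fun x => Real.exp_le_one_iff.2 (by simp; positivity)
  have tri : ∀ x z, g (z + x) ≤ Real.exp (a * N z) * g x ∧
      Real.exp (-(a * N z)) * g x ≤ g (z + x) := fun x z => by
    simp only [g, ← Real.exp_add, Real.exp_le_exp]
    have h1 := map_add_le_add N z x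
    have h2 := map_add_le_add N (z + x) (-z)
    rw [map_neg_eq_map, add_neg_cancel_comm] at h2
    constructor <;> nlinarith
  have i2 : ∀ z, Integrable fun x => g x * g (z + x) := fun z =>
    gi.mul_bdd (c := 1) (by fun_prop) (Eventually.of_forall fun x => by
      rw [Real.norm_of_nonneg (g0 _).le]; exact gb _)
  have i3 : Integrable fun x => g x * g x := by simpa using i2 0
  have d0 : 0 < ∫ x, g x * g x := integral_pos_of_integrable_nonneg_nonzero (by fun_prop) i3
    (fun x => (mul_pos (g0 x) (g0 x)).le) (x := 0) (mul_pos (g0 0) (g0 0)).ne'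
  have ik : Integrable k := by
    refine (hN.int one_pos).mono' kc.aestronglyMeasurable (Eventually.of_forall fun z => ?_)
    rw [norm_mul, one_mul, Real.norm_of_nonneg (Real.exp_pos _).le]
    exact mul_le_of_le_one_right (Real.exp_pos _).le (Real.abs_cos_le_one _)
  have i4 : Integrable (Function.uncurry fun x z => g x * k z * g (z + x)) (volume.prod volume) :=
    (gi.mul_prod ik).mul_bdd (c := 1) (by fun_prop) (Eventually.of_forall fun x => by
      rw [Real.norm_of_nonneg (g0 _).le]; exact gb _)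
  refine ⟨fun z => (∫ x, g x * g x)⁻¹ * ∫ x, g x * g (z + x), ?_, fun z => ⟨?_, ?_⟩, ?_⟩
  · refine Measurable.const_mul (StronglyMeasurable.measurable ?_) _
    exact StronglyMeasurable.integral_prod_right (f := fun z x => g x * g (z + x))
      (Continuous.stronglyMeasurable (by fun_prop))
  · rw [le_inv_mul_iff₀ d0, ← integral_mul_const]
    refine integral_mono (i3.mul_const _) (i2 z) fun x => ?_
    have := mul_le_mul_of_nonneg_left (tri x z).2 (g0 x).le
    simp only; linarith
  · rw [inv_mul_le_iff₀ d0, ← integral_mul_const]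
    refine integral_mono (i2 z) (i3.mul_const _) fun x => ?_
    have := mul_le_mul_of_nonneg_left (tri x z).1 (g0 x).le
    simp only; linarith
  · have e1 : ∀ x, c⁻¹ * g x * ∫ y, c⁻¹ * g y * k (y - x) =
        c⁻¹ ^ 2 * ∫ z, g x * k z * g (z + x) := fun x => by
      rw [← integral_add_right_eq_self _ x, ← integral_const_mul, ← integral_const_mul]
      congr 1; funext z; rw [add_sub_cancel_right]; ring
    simp only [e1] at h
    rw [integral_const_mul, integral_integral_swap i4] at h
    have h3 : 0 ≤ ∫ z, ∫ x, g x * k z * g (z + x) :=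
      le_of_mul_le_mul_left (by simpa using h) (pow_pos (inv_pos.2 c0) 2)
    refine (mul_nonneg (inv_pos.2 d0).le h3).trans_eq ?_
    rw [← integral_const_mul]
    congr 1; funext z
    rw [mul_left_comm (k z), ← integral_const_mul (k z)]
    congr 2; funext x; ring

lemma PN.four_nonneg (ξ : V) : 0 ≤ ∫ z, Real.exp (-N z) * Real.cos ⟪z, ξ⟫ := by
  have hc := hN.cont
  choose Λ h1 h2 h3 using fun n : ℕ => hN.window ξ (a := 1 / 2 * (1 / ((n : ℝ) + 1))) (by positivity)
  have lim : Tendsto (fun n : ℕ => 1 / 2 * (1 / ((n : ℝ) + 1))) atTop (𝓝 0) := by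
    simpa using tendsto_one_div_add_atTop_nhds_zero_nat.const_mul (1 / 2 : ℝ)
  refine ge_of_tendsto' (tendsto_integral_of_dominated_convergence
    (fun z => Real.exp (-(1 / 2 * N z))) (fun n => ?_) (hN.int (by norm_num)) (fun n => ?_) ?_) h3
  · have := h1 n
    exact Measurable.aestronglyMeasurable (by fun_prop)
  · refine Eventually.of_forall fun z => ?_
    have h4 : 1 / ((n : ℝ) + 1) ≤ 1 := by rw [div_le_one (by positivity)]; simp
    rw [norm_mul, norm_mul, Real.norm_of_nonneg (Real.exp_pos _).le,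
      Real.norm_of_nonneg ((Real.exp_pos _).le.trans (h2 n z).1)]
    calc _ ≤ Real.exp (-N z) * 1 * Real.exp (1 / 2 * (1 / ((n : ℝ) + 1)) * N z) := by
          gcongr
          exacts [(Real.exp_pos _).le.trans (h2 n z).1, Real.abs_cos_le_one _, (h2 n z).2]
      _ ≤ _ := by
          rw [mul_one, ← Real.exp_add, Real.exp_le_exp]
          nlinarith [apply_nonneg N z]
  · refine Eventually.of_forall fun z => ?_
    have : Tendsto (fun n => Λ n z) atTop (𝓝 1) := by
      refine tendsto_of_tendsto_of_tendsto_of_le_of_le ?_ ?_ (fun n => (h2 n z).1) fun n => (h2 n z).2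
      · simpa using (lim.mul_const (N z)).neg.rexp
      · simpa using (lim.mul_const (N z)).rexp
    simpa using this.const_mul (Real.exp (-N z) * Real.cos ⟪z, ξ⟫)

theorem PN.stable : ∃ ν : Measure V, IsFiniteMeasure ν ∧
    ∀ x, ∫ ξ, e ⟪ξ, x⟫ ∂ν = Real.exp (-N x) := by
  have hc := hN.cont
  let φ : V → ℂ := fun x => (Real.exp (-N x) : ℝ)
  have i0 : Integrable fun x => Real.exp (-N x) := by simpa using hN.int one_pos
  have iφ : Integrable φ := i0.ofReal
  have cφ : Continuous φ := by fun_prop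
  let F : V → ℝ := fun ξ => ∫ z, Real.exp (-N z) * Real.cos ⟪z, (2 * π) • ξ⟫
  have F0 : ∀ ξ, 0 ≤ F ξ := fun ξ => hN.four_nonneg _
  have eF : ∀ ξ, 𝓕 φ ξ = F ξ := fun ξ => by
    have h1 : 𝓕 φ ξ = ∫ z, e (-⟪z, (2 * π) • ξ⟫) * φ z := by
      rw [Real.fourier_eq']; congr 1; funext z
      simp only [e, inner_smul_right, smul_eq_mul]; congr 4; ring
    have i1 : Integrable fun z => e (-⟪z, (2 * π) • ξ⟫) * φ z := int_e iφ (by fun_prop)
    have h2 := integral_re i1
    have h3 := integral_im i1
    simp only [RCLike.re_to_complex, RCLike.im_to_complex, φ, Complex.mul_re, Complex.mul_im,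
      Complex.ofReal_re, Complex.ofReal_im, mul_zero, sub_zero, zero_add, e_re, e_im,
      Real.cos_neg] at h2 h3
    have h4 := integral_neg_eq_self
      (fun z => Real.sin (-⟪z, (2 * π) • ξ⟫) * Real.exp (-N z)) (volume : Measure V)
    simp only [inner_neg_left, Real.sin_neg, neg_neg, map_neg_eq_map, neg_mul, integral_neg] at h3 h4
    rw [h1]
    apply Complex.ext
    · simp only [φ, ← h2, Complex.ofReal_re, F, mul_comm (Real.exp _)]
    · simp only [φ, ← h3, Complex.ofReal_im]; linarith
  have cF : Continuous F := by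
    have : Continuous (𝓕 φ) := VectorFourier.fourierIntegral_continuous Real.continuous_fourierChar
      (by exact continuous_inner) iφ
    simpa only [Function.comp_def, eF, Complex.ofReal_re] using Complex.continuous_re.comp this
  have A : Tendsto (fun c : ℝ => ∫ w : V, Real.exp (-c⁻¹ * ‖w‖ ^ 2) * F w) atTop (𝓝 1) := by
    have h1 := (Complex.continuous_re.tendsto _).comp
      (Real.tendsto_integral_gaussian_smul' iφ (v := 0) cφ.continuousAt)
    simp only [φ, map_zero, neg_zero, Real.exp_zero, Complex.ofReal_re] at h1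
    refine h1.congr' ?_
    filter_upwards [Ioi_mem_atTop 0] with c (hc : 0 < c)
    have J : Integrable (fun w : V =>
        Complex.exp (-c⁻¹ * ‖w‖ ^ 2 + 2 * π * Complex.I * ⟪(0 : V), w⟫)) :=
      GaussianFourier.integrable_cexp_neg_mul_sq_norm_add (by simpa) _ _
    have h2 : ∫ w : V, 𝓕 (fun w : V =>
        Complex.exp (-c⁻¹ * ‖w‖ ^ 2 + 2 * π * Complex.I * ⟪(0 : V), w⟫)) w • φ w =
        ∫ w : V, Complex.exp (-c⁻¹ * ‖w‖ ^ 2 + 2 * π * Complex.I * ⟪(0 : V), w⟫) • 𝓕 φ w := by
      simpa using! (VectorFourier.integral_fourierIntegral_smul_eq_flip (L := innerₗ V)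
        Real.continuous_fourierChar continuous_inner J iφ)
    have h3 : ∫ w : V, Complex.exp (-c⁻¹ * ‖w‖ ^ 2 + 2 * π * Complex.I * ⟪(0 : V), w⟫) • 𝓕 φ w =
        ((∫ w : V, Real.exp (-c⁻¹ * ‖w‖ ^ 2) * F w : ℝ) : ℂ) := by
      rw [← integral_complex_ofReal]; congr 1; funext w
      rw [eF]; simp
    rw [h3] at h2
    rw [← Complex.ofReal_re (∫ w : V, Real.exp (-c⁻¹ * ‖w‖ ^ 2) * F w), ← h2, Function.comp]
    congr 2; funext w
    rw [fourier_gaussian_innerProductSpace' (by simpa)]
    simp only [φ]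
    congr 3
    · simp
    · simp; ring
  have Fb : ∀ w, ‖F w‖ ≤ ∫ z, Real.exp (-N z) := fun w =>
    norm_integral_le_of_norm_le i0 (Eventually.of_forall fun z => by
      rw [norm_mul, Real.norm_of_nonneg (Real.exp_pos _).le]
      exact mul_le_of_le_one_right (Real.exp_pos _).le (Real.abs_cos_le_one _))
  have iF : Integrable F := by
    refine ⟨cF.aestronglyMeasurable, (hasFiniteIntegral_iff_ofReal (Eventually.of_forall F0)).2 ?_⟩
    have h1 := lintegral_liminf_le' (μ := (volume : Measure V)) (u := atTop)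
      (f := fun (c : ℝ) (w : V) => ENNReal.ofReal (Real.exp (-c⁻¹ * ‖w‖ ^ 2) * F w))
      (fun c => by fun_prop)
    have h2 : ∀ w : V, liminf (fun c : ℝ => ENNReal.ofReal (Real.exp (-c⁻¹ * ‖w‖ ^ 2) * F w)) atTop =
        ENNReal.ofReal (F w) := fun w => by
      refine (ENNReal.tendsto_ofReal ?_).liminf_eq
      simpa using ((tendsto_inv_atTop_zero.neg.mul_const (‖w‖ ^ 2)).rexp).mul_const (F w)
    have h3 : Tendsto (fun c : ℝ => ∫⁻ w : V, ENNReal.ofReal (Real.exp (-c⁻¹ * ‖w‖ ^ 2) * F w))
        atTop (𝓝 (ENNReal.ofReal 1)) := by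
      refine (ENNReal.tendsto_ofReal A).congr' ?_
      filter_upwards [Ioi_mem_atTop 0] with c (hc : 0 < c)
      refine ofReal_integral_eq_lintegral_ofReal ?_
        (Eventually.of_forall fun w => mul_nonneg (Real.exp_pos _).le (F0 w))
      have J := (GaussianFourier.integrable_cexp_neg_mul_sq_norm_add (V := V) (b := (c⁻¹ : ℝ))
        (by simpa) 0 0).norm
      refine Integrable.mul_bdd (J.congr (Eventually.of_forall fun w => ?_))
        cF.aestronglyMeasurable (Eventually.of_forall Fb)
      simp only [zero_mul, add_zero]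
      rw [← Complex.ofReal_pow, ← Complex.ofReal_neg, ← Complex.ofReal_mul, Complex.norm_exp_ofReal]
    rw [h3.liminf_eq] at h1
    simp only [h2] at h1
    exact h1.trans_lt ENNReal.ofReal_lt_top
  refine ⟨(wd volume F).map fun ξ => (2 * π) • ξ, ?_, fun x => ?_⟩
  · have := wd_finite volume iF
    infer_instance
  · rw [integral_map (by fun_prop) (by fun_prop), wd_integral _ cF.measurable F0]
    have := iφ.fourierInv_fourier_eq (by rw [funext eF]; exact iF.ofReal) (v := x)
      cφ.continuousAt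
    rw [Real.fourierInv_eq'] at this
    refine Eq.trans ?_ this
    congr 1; funext ξ
    simp only [eF, e, inner_smul_left, Complex.real_smul, smul_eq_mul, conj_trivial, mul_comm]

end Pool.Agent.Lib.helper15.MagFour
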