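import Mathlib

namespace Pool.Agent.Lib.helper15.CF

/-- the invariant region -/
def R (u : ℂ) : Prop := 0 ≤ u.im ∧ 0 ≤ u.im ^ 2 + u.re * (u.re ^ 2 + u.im ^ 2)

/-- its image under `u ↦ u / (1 + u)` -/
def H (u : ℂ) : Prop := 0 ≤ u.im ∧ (u.re ^ 2 + u.im ^ 2) ^ 2 ≤ u.im ^ 2 + u.re * (u.re ^ 2 + u.im ^ 2)

lemma core {t q e d s : ℝ} (hq : 0 ≤ q) (h : t ^ 3 + (t ^ 2 + q ^ 2) ^ 2 ≤ q ^ 2 * (1 - t))
    (ht : t ≤ 1 / 3) (hs : 0 < s) (hs1 : s ≤ 1 / 10) (he0 : 0 ≤ e) (he : e ≤ 6 * s ^ 4)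
    (hd : 252 * s ^ 5 ≤ d) : (t + e) ^ 3 ≤ (q + d) ^ 2 * (1 - (t + e)) := by
  have s2 : s ^ 2 ≤ 1 / 100 := by nlinarith
  have s4 : s ^ 4 ≤ s ^ 2 / 100 := by nlinarith [sq_nonneg s]
  have d0 : 0 ≤ d := le_trans (by positivity) hd
  have e1 : e ≤ 1 / 1000 := by linarith
  have half : 1 / 2 ≤ 1 - (t + e) := by linarith
  have qd : 0 ≤ q * d := mul_nonneg hq d0
  rcases le_or_gt t e with h1 | h1
  · have a1 : (t + e) ^ 3 ≤ (2 * e) ^ 3 := (Odd.strictMono_pow (by decide)).monotone (by linarith)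
    have a2 : (2 * e) ^ 3 ≤ (12 * s ^ 4) ^ 3 := pow_le_pow_left₀ (by positivity) (by linarith) 3
    have a3 : (252 * s ^ 5) ^ 2 ≤ (q + d) ^ 2 := pow_le_pow_left₀ (by positivity) (by linarith) 2
    have a4 : s ^ 12 ≤ s ^ 10 := pow_le_pow_of_le_one hs.le (by linarith) (by norm_num)
    have a5 : 0 ≤ s ^ 10 := by positivity
    nlinarith [mul_le_mul_of_nonneg_left half (sq_nonneg (q + d))]
  have t0 : 0 < t := he0.trans_lt h1
  have b1 : e * q ^ 2 ≤ q * d / 2 + q ^ 4 := by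
    rcases le_or_gt q s with h2 | h2
    · have : e * q ≤ 6 * s ^ 4 * s := mul_le_mul he h2 hq (by positivity)
      have : e * q ≤ d / 2 := by nlinarith [pow_pos hs 5]
      nlinarith [mul_le_mul_of_nonneg_left this hq, pow_nonneg hq 4]
    · have : e ≤ q ^ 2 := by nlinarith
      nlinarith [mul_le_mul_of_nonneg_right this (sq_nonneg q)]
  have b2 : (t + e) ^ 3 ≤ t ^ 3 + 7 * (t ^ 2 * e) := by
    have := mul_nonneg he0 (sub_nonneg.2 h1.le)
    nlinarith [mul_nonneg this t0.le, mul_nonneg this he0]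
  have b3 : 7 * (t ^ 2 * e) ≤ t ^ 4 + q * d / 2 := by
    rcases le_or_gt (7 * e) (t ^ 2) with h2 | h2
    · nlinarith [mul_le_mul_of_nonneg_left h2 (sq_nonneg t)]
    · have c1 : t ≤ 9 * s ^ 2 := by
        by_contra hc
        have : (9 * s ^ 2) ^ 2 < t ^ 2 := pow_lt_pow_left₀ (not_le.1 hc) (by positivity) two_ne_zero
        nlinarith [pow_pos hs 4]
      have c2 : t ^ 3 ≤ q ^ 2 := by nlinarith [sq_nonneg (t ^ 2 + q ^ 2), mul_nonneg (sq_nonneg q) t0.le]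
      have c3 : t ^ 2 ≤ 3 * s * q := by
        refine abs_le_of_sq_le_sq' ?_ (by positivity) |>.2
        nlinarith [mul_le_mul c1 c2 (by positivity) (by positivity)]
      have c4 : t ^ 2 * e ≤ 3 * s * q * (6 * s ^ 4) := mul_le_mul c3 he he0 (by positivity)
      nlinarith [mul_le_mul_of_nonneg_left hd hq, pow_pos t0 4]
  have b4 : q * d ≤ (2 * q * d + d ^ 2) * (1 - (t + e)) := by
    nlinarith [mul_le_mul_of_nonneg_left half (show 0 ≤ 2 * q * d + d ^ 2 by positivity), sq_nonneg d]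
  nlinarith [mul_nonneg (sq_nonneg t) (sq_nonneg q)]

lemma H_le {v : ℂ} (h : H v) : -(1 / 3) ≤ v.re ∧ v.re ≤ 1 := by
  obtain ⟨-, h⟩ := h
  constructor
  · by_contra hc
    have hc : v.re < -(1 / 3) := not_le.1 hc
    nlinarith [sq_nonneg (v.im ^ 2 - (1 + v.re - 2 * v.re ^ 2) / 2), sq_nonneg (v.re - 1),
      mul_pos (sub_pos.2 hc) (sub_pos.2 hc), sq_nonneg v.im, sq_nonneg v.re,
      mul_nonneg (sq_nonneg v.im) (sq_nonneg v.re)]
  · by_contra hc
    have hc : 1 < v.re := not_le.1 hc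
    nlinarith [sq_nonneg v.im, sq_nonneg (v.im ^ 2), mul_pos (sub_pos.2 hc) (pow_pos (lt_trans one_pos hc) 3),
      mul_nonneg (sq_nonneg v.im) (sq_nonneg (v.re - 1)), mul_nonneg (sq_nonneg v.im) (sub_pos.2 hc).le,
      mul_nonneg (sq_nonneg v.im) (sq_nonneg v.re)]

lemma step {v w : ℂ} (h : H v) {e d s : ℝ} (hs : 0 < s) (hs1 : s ≤ 1 / 10) (he0 : 0 ≤ e)
    (he : e ≤ 6 * s ^ 4) (hd : 252 * s ^ 5 ≤ d) (h1 : v.re - e ≤ w.re) (h2 : v.im + d ≤ w.im) :
    R w := by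
  have d0 : 0 ≤ d := le_trans (by positivity) hd
  have hw : 0 ≤ w.im := by linarith [h.1]
  refine ⟨hw, ?_⟩
  rcases le_or_gt 0 w.re with h0 | h0
  · positivity
  have c := core (t := -v.re) h.1 (by nlinarith [h.2]) (by linarith [(H_le h).1]) hs hs1 he0 he hd
  have s4 : s ^ 4 ≤ (1 / 10) ^ 4 := pow_le_pow_left₀ hs.le hs1 4
  have a1 : (-w.re) ^ 3 ≤ (-v.re + e) ^ 3 := (Odd.strictMono_pow (by decide)).monotone (by linarith)
  have a2 : (v.im + d) ^ 2 * (1 - (-v.re + e)) ≤ w.im ^ 2 * (1 - -w.re) :=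
    mul_le_mul (pow_le_pow_left₀ (by linarith [h.1]) h2 2) (by linarith)
      (by linarith [(H_le h).1]) (by positivity)
  nlinarith

lemma far {u : ℂ} (h : R u) : 1 / 2 ≤ ‖1 + u‖ := by
  refine abs_le_of_sq_le_sq' ?_ (norm_nonneg _) |>.2
  rw [Complex.sq_norm, Complex.normSq_apply]
  simp only [Complex.add_re, Complex.one_re, Complex.add_im, Complex.one_im, zero_add]
  rcases le_or_gt (-(1 / 2)) u.re with h1 | h1
  · nlinarith [sq_nonneg u.im]
  · by_contra hc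
    have hc := not_le.1 hc
    have : u.im ^ 2 < 1 / 4 := by nlinarith [sq_nonneg (1 + u.re)]
    nlinarith [h.2, mul_pos (sub_pos.2 h1) (sub_pos.2 h1), sq_nonneg u.im,
      mul_pos (sub_pos.2 h1) (mul_pos (sub_pos.2 h1) (sub_pos.2 h1)),
      mul_nonneg (sub_pos.2 h1).le (sq_nonneg u.im)]

lemma toH {u : ℂ} (h : R u) : H (u / (1 + u)) := by
  have h0 : 0 < Complex.normSq (1 + u) := Complex.normSq_pos.2 fun e => by
    have := far h; rw [e, norm_zero] at this; linarith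
  have e1 : (u / (1 + u)).re = (u.re + (u.re ^ 2 + u.im ^ 2)) / Complex.normSq (1 + u) := by
    rw [Complex.div_re]; simp; ring
  have e2 : (u / (1 + u)).im = u.im / Complex.normSq (1 + u) := by
    rw [Complex.div_im]; simp; ring
  have e3 : (u / (1 + u)).re ^ 2 + (u / (1 + u)).im ^ 2 =
      (u.re ^ 2 + u.im ^ 2) / Complex.normSq (1 + u) := by
    have := Complex.normSq_div u (1 + u)
    rw [Complex.normSq_apply, Complex.normSq_apply u] at this
    simpa only [sq] using this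
  refine ⟨e2 ▸ div_nonneg h.1 h0.le, ?_⟩
  rw [e3, e1, e2]
  have := div_nonneg h.2 (sq_nonneg (Complex.normSq (1 + u)))
  refine sub_nonneg.1 (this.trans_eq ?_)
  field_simp
  ring

end Pool.Agent.Lib.helper15.CF
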