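import Mathlib

open Filter Topology Finset Complex

namespace Pool.Agent.Lib.helper15.CF

lemma div_lem {m : ℕ} (hm : 1 ≤ m) {κ : ℕ → ℂ} (h0 : ∀ k, κ k ≠ 0)
    (hw : Summable fun k => ‖κ k - 1 - (-1 + I) / ((k + m : ℕ) : ℂ)‖) :
    (∃ U, ∀ N, ‖∑ k ∈ range N, ∏ j ∈ range k, κ j‖ ≤ U) ∧
      ¬ ∃ L, Tendsto (fun N => ∑ k ∈ range N, ∏ j ∈ range k, κ j) atTop (𝓝 L) := by
  have n1 : ∀ k, (1 : ℝ) ≤ (k + m : ℕ) := fun k => by exact_mod_cast (by omega)
  have n0 : ∀ k, ((k + m : ℕ) : ℂ) ≠ 0 := fun k => by exact_mod_cast (by omega)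
  have s2 : Summable fun k => 1 / ((k + m : ℕ) : ℝ) ^ 2 :=
    (summable_nat_add_iff m).2 (Real.summable_one_div_nat_pow.2 one_lt_two)
  set g : ℕ → ℂ := fun k => κ k * (1 + 1 / ((k + m : ℕ) : ℂ)) with hg
  set h : ℕ → ℂ := fun k => g k - 1 - I / ((k + m : ℕ) : ℂ) with hh
  have sh : Summable fun k => ‖h k‖ := by
    refine ((hw.mul_left 2).add (s2.mul_left 2)).of_nonneg_of_le (fun _ => norm_nonneg _) fun k => ?_
    have e : h k = (κ k - 1 - (-1 + I) / ((k + m : ℕ) : ℂ)) * (1 + 1 / ((k + m : ℕ) : ℂ)) +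
        (-1 + I) * (1 / ((k + m : ℕ) : ℂ) ^ 2) := by
      simp only [hh, hg]; have := n0 k; field_simp; ring
    have a1 : ‖1 + 1 / ((k + m : ℕ) : ℂ)‖ ≤ 2 := (norm_add_le _ _).trans (by
      rw [norm_one, norm_div, norm_one, norm_natCast]
      linarith [div_le_one_of_le₀ (n1 k) (by positivity)])
    have a2 : ‖-1 + I‖ ≤ 2 := (norm_add_le _ _).trans (by simp; norm_num)
    rw [e]
    refine (norm_add_le _ _).trans (add_le_add ?_ ?_)
    · rw [norm_mul, mul_comm]; gcongr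
    · rw [norm_mul, norm_div, norm_one, norm_pow, norm_natCast]; gcongr
  have sg : Summable fun k => ‖‖g k‖ - 1‖ := by
    refine (sh.add s2).of_nonneg_of_le (fun _ => norm_nonneg _) fun k => ?_
    have e : g k = (1 + ((1 / ((k + m : ℕ) : ℝ) : ℝ) : ℂ) * I) + h k := by
      simp only [hh]; push_cast; ring
    have a1 := abs_norm_sub_norm_le (g k) (1 + ((1 / ((k + m : ℕ) : ℝ) : ℝ) : ℂ) * I)
    rw [show g k - _ = h k by rw [e]; simp] at a1
    rw [← one_div_pow]
    generalize 1 / ((k + m : ℕ) : ℝ) = y at a1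
    have a2 : ‖1 + (y : ℂ) * I‖ ^ 2 = 1 + y ^ 2 := by
      rw [Complex.sq_norm, normSq_apply]; simp; ring
    have a3 : 1 ≤ ‖1 + (y : ℂ) * I‖ := by nlinarith [norm_nonneg (1 + (y : ℂ) * I)]
    have a4 : ‖1 + (y : ℂ) * I‖ ≤ 1 + y ^ 2 := by nlinarith
    rw [Real.norm_eq_abs, abs_le] at *
    constructor <;> nlinarith
  have g0 : ∀ k, g k ≠ 0 := fun k => mul_ne_zero (h0 k) (by
    have := n0 (k + 1)
    rw [one_add_div (n0 k)]
    refine div_ne_zero ?_ (n0 k)
    rwa [Nat.add_right_comm, Nat.cast_succ] at this)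
  set G : ℕ → ℂ := fun k => ((k + m : ℕ) : ℂ) * ∏ j ∈ range k, κ j with hG
  have G1 : ∀ k, G (k + 1) = G k * g k := fun k => by
    simp only [hG, hg, prod_range_succ, Nat.add_right_comm k 1 m, Nat.cast_succ]
    have := n0 k; field_simp
  have G2 : ∀ k, ‖G k‖ = m * ∏ j ∈ range k, (1 + (‖g j‖ - 1)) := fun k => by
    induction k with
    | zero => simp [hG]
    | succ k ih => rw [G1, norm_mul, ih, prod_range_succ]; ring
  have T : Tendsto (fun k => ‖G k‖) atTop (𝓝 (m * ∏' j, (1 + (‖g j‖ - 1)))) := by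
    simp only [G2]
    exact (multipliable_one_add_of_summable sg).hasProd.tendsto_prod_nat.const_mul _
  have T0 : (m : ℝ) * ∏' j, (1 + (‖g j‖ - 1)) ≠ 0 := mul_ne_zero (by exact_mod_cast (by omega))
    (tprod_one_add_ne_zero_of_summable (fun j => by simpa using g0 j) sg)
  obtain ⟨U, hU⟩ := T.bddAbove_range
  have hU : ∀ k, ‖G k‖ ≤ U := fun k => hU ⟨k, rfl⟩
  have sG : Summable fun k => ‖G k * h k‖ := (sh.mul_left U).of_nonneg_of_le (fun _ => norm_nonneg _)
    fun k => by rw [norm_mul]; gcongr; exact hU k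
  have key : ∀ N, G N = G 0 + I * ∑ k ∈ range N, ∏ j ∈ range k, κ j + ∑ k ∈ range N, G k * h k :=
    fun N => by
      induction N with
      | zero => simp
      | succ N ih =>
        have e : ∏ j ∈ range N, κ j = G N / ((N + m : ℕ) : ℂ) := by
          simp only [hG]; have := n0 N; field_simp
        rw [sum_range_succ, sum_range_succ, G1, e]
        simp only [hh] at ih ⊢
        linear_combination ih
  refine ⟨⟨U + U + ∑' k, ‖G k * h k‖, fun N => ?_⟩, fun ⟨L, hL⟩ => ?_⟩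
  · have e : ‖∑ k ∈ range N, ∏ j ∈ range k, κ j‖ = ‖G N - G 0 - ∑ k ∈ range N, G k * h k‖ := by
      rw [key N, show ∀ a b c : ℂ, a + b + c - a - c = b from fun _ _ _ => by ring, norm_mul, norm_I,
        one_mul]
    rw [e]
    exact (norm_sub_le _ _).trans (add_le_add ((norm_sub_le _ _).trans (add_le_add (hU _) (hU _)))
      ((norm_sum_le _ _).trans (sG.sum_le_tsum _ fun _ _ => norm_nonneg _)))
  · have TG : Tendsto G atTop (𝓝 (G 0 + I * L + ∑' k, G k * h k)) :=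
      (((hL.const_mul I).const_add (G 0)).add sG.of_norm.hasSum.tendsto_sum_nat).congr
        fun N => (key N).symm
    generalize G 0 + I * L + ∑' k, G k * h k = Λ at TG
    have Λ0 : Λ ≠ 0 := fun e => T0 (by rw [tendsto_nhds_unique T TG.norm, e, norm_zero])
    have ev : ∀ᶠ k in atTop, 1 / 2 < (G k / Λ).re :=
      ((continuous_re.tendsto _).comp (TG.div_const Λ)).eventually
        (lt_mem_nhds (by rw [div_self Λ0]; norm_num))
    obtain ⟨k0, hk0⟩ := eventually_atTop.1 ev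
    set p : ℕ → ℝ := fun k => ((∏ j ∈ range k, κ j) / Λ).re with hp
    have p1 : ∀ k, 1 / 2 * (((k + (k0 + m) : ℕ) : ℝ))⁻¹ ≤ p (k + k0) := fun k => by
      have e : (G (k + k0) / Λ).re = ((k + k0 + m : ℕ) : ℝ) * p (k + k0) := by
        simp only [hG, hp, mul_div_assoc]
        rw [← ofReal_natCast, re_ofReal_mul]
      have := hk0 (k + k0) (by omega)
      rw [← add_assoc, ← div_eq_mul_inv, div_le_iff₀ (by linarith [n1 (k + k0)])]
      linarith
    have Tp : Tendsto (fun N => ∑ k ∈ range N, p k) atTop (𝓝 (L / Λ).re) :=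
      ((continuous_re.tendsto _).comp (hL.div_const Λ)).congr fun N => by
        simp only [Function.comp, hp, sum_div, re_sum]
    have Tq : Tendsto (fun N => ∑ k ∈ range N, p (k + k0)) atTop
        (𝓝 ((L / Λ).re - ∑ k ∈ range k0, p k)) :=
      ((Tp.comp (tendsto_add_atTop_nat k0)).sub_const _).congr fun N => by
        simp only [Function.comp]
        rw [add_comm N, sum_range_add]
        simp [add_comm]
    have sp := ((hasSum_iff_tendsto_nat_of_nonneg (fun k => le_trans (by positivity) (p1 k)) _).2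
      Tq).summable
    have := (sp.of_nonneg_of_le (fun k => by positivity) p1).mul_left 2
    refine Real.not_summable_natCast_inv ((summable_nat_add_iff (k0 + m)).1 (this.congr fun k => ?_))
    ring

theorem gen {m : ℕ} (hm : 1 ≤ m) (σ : ℂ → OnePoint ℂ → OnePoint ℂ) (A B t c : ℕ → ℂ) (J : ℂ → Prop)
    (h0 : J 0) (hs : ∀ k z, J z → B k + z ≠ 0 ∧ σ (c k) z = ((A k / (B k + z) : ℂ) : OnePoint ℂ) ∧
      J (A k / (B k + z)) ∧ ‖A k / (B k + z)‖ ≤ 2)
    (ht0 : ∀ k, t k ≠ 0) (ht : ∀ k, A k = t k * (B k + t (k + 1))) (hκ : ∀ k, B k + t (k + 1) ≠ 0)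
    (hw : Summable fun k => ‖-(B k + t (k + 1)) / t (k + 1) - 1 - (-1 + I) / ((k + m : ℕ) : ℂ)‖) :
    (∀ l : List ℂ, (∀ a ∈ l, a ∈ Set.range c) →
      ∃ z : ℂ, l.foldr σ ((0 : ℂ) : OnePoint ℂ) = z ∧ ‖z‖ ≤ 2) ∧
    ¬ ∃ L : ℂ, Tendsto (fun n => ((List.range n).map c).foldr σ ((0 : ℂ) : OnePoint ℂ)) atTop
      (𝓝 (L : OnePoint ℂ)) := by
  refine ⟨fun l hl => ?_, fun ⟨L, hL⟩ => ?_⟩
  · suffices ∃ z : ℂ, l.foldr σ ((0 : ℂ) : OnePoint ℂ) = z ∧ ‖z‖ ≤ 2 ∧ J z by
      obtain ⟨z, a, b, -⟩ := this; exact ⟨z, a, b⟩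
    induction l with
    | nil => exact ⟨0, rfl, by simp, h0⟩
    | cons a l ih =>
      obtain ⟨z, e, -, hz⟩ := ih fun a ha => hl a (List.mem_cons_of_mem _ ha)
      obtain ⟨k, rfl⟩ := hl a List.mem_cons_self
      obtain ⟨-, b, c, d⟩ := hs k z hz
      exact ⟨_, by rw [List.foldr_cons, e, b], d, c⟩
  set κ : ℕ → ℂ := fun k => -(B k + t (k + 1)) / t (k + 1) with hκ'
  have key : ∀ n k, ∃ z : ℂ, ((List.range' k n).map c).foldr σ ((0 : ℂ) : OnePoint ℂ) = z ∧ J z ∧
      (t k - z) * ∑ i ∈ range (n + 1), ∏ j ∈ range i, κ (k + j) = t k := fun n => by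
    induction n with
    | zero => exact fun k => ⟨0, rfl, h0, by simp⟩
    | succ n ih =>
      intro k
      obtain ⟨z, e, hz, e2⟩ := ih (k + 1)
      obtain ⟨a, b, c, -⟩ := hs k z hz
      refine ⟨_, by rw [List.range'_succ, List.map_cons, List.foldr_cons, e, b], c, ?_⟩
      rw [sum_range_succ']
      simp only [prod_range_succ', ← sum_mul, prod_range_zero, add_zero, ← add_assoc,
        Nat.add_right_comm k _ 1]
      generalize ∑ i ∈ range (n + 1), ∏ j ∈ range i, κ (k + 1 + j) = S at e2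
      have := ht0 (k + 1)
      simp only [hκ', ht]
      field_simp
      linear_combination t k * (B k + t (k + 1)) * e2
  choose f f1 f2 f3 using fun n => key n 0
  simp only [zero_add] at f3
  obtain ⟨⟨U, hU⟩, hd⟩ := div_lem hm (κ := κ) (fun k => div_ne_zero (neg_ne_zero.2 (hκ k)) (ht0 _)) hw
  simp only [List.range_eq_range', f1] at hL
  have hL : Tendsto f atTop (𝓝 L) := OnePoint.isOpenEmbedding_coe.isInducing.tendsto_nhds_iff.2 hL
  by_cases e : t 0 - L = 0
  · have := (e ▸ hL.const_sub (t 0)).zero_mul_isBoundedUnder_le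
      (g := fun n => ∑ i ∈ range (n + 1), ∏ j ∈ range i, κ j)
      (isBoundedUnder_of ⟨U, fun n => hU _⟩)
    simp only [f3] at this
    exact ht0 0 (tendsto_nhds_unique tendsto_const_nhds this)
  · refine hd ⟨t 0 / (t 0 - L), (tendsto_add_atTop_iff_nat 1).1 ?_⟩
    refine (tendsto_const_nhds.div (hL.const_sub (t 0)) e).congr fun n => ?_
    have : t 0 - f n ≠ 0 := fun h => ht0 0 (by rw [← f3 n, h, zero_mul])
    simp only [Pi.div_apply]
    rw [div_eq_iff this, mul_comm, f3]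

end Pool.Agent.Lib.helper15.CF
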