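import Mathlib
import Pool.Agent.Lib.helper15.CF1
import Pool.Agent.Lib.helper15.CF2

open Filter Topology Finset Complex

namespace Pool.Agent.Lib.helper15.CF

lemma adm0 {τ x j : ℝ} (hτ : 50000 ≤ τ) (hx0 : 0 ≤ x) (hx : x * τ ≤ 2500) (hj0 : 0 ≤ j) (hj : j ≤ 1)
    {θ : ℂ} (hθ : θ = ((x : ℂ) - I) / (((-(τ ^ 2 + 1 - 5000 * τ - x) : ℝ) - (τ ^ 2 + 1 : ℝ) * I) *
      ((-(τ ^ 2 - 5000 * τ + j) : ℝ) - (τ ^ 2 : ℝ) * I))) :
    θ.re ≤ 0 ∧ -θ.re ≤ 4 * (1 / τ) ^ 4 ∧ 504 * (1 / τ) ^ 5 ≤ θ.im ∧ ‖θ‖ ≤ 1 := by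
  have t0 : 0 < τ := by linarith
  have x1 : x ≤ 1 := by nlinarith
  have t2 : 50000 * τ ≤ τ ^ 2 := by nlinarith
  set n := τ ^ 2 with hn
  have n0 : 1000 ≤ n := by linarith
  set a1 := n + 1 - 5000 * τ - x with ha1
  set a2 := n - 5000 * τ + j with ha2
  have p1 : 0 ≤ a1 := by linarith
  have p2 : 0 ≤ a2 := by linarith
  have q1 : a1 ≤ n := by linarith
  have q2 : a2 ≤ n := by linarith
  clear_value a1 a2
  have nn : 0 ≤ n := by linarith
  have n2 : 1000 * n ≤ n ^ 2 := by rw [sq n]; exact mul_le_mul_of_nonneg_right n0 nn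
  set D := (a1 ^ 2 + (n + 1) ^ 2) * (a2 ^ 2 + n ^ 2) with hD
  have D1 : n ^ 4 ≤ D := by
    have := mul_le_mul (show n ^ 2 ≤ a1 ^ 2 + (n + 1) ^ 2 by linarith [sq_nonneg a1])
      (show n ^ 2 ≤ a2 ^ 2 + n ^ 2 by linarith [sq_nonneg a2]) (by positivity) (by positivity)
    linarith
  have D2 : D ≤ 5 * n ^ 4 := by
    have := mul_le_mul (show a1 ^ 2 + (n + 1) ^ 2 ≤ 5 / 2 * n ^ 2 by
      linarith [pow_le_pow_left₀ p1 q1 2]) (show a2 ^ 2 + n ^ 2 ≤ 2 * n ^ 2 by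
      linarith [pow_le_pow_left₀ p2 q2 2]) (by positivity) (by positivity)
    linarith
  have D0 : 0 < D := lt_of_lt_of_le (by positivity) D1
  have eD : normSq ((((-a1 : ℝ) : ℂ) - (n + 1 : ℝ) * I) * ((-a2 : ℝ) - (n : ℝ) * I)) = D := by
    rw [normSq_mul, normSq_apply, normSq_apply]; simp; ring
  set γ := (n + 1) * n - a1 * a2 with hγ
  set β := a1 * n + a2 * (n + 1) with hβ
  have er : θ.re = -(x * γ + β) / D := by rw [hθ, div_re, eD]; simp; ring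
  have ei : θ.im = (γ - x * β) / D := by rw [hθ, div_im, eD]; simp; ring
  have β0 : 0 ≤ β := by positivity
  have β1 : β ≤ 11 / 5 * n ^ 2 := by
    linarith [mul_le_mul_of_nonneg_right q1 nn,
      mul_le_mul_of_nonneg_right q2 (show 0 ≤ n + 1 by linarith)]
  have γ1 : γ ≤ 11 / 10 * n ^ 2 := by linarith [mul_nonneg p1 p2]
  have γ0 : 9000 * τ * n ≤ γ := by
    have := mul_le_mul (show a1 ≤ n + 1 - 5000 * τ by linarith) (show a2 ≤ n + 1 - 5000 * τ by linarith)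
      p2 (by linarith)
    linarith [mul_le_mul_of_nonneg_left t2 t0.le, mul_le_mul_of_nonneg_left hτ nn]
  have γ2 : 0 ≤ γ := le_trans (by positivity) γ0
  refine ⟨er ▸ div_nonpos_of_nonpos_of_nonneg (neg_nonpos.2 (by positivity)) D0.le, ?_, ?_, ?_⟩
  · rw [er, neg_div, neg_neg, div_le_iff₀ D0]
    have e : 4 * (1 / τ) ^ 4 * n ^ 4 = 4 * n ^ 2 := by rw [hn]; field_simp
    linarith [mul_le_mul_of_nonneg_left D1 (show 0 ≤ 4 * (1 / τ) ^ 4 by positivity),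
      mul_le_mul_of_nonneg_right x1 γ2]
  · rw [ei, le_div_iff₀ D0]
    have e : 504 * (1 / τ) ^ 5 * (5 * n ^ 4) = 2520 * τ * n := by rw [hn]; field_simp; norm_num
    have e2 : x * n ^ 2 ≤ 2500 * τ * n := by
      have := mul_le_mul_of_nonneg_right hx (show 0 ≤ τ * n by positivity)
      rw [hn] at this ⊢; linarith
    linarith [mul_le_mul_of_nonneg_left D2 (show 0 ≤ 504 * (1 / τ) ^ 5 by positivity),
      mul_le_mul_of_nonneg_left β1 hx0, mul_pos t0 (show 0 < n by linarith)]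
  · rw [← sq_le_one_iff₀ (norm_nonneg _), Complex.sq_norm, hθ, normSq_div, eD, div_le_one D0,
      normSq_apply]
    have : (1000 : ℝ) ^ 4 ≤ n ^ 4 := pow_le_pow_left₀ (by norm_num) n0 4
    simp
    linarith [mul_le_mul x1 x1 hx0 zero_le_one]

abbrev m : ℕ := 2500000000
noncomputable def τ (k : ℕ) : ℝ := √((k + m : ℕ) : ℝ)
noncomputable def ζ (k : ℕ) : ℂ := (-(τ k ^ 2 - 5000 * τ k) : ℝ) - (τ k ^ 2 : ℝ) * I

lemma τ2 (k : ℕ) : τ k ^ 2 = (k + m : ℕ) := Real.sq_sqrt (by positivity)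
lemma τ0 (k : ℕ) : 50000 ≤ τ k := Real.le_sqrt_of_sq_le (by
  push_cast [m]; linarith [Nat.cast_nonneg (α := ℝ) k])
lemma τ1 (k : ℕ) : τ (k + 1) ^ 2 = τ k ^ 2 + 1 := by rw [τ2, τ2]; push_cast; ring

lemma adm (k : ℕ) {j : ℝ} (hj0 : 0 ≤ j) (hj : j ≤ 1) {θ : ℂ}
    (hθ : θ = (1 + ζ (k + 1) - ζ k) / (ζ (k + 1) * (ζ k - j))) :
    ∃ s : ℝ, 0 < s ∧ s ≤ 1 / 10 ∧ θ.re ≤ 0 ∧ -θ.re ≤ 4 * s ^ 4 ∧ 504 * s ^ 5 ≤ θ.im ∧ ‖θ‖ ≤ 1 := by
  have a := τ0 k
  have b := τ0 (k + 1)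
  have c := τ1 k
  have d : τ k ≤ τ (k + 1) := by nlinarith
  refine ⟨1 / τ k, by positivity, one_div_le_one_div_of_le (by norm_num) (by linarith),
    adm0 (x := 5000 * (τ (k + 1) - τ k)) a (by linarith) (by nlinarith) hj0 hj ?_⟩
  rw [hθ, ζ, ζ, c]
  push_cast
  congr 1 <;> ring

lemma ζn (k : ℕ) (j : ℝ) : ((k + m : ℕ) : ℝ) ≤ ‖ζ k - j‖ := by
  refine le_trans ?_ (abs_im_le_norm _)
  rw [← τ2]
  simp [ζ, ← ofReal_pow]

lemma ζ0 (k : ℕ) (j : ℝ) : ζ k - j ≠ 0 := fun h => by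
  have := ζn k j
  rw [h, norm_zero, ← τ2] at this
  nlinarith [τ0 k]

noncomputable def y (k : ℕ) : ℂ := 1 / (ζ k - 1)

lemma yn (k : ℕ) : ‖y k‖ ≤ 1 / (k + m : ℕ) := by
  rw [y, norm_div, norm_one]
  exact one_div_le_one_div_of_le (by positivity) (by simpa using ζn k 1)

lemma s2 : Summable fun k => 1 / ((k + m : ℕ) : ℝ) ^ 2 :=
  (summable_nat_add_iff m).2 (Real.summable_one_div_nat_pow.2 one_lt_two)

lemma sy : Summable fun k => y k - (-1 + I) / 2 / ((k + m : ℕ) : ℂ) := by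
  have s : Summable fun k => 1 / ((k + m : ℕ) : ℝ) ^ (3 / 2 : ℝ) :=
    (summable_nat_add_iff m).2 (Real.summable_one_div_nat_rpow.2 (by norm_num))
  refine (s.mul_left 5000).of_norm_bounded fun k => ?_
  have a := τ0 k
  have n0 : ((k + m : ℕ) : ℂ) ≠ 0 := Nat.cast_ne_zero.2 (by positivity)
  have e : y k - (-1 + I) / 2 / ((k + m : ℕ) : ℂ) =
      (-1 + I) / 2 * ((1 - 5000 * τ k : ℝ) : ℂ) * (y k / ((k + m : ℕ) : ℂ)) := by
    have z : ζ k = -(((k + m : ℕ) : ℂ) - 5000 * τ k) - ((k + m : ℕ) : ℂ) * I := by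
      rw [ζ, τ2]; push_cast; ring
    have z0 : ζ k - 1 ≠ 0 := by simpa using ζ0 k 1
    rw [y]
    field_simp
    rw [z]
    push_cast
    linear_combination (((k : ℂ) + m)) * I_sq
  have e2 : ((k + m : ℕ) : ℝ) ^ (3 / 2 : ℝ) = τ k ^ 3 := by
    rw [← τ2, ← Real.rpow_natCast, ← Real.rpow_mul (by linarith)]; norm_num
  have a2 : ‖(-1 + I) / 2‖ ≤ 1 := by
    rw [norm_div, div_le_one (by simp)]; exact (norm_add_le _ _).trans (by simp; norm_num)
  have a3 : ‖((1 - 5000 * τ k : ℝ) : ℂ)‖ ≤ 5000 * τ k := by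
    rw [norm_real, Real.norm_eq_abs, abs_le]; constructor <;> linarith
  rw [e, norm_mul, norm_mul, norm_div (y k), Complex.norm_natCast, e2]
  calc _ ≤ 1 * (5000 * τ k) * (1 / ((k + m : ℕ) : ℝ) / (k + m : ℕ)) := by gcongr; exact yn k
    _ = _ := by rw [← τ2]; field_simp

lemma sy' : Summable fun k => y (k + 1) - (-1 + I) / 2 / ((k + m : ℕ) : ℂ) := by
  have s : Summable fun k => 1 / ((k + 1 + m : ℕ) : ℂ) - 1 / ((k + m : ℕ) : ℂ) := by
    refine s2.of_norm_bounded fun k => ?_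
    have n0 : (0 : ℝ) < (k + m : ℕ) := by positivity
    rw [← ofReal_natCast, ← ofReal_natCast, ← ofReal_one, ← ofReal_div, ← ofReal_div, ← ofReal_sub,
      norm_real, Nat.add_right_comm, Nat.cast_succ, div_sub_div _ _ (by positivity) n0.ne',
      norm_div, Real.norm_of_nonneg (mul_pos (by positivity) n0).le]
    simp only [one_mul, mul_one, sub_add_cancel_left, norm_neg, norm_one]
    exact one_div_le_one_div_of_le (by positivity) (by nlinarith)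
  exact (((summable_nat_add_iff 1).2 sy).add (s.mul_left ((-1 + I) / 2))).congr fun k => by ring

lemma sA : Summable fun k => ‖1 + 2 * y (k + 1) - 1 - (-1 + I) / ((k + m : ℕ) : ℂ)‖ :=
  summable_norm_iff.2 ((sy'.mul_left 2).congr fun k => by ring)

lemma sB : Summable fun k => ‖(1 + y k) * (1 + y (k + 1)) - 1 - (-1 + I) / ((k + m : ℕ) : ℂ)‖ := by
  have s : Summable fun k => y k * y (k + 1) := s2.of_norm_bounded fun k => by
    rw [norm_mul, sq, ← one_div_mul_one_div]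
    refine mul_le_mul (yn k) ((yn _).trans (one_div_le_one_div_of_le (by positivity) ?_))
      (norm_nonneg _) (by positivity)
    exact_mod_cast (by omega)
  exact summable_norm_iff.2 (((sy.add sy').add s).congr fun k => by ring)

end Pool.Agent.Lib.helper15.CF
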