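import Mathlib

set_option autoImplicit false

/-! A group `G = A B` with `A`, `B` simple and an infinite central elementary abelian subgroup. -/

namespace H15CompSer

abbrev F2 := ZMod 2
abbrev X := ℕ →₀ F2
abbrev Y (n : ℕ) := Fin n → F2

def res (n : ℕ) (x : X) : Y n := fun i => x i

noncomputable def glue {n : ℕ} (u : Y n) (x : X) : X :=
  Finsupp.onFinset (Finset.range n ∪ x.support) (fun i => if h : i < n then u ⟨i, h⟩ else x i)
    (by
      intro i hi
      by_cases h : i < n
      · simp [h]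
      · simp only [h, dif_neg, not_false_eq_true] at hi
        simp [hi])

lemma glue_apply {n : ℕ} (u : Y n) (x : X) (i : ℕ) :
    glue u x i = if h : i < n then u ⟨i, h⟩ else x i := rfl

@[simp] lemma res_glue {n : ℕ} (u : Y n) (x : X) : res n (glue u x) = u := by
  funext i; simp [res, glue_apply]

@[simp] lemma glue_glue {n : ℕ} (u u' : Y n) (x : X) : glue u (glue u' x) = glue u x := by
  ext i; by_cases h : i < n <;> simp [glue_apply, h]

@[simp] lemma glue_res {n : ℕ} (x : X) : glue (res n x) x = x := by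
  ext i; by_cases h : i < n <;> simp [glue_apply, h, res]

noncomputable def psi (n : ℕ) : Equiv.Perm (Y n) →* Equiv.Perm X where
  toFun σ :=
    { toFun := fun x => glue (σ (res n x)) x
      invFun := fun x => glue (σ⁻¹ (res n x)) x
      left_inv := fun x => by simp
      right_inv := fun x => by simp }
  map_one' := by ext1 x; simp
  map_mul' σ τ := by ext1 x; simp

lemma psi_apply (n : ℕ) (σ : Equiv.Perm (Y n)) (x : X) : psi n σ x = glue (σ (res n x)) x := rfl

@[simp] lemma res_psi (n : ℕ) (σ : Equiv.Perm (Y n)) (x : X) :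
    res n (psi n σ x) = σ (res n x) := by simp [psi_apply]

lemma psi_inj (n : ℕ) : Function.Injective (psi n) := by
  intro σ τ h
  ext1 u
  have := congrArg (fun g : Equiv.Perm X => res n (g (glue u 0))) h
  simpa using this

def dbl {n : ℕ} (σ : Equiv.Perm (Y n)) : Equiv.Perm (Y (n + 1)) :=
  (Fin.snocEquiv (fun _ : Fin (n + 1) => F2)).permCongr (Equiv.prodCongrRight fun _ => σ)

lemma dbl_sign {n : ℕ} (σ : Equiv.Perm (Y n)) : Equiv.Perm.sign (dbl σ) = 1 := by
  unfold dbl
  rw [Equiv.Perm.sign_permCongr, Equiv.Perm.sign_prodCongrRight]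
  simp [Int.units_sq]

lemma dbl_apply {n : ℕ} (σ : Equiv.Perm (Y n)) (u : Y (n + 1)) :
    dbl σ u = Fin.snoc (α := fun _ => F2) (σ (fun i => u i.castSucc)) (u (Fin.last n)) := rfl

lemma psi_dbl {n : ℕ} (σ : Equiv.Perm (Y n)) : psi (n + 1) (dbl σ) = psi n σ := by
  ext x i
  rw [psi_apply, psi_apply, glue_apply, glue_apply, dbl_apply]
  by_cases h : i < n
  · have h' : i < n + 1 := by omega
    rw [dif_pos h, dif_pos h']
    have : (⟨i, h'⟩ : Fin (n + 1)) = Fin.castSucc ⟨i, h⟩ := rfl
    rw [this, Fin.snoc_castSucc]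
    rfl
  · rw [dif_neg h]
    by_cases h' : i < n + 1
    · rw [dif_pos h']
      have : (⟨i, h'⟩ : Fin (n + 1)) = Fin.last n := Fin.ext (by simp; omega)
      rw [this, Fin.snoc_last]
      have : i = n := by omega
      subst this
      rfl
    · rw [dif_neg h']

lemma range_mono {n m : ℕ} (h : n ≤ m) : (psi n).range ≤ (psi m).range := by
  induction h with
  | refl => exact le_rfl
  | step _ ih =>
    refine ih.trans ?_
    rintro _ ⟨σ, rfl⟩
    exact ⟨dbl σ, psi_dbl σ⟩

/-- the union of the finite symmetric groups -/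
def Bx : Subgroup (Equiv.Perm X) where
  carrier := {g | ∃ n, g ∈ (psi n).range}
  one_mem' := ⟨0, one_mem _⟩
  mul_mem' := by
    rintro a b ⟨n, ha⟩ ⟨m, hb⟩
    exact ⟨max n m, mul_mem (range_mono (le_max_left _ _) ha) (range_mono (le_max_right _ _) hb)⟩
  inv_mem' := by
    rintro a ⟨n, ha⟩
    exact ⟨n, inv_mem ha⟩

noncomputable def psi' (n : ℕ) : Equiv.Perm (Y n) →* Bx :=
  (psi n).codRestrict Bx fun σ => ⟨n, σ, rfl⟩

instance : IsSimpleGroup Bx where
  exists_pair_ne := by
    obtain ⟨a, b, hab⟩ := exists_pair_ne (Equiv.Perm (Y 1))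
    exact ⟨psi' 1 a, psi' 1 b, fun h => hab (psi_inj 1 (congrArg Subtype.val h))⟩
  eq_bot_or_eq_top_of_normal := by
    intro N hN
    by_cases hb : N = ⊥
    · exact Or.inl hb
    right
    obtain ⟨⟨ν, hνN⟩, hν⟩ := (Subgroup.ne_bot_iff_exists_ne_one).1 hb
    rw [eq_top_iff]
    rintro ⟨g, n, hg⟩ -
    obtain ⟨ν, k, hk⟩ := ν
    set m := n + k + 3 with hm
    obtain ⟨σ, rfl⟩ := range_mono (show n ≤ m by omega) hg
    obtain ⟨τ, rfl⟩ := range_mono (show k ≤ m + 1 by omega) hk
    have hnt : Nontrivial (N.comap (psi' (m + 1))) := by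
      rw [Subgroup.nontrivial_iff_exists_ne_one]
      refine ⟨τ, hνN, ?_⟩
      rintro rfl
      apply hν
      ext1; ext1
      simp
    have hcard : 5 ≤ Nat.card (Y (m + 1)) := by
      simp only [Y, Nat.card_eq_fintype_card, Fintype.card_fun, ZMod.card, Fintype.card_fin]
      calc 5 ≤ 2 ^ 3 := by norm_num
        _ ≤ 2 ^ (m + 1) := Nat.pow_le_pow_right (by norm_num) (by omega)
    have := Equiv.Perm.alternatingGroup_le_of_normal hcard hnt
      (show dbl σ ∈ alternatingGroup _ from dbl_sign σ)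
    have h2 : psi' (m + 1) (dbl σ) ∈ N := this
    convert h2 using 1
    exact Subtype.ext (psi_dbl σ).symm

lemma mem_range_psi (m : ℕ) (g : Equiv.Perm X) (h1 : ∀ x i, m ≤ i → g x i = x i)
    (h2 : ∀ x y, res m x = res m y → res m (g x) = res m (g y)) : g ∈ (psi m).range := by
  let τ : Y m → Y m := fun u => res m (g (glue u 0))
  have hτ : Function.Injective τ := by
    intro u u' h
    have : g (glue u 0) = g (glue u' 0) := by
      ext i
      by_cases hi : i < m
      · exact congrFun h ⟨i, hi⟩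
      · rw [h1 _ _ (by omega), h1 _ _ (by omega)]
        simp [glue_apply, hi]
    have := congrArg (res m) (g.injective this)
    simpa using this
  refine ⟨Equiv.ofBijective τ (Finite.injective_iff_bijective.1 hτ), ?_⟩
  ext x i
  rw [psi_apply, glue_apply]
  by_cases hi : i < m
  · rw [dif_pos hi]
    exact congrFun (h2 (glue (res m x) 0) x (by simp)) ⟨i, hi⟩
  · rw [dif_neg hi, h1 _ _ (by omega)]

def Rep (n : ℕ) (γ : Equiv.Perm (X × X)) : Prop :=
  ∃ (σ : Equiv.Perm (Y n)) (F : Y n → X), ∀ x v, γ (x, v) = (psi n σ x, v + F (res n x))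

lemma Rep.mono {n m : ℕ} (h : n ≤ m) {γ : Equiv.Perm (X × X)} (hγ : Rep n γ) : Rep m γ := by
  obtain ⟨σ, F, hF⟩ := hγ
  obtain ⟨σ', hσ'⟩ := range_mono h ⟨σ, rfl⟩
  refine ⟨σ', fun u => F (fun i => u (Fin.castLE h i)), fun x v => ?_⟩
  rw [hF, hσ']
  rfl

def Gs : Subgroup (Equiv.Perm (X × X)) where
  carrier := {γ | ∃ n, Rep n γ}
  one_mem' := ⟨0, 1, 0, fun x v => by simp⟩
  mul_mem' := by
    rintro a b ⟨n, ha⟩ ⟨m, hb⟩
    obtain ⟨σ, F, hF⟩ := ha.mono (le_max_left n m)
    obtain ⟨σ', F', hF'⟩ := hb.mono (le_max_right n m)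
    refine ⟨max n m, σ * σ', fun u => F' u + F (σ' u), fun x v => ?_⟩
    simp [hF, hF', add_assoc]
  inv_mem' := by
    rintro a ⟨n, σ, F, hF⟩
    refine ⟨n, σ⁻¹, fun u => - F (σ⁻¹ u), fun x v => ?_⟩
    rw [Equiv.Perm.inv_eq_iff_eq, hF]
    have e : psi n σ ((psi n σ)⁻¹ x) = x := by simp
    rw [← map_inv] at e
    rw [e, res_psi, neg_add_cancel_right]

noncomputable def phi0 (k : X →+ X) : Equiv.Perm X →* Equiv.Perm (X × X) where
  toFun g :=
    { toFun := fun p => (g p.1, p.2 + (k (g p.1) - k p.1))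
      invFun := fun p => (g⁻¹ p.1, p.2 + (k (g⁻¹ p.1) - k p.1))
      left_inv := fun p => by simp [add_assoc]
      right_inv := fun p => by simp [add_assoc] }
  map_one' := by ext1 p; simp
  map_mul' σ τ := by ext1 p; simp; abel

lemma phi0_apply (k : X →+ X) (g : Equiv.Perm X) (x v : X) :
    phi0 k g (x, v) = (g x, v + (k (g x) - k x)) := rfl

noncomputable def phi (k : X →+ X) : Bx →* Gs :=
  ((phi0 k).comp Bx.subtype).codRestrict Gs (by
    rintro ⟨_, n, σ, rfl⟩
    refine ⟨n, σ, fun u => k (glue (σ u - u) 0), fun x v => ?_⟩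
    show phi0 k (psi n σ) (x, v) = _
    rw [phi0_apply, ← map_sub]
    congr 3
    ext i
    by_cases hi : i < n <;> simp [psi_apply, glue_apply, hi, res])

lemma phi_inj (k : X →+ X) : Function.Injective (phi k) := by
  intro a b h
  ext1; ext1 x
  exact congrArg (fun γ : Gs => ((γ : Equiv.Perm (X × X)) (x, 0)).1) h

noncomputable def hh : X →+ X := Finsupp.mapDomain.addMonoidHom (fun i => (Nat.unpair i).1)

lemma X_add_self (x : X) : x + x = 0 := by
  ext i; simp [CharTwo.add_self_eq_zero]

lemma factor (γ : Gs) : ∃ a ∈ (phi hh).range, ∃ b ∈ (phi 0).range, γ = a * b := by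
  obtain ⟨γ, n, σ, F, hF⟩ := γ
  let ι : X → X := Finsupp.mapDomain (fun j => Nat.pair j n)
  have hinj : Function.Injective (fun j => Nat.pair j n) := fun a b h => (Nat.pair_eq_pair.1 h).1
  have hι : ∀ c, hh (ι c) = c := fun c => by
    show Finsupp.mapDomain _ (Finsupp.mapDomain _ c) = c
    rw [← Finsupp.mapDomain_comp]
    simp only [Function.comp_def, Nat.unpair_pair]
    exact Finsupp.mapDomain_id
  have hι0 : ∀ c x, res n (x + ι c) = res n x := fun c x => by
    funext i
    simp only [res, Finsupp.add_apply, add_eq_left]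
    apply Finsupp.mapDomain_of_notMem_range
    rintro ⟨j, hj⟩
    have := Nat.right_le_pair j n
    have := i.2
    simp only at hj
    omega
  let f : X → X := fun x => x + ι (F (σ⁻¹ (res n x)))
  have hf : Function.Involutive f := fun x => by
    simp only [f, hι0, add_assoc, X_add_self, add_zero]
  obtain ⟨m, hm⟩ : ∃ m, ∀ u : Y n, ∀ i ∈ (ι (F u)).support, i < m := by
    obtain ⟨m, hm⟩ := (Finset.univ.biUnion fun u : Y n => (ι (F u)).support).bddAbove
    refine ⟨m + 1, fun u i hi => Nat.lt_succ_of_le (hm ?_)⟩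
    simp only [Finset.coe_biUnion, Finset.coe_univ, Set.mem_iUnion]
    exact ⟨u, trivial, hi⟩
  have hg : (Function.Involutive.toPerm f hf) ∈ (psi (max n m)).range := by
    apply mem_range_psi
    · intro x i hi
      show (x + ι _) i = x i
      rw [Finsupp.add_apply, add_eq_left]
      by_contra hne
      have := hm _ i (Finsupp.mem_support_iff.2 hne)
      have := le_max_right n m
      omega
    · intro x y hxy
      have h1 : res n x = res n y := by
        funext i
        exact congrFun hxy (Fin.castLE (le_max_left n m) i)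
      funext i
      show (x + ι _) i = (y + ι _) i
      rw [Finsupp.add_apply, Finsupp.add_apply, h1]
      congr 1
      exact congrFun hxy i
  let g1 : Bx := ⟨(Function.Involutive.toPerm f hf), _, hg⟩
  refine ⟨phi hh g1, ⟨_, rfl⟩, phi 0 (g1 * psi' n σ), ⟨_, rfl⟩, ?_⟩
  ext1; ext1 ⟨x, v⟩
  show γ (x, v) = phi0 hh (Function.Involutive.toPerm f hf) (phi0 0 ((Function.Involutive.toPerm f hf) * psi n σ) (x, v))
  rw [hF, phi0_apply, phi0_apply]
  have e1 : ((Function.Involutive.toPerm f hf) * psi n σ) x = f (psi n σ x) := rfl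
  have e2 : (Function.Involutive.toPerm f hf) (f (psi n σ x)) = psi n σ x := hf _
  rw [e1, e2]
  simp only [f, map_add, hι, res_psi, AddMonoidHom.zero_apply, sub_self, add_zero]
  congr 2
  rw [sub_add_cancel_left, show σ⁻¹ (σ (res n x)) = res n x by simp, eq_neg_iff_add_eq_zero,
    X_add_self]

/-- central translations -/
noncomputable def cen : Multiplicative X →* Gs where
  toFun c := ⟨Equiv.prodCongr (Equiv.refl X) (Equiv.addRight c.toAdd),
    0, 1, fun _ => c.toAdd, fun x v => by simp⟩
  map_one' := by ext1; ext1 p; simp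
  map_mul' a b := by ext1; ext1 ⟨x, v⟩; simp [add_assoc, add_comm a.toAdd]

lemma cen_inj : Function.Injective cen := by
  intro a b h
  have := congrArg (fun γ : Gs => ((γ : Equiv.Perm (X × X)) (0, 0)).2) h
  simpa [cen] using this

lemma cen_comm (c : Multiplicative X) (γ : Gs) : cen c * γ = γ * cen c := by
  obtain ⟨γ, n, σ, F, hF⟩ := γ
  ext1; ext1 ⟨x, v⟩
  simp [cen, hF, add_right_comm]

lemma cen_sq (c : Multiplicative X) : cen c * cen c = 1 := by
  rw [← map_mul, ← map_one cen]
  congr 1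
  exact X_add_self c.toAdd

instance simpleA (k : X →+ X) : IsSimpleGroup (phi k).range :=
  (MonoidHom.ofInjective (phi_inj k)).symm.isSimpleGroup

end H15CompSer
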