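import Mathlib

set_option autoImplicit false
open Filter Topology
open scoped ENNReal InnerProductSpace

namespace Pool.Agent.Lib.helper15.Conv

variable {G : Type} [Group G]

noncomputable abbrev L (G : Type) (p : ℝ≥0∞) := lp (fun _ : G => ℂ) p

section
variable {p : ℝ≥0∞} [Fact (1 ≤ p)]

omit [Group G] [Fact (1 ≤ p)] in
lemma op_bd (hp : 0 < p.toReal) (w : G → ℂ) (hw : ∀ g, ‖w g‖ ≤ 1) (e : G ≃ G) (φ : L G p) (g : G) :
    ‖w g * φ (e g)‖ ^ p.toReal ≤ ‖φ (e g)‖ ^ p.toReal := by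
  apply Real.rpow_le_rpow (norm_nonneg _) _ hp.le
  rw [norm_mul]
  exact mul_le_of_le_one_left (norm_nonneg _) (hw g)

omit [Group G] [Fact (1 ≤ p)] in
lemma op_mem (hp : 0 < p.toReal) (w : G → ℂ) (hw : ∀ g, ‖w g‖ ≤ 1) (e : G ≃ G) (φ : L G p) :
    Memℓp (fun g => w g * φ (e g)) p := by
  apply memℓp_gen
  have h1 : Summable (fun g => ‖φ (e g)‖ ^ p.toReal) :=
    (e.summable_iff (f := fun g => ‖φ g‖ ^ p.toReal)).2 ((lp.memℓp φ).summable hp)
  exact Summable.of_nonneg_of_le (fun g => by positivity) (op_bd hp w hw e φ) h1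

/-- weighted composition operator -/
noncomputable def op (hp : 0 < p.toReal) (w : G → ℂ) (hw : ∀ g, ‖w g‖ ≤ 1) (e : G ≃ G) :
    L G p →L[ℂ] L G p :=
  LinearMap.mkContinuous
    { toFun := fun φ => ⟨fun g => w g * φ (e g), op_mem hp w hw e φ⟩
      map_add' := fun φ ψ => by
        apply lp.ext; funext g
        show w g * (φ + ψ) (e g) = w g * φ (e g) + w g * ψ (e g)
        rw [lp.coeFn_add, Pi.add_apply, mul_add]
      map_smul' := fun c φ => by
        apply lp.ext; funext g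
        show w g * (c • φ) (e g) = c • (w g * φ (e g))
        rw [lp.coeFn_smul, Pi.smul_apply, smul_eq_mul, smul_eq_mul]; ring }
    1 (fun φ => by
      rw [one_mul]
      apply lp.norm_le_of_tsum_le hp (norm_nonneg _)
      rw [lp.norm_rpow_eq_tsum hp φ, ← e.tsum_eq (fun g => ‖φ g‖ ^ p.toReal)]
      have h1 : Summable (fun g => ‖φ (e g)‖ ^ p.toReal) :=
        (e.summable_iff (f := fun g => ‖φ g‖ ^ p.toReal)).2 ((lp.memℓp φ).summable hp)
      exact Summable.tsum_le_tsum (op_bd hp w hw e φ) ((op_mem hp w hw e φ).summable hp) h1)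

omit [Group G] in
lemma op_apply (hp : 0 < p.toReal) (w : G → ℂ) (hw : ∀ g, ‖w g‖ ≤ 1) (e : G ≃ G) (φ : L G p)
    (g : G) : (op hp w hw e φ) g = w g * φ (e g) := rfl

omit [Group G] in
lemma op_norm (hp : 0 < p.toReal) (w : G → ℂ) (hw : ∀ g, ‖w g‖ ≤ 1) (e : G ≃ G) :
    ‖op hp w hw e‖ ≤ 1 := LinearMap.mkContinuous_norm_le _ zero_le_one _

/-- right translation -/
noncomputable def rho (hp : 0 < p.toReal) (h : G) : L G p →L[ℂ] L G p :=
  op hp (fun _ => 1) (fun _ => by simp) (Equiv.mulRight h)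

lemma rho_apply (hp : 0 < p.toReal) (h : G) (φ : L G p) (g : G) : (rho hp h φ) g = φ (g * h) := by
  simp [rho, op_apply]

/-- left translation -/
noncomputable def lam (hp : 0 < p.toReal) (h : G) : L G p →L[ℂ] L G p :=
  op hp (fun _ => 1) (fun _ => by simp) (Equiv.mulLeft h)

lemma lam_apply (hp : 0 < p.toReal) (h : G) (φ : L G p) (g : G) : (lam hp h φ) g = φ (h * g) := by
  simp [lam, op_apply]

omit [Group G] in
lemma sum_ops {E : Type} [NormedAddCommGroup E] [NormedSpace ℂ E]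
    (a : G → ℂ) (ha : Summable fun g => ‖a g‖) (T : G → (E →L[ℂ] E))
    (hT : ∀ h, ‖T h‖ ≤ 1) : Summable fun h => ‖a h • T h‖ := by
  refine Summable.of_nonneg_of_le (fun _ => norm_nonneg _) (fun h => ?_) ha
  rw [norm_smul]
  exact mul_le_of_le_one_right (norm_nonneg _) (hT h)

omit [Group G] in
lemma tsum_ops_norm {E : Type} [NormedAddCommGroup E] [NormedSpace ℂ E]
    (a : G → ℂ) (ha : Summable fun g => ‖a g‖) (T : G → (E →L[ℂ] E))
    (hT : ∀ h, ‖T h‖ ≤ 1) : ‖∑' h, a h • T h‖ ≤ ∑' h, ‖a h‖ := by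
  have h1 := sum_ops a ha T hT
  refine (norm_tsum_le_tsum_norm h1).trans (Summable.tsum_le_tsum (fun h => ?_) h1 ha)
  rw [norm_smul]
  exact mul_le_of_le_one_right (norm_nonneg _) (hT h)

omit [Group G] in
lemma tsum_ops_apply {E : Type} [NormedAddCommGroup E] [NormedSpace ℂ E] [CompleteSpace E]
    (a : G → ℂ) (ha : Summable fun g => ‖a g‖) (T : G → (E →L[ℂ] E))
    (hT : ∀ h, ‖T h‖ ≤ 1) (φ : E) :
    HasSum (fun h => a h • T h φ) ((∑' h, a h • T h) φ) := by
  have h1 := (sum_ops a ha T hT).of_norm.hasSum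
  have h2 := (ContinuousLinearMap.apply ℂ E φ).hasSum h1
  simp only [ContinuousLinearMap.apply_apply, smul_apply] at h2
  exact h2

omit [Group G] in
lemma tsum_ops_fun {E : Type} [NormedAddCommGroup E] [NormedSpace ℂ E] [CompleteSpace E]
    (a : G → ℂ) (ha : Summable fun g => ‖a g‖) (T : G → (E →L[ℂ] E))
    (hT : ∀ h, ‖T h‖ ≤ 1) (φ : E) (f : E →L[ℂ] ℂ) :
    f ((∑' h, a h • T h) φ) = ∑' h, a h * f (T h φ) := by
  have h1 := f.hasSum (tsum_ops_apply a ha T hT φ)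
  simp only [map_smul, smul_eq_mul] at h1
  exact h1.tsum_eq.symm

omit [Group G] in
lemma tsum_ops_apply' (a : G → ℂ) (ha : Summable fun g => ‖a g‖) (T : G → (L G p →L[ℂ] L G p))
    (hT : ∀ h, ‖T h‖ ≤ 1) (φ : L G p) (g : G) :
    ((∑' h, a h • T h) φ) g = ∑' h, a h * (T h φ) g :=
  tsum_ops_fun a ha T hT φ (lp.evalCLM (𝕜 := ℂ) (fun _ : G => ℂ) p g)

/-- convolution operator -/
noncomputable def S (hp : 0 < p.toReal) (a : G → ℂ) : L G p →L[ℂ] L G p := ∑' h, a h • rho hp h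

lemma S_apply (hp : 0 < p.toReal) (a : G → ℂ) (ha : Summable fun g => ‖a g‖) (φ : L G p) (g : G) :
    (S hp a φ) g = ∑' h, a h * φ (g * h) := by
  rw [S, tsum_ops_apply' a ha (rho hp) (fun h => op_norm _ _ _ _)]
  simp only [rho_apply]

lemma S_norm (hp : 0 < p.toReal) (a : G → ℂ) (ha : Summable fun g => ‖a g‖) :
    ‖S hp a‖ ≤ ∑' h, ‖a h‖ := by
  exact tsum_ops_norm a ha (rho hp) (fun h => op_norm _ _ _ _)

lemma conv_assoc (a y x : G → ℂ) (ha : Summable fun g => ‖a g‖) (hy : Summable fun g => ‖y g‖)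
    (hx : ∀ g, x g = ∑' h, a h * y (h⁻¹ * g)) (φ : G → ℂ) (B : ℝ) (hB : ∀ g, ‖φ g‖ ≤ B) (g : G) :
    ∑' h, a h * ∑' k, y k * φ (g * h * k) = ∑' m, x m * φ (g * m) := by
  have h0 : Summable (fun z : G × G => ‖a z.1‖ * ‖y z.2‖) :=
    by
      have := ha.mul_norm hy
      simp only [norm_mul] at this
      exact this
  let e : G × G ≃ G × G :=
    { toFun := fun z => (z.1, z.1⁻¹ * z.2)
      invFun := fun z => (z.1, z.1 * z.2)
      left_inv := fun z => by simp
      right_inv := fun z => by simp }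
  have h1 : Summable (fun z : G × G => ‖a z.1‖ * ‖y (z.1⁻¹ * z.2)‖) :=
    (e.summable_iff (f := fun z : G × G => ‖a z.1‖ * ‖y z.2‖)).2 h0
  have h2 : Summable (Function.uncurry fun h m : G => a h * y (h⁻¹ * m) * φ (g * m)) := by
    have h3 := h1.mul_right B
    have h4 : ∀ z : G × G, ‖a z.1 * y (z.1⁻¹ * z.2) * φ (g * z.2)‖ ≤
        ‖a z.1‖ * ‖y (z.1⁻¹ * z.2)‖ * B := fun z => by
      simp only [norm_mul]
      exact mul_le_mul_of_nonneg_left (hB _) (by positivity)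
    have h5 := Summable.of_norm_bounded h3 h4
    exact h5
  calc ∑' h, a h * ∑' k, y k * φ (g * h * k)
      = ∑' h, ∑' m, a h * y (h⁻¹ * m) * φ (g * m) := by
        congr 1; funext h
        rw [← tsum_mul_left, ← (Equiv.mulLeft h).tsum_eq (fun m => a h * y (h⁻¹ * m) * φ (g * m))]
        congr 1; funext k
        simp [mul_assoc]
    _ = ∑' m, ∑' h, a h * y (h⁻¹ * m) * φ (g * m) := h2.tsum_comm.symm
    _ = ∑' m, x m * φ (g * m) := by
        congr 1; funext m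
        rw [hx, tsum_mul_right]

lemma S_S (hp : 0 < p.toReal) (a y x : G → ℂ) (ha : Summable fun g => ‖a g‖)
    (hy : Summable fun g => ‖y g‖) (hx : ∀ g, x g = ∑' h, a h * y (h⁻¹ * g)) (φ : L G p) (g : G) :
    (S hp a (S hp y φ)) g = ∑' m, x m * φ (g * m) := by
  rw [S_apply hp a ha]
  simp only [S_apply hp y hy]
  have hp0 : p ≠ 0 := by rintro rfl; simp at hp
  exact conv_assoc a y x ha hy hx φ ‖φ‖ (fun g => lp.norm_apply_le_norm hp0 φ g) g

end

end Pool.Agent.Lib.helper15.Conv
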