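import Mathlib
import Pool.Agent.Lib.helper15.Conv

set_option autoImplicit false
open Filter Topology
open scoped ENNReal InnerProductSpace

namespace Pool.Agent.Lib.helper15.Conv

variable {G : Type} [Group G]

lemma solve {E : Type} [NormedAddCommGroup E] [NormedSpace ℂ E] [CompleteSpace E]
    (P : E →L[ℂ] E) (hP : ‖P‖ ≤ 3 / 4) (ψ : E) : ∃ u, u - P u = ψ ∧ ‖u‖ ≤ 4 * ‖ψ‖ := by
  have h1 : ‖P‖ < 1 := by linarith
  have h2 := mul_neg_geom_series P h1
  refine ⟨(∑' i : ℕ, P ^ i) ψ, ?_, ?_⟩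
  · have := congrArg (fun T : E →L[ℂ] E => T ψ) h2
    simpa using this
  · have h3 : (∑' i : ℕ, P ^ i) ψ - P ((∑' i : ℕ, P ^ i) ψ) = ψ := by
      have := congrArg (fun T : E →L[ℂ] E => T ψ) h2
      simpa using this
    generalize (∑' i : ℕ, P ^ i) ψ = u at h3
    have h4 : ‖u‖ ≤ ‖ψ‖ + ‖P u‖ := by
      rw [← h3]; simpa using norm_add_le (u - P u) (P u)
    have h5 := P.le_opNorm u
    nlinarith [norm_nonneg u, norm_nonneg P]

/-- the paradoxical data together with the factorisations -/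
structure Data (G : Type) [Group G] where
  a : G → ℂ
  ha : Summable fun g => ‖a g‖
  c : Fin 4 → G
  w : Fin 4 → G → ℂ
  hw : ∀ j g, w j g = 0 ∨ w j g = 1
  h1 : ∀ g, ∑ j, w j g = 2
  h2 : ∀ g i j, w i (g * c i) = 1 → w j (g * c j) = 1 → i = j
  y : Fin 4 → G → ℂ
  hy : ∀ j, Summable fun g => ‖y j g‖
  hay : ∀ j (φ : G → ℂ) (B : ℝ), (∀ g, ‖φ g‖ ≤ B) → ∀ g,
    ∑' h, a h * ∑' k, y j k * φ (g * h * k) = φ g - φ (g * c j)

lemma Data.hw' (D : Data G) (j : Fin 4) (g : G) : ‖D.w j g‖ ≤ 1 := by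
  rcases D.hw j g with h | h <;> simp [h]

noncomputable def Data.C (D : Data G) : ℝ := 2 * ∑ j, ∑' g, ‖D.y j g‖

lemma Data.C_nonneg (D : Data G) : 0 ≤ D.C :=
  mul_nonneg (by norm_num) (Finset.sum_nonneg fun j _ => tsum_nonneg fun _ => norm_nonneg _)

section
variable {p : ℝ≥0∞} [Fact (1 ≤ p)]

lemma Data.pt (D : Data G) (q : ℝ) (hq : 0 < q) (φ : G → ℂ) (g : G) :
    ‖∑ j, D.w j (g * D.c j) * φ (g * D.c j)‖ ^ q = ∑ j, ‖D.w j (g * D.c j) * φ (g * D.c j)‖ ^ q := by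
  by_cases h : ∃ i, D.w i (g * D.c i) = 1
  · obtain ⟨i, hi⟩ := h
    have h0 : ∀ j, j ≠ i → D.w j (g * D.c j) = 0 := fun j hj =>
      (D.hw j _).resolve_right fun h' => hj (D.h2 g j i h' hi)
    rw [Finset.sum_eq_single i (fun j _ hj => by simp [h0 j hj]) (by simp),
      Finset.sum_eq_single i (fun j _ hj => by simp [h0 j hj, hq.ne']) (by simp)]
  · push Not at h
    have h0 : ∀ j, D.w j (g * D.c j) = 0 := fun j => (D.hw j _).resolve_right (h j)
    simp [h0, hq.ne']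

lemma Data.pt2 (D : Data G) (q : ℝ) (hq : 0 < q) (φ : G → ℂ) (g : G) :
    ∑ j, ‖D.w j g * φ g‖ ^ q = 2 * ‖φ g‖ ^ q := by
  have h : ∀ j, ((‖D.w j g * φ g‖ ^ q : ℝ) : ℂ) = D.w j g * ((‖φ g‖ ^ q : ℝ) : ℂ) := by
    intro j
    rcases D.hw j g with h | h <;> simp [h, hq.ne']
  have : ((∑ j, ‖D.w j g * φ g‖ ^ q : ℝ) : ℂ) = ((2 * ‖φ g‖ ^ q : ℝ) : ℂ) := by
    rw [Complex.ofReal_sum, Finset.sum_congr rfl (fun j _ => h j), ← Finset.sum_mul, D.h1]
    simp
  exact_mod_cast this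

noncomputable def Data.M (D : Data G) (hp : 0 < p.toReal) (j : Fin 4) : L G p →L[ℂ] L G p :=
  op hp (D.w j) (D.hw' j) (Equiv.refl G)

lemma Data.M_apply (D : Data G) (hp : 0 < p.toReal) (j : Fin 4) (φ : L G p) (g : G) :
    (D.M hp j φ) g = D.w j g * φ g := rfl

lemma Data.Q_norm (D : Data G) (hp : 0 < p.toReal) (hp2 : 2 ≤ p.toReal) (φ : L G p) :
    ‖∑ j, rho hp (D.c j) (D.M hp j φ)‖ ≤ 3 / 2 * ‖φ‖ := by
  apply lp.norm_le_of_tsum_le hp (by positivity)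
  have e1 : ∀ g, ‖(∑ j, rho hp (D.c j) (D.M hp j φ)) g‖ ^ p.toReal =
      ∑ j, ‖D.w j (g * D.c j) * φ (g * D.c j)‖ ^ p.toReal := by
    intro g
    rw [← D.pt _ hp, lp.coeFn_sum, Finset.sum_apply]
    simp only [rho_apply, D.M_apply]
  have s0 : ∀ j, Summable fun g => ‖D.w j g * φ g‖ ^ p.toReal := fun j =>
    (lp.memℓp (D.M hp j φ)).summable hp
  have s1 : ∀ j, Summable fun g => ‖D.w j (g * D.c j) * φ (g * D.c j)‖ ^ p.toReal := fun j =>
    ((Equiv.mulRight (D.c j)).summable_iff (f := fun g => ‖D.w j g * φ g‖ ^ p.toReal)).2 (s0 j)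
  have e2 : ∀ j, ∑' g, ‖D.w j (g * D.c j) * φ (g * D.c j)‖ ^ p.toReal =
      ∑' g, ‖D.w j g * φ g‖ ^ p.toReal := fun j =>
    (Equiv.mulRight (D.c j)).tsum_eq (fun g => ‖D.w j g * φ g‖ ^ p.toReal)
  simp only [e1]
  rw [Summable.tsum_finsetSum (fun j _ => s1 j)]
  simp only [e2]
  rw [← Summable.tsum_finsetSum (fun j _ => s0 j)]
  simp only [D.pt2 _ hp]
  rw [tsum_mul_left, ← lp.norm_rpow_eq_tsum hp φ, Real.mul_rpow (by norm_num) (norm_nonneg _)]
  apply mul_le_mul_of_nonneg_right _ (by positivity)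
  calc (2 : ℝ) ≤ (3 / 2) ^ (2 : ℝ) := by norm_num
    _ ≤ _ := Real.rpow_le_rpow_of_exponent_le (by norm_num) hp2

lemma Data.surj (D : Data G) (hp : 0 < p.toReal) (hp2 : 2 ≤ p.toReal) (ψ : L G p) :
    ∃ φ : L G p, S hp D.a φ = ψ ∧ ‖φ‖ ≤ D.C * ‖ψ‖ := by
  have hp0 : p ≠ 0 := by rintro rfl; simp at hp
  let P : L G p →L[ℂ] L G p := (1 / 2 : ℂ) • ∑ j, (rho hp (D.c j)).comp (D.M hp j)
  have hPa : ∀ u, P u = (1 / 2 : ℂ) • ∑ j, rho hp (D.c j) (D.M hp j u) := by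
    intro u; simp [P]
  have hP : ‖P‖ ≤ 3 / 4 := by
    apply ContinuousLinearMap.opNorm_le_bound _ (by norm_num)
    intro u
    rw [hPa, norm_smul]
    have := D.Q_norm hp hp2 u
    have h2 : ‖(1 / 2 : ℂ)‖ = 1 / 2 := by simp
    rw [h2]; linarith
  obtain ⟨u, hu, hun⟩ := solve P hP ψ
  refine ⟨(1 / 2 : ℂ) • ∑ j, S hp (D.y j) (D.M hp j u), ?_, ?_⟩
  · rw [← hu, hPa, map_smul, map_sum]
    apply lp.ext; funext g
    have e : ∀ j, (S hp D.a (S hp (D.y j) (D.M hp j u))) g =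
        D.w j g * u g - D.w j (g * D.c j) * u (g * D.c j) := by
      intro j
      rw [S_apply hp _ D.ha]
      simp only [S_apply hp _ (D.hy j)]
      exact D.hay j (D.M hp j u) ‖D.M hp j u‖ (fun g => lp.norm_apply_le_norm hp0 _ g) g
    simp only [lp.coeFn_smul, lp.coeFn_sub, lp.coeFn_sum, Pi.smul_apply, Pi.sub_apply,
      Finset.sum_apply, e, rho_apply, D.M_apply, smul_eq_mul]
    rw [Finset.sum_sub_distrib, ← Finset.sum_mul, D.h1]; ring
  · rw [norm_smul]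
    have h2 : ‖(1 / 2 : ℂ)‖ = 1 / 2 := by simp
    have h3 : ‖∑ j, S hp (D.y j) (D.M hp j u)‖ ≤ ∑ j, (∑' g, ‖D.y j g‖) * ‖u‖ := by
      refine (norm_sum_le _ _).trans (Finset.sum_le_sum fun j _ => ?_)
      have a1 := (S hp (D.y j)).le_opNorm (D.M hp j u)
      have a2 := (D.M hp j).le_opNorm u
      have a3 : ‖D.M hp j‖ ≤ 1 := op_norm _ _ _ _
      have a4 := S_norm hp (D.y j) (D.hy j)
      have a5 : ‖D.M hp j u‖ ≤ ‖u‖ := a2.trans (mul_le_of_le_one_left (norm_nonneg _) a3)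
      exact a1.trans (mul_le_mul a4 a5 (norm_nonneg _) ((norm_nonneg _).trans a4))
    rw [← Finset.sum_mul] at h3
    have h4 := D.C_nonneg
    rw [h2]; unfold Data.C at *
    nlinarith

lemma Data.bb (D : Data G) (hp : 0 < p.toReal) (hp2 : 2 ≤ p.toReal)
    (hinj : ∀ φ : L G p, S hp D.a φ = 0 → φ = 0) (φ : L G p) : ‖φ‖ ≤ D.C * ‖S hp D.a φ‖ := by
  obtain ⟨φ', h1, h2⟩ := D.surj hp hp2 (S hp D.a φ)
  have : φ' - φ = 0 := hinj _ (by rw [map_sub, h1, sub_self])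
  rw [sub_eq_zero] at this
  exact this ▸ h2

end

lemma two_pos' : 0 < (2 : ℝ≥0∞).toReal := by norm_num

lemma Data.inj2 (D : Data G) (φ : L G 2) (hφ : S two_pos' D.a φ = 0) : φ = 0 := by
  classical
  set T := S two_pos' D.a with hT
  let K : Submodule ℂ (L G 2) := LinearMap.ker (T : L G 2 →ₗ[ℂ] L G 2)
  have hKc : IsClosed (K : Set (L G 2)) := T.isClosed_ker
  have : CompleteSpace K := hKc.completeSpace_coe
  have hcomm : ∀ k (u : L G 2), T (lam two_pos' k u) = lam two_pos' k (T u) := by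
    intro k u
    apply lp.ext; funext g
    simp only [hT, S_apply _ _ D.ha, lam_apply, mul_assoc]
  have hK : ∀ k, ∀ u ∈ K, lam two_pos' k u ∈ K := by
    intro k u hu
    have : T u = 0 := hu
    show T _ = 0
    rw [hcomm, this, map_zero]
  have hadj : ∀ k (u v : L G 2), ⟪lam two_pos' k u, v⟫_ℂ = ⟪u, lam two_pos' k⁻¹ v⟫_ℂ := by
    intro k u v
    rw [lp.inner_eq_tsum, lp.inner_eq_tsum,
      ← (Equiv.mulLeft k).tsum_eq (fun g => ⟪u g, (lam two_pos' k⁻¹ v) g⟫_ℂ)]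
    simp [lam_apply]
  let δ : L G 2 := lp.single 2 1 1
  obtain ⟨u0, hu0, -⟩ := D.surj two_pos' (by norm_num) δ
  let u : L G 2 := u0 - K.starProjection u0
  have huK : u ∈ Kᗮ := K.sub_starProjection_mem_orthogonal u0
  have hu : T u = δ := by
    have : T (K.starProjection u0) = 0 := K.starProjection_apply_mem u0
    simp only [u, map_sub, this, sub_zero]; exact hu0
  let W : L G 2 →L[ℂ] L G 2 := ∑' h, D.a h • lam two_pos' h
  have hW := tsum_ops_apply D.a D.ha (lam two_pos') (fun h => op_norm _ _ _ _)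
  have hWa := tsum_ops_apply' D.a D.ha (lam two_pos') (fun h => op_norm _ _ _ _)
  have hwK : W u ∈ Kᗮ := by
    rw [Submodule.mem_orthogonal]
    intro v hv
    have h1 := (innerSL ℂ v).hasSum (hW u)
    have h2 : ∀ h, innerSL ℂ v (D.a h • lam two_pos' h u) = 0 := by
      intro h
      rw [map_smul, innerSL_apply_apply, ← inner_conj_symm, hadj, inner_conj_symm,
        (Submodule.mem_orthogonal K u).1 huK _ (hK _ _ hv), smul_zero]
    simp only [h2] at h1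
    exact (hasSum_zero.unique h1).symm
  have hTW : T (W u) = W δ := by
    have h1 := T.hasSum (hW u)
    simp only [map_smul, hcomm, hu] at h1
    exact h1.unique (hW δ)
  have hWδ : W δ = T δ := by
    apply lp.ext; funext g
    rw [hWa, hT, S_apply _ _ D.ha]
    simp only [lam_apply, δ, lp.single_apply, Pi.single_apply, mul_eq_one_comm]
  have hz : δ - W u ∈ K := by
    show T _ = 0
    rw [map_sub, hTW, hWδ, sub_self]
  have hin : ∀ v : L G 2, ⟪δ, v⟫_ℂ = v 1 := by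
    intro v; simp [δ, lp.inner_single_left]
  have hz1 : (δ - W u) 1 = 0 := by
    have : (W u) 1 = (T u) 1 := by
      rw [hWa, hT, S_apply _ _ D.ha]
      simp only [lam_apply, mul_one, one_mul]
    rw [lp.coeFn_sub, Pi.sub_apply, this, hu, sub_self]
  have hz0 : δ - W u = 0 := by
    rw [← inner_self_eq_zero (𝕜 := ℂ)]
    nth_rewrite 1 [inner_sub_left]
    rw [hin, hz1, (Submodule.mem_orthogonal' K _).1 hwK _ hz, sub_zero]
  rw [sub_eq_zero] at hz0
  apply lp.ext; funext g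
  have h1 : lam two_pos' g φ ∈ K := hK g φ hφ
  have h2 := (Submodule.mem_orthogonal' K _).1 hwK _ h1
  rw [← hz0, hin, lam_apply, mul_one] at h2
  simpa using h2

end Pool.Agent.Lib.helper15.Conv
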