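import Mathlib
import Pool.Agent.Lib.helper15.Conv2

set_option autoImplicit false
open Filter Topology
open scoped ENNReal Pointwise

namespace Pool.Agent.Lib.helper15.Conv

variable {G : Type} [Group G]

def Data.Inj (D : Data G) (q : ℝ) : Prop :=
  ∀ φ : G → ℂ, Summable (fun g => ‖φ g‖ ^ q) → (∀ g, ∑' h, D.a h * φ (g * h) = 0) → φ = 0

def Data.BB (D : Data G) (q : ℝ) : Prop :=
  ∀ φ : G → ℂ, Summable (fun g => ‖φ g‖ ^ q) →
    Summable (fun g => ‖∑' h, D.a h * φ (g * h)‖ ^ q) ∧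
    ∑' g, ‖φ g‖ ^ q ≤ D.C ^ q * ∑' g, ‖∑' h, D.a h * φ (g * h)‖ ^ q

lemma Data.inj_two (D : Data G) : D.Inj 2 := by
  intro φ hφ h
  let f : L G 2 := ⟨φ, memℓp_gen (by simpa using hφ)⟩
  have : f = 0 := D.inj2 f (by
    apply lp.ext; funext g
    rw [S_apply _ _ D.ha]; exact h g)
  exact congrArg Subtype.val this

lemma Data.bb' (D : Data G) (q : ℝ) (hq : 2 ≤ q) (h : D.Inj q) : D.BB q := by
  intro φ hφ
  have hq0 : 0 < q := by linarith
  have e : (ENNReal.ofReal q).toReal = q := ENNReal.toReal_ofReal hq0.le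
  have : Fact (1 ≤ ENNReal.ofReal q) := ⟨by rw [ENNReal.one_le_ofReal]; linarith⟩
  have hp : 0 < (ENNReal.ofReal q).toReal := by rwa [e]
  let f : L G (ENNReal.ofReal q) := ⟨φ, memℓp_gen (by rwa [e])⟩
  have h1 := D.bb hp (by rwa [e]) (fun ψ hψ => by
    apply lp.ext
    apply h ψ (by simpa [e] using (lp.memℓp ψ).summable hp)
    intro g
    rw [← S_apply hp _ D.ha, hψ]; rfl) f
  have h2 := (lp.memℓp (S hp D.a f)).summable hp
  have h3 := lp.norm_rpow_eq_tsum hp f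
  have h4 := lp.norm_rpow_eq_tsum hp (S hp D.a f)
  simp only [S_apply hp _ D.ha, e] at h2 h3 h4
  refine ⟨h2, ?_⟩
  have h5 : ‖f‖ ^ q ≤ (D.C * ‖S hp D.a f‖) ^ q := Real.rpow_le_rpow (norm_nonneg _) h1 hq0.le
  rw [Real.mul_rpow D.C_nonneg (norm_nonneg _), h3, h4] at h5
  exact h5

lemma real1 (t τ r : ℝ) (ht : 0 ≤ t) (hτ : 0 < τ) (hτ' : τ ≤ 1 / 2) (hr : 2 ≤ r) :
    t * |t ^ τ - 1| ≤ τ * (1 + 2 * t ^ r) := by
  rcases ht.eq_or_lt with rfl | ht0
  · have : (0 : ℝ) ≤ 0 ^ r := by positivity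
    nlinarith
  have hr0 : 0 ≤ t ^ r := by positivity
  have e : t ^ τ = Real.exp (Real.log t * τ) := Real.rpow_def_of_pos ht0 τ
  rcases le_total t 1 with h1 | h1
  · have a1 : t ^ τ ≤ 1 := Real.rpow_le_one ht h1 hτ.le
    rw [abs_of_nonpos (by linarith)]
    have a2 : Real.log t * τ + 1 ≤ t ^ τ := e ▸ Real.add_one_le_exp _
    have a3 : 1 - t⁻¹ ≤ Real.log t := Real.one_sub_inv_le_log_of_pos ht0
    have a4 : t - 1 ≤ t * Real.log t := by
      have := mul_le_mul_of_nonneg_left a3 ht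
      rwa [mul_sub, mul_one, mul_inv_cancel₀ ht0.ne'] at this
    nlinarith
  · have a1 : 1 ≤ t ^ τ := Real.one_le_rpow h1 hτ.le
    rw [abs_of_nonneg (by linarith)]
    have a2 : -(Real.log t * τ) + 1 ≤ (t ^ τ)⁻¹ := by
      rw [e, ← Real.exp_neg]; exact Real.add_one_le_exp _
    have a2' : t ^ τ - 1 ≤ τ * Real.log t * t ^ τ := by
      have := mul_le_mul_of_nonneg_left a2 (by linarith : 0 ≤ t ^ τ)
      rw [mul_inv_cancel₀ (by linarith)] at this
      nlinarith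
    have a3 : Real.log t ≤ t ^ (1 / 2 : ℝ) / (1 / 2) := Real.log_le_rpow_div ht (by norm_num)
    have a4 : t * (t ^ (1 / 2 : ℝ) * t ^ τ) ≤ t ^ r := by
      rw [← Real.rpow_add ht0, ← Real.rpow_one_add' ht (by positivity)]
      exact Real.rpow_le_rpow_of_exponent_le h1 (by linarith)
    have a5 : τ * Real.log t * t ^ τ ≤ τ * (2 * t ^ (1 / 2 : ℝ)) * t ^ τ := by
      apply mul_le_mul_of_nonneg_right _ (by linarith)
      apply mul_le_mul_of_nonneg_left _ hτ.le
      linarith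
    calc t * (t ^ τ - 1) ≤ t * (τ * (2 * t ^ (1 / 2 : ℝ)) * t ^ τ) :=
          mul_le_mul_of_nonneg_left (a2'.trans a5) ht
      _ = τ * (2 * (t * (t ^ (1 / 2 : ℝ) * t ^ τ))) := by ring
      _ ≤ τ * (1 + 2 * t ^ r) := mul_le_mul_of_nonneg_left (by linarith) hτ.le

lemma real2 (s M τ r : ℝ) (hs : 0 ≤ s) (hM : 0 < M) (hτ : 0 < τ) (hτ' : τ ≤ 1 / 2) (hr : 2 ≤ r) :
    s * |s ^ τ - M ^ τ| ≤ τ * M ^ (1 + τ) * (1 + 2 * (s ^ r / M ^ r)) := by
  have h := real1 (s / M) τ r (by positivity) hτ hτ' hr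
  rw [Real.div_rpow hs hM.le, Real.div_rpow hs hM.le] at h
  have hM' : 0 < M ^ τ := by positivity
  have e : s ^ τ - M ^ τ = M ^ τ * (s ^ τ / M ^ τ - 1) := by field_simp
  rw [e, abs_mul, abs_of_pos hM', Real.rpow_one_add' hM.le (by positivity)]
  have := mul_le_mul_of_nonneg_left h (by positivity : 0 ≤ M * M ^ τ)
  calc s * (M ^ τ * |s ^ τ / M ^ τ - 1|) = M * M ^ τ * (s / M * |s ^ τ / M ^ τ - 1|) := by
        field_simp
    _ ≤ _ := this
    _ = _ := by ring

lemma tonelli (α ξ : G → ℝ) (hα : Summable α) (hξ : Summable ξ) (h1 : ∀ g, 0 ≤ α g)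
    (h2 : ∀ g, 0 ≤ ξ g) : (∀ g, Summable fun h => α h * ξ (g * h)) ∧
      HasSum (fun g => ∑' h, α h * ξ (g * h)) ((∑' g, ξ g) * ∑' g, α g) := by
  have n1 : Summable fun g => ‖ξ g‖ := hξ.norm
  have n2 : Summable fun g => ‖α g‖ := hα.norm
  have h0 := summable_mul_of_summable_norm n1 n2
  have h3 := tsum_mul_tsum_of_summable_norm n1 n2
  let e : G × G ≃ G × G :=
    { toFun := fun z => (z.1 * z.2, z.2)
      invFun := fun z => (z.1 * z.2⁻¹, z.2)
      left_inv := fun z => by simp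
      right_inv := fun z => by simp }
  have h4 := (e.hasSum_iff (f := fun z : G × G => ξ z.1 * α z.2)).2 h0.hasSum
  rw [← h3] at h4
  have h5 : HasSum (fun z : G × G => α z.2 * ξ (z.1 * z.2)) ((∑' g, ξ g) * ∑' g, α g) := by
    convert h4 using 2 with z
    simp [e, mul_comm]
  have h6 : ∀ g, Summable fun h => α h * ξ (g * h) := fun g => h5.summable.prod_factor g
  exact ⟨h6, h5.prod_fiberwise (fun g => (h6 g).hasSum)⟩

lemma Data.step (D : Data G) (q τ : ℝ) (hq : 2 ≤ q) (hτ : 0 < τ) (hτ' : τ ≤ 1 / 2)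
    (hs : D.C * (τ * (∑' g, ‖D.a g‖ + 2)) * (∑' g, ‖D.a g‖ + 1) ≤ 1 / 2) (h : D.BB q) :
    D.Inj (q * (1 + τ)) := by
  intro φ hφ h0
  set A := ∑' g, ‖D.a g‖ with hA
  have hA0 : 0 ≤ A := tsum_nonneg fun _ => norm_nonneg _
  set r := q * (1 + τ) with hr
  have hr2 : 2 ≤ r := by nlinarith
  have hq0 : 0 < q := by linarith
  have hr0 : 0 < r := by linarith
  let ψ : G → ℂ := fun g => ((‖φ g‖ ^ τ : ℝ) : ℂ) * φ g
  have hψn : ∀ g, ‖ψ g‖ ^ q = ‖φ g‖ ^ r := by
    intro g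
    simp only [ψ, norm_mul, Complex.norm_real, Real.norm_eq_abs]
    rw [abs_of_nonneg (by positivity), mul_comm, ← Real.rpow_one_add' (norm_nonneg _) (by positivity),
      ← Real.rpow_mul (norm_nonneg _), mul_comm]
  obtain ⟨-, h1⟩ := h ψ (by simpa only [hψn] using hφ)
  obtain ⟨t1, t2⟩ := tonelli (fun g => ‖D.a g‖) (fun g => ‖φ g‖ ^ r) D.ha hφ
    (fun _ => norm_nonneg _) (fun _ => by positivity)
  set N := ∑' g, ‖φ g‖ ^ r with hN
  have hN0 : 0 ≤ N := tsum_nonneg fun _ => by positivity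
  have hb : ∀ g, ‖φ g‖ ≤ N ^ r⁻¹ := by
    intro g
    have : ‖φ g‖ ^ r ≤ N := hφ.le_tsum g (fun _ _ => by positivity)
    have := Real.rpow_le_rpow (by positivity) this (inv_pos.2 hr0).le
    rwa [Real.rpow_rpow_inv (norm_nonneg _) hr0.ne'] at this
  have hsφ : ∀ g, Summable fun h => D.a h * φ (g * h) := fun g =>
    Summable.of_norm_bounded (D.ha.mul_right (N ^ r⁻¹)) fun h => by
      rw [norm_mul]; exact mul_le_mul_of_nonneg_left (hb _) (norm_nonneg _)
  have hsψ : ∀ g, Summable fun h => D.a h * ψ (g * h) := fun g =>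
    Summable.of_norm_bounded (D.ha.mul_right ((N ^ r⁻¹) ^ τ * N ^ r⁻¹)) fun h => by
      rw [norm_mul]; apply mul_le_mul_of_nonneg_left _ (norm_nonneg _)
      simp only [ψ, norm_mul, Complex.norm_real, Real.norm_eq_abs]
      rw [abs_of_nonneg (by positivity)]
      exact mul_le_mul (Real.rpow_le_rpow (norm_nonneg _) (hb _) hτ.le) (hb _) (norm_nonneg _)
        (by positivity)
  have key : ∀ g, ‖∑' h, D.a h * ψ (g * h)‖ ^ q ≤
      (τ * (A + 2)) ^ q * ∑' h, ‖D.a h‖ * ‖φ (g * h)‖ ^ r := by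
    intro g
    set m := ∑' h, ‖D.a h‖ * ‖φ (g * h)‖ ^ r with hm
    have hm0 : 0 ≤ m := tsum_nonneg fun _ => by positivity
    rcases hm0.eq_or_lt with hm1 | hm1
    · have z : ∀ h, D.a h * ψ (g * h) = 0 := by
        intro h
        have : ‖D.a h‖ * ‖φ (g * h)‖ ^ r ≤ m := (t1 g).le_tsum h (fun _ _ => by positivity)
        have : ‖D.a h‖ * ‖φ (g * h)‖ ^ r = 0 := le_antisymm (by linarith) (by positivity)
        rcases mul_eq_zero.1 this with h' | h'
        · simp [norm_eq_zero.1 h']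
        · rw [Real.rpow_eq_zero (norm_nonneg _) hr0.ne', norm_eq_zero] at h'
          simp [ψ, h']
      simp only [z, tsum_zero, norm_zero]
      rw [Real.zero_rpow hq0.ne']; positivity
    set M := m ^ r⁻¹ with hM
    have hM0 : 0 < M := by positivity
    have hMr : M ^ r = m := Real.rpow_inv_rpow hm0 hr0.ne'
    have e1 : ∑' h, D.a h * ψ (g * h) =
        ∑' h, (D.a h * ψ (g * h) - ((M ^ τ : ℝ) : ℂ) * (D.a h * φ (g * h))) := by
      rw [Summable.tsum_sub (hsψ g) ((hsφ g).mul_left _), tsum_mul_left, h0, mul_zero, sub_zero]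
    have b1 : ∀ h, ‖D.a h * ψ (g * h) - ((M ^ τ : ℝ) : ℂ) * (D.a h * φ (g * h))‖ ≤
        τ * M ^ (1 + τ) * (‖D.a h‖ + 2 / m * (‖D.a h‖ * ‖φ (g * h)‖ ^ r)) := by
      intro h
      have : D.a h * ψ (g * h) - ((M ^ τ : ℝ) : ℂ) * (D.a h * φ (g * h)) =
          D.a h * (φ (g * h) * ((‖φ (g * h)‖ ^ τ - M ^ τ : ℝ) : ℂ)) := by
        simp only [ψ]; push_cast; ring
      rw [this, norm_mul, norm_mul, Complex.norm_real, Real.norm_eq_abs]
      have h2 := mul_le_mul_of_nonneg_left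
        (real2 ‖φ (g * h)‖ M τ r (norm_nonneg _) hM0 hτ hτ' hr2) (norm_nonneg (D.a h))
      rw [hMr] at h2
      refine h2.trans (le_of_eq ?_)
      field_simp
    have b2 : HasSum (fun h => τ * M ^ (1 + τ) * (‖D.a h‖ + 2 / m * (‖D.a h‖ * ‖φ (g * h)‖ ^ r)))
        (τ * M ^ (1 + τ) * (A + 2 / m * m)) :=
      (D.ha.hasSum.add ((t1 g).hasSum.mul_left _)).mul_left _
    have b3 := tsum_of_norm_bounded b2 b1
    rw [← e1, div_mul_cancel₀ _ hm1.ne'] at b3
    calc _ ≤ (τ * (A + 2) * M ^ (1 + τ)) ^ q :=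
          Real.rpow_le_rpow (norm_nonneg _) (by linarith) hq0.le
      _ = _ := by
          rw [Real.mul_rpow (by positivity) (by positivity), ← Real.rpow_mul hM0.le,
            mul_comm (1 + τ) q, hMr]
  have k2 : ∑' g, ‖∑' h, D.a h * ψ (g * h)‖ ^ q ≤ (τ * (A + 2)) ^ q * (N * A) := by
    have s := t2.mul_left ((τ * (A + 2)) ^ q)
    rw [← s.tsum_eq]
    exact Summable.tsum_le_tsum key
      (Summable.of_nonneg_of_le (fun _ => by positivity) key s.summable) s.summable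
  simp only [hψn] at h1
  have hC := D.C_nonneg
  have k3 : A ≤ (A + 1) ^ q := by
    calc A ≤ (A + 1) ^ (1 : ℝ) := by rw [Real.rpow_one]; linarith
      _ ≤ _ := Real.rpow_le_rpow_of_exponent_le (by linarith) (by linarith)
  have k4 : D.C ^ q * (τ * (A + 2)) ^ q * (A + 1) ^ q ≤ 1 / 2 := by
    rw [← Real.mul_rpow hC (by positivity), ← Real.mul_rpow (by positivity) (by positivity)]
    calc _ ≤ (1 / 2 : ℝ) ^ q := Real.rpow_le_rpow (by positivity) hs hq0.le
      _ ≤ (1 / 2 : ℝ) ^ (1 : ℝ) :=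
          Real.rpow_le_rpow_of_exponent_ge (by norm_num) (by norm_num) (by linarith)
      _ = _ := Real.rpow_one _
  have k5 : N ≤ 1 / 2 * N := by
    calc N ≤ D.C ^ q * ((τ * (A + 2)) ^ q * (N * A)) :=
          h1.trans (mul_le_mul_of_nonneg_left k2 (by positivity))
      _ ≤ D.C ^ q * ((τ * (A + 2)) ^ q * (N * (A + 1) ^ q)) := by gcongr
      _ = D.C ^ q * (τ * (A + 2)) ^ q * (A + 1) ^ q * N := by ring
      _ ≤ _ := mul_le_mul_of_nonneg_right k4 hN0
  have hN1 : N = 0 := by linarith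
  funext g
  have := hb g
  rw [hN1, Real.zero_rpow (inv_pos.2 hr0).ne'] at this
  exact norm_le_zero_iff.1 this

lemma Data.bb_large (D : Data G) (Q : ℝ) : ∃ q, Q ≤ q ∧ 2 ≤ q ∧ D.BB q := by
  set A := ∑' g, ‖D.a g‖ with hA
  have hA0 : 0 ≤ A := tsum_nonneg fun _ => norm_nonneg _
  have hC := D.C_nonneg
  set X := D.C * (A + 2) * (A + 1) with hX
  have hX0 : 0 ≤ X := by positivity
  set τ := 1 / (2 * (X + 1)) with hτd
  have hτ : 0 < τ := by positivity
  have hτ1 : τ * (X + 1) = 1 / 2 := by rw [hτd]; field_simp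
  have hτ' : τ ≤ 1 / 2 := by nlinarith
  have h1 : ∀ n : ℕ, 2 ≤ 2 * (1 + τ) ^ n := fun n => by
    have : 1 ≤ (1 + τ) ^ n := one_le_pow₀ (by linarith)
    linarith
  have h2 : ∀ n : ℕ, D.Inj (2 * (1 + τ) ^ n) := by
    intro n
    induction n with
    | zero => simpa using D.inj_two
    | succ n ih =>
      rw [pow_succ, ← mul_assoc]
      refine D.step _ τ (h1 n) hτ hτ' ?_ (D.bb' _ (h1 n) ih)
      rw [← hA]
      have : D.C * (τ * (A + 2)) * (A + 1) = τ * X := by rw [hX]; ring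
      nlinarith
  obtain ⟨n, hn⟩ := pow_unbounded_of_one_lt Q (by linarith : 1 < 1 + τ)
  exact ⟨_, by have := h1 n; linarith, h1 n, D.bb' _ (h1 n) (h2 n)⟩

lemma bump (H : Finset G) (N : ℕ) (hN : 0 < N) : ∃ φ : G → ℝ, (Function.support φ).Finite ∧
    φ 1 = 1 ∧ (∀ g, 0 ≤ φ g ∧ φ g ≤ 1) ∧ ∀ g, ∀ h ∈ H, |φ (g * h) - φ g| ≤ 1 / N := by
  classical
  let K : Finset G := insert 1 (H ∪ H⁻¹)
  let f : G → ℝ := fun g => ∑ n ∈ Finset.range N, if g ∈ K ^ n then 1 else 0
  have hN' : (0 : ℝ) < N := by exact_mod_cast hN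
  have hf : ∀ g k, k ∈ K → f g ≤ f (g * k) + 1 := by
    intro g k hk
    have a1 : f g ≤ ∑ n ∈ Finset.range N, if g * k ∈ K ^ (n + 1) then (1 : ℝ) else 0 := by
      apply Finset.sum_le_sum
      intro n _
      by_cases h : g ∈ K ^ n
      · have : g * k ∈ K ^ (n + 1) := by rw [pow_succ]; exact Finset.mul_mem_mul h hk
        simp [h, this]
      · simp only [h, if_false]; split_ifs <;> norm_num
    have a2 := Finset.sum_range_succ (fun n => if g * k ∈ K ^ n then (1 : ℝ) else 0) N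
    have a3 := Finset.sum_range_succ' (fun n => if g * k ∈ K ^ n then (1 : ℝ) else 0) N
    have a4 : (if g * k ∈ K ^ N then (1 : ℝ) else 0) ≤ 1 := by split_ifs <;> norm_num
    have a5 : 0 ≤ (if g * k ∈ K ^ 0 then (1 : ℝ) else 0) := by split_ifs <;> norm_num
    simp only [f] at *
    linarith
  refine ⟨fun g => f g / N, ?_, ?_, fun g => ⟨?_, ?_⟩, fun g h hh => ?_⟩
  · refine ((Finset.range N).biUnion fun n => K ^ n).finite_toSet.subset fun g hg => ?_
    by_contra hc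
    apply hg
    simp only [Finset.coe_biUnion, Set.mem_iUnion, not_exists, Finset.mem_coe] at hc
    simp only [f]
    rw [Finset.sum_eq_zero (fun n hn => if_neg (hc n hn)), zero_div]
  · have : ∀ n, (1 : G) ∈ K ^ n := fun n => Finset.one_mem_pow (Finset.mem_insert_self _ _)
    simp [f, this, hN.ne']
  · exact div_nonneg (Finset.sum_nonneg fun _ _ => by split_ifs <;> norm_num) hN'.le
  · rw [div_le_one hN']
    calc f g ≤ ∑ n ∈ Finset.range N, (1 : ℝ) :=
          Finset.sum_le_sum fun _ _ => by split_ifs <;> norm_num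
      _ = N := by simp
  · have b1 := hf g h (by simp [K, hh])
    have b2 := hf (g * h) h⁻¹ (by simp [K, hh])
    rw [mul_inv_cancel_right] at b2
    rw [← sub_div, abs_div, abs_of_pos hN']
    apply div_le_div_of_nonneg_right _ hN'.le
    rw [abs_le]; constructor <;> linarith

theorem Data.sum_ne_zero (D : Data G) : ∑' g, D.a g ≠ 0 := by
  classical
  intro h0
  set A := ∑' g, ‖D.a g‖ with hA
  have hA0 : 0 ≤ A := tsum_nonneg fun _ => norm_nonneg _
  have hC := D.C_nonneg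
  set η := 1 / (2 * (D.C + 1)) with hη
  have hη0 : 0 < η := by positivity
  have hη1 : η * (D.C + 1) = 1 / 2 := by rw [hη]; field_simp
  obtain ⟨H, hH⟩ : ∃ H : Finset G, ∑' x : {x // x ∉ H}, ‖D.a x‖ < η / 2 :=
    ((tendsto_tsum_compl_atTop_zero (fun g => ‖D.a g‖)).eventually
      (gt_mem_nhds (half_pos hη0))).exists
  obtain ⟨N, hN⟩ := exists_nat_gt (A / (η / 2))
  have hN' : (0 : ℝ) < N := lt_of_le_of_lt (by positivity) hN
  obtain ⟨f, f1, f2, f3, f4⟩ := bump H N (by exact_mod_cast hN')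
  let φ : G → ℂ := fun g => (f g : ℂ)
  have hs : ∀ q : ℝ, 0 < q → Summable fun g => ‖φ g‖ ^ q := fun q hq =>
    summable_of_hasFiniteSupport (f1.subset fun g hg h => hg (by simp [φ, h, hq.ne']))
  have hsφ : ∀ g, Summable fun h => D.a h * φ (g * h) := fun g =>
    Summable.of_norm_bounded D.ha fun h => by
      rw [norm_mul]; apply mul_le_of_le_one_right (norm_nonneg _)
      simp [φ, abs_of_nonneg (f3 _).1, (f3 _).2]
  have hb : ∀ g, ‖∑' h, D.a h * φ (g * h)‖ ≤ η := by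
    intro g
    have e1 : ∑' h, D.a h * φ (g * h) = ∑' h, (D.a h * φ (g * h) - D.a h * φ g) := by
      rw [Summable.tsum_sub (hsφ g) (D.ha.of_norm.mul_right _), tsum_mul_right, h0, zero_mul,
        sub_zero]
    have b1 : ∀ h, ‖D.a h * φ (g * h) - D.a h * φ g‖ ≤
        ‖D.a h‖ * (1 / N) + Set.indicator {x | x ∉ H} (fun x => ‖D.a x‖) h := by
      intro h
      rw [← mul_sub, norm_mul]
      have : ‖φ (g * h) - φ g‖ = |f (g * h) - f g| := by
        simp only [φ]; rw [← Complex.ofReal_sub, Complex.norm_real, Real.norm_eq_abs]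
      rw [this]
      by_cases hh : h ∈ H
      · rw [Set.indicator_of_notMem (by simpa using hh), add_zero]
        exact mul_le_mul_of_nonneg_left (f4 g h hh) (norm_nonneg _)
      · rw [Set.indicator_of_mem (by simpa using hh)]
        have : |f (g * h) - f g| ≤ 1 := by
          have := f3 (g * h); have := f3 g
          rw [abs_le]; constructor <;> linarith
        have := mul_le_mul_of_nonneg_left this (norm_nonneg (D.a h))
        have : 0 ≤ ‖D.a h‖ * (1 / N) := by positivity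
        linarith
    have b2 := (D.ha.hasSum.mul_right (1 / (N : ℝ))).add (D.ha.indicator {x | x ∉ H}).hasSum
    have b3 := tsum_of_norm_bounded b2 b1
    rw [← e1, ← tsum_subtype {x | x ∉ H} (fun x => ‖D.a x‖)] at b3
    have b4 : A * (1 / N) ≤ η / 2 := by
      rw [div_lt_iff₀ (half_pos hη0)] at hN
      rw [mul_one_div, div_le_iff₀ hN']; linarith
    have b5 : ∑' x : ({x | x ∉ H} : Set G), ‖D.a x‖ < η / 2 := hH
    linarith
  obtain ⟨s2, -⟩ := D.bb' 2 le_rfl D.inj_two φ (hs 2 two_pos)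
  set E := ∑' g, ‖∑' h, D.a h * φ (g * h)‖ ^ (2 : ℝ) with hE
  have hE0 : 0 ≤ E := tsum_nonneg fun _ => by positivity
  obtain ⟨n, hn⟩ := exists_pow_lt_of_lt_one (show 0 < 1 / (D.C ^ (2 : ℝ) * E + 1) by positivity)
    (show (1 / 2 : ℝ) < 1 by norm_num)
  obtain ⟨q, hq1, hq2, hq⟩ := D.bb_large (n + 2)
  have hq0 : 0 < q := by linarith
  obtain ⟨s3, s4⟩ := hq φ (hs q hq0)
  have c1 : 1 ≤ ∑' g, ‖φ g‖ ^ q := by
    have := (hs q hq0).le_tsum 1 (fun _ _ => by positivity)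
    simpa [φ, f2] using this
  have c2 : ∑' g, ‖∑' h, D.a h * φ (g * h)‖ ^ q ≤ η ^ (q - 2) * E := by
    rw [hE, ← tsum_mul_left]
    refine Summable.tsum_le_tsum (fun g => ?_) s3 (s2.mul_left _)
    have : q = (q - 2) + 2 := by ring
    nth_rewrite 1 [this]
    rw [Real.rpow_add' (norm_nonneg _) (by linarith)]
    exact mul_le_mul_of_nonneg_right (Real.rpow_le_rpow (norm_nonneg _) (hb g) (by linarith))
      (by positivity)
  have c3 : D.C ^ q * η ^ (q - 2) ≤ D.C ^ (2 : ℝ) * (1 / 2) ^ n := by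
    have : q = 2 + (q - 2) := by ring
    nth_rewrite 1 [this]
    rw [Real.rpow_add' hC (by linarith), mul_assoc, ← Real.mul_rpow hC hη0.le]
    apply mul_le_mul_of_nonneg_left _ (by positivity)
    calc (D.C * η) ^ (q - 2) ≤ (1 / 2 : ℝ) ^ (q - 2) :=
          Real.rpow_le_rpow (by positivity) (by nlinarith) (by linarith)
      _ ≤ (1 / 2 : ℝ) ^ (n : ℝ) :=
          Real.rpow_le_rpow_of_exponent_ge (by norm_num) (by norm_num) (by linarith)
      _ = _ := Real.rpow_natCast _ _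
  have c4 : 1 ≤ D.C ^ (2 : ℝ) * (1 / 2) ^ n * E :=
    calc 1 ≤ D.C ^ q * (η ^ (q - 2) * E) :=
          c1.trans (s4.trans (mul_le_mul_of_nonneg_left c2 (by positivity)))
      _ = D.C ^ q * η ^ (q - 2) * E := by ring
      _ ≤ _ := mul_le_mul_of_nonneg_right c3 hE0
  rw [lt_div_iff₀ (by positivity)] at hn
  have : (0 : ℝ) < (1 / 2) ^ n := by positivity
  nlinarith

end Pool.Agent.Lib.helper15.Conv
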