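import Mathlib

set_option autoImplicit false

open Finset

namespace Pool.Agent.Lib.helper15.Cut

variable {B ι : Type*} [Fintype B] [DecidableEq ι]

/-- sign of a cut -/
def χ (c : ι → B → Bool) (σ : ι) (y : B) : ℝ := if c σ y then 1 else -1

omit [Fintype B] [DecidableEq ι] in
lemma exp_cut (c : ι → B → Bool) (δ : ι → ℝ) (σ : ι) (y y' : B) :
    Real.exp (-(if c σ y = c σ y' then 0 else δ σ)) =
      (1 - Real.exp (-δ σ)) / 2 * (χ c σ y * χ c σ y') + (1 + Real.exp (-δ σ)) / 2 := by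
  unfold χ
  cases c σ y <;> cases c σ y' <;> simp <;> ring

lemma expand (c : ι → B → Bool) (δ : ι → ℝ) (s : Finset ι) (K : B → B → ℝ) (w : B → ℝ) :
    ∑ y, ∑ y', w y * w y' * (K y y' * Real.exp (-(∑ σ ∈ s, if c σ y = c σ y' then 0 else δ σ))) =
    ∑ t ∈ s.powerset, ((∏ σ ∈ t, (1 - Real.exp (-δ σ)) / 2) * ∏ σ ∈ s \ t, (1 + Real.exp (-δ σ)) / 2) *
      ∑ y, ∑ y', (w y * ∏ σ ∈ t, χ c σ y) * (w y' * ∏ σ ∈ t, χ c σ y') * K y y' := by
  simp only [← sum_neg_distrib, Real.exp_sum, exp_cut, prod_add, mul_sum, prod_mul_distrib]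
  rw [sum_comm]
  simp only [sum_comm (s := s.powerset)]
  rw [sum_comm]
  refine sum_congr rfl fun y _ => sum_congr rfl fun y' _ => sum_congr rfl fun t _ => ?_
  ring

lemma coef_nonneg (δ : ι → ℝ) (s : Finset ι) (hδ : ∀ σ ∈ s, 0 ≤ δ σ) (t : Finset ι) (ht : t ⊆ s) :
    0 ≤ (∏ σ ∈ t, (1 - Real.exp (-δ σ)) / 2) * ∏ σ ∈ s \ t, (1 + Real.exp (-δ σ)) / 2 := by
  refine mul_nonneg (prod_nonneg fun σ hσ => ?_) (prod_nonneg fun σ _ => by positivity)
  have := Real.exp_le_one_iff.2 (neg_nonpos.2 (hδ σ (ht hσ)))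
  linarith

/-- main lower bound -/
theorem lower (c : ι → B → Bool) (δ : ι → ℝ) (s : Finset ι) (hδ : ∀ σ ∈ s, 0 ≤ δ σ)
    (K : B → B → ℝ) (hK : ∀ v : B → ℝ, 0 ≤ ∑ y, ∑ y', v y * v y' * K y y') (w : B → ℝ) :
    Real.exp (-∑ σ ∈ s, δ σ) * ∑ y, ∑ y', w y * w y' * K y y' ≤
    ∑ y, ∑ y', w y * w y' * (K y y' * Real.exp (-(∑ σ ∈ s, if c σ y = c σ y' then 0 else δ σ))) := by
  rw [expand]
  refine le_trans ?_ (single_le_sum (f := fun t =>
    ((∏ σ ∈ t, (1 - Real.exp (-δ σ)) / 2) * ∏ σ ∈ s \ t, (1 + Real.exp (-δ σ)) / 2) *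
      ∑ y, ∑ y', (w y * ∏ σ ∈ t, χ c σ y) * (w y' * ∏ σ ∈ t, χ c σ y') * K y y')
    (fun t ht => mul_nonneg (coef_nonneg δ s hδ t (mem_powerset.1 ht)) (hK _)) (empty_mem_powerset s))
  simp only [prod_empty, one_mul, sdiff_empty, mul_one]
  refine mul_le_mul_of_nonneg_right ?_ (hK w)
  rw [← sum_neg_distrib, Real.exp_sum]
  refine prod_le_prod (fun σ _ => (Real.exp_pos _).le) fun σ hσ => ?_
  have := Real.exp_le_one_iff.2 (neg_nonpos.2 (hδ σ hσ))
  linarith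

lemma one_psd (v : B → ℝ) : ∑ y, ∑ y', v y * v y' * (1 : ℝ) = (∑ y, v y) ^ 2 := by
  simp only [mul_one, sq, sum_mul_sum]

theorem lower_one (c : ι → B → Bool) (δ : ι → ℝ) (s : Finset ι) (hδ : ∀ σ ∈ s, 0 ≤ δ σ)
    (w : B → ℝ) : Real.exp (-∑ σ ∈ s, δ σ) * (∑ y, w y) ^ 2 ≤
    ∑ y, ∑ y', w y * w y' * Real.exp (-(∑ σ ∈ s, if c σ y = c σ y' then 0 else δ σ)) := by
  have := lower c δ s hδ (fun _ _ => 1) (fun v => by rw [one_psd]; positivity) w
  simpa only [one_psd, one_mul] using this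

theorem strict [DecidableEq B] (c : ι → B → Bool) (δ : ι → ℝ) (s : Finset ι) (hδ : ∀ σ ∈ s, 0 < δ σ)
    (hsep : ∀ y y', y ≠ y' → ∃ σ ∈ s, c σ y ≠ c σ y') (w : B → ℝ) (hw : w ≠ 0) :
    0 < ∑ y, ∑ y', w y * w y' * Real.exp (-(∑ σ ∈ s, if c σ y = c σ y' then 0 else δ σ)) := by
  have e := expand c δ s (fun _ _ => 1) w
  simp only [one_psd, one_mul] at e
  rw [e]
  refine sum_pos' (fun t ht => mul_nonneg (coef_nonneg δ s (fun σ h => (hδ σ h).le) t
    (mem_powerset.1 ht)) (sq_nonneg _)) ?_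
  by_contra hn
  push Not at hn
  have h0 : ∀ t ∈ s.powerset, ∑ y, w y * ∏ σ ∈ t, χ c σ y = 0 := by
    intro t ht
    by_contra h
    refine absurd (hn t ht) (not_le.2 (mul_pos (mul_pos (prod_pos fun σ hσ => ?_)
      (prod_pos fun σ _ => by positivity)) (by positivity)))
    have := Real.exp_lt_one_iff.2 (neg_lt_zero.2 (hδ σ (mem_powerset.1 ht hσ)))
    linarith
  apply hw
  funext y0
  have h1 : ∑ y, w y * ∏ σ ∈ s, (χ c σ y * χ c σ y0 + 1) = 0 := by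
    simp only [prod_add, prod_const_one, mul_one, mul_sum, prod_mul_distrib]
    rw [sum_comm]
    refine sum_eq_zero fun t ht => ?_
    simp only [← mul_assoc, ← sum_mul, h0 t ht, zero_mul]
  rw [sum_eq_single y0] at h1
  · refine (mul_eq_zero.1 h1).resolve_right (prod_ne_zero_iff.2 fun σ _ => ?_)
    unfold χ; cases c σ y0 <;> norm_num
  · intro y _ hy
    obtain ⟨σ, hσ, h⟩ := hsep y y0 hy
    rw [prod_eq_zero hσ, mul_zero]
    unfold χ
    revert h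
    cases c σ y <;> cases c σ y0 <;> simp
  · simp

open MeasureTheory in
/-- a finite family of measurable sets is a weighted cut metric -/
theorem atoms {Ω : Type*} [MeasurableSpace Ω] (μ : Measure Ω) [IsProbabilityMeasure μ]
    [DecidableEq B] (S : B → Set Ω) (hS : ∀ y, MeasurableSet (S y)) :
    ∃ (s : Finset (B → Bool)) (δ : (B → Bool) → ℝ), (∀ σ ∈ s, 0 < δ σ) ∧ ∑ σ ∈ s, δ σ = 1 ∧
      ∀ y y', μ.real (symmDiff (S y) (S y')) = ∑ σ ∈ s, if σ y = σ y' then 0 else δ σ := by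
  classical
  let F : Ω → B → Bool := fun t y => decide (t ∈ S y)
  have hF : Measurable F := measurable_pi_iff.2 fun y => by
    refine measurable_to_bool ?_
    have : (fun t => decide (t ∈ S y)) ⁻¹' {true} = S y := by ext t; simp
    rw [this]; exact hS y
  let δ : (B → Bool) → ℝ := fun σ => μ.real (F ⁻¹' {σ})
  have key : ∀ u : Finset (B → Bool), ∑ σ ∈ u, δ σ = μ.real (F ⁻¹' u) := fun u =>
    sum_measureReal_preimage_singleton u fun σ _ => hF (measurableSet_singleton σ)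
  have d0 : ∀ σ, 0 ≤ δ σ := fun σ => measureReal_nonneg
  refine ⟨univ.filter fun σ => 0 < δ σ, δ, fun σ h => (mem_filter.1 h).2, ?_, fun y y' => ?_⟩
  · rw [sum_filter_of_ne fun σ _ h => lt_of_le_of_ne (d0 σ) h.symm, key]; simp
  · rw [sum_filter_of_ne fun σ _ h => lt_of_le_of_ne (d0 σ) (fun h' => h (by simp [← h']))]
    have : ∑ σ : B → Bool, (if σ y = σ y' then 0 else δ σ) =
        ∑ σ ∈ univ.filter (fun σ : B → Bool => ¬ σ y = σ y'), δ σ := by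
      rw [sum_filter]; exact sum_congr rfl fun σ _ => by split_ifs <;> rfl
    rw [this, key]
    congr 1
    ext t
    simp [F, Set.mem_symmDiff]
    tauto

section mag
variable [DecidableEq B]

omit [DecidableEq B] in
lemma quad_eq (Z : Matrix B B ℝ) (w : B → ℝ) :
    w ⬝ᵥ Z.mulVec w = ∑ y, ∑ y', w y * w y' * Z y y' := by
  simp only [dotProduct, Matrix.mulVec, mul_sum]
  exact sum_congr rfl fun y _ => sum_congr rfl fun y' _ => by ring

lemma mag_weight (Z : Matrix B B ℝ) (hZ : IsUnit Z.det) (w : B → ℝ)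
    (hw : Z.mulVec w = fun _ => 1) : ∑ a, ∑ b, Z⁻¹ a b = ∑ a, w a := by
  have : w = Z⁻¹.mulVec fun _ => 1 := by
    rw [← hw, Matrix.mulVec_mulVec, Matrix.nonsing_inv_mul _ hZ, Matrix.one_mulVec]
  rw [this]
  simp [Matrix.mulVec, dotProduct]

lemma mag_le (Z : Matrix B B ℝ) (hZ : IsUnit Z.det) (C : ℝ) (hC : 0 ≤ C)
    (h : ∀ w : B → ℝ, (∑ a, w a) ^ 2 ≤ C * ∑ y, ∑ y', w y * w y' * Z y y') :
    ∑ a, ∑ b, Z⁻¹ a b ≤ C := by
  have hw : Z.mulVec (Z⁻¹.mulVec fun _ => 1) = fun _ => 1 := by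
    rw [Matrix.mulVec_mulVec, Matrix.mul_nonsing_inv _ hZ, Matrix.one_mulVec]
  rw [mag_weight Z hZ _ hw]
  have h1 := h (Z⁻¹.mulVec fun _ => 1)
  rw [← quad_eq, hw] at h1
  simp only [dotProduct, mul_one] at h1
  by_contra hn
  push Not at hn
  nlinarith

end mag

end Pool.Agent.Lib.helper15.Cut
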