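import Mathlib

open Metric Real Filter Topology

namespace Pool.Agent.Lib.helper15.Fac

structure Dom (F : ℂ → ℂ) (α c σ : ℝ) : Prop where
  a0 : 0 < α
  c0 : 0 < c
  s0 : 1 ≤ σ
  cont : Continuous F
  dom : ∀ z : ℂ, σ ≤ z.re → ‖F z - c * Complex.exp (-α * z)‖ ≤ c * exp (-α * z.re) / 2
  der : ∀ z : ℂ, σ ≤ z.re → ∃ d ≠ 0, HasDerivAt F d z

variable {F : ℂ → ℂ} {α c σ : ℝ}

lemma Dom.bd (h : Dom F α c σ) {z : ℂ} (hz : σ ≤ z.re) :
    c * exp (-α * z.re) / 2 ≤ ‖F z‖ ∧ ‖F z‖ ≤ 2 * (c * exp (-α * z.re)) := by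
  have h1 := h.dom z hz
  have h2 : ‖c * Complex.exp (-α * z)‖ = c * exp (-α * z.re) := by
    rw [norm_mul, Complex.norm_exp, Complex.norm_real, norm_of_nonneg h.c0.le]; simp
  have h3 := abs_le.1 (abs_norm_sub_norm_le (F z) (c * Complex.exp (-α * z)))
  have h4 : 0 < c * exp (-α * z.re) := mul_pos h.c0 (exp_pos _)
  constructor <;> linarith [h3.1, h3.2]

lemma Dom.small (h : Dom F α c σ) {η : ℝ} (hη : 0 < η) :
    ∀ᶠ x : ℝ in atTop, c * exp (-α * x) ≤ η := by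
  have : Tendsto (fun x : ℝ => c * exp (-α * x)) atTop (𝓝 (c * 0)) :=
    (tendsto_exp_atBot.comp (tendsto_id.const_mul_atTop_of_neg (by linarith [h.a0]))).const_mul c
  exact this.eventually (ge_mem_nhds (by simpa using hη))

lemma Dom.mono (h : Dom F α c σ) {x y : ℝ} (hxy : x ≤ y) :
    c * exp (-α * y) ≤ c * exp (-α * x) :=
  mul_le_mul_of_nonneg_left (exp_le_exp.2 (by nlinarith [h.a0])) h.c0.le

lemma rect (h : Dom F α c σ) {K K2 : ℂ → ℂ} {M e : ℝ} (hM : 0 < M) (he : 0 < e)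
    (he2 : e ≤ c * exp (-α * σ) / 4)
    (hd : DifferentiableOn ℂ K {z | 0 < z.re}) (hb : ∀ z : ℂ, 0 < z.re → ‖K2 z‖ ≤ M)
    (hq : ∀ z : ℂ, 0 < z.re → K z * K2 z = F z + e) (h0 : ∀ z : ℂ, σ ≤ z.re → K z ≠ 0) :
    ∃ ν > 0, ∀ z : ℂ, σ ≤ z.re → ν ≤ ‖K z‖ := by
  refine ⟨e / 2 / M, by positivity, fun z hz => ?_⟩
  have hs := h.s0
  have ha := h.a0
  obtain ⟨X, hX1, hX2⟩ := ((h.small (show 0 < e / 4 by positivity)).and
    (eventually_gt_atTop z.re)).exists
  set k := ⌊z.im / (2 * π / α)⌋ with hk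
  have hp : 0 < 2 * π / α := by positivity
  have k1 : (k : ℝ) * (2 * π / α) ≤ z.im := (le_div_iff₀ hp).1 (Int.floor_le _)
  have k2 : z.im < ((k + 1 : ℤ) : ℝ) * (2 * π / α) := by
    push_cast; exact (div_lt_iff₀ hp).1 (Int.lt_floor_add_one _)
  have hlt : (k : ℝ) * (2 * π / α) < ((k + 1 : ℤ) : ℝ) * (2 * π / α) := k1.trans_lt k2
  have hσX : σ < X := hz.trans_lt hX2
  have low : ∀ w : ℂ, σ ≤ w.re → e / 2 ≤ ‖F w + e‖ → ‖(K w)⁻¹‖ ≤ (e / 2 / M)⁻¹ := fun w hw h1 => by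
    rw [norm_inv]
    refine inv_anti₀ (by positivity) ?_
    rw [← hq w (by linarith), norm_mul] at h1
    rw [div_le_iff₀ hM]
    exact h1.trans (mul_le_mul_of_nonneg_left (hb w (by linarith)) (norm_nonneg _))
  have hor : ∀ (w : ℂ) (j : ℤ), σ ≤ w.re → w.im = j * (2 * π / α) → e / 2 ≤ ‖F w + e‖ := by
    intro w j hw hj
    have e1 : Complex.exp (-α * w) = (exp (-α * w.re) : ℝ) := by
      have : -α * w = (-α * w.re : ℝ) + (-j : ℤ) * (2 * π * Complex.I) := by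
        have : (α : ℂ) ≠ 0 := by exact_mod_cast ha.ne'
        conv_lhs => rw [← Complex.re_add_im w, hj]
        push_cast; field_simp; ring
      rw [this, Complex.exp_add, Complex.exp_int_mul_two_pi_mul_I, mul_one, Complex.ofReal_exp]
    have h1 := h.dom w hw
    rw [e1, ← Complex.ofReal_mul] at h1
    have h2 := abs_le.1 ((Complex.abs_re_le_norm _).trans h1)
    have h3 := Complex.re_le_norm (F w + e)
    have h4 : 0 < c * exp (-α * w.re) := mul_pos h.c0 (exp_pos _)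
    rw [Complex.sub_re, Complex.ofReal_re] at h2
    rw [Complex.add_re, Complex.ofReal_re] at h3
    linarith [h2.1]
  have cl : closure (Set.Ioo σ X ×ℂ Set.Ioo ((k : ℝ) * (2 * π / α)) (((k + 1 : ℤ) : ℝ) *
      (2 * π / α))) = Set.Icc σ X ×ℂ Set.Icc ((k : ℝ) * (2 * π / α)) (((k + 1 : ℤ) : ℝ) *
      (2 * π / α)) := by
    rw [Complex.closure_reProdIm, closure_Ioo hσX.ne, closure_Ioo hlt.ne]
  have key := Complex.norm_le_of_forall_mem_frontier_norm_le (f := fun w => (K w)⁻¹)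
    (C := (e / 2 / M)⁻¹) (z := z)
    ((isBounded_Ioo σ X).reProdIm (isBounded_Ioo ((k : ℝ) * (2 * π / α)) (((k + 1 : ℤ) : ℝ) *
      (2 * π / α)))) (DifferentiableOn.diffContOnCl (by
        rw [cl]
        exact (hd.mono fun w hw => show 0 < w.re by linarith [hw.1.1]).inv fun w hw =>
          h0 w hw.1.1)) (fun w hw => ?_) (by rw [cl]; exact ⟨⟨hz, hX2.le⟩, k1, k2.le⟩)
  · rw [norm_inv] at key
    exact (inv_le_inv₀ (norm_pos_iff.2 (h0 z hz)) (by positivity)).1 key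
  rw [Complex.frontier_reProdIm, closure_Ioo hσX.ne, closure_Ioo hlt.ne, frontier_Ioo hσX,
    frontier_Ioo hlt] at hw
  have ne : ‖(e : ℂ)‖ = e := by simp [he.le]
  rcases hw with ⟨h1, h2 | h2⟩ | ⟨h1 | h1, -⟩
  · exact low w h1.1 (hor w _ h1.1 h2)
  · exact low w h1.1 (hor w _ h1.1 h2)
  · have h1 : w.re = σ := h1
    refine low w h1.ge ?_
    have := (h.bd h1.ge).1
    have h3 := norm_sub_le (F w + e) e
    rw [add_sub_cancel_right, ne] at h3
    rw [h1] at this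
    linarith
  · have h1 : w.re = X := h1
    refine low w (by linarith) ?_
    have := (h.bd (z := w) (by linarith)).2
    have h3 := norm_sub_le (F w + e) (F w)
    rw [add_sub_cancel_left, ne] at h3
    rw [h1] at this
    linarith

noncomputable def YY (θ : ℝ × ℝ) : ℂ := 2 * cos θ.1 + 2 * cos θ.2 * Complex.I

noncomputable def th (w : ℂ) : ℝ × ℝ := (arccos (w.re / 2), arccos (w.im / 2))

lemma YY_th {w : ℂ} (hw : ‖w‖ ≤ 2) : YY (th w) = w := by
  have h1 := abs_le.1 ((Complex.abs_re_le_norm w).trans hw)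
  have h2 := abs_le.1 ((Complex.abs_im_le_norm w).trans hw)
  simp only [YY, th]
  rw [cos_arccos (by linarith [h1.1]) (by linarith [h1.2]),
    cos_arccos (by linarith [h2.1]) (by linarith [h2.2])]
  apply Complex.ext <;> simp <;> ring

structure Fam (G : ℝ × ℝ → ℂ → ℂ) (M : ℝ) : Prop where
  cont : ContinuousOn (fun p : (ℝ × ℝ) × ℂ => G p.1 p.2) {p | 0 < p.2.re}
  diff : ∀ θ, DifferentiableOn ℂ (G θ) {z | 0 < z.re}
  bd : ∀ θ, ∀ z : ℂ, 0 < z.re → ‖G θ z‖ ≤ M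

theorem dich (h : Dom F α c σ) {G H : ℝ × ℝ → ℂ → ℂ} {M ε : ℝ} (hM : 0 < M) (hε : 0 < ε)
    (hε2 : ε ≤ c * exp (-α * σ) / 4) (hG : Fam G M) (hH : Fam H M)
    (hq : ∀ θ, ∀ z : ℂ, 0 < z.re → G θ z * H θ z = F z + ε * YY θ) :
    ∃ θ, (∃ ν > 0, ∀ z : ℂ, σ ≤ z.re → ν ≤ ‖G θ z‖) ∨
      ∃ ν > 0, ∀ z : ℂ, σ ≤ z.re → ν ≤ ‖H θ z‖ := by
  have hs := h.s0
  have hεc : (ε : ℂ) ≠ 0 := by exact_mod_cast hε.ne'
  obtain ⟨τ, t1, t2⟩ := ((h.small hε).and (eventually_ge_atTop σ)).exists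
  let D : Set ℂ := {z | τ < z.re}
  let Θ : ℂ → ℝ × ℝ := fun z => th (-F z / ε)
  have hΘ : Continuous Θ := by
    have := h.cont
    simp only [Θ, th]
    fun_prop
  have hD : ∀ z ∈ D, σ ≤ z.re := fun z hz => t2.trans (le_of_lt hz)
  have h1 : ∀ z ∈ D, F z + ε * YY (Θ z) = 0 := fun z hz => by
    rw [YY_th]
    · field_simp; ring
    · rw [norm_div, norm_neg, Complex.norm_real, norm_of_nonneg hε.le, div_le_iff₀ hε]
      linarith [(h.bd (hD z hz)).2, h.mono (le_of_lt hz)]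
  have hDo : IsOpen D := isOpen_lt continuous_const Complex.continuous_re
  have op : ∀ {K}, Fam K M → IsOpen (D ∩ (fun z => K (Θ z) z) ⁻¹' {0}ᶜ) := fun hK =>
    (hK.cont.comp (hΘ.prodMk continuous_id).continuousOn fun z hz =>
      show 0 < z.re by linarith [hD z hz]).isOpen_inter_preimage hDo isOpen_compl_singleton
  have key := (convex_halfSpace_re_gt τ).isPreconnected.subset_or_subset (op hG) (op hH)
    (Set.disjoint_left.2 fun z h2 h3 => mul_ne_zero h2.2 h3.2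
      ((hq _ z (by linarith [hD z h2.1])).trans (h1 z h2.1))) fun z hz => by
      by_contra hc
      have a1 : G (Θ z) z = 0 := by_contra fun h' => hc (Or.inl ⟨hz, h'⟩)
      have a2 : H (Θ z) z = 0 := by_contra fun h' => hc (Or.inr ⟨hz, h'⟩)
      have hn : {w : ℂ | 0 < w.re} ∈ 𝓝 z :=
        (isOpen_lt continuous_const Complex.continuous_re).mem_nhds
          (show 0 < z.re by linarith [hD z hz])
      obtain ⟨d, d0, hd⟩ := h.der z (hD z hz)
      have a3 := ((hG.diff (Θ z)).differentiableAt hn).hasDerivAt.mul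
        ((hH.diff (Θ z)).differentiableAt hn).hasDerivAt
      rw [a1, a2, mul_zero, zero_mul, add_zero] at a3
      refine d0 ((hd.add_const (ε * YY (Θ z))).unique (a3.congr_of_eventuallyEq ?_))
      filter_upwards [hn] with w hw using (hq _ w hw).symm
  set r := min 1 (c * exp (-α * τ) / 4 / ε) with hr
  have r0 : 0 < r := lt_min one_pos (by have := h.c0; positivity)
  have r1 : r ≤ 1 := min_le_left _ _
  have r2 : r * ε ≤ c * exp (-α * τ) / 4 := (le_div_iff₀ hε).1 (min_le_right _ _)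
  have r3 : YY (th r) = r := YY_th (by rw [Complex.norm_real, norm_of_nonneg r0.le]; linarith)
  have fin : ∀ {K K2}, Fam K M → Fam K2 M →
      (∀ θ, ∀ z : ℂ, 0 < z.re → K θ z * K2 θ z = F z + ε * YY θ) →
      D ⊆ D ∩ (fun z => K (Θ z) z) ⁻¹' {0}ᶜ →
      ∃ ν > 0, ∀ z : ℂ, σ ≤ z.re → ν ≤ ‖K (th r) z‖ := by
    intro K K2 hK hK2 hq hsub
    refine rect h (e := ε * r) hM (by positivity) (by nlinarith) (hK.diff _) (hK2.bd (th r))
      (fun z hz => by rw [hq _ z hz, r3]; simp) fun z hz h0 => ?_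
    have a1 := hq (th r) z (by linarith)
    rw [h0, zero_mul, r3] at a1
    have a2 : -F z / ε = r := by field_simp; linear_combination a1
    have a3 : ‖F z‖ = r * ε := by
      have := congrArg norm a2
      rwa [norm_div, norm_neg, Complex.norm_real, Complex.norm_real, norm_of_nonneg hε.le,
        norm_of_nonneg r0.le, div_eq_iff hε.ne'] at this
    have a4 : z ∈ D := by
      by_contra hc
      have := h.mono (not_lt.1 hc)
      have := (h.bd hz).1
      have := mul_pos h.c0 (exp_pos (-α * τ))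
      linarith
    refine (hsub a4).2 ?_
    simp only [Θ, a2]
    exact h0
  exact ⟨th r, key.imp (fin hG hH hq) (fin hH hG fun θ z hz => by rw [mul_comm, hq θ z hz])⟩

theorem propag {K : ℝ → ℂ → ℂ} {σ μ : ℝ} (hσ : 0 < σ) (hμ : 0 < μ)
    (hd : ∀ s, DifferentiableOn ℂ (K s) {z | 0 < z.re})
    (hc : ∀ s0, ∀ η > 0, ∀ᶠ s in 𝓝 s0, ∀ z : ℂ, 0 < z.re → ‖K s z - K s0 z‖ ≤ η)
    (hl : ∀ s, ∀ z : ℂ, z.re = σ → μ ≤ ‖K s z‖)
    (h0 : ∃ ν > 0, ∀ z : ℂ, σ ≤ z.re → ν ≤ ‖K 0 z‖) : ∀ z : ℂ, σ ≤ z.re → μ ≤ ‖K 1 z‖ := by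
  let A := {s | ∃ ν > 0, ∀ z : ℂ, σ ≤ z.re → ν ≤ ‖K s z‖}
  have pl : ∀ s ∈ A, ∀ z : ℂ, σ ≤ z.re → μ ≤ ‖K s z‖ := by
    rintro s ⟨ν, hν, h⟩ z hz
    have hb : ∀ w : ℂ, 0 ≤ w.re → ‖(K s (w + σ))⁻¹‖ ≤ ν⁻¹ := fun w hw => by
      rw [norm_inv]; exact inv_anti₀ hν (h _ (by simpa using hw))
    have := PhragmenLindelof.right_half_plane_of_bounded_on_real
      (f := fun w => (K s (w + σ))⁻¹) (C := μ⁻¹) (z := z - σ) (DifferentiableOn.diffContOnCl ?_)
      ⟨0, by norm_num, 0, ?_⟩ ?_ (fun x => ?_) (by simpa using hz)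
    · rw [sub_add_cancel, norm_inv] at this
      exact (inv_le_inv₀ (hν.trans_le (h z hz)) hμ).1 this
    · rw [Complex.closure_setOfPred_lt_re]
      refine ((hd s).comp (by fun_prop) fun w hw => ?_).inv fun w hw => ?_
      · have : 0 ≤ w.re := hw
        simp; linarith
      · exact norm_pos_iff.1 (hν.trans_le (h _ (by simpa using hw)))
    · refine Asymptotics.IsBigO.of_bound ν⁻¹ (eventually_inf_principal.2
        (Eventually.of_forall fun w hw => ?_))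
      simpa using hb w (le_of_lt hw)
    · exact ⟨ν⁻¹, eventually_map.2 ((eventually_ge_atTop 0).mono fun x hx =>
        hb x (by simpa using hx))⟩
    · rw [norm_inv]; exact inv_anti₀ hμ (hl s _ (by simp))
  have near : ∀ s0 s, (∀ z : ℂ, 0 < z.re → ‖K s z - K s0 z‖ ≤ μ / 2) → (s ∈ A ↔ s0 ∈ A) := by
    intro s0 s h
    constructor
    · intro h1
      refine ⟨μ / 2, half_pos hμ, fun z hz => ?_⟩
      linarith [pl s h1 z hz, h z (by linarith), norm_sub_norm_le (K s z) (K s0 z)]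
    · intro h1
      refine ⟨μ / 2, half_pos hμ, fun z hz => ?_⟩
      linarith [pl s0 h1 z hz, h z (by linarith), norm_sub_norm_le (K s0 z) (K s z),
        norm_sub_rev (K s0 z) (K s z)]
  have cl : IsClopen A := by
    refine ⟨isOpen_compl_iff.1 (isOpen_iff_mem_nhds.2 fun s0 h => ?_),
      isOpen_iff_mem_nhds.2 fun s0 h => ?_⟩
    · filter_upwards [hc s0 _ (half_pos hμ)] with s hs using fun h' => h ((near s0 s hs).1 h')
    · filter_upwards [hc s0 _ (half_pos hμ)] with s hs using (near s0 s hs).2 h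
  exact pl 1 (cl.eq_univ ⟨0, h0⟩ ▸ Set.mem_univ _)

end Pool.Agent.Lib.helper15.Fac
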