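import Mathlib

open Polynomial Metric Real

namespace Pool.Agent.Lib.helper15.Rat

open Classical in
noncomputable def Z (P : ℂ[X]) (r : ℝ) : ℕ := (P.roots.filter fun a => ‖a‖ < r).card

lemma int_ms {r : ℝ} (hr : 0 < r) (s : Multiset ℂ) (hs : ∀ a ∈ s, ‖a‖ ≠ r) :
    ContinuousOn (fun z => (s.map fun a => 1 / (z - a)).sum) (sphere 0 r) ∧
    (∮ z in C(0, r), (s.map fun a => 1 / (z - a)).sum) =
      2 * π * Complex.I * (s.filter fun a => ‖a‖ < r).card := by
  classical
  induction s using Multiset.induction_on with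
  | empty => simp [continuousOn_const, circleIntegral]
  | cons a s ih =>
    obtain ⟨h1, h2⟩ := ih fun b hb => hs b (Multiset.mem_cons_of_mem hb)
    have ha := hs a (Multiset.mem_cons_self _ _)
    have h3 : ContinuousOn (fun z => 1 / (z - a)) (sphere 0 r) :=
      continuousOn_const.div (by fun_prop) fun z hz h => ha (by
        rw [← sub_eq_zero.1 h]; simpa using hz)
    simp only [Multiset.map_cons, Multiset.sum_cons]
    refine ⟨h3.add h1, ?_⟩
    rw [circleIntegral.integral_add (h3.circleIntegrable hr.le) (h1.circleIntegrable hr.le), h2]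
    by_cases h : ‖a‖ < r
    · rw [Multiset.filter_cons_of_pos (p := fun a : ℂ => ‖a‖ < r) _ h, Multiset.card_cons]
      simp only [one_div]
      rw [circleIntegral.integral_sub_inv_of_mem_ball (by simpa using h)]
      push_cast; ring
    · rw [Multiset.filter_cons_of_neg (p := fun a : ℂ => ‖a‖ < r) _ h]
      have h4 : r < ‖a‖ := lt_of_le_of_ne (not_lt.1 h) ha.symm
      have h5 : DifferentiableOn ℂ (fun z => 1 / (z - a)) (closure (ball 0 r)) := by
        refine (differentiableOn_const _).div (by fun_prop) fun z hz h => ?_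
        have := closure_ball_subset_closedBall hz
        rw [sub_eq_zero.1 h] at this
        simp at this; linarith
      rw [DiffContOnCl.circleIntegral_eq_zero hr.le h5.diffContOnCl, zero_add]

lemma int_Z {r : ℝ} (hr : 0 < r) (P : ℂ[X]) (hP : ∀ z ∈ sphere (0 : ℂ) r, P.eval z ≠ 0) :
    (∮ z in C(0, r), P.derivative.eval z / P.eval z) = 2 * π * Complex.I * Z P r := by
  rw [Z, ← (int_ms hr P.roots fun a ha h => hP a (by simpa using h)
    (isRoot_of_mem_roots ha)).2]
  refine circleIntegral.integral_congr hr.le fun z hz => ?_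
  exact (IsAlgClosed.splits P).eval_derivative_div_eval_of_ne_zero (hP z hz)

lemma rouche {r : ℝ} (hr : 0 < r) {P Q : ℂ[X]}
    (h : ∀ z ∈ sphere (0 : ℂ) r, ‖Q.eval z - P.eval z‖ < ‖P.eval z‖) : Z Q r = Z P r := by
  have hP : ∀ z ∈ sphere (0 : ℂ) r, P.eval z ≠ 0 := fun z hz h0 => by
    have := h z hz
    rw [h0, norm_zero] at this
    exact absurd this (not_lt.2 (norm_nonneg _))
  have hQ : ∀ z ∈ sphere (0 : ℂ) r, Q.eval z ≠ 0 := fun z hz h0 => by
    have := h z hz
    simp [h0] at this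
  have c : ∀ S : ℂ[X], (∀ z ∈ sphere (0 : ℂ) r, S.eval z ≠ 0) →
      CircleIntegrable (fun z => S.derivative.eval z / S.eval z) 0 r := fun S hS =>
    ((S.derivative.continuous.continuousOn).div S.continuous.continuousOn hS).circleIntegrable hr.le
  have h1 : (∮ z in C(0, r), (Q.derivative.eval z / Q.eval z - P.derivative.eval z / P.eval z))
      = 0 := by
    refine circleIntegral.integral_eq_zero_of_hasDerivWithinAt
      (f := fun z => Complex.log (Q.eval z / P.eval z)) hr.le fun z hz => ?_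
    have h2 : Q.eval z / P.eval z ∈ Complex.slitPlane := by
      refine Complex.ball_one_subset_slitPlane ?_
      rw [mem_ball, dist_eq_norm, div_sub_one (hP z hz), norm_div,
        div_lt_one (norm_pos_iff.2 (hP z hz))]
      exact h z hz
    have h3 := ((Q.hasDerivAt z).div (P.hasDerivAt z) (hP z hz)).clog h2
    refine (h3.congr_deriv ?_).hasDerivWithinAt
    have := hP z hz
    have := hQ z hz
    simp only [Pi.div_apply]
    field_simp
  rw [circleIntegral.integral_sub (c Q hQ) (c P hP), int_Z hr Q hQ, int_Z hr P hP, ← mul_sub,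
    mul_eq_zero, sub_eq_zero] at h1
  exact_mod_cast h1.resolve_left Complex.two_pi_I_ne_zero

lemma Z_mul {P Q : ℂ[X]} (h : P * Q ≠ 0) (r : ℝ) : Z (P * Q) r = Z P r + Z Q r := by
  rw [Z, roots_mul h, Multiset.filter_add, Multiset.card_add]; rfl

lemma add_nat (w : ℝ → ℕ) (h : ∀ s ∈ Set.Icc (1 : ℝ) 2, ∀ t ∈ Set.Icc (1 : ℝ) 2,
    w (s + t) = w s + w t) : w 3 = 0 := by
  set K := w 1 + 1 with hK
  have hK0 : (0 : ℝ) < K := by positivity
  have hm : ∀ j : ℕ, j ≤ K → (1 + j / K : ℝ) ∈ Set.Icc (1 : ℝ) 2 := fun j hj => by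
    have : (j / K : ℝ) ≤ 1 := div_le_one_of_le₀ (by exact_mod_cast hj) hK0.le
    have : (0 : ℝ) ≤ j / K := by positivity
    constructor <;> linarith
  have h1 : (1 : ℝ) ∈ Set.Icc (1 : ℝ) 2 := by norm_num
  have h2 : (2 : ℝ) ∈ Set.Icc (1 : ℝ) 2 := by norm_num
  have hl : ∀ j : ℕ, j ≤ K → (w (1 + j / K) : ℤ) = w 1 + j * (w (1 + (1 : ℕ) / K) - w 1 : ℤ) := by
    intro j
    induction j with
    | zero => simp
    | succ j ih =>
      intro hj
      have a1 := h _ (hm _ hj) _ h1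
      have a2 := h _ (hm j (by omega)) _ (hm 1 (by omega))
      have e : (1 + (j + 1 : ℕ) / K + 1 : ℝ) = 1 + j / K + (1 + (1 : ℕ) / K) := by
        push_cast; ring
      rw [e, a2] at a1
      have a3 := ih (by omega)
      have a4 : (w (1 + j / K) + w (1 + (1 : ℕ) / K) : ℤ) = w (1 + (j + 1 : ℕ) / K) + w 1 := by
        exact_mod_cast a1
      rw [Nat.cast_succ (R := ℤ)]
      linarith
  have a1 := hl K le_rfl
  rw [div_self hK0.ne', h 1 h1 1 h1] at a1
  have a2 : (K : ℤ) ∣ w 1 := ⟨w (1 + (1 : ℕ) / K) - w 1, by push_cast at a1 ⊢; linarith⟩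
  have a3 : w 1 = 0 := Nat.eq_zero_of_dvd_of_lt (Int.natCast_dvd_natCast.1 a2) (by omega)
  have a4 := h 1 h1 1 h1
  have a5 := h 1 h1 2 h2
  norm_num at a4 a5
  omega

theorem zero_free {r M μ ε : ℝ} (hr : 0 < r) (p : ℝ → ℂ[X]) (hM : 0 < M)
    (h1 : ∀ z ∈ sphere (0 : ℂ) r, ∀ t ∈ Set.Icc (1 : ℝ) 2, ‖(p t).eval z‖ ≤ M)
    (h2 : ∀ z ∈ sphere (0 : ℂ) r, ∀ s ∈ Set.Icc (1 : ℝ) 2, ∀ t ∈ Set.Icc (1 : ℝ) 2,
      ‖(p (s + t)).eval z - (p s).eval z * (p t).eval z‖ ≤ ε)
    (h3 : ∀ z ∈ sphere (0 : ℂ) r, 2 * M * μ ≤ ‖(p 3).eval z‖) (hμ : 0 ≤ μ) (h4 : ε ≤ M * μ)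
    (h5 : ε < μ ^ 2) : ∀ a ∈ (p 3).roots, r ≤ ‖a‖ := by
  have hl : ∀ z ∈ sphere (0 : ℂ) r, ∀ s ∈ Set.Icc (1 : ℝ) 2, μ ≤ ‖(p s).eval z‖ := by
    intro z hz s hs
    have hs' : 3 - s ∈ Set.Icc (1 : ℝ) 2 := ⟨by linarith [hs.2], by linarith [hs.1]⟩
    have a1 := h2 z hz s hs _ hs'
    rw [add_sub_cancel] at a1
    have a2 := norm_le_norm_sub_add ((p 3).eval z) ((p s).eval z * (p (3 - s)).eval z)
    rw [norm_mul] at a2
    have a3 := mul_le_mul_of_nonneg_left (h1 z hz _ hs') (norm_nonneg ((p s).eval z))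
    have a4 := h3 z hz
    nlinarith
  have h0 := add_nat (fun t => Z (p t) r) fun s hs t ht => by
    have a1 : ∀ z ∈ sphere (0 : ℂ) r, ‖(p (s + t)).eval z - (p s * p t).eval z‖ <
        ‖(p s * p t).eval z‖ := fun z hz => by
      rw [eval_mul, norm_mul]
      have := mul_le_mul (hl z hz s hs) (hl z hz t ht) hμ (norm_nonneg _)
      have := h2 z hz s hs t ht
      nlinarith
    rw [rouche hr a1, Z_mul]
    intro h0
    have := a1 r (by simp [hr.le])
    rw [h0, eval_zero, norm_zero] at this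
    exact absurd this (not_lt.2 (norm_nonneg _))
  intro a ha
  simp only [Z, Multiset.card_eq_zero, Multiset.filter_eq_nil] at h0
  exact not_lt.1 (h0 a ha)

end Pool.Agent.Lib.helper15.Rat
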