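import Mathlib
import Pool.Agent.Lib.helper15.Fac1
import Pool.Agent.Lib.helper15.Rat1

open Metric Real Filter Topology Polynomial

namespace Pool.Agent.Lib.helper15.Fac

open Classical in
noncomputable def EE (r : ℝ) (z : ℂ) : ℂ := if r = 0 then 0 else Complex.exp (z * (log r : ℝ))

lemma EE_le {r : ℝ} (h : 0 ≤ r ∧ r ≤ 1) {z : ℂ} (hz : 0 ≤ z.re) : ‖EE r z‖ ≤ 1 := by
  unfold EE
  split_ifs
  · simp
  · rw [Complex.norm_exp, exp_le_one_iff]
    simpa using mul_nonpos_of_nonneg_of_nonpos hz (log_nonpos h.1 h.2)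

lemma EE_diff (r : ℝ) : Differentiable ℂ (EE r) := by
  unfold EE
  split_ifs <;> fun_prop

lemma EE_mul (r s : ℝ) (z : ℂ) : EE (r * s) z = EE r z * EE s z := by
  unfold EE
  by_cases hr : r = 0
  · simp [hr]
  by_cases hs : s = 0
  · simp [hs]
  rw [if_neg (mul_ne_zero hr hs), if_neg hr, if_neg hs, log_mul hr hs, ← Complex.exp_add]
  push_cast; ring_nf

lemma EE_lim {r : ℝ} (h : 0 ≤ r ∧ r ≤ 1) :
    Tendsto (fun x : ℝ => EE r x) atTop (𝓝 (if r = 1 then 1 else 0)) := by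
  unfold EE
  split_ifs with h0 h1 h1
  · simp [h0] at h1
  · simp
  · simp [h1]
  · have h2 : log r < 0 := log_neg (lt_of_le_of_ne h.1 (Ne.symm h0)) (lt_of_le_of_ne h.2 h1)
    have := (Complex.continuous_ofReal.tendsto 0).comp
      (tendsto_exp_atBot.comp (tendsto_id.atTop_mul_const_of_neg h2))
    simpa [Function.comp_def] using this

variable {ι : Type}

noncomputable def ch (r φ : ι → ℝ) (z : ℂ) (i : ι) : ℂ :=
  Complex.exp (φ i * Complex.I) * EE (r i) z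

noncomputable def LT (g : ι → ℂ) (r φ : ι → ℝ) (z : ℂ) : ℂ := ∑' i, g i * ch r φ z i

variable {g : ι → ℂ} {r : ι → ℝ}

lemma ch_le (hr : ∀ i, 0 ≤ r i ∧ r i ≤ 1) (φ : ι → ℝ) {z : ℂ} (hz : 0 ≤ z.re) (c : ℂ) (i : ι) :
    ‖c * ch r φ z i‖ ≤ ‖c‖ := by
  rw [ch, norm_mul, norm_mul, Complex.norm_exp_ofReal_mul_I, one_mul]
  exact mul_le_of_le_one_right (norm_nonneg _) (EE_le (hr i) hz)

lemma LT_diff (hg : Summable fun i => ‖g i‖) (hr : ∀ i, 0 ≤ r i ∧ r i ≤ 1) (φ : ι → ℝ) :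
    DifferentiableOn ℂ (LT g r φ) {z | 0 < z.re} :=
  Complex.differentiableOn_tsum_of_summable_norm hg (fun i => by
    have := EE_diff (r i)
    unfold ch
    fun_prop) (isOpen_lt continuous_const Complex.continuous_re)
    fun i w hw => ch_le hr φ (le_of_lt hw) _ i

lemma LT_le (hg : Summable fun i => ‖g i‖) (hr : ∀ i, 0 ≤ r i ∧ r i ≤ 1) (φ : ι → ℝ) {z : ℂ}
    (hz : 0 ≤ z.re) : ‖LT g r φ z‖ ≤ ∑' i, ‖g i‖ :=
  tsum_of_norm_bounded hg.hasSum fun i => ch_le hr φ hz _ i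

lemma LT_fam (hg : Summable fun i => ‖g i‖) (hr : ∀ i, 0 ≤ r i ∧ r i ≤ 1) {M : ℝ}
    (hM : ∑' i, ‖g i‖ ≤ M) (φ1 φ2 φ3 : ι → ℝ) :
    Fam (fun θ => LT g r fun i => θ.1 * φ1 i + θ.2 * φ2 i + φ3 i) M where
  cont := continuousOn_tsum (fun i => by
      have := (EE_diff (r i)).continuous
      unfold ch
      fun_prop) hg fun i p hp => ch_le hr _ (le_of_lt hp) _ i
  diff θ := LT_diff hg hr _
  bd θ z hz := (LT_le hg hr _ hz.le).trans hM

lemma LT_unif (hg : Summable fun i => ‖g i‖) (hr : ∀ i, 0 ≤ r i ∧ r i ≤ 1) (φ ψ : ι → ℝ) (s0 : ℝ)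
    (η : ℝ) (hη : 0 < η) : ∀ᶠ s in 𝓝 s0, ∀ z : ℂ, 0 < z.re →
      ‖LT g r (fun i => φ i + s * ψ i) z - LT g r (fun i => φ i + s0 * ψ i) z‖ ≤ η := by
  let d : ℝ → ι → ℝ := fun s i => ‖g i‖ * ‖Complex.exp ((φ i + s * ψ i : ℝ) * Complex.I) -
    Complex.exp ((φ i + s0 * ψ i : ℝ) * Complex.I)‖
  have hd : ∀ i s, ‖d s i‖ ≤ 2 * ‖g i‖ := fun i s => by
    rw [norm_of_nonneg (by positivity), mul_comm 2]
    refine mul_le_mul_of_nonneg_left ((norm_sub_le _ _).trans ?_) (norm_nonneg _)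
    rw [Complex.norm_exp_ofReal_mul_I, Complex.norm_exp_ofReal_mul_I]; norm_num
  have hc : Continuous fun s => ∑' i, d s i :=
    continuous_tsum (fun i => by simp only [d]; fun_prop) (hg.mul_left 2) hd
  have h0 : ∑' i, d s0 i = 0 := by simp [d]
  filter_upwards [(hc.tendsto s0).eventually (ge_mem_nhds (h0 ▸ hη))] with s hs z hz
  refine le_trans ?_ hs
  rw [LT, LT, ← Summable.tsum_sub (.of_norm_bounded hg fun i => ch_le hr _ hz.le _ i)
    (.of_norm_bounded hg fun i => ch_le hr _ hz.le _ i)]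
  refine tsum_of_norm_bounded (Summable.of_norm_bounded (hg.mul_left 2) fun i => hd i s).hasSum
    fun i => ?_
  rw [← mul_sub, ch, ch, ← sub_mul, norm_mul, norm_mul]
  exact mul_le_mul_of_nonneg_left (mul_le_of_le_one_right (norm_nonneg _) (EE_le (hr i) hz.le))
    (norm_nonneg _)

open Classical in
noncomputable def tl (g : ι → ℂ) (T : Finset ι) : ℝ := ∑' i, if i ∈ T then 0 else ‖g i‖

lemma tl_summ (hg : Summable fun i => ‖g i‖) (T : Finset ι) [DecidablePred (· ∈ T)] :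
    Summable fun i => if i ∈ T then 0 else ‖g i‖ :=
  hg.of_nonneg_of_le (fun i => by split_ifs <;> simp) fun i => by split_ifs <;> simp

lemma tl_eq (hg : Summable fun i => ‖g i‖) (T : Finset ι) :
    tl g T = ∑' i, ‖g i‖ - ∑ i ∈ T, ‖g i‖ := by
  classical
  rw [← hg.sum_add_tsum_compl (s := T), add_sub_cancel_left, tsum_subtype (f := fun i => ‖g i‖)]
  exact tsum_congr fun i => by by_cases h : i ∈ T <;> simp [h]

lemma tl_lim (hg : Summable fun i => ‖g i‖) : Tendsto (tl g) atTop (𝓝 0) := by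
  rw [funext (tl_eq hg), ← sub_self (∑' i, ‖g i‖)]
  exact tendsto_const_nhds.sub hg.hasSum

lemma LT_tl (hg : Summable fun i => ‖g i‖) (hr : ∀ i, 0 ≤ r i ∧ r i ≤ 1) (φ : ι → ℝ) {z : ℂ}
    (hz : 0 ≤ z.re) (T : Finset ι) : ‖LT g r φ z - ∑ i ∈ T, g i * ch r φ z i‖ ≤ tl g T := by
  classical
  have h1 : Summable fun i => g i * ch r φ z i := .of_norm_bounded hg fun i => ch_le hr _ hz _ i
  rw [LT, ← h1.sum_add_tsum_compl (s := T), add_sub_cancel_left,
    tsum_subtype (f := fun i => g i * ch r φ z i)]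
  refine tsum_of_norm_bounded (tl_summ hg T).hasSum fun i => ?_
  by_cases h : i ∈ T
  · simp [h]
  · simpa [h] using ch_le hr _ hz (g i) i

open Pool.Agent.Lib.helper15.Rat

lemma Z_X (n : ℕ) : Z (X ^ n) 1 = n := by
  simp [Z, roots_X_pow, Multiset.filter_nsmul, Multiset.filter_singleton]

theorem wind (hg : Summable fun i => ‖g i‖) (hr : ∀ i, 0 ≤ r i ∧ r i ≤ 1) (T : Finset ι)
    {δ μ : ℝ} (hδ : 0 < δ) (hμ : 0 < μ) (hT : tl g T ≤ δ)
    (h : ∀ S : Finset ι, ∃ ψ : ι → ℚ, (∀ i ∈ T, ψ i = 0) ∧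
      (∀ i ∈ S, g i ≠ 0 → r i = 1 → 0 < ψ i) ∧
      (∀ t x : ℝ, 1 ≤ x → μ ≤ ‖LT g r (fun i => t * ψ i) x‖) ∧
      ∀ t : ℝ, 4 * δ ≤ ‖LT g r (fun i => t * ψ i) (1 : ℝ)‖) : False := by
  classical
  obtain ⟨S, hS1, hS2⟩ := (((tl_lim hg).eventually (ge_mem_nhds (lt_min (show 0 < μ / 4 by
    positivity) hδ))).and (eventually_ge_atTop T)).exists
  obtain ⟨ψ, p1, p2, p3, p4⟩ := h S
  set D : ℕ := ∏ i ∈ S, (ψ i).den with hD
  have hD0 : 0 < D := Finset.prod_pos fun i _ => (ψ i).den_pos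
  have hn : ∀ i, ∃ n : ℤ, i ∈ S → ψ i * D = n := fun i => by
    by_cases hi : i ∈ S
    · obtain ⟨c, hc⟩ := Finset.dvd_prod_of_mem (fun i => (ψ i).den) hi
      exact ⟨(ψ i).num * c, fun _ => by
        rw [hD, hc, Nat.cast_mul, ← mul_assoc, Rat.mul_den_eq_num]; simp⟩
    · exact ⟨0, fun h => absurd h hi⟩
  choose n hn using hn
  set N : ℕ := ∑ i ∈ S, (n i).natAbs with hN
  have he : ∀ i, ∃ e : ℕ, i ∈ S → (e : ℤ) = N + n i := fun i => ⟨(N + n i).toNat, fun hi => by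
    have : (n i).natAbs ≤ N := Finset.single_le_sum (f := fun i => (n i).natAbs)
      (fun _ _ => Nat.zero_le _) hi
    omega⟩
  choose e he using he
  let P : (ι → ℂ) → ℂ[X] := fun c => ∑ i ∈ S, monomial (e i) (g i * c i)
  have dif : ∀ c c' : ι → ℂ, ∀ ξ ∈ sphere (0 : ℂ) 1,
      ‖(P c).eval ξ - (P c').eval ξ‖ ≤ ∑ i ∈ S, ‖g i‖ * ‖c i - c' i‖ := fun c c' ξ hξ => by
    simp only [P, eval_finsetSum, eval_monomial, ← Finset.sum_sub_distrib]
    refine norm_sum_le_of_le _ fun i _ => ?_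
    rw [← sub_mul, ← mul_sub, norm_mul, norm_mul, norm_pow, mem_sphere_zero_iff_norm.1 hξ, one_pow,
      mul_one]
  have low : ∀ ξ ∈ sphere (0 : ℂ) 1, ∀ x : ℝ, 1 ≤ x → ∃ t : ℝ,
      ‖LT g r (fun i => t * ψ i) x‖ - min (μ / 4) δ ≤ ‖(P fun i => EE (r i) x).eval ξ‖ := by
    intro ξ hξ x hx
    have h1 := mem_sphere_zero_iff_norm.1 hξ
    have h2 : Complex.exp (ξ.arg * Complex.I) = ξ := by
      simpa [h1] using Complex.norm_mul_exp_arg_mul_I ξ
    have h3 : (P fun i => EE (r i) x).eval ξ =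
        ξ ^ N * ∑ i ∈ S, g i * ch r (fun i => D * ξ.arg * ψ i) x i := by
      simp only [P, eval_finsetSum, eval_monomial, Finset.mul_sum]
      refine Finset.sum_congr rfl fun i hi => ?_
      have h4 : ((ψ i : ℝ) : ℂ) * D = n i := by exact_mod_cast hn i hi
      have h5 : (e i : ℂ) = N + n i := by exact_mod_cast he i hi
      have h6 : ξ ^ e i = ξ ^ N * Complex.exp ((D * ξ.arg * ψ i : ℝ) * Complex.I) := by
        conv_lhs => rw [← h2]
        conv_rhs => enter [1]; rw [← h2]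
        rw [← Complex.exp_nat_mul, ← Complex.exp_nat_mul, ← Complex.exp_add, h5, ← h4]
        push_cast; ring_nf
      rw [h6, ch]; ring
    refine ⟨D * ξ.arg, ?_⟩
    have h4 := LT_tl hg hr (fun i => D * ξ.arg * ψ i) (z := x) (by simp; linarith) S
    rw [h3, norm_mul, norm_pow, h1, one_pow, one_mul]
    linarith [norm_sub_norm_le (LT g r (fun i => D * ξ.arg * ψ i) x)
      (∑ i ∈ S, g i * ch r (fun i => D * ξ.arg * ψ i) x i)]
  have low2 : ∀ ξ ∈ sphere (0 : ℂ) 1, ∀ x : ℝ, 1 ≤ x →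
      μ / 2 < ‖(P fun i => EE (r i) x).eval ξ‖ := fun ξ hξ x hx => by
    obtain ⟨t, ht⟩ := low ξ hξ x hx
    linarith [p3 t x hx, min_le_left (μ / 4) δ]
  have cst : ∀ x : ℝ, 1 ≤ x → Z (P fun i => EE (r i) x) 1 = Z (P fun i => EE (r i) (1 : ℝ)) 1 := by
    intro x hx
    refine isPreconnected_Ici.constant (f := fun x : ℝ => Z (P fun i => EE (r i) x) 1)
      (fun x0 hx0 => ?_) hx (Set.mem_Ici.2 le_rfl)
    refine (tendsto_const_nhds.congr' ?_).mono_left nhdsWithin_le_nhds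
    have hc : Continuous fun x : ℝ => ∑ i ∈ S, ‖g i‖ * ‖EE (r i) x - EE (r i) x0‖ :=
      continuous_finsetSum _ fun i _ => by
        have := (EE_diff (r i)).continuous
        fun_prop
    filter_upwards [(hc.tendsto x0).eventually (ge_mem_nhds (show _ < μ / 2 by simpa using hμ))]
      with y hy
    exact (rouche one_pos fun ξ hξ => ((dif _ _ ξ hξ).trans hy).trans_lt (low2 ξ hξ x0 hx0)).symm
  have z1 : Z (P fun i => EE (r i) (1 : ℝ)) 1 = N := by
    have e1 : (P fun i => if i ∈ T then EE (r i) (1 : ℝ) else 0) =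
        X ^ N * C (∑ i ∈ S, g i * if i ∈ T then EE (r i) (1 : ℝ) else 0) := by
      simp only [P, map_sum, Finset.mul_sum]
      refine Finset.sum_congr rfl fun i hi => ?_
      by_cases hT : i ∈ T
      · have h1 := hn i hi
        rw [p1 i hT, zero_mul] at h1
        have h2 : n i = 0 := by exact_mod_cast h1.symm
        have h3 : e i = N := by have := he i hi; omega
        rw [h3, X_pow_mul_C, C_mul_X_pow_eq_monomial]
      · simp [hT]
    have a1 : ∀ ξ ∈ sphere (0 : ℂ) 1, ‖(P fun i => if i ∈ T then EE (r i) (1 : ℝ) else 0).eval ξ -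
        (P fun i => EE (r i) (1 : ℝ)).eval ξ‖ < ‖(P fun i => EE (r i) (1 : ℝ)).eval ξ‖ := by
      intro ξ hξ
      obtain ⟨t, ht⟩ := low ξ hξ 1 le_rfl
      have a2 : ∑ i ∈ S, ‖g i‖ * ‖(if i ∈ T then EE (r i) (1 : ℝ) else 0) - EE (r i) (1 : ℝ)‖ ≤
          tl g T := by
        refine le_trans (Finset.sum_le_sum fun i _ => ?_)
          ((tl_summ hg T).sum_le_tsum S fun i _ => by split_ifs <;> simp)
        split_ifs
        · simp
        · rw [zero_sub, norm_neg]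
          exact mul_le_of_le_one_right (norm_nonneg _) (EE_le (hr i) (by simp))
      linarith [dif (fun i => if i ∈ T then EE (r i) (1 : ℝ) else 0) (fun i => EE (r i) (1 : ℝ))
        ξ hξ, p4 t, min_le_right (μ / 4) δ]
    rw [← rouche one_pos a1, e1, Z_mul, Z_X]
    · rw [Z, roots_C]; simp
    · rw [← e1]
      intro h0
      have := a1 1 (by simp)
      rw [h0, eval_zero, zero_sub, norm_neg] at this
      exact lt_irrefl _ this
  have hl : Tendsto (fun x : ℝ => ∑ i ∈ S, ‖g i‖ * ‖(if r i = 1 then 1 else 0) - EE (r i) x‖) atTop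
      (𝓝 (∑ i ∈ S, ‖g i‖ * ‖(if r i = 1 then (1 : ℂ) else 0) - if r i = 1 then 1 else 0‖)) :=
    tendsto_finsetSum _ fun i _ => (tendsto_const_nhds.sub (EE_lim (hr i))).norm.const_mul _
  obtain ⟨x, x1, x2⟩ := ((hl.eventually (ge_mem_nhds (show _ < μ / 2 by simpa using hμ))).and
    (eventually_ge_atTop 1)).exists
  have a1 : ∀ ξ ∈ sphere (0 : ℂ) 1, _ := fun ξ hξ =>
    ((dif (fun i => if r i = 1 then 1 else 0) _ ξ hξ).trans x1).trans_lt (low2 ξ hξ x x2)
  have a2 := rouche one_pos a1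
  obtain ⟨Q, hQ⟩ : X ^ (N + 1) ∣ P fun i => if r i = 1 then 1 else 0 := by
    refine Finset.dvd_sum fun i hi => ?_
    by_cases h1 : g i = 0
    · simp [h1]
    by_cases h2 : r i = 1
    · have h3 : (0 : ℚ) < n i := hn i hi ▸ mul_pos (p2 i hi h1 h2) (by exact_mod_cast hD0)
      have h4 : 0 < n i := by exact_mod_cast h3
      rw [← C_mul_X_pow_eq_monomial]
      exact (pow_dvd_pow _ (by have := he i hi; omega)).mul_left _
    · simp [h2]
  rw [cst x x2, z1, hQ, Z_mul, Z_X] at a2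
  · omega
  · rw [← hQ]
    intro h0
    have := a1 1 (by simp)
    simp [h0] at this

end Pool.Agent.Lib.helper15.Fac
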