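import Mathlib
import Pool.Agent.Lib.helper15.Fac2

open Metric Real Filter Topology

namespace Pool.Agent.Lib.helper15.Fac

noncomputable abbrev U : Filter ℕ := (hyperfilter ℕ : Ultrafilter ℕ)

def N0 : Submodule ℚ (ℕ → ℚ) where
  carrier := {u | ∀ᶠ N in U, u N = 0}
  add_mem' ha hb := by filter_upwards [ha, hb] with N h1 h2 using by simp [h1, h2]
  zero_mem' := Eventually.of_forall fun _ => rfl
  smul_mem' c u hu := by filter_upwards [hu] with N h using by simp [h]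

noncomputable def Gm : Submodule ℚ (ℕ → ℚ) := N0.exists_isCompl.choose

lemma hGm : IsCompl Gm N0 := N0.exists_isCompl.choose_spec.symm

noncomputable def pi : (ℕ → ℚ) →ₗ[ℚ] Gm := Gm.projectionOnto N0 hGm

lemma pi_ev (u : ℕ → ℚ) : ∀ᶠ N in U, (pi u).1 N = u N := by
  filter_upwards [Submodule.sub_projection_mem hGm u] with N h using (sub_eq_zero.1 h).symm

lemma eq_of_ev {β γ : Gm} (h : ∀ᶠ N in U, β.1 N = γ.1 N) : β = γ := by
  have h1 : β.1 - γ.1 ∈ N0 := by filter_upwards [h] with N h using sub_eq_zero.2 h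
  exact Subtype.ext (sub_eq_zero.1 (Submodule.disjoint_def.1 hGm.disjoint _ (β - γ).2 h1))

lemma iff_ev (γ : Gm) (p : ℕ → ℚ) : ∀ᶠ N in U, (γ.1 N = p N ↔ γ = pi p) := by
  by_cases h : γ = pi p
  · filter_upwards [pi_ev p] with N hN using by simp [h, hN]
  · have : ∀ᶠ N in U, ¬ γ.1 N = (pi p).1 N := Ultrafilter.eventually_not.2 fun h' => h (eq_of_ev h')
    filter_upwards [pi_ev p, this] with N h1 h2 using by simp [h, ← h1, h2]

lemma inj_ev (T : Finset Gm) : ∀ᶠ N in U, Set.InjOn (fun γ : Gm => γ.1 N) T := by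
  have : ∀ᶠ N in U, ∀ β ∈ T, ∀ γ ∈ T, β.1 N = γ.1 N → β = γ := by
    simp only [eventually_all_finset]
    intro β _ γ _
    by_cases h : β = γ
    · exact Eventually.of_forall fun _ _ => h
    · exact (Ultrafilter.eventually_not.2 fun h' => h (eq_of_ev h')).mono fun N h1 h2 => absurd h2 h1
  exact this.mono fun N h β hβ γ hγ => h β hβ γ hγ

lemma ul_lim {E : Type} [NormedAddCommGroup E] [ProperSpace E] {u : ℕ → E} {C : ℝ}
    (h : ∀ N, ‖u N‖ ≤ C) : Tendsto u U (𝓝 (limUnder U u)) := by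
  obtain ⟨x, -, hx⟩ := (isCompact_closedBall (0 : E) C).ultrafilter_le_nhds' ((hyperfilter ℕ).map u)
    (Eventually.of_forall (f := U) fun N => mem_closedBall_zero_iff.2 (h N))
  exact tendsto_nhds_limUnder ⟨x, hx⟩

noncomputable def hat (g : ℕ → ℚ → ℂ) (γ : Gm) : ℂ := limUnder U fun N => g N (γ.1 N)

structure Bd (g : ℕ → ℚ → ℂ) (M : ℝ) : Prop where
  s : ∀ N, Summable fun q => ‖g N q‖
  b : ∀ N, ∑' q, ‖g N q‖ ≤ M

variable {f g h : ℕ → ℚ → ℂ} {M : ℝ}

lemma Bd.lim (hg : Bd g M) (γ : Gm) : Tendsto (fun N => g N (γ.1 N)) U (𝓝 (hat g γ)) :=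
  ul_lim fun N => ((hg.s N).le_tsum _ fun _ _ => norm_nonneg _).trans (hg.b N)

lemma Bd.sum_le (hg : Bd g M) (T : Finset Gm) : ∑ γ ∈ T, ‖hat g γ‖ ≤ M := by
  refine le_of_tendsto (tendsto_finsetSum T fun γ _ => (hg.lim γ).norm) ?_
  filter_upwards [inj_ev T] with N hN
  rw [← Finset.sum_image (f := fun q => ‖g N q‖) hN]
  exact ((hg.s N).sum_le_tsum _ fun _ _ => norm_nonneg _).trans (hg.b N)

lemma Bd.summ (hg : Bd g M) : Summable fun γ => ‖hat g γ‖ :=
  summable_of_sum_le (fun _ => norm_nonneg _) hg.sum_le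

lemma Bd.tsum_le (hg : Bd g M) : ∑' γ, ‖hat g γ‖ ≤ M := hg.summ.tsum_le_of_sum_le hg.sum_le

lemma big {k : ℚ → ℂ} (hs : Summable fun q => ‖k q‖) (hb : ∑' q, ‖k q‖ ≤ M) {η : ℝ} (hη : 0 < η) :
    ∃ q : ℕ → ℚ, ∀ x, η < ‖k x‖ → ∃ i < ⌈M / η⌉₊, q i = x := by
  have h1 : {x | η < ‖k x‖}.Finite := by
    have := hs.tendsto_cofinite_zero.eventually (ge_mem_nhds hη)
    simpa [eventually_cofinite] using this
  have h2 : (h1.toFinset.card : ℝ) * η ≤ M := by
    have := Finset.card_nsmul_le_sum h1.toFinset (fun x => ‖k x‖) η fun x hx =>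
      le_of_lt (by simpa using hx)
    rw [nsmul_eq_mul] at this
    exact this.trans ((hs.sum_le_tsum _ fun _ _ => norm_nonneg _).trans hb)
  have h3 : h1.toFinset.card ≤ ⌈M / η⌉₊ := by
    exact_mod_cast ((le_div_iff₀ hη).2 h2).trans (Nat.le_ceil _)
  refine ⟨fun i => h1.toFinset.toList.getD i 0, fun x hx => ?_⟩
  obtain ⟨i, hi, h4⟩ := List.mem_iff_getElem.1 (Finset.mem_toList.2 (h1.mem_toFinset.2 hx))
  exact ⟨i, by rw [Finset.length_toList] at hi; omega, by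
    simp only [List.getD_eq_getElem _ _ hi, h4]⟩

lemma hat_conv {fh : Gm → ℂ} (hf : ∀ γ : Gm, Tendsto (fun N => f N (γ.1 N)) U (𝓝 (fh γ))) (hg : Bd g M) (hh : Bd h M) (hM : 0 < M)
    (e : ∀ N q, f N q = ∑' r, g N r * h N (q - r)) (γ : Gm) :
    HasSum (fun β => hat g β * hat h (γ - β)) (fh γ) := by
  classical
  refine Metric.tendsto_nhds.2 fun ε hε => ?_
  have hη : 0 < ε / 2 / M := by positivity
  choose q hq using fun N => big (hg.s N) (hg.b N) hη
  filter_upwards [eventually_ge_atTop ((Finset.range ⌈M / (ε / 2 / M)⌉₊).image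
    fun i => pi fun N => q N i)] with T hT
  rw [dist_comm, dist_eq_norm]
  refine lt_of_le_of_lt (le_of_tendsto ((hf γ).sub (tendsto_finsetSum T fun β _ =>
    (hg.lim β).mul (hh.lim (γ - β)))).norm ?_) (half_lt_self hε)
  filter_upwards [inj_ev T, (eventually_all_finset (Finset.range ⌈M / (ε / 2 / M)⌉₊)).2
    fun i _ => pi_ev fun N => q N i] with N h1 h2
  have h3 : HasSum (fun r => ‖h N (γ.1 N - r)‖) (∑' x, ‖h N x‖) :=
    (Equiv.subLeft (γ.1 N)).hasSum_iff.2 (hh.s N).hasSum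
  have h4 : Summable fun r => g N r * h N (γ.1 N - r) := by
    refine .of_norm_bounded (h3.summable.mul_left M) fun r => ?_
    rw [norm_mul]
    exact mul_le_mul_of_nonneg_right (((hg.s N).le_tsum _ fun _ _ => norm_nonneg _).trans (hg.b N))
      (norm_nonneg _)
  have h5 : ∑ β ∈ T, g N (β.1 N) * h N ((γ - β).1 N) =
      ∑ r ∈ T.image fun β => β.1 N, g N r * h N (γ.1 N - r) := by
    rw [Finset.sum_image h1]; rfl
  rw [e, h5, ← h4.sum_add_tsum_compl (s := T.image fun β => β.1 N), add_sub_cancel_left,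
    tsum_subtype (f := fun r => g N r * h N (γ.1 N - r))]
  refine (tsum_of_norm_bounded (h3.mul_left (ε / 2 / M)) fun r => ?_).trans ?_
  · by_cases hr : r ∈ T.image fun β => β.1 N
    · rw [Set.indicator_of_notMem (by simpa using hr), norm_zero]; positivity
    · rw [Set.indicator_of_mem (by simpa using hr), norm_mul]
      refine mul_le_mul_of_nonneg_right (not_lt.1 fun hc => hr ?_) (norm_nonneg _)
      obtain ⟨i, hi, rfl⟩ := hq N r hc
      exact Finset.mem_image.2 ⟨_, hT (Finset.mem_image_of_mem _ (Finset.mem_range.2 hi)),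
        h2 i (Finset.mem_range.2 hi)⟩
  · rw [div_mul_eq_mul_div, div_le_iff₀ hM]
    exact mul_le_mul_of_nonneg_left (hh.b N) (by positivity)

lemma conv_mul {Γ : Type} [AddCommGroup Γ] {f g h χ : Γ → ℂ} (hg : Summable fun i => ‖g i * χ i‖)
    (hh : Summable fun i => ‖h i * χ i‖) (e : ∀ γ, HasSum (fun β => g β * h (γ - β)) (f γ))
    (hχ : ∀ β γ, g β ≠ 0 → h γ ≠ 0 → χ (β + γ) = χ β * χ γ) :
    (∑' i, g i * χ i) * ∑' i, h i * χ i = ∑' i, f i * χ i := by
  let E : Γ × Γ ≃ Γ × Γ := (Equiv.prodComm _ _).trans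
    (Equiv.prodShear (Equiv.refl _) fun β => Equiv.subRight β)
  have h1 := summable_mul_of_summable_norm hg hh
  rw [tsum_mul_tsum_of_summable_norm hg hh, ← E.tsum_eq]
  refine (E.summable_iff.2 h1).tsum_prod.trans (tsum_congr fun γ => ?_)
  rw [← (e γ).tsum_eq, ← tsum_mul_right]
  refine tsum_congr fun β => ?_
  change g β * χ β * (h (γ - β) * χ (γ - β)) = _
  by_cases h1 : g β = 0
  · simp [h1]
  by_cases h2 : h (γ - β) = 0
  · simp [h2]
  have := hχ β _ h1 h2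
  rw [add_sub_cancel] at this
  rw [this]; ring

def Pos (γ : Gm) : Prop := ∀ᶠ N in U, 0 < γ.1 N

lemma Bd.pos (hg : Bd g M) (h0 : ∀ N q, q ≤ 0 → g N q = 0) {γ : Gm} (h : hat g γ ≠ 0) : Pos γ := by
  by_contra hc
  refine h (tendsto_nhds_unique (hg.lim γ) (tendsto_const_nhds.congr' ?_))
  filter_upwards [Ultrafilter.eventually_not.2 hc] with N hN using (h0 N _ (not_lt.1 hN)).symm

noncomputable def rr (γ : Gm) : ℝ := limUnder U fun N => exp (-max 0 (γ.1 N : ℝ))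

lemma rr_bd (x : ℝ) : 0 ≤ exp (-max 0 x) ∧ exp (-max 0 x) ≤ 1 :=
  ⟨(exp_pos _).le, exp_le_one_iff.2 (by simp)⟩

lemma rr_lim (γ : Gm) : Tendsto (fun N => exp (-max 0 (γ.1 N : ℝ))) U (𝓝 (rr γ)) :=
  ul_lim (C := 1) fun N => by rw [norm_of_nonneg (rr_bd _).1]; exact (rr_bd _).2

lemma rr_mem (γ : Gm) : 0 ≤ rr γ ∧ rr γ ≤ 1 :=
  ⟨ge_of_tendsto' (rr_lim γ) fun _ => (rr_bd _).1, le_of_tendsto' (rr_lim γ) fun _ => (rr_bd _).2⟩

lemma rr_add {β γ : Gm} (h1 : Pos β) (h2 : Pos γ) : rr (β + γ) = rr β * rr γ := by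
  refine tendsto_nhds_unique (rr_lim _) (((rr_lim β).mul (rr_lim γ)).congr' ?_)
  filter_upwards [h1, h2] with N a1 a2
  have b1 : (0 : ℝ) < β.1 N := by exact_mod_cast a1
  have b2 : (0 : ℝ) < γ.1 N := by exact_mod_cast a2
  have e : ((β + γ).1 N : ℝ) = β.1 N + γ.1 N := by simp
  rw [e, max_eq_right b1.le, max_eq_right b2.le, max_eq_right (by positivity), ← exp_add, neg_add]

lemma rr_pi {p : ℕ → ℚ} {a : ℝ} (ha : 0 ≤ a) (h : Tendsto (fun N => (p N : ℝ)) U (𝓝 a)) :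
    rr (pi p) = exp (-a) := by
  have := (continuous_exp.tendsto _).comp ((tendsto_const_nhds (x := (0 : ℝ))).max h).neg
  rw [max_eq_right ha] at this
  refine tendsto_nhds_unique (rr_lim _) (this.congr' ?_)
  filter_upwards [pi_ev p] with N hN using by simp [hN]

lemma LT_mul {fh : Gm → ℂ} (hf : ∀ γ : Gm, Tendsto (fun N => f N (γ.1 N)) U (𝓝 (fh γ))) (hg : Bd g M) (hh : Bd h M) (hM : 0 < M)
    (e : ∀ N q, f N q = ∑' r, g N r * h N (q - r)) (g0 : ∀ N q, q ≤ 0 → g N q = 0)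
    (h0 : ∀ N q, q ≤ 0 → h N q = 0) {φ : Gm → ℝ} (hφ : ∀ β γ, φ (β + γ) = φ β + φ γ) {z : ℂ}
    (hz : 0 ≤ z.re) : LT (hat g) rr φ z * LT (hat h) rr φ z = LT fh rr φ z := by
  refine conv_mul (hg.summ.of_nonneg_of_le (fun _ => norm_nonneg _) fun i => ch_le rr_mem φ hz _ i)
    (hh.summ.of_nonneg_of_le (fun _ => norm_nonneg _) fun i => ch_le rr_mem φ hz _ i)
    (hat_conv hf hg hh hM e) fun β γ h1 h2 => ?_
  simp only [ch]
  rw [rr_add (hg.pos g0 h1) (hh.pos h0 h2), EE_mul, hφ, Complex.ofReal_add, add_mul,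
    Complex.exp_add]
  ring

def V0 : Submodule ℚ Gm where
  carrier := {γ | Tendsto (fun N => (γ.1 N : ℝ)) U (𝓝 0)}
  add_mem' ha hb := by simpa using Tendsto.add ha hb
  zero_mem' := by simp
  smul_mem' c u hu := by simpa using Tendsto.const_mul (c : ℝ) hu

noncomputable def pp (j : ℕ) (N : ℕ) : ℚ := (1 / (N + 1)) ^ j

lemma pi_const (q : ℚ) : (pi fun _ => q) = q • pi (pp 0) := by
  rw [← map_smul]; congr 1; funext N; simp [pp]

lemma exists_psi (S : Finset Gm) : ∃ ψ : Gm →ₗ[ℚ] ℚ, ψ (pi (pp 0)) = 0 ∧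
    ∀ γ ∈ S, Pos γ → rr γ = 1 → 0 < ψ γ := by
  have h1 : pi (pp 0) ∉ V0 := fun h => by
    have h2 : Tendsto (fun N => ((pi (pp 0)).1 N : ℝ)) U (𝓝 1) := tendsto_const_nhds.congr' (by
      filter_upwards [pi_ev (pp 0)] with N hN using by simp [hN, pp])
    exact zero_ne_one (tendsto_nhds_unique h h2)
  obtain ⟨κ, k1, k2⟩ := LinearMap.exists_extend_of_notMem (0 : V0 →ₗ[ℚ] ℚ) h1 1
  obtain ⟨N, hN⟩ : ∃ N, ∀ γ ∈ S, Pos γ → 0 < γ.1 N := by
    refine ((eventually_all_finset S).2 fun γ _ => ?_).exists (f := U)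
    by_cases h : Pos γ
    · exact Eventually.mono h fun N h1 _ => h1
    · exact Eventually.of_forall fun _ h' => absurd h' h
  refine ⟨(LinearMap.proj N).comp Gm.subtype - (pi (pp 0)).1 N • κ, by simp [k2],
    fun γ hγ h2 h3 => ?_⟩
  have h4 : γ ∈ V0 := by
    have := ((continuousAt_log one_ne_zero).tendsto.comp (h3 ▸ rr_lim γ)).neg
    rw [log_one, neg_zero] at this
    refine this.congr' ?_
    filter_upwards [h2] with n hn
    have b1 : (0 : ℝ) < γ.1 n := by exact_mod_cast hn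
    simp [max_eq_right b1.le]
  have h5 : κ γ = 0 := LinearMap.congr_fun k1 ⟨γ, h4⟩
  simpa [h5] using hN γ hγ h2

lemma exists_rho : ∃ ρ : Gm →ₗ[ℚ] (Fin 5 → ℚ), ∀ i : Fin 5, ρ (pi (pp i)) = Pi.single i 1 := by
  obtain ⟨ρ, hρ⟩ := (Fintype.linearCombination ℚ fun i : Fin 5 =>
    pi (pp i)).exists_leftInverse_of_injective (LinearMap.ker_eq_bot'.2 fun c hc => by
      have h1 : pi (∑ i : Fin 5, c i • pp i) = 0 := by
        simpa [Fintype.linearCombination_apply] using hc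
      have h2 : ∀ᶠ N : ℕ in U, ∑ i : Fin 5, c i * (1 / ((N : ℚ) + 1)) ^ (i : ℕ) = 0 := by
        filter_upwards [pi_ev (∑ i : Fin 5, c i • pp i)] with N hN
        rw [h1] at hN
        simpa [pp] using hN.symm
      have h3 : (∑ i : Fin 5, Polynomial.monomial i (c i) : Polynomial ℚ) = 0 := by
        refine Polynomial.eq_zero_of_infinite_isRoot _ (Set.infinite_of_injOn_mapsTo
          (f := fun N : ℕ => 1 / ((N : ℚ) + 1)) (fun a _ b _ hab => by simpa using hab)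
          (fun N hN => ?_) fun hfin => hfin.notMem_hyperfilter h2)
        simpa [Polynomial.eval_finsetSum] using hN
      funext i
      have := congrArg (fun P => Polynomial.coeff P i) h3
      simpa [Polynomial.finsetSum_coeff, Polynomial.coeff_monomial, Fin.val_inj] using this)
  exact ⟨ρ, fun i => by simpa using LinearMap.congr_fun hρ (Pi.single i 1)⟩

end Pool.Agent.Lib.helper15.Fac
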