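import Mathlib
import Pool.Agent.Lib.helper15.Fac3

open Metric Real Filter Topology

namespace Pool.Agent.Lib.helper15.Fac

noncomputable def FF (S : Finset ℚ) (w : ℚ → ℝ) (z : ℂ) : ℂ :=
  ∑ q ∈ S, w q * Complex.exp (-(q : ℝ) * z)

lemma norm_term (v a : ℝ) (hv : 0 ≤ v) (z : ℂ) :
    ‖v * Complex.exp (-a * z)‖ = v * exp (-a * z.re) := by
  rw [norm_mul, Complex.norm_exp, Complex.norm_real, norm_of_nonneg hv]; simp

lemma dom_gen (S : Finset ℚ) (v : ℚ → ℝ) (hv : ∀ q ∈ S, 0 ≤ v q) {α : ℝ} (hα : ∀ q ∈ S, α < q)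
    {η : ℝ} (hη : 0 < η) : ∀ᶠ σ : ℝ in atTop, ∀ z : ℂ, σ ≤ z.re →
      ‖FF S v z‖ ≤ η * exp (-α * z.re) := by
  have h : Tendsto (fun σ : ℝ => ∑ q ∈ S, v q * exp ((α - q) * σ)) atTop (𝓝 (∑ q ∈ S, v q * 0)) :=
    tendsto_finsetSum _ fun q hq => (tendsto_exp_atBot.comp
      (tendsto_id.const_mul_atTop_of_neg (by linarith [hα q hq]))).const_mul _
  filter_upwards [h.eventually (ge_mem_nhds (show _ < η by simpa using hη))] with σ hσ z hz
  refine le_trans (norm_sum_le_of_le _ fun q hq => ?_) ((Finset.sum_mul _ _ _).symm.trans_le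
    (mul_le_mul_of_nonneg_right hσ (exp_pos _).le))
  rw [norm_term _ _ (hv q hq), mul_assoc, ← exp_add]
  refine mul_le_mul_of_nonneg_left (exp_le_exp.2 ?_) (hv q hq)
  nlinarith [hα q hq]

lemma exists_dom (S : Finset ℚ) (w : ℚ → ℝ) (h : ∀ q ∈ S, 0 < q ∧ 0 < w q) (hS : S.Nonempty) :
    ∃ α ∈ S, ∃ σ, Dom (FF S w) α (w α) σ := by
  classical
  obtain ⟨α, h1, h2⟩ := S.exists_min_image id hS
  have a0 : (0 : ℝ) < α := by exact_mod_cast (h α h1).1
  have c0 := (h α h1).2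
  have h3 : ∀ q ∈ S.erase α, (α : ℝ) < q := fun q hq => by
    obtain ⟨a, b⟩ := Finset.mem_erase.1 hq
    exact_mod_cast lt_of_le_of_ne (h2 q b) a.symm
  obtain ⟨σ, s1, s2, s3⟩ := ((eventually_ge_atTop 1).and ((dom_gen _ w
    (fun q hq => (h q (Finset.mem_of_mem_erase hq)).2.le) h3 (half_pos c0)).and
    (dom_gen _ (fun q => w q * q) (fun q hq => mul_nonneg (h q (Finset.mem_of_mem_erase hq)).2.le
      (by linarith [h3 q hq])) h3 (half_pos (mul_pos c0 a0))))).exists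
  refine ⟨α, h1, σ, a0, c0, s1, by unfold FF; fun_prop, fun z hz => ?_, fun z hz =>
    ⟨-FF S (fun q => w q * q) z, fun h0 => ?_, ?_⟩⟩
  · rw [FF, ← Finset.add_sum_erase _ _ h1, add_sub_cancel_left]
    exact (s2 z hz).trans (le_of_eq (by ring))
  · rw [neg_eq_zero, FF, ← Finset.add_sum_erase _ _ h1, add_eq_zero_iff_neg_eq] at h0
    have := s3 z hz
    rw [FF, ← h0, norm_neg, norm_term _ _ (mul_pos c0 a0).le] at this
    nlinarith [mul_pos (mul_pos c0 a0) (exp_pos (-α * z.re))]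
  · have := HasDerivAt.fun_sum (u := S) fun q _ =>
      (((hasDerivAt_id z).const_mul (-((q : ℝ) : ℂ))).cexp.const_mul (w q : ℂ))
    refine this.congr_deriv ?_
    rw [FF, ← Finset.sum_neg_distrib]
    refine Finset.sum_congr rfl fun q _ => ?_
    simp; ring

lemma FF_ge (S : Finset ℚ) (w : ℚ → ℝ) (h : ∀ q ∈ S, 0 < q ∧ 0 < w q) {q : ℚ} (hq : q ∈ S)
    (x : ℝ) : w q * exp (-q * x) ≤ ‖FF S w x‖ := by
  have : FF S w x = (∑ q ∈ S, w q * exp (-q * x) : ℝ) := by simp [FF]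
  rw [this, Complex.norm_real]
  exact (Finset.single_le_sum (f := fun q : ℚ => w q * exp (-q * x))
    (fun q hq => (mul_pos (h q hq).2 (exp_pos _)).le) hq).trans (le_abs_self _)

structure Adm (φ : Gm → ℝ) : Prop where
  add : ∀ β γ, φ (β + γ) = φ β + φ γ
  cst : ∀ q : ℚ, φ (pi fun _ => q) = 0

lemma Adm.lin {φ ψ : Gm → ℝ} (h1 : Adm φ) (h2 : Adm ψ) (s : ℝ) : Adm fun γ => φ γ + s * ψ γ :=
  ⟨fun β γ => by rw [h1.add, h2.add]; ring, fun q => by simp [h1.cst, h2.cst]⟩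

lemma adm_of (ψ : Gm →ₗ[ℚ] ℚ) (h : ψ (pi (pp 0)) = 0) (t : ℝ) : Adm fun γ => t * ψ γ :=
  ⟨fun β γ => by rw [map_add]; push_cast; ring, fun q => by rw [pi_const, map_smul, h]; simp⟩

lemma side {F : ℂ → ℂ} {α c σ M ε : ℝ} (hD : Dom F α c σ) (hM : 0 < M)
    (hε : ε ≤ c * exp (-α * σ) / 16) (hε2 : ε ≤ 1 / 40)
    (hF : ∀ x : ℝ, c * exp (-α * x) ≤ ‖F x‖) (hF1 : exp (-1) ≤ ‖F (1 : ℝ)‖) {K K2 : Gm → ℂ}
    (hK : Summable fun γ => ‖K γ‖) (hK2 : Summable fun γ => ‖K2 γ‖) (hb : ∑' γ, ‖K2 γ‖ ≤ M)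
    (hq : ∀ φ, Adm φ → ∀ z : ℂ, 0 ≤ z.re → ‖LT K rr φ z * LT K2 rr φ z - F z‖ ≤ 4 * ε)
    (hp : ∀ γ, K γ ≠ 0 → Pos γ) {T : Finset Gm} (hT : ∀ γ ∈ T, ∃ q : ℚ, γ = pi fun _ => q)
    (hT2 : tl K T ≤ 1 / (100 * M)) {φ0 : Gm → ℝ} (h0 : Adm φ0)
    (h1 : ∃ ν > 0, ∀ z : ℂ, σ ≤ z.re → ν ≤ ‖LT K rr φ0 z‖) : False := by
  have hs := hD.s0
  have c0 := mul_pos hD.c0 (exp_pos (-α * σ))
  have low : ∀ φ, Adm φ → ∀ z : ℂ, 0 ≤ z.re → ∀ m : ℝ, m + 4 * ε ≤ ‖F z‖ →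
      m / M ≤ ‖LT K rr φ z‖ := fun φ hφ z hz m hm => by
    have a1 := hq φ hφ z hz
    have a2 := norm_sub_norm_le (F z) (LT K rr φ z * LT K2 rr φ z)
    rw [norm_sub_rev, norm_mul] at a2
    have a3 := mul_le_mul_of_nonneg_left ((LT_le hK2 rr_mem φ hz).trans hb)
      (norm_nonneg (LT K rr φ z))
    rw [div_le_iff₀ hM]
    linarith
  refine wind hK rr_mem T (by positivity) (show 0 < c * exp (-α * σ) / 4 / M by positivity) hT2
    fun S => ?_
  obtain ⟨ψ, p1, p2⟩ := exists_psi S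
  refine ⟨ψ, fun γ hγ => ?_, fun γ hγ h2 h3 => p2 γ hγ (hp γ h2) h3, fun t x hx => ?_, fun t => ?_⟩
  · obtain ⟨q, rfl⟩ := hT γ hγ
    rw [pi_const, map_smul, p1, smul_zero]
  · have a1 := adm_of ψ p1 t
    rcases le_total x σ with h | h
    · exact low _ a1 x (by simp; linarith) _ (by linarith [hF x, hD.mono h])
    · have a2 := a1.lin h0 (-1)
      have := propag (K := fun s => LT K rr fun γ => φ0 γ + s * (t * ψ γ + -1 * φ0 γ))
        (σ := σ) (μ := c * exp (-α * σ) / 4 / M) (by linarith) (by positivity)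
        (fun s => LT_diff hK rr_mem _) (LT_unif hK rr_mem _ _)
        (fun s z hz => low _ (h0.lin a2 s) z (by linarith) _ (by
          have := (hD.bd hz.ge).1
          rw [hz] at this
          linarith)) (by simpa using h1) x (by simpa using h)
      simpa using this
  · have := low _ (adm_of ψ p1 t) (1 : ℝ) (by simp) (4 / 100) (by
      have : (1 / 3 : ℝ) ≤ exp (-1) := by
        rw [exp_neg, le_inv_comm₀ (by norm_num) (exp_pos _)]
        linarith [exp_one_lt_d9]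
      linarith)
    refine le_trans (le_of_eq ?_) this
    field_simp

lemma hat_tl {g : ℕ → ℚ → ℂ} {M δ : ℝ} (hg : Bd g M) (T : Finset ℚ) (hT : ∀ N, tl (g N) T ≤ δ) :
    ∃ T' : Finset Gm, (∀ γ ∈ T', ∃ q : ℚ, γ = pi fun _ => q) ∧ tl (hat g) T' ≤ δ := by
  classical
  have e : ∀ N q, ‖if q ∈ T then 0 else g N q‖ = if q ∈ T then 0 else ‖g N q‖ := fun N q => by
    split_ifs <;> simp
  have h1 : Bd (fun N q => if q ∈ T then 0 else g N q) δ :=
    ⟨fun N => by simpa only [e] using tl_summ (hg.s N) T, fun N => by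
      simp only [e]; refine le_trans (le_of_eq ?_) (hT N)
      exact tsum_congr fun q => by split_ifs <;> rfl⟩
  refine ⟨T.image fun q => pi fun _ => q, fun γ hγ => ?_, le_trans (le_of_eq ?_) h1.tsum_le⟩
  · obtain ⟨q, -, h⟩ := Finset.mem_image.1 hγ
    exact ⟨q, h.symm⟩
  refine tsum_congr fun γ => ?_
  have h2 : ∀ᶠ N in U, (γ.1 N ∈ T ↔ γ ∈ T.image fun q => pi fun _ => q) := by
    filter_upwards [(eventually_all_finset T).2 fun q _ => iff_ev γ fun _ => q] with N hN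
    rw [Finset.mem_image]
    exact ⟨fun h => ⟨_, h, ((hN _ h).1 rfl).symm⟩, fun ⟨q, h, h'⟩ => (hN q h).2 h'.symm ▸ h⟩
  split_ifs with h
  · refine (norm_eq_zero.2 (tendsto_nhds_unique (h1.lim γ) (tendsto_const_nhds.congr' ?_))).symm
    filter_upwards [h2] with N hN using (if_pos (hN.2 (by convert h))).symm
  · congr 1
    refine tendsto_nhds_unique (hg.lim γ) ((h1.lim γ).congr' ?_)
    filter_upwards [h2] with N hN using if_neg fun h' => h (by convert hN.1 h')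

open Classical in
noncomputable def at0 {ι X : Type} (s : Finset ι) (w : ι → ℂ) (P : ι → X) (x : X) : ℂ :=
  ∑ i ∈ s, if x = P i then w i else 0

lemma at0_lim {ι : Type} (s : Finset ι) (w : ι → ℂ) (p : ι → ℕ → ℚ) (γ : Gm) :
    Tendsto (fun N => at0 s w (fun i => p i N) (γ.1 N)) U (𝓝 (at0 s w (fun i => pi (p i)) γ)) := by
  refine tendsto_const_nhds.congr' ?_
  filter_upwards [(eventually_all_finset s).2 fun i _ => iff_ev γ (p i)] with N hN
  refine Finset.sum_congr rfl fun i hi => ?_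
  by_cases h : γ = pi (p i)
  · rw [if_pos h, if_pos ((hN i hi).2 h)]
  · rw [if_neg h, if_neg fun h' => h ((hN i hi).1 h')]

lemma at0_sum {ι X : Type} (s : Finset ι) (w : ι → ℂ) (P : ι → X) (χ : X → ℂ) :
    HasSum (fun x => at0 s w P x * χ x) (∑ i ∈ s, w i * χ (P i)) := by
  simp only [at0, Finset.sum_mul]
  refine hasSum_sum fun i _ => ?_
  convert hasSum_single (P i) fun x hx => ?_
  · simp
  · simp [hx]

theorem lim_false {S : Finset ℚ} {w : ℚ → ℝ} (hw : ∀ q ∈ S, 0 < q ∧ 0 < w q) (h1 : 1 ∈ S)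
    (h2 : 1 ≤ w 1) {α : ℚ} (hα : α ∈ S) {σ M ε : ℝ} (hD : Dom (FF S w) α (w α) σ) (hM : 0 < M)
    (hε0 : 0 < ε) (hε : ε ≤ w α * exp (-α * σ) / 16) (hε2 : ε ≤ 1 / 40) {T : Finset ℚ}
    {g h e : ℕ → ℚ → ℂ} (hg : Bd g M) (hh : Bd h M) (g0 : ∀ N q, q ≤ 0 → g N q = 0)
    (h0 : ∀ N q, q ≤ 0 → h N q = 0) (gT : ∀ N, tl (g N) T ≤ 1 / (100 * M))
    (hT : ∀ N, tl (h N) T ≤ 1 / (100 * M)) (he : ∀ N q, ‖e N q‖ ≤ 1 / (N + 1))
    (hc : ∀ N q, at0 S (fun q => w q) id q + at0 Finset.univ (fun _ : Fin 4 => ε)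
      (fun j => pp (j + 1) N) q + e N q = ∑' r, g N r * h N (q - r)) : False := by
  have l0 : Tendsto (fun N : ℕ => 1 / ((N : ℝ) + 1)) U (𝓝 0) :=
    tendsto_one_div_add_atTop_nhds_zero_nat.mono_left Nat.hyperfilter_le_atTop
  have key : ∀ φ, Adm φ → ∀ z : ℂ, 0 ≤ z.re → LT (hat g) rr φ z * LT (hat h) rr φ z =
      FF S w z + ε * ∑ j : Fin 4, Complex.exp (φ (pi (pp (j + 1))) * Complex.I) := by
    intro φ hφ z hz
    rw [LT_mul (fun γ => ((at0_lim S (fun q => w q) (fun q _ => q) γ).add (at0_lim Finset.univ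
      (fun _ : Fin 4 => ε) (fun j => pp (j + 1)) γ)).add
      (squeeze_zero_norm (fun N => he N _) l0)) hg hh hM hc g0 h0 hφ.add hz, LT]
    simp only [add_zero, add_mul]
    rw [((at0_sum _ _ _ _).add (at0_sum _ _ _ _)).tsum_eq, FF, Finset.mul_sum]
    congr 1
    · refine Finset.sum_congr rfl fun q hq => ?_
      have : (0 : ℝ) < q := by exact_mod_cast (hw q hq).1
      rw [ch, hφ.cst, rr_pi this.le tendsto_const_nhds, EE, if_neg (exp_pos _).ne', log_exp]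
      simp [mul_comm]
    · refine Finset.sum_congr rfl fun j _ => ?_
      have := l0.pow (j + 1)
      rw [zero_pow (by omega)] at this
      rw [ch, rr_pi le_rfl (by simpa [pp] using this), EE, if_neg (exp_pos _).ne', log_exp]
      simp
  have hq : ∀ φ, Adm φ → ∀ z : ℂ, 0 ≤ z.re →
      ‖LT (hat g) rr φ z * LT (hat h) rr φ z - FF S w z‖ ≤ 4 * ε := fun φ hφ z hz => by
    rw [key φ hφ z hz, add_sub_cancel_left, norm_mul, Complex.norm_real, norm_of_nonneg hε0.le,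
      mul_comm]
    refine mul_le_mul_of_nonneg_right ((norm_sum_le _ _).trans ?_) hε0.le
    simp [Complex.norm_exp_ofReal_mul_I]
  obtain ⟨ρ, hρ⟩ := exists_rho
  have hA : ∀ i : Fin 5, i ≠ 0 → Adm fun γ => (ρ γ i : ℝ) := fun i hi => by
    have := adm_of ((LinearMap.proj i).comp ρ) (by simpa [hi] using congrFun (hρ 0) i) 1
    simpa using this
  let Φ : ℝ × ℝ → Gm → ℝ := fun θ γ => θ.1 * (ρ γ 1 - ρ γ 2) + θ.2 * (ρ γ 3 - ρ γ 4) +
    π / 2 * (ρ γ 3 + ρ γ 4)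
  have hΦ : ∀ θ, Adm (Φ θ) := fun θ =>
    ⟨fun β γ => by simp only [Φ, map_add, Pi.add_apply]; push_cast; ring, fun q => by
      simp only [Φ, (hA 1 (by decide)).cst, (hA 2 (by decide)).cst, (hA 3 (by decide)).cst,
        (hA 4 (by decide)).cst]; simp⟩
  have c0 := mul_pos hD.c0 (exp_pos (-α * σ))
  obtain ⟨θ, hθ⟩ := dich hD hM hε0 (by linarith) (LT_fam hg.summ rr_mem hg.tsum_le _ _ _)
    (LT_fam hh.summ rr_mem hh.tsum_le _ _ _) (G := fun θ => LT (hat g) rr (Φ θ))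
    (H := fun θ => LT (hat h) rr (Φ θ)) fun θ z hz => by
      rw [key _ (hΦ θ) z hz.le]
      have r1 : ρ (pi (pp 1)) = Pi.single 1 1 := hρ 1
      have r2 : ρ (pi (pp 2)) = Pi.single 2 1 := hρ 2
      have r3 : ρ (pi (pp 3)) = Pi.single 3 1 := hρ 3
      have r4 : ρ (pi (pp 4)) = Pi.single 4 1 := hρ 4
      congr 2
      simp [Fin.sum_univ_four, Φ, r1, r2, r3, r4, YY, Complex.two_cos, add_mul, Complex.exp_add]
      ring
  have hF := FF_ge S w hw hα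
  have hF1 : exp (-1) ≤ ‖FF S w (1 : ℝ)‖ := by
    have := FF_ge S w hw h1 1
    simp only [Rat.cast_one, mul_one] at this
    nlinarith [exp_pos (-1)]
  rcases hθ with hθ | hθ
  · obtain ⟨T', t1, t2⟩ := hat_tl hg T gT
    exact side hD hM hε hε2 hF hF1 hg.summ hh.summ hh.tsum_le hq (fun γ => hg.pos g0) t1 t2
      (hΦ θ) hθ
  · obtain ⟨T', t1, t2⟩ := hat_tl hh T hT
    exact side hD hM hε hε2 hF hF1 hh.summ hg.summ hg.tsum_le
      (fun φ hφ z hz => by rw [mul_comm]; exact hq φ hφ z hz) (fun γ => hh.pos h0) t1 t2 (hΦ θ) hθ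

end Pool.Agent.Lib.helper15.Fac
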