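import Mathlib
import Pool.Agent.Lib.helper15.Fac4

open Metric Real Filter Topology

namespace Pool.Agent.Lib.helper15.Fac

noncomputable abbrev LQ := lp (fun _ : ℚ => ℂ) 1

def Fc (f : ℚ → ℂ) (T : Finset ℚ) (M : ℝ) : Prop :=
  ∃ g h : ℚ → ℂ, (∀ q, q ≤ 0 → g q = 0) ∧ (∀ q, q ≤ 0 → h q = 0) ∧ (Summable fun q => ‖g q‖) ∧
    (Summable fun q => ‖h q‖) ∧ ∑' q, ‖g q‖ ≤ M ∧ ∑' q, ‖h q‖ ≤ M ∧ tl g T ≤ 1 / (100 * M) ∧
    tl h T ≤ 1 / (100 * M) ∧ ∀ q, f q = ∑' r, g r * h (q - r)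

def AA : Set LQ := {f | ∃ (S : Finset ℚ) (w : ℚ → ℝ), (∀ q ∈ S, 0 < q ∧ 0 < w q) ∧ 1 ∈ S ∧
  1 ≤ w 1 ∧ ∀ q, f q = if q ∈ S then (w q : ℂ) else 0}

lemma AA_add {f : LQ} (hf : f ∈ AA) {ε : ℝ} (hε : 0 < ε) {p : ℚ} (hp : 0 < p) :
    f + lp.single 1 p (ε : ℂ) ∈ AA := by
  obtain ⟨S, w, h1, h2, h3, h4⟩ := hf
  refine ⟨insert p S, fun q => (if q ∈ S then w q else 0) + if q = p then ε else 0,
    fun q hq => ?_, Finset.mem_insert_of_mem h2, ?_, fun q => ?_⟩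
  · by_cases a : q ∈ S
    · refine ⟨(h1 q a).1, ?_⟩
      simp only [a, if_true]
      split_ifs <;> linarith [(h1 q a).2]
    · have : q = p := by simpa [a] using hq
      subst this
      simp [a, hp, hε]
  · simp only [h2, if_true]
    split_ifs <;> linarith
  · rw [lp.coeFn_add, Pi.add_apply, h4, lp.single_apply, Pi.single_apply]
    by_cases a : q ∈ S <;> by_cases b : q = p <;> simp [a, b]
    all_goals subst b; simp [a]

lemma pp_pos (j N : ℕ) : 0 < pp j N := by unfold pp; positivity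

lemma key {f : LQ} (hf : f ∈ AA) (T : Finset ℚ) {M η : ℝ} (hM : 0 < M) (hη : 0 < η) :
    ∃ f1 ∈ AA, ‖f1 - f‖ < η ∧ ∃ τ > 0, ∀ f' : LQ, ‖f' - f1‖ < τ → ¬ Fc f' T M := by
  by_contra hc
  push Not at hc
  obtain ⟨S, w, h1, h2, h3, h4⟩ := id hf
  obtain ⟨α, hα, σ, hD⟩ := exists_dom S w h1 ⟨1, h2⟩
  have c0 := mul_pos hD.c0 (exp_pos (-α * σ))
  set ε := min (w α * exp (-α * σ) / 16) (min (1 / 40) (η / 8)) with hε
  have e0 : 0 < ε := by positivity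
  have e1 : ε ≤ η / 8 := (min_le_right _ _).trans (min_le_right _ _)
  let Y : ℕ → LQ := fun N => ∑ j : Fin 4, lp.single 1 (pp (j + 1) N) (ε : ℂ)
  have y1 : ∀ N, f + Y N ∈ AA := fun N => by
    simp only [Y, Fin.sum_univ_four, ← add_assoc]
    exact AA_add (AA_add (AA_add (AA_add hf e0 (pp_pos _ _)) e0 (pp_pos _ _)) e0 (pp_pos _ _)) e0
      (pp_pos _ _)
  have y2 : ∀ N, ‖f + Y N - f‖ < η := fun N => by
    rw [add_sub_cancel_left]
    refine (norm_sum_le _ _).trans_lt ?_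
    simp only [lp.norm_single (p := 1) (by simp), Complex.norm_real, norm_of_nonneg e0.le]
    simp
    linarith
  choose f' a1 g h b1 b2 b3 b4 b5 b6 b7 b8 b9 using fun N : ℕ =>
    hc _ (y1 N) (y2 N) (1 / (N + 1)) (by positivity)
  refine lim_false h1 h2 h3 hα hD hM e0 (min_le_left _ _) ((min_le_right _ _).trans
    (min_le_left _ _)) ⟨b3, b5⟩ ⟨b4, b6⟩ b1 b2 b7 b8 (e := fun N q => (f' N - (f + Y N)) q)
    (fun N q => (lp.norm_apply_le_norm (by simp) _ q).trans (a1 N).le) fun N q => ?_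
  rw [← b9, lp.coeFn_sub, lp.coeFn_add, Pi.sub_apply, Pi.add_apply, h4]
  have e2 : Y N q = at0 Finset.univ (fun _ : Fin 4 => (ε : ℂ)) (fun j => pp (j + 1) N) q := by
    simp only [Y, at0, lp.coeFn_sum, Finset.sum_apply, lp.single_apply, Pi.single_apply]
  have e3 : at0 S (fun q => (w q : ℂ)) id q = if q ∈ S then (w q : ℂ) else 0 := by
    simp [at0]
  rw [e2, e3]
  ring

theorem no_fact : ∃ a : ℚ → ℂ, (∀ q, q ≤ 0 → a q = 0) ∧ (Summable fun q => ‖a q‖) ∧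
    ∀ g h : ℚ → ℂ, (∀ q, q ≤ 0 → g q = 0) → (∀ q, q ≤ 0 → h q = 0) → (Summable fun q => ‖g q‖) →
      (Summable fun q => ‖h q‖) → ¬ ∀ q, a q = ∑' r, g r * h (q - r) := by
  have : CompleteSpace (closure AA) := isClosed_closure.completeSpace_coe
  have : Nonempty (closure AA) := ⟨⟨lp.single 1 1 1, subset_closure ⟨{1}, fun _ => 1, by simp,
    by simp, le_rfl, fun q => by simp [lp.single_apply, Pi.single_apply]⟩⟩⟩
  let V : Finset ℚ × ℕ → Set (closure AA) := fun i =>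
    {x | ∃ τ > 0, ∀ f' : LQ, ‖f' - x.1‖ < τ → ¬ Fc f' i.1 (i.2 + 1)}
  have h1 : ∀ i, IsOpen (V i) := fun i => by
    refine Metric.isOpen_iff.2 fun x ⟨τ, hτ, h⟩ => ⟨τ / 2, half_pos hτ, fun y hy =>
      ⟨τ / 2, half_pos hτ, fun f' hf' => h f' ?_⟩⟩
    rw [mem_ball, Subtype.dist_eq, dist_eq_norm] at hy
    linarith [norm_sub_le_norm_sub_add_norm_sub f' y.1 x.1]
  have h2 : ∀ i, Dense (V i) := fun i => by
    rw [Metric.dense_iff]
    intro b r hr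
    obtain ⟨b1, hb1, a1⟩ := Metric.mem_closure_iff.1 b.2 (r / 2) (by positivity)
    obtain ⟨b2, hb2, a2, a3⟩ := key hb1 i.1 (M := i.2 + 1) (by positivity) (half_pos hr)
    refine ⟨⟨b2, subset_closure hb2⟩, ?_, a3⟩
    rw [mem_ball, Subtype.dist_eq]
    have h3 := dist_triangle b2 b1 b.1
    rw [dist_eq_norm b2 b1, dist_comm b1] at h3
    linarith
  obtain ⟨x, hx⟩ := (dense_iInter_of_isOpen h1 h2).nonempty
  refine ⟨x.1, fun q hq => ?_, by simpa using (lp.memℓp x.1).summable (by simp),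
    fun g h g0 h0 gs hs hc => ?_⟩
  · refine closure_minimal (t := {f : LQ | f q = 0}) ?_ (isClosed_eq
      (lp.evalCLM (𝕜 := ℂ) (fun _ : ℚ => ℂ) 1 q).continuous continuous_const) x.2
    rintro f ⟨S, w, a1, -, -, a2⟩
    exact (a2 q).trans (if_neg fun h => absurd (a1 q h).1 (not_lt.2 hq))
  · obtain ⟨n, hn⟩ := exists_nat_ge (max (∑' q, ‖g q‖) (∑' q, ‖h q‖))
    have hδ : (0 : ℝ) < 1 / (100 * (n + 1)) := by positivity
    obtain ⟨T, t1, t2⟩ := (((tl_lim gs).eventually (ge_mem_nhds hδ)).and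
      ((tl_lim hs).eventually (ge_mem_nhds hδ))).exists
    obtain ⟨τ, hτ, a⟩ := Set.mem_iInter.1 hx (T, n)
    obtain ⟨n1, n2⟩ := max_le_iff.1 hn
    exact a x.1 (by simpa using hτ) ⟨g, h, g0, h0, gs, hs, by linarith, by linarith, t1, t2, hc⟩

end Pool.Agent.Lib.helper15.Fac
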