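import Mathlib
import Pool.Agent.Lib.helper15.Fac5

open Metric Real Filter Topology

namespace Pool.Agent.Lib.helper15.Fac

variable {F : ℂ → ℂ} {α c σ : ℝ}

lemma rect2 (ha : 0 < α) (hc : 0 < c) (hs : 0 < σ) {K K2 : ℂ → ℂ} {M e : ℝ} (hM : 0 < M)
    (he : 0 < e) (he2 : e ≤ c * exp (-α * σ) / 8)
    (hd : DifferentiableOn ℂ K {z | 0 < z.re}) (hb : ∀ z : ℂ, 0 < z.re → ‖K2 z‖ ≤ M)
    (hq : ∀ z : ℂ, σ ≤ z.re → ‖K z * K2 z - e - c * Complex.exp (-α * z)‖ ≤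
      3 / 4 * (c * exp (-α * z.re))) (h0 : ∀ z : ℂ, σ ≤ z.re → K z ≠ 0) :
    ∃ ν > 0, ∀ z : ℂ, σ ≤ z.re → ν ≤ ‖K z‖ := by
  refine ⟨e / 2 / M, by positivity, fun z hz => ?_⟩
  have hl : Tendsto (fun x : ℝ => c * exp (-α * x)) atTop (𝓝 (c * 0)) :=
    (tendsto_exp_atBot.comp (tendsto_id.const_mul_atTop_of_neg (by linarith))).const_mul c
  obtain ⟨X, hX1, hX2⟩ := ((hl.eventually (ge_mem_nhds (show c * 0 < e / 4 by
    rw [mul_zero]; positivity))).and (eventually_gt_atTop z.re)).exists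
  set k := ⌊z.im / (2 * π / α)⌋ with hk
  have hp : 0 < 2 * π / α := by positivity
  have k1 : (k : ℝ) * (2 * π / α) ≤ z.im := (le_div_iff₀ hp).1 (Int.floor_le _)
  have k2 : z.im < ((k + 1 : ℤ) : ℝ) * (2 * π / α) := by
    push_cast; exact (div_lt_iff₀ hp).1 (Int.lt_floor_add_one _)
  have hlt : (k : ℝ) * (2 * π / α) < ((k + 1 : ℤ) : ℝ) * (2 * π / α) := k1.trans_lt k2
  have hσX : σ < X := hz.trans_lt hX2
  have low : ∀ w : ℂ, σ ≤ w.re → e / 2 ≤ ‖K w * K2 w‖ → ‖(K w)⁻¹‖ ≤ (e / 2 / M)⁻¹ := by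
    intro w hw h1
    rw [norm_inv]
    refine inv_anti₀ (by positivity) ?_
    rw [norm_mul] at h1
    rw [div_le_iff₀ hM]
    exact h1.trans (mul_le_mul_of_nonneg_left (hb w (by linarith)) (norm_nonneg _))
  have hor : ∀ (w : ℂ) (j : ℤ), σ ≤ w.re → w.im = j * (2 * π / α) → e / 2 ≤ ‖K w * K2 w‖ := by
    intro w j hw hj
    have e1 : Complex.exp (-α * w) = (exp (-α * w.re) : ℝ) := by
      have : -α * w = (-α * w.re : ℝ) + (-j : ℤ) * (2 * π * Complex.I) := by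
        have : (α : ℂ) ≠ 0 := by exact_mod_cast ha.ne'
        conv_lhs => rw [← Complex.re_add_im w, hj]
        push_cast; field_simp; ring
      rw [this, Complex.exp_add, Complex.exp_int_mul_two_pi_mul_I, mul_one, Complex.ofReal_exp]
    have h1 := hq w hw
    rw [e1, ← Complex.ofReal_mul] at h1
    have h2 := abs_le.1 ((Complex.abs_re_le_norm _).trans h1)
    have h3 := Complex.re_le_norm (K w * K2 w)
    have h4 : 0 < c * exp (-α * w.re) := mul_pos hc (exp_pos _)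
    rw [Complex.sub_re, Complex.sub_re, Complex.ofReal_re, Complex.ofReal_re] at h2
    linarith [h2.1]
  have cl : closure (Set.Ioo σ X ×ℂ Set.Ioo ((k : ℝ) * (2 * π / α)) (((k + 1 : ℤ) : ℝ) *
      (2 * π / α))) = Set.Icc σ X ×ℂ Set.Icc ((k : ℝ) * (2 * π / α)) (((k + 1 : ℤ) : ℝ) *
      (2 * π / α)) := by
    rw [Complex.closure_reProdIm, closure_Ioo hσX.ne, closure_Ioo hlt.ne]
  have key := Complex.norm_le_of_forall_mem_frontier_norm_le (f := fun w => (K w)⁻¹)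
    (C := (e / 2 / M)⁻¹) (z := z)
    ((isBounded_Ioo σ X).reProdIm (isBounded_Ioo ((k : ℝ) * (2 * π / α)) (((k + 1 : ℤ) : ℝ) *
      (2 * π / α)))) (DifferentiableOn.diffContOnCl (by
        rw [cl]
        exact (hd.mono fun w hw => show 0 < w.re by linarith [hw.1.1]).inv fun w hw =>
          h0 w hw.1.1)) (fun w hw => ?_) (by rw [cl]; exact ⟨⟨hz, hX2.le⟩, k1, k2.le⟩)
  · rw [norm_inv] at key
    exact (inv_le_inv₀ (norm_pos_iff.2 (h0 z hz)) (by positivity)).1 key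
  rw [Complex.frontier_reProdIm, closure_Ioo hσX.ne, closure_Ioo hlt.ne, frontier_Ioo hσX,
    frontier_Ioo hlt] at hw
  have ne : ‖(e : ℂ)‖ = e := by simp [he.le]
  have tri : ∀ w : ℂ, σ ≤ w.re → c * exp (-α * w.re) / 4 - e ≤ ‖K w * K2 w‖ ∧
      e - 2 * (c * exp (-α * w.re)) ≤ ‖K w * K2 w‖ := fun w hw => by
    have a1 := hq w hw
    have a2 := abs_le.1 (abs_norm_sub_norm_le (K w * K2 w - e) (c * Complex.exp (-α * w)))
    have a3 := abs_le.1 (abs_norm_sub_norm_le (K w * K2 w) (K w * K2 w - e))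
    have a4 := norm_sub_norm_le (e : ℂ) (K w * K2 w)
    rw [norm_sub_rev] at a4
    rw [sub_sub_cancel, ne] at a3
    rw [norm_term _ _ hc.le] at a2
    have h4 : 0 < c * exp (-α * w.re) := mul_pos hc (exp_pos _)
    constructor <;> linarith [a2.1, a2.2, a3.1]
  rcases hw with ⟨h1, h2 | h2⟩ | ⟨h1 | h1, -⟩
  · exact low w h1.1 (hor w _ h1.1 h2)
  · exact low w h1.1 (hor w _ h1.1 h2)
  · have h1 : w.re = σ := h1
    have := (tri w h1.ge).1
    rw [h1] at this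
    exact low w h1.ge (by linarith)
  · have h1 : w.re = X := h1
    have := (tri w (by linarith)).2
    rw [h1] at this
    exact low w (by linarith) (by linarith)

lemma der_le {K : ℂ → ℂ} (hd : DifferentiableOn ℂ K {z | 0 < z.re}) {z : ℂ} (hz : 2 ≤ z.re) {C : ℝ}
    (h : ∀ w : ℂ, z.re - 1 ≤ w.re → ‖K w‖ ≤ C) : HasDerivAt K (deriv K z) z ∧ ‖deriv K z‖ ≤ C := by
  have h1 : ∀ w ∈ closedBall z 1, z.re - 1 ≤ w.re := fun w hw => by
    have := abs_le.1 ((Complex.abs_re_le_norm (w - z)).trans (mem_closedBall_iff_norm.1 hw))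
    rw [Complex.sub_re] at this
    linarith [this.1]
  refine ⟨(hd.differentiableAt ((isOpen_lt continuous_const Complex.continuous_re).mem_nhds
    (show 0 < z.re by linarith))).hasDerivAt, ?_⟩
  simpa using Complex.norm_deriv_le_of_forall_mem_sphere_norm_le one_pos
    (DifferentiableOn.diffContOnCl (hd.mono fun w hw => show 0 < w.re by
      linarith [h1 w (closure_ball_subset_closedBall hw)]))
    fun w hw => h w (h1 w (sphere_subset_closedBall hw))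

theorem dich2 (h : Dom F α c σ) (hs : 2 ≤ σ) (hF : Differentiable ℂ F)
    (hder : ∀ z : ℂ, σ ≤ z.re → α * c * exp (-α * z.re) / 2 ≤ ‖deriv F z‖)
    {G H : ℝ × ℝ → ℂ → ℂ} {M B ε : ℝ} (hM : 0 < M) (hε : 0 < ε) (hB : 0 < B)
    (hε2 : ε ≤ c * exp (-α * σ) / 8) (hG : Fam G M) (hH : Fam H M)
    (b1 : ∀ x, σ ≤ x → B * exp (-x) ≤ c * exp (-α * x) / 8)
    (b2 : ∀ x, σ ≤ x → B * exp (-(x - 1)) ≤ α * c * exp (-α * x) / 4)
    (b3 : ∀ x, σ ≤ x → 3 * (B * exp (-x)) ≤ (α * c * exp (-α * x) / (16 * M)) ^ 2)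
    (hq : ∀ θ, ∀ z : ℂ, 0 < z.re → ‖G θ z * H θ z - F z - ε * YY θ‖ ≤ B * exp (-z.re)) :
    ∃ θ, (∃ ν > 0, ∀ z : ℂ, σ ≤ z.re → ν ≤ ‖G θ z‖) ∨
      ∃ ν > 0, ∀ z : ℂ, σ ≤ z.re → ν ≤ ‖H θ z‖ := by
  have ha := h.a0
  have hc := h.c0
  have hεc : (ε : ℂ) ≠ 0 := by exact_mod_cast hε.ne'
  obtain ⟨τ, t1, t2⟩ := ((h.small (half_pos hε)).and (eventually_ge_atTop σ)).exists
  let D : Set (ℂ × ℂ) := {z | τ < z.re} ×ˢ ball 0 2
  let Θ : ℂ × ℂ → ℝ × ℝ := fun p => th ((-F p.1 - p.2 * (B * exp (-p.1.re) : ℝ)) / ε)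
  let l : ℂ × ℂ → ℝ := fun p => α * c * exp (-α * p.1.re) / (16 * M)
  have l0 : ∀ p, 0 < l p := fun p => by positivity
  have hΘ : Continuous Θ := by
    have := h.cont
    simp only [Θ, th]
    fun_prop
  have hD : ∀ p ∈ D, σ ≤ p.1.re := fun z hz => t2.trans (le_of_lt hz.1)
  have hu : ∀ p ∈ D, ‖p.2 * (B * exp (-p.1.re) : ℝ)‖ < 2 * (B * exp (-p.1.re)) := fun p hp => by
    rw [norm_mul, Complex.norm_real, norm_of_nonneg (by positivity)]
    have := mem_ball_zero_iff.1 hp.2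
    have : 0 < B * exp (-p.1.re) := by positivity
    nlinarith
  have h1 : ∀ p ∈ D, F p.1 + ε * YY (Θ p) = -(p.2 * (B * exp (-p.1.re) : ℝ)) := fun p hp => by
    rw [YY_th]
    · field_simp; ring
    · rw [norm_div, Complex.norm_real, norm_of_nonneg hε.le, div_le_iff₀ hε]
      have := norm_sub_le (-F p.1) (p.2 * (B * exp (-p.1.re) : ℝ))
      rw [norm_neg] at this
      linarith [(h.bd (hD p hp)).2, h.mono (le_of_lt hp.1), hu p hp, b1 _ (hD p hp)]
  have hDo : IsOpen D := (isOpen_lt continuous_const Complex.continuous_re).prod isOpen_ball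
  have op : ∀ {K}, Fam K M → IsOpen (D ∩ (fun p => ‖K (Θ p) p.1‖ - l p) ⁻¹' Set.Ioi 0) := fun hK =>
    ((hK.cont.comp (hΘ.prodMk continuous_fst).continuousOn fun z hz =>
      show 0 < z.1.re by linarith [hD z hz]).norm.sub (by
        simp only [l]; fun_prop)).isOpen_inter_preimage hDo isOpen_Ioi
  have key := ((convex_halfSpace_re_gt τ).prod (convex_ball 0 2)).isPreconnected.subset_or_subset
    (op hG) (op hH) (Set.disjoint_left.2 fun p h2 h3 => by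
      have a1 := hq (Θ p) p.1 (by linarith [hD p h2.1])
      rw [sub_sub, h1 p h2.1, sub_neg_eq_add] at a1
      have a2 := norm_sub_le (G (Θ p) p.1 * H (Θ p) p.1 + p.2 * (B * exp (-p.1.re) : ℝ))
        (p.2 * (B * exp (-p.1.re) : ℝ))
      rw [add_sub_cancel_right, norm_mul] at a2
      have a3 : l p < ‖G (Θ p) p.1‖ := sub_pos.1 h2.2
      have a4 : l p < ‖H (Θ p) p.1‖ := sub_pos.1 h3.2
      have a5 := mul_le_mul a3.le a4.le (l0 p).le (norm_nonneg _)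
      have a6 : 3 * (B * exp (-p.1.re)) ≤ l p ^ 2 := b3 _ (hD p h2.1)
      nlinarith [hu p h2.1]) fun p hp => by
      by_contra hc'
      have a1 : ‖G (Θ p) p.1‖ ≤ l p := by_contra fun h' =>
        hc' (Or.inl ⟨hp, sub_pos.2 (not_le.1 h')⟩)
      have a2 : ‖H (Θ p) p.1‖ ≤ l p := by_contra fun h' =>
        hc' (Or.inr ⟨hp, sub_pos.2 (not_le.1 h')⟩)
      have hz : 2 ≤ p.1.re := hs.trans (hD p hp)
      obtain ⟨g1, g2⟩ := der_le (hG.diff (Θ p)) hz fun w hw => hG.bd _ w (by linarith)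
      obtain ⟨k1, k2⟩ := der_le (hH.diff (Θ p)) hz fun w hw => hH.bd _ w (by linarith)
      obtain ⟨r1, r2⟩ := der_le (K := fun w => G (Θ p) w * H (Θ p) w - F w - ε * YY (Θ p))
        ((((hG.diff _).mul (hH.diff _)).sub hF.differentiableOn).sub_const _) hz
        (C := B * exp (-(p.1.re - 1))) fun w hw => (hq _ w (by linarith)).trans
          (mul_le_mul_of_nonneg_left (exp_le_exp.2 (by linarith)) hB.le)
      rw [r1.unique (((g1.mul k1).sub (hF p.1).hasDerivAt).sub_const _)] at r2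
      have a3 := norm_sub_norm_le (deriv F p.1) (deriv (G (Θ p)) p.1 * H (Θ p) p.1 +
        G (Θ p) p.1 * deriv (H (Θ p)) p.1)
      have a4 := norm_add_le (deriv (G (Θ p)) p.1 * H (Θ p) p.1) (G (Θ p) p.1 * deriv (H (Θ p)) p.1)
      rw [norm_sub_rev] at a3
      rw [norm_mul, norm_mul] at a4
      have a5 := mul_le_mul g2 a2 (norm_nonneg _) hM.le
      have a6 := mul_le_mul a1 k2 (norm_nonneg _) (l0 p).le
      have a7 : M * l p = α * c * exp (-α * p.1.re) / 16 := by simp only [l]; field_simp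
      have a8 : 0 < α * c * exp (-α * p.1.re) := by positivity
      linarith [hder _ (hD p hp), b2 _ (hD p hp), mul_comm M (l p)]
  set r := min 1 (c * exp (-α * τ) / 4 / ε) with hr
  have r0 : 0 < r := lt_min one_pos (by positivity)
  have r1 : r ≤ 1 := min_le_left _ _
  have r2 : r * ε ≤ c * exp (-α * τ) / 4 := (le_div_iff₀ hε).1 (min_le_right _ _)
  have r3 : YY (th r) = r := YY_th (by rw [Complex.norm_real, norm_of_nonneg r0.le]; linarith)
  have fin : ∀ {K K2}, Fam K M → Fam K2 M →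
      (∀ θ, ∀ z : ℂ, 0 < z.re → ‖K θ z * K2 θ z - F z - ε * YY θ‖ ≤ B * exp (-z.re)) →
      D ⊆ D ∩ (fun p => ‖K (Θ p) p.1‖ - l p) ⁻¹' Set.Ioi 0 →
      ∃ ν > 0, ∀ z : ℂ, σ ≤ z.re → ν ≤ ‖K (th r) z‖ := by
    intro K K2 hK hK2 hq hsub
    refine rect2 ha hc (by linarith) (e := ε * r) hM (by positivity) (by nlinarith) (hK.diff _)
      (hK2.bd (th r)) (fun z hz => ?_) fun z hz h0 => ?_
    · have a1 := hq (th r) z (by linarith)
      have a2 := norm_add_le (K (th r) z * K2 (th r) z - F z - ε * YY (th r))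
        (F z - c * Complex.exp (-α * z))
      rw [r3] at a1 a2
      rw [show K (th r) z * K2 (th r) z - F z - ε * r + (F z - c * Complex.exp (-α * z)) =
        K (th r) z * K2 (th r) z - (ε * r : ℝ) - c * Complex.exp (-α * z) by push_cast; ring] at a2
      have := mul_pos hc (exp_pos (-α * z.re))
      linarith [h.dom z hz, b1 _ hz]
    have a1 := hq (th r) z (by linarith)
    rw [h0, zero_mul, r3, zero_sub] at a1
    have a0 : 0 < B * exp (-z.re) := by positivity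
    have a4 : τ < z.re := by
      by_contra hc'
      have b := norm_add_le (-F z - ε * r) (ε * r)
      rw [sub_add_cancel, norm_neg, norm_mul, Complex.norm_real, Complex.norm_real,
        norm_of_nonneg hε.le, norm_of_nonneg r0.le] at b
      have := mul_pos hc (exp_pos (-α * z.re))
      linarith [h.mono (not_lt.1 hc'), (h.bd hz).1, b1 _ hz, mul_comm ε r]
    have a5 : ((B * exp (-z.re) : ℝ) : ℂ) ≠ 0 := by exact_mod_cast a0.ne'
    have a6 : (z, (-F z - ε * r) / (B * exp (-z.re) : ℝ)) ∈ D := ⟨a4, by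
      rw [mem_ball_zero_iff, norm_div, Complex.norm_real, norm_of_nonneg a0.le, div_lt_iff₀ a0]
      linarith⟩
    have a7 : Θ (z, (-F z - ε * r) / (B * exp (-z.re) : ℝ)) = th r := by
      simp only [Θ]
      rw [div_mul_cancel₀ _ a5]
      congr 1
      field_simp
      ring
    have a8 := (hsub a6).2
    simp only [Set.mem_preimage, Set.mem_Ioi, a7, h0, norm_zero] at a8
    linarith [l0 (z, (-F z - ε * r) / (B * exp (-z.re) : ℝ))]
  exact ⟨th r, key.imp (fin hG hH hq) (fin hH hG fun θ z hz => by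
    rw [mul_comm]; exact hq θ z hz)⟩

lemma Dom.up (h : Dom F α c σ) {τ : ℝ} (hτ : σ ≤ τ) : Dom F α c τ :=
  ⟨h.a0, h.c0, h.s0.trans hτ, h.cont, fun z hz => h.dom z (hτ.trans hz),
    fun z hz => h.der z (hτ.trans hz)⟩

lemma FF_der (S : Finset ℚ) (w : ℚ → ℝ) (z : ℂ) :
    HasDerivAt (FF S w) (-FF S (fun q => w q * q) z) z := by
  have := HasDerivAt.fun_sum (u := S) fun q _ =>
    (((hasDerivAt_id z).const_mul (-((q : ℝ) : ℂ))).cexp.const_mul (w q : ℂ))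
  refine this.congr_deriv ?_
  rw [FF, ← Finset.sum_neg_distrib]
  refine Finset.sum_congr rfl fun q _ => ?_
  simp; ring

lemma dom_min {S : Finset ℚ} {w : ℚ → ℝ} (h : ∀ q ∈ S, 0 < q ∧ 0 < w q) {α : ℚ} (h1 : α ∈ S)
    (h2 : ∀ q ∈ S, α ≤ q) : ∀ᶠ σ : ℝ in atTop, ∀ z : ℂ, σ ≤ z.re →
      ‖FF S w z - w α * Complex.exp (-(α : ℝ) * z)‖ ≤ w α * exp (-α * z.re) / 2 := by
  classical
  filter_upwards [dom_gen (S.erase α) w (fun q hq => (h q (Finset.mem_of_mem_erase hq)).2.le)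
    (α := α) (fun q hq => by
      obtain ⟨a, b⟩ := Finset.mem_erase.1 hq
      exact_mod_cast lt_of_le_of_ne (h2 q b) a.symm) (half_pos (h α h1).2)] with σ s2 z hz
  rw [FF, ← Finset.add_sum_erase _ _ h1, add_sub_cancel_left]
  exact (s2 z hz).trans (le_of_eq (by ring))

lemma exists_dom2 (S : Finset ℚ) (w : ℚ → ℝ) (h : ∀ q ∈ S, 0 < q ∧ 0 < w q) {q0 : ℚ}
    (hS : q0 ∈ S) : ∃ α ∈ S, α ≤ q0 ∧ ∀ᶠ σ : ℝ in atTop, Dom (FF S w) α (w α) σ ∧
      ∀ z : ℂ, σ ≤ z.re → α * w α * exp (-α * z.re) / 2 ≤ ‖deriv (FF S w) z‖ := by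
  obtain ⟨α, h1, h2⟩ := S.exists_min_image id ⟨q0, hS⟩
  have a0 : (0 : ℝ) < α := by exact_mod_cast (h α h1).1
  have c0 := (h α h1).2
  refine ⟨α, h1, h2 q0 hS, ?_⟩
  filter_upwards [eventually_ge_atTop 1, dom_min h h1 h2, dom_min (w := fun q => w q * q)
    (fun q hq => ⟨(h q hq).1, mul_pos (h q hq).2 (by exact_mod_cast (h q hq).1)⟩) h1 h2]
    with σ s1 s2 s3
  have key : ∀ z : ℂ, σ ≤ z.re → α * w α * exp (-α * z.re) / 2 ≤ ‖deriv (FF S w) z‖ := by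
    intro z hz
    have a1 := norm_sub_norm_le ((w α * α : ℝ) * Complex.exp (-(α : ℝ) * z))
      (FF S (fun q => w q * q) z)
    rw [norm_sub_rev, norm_term _ _ (mul_pos c0 a0).le] at a1
    rw [(FF_der S w z).deriv, norm_neg, mul_comm (α : ℝ)]
    linarith [s3 z hz]
  refine ⟨⟨a0, c0, s1, by unfold FF; fun_prop, s2, fun z hz => ⟨_, fun h0 => ?_,
    (FF_der S w z).differentiableAt.hasDerivAt⟩⟩, key⟩
  have := key z hz
  rw [h0, norm_zero] at this
  linarith [mul_pos (mul_pos a0 c0) (exp_pos (-α * z.re))]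

lemma EE_pow {r x : ℝ} (hr : 0 ≤ r) (hx : 0 < x) (z : ℂ) : EE (r ^ x) z = EE r (x * z) := by
  unfold EE
  by_cases h : r = 0
  · simp [h, hx.ne']
  · have := lt_of_le_of_ne hr (Ne.symm h)
    rw [if_neg (rpow_pos_of_pos this x).ne', if_neg h, log_rpow this]
    push_cast; ring_nf

lemma LT_pow {ι : Type} (g : ι → ℂ) {r : ι → ℝ} (hr : ∀ i, 0 ≤ r i) (φ : ι → ℝ) {x : ℝ}
    (hx : 0 < x) (y : ℝ) : LT g (fun i => r i ^ x) φ y = LT g r φ (x * y : ℝ) := by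
  simp only [LT, ch, EE_pow (hr _) hx, Complex.ofReal_mul]

lemma side2 {α c σ M B ε x0 : ℝ} (hD : Dom F α c σ) (hM : 0 < M) (hx0 : 0 < x0)
    (hε : ε ≤ c * exp (-α * σ) / 32) (hε2 : ε ≤ exp (-x0 / 4) / 40)
    (hF : ∀ x : ℝ, c * exp (-α * x) ≤ ‖F x‖) (hF1 : ∀ x : ℝ, exp (-x / 4) ≤ ‖F x‖)
    (b0 : ∀ x, x0 ≤ x → B * exp (-x) ≤ exp (-x / 4) / 2)
    (b1 : B * exp (-σ) ≤ c * exp (-α * σ) / 8) {K K2 : Gm → ℂ}
    (hK : Summable fun γ => ‖K γ‖) (hK2 : Summable fun γ => ‖K2 γ‖) (hb : ∑' γ, ‖K2 γ‖ ≤ M)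
    (hq : ∀ φ, Adm φ → ∀ z : ℂ, 0 ≤ z.re →
      ‖LT K rr φ z * LT K2 rr φ z - F z‖ ≤ 4 * ε + B * exp (-z.re))
    (hp : ∀ γ, K γ ≠ 0 → Pos γ) {T : Finset Gm} (hT : ∀ γ ∈ T, ∃ q : ℚ, γ = pi fun _ => q)
    (hT2 : tl K T ≤ exp (-x0 / 4) / (100 * M)) {φ0 : Gm → ℝ} (h0 : Adm φ0)
    (h1 : ∃ ν > 0, ∀ z : ℂ, σ ≤ z.re → ν ≤ ‖LT K rr φ0 z‖) : False := by
  have hs := hD.s0
  have c0 := mul_pos hD.c0 (exp_pos (-α * σ))
  have low : ∀ φ, Adm φ → ∀ z : ℂ, 0 ≤ z.re → ∀ m : ℝ, m + (4 * ε + B * exp (-z.re)) ≤ ‖F z‖ →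
      m / M ≤ ‖LT K rr φ z‖ := fun φ hφ z hz m hm => by
    have a1 := hq φ hφ z hz
    have a2 := norm_sub_norm_le (F z) (LT K rr φ z * LT K2 rr φ z)
    rw [norm_sub_rev, norm_mul] at a2
    have a3 := mul_le_mul_of_nonneg_left ((LT_le hK2 rr_mem φ hz).trans hb)
      (norm_nonneg (LT K rr φ z))
    rw [div_le_iff₀ hM]
    linarith
  refine wind (r := fun γ => rr γ ^ x0) hK (fun γ => ⟨rpow_nonneg (rr_mem γ).1 _,
    rpow_le_one (rr_mem γ).1 (rr_mem γ).2 hx0.le⟩) T (by positivity)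
    (show 0 < c * exp (-α * σ) / 4 / M by positivity) hT2 fun S => ?_
  obtain ⟨ψ, p1, p2⟩ := exists_psi S
  refine ⟨ψ, fun γ hγ => ?_, fun γ hγ h2 h3 => p2 γ hγ (hp γ h2) ?_, fun t y hy => ?_, fun t => ?_⟩
  · obtain ⟨q, rfl⟩ := hT γ hγ
    rw [pi_const, map_smul, p1, smul_zero]
  · by_contra h4
    exact (rpow_lt_one (rr_mem γ).1 (lt_of_le_of_ne (rr_mem γ).2 h4) hx0).ne h3
  · have a1 := adm_of ψ p1 t
    rw [LT_pow _ (fun γ => (rr_mem γ).1) _ hx0]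
    have hx : x0 ≤ x0 * y := le_mul_of_one_le_right hx0.le hy
    generalize x0 * y = x at hx ⊢
    rcases le_total x σ with h | h
    · exact low _ a1 x (by simp; linarith) _ (by
        rw [Complex.ofReal_re]; linarith [hF x, hD.mono h, hF1 x, b0 x hx])
    · have a2 := a1.lin h0 (-1)
      have := propag (K := fun s => LT K rr fun γ => φ0 γ + s * (t * ψ γ + -1 * φ0 γ))
        (σ := σ) (μ := c * exp (-α * σ) / 4 / M) (by linarith) (by positivity)
        (fun s => LT_diff hK rr_mem _) (LT_unif hK rr_mem _ _)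
        (fun s z hz => low _ (h0.lin a2 s) z (by linarith) _ (by
          have := (hD.bd hz.ge).1
          rw [hz] at this ⊢
          linarith)) (by simpa using h1) x (by simpa using h)
      simpa using this
  · rw [LT_pow _ (fun γ => (rr_mem γ).1) _ hx0, mul_one]
    have := low _ (adm_of ψ p1 t) x0 (by simp; linarith) (4 / 100 * exp (-x0 / 4)) (by
      rw [Complex.ofReal_re]; linarith [hF1 x0, b0 x0 le_rfl, exp_pos (-x0 / 4)])
    refine le_trans (le_of_eq ?_) this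
    field_simp

lemma conv_bd {g h : ℚ → ℂ} (hg : Summable fun q => ‖g q‖) (hh : Summable fun q => ‖h q‖) :
    (Summable fun q => ‖∑' r, g r * h (q - r)‖) ∧
      ∑' q, ‖∑' r, g r * h (q - r)‖ ≤ (∑' q, ‖g q‖) * ∑' q, ‖h q‖ := by
  let E : ℚ × ℚ ≃ ℚ × ℚ := (Equiv.prodComm _ _).trans
    (Equiv.prodShear (Equiv.refl _) fun β => Equiv.subRight β)
  have h1 := hg.mul_of_nonneg hh (fun _ => norm_nonneg _) fun _ => norm_nonneg _
  have h2 : Summable fun p : ℚ × ℚ => ‖g p.2‖ * ‖h (p.1 - p.2)‖ := E.summable_iff.2 h1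
  have h3 : ∀ q, ‖∑' r, g r * h (q - r)‖ ≤ ∑' r, ‖g r‖ * ‖h (q - r)‖ := fun q =>
    tsum_of_norm_bounded (h2.prod_factor q).hasSum fun r => (norm_mul _ _).le
  have h4 := h2.prod.of_nonneg_of_le (fun _ => norm_nonneg _) h3
  refine ⟨h4, (h4.tsum_le_tsum h3 h2.prod).trans (le_of_eq ?_)⟩
  rw [hg.tsum_mul_tsum hh h1, ← E.tsum_eq, ← h2.tsum_prod]
  rfl

lemma LT_far {ρ : ℕ → ℚ → ℂ} {B : ℝ} (hρ : Bd ρ B) (h0 : ∀ N q, q ≤ 1 → ρ N q = 0) (φ : Gm → ℝ)
    {z : ℂ} (hz : 0 ≤ z.re) : ‖LT (hat ρ) rr φ z‖ ≤ B * exp (-z.re) := by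
  refine (tsum_of_norm_bounded (hρ.summ.hasSum.mul_right (exp (-z.re))) fun γ => ?_).trans
    (mul_le_mul_of_nonneg_right hρ.tsum_le (exp_pos _).le)
  by_cases h : hat ρ γ = 0
  · simp [h]
  have h1 : ∀ᶠ N in U, 1 < γ.1 N := by
    by_contra hc
    refine h (tendsto_nhds_unique (hρ.lim γ) (tendsto_const_nhds.congr' ?_))
    filter_upwards [Ultrafilter.eventually_not.2 hc] with N hN using (h0 N _ (not_lt.1 hN)).symm
  have h2 : rr γ ≤ exp (-1) := le_of_tendsto (rr_lim γ) (h1.mono fun N hN => by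
    have : (1 : ℝ) < γ.1 N := by exact_mod_cast hN
    exact exp_le_exp.2 (by rw [max_eq_right (by linarith)]; linarith))
  rw [ch, norm_mul, norm_mul, Complex.norm_exp_ofReal_mul_I, one_mul]
  refine mul_le_mul_of_nonneg_left ?_ (norm_nonneg _)
  unfold EE
  split_ifs with h3
  · rw [norm_zero]; positivity
  · have h4 := (log_le_iff_le_exp (lt_of_le_of_ne (rr_mem γ).1 (Ne.symm h3))).2 h2
    rw [Complex.norm_exp, exp_le_exp]
    simp only [Complex.mul_re, Complex.ofReal_re, Complex.ofReal_im, mul_zero, sub_zero]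
    nlinarith

end Pool.Agent.Lib.helper15.Fac
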