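import Mathlib
import Pool.Agent.Lib.helper15.Fac6

open Metric Real Filter Topology

namespace Pool.Agent.Lib.helper15.Fac

noncomputable def x0 (M : ℝ) : ℝ := 3 * M ^ 2
noncomputable def dl (M : ℝ) : ℝ := exp (-x0 M / 4) / (100 * M)

lemma ev_small {B κ a b : ℝ} (hκ : 0 < κ) (hab : a < b) :
    ∀ᶠ σ : ℝ in atTop, ∀ x, σ ≤ x → B * exp (-b * x) ≤ κ * exp (-a * x) := by
  have hl : Tendsto (fun x : ℝ => B * exp ((a - b) * x)) atTop (𝓝 (B * 0)) :=
    (tendsto_exp_atBot.comp (tendsto_id.const_mul_atTop_of_neg (by linarith))).const_mul B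
  refine eventually_forall_ge_atTop.2 ?_
  filter_upwards [hl.eventually (ge_mem_nhds (show B * 0 < κ by simpa using hκ))] with x hx
  have := mul_le_mul_of_nonneg_right hx (exp_pos (-a * x)).le
  rwa [mul_assoc, ← exp_add, show (a - b) * x + -a * x = -b * x by ring] at this

theorem lim_false2 {S : Finset ℚ} {w : ℚ → ℝ} (hw : ∀ q ∈ S, 0 < q ∧ 0 < w q)
    (h1 : 1 / 4 ∈ S) (h2 : 1 ≤ w (1 / 4)) {M : ℝ} (hM : 0 < M) : ∃ ε0 > 0, ∀ ε : ℝ, 0 < ε → ε ≤ ε0 →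
    ∀ (T : Finset ℚ) (g h e ρ : ℕ → ℚ → ℂ), Bd g M → Bd h M → Bd ρ (M * M) →
    (∀ N q, q ≤ 0 → g N q = 0) → (∀ N q, q ≤ 0 → h N q = 0) → (∀ N q, q ≤ 1 → ρ N q = 0) →
    (∀ N, tl (g N) T ≤ dl M) → (∀ N, tl (h N) T ≤ dl M) → (∀ N q, ‖e N q‖ ≤ 1 / (N + 1)) →
    ¬ ∀ N q, at0 S (fun q => w q) id q + at0 Finset.univ (fun _ : Fin 4 => ε)
      (fun j => pp (j + 1) N) q + e N q + ρ N q = ∑' r, g N r * h N (q - r) := by
  obtain ⟨α, hα, hα4, hev⟩ := exists_dom2 S w hw h1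
  have a4 : (α : ℝ) ≤ 1 / 4 := by
    have : ((α : ℚ) : ℝ) ≤ ((1 / 4 : ℚ) : ℝ) := Rat.cast_le.2 hα4
    simpa using this
  have a0 : (0 : ℝ) < α := by exact_mod_cast (hw α hα).1
  have c0 := (hw α hα).2
  obtain ⟨σ, ⟨hD, hder⟩, s2, b1, b2, b3⟩ := (hev.and ((eventually_ge_atTop 2).and
    ((ev_small (B := M * M) (κ := w α / 8) (a := α) (b := 1) (by positivity) (by linarith)).and
    ((ev_small (B := M * M * exp 1) (κ := α * w α / 4) (a := α) (b := 1) (by positivity)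
      (by linarith)).and (ev_small (B := 3 * (M * M)) (κ := (α * w α / (16 * M)) ^ 2)
      (a := 2 * α) (b := 1) (by positivity) (by linarith)))))).exists
  have c1 := mul_pos c0 (exp_pos (-α * σ))
  refine ⟨min (w α * exp (-α * σ) / 32) (exp (-x0 M / 4) / 40), by positivity,
    fun ε hε0 hεm T g h e ρ hg hh hρ' g0 h0 ρ0 gT hT he hc => ?_⟩
  obtain ⟨hε, hε2⟩ := le_min_iff.1 hεm
  have l0 : Tendsto (fun N : ℕ => 1 / ((N : ℝ) + 1)) U (𝓝 0) :=
    tendsto_one_div_add_atTop_nhds_zero_nat.mono_left Nat.hyperfilter_le_atTop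
  have key : ∀ φ, Adm φ → ∀ z : ℂ, 0 ≤ z.re → LT (hat g) rr φ z * LT (hat h) rr φ z =
      FF S w z + ε * ∑ j : Fin 4, Complex.exp (φ (pi (pp (j + 1))) * Complex.I) +
        LT (hat ρ) rr φ z := by
    intro φ hφ z hz
    rw [LT_mul (fun γ => (((at0_lim S (fun q => w q) (fun q _ => q) γ).add (at0_lim Finset.univ
      (fun _ : Fin 4 => ε) (fun j => pp (j + 1)) γ)).add
      (squeeze_zero_norm (fun N => he N _) l0)).add (hρ'.lim γ)) hg hh hM hc g0 h0 hφ.add hz, LT]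
    simp only [add_zero, add_mul]
    rw [(((at0_sum _ _ _ _).add (at0_sum _ _ _ _)).add (Summable.of_norm_bounded hρ'.summ
      fun i => ch_le rr_mem φ hz _ i).hasSum).tsum_eq, FF, Finset.mul_sum]
    congr 2
    · refine Finset.sum_congr rfl fun q hq => ?_
      have : (0 : ℝ) < q := by exact_mod_cast (hw q hq).1
      rw [ch, hφ.cst, rr_pi this.le tendsto_const_nhds, EE, if_neg (exp_pos _).ne', log_exp]
      simp [mul_comm]
    · refine Finset.sum_congr rfl fun j _ => ?_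
      have := l0.pow (j + 1)
      rw [zero_pow (by omega)] at this
      rw [ch, rr_pi le_rfl (by simpa [pp] using this), EE, if_neg (exp_pos _).ne', log_exp]
      simp
  have hq : ∀ φ, Adm φ → ∀ z : ℂ, 0 ≤ z.re → ‖LT (hat g) rr φ z * LT (hat h) rr φ z - FF S w z‖ ≤
      4 * ε + M * M * exp (-z.re) := fun φ hφ z hz => by
    rw [key φ hφ z hz, add_assoc, add_sub_cancel_left]
    refine (norm_add_le _ _).trans (add_le_add ?_ (LT_far hρ' ρ0 φ hz))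
    rw [norm_mul, Complex.norm_real, norm_of_nonneg hε0.le, mul_comm]
    refine mul_le_mul_of_nonneg_right ((norm_sum_le _ _).trans ?_) hε0.le
    simp [Complex.norm_exp_ofReal_mul_I]
  obtain ⟨ρ1, hρ⟩ := exists_rho
  have hA : ∀ i : Fin 5, i ≠ 0 → Adm fun γ => (ρ1 γ i : ℝ) := fun i hi => by
    have := adm_of ((LinearMap.proj i).comp ρ1) (by simpa [hi] using congrFun (hρ 0) i) 1
    simpa using this
  let Φ : ℝ × ℝ → Gm → ℝ := fun θ γ => θ.1 * (ρ1 γ 1 - ρ1 γ 2) + θ.2 * (ρ1 γ 3 - ρ1 γ 4) +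
    π / 2 * (ρ1 γ 3 + ρ1 γ 4)
  have hΦ : ∀ θ, Adm (Φ θ) := fun θ =>
    ⟨fun β γ => by simp only [Φ, map_add, Pi.add_apply]; push_cast; ring, fun q => by
      simp only [Φ, (hA 1 (by decide)).cst, (hA 2 (by decide)).cst, (hA 3 (by decide)).cst,
        (hA 4 (by decide)).cst]; simp⟩
  have b1' : ∀ x, σ ≤ x → M * M * exp (-x) ≤ w α * exp (-α * x) / 8 := fun x hx => by
    have := b1 x hx
    rw [neg_one_mul] at this
    linarith
  obtain ⟨θ, hθ⟩ := dich2 hD s2 (fun z => (FF_der S w z).differentiableAt) hder hM hε0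
    (mul_pos hM hM) (by linarith) (LT_fam hg.summ rr_mem hg.tsum_le _ _ _)
    (LT_fam hh.summ rr_mem hh.tsum_le _ _ _) b1' (fun x hx => by
      have := b2 x hx
      rw [mul_assoc, ← exp_add, show 1 + -1 * x = -(x - 1) by ring] at this
      linarith) (fun x hx => by
      have := b3 x hx
      rw [neg_one_mul, show -(2 * α) * x = -α * x + -α * x by ring, exp_add] at this
      calc _ = 3 * (M * M) * exp (-x) := by ring
        _ ≤ _ := this
        _ = _ := by ring) (G := fun θ => LT (hat g) rr (Φ θ))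
    (H := fun θ => LT (hat h) rr (Φ θ)) fun θ z hz => by
      have : ∑ j : Fin 4, Complex.exp (Φ θ (pi (pp (j + 1))) * Complex.I) = YY θ := by
        have r1 : ρ1 (pi (pp 1)) = Pi.single 1 1 := hρ 1
        have r2 : ρ1 (pi (pp 2)) = Pi.single 2 1 := hρ 2
        have r3 : ρ1 (pi (pp 3)) = Pi.single 3 1 := hρ 3
        have r4 : ρ1 (pi (pp 4)) = Pi.single 4 1 := hρ 4
        simp [Fin.sum_univ_four, Φ, r1, r2, r3, r4, YY, Complex.two_cos, add_mul, Complex.exp_add]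
        ring
      rw [key _ (hΦ θ) z hz.le, this, sub_sub, add_sub_cancel_left]
      exact LT_far hρ' ρ0 _ hz.le
  have hF := FF_ge S w hw hα
  have hF1 : ∀ x : ℝ, exp (-x / 4) ≤ ‖FF S w x‖ := fun x => by
    have := FF_ge S w hw h1 x
    rw [show -((1 / 4 : ℚ) : ℝ) * x = -x / 4 by push_cast; ring] at this
    nlinarith [exp_pos (-x / 4)]
  have hx0 : 0 < x0 M := by unfold x0; positivity
  have b0 : ∀ x, x0 M ≤ x → M * M * exp (-x) ≤ exp (-x / 4) / 2 := fun x hx => by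
    have a1 := add_one_le_exp (3 / 4 * x)
    have a2 : exp (-x / 4) = exp (3 / 4 * x) * exp (-x) := by rw [← exp_add]; congr 1; ring
    unfold x0 at hx
    rw [a2]
    nlinarith [exp_pos (-x)]
  rcases hθ with hθ | hθ
  · obtain ⟨T', t1, t2⟩ := hat_tl hg T gT
    exact side2 hD hM hx0 hε hε2 hF hF1 b0 (b1' σ le_rfl) hg.summ hh.summ hh.tsum_le hq
      (fun γ => hg.pos g0) t1 t2 (hΦ θ) hθ
  · obtain ⟨T', t1, t2⟩ := hat_tl hh T hT
    exact side2 hD hM hx0 hε hε2 hF hF1 b0 (b1' σ le_rfl) hh.summ hg.summ hg.tsum_le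
      (fun φ hφ z hz => by rw [mul_comm]; exact hq φ hφ z hz) (fun γ => hh.pos h0) t1 t2 (hΦ θ) hθ

def Fc2 (f : ℚ → ℂ) (T : Finset ℚ) (M : ℝ) : Prop :=
  ∃ g h : ℚ → ℂ, (∀ q, q ≤ 0 → g q = 0) ∧ (∀ q, q ≤ 0 → h q = 0) ∧ (Summable fun q => ‖g q‖) ∧
    (Summable fun q => ‖h q‖) ∧ ∑' q, ‖g q‖ ≤ M ∧ ∑' q, ‖h q‖ ≤ M ∧ tl g T ≤ dl M ∧
    tl h T ≤ dl M ∧ ∀ q, q ≤ 1 → f q = ∑' r, g r * h (q - r)

def AB : Set LQ := {f | ∃ (S : Finset ℚ) (w : ℚ → ℝ), (∀ q ∈ S, 0 < q ∧ 0 < w q) ∧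
  (∀ q ∈ S, q ≤ 1) ∧ 1 / 4 ∈ S ∧ 1 ≤ w (1 / 4) ∧ ∀ q, f q = if q ∈ S then (w q : ℂ) else 0}

lemma AB_add {f : LQ} (hf : f ∈ AB) {ε : ℝ} (hε : 0 < ε) {p : ℚ} (hp : 0 < p) (hp1 : p ≤ 1) :
    f + lp.single 1 p (ε : ℂ) ∈ AB := by
  obtain ⟨S, w, h1, h5, h2, h3, h4⟩ := hf
  refine ⟨insert p S, fun q => (if q ∈ S then w q else 0) + if q = p then ε else 0,
    fun q hq => ?_, by simpa [hp1] using h5, Finset.mem_insert_of_mem h2, ?_, fun q => ?_⟩
  · by_cases a : q ∈ S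
    · refine ⟨(h1 q a).1, ?_⟩
      simp only [a, if_true]
      split_ifs <;> linarith [(h1 q a).2]
    · have : q = p := by simpa [a] using hq
      subst this
      simp [a, hp, hε]
  · simp only [h2, if_true]
    split_ifs <;> linarith
  · rw [lp.coeFn_add, Pi.add_apply, h4, lp.single_apply, Pi.single_apply]
    by_cases a : q ∈ S <;> by_cases b : q = p <;> simp [a, b]
    all_goals subst b; simp [a]

lemma pp_le (j N : ℕ) : pp j N ≤ 1 :=
  pow_le_one₀ (by positivity) (div_le_one_of_le₀ (by simp) (by positivity))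

lemma key2 {f : LQ} (hf : f ∈ AB) (T : Finset ℚ) {M η : ℝ} (hM : 0 < M) (hη : 0 < η) :
    ∃ f1 ∈ AB, ‖f1 - f‖ < η ∧ ∃ τ > 0, ∀ f' : LQ, ‖f' - f1‖ < τ → ¬ Fc2 f' T M := by
  by_contra hc
  push Not at hc
  obtain ⟨S, w, h1, h5, h2, h3, h4⟩ := id hf
  obtain ⟨ε0, p0, hl⟩ := lim_false2 h1 h2 h3 hM
  set ε := min ε0 (η / 8) with hε
  have e0 : 0 < ε := by positivity
  have e1 : ε ≤ η / 8 := min_le_right _ _
  let Y : ℕ → LQ := fun N => ∑ j : Fin 4, lp.single 1 (pp (j + 1) N) (ε : ℂ)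
  have y1 : ∀ N, f + Y N ∈ AB := fun N => by
    simp only [Y, Fin.sum_univ_four, ← add_assoc]
    exact AB_add (AB_add (AB_add (AB_add hf e0 (pp_pos _ _) (pp_le _ _)) e0 (pp_pos _ _)
      (pp_le _ _)) e0 (pp_pos _ _) (pp_le _ _)) e0 (pp_pos _ _) (pp_le _ _)
  have y2 : ∀ N, ‖f + Y N - f‖ < η := fun N => by
    rw [add_sub_cancel_left]
    refine (norm_sum_le _ _).trans_lt ?_
    simp only [lp.norm_single (p := 1) (by simp), Complex.norm_real, norm_of_nonneg e0.le]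
    simp
    linarith
  choose f' a1 g h b1 b2 b3 b4 b5 b6 b7 b8 b9 using fun N : ℕ =>
    hc _ (y1 N) (y2 N) (1 / (N + 1)) (by positivity)
  have hb : ∀ N q, ‖if q ≤ 1 then 0 else ∑' r, g N r * h N (q - r)‖ ≤
      ‖∑' r, g N r * h N (q - r)‖ := fun N q => by split_ifs <;> simp
  have hs := fun N => (conv_bd (b3 N) (b4 N)).1.of_nonneg_of_le (fun _ => norm_nonneg _) (hb N)
  refine hl ε e0 (min_le_left _ _) T g h
    (fun N q => if q ≤ 1 then (f' N - (f + Y N)) q else 0)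
    (fun N q => if q ≤ 1 then 0 else ∑' r, g N r * h N (q - r)) ⟨b3, b5⟩ ⟨b4, b6⟩
    ⟨hs, fun N => (((hs N).tsum_le_tsum (hb N) (conv_bd (b3 N) (b4 N)).1).trans
      (conv_bd (b3 N) (b4 N)).2).trans (mul_le_mul (b5 N) (b6 N)
      (tsum_nonneg fun _ => norm_nonneg _) hM.le)⟩ b1 b2 (fun N q hq => if_pos hq) b7 b8
    (fun N q => ?_) fun N q => ?_
  · split_ifs
    · exact (lp.norm_apply_le_norm (by simp) _ q).trans (a1 N).le
    · rw [norm_zero]; positivity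
  have e2 : Y N q = at0 Finset.univ (fun _ : Fin 4 => (ε : ℂ)) (fun j => pp (j + 1) N) q := by
    simp only [Y, at0, lp.coeFn_sum, Finset.sum_apply, lp.single_apply, Pi.single_apply]
  have e3 : at0 S (fun q => (w q : ℂ)) id q = f q := by simp [at0, h4]
  rw [← e2, e3]
  split_ifs with hq
  · rw [← b9 N q hq, lp.coeFn_sub, lp.coeFn_add, Pi.sub_apply, Pi.add_apply]
    ring
  · obtain ⟨S', w', -, c1, -, -, c2⟩ := y1 N
    have := c2 q
    rw [if_neg fun h => hq (c1 q h), lp.coeFn_add, Pi.add_apply] at this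
    rw [this]; ring

theorem no_fact2 : ∃ a : ℚ → ℂ, (∀ q, q ≤ 0 → a q = 0) ∧ (Summable fun q => ‖a q‖) ∧
    ∀ g h : ℚ → ℂ, (∀ q, q ≤ 0 → g q = 0) → (∀ q, q ≤ 0 → h q = 0) → (Summable fun q => ‖g q‖) →
      (Summable fun q => ‖h q‖) → ¬ ∀ q, q ≤ 1 → a q = ∑' r, g r * h (q - r) := by
  have : CompleteSpace (closure AB) := isClosed_closure.completeSpace_coe
  have : Nonempty (closure AB) := ⟨⟨lp.single 1 (1 / 4) 1, subset_closure ⟨{1 / 4}, fun _ => 1,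
    by simp, by simp; norm_num, by simp, le_rfl,
    fun q => by simp [lp.single_apply, Pi.single_apply]⟩⟩⟩
  let V : Finset ℚ × ℕ → Set (closure AB) := fun i =>
    {x | ∃ τ > 0, ∀ f' : LQ, ‖f' - x.1‖ < τ → ¬ Fc2 f' i.1 (i.2 + 1)}
  have h1 : ∀ i, IsOpen (V i) := fun i => by
    refine Metric.isOpen_iff.2 fun x ⟨τ, hτ, h⟩ => ⟨τ / 2, half_pos hτ, fun y hy =>
      ⟨τ / 2, half_pos hτ, fun f' hf' => h f' ?_⟩⟩
    rw [mem_ball, Subtype.dist_eq, dist_eq_norm] at hy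
    linarith [norm_sub_le_norm_sub_add_norm_sub f' y.1 x.1]
  have h2 : ∀ i, Dense (V i) := fun i => by
    rw [Metric.dense_iff]
    intro b r hr
    obtain ⟨b1, hb1, a1⟩ := Metric.mem_closure_iff.1 b.2 (r / 2) (by positivity)
    obtain ⟨b2, hb2, a2, a3⟩ := key2 hb1 i.1 (M := i.2 + 1) (by positivity) (half_pos hr)
    refine ⟨⟨b2, subset_closure hb2⟩, ?_, a3⟩
    rw [mem_ball, Subtype.dist_eq]
    have h3 := dist_triangle b2 b1 b.1
    rw [dist_eq_norm b2 b1, dist_comm b1] at h3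
    linarith
  obtain ⟨x, hx⟩ := (dense_iInter_of_isOpen h1 h2).nonempty
  refine ⟨x.1, fun q hq => ?_, by simpa using (lp.memℓp x.1).summable (by simp),
    fun g h g0 h0 gs hs hc => ?_⟩
  · refine closure_minimal (t := {f : LQ | f q = 0}) ?_ (isClosed_eq
      (lp.evalCLM (𝕜 := ℂ) (fun _ : ℚ => ℂ) 1 q).continuous continuous_const) x.2
    rintro f ⟨S, w, a1, -, -, -, a2⟩
    exact (a2 q).trans (if_neg fun h => absurd (a1 q h).1 (not_lt.2 hq))
  · obtain ⟨n, hn⟩ := exists_nat_ge (max (∑' q, ‖g q‖) (∑' q, ‖h q‖))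
    have hδ : (0 : ℝ) < dl (n + 1) := by unfold dl; positivity
    obtain ⟨T, t1, t2⟩ := (((tl_lim gs).eventually (ge_mem_nhds hδ)).and
      ((tl_lim hs).eventually (ge_mem_nhds hδ))).exists
    obtain ⟨τ, hτ, a⟩ := Set.mem_iInter.1 hx (T, n)
    obtain ⟨n1, n2⟩ := max_le_iff.1 hn
    exact a x.1 (by simpa using hτ) ⟨g, h, g0, h0, gs, hs, by linarith, by linarith, t1, t2, hc⟩

end Pool.Agent.Lib.helper15.Fac
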