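import Mathlib

/-! A limit construction of factorized groups `G = AB`. -/

set_option autoImplicit false

namespace Pool.Agent.Lib.helper15.Fact

open Function RegularWreathProduct

/-- functoriality of the wreath product in the base -/
def wmap {D E Q : Type} [Group D] [Group E] [Group Q] (f : D →* E) : D ≀ᵣ Q →* E ≀ᵣ Q where
  toFun x := ⟨fun q => f (x.left q), x.right⟩
  map_one' := by ext <;> simp
  map_mul' a b := by ext <;> simp

@[simp] lemma wmap_left {D E Q : Type} [Group D] [Group E] [Group Q] (f : D →* E) (x : D ≀ᵣ Q)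
    (q : Q) : (wmap f x).left q = f (x.left q) := rfl
@[simp] lemma wmap_right {D E Q : Type} [Group D] [Group E] [Group Q] (f : D →* E) (x : D ≀ᵣ Q) :
    (wmap f x).right = x.right := rfl

lemma wmap_inj {D E Q : Type} [Group D] [Group E] [Group Q] (f : D →* E) (hf : Injective f) :
    Injective (wmap (Q := Q) f) := by
  intro a b h
  ext q
  · exact hf (congrArg (fun x : E ≀ᵣ Q => x.left q) h)
  · exact congrArg (fun x : E ≀ᵣ Q => x.right) h

/-- the base group -/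
def wbase (D Q : Type) [Group D] [Group Q] : (Q → D) →* D ≀ᵣ Q where
  toFun f := ⟨f, 1⟩
  map_one' := rfl
  map_mul' a b := by ext <;> simp

@[simp] lemma wbase_left {D Q : Type} [Group D] [Group Q] (f : Q → D) : (wbase D Q f).left = f := rfl
@[simp] lemma wbase_right {D Q : Type} [Group D] [Group Q] (f : Q → D) : (wbase D Q f).right = 1 := rfl

lemma wbase_inj (D Q : Type) [Group D] [Group Q] : Injective (wbase D Q) :=
  fun _ _ h => congrArg RegularWreathProduct.left h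

lemma wbase_range (D Q : Type) [Group D] [Group Q] :
    (wbase D Q).range = (rightHom : D ≀ᵣ Q →* Q).ker := by
  ext x
  constructor
  · rintro ⟨f, rfl⟩; rfl
  · intro h; exact ⟨x.left, by ext <;> simp [show x.right = 1 from h]⟩

lemma wr_solvable (D Q : Type) [Group D] [Group Q] (hD : Group.IsSolvable D) (hQ : Group.IsSolvable Q) :
    Group.IsSolvable (D ≀ᵣ Q) := by
  have : Group.IsSolvable (Q → D) := by
    obtain ⟨n, hn⟩ := hD.solvable
    refine ⟨n, ?_⟩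
    rw [eq_bot_iff]
    intro x hx
    rw [Subgroup.mem_bot]
    funext q
    have := map_derivedSeries_le_derivedSeries (Pi.evalMonoidHom (fun _ : Q => D) q) n ⟨x, hx, rfl⟩
    rwa [hn, Subgroup.mem_bot] at this
  exact Group.isSolvable_of_ker_le_range (wbase D Q) rightHom (wbase_range D Q).ge

lemma wr_pow {D Q : Type} [Group D] [Group Q] {m n : ℕ} (hD : ∀ x : D, x ^ m = 1)
    (hQ : ∀ x : Q, x ^ n = 1) (x : D ≀ᵣ Q) : x ^ (n * m) = 1 := by
  have : x ^ n ∈ (wbase D Q).range := by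
    rw [wbase_range, MonoidHom.mem_ker, map_pow, hQ]
  obtain ⟨f, hf⟩ := this
  rw [pow_mul, ← hf, ← map_pow]
  have : f ^ m = 1 := funext fun q => hD _
  rw [this, map_one]

lemma wr_pgroup {p : ℕ} {D Q : Type} [Group D] [Group Q] [Finite D] [Finite Q] [Fact p.Prime]
    (hD : IsPGroup p D) (hQ : IsPGroup p Q) : IsPGroup p (D ≀ᵣ Q) := by
  obtain ⟨a, ha⟩ := IsPGroup.iff_card.1 hD
  obtain ⟨b, hb⟩ := IsPGroup.iff_card.1 hQ
  refine IsPGroup.of_card (n := a * Nat.card Q + b) ?_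
  rw [RegularWreathProduct.card, ha, pow_add, pow_mul, ← hb]

lemma prod_pgroup {p : ℕ} {D Q : Type} [Group D] [Group Q]
    (hD : IsPGroup p D) (hQ : IsPGroup p Q) : IsPGroup p (D × Q) := by
  intro x
  obtain ⟨a, ha⟩ := hD x.1
  obtain ⟨b, hb⟩ := hQ x.2
  refine ⟨a + b, Prod.ext ?_ ?_⟩
  · simp [pow_add, pow_mul, ha]
  · simp [pow_add, pow_mul', hb]

instance {D Q : Type} [Group D] [Group Q] [Countable D] [Finite Q] : Countable (D ≀ᵣ Q) :=
  Countable.of_equiv _ (equivProd D Q).symm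

/-- Kaloujnine-Krasner map for a set-theoretic section -/
def kk {G N Q : Type} [Group G] [Group N] [Group Q] (π : G →* Q) (σ : Q → G) (ι : π.ker →* N)
    (hσ : ∀ q, π (σ q) = q) : G →* N ≀ᵣ Q where
  toFun g := ⟨fun x => ι ⟨(σ x)⁻¹ * g * σ ((π g)⁻¹ * x), by simp [MonoidHom.mem_ker, hσ]⟩, π g⟩
  map_one' := by
    ext x
    · simp only [one_left, Pi.one_apply]
      rw [← map_one ι]; congr 1; ext; simp
    · simp
  map_mul' a b := by
    ext x
    · simp only [mul_left, Pi.mul_apply]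
      rw [← map_mul ι]; congr 1; ext; simp [mul_assoc]
    · simp

@[simp] lemma kk_left {G N Q : Type} [Group G] [Group N] [Group Q] (π : G →* Q) (σ : Q → G)
    (ι : π.ker →* N) (hσ : ∀ q, π (σ q) = q) (g : G) (x : Q) : (kk π σ ι hσ g).left x =
    ι ⟨(σ x)⁻¹ * g * σ ((π g)⁻¹ * x), by simp [MonoidHom.mem_ker, hσ]⟩ := rfl

@[simp] lemma kk_right {G N Q : Type} [Group G] [Group N] [Group Q] (π : G →* Q) (σ : Q → G)
    (ι : π.ker →* N) (hσ : ∀ q, π (σ q) = q) (g : G) : (kk π σ ι hσ g).right = π g := rfl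

lemma kk_inj {G N Q : Type} [Group G] [Group N] [Group Q] (π : G →* Q) (σ : Q → G) (ι : π.ker →* N)
    (hσ : ∀ q, π (σ q) = q) (hι : Injective ι) : Injective (kk π σ ι hσ) := by
  rw [injective_iff_map_eq_one]
  intro g hg
  have h1 : π g = 1 := congrArg RegularWreathProduct.right hg
  have h2 := congrArg (fun x : N ≀ᵣ Q => x.left 1) hg
  have h3 := congrArg Subtype.val ((injective_iff_map_eq_one ι).1 hι _ h2)
  simp only [h1, inv_one, mul_one, Subgroup.coe_one] at h3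
  have : g = σ 1 * ((σ 1)⁻¹ * g * σ 1) * (σ 1)⁻¹ := by group
  rw [this, h3]; simp

structure St : Type 1 where
  G : Type
  Q : Type
  [iG : Group G]
  [iQ : Group Q]
  π : G →* Q
  α : Q →* G
  β : Q →* G
  hα : ∀ q, π (α q) = q
  hβ : ∀ q, π (β q) = q

attribute [instance] St.iG St.iQ

structure Em (s t : St) where
  e : s.G →* t.G
  κ : s.Q →* t.Q
  inj : Injective e
  hα : ∀ q, e (s.α q) = t.α (κ q)
  hβ : ∀ q, e (s.β q) = t.β (κ q)

def Em.refl (s : St) : Em s s := ⟨MonoidHom.id _, MonoidHom.id _, injective_id, fun _ => rfl, fun _ => rfl⟩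

def Em.comp {s t u : St} (f : Em t u) (g : Em s t) : Em s u :=
  ⟨f.e.comp g.e, f.κ.comp g.κ, f.inj.comp g.inj, fun q => by simp [g.hα, f.hα],
    fun q => by simp [g.hβ, f.hβ]⟩

section Step
variable (s : St) {T : Type} [Group T] (P1 P2 : Subgroup T) (ι : s.G →* T)

def r1 : P1 × P2 →* T × P1 × P2 := (P1.subtype.comp (MonoidHom.fst _ _)).prod (MonoidHom.id _)
def r2 : P1 × P2 →* T × P1 × P2 := (P2.subtype.comp (MonoidHom.snd _ _)).prod (MonoidHom.id _)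

def ww : (T × P1 × P2) ≀ᵣ s.Q := ⟨fun x => (ι ((s.β x)⁻¹ * s.α x), 1), 1⟩

def nxt : St where
  G := (T × P1 × P2) ≀ᵣ s.Q
  Q := (P1 × P2) ≀ᵣ s.Q
  π := wmap (MonoidHom.snd _ _)
  α := (MulAut.conj (ww s P1 P2 ι)).toMonoidHom.comp (wmap (r1 P1 P2))
  β := wmap (r2 P1 P2)
  hα q := by
    have : wmap (MonoidHom.snd T (P1 × P2)) (ww s P1 P2 ι) = 1 := by ext <;> simp [ww]
    simp only [MonoidHom.comp_apply, MulEquiv.coe_toMonoidHom, MulAut.conj_apply, map_mul, map_inv,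
      this, one_mul, inv_one, mul_one]
    rfl
  hβ q := rfl

def nem (hι : Injective ι) : Em s (nxt s P1 P2 ι) where
  e := kk s.π s.β ((MonoidHom.inl T (P1 × P2)).comp (ι.comp s.π.ker.subtype)) s.hβ
  κ := inl
  inj := kk_inj _ _ _ _ ((Prod.mk_left_injective 1).comp (hι.comp Subtype.val_injective))
  hα q := by
    show kk s.π s.β ((MonoidHom.inl T (P1 × P2)).comp (ι.comp s.π.ker.subtype)) s.hβ (s.α q) = ww s P1 P2 ι * wmap (r1 P1 P2) (inl q) * (ww s P1 P2 ι)⁻¹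
    apply RegularWreathProduct.ext
    · funext x
      refine Prod.ext ?_ ?_
      · simp [ww, s.hα, mul_assoc]
      · simp [ww]
    · simp [ww, s.hα]
  hβ q := by
    show kk s.π s.β ((MonoidHom.inl T (P1 × P2)).comp (ι.comp s.π.ker.subtype)) s.hβ (s.β q) = wmap (r2 P1 P2) (inl q)
    apply RegularWreathProduct.ext
    · funext x
      refine Prod.ext ?_ ?_
      · simp [s.hβ]
      · simp
    · simp [s.hβ]

lemma nem_cover (hι : Injective ι) (g : s.G)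
    (h1 : ∀ x, ∃ a ∈ P1, ∃ b ∈ P2, ι ((s.α x)⁻¹ * g * s.β ((s.π g)⁻¹ * x)) = a * b)
    (h2 : ∀ x, ∃ a ∈ P1, ∃ b ∈ P2, ι ((s.α x)⁻¹ * s.β x) = a * b) :
    ∃ a b, (nem s P1 P2 ι hι).e g = (nxt s P1 P2 ι).α a * (nxt s P1 P2 ι).β b := by
  choose a ha b hb h1 using h1
  choose c hc d hd h2 using h2
  let u : s.Q → P1 × P2 := fun x => (⟨a x * (c x)⁻¹, P1.mul_mem (ha x) (P1.inv_mem (hc x))⟩,
    ⟨(b x)⁻¹ * d x, P2.mul_mem (P2.inv_mem (hb x)) (hd x)⟩)
  refine ⟨(⟨u, 1⟩ : (P1 × P2) ≀ᵣ s.Q), (⟨fun x => (u x)⁻¹, s.π g⟩ : (P1 × P2) ≀ᵣ s.Q), ?_⟩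
  show kk s.π s.β ((MonoidHom.inl T (P1 × P2)).comp (ι.comp s.π.ker.subtype)) s.hβ g =
    ww s P1 P2 ι * wmap (r1 P1 P2) ⟨u, 1⟩ * (ww s P1 P2 ι)⁻¹ * wmap (r2 P1 P2) ⟨fun x => (u x)⁻¹, s.π g⟩
  apply RegularWreathProduct.ext
  · funext x
    refine Prod.ext ?_ ?_
    · have e1 : ι ((s.β x)⁻¹ * g * s.β ((s.π g)⁻¹ * x)) =
          (ι ((s.α x)⁻¹ * s.β x))⁻¹ * ι ((s.α x)⁻¹ * g * s.β ((s.π g)⁻¹ * x)) := by
        rw [← map_inv ι, ← map_mul ι]; congr 1; group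
      have e2 : ι ((s.β x)⁻¹ * s.α x) = (ι ((s.α x)⁻¹ * s.β x))⁻¹ := by
        rw [← map_inv ι]; congr 1; group
      show ι ((s.β x)⁻¹ * g * s.β ((s.π g)⁻¹ * x)) = _
      simp only [mul_left, inv_left, ww, wmap_left, Pi.mul_apply, Pi.inv_apply, mul_right, inv_right,
        wmap_right, inv_one, one_mul, mul_one, Prod.fst_mul, Prod.fst_inv, e1, e2, h1, h2]
      simp [r1, r2, u, mul_assoc]
    · simp [ww, r1, r2]
  · simp [ww]

end Step

section Limit
variable (C : St → Prop)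

structure St2 : Type 1 where
  s : St
  hC : C s
  Y : ℕ → Set s.G
  fin : ∀ n, (Y n).Finite
  mono : Monotone Y
  ex : ∀ g, ∃ n, g ∈ Y n

variable {C}

def Hyp (C : St → Prop) : Prop :=
  ∀ s, C s → Countable s.G ∧ ∀ Y : Set s.G, Y.Finite → ∃ t, C t ∧ ∃ f : Em s t,
    ∀ g ∈ Y, ∃ a b, f.e g = t.α a * t.β b

lemma exhaust {s t : St} (f : s.G → t.G) (ht : Countable t.G) (Y : ℕ → Set s.G)
    (h1 : ∀ n, (Y n).Finite) (h2 : Monotone Y) : ∃ Z : ℕ → Set t.G, (∀ n, (Z n).Finite) ∧ Monotone Z ∧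
      (∀ g, ∃ n, g ∈ Z n) ∧ ∀ n, ∀ g ∈ Y n, f g ∈ Z n := by
  obtain ⟨en, hen⟩ := exists_surjective_nat t.G
  refine ⟨fun n => f '' Y n ∪ en '' Set.Iic n, fun n => ((h1 n).image _).union ((Set.finite_Iic n).image _),
    fun m n h => Set.union_subset_union (Set.image_mono (h2 h)) (Set.image_mono (Set.Iic_subset_Iic.2 h)),
    fun g => ?_, fun n g hg => Or.inl ⟨g, hg, rfl⟩⟩
  obtain ⟨n, rfl⟩ := hen g
  exact ⟨n, Or.inr ⟨n, le_refl n, rfl⟩⟩

lemma step2 (H : Hyp C) (n : ℕ) (s : St2 C) : ∃ (t : St2 C) (f : Em s.s t.s),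
    (∀ g ∈ s.Y n, ∃ a b, f.e g = t.s.α a * t.s.β b) ∧ ∀ m, ∀ g ∈ s.Y m, f.e g ∈ t.Y m := by
  obtain ⟨t, ht, f, hf⟩ := (H s.s s.hC).2 _ (s.fin n)
  obtain ⟨Z, h1, h2, h3, h4⟩ := exhaust f.e (H t ht).1 s.Y s.fin s.mono
  exact ⟨⟨t, ht, Z, h1, h2, h3⟩, f, hf, h4⟩

variable (H : Hyp C) (s0 : St2 C)

noncomputable def sq : ℕ → St2 C
  | 0 => s0
  | n + 1 => (step2 H n (sq n)).choose

noncomputable def em (n : ℕ) : Em (sq H s0 n).s (sq H s0 (n + 1)).s :=
  (step2 H n (sq H s0 n)).choose_spec.choose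

lemma em_spec (n : ℕ) : (∀ g ∈ (sq H s0 n).Y n, ∃ a b, (em H s0 n).e g =
    (sq H s0 (n + 1)).s.α a * (sq H s0 (n + 1)).s.β b) ∧
    ∀ m, ∀ g ∈ (sq H s0 n).Y m, (em H s0 n).e g ∈ (sq H s0 (n + 1)).Y m :=
  (step2 H n (sq H s0 n)).choose_spec.choose_spec

noncomputable def up (i j : ℕ) (h : i ≤ j) : Em (sq H s0 i).s (sq H s0 j).s :=
  Nat.leRec (motive := fun j _ => Em (sq H s0 i).s (sq H s0 j).s) (Em.refl _)
    (fun k _ ih => (em H s0 k).comp ih) h

lemma up_self (i : ℕ) : up H s0 i i le_rfl = Em.refl _ := Nat.leRec_self _ _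

lemma up_succ (i j : ℕ) (h : i ≤ j) (h' : i ≤ j + 1) :
    up H s0 i (j + 1) h' = (em H s0 j).comp (up H s0 i j h) := Nat.leRec_succ _ _ h

lemma up_trans (i j k : ℕ) (h : i ≤ j) (h' : j ≤ k) :
    (up H s0 j k h').comp (up H s0 i j h) = up H s0 i k (h.trans h') := by
  induction h' with
  | refl => rw [up_self]; rfl
  | step h' ih => rw [up_succ _ _ _ _ h', up_succ _ _ _ _ (h.trans h'), ← ih]; rfl

lemma up_Y (i j : ℕ) (h : i ≤ j) (m : ℕ) (g) (hg : g ∈ (sq H s0 i).Y m) :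
    (up H s0 i j h).e g ∈ (sq H s0 j).Y m := by
  induction h with
  | refl => rw [up_self]; exact hg
  | step h ih => rw [up_succ _ _ _ _ h]; exact (em_spec H s0 _).2 m _ ih

noncomputable def fG (i j : ℕ) (h : i ≤ j) : (sq H s0 i).s.G →* (sq H s0 j).s.G := (up H s0 i j h).e

instance : DirectedSystem (fun i => (sq H s0 i).s.G) (fG H s0 · · ·) where
  map_self i x := by simp only [fG, up_self]; rfl
  map_map k j i h h' x := by simp only [fG, ← up_trans H s0 i j k h h']; rfl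

abbrev GLim := DirectLimit (fun i => (sq H s0 i).s.G) (fG H s0)

noncomputable def iG (n : ℕ) : (sq H s0 n).s.G →* GLim H s0 :=
  MonoidHom.mk' (fun g => ⟦⟨n, g⟩⟧) fun a b => (DirectLimit.mul_def (f := fG H s0) n a b).symm

lemma iG_up (i j : ℕ) (h : i ≤ j) (g) : iG H s0 j (fG H s0 i j h g) = iG H s0 i g :=
  DirectLimit.mk_apply (F := fun i => (sq H s0 i).s.G) (f := fG H s0) i j g h

lemma iG_inj (n : ℕ) : Injective (iG H s0 n) :=
  DirectLimit.mk_injective (fG H s0) (fun i j h => (up H s0 i j h).inj) n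

end Limit

/-- The limit theorem. -/
theorem limit {C : St → Prop} (H : Hyp C) (s : St) (hs : C s) :
    ∃ (G : Type) (_ : Group G) (A B : Subgroup G), (∀ g : G, ∃ a ∈ A, ∃ b ∈ B, g = a * b) ∧
      (∃ j : s.G →* G, Injective j) ∧
      ∀ Y : Set G, Y.Finite → ∃ t, C t ∧ ∃ j : t.G →* G, Injective j ∧ (∀ y ∈ Y, y ∈ j.range) ∧
        (∀ y ∈ Y, y ∈ A → y ∈ (j.comp t.α).range) ∧ (∀ y ∈ Y, y ∈ B → y ∈ (j.comp t.β).range) := by
  obtain ⟨Z, h1, h2, h3, -⟩ := exhaust (s := s) (t := s) id (H s hs).1 (fun _ => ∅)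
    (fun _ => Set.finite_empty) monotone_const
  let s0 : St2 C := ⟨s, hs, Z, h1, h2, h3⟩
  let A : ℕ → Subgroup (GLim H s0) := fun n => ((iG H s0 n).comp (sq H s0 n).s.α).range
  let B : ℕ → Subgroup (GLim H s0) := fun n => ((iG H s0 n).comp (sq H s0 n).s.β).range
  have hA : Monotone A := by
    rintro i j h _ ⟨q, rfl⟩
    refine ⟨(up H s0 i j h).κ q, ?_⟩
    rw [MonoidHom.comp_apply, ← (up H s0 i j h).hα]; exact iG_up H s0 i j h _
  have hB : Monotone B := by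
    rintro i j h _ ⟨q, rfl⟩
    refine ⟨(up H s0 i j h).κ q, ?_⟩
    rw [MonoidHom.comp_apply, ← (up H s0 i j h).hβ]; exact iG_up H s0 i j h _
  refine ⟨GLim H s0, inferInstance, ⨆ n, A n, ⨆ n, B n, ?_, ⟨iG H s0 0, iG_inj H s0 0⟩, ?_⟩
  · intro g
    obtain ⟨i, g, rfl⟩ := DirectLimit.exists_eq_mk _ g
    obtain ⟨m, hm⟩ := (sq H s0 i).ex g
    have h4 := (sq H s0 (max i m)).mono (le_max_right i m) (up_Y H s0 i _ (le_max_left i m) m g hm)
    obtain ⟨a, b, hab⟩ := (em_spec H s0 _).1 _ h4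
    refine ⟨_, Subgroup.mem_iSup_of_mem (max i m + 1) ⟨a, rfl⟩, _,
      Subgroup.mem_iSup_of_mem (max i m + 1) ⟨b, rfl⟩, ?_⟩
    rw [MonoidHom.comp_apply, MonoidHom.comp_apply, ← map_mul, ← hab]
    have := iG_up H s0 i (max i m + 1) ((le_max_left i m).trans (Nat.le_succ _)) g
    rw [fG, up_succ _ _ _ _ (le_max_left i m)] at this
    exact this.symm
  · intro Y hY
    have key : ∀ y : GLim H s0, ∀ᶠ n in Filter.atTop, y ∈ (iG H s0 n).range ∧
        (y ∈ ⨆ n, A n → y ∈ A n) ∧ (y ∈ ⨆ n, B n → y ∈ B n) := by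
      intro y
      refine Filter.Eventually.and ?_ (Filter.Eventually.and ?_ ?_)
      · obtain ⟨i, g, rfl⟩ := DirectLimit.exists_eq_mk _ y
        rw [Filter.eventually_atTop]
        exact ⟨i, fun n hn => ⟨_, iG_up H s0 i n hn g⟩⟩
      · by_cases h : y ∈ ⨆ n, A n
        · obtain ⟨i, hi⟩ := (Subgroup.mem_iSup_of_directed hA.directed_le).1 h
          rw [Filter.eventually_atTop]
          exact ⟨i, fun n hn _ => hA hn hi⟩
        · exact Filter.Eventually.of_forall fun n h' => absurd h' h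
      · by_cases h : y ∈ ⨆ n, B n
        · obtain ⟨i, hi⟩ := (Subgroup.mem_iSup_of_directed hB.directed_le).1 h
          rw [Filter.eventually_atTop]
          exact ⟨i, fun n hn _ => hB hn hi⟩
        · exact Filter.Eventually.of_forall fun n h' => absurd h' h
    obtain ⟨n, hn⟩ := ((Filter.eventually_all_finite hY).2 fun y _ => key y).exists
    exact ⟨(sq H s0 n).s, (sq H s0 n).hC, iG H s0 n, iG_inj H s0 n, fun y hy => (hn y hy).1,
      fun y hy => (hn y hy).2.1, fun y hy => (hn y hy).2.2⟩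

/-- the starting state -/
def st0 (G : Type) [Group G] : St where
  G := G
  Q := Unit
  π := 1
  α := 1
  β := 1
  hα _ := rfl
  hβ _ := rfl

/-- From a base lemma to the step hypothesis. -/
theorem hyp_of_base (GC PC : ∀ (G : Type) [Group G], Prop)
    (hc : ∀ (G : Type) [Group G], GC G → Countable G) (hf : ∀ (G : Type) [Group G], PC G → Finite G)
    (hP : ∀ (P1 P2 Q : Type) [Group P1] [Group P2] [Group Q], PC P1 → PC P2 → PC Q → PC ((P1 × P2) ≀ᵣ Q))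
    (hG : ∀ (T P1 P2 Q : Type) [Group T] [Group P1] [Group P2] [Group Q], GC T → PC P1 → PC P2 → PC Q →
      GC ((T × P1 × P2) ≀ᵣ Q))
    (base : ∀ (S : Type) [Group S], GC S → ∀ Y : Set S, Y.Finite →
      ∃ (T : Type) (_ : Group T) (P1 P2 : Subgroup T) (ι : S →* T), GC T ∧ PC P1 ∧ PC P2 ∧ Injective ι ∧
        ∀ y ∈ Y, ∃ a ∈ P1, ∃ b ∈ P2, ι y = a * b) :
    Hyp (fun s => GC s.G ∧ PC s.Q) := by
  rintro s ⟨h1, h2⟩
  refine ⟨hc _ h1, fun Y hY => ?_⟩
  have := hf _ h2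
  obtain ⟨T, _, P1, P2, ι, a1, a2, a3, a4, a5⟩ := base s.G h1
    (Set.image2 (fun g x => (s.α x)⁻¹ * g * s.β ((s.π g)⁻¹ * x)) Y Set.univ ∪
      Set.range fun x => (s.α x)⁻¹ * s.β x)
    ((hY.image2 _ Set.finite_univ).union (Set.finite_range _))
  refine ⟨nxt s P1 P2 ι, ⟨hG _ _ _ _ a1 a2 a3 h2, hP _ _ _ a2 a3 h2⟩, nem s P1 P2 ι a4, fun g hg => ?_⟩
  exact nem_cover s P1 P2 ι a4 g (fun x => a5 _ (Or.inl ⟨g, hg, x, trivial, rfl⟩))
    (fun x => a5 _ (Or.inr ⟨x, rfl⟩))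

end Pool.Agent.Lib.helper15.Fact
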