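import Mathlib

set_option autoImplicit false

namespace Pool.Agent.Lib.helper15.Fdc

open Equiv Set

variable {Ω : Type} (K : Subgroup (Perm Ω))

def ty (p : Ω) : K × K → Prop := fun a => a.1.1 p = a.2.1 p

def orb (p : Ω) : Set Ω := range fun k : K => k.1 p

/-- `h` commutes with all finitary permutations that commute with `K`. -/
def DC (h : Perm Ω) : Prop :=
  ∀ t : Perm Ω, {x | t x ≠ x}.Finite → (∀ k ∈ K, k * t = t * k) → t * h = h * t

variable {K}

lemma ty_iff {p q : Ω} (h : ty K p = ty K q) (k l : K) : k.1 p = l.1 p ↔ k.1 q = l.1 q :=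
  Iff.of_eq (congrFun h (k, l))

lemma ty_smul {p q : Ω} (h : ty K p = ty K q) (k : K) : ty K (k.1 p) = ty K (k.1 q) :=
  funext fun a => congrFun h (a.1 * k, a.2 * k)

lemma orb_mul {p x : Ω} (k : K) : k.1 x ∈ orb K p ↔ x ∈ orb K p :=
  ⟨fun ⟨l, hl⟩ => ⟨k⁻¹ * l, by simp [show l.1 p = k.1 x from hl]⟩,
    fun ⟨l, hl⟩ => ⟨k * l, by simp [show l.1 p = x from hl]⟩⟩

lemma orb_self (p : Ω) : p ∈ orb K p := ⟨1, rfl⟩

lemma orb_disj {p q x : Ω} (h : q ∉ orb K p) (h1 : x ∈ orb K p) (h2 : x ∈ orb K q) : False := by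
  obtain ⟨k, rfl⟩ := h2
  exact h ((orb_mul k).1 h1)

lemma exists_swap [Finite K] {p q : Ω} (h : ty K p = ty K q) (hq : q ∉ orb K p) :
    ∃ t : Perm Ω, {x | t x ≠ x} ⊆ orb K p ∪ orb K q ∧ (∀ k ∈ K, k * t = t * k) ∧ t p = q := by
  classical
  let f : Ω → Ω := fun x => if hx : x ∈ orb K p then hx.choose.1 q else
    if hx : x ∈ orb K q then hx.choose.1 p else x
  have f1 : ∀ k : K, f (k.1 p) = k.1 q := fun k => by
    have hx : k.1 p ∈ orb K p := ⟨k, rfl⟩
    simp only [f, dif_pos hx]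
    exact (ty_iff h _ _).1 hx.choose_spec
  have f2 : ∀ k : K, f (k.1 q) = k.1 p := fun k => by
    have hx : k.1 q ∈ orb K q := ⟨k, rfl⟩
    simp only [f, dif_neg fun a => orb_disj hq a hx, dif_pos hx]
    exact (ty_iff h _ _).2 hx.choose_spec
  have f3 : ∀ x, x ∉ orb K p → x ∉ orb K q → f x = x := fun x a b => by
    simp only [f, dif_neg a, dif_neg b]
  have cs : ∀ x, (∃ k : K, k.1 p = x) ∨ (∃ k : K, k.1 q = x) ∨ x ∉ orb K p ∧ x ∉ orb K q :=
    fun x => by tauto
  have inv : Function.Involutive f := fun x => by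
    rcases cs x with ⟨k, rfl⟩ | ⟨k, rfl⟩ | ⟨a, b⟩
    exacts [by rw [f1, f2], by rw [f2, f1], by rw [f3 x a b, f3 x a b]]
  refine ⟨inv.toPerm, fun x hx => by_contra fun c => hx (f3 x (fun a => c (.inl a))
    fun a => c (.inr a)), fun l hl => Perm.ext fun x => ?_, f1 1⟩
  show l (f x) = f (l x)
  rcases cs x with ⟨k, rfl⟩ | ⟨k, rfl⟩ | ⟨a, b⟩
  · rw [f1]; exact (f1 (⟨l, hl⟩ * k)).symm
  · rw [f2]; exact (f2 (⟨l, hl⟩ * k)).symm
  · rw [f3 x a b, f3 (l x) (mt (orb_mul ⟨l, hl⟩).1 a) (mt (orb_mul ⟨l, hl⟩).1 b)]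

lemma step [Finite K] {h : Perm Ω} (hh : DC K h) {p q : Ω} (e : ty K p = ty K q)
    (hq : q ∉ orb K p) : h p ∈ orb K p ∪ orb K q ∧ ∀ k : K, h p = k.1 p → h q = k.1 q := by
  obtain ⟨t, a, b, c⟩ := exists_swap e hq
  have d : t (h p) = h q := by
    rw [← c]; exact congrArg (fun s : Perm Ω => s p)
      (hh t (((finite_range _).union (finite_range _)).subset a) b)
  refine ⟨a fun z => hq ?_, fun k hk => ?_⟩
  · rw [← h.injective (z.symm.trans d)]; exact orb_self p
  · rw [← d, hk, ← c]; exact (congrArg (fun s : Perm Ω => s p) (b k k.2)).symm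

lemma key [Finite K] {h : Perm Ω} (hh : DC K h) {p : Ω} (hp : {q | ty K q = ty K p}.Infinite) :
    ∃ k : K, ∀ q, ty K q = ty K p → h q = k.1 q := by
  have fo : ∀ x, (orb K x).Finite := fun x => finite_range _
  obtain ⟨r, hr, r1⟩ := hp.exists_notMem_finite (fo p)
  obtain ⟨s, hs, s1⟩ := hp.exists_notMem_finite ((fo p).union (fo r))
  obtain ⟨k, hk⟩ : h p ∈ orb K p := by
    rcases (step hh hr.symm r1).1 with a | a
    · exact a
    rcases (step hh hs.symm fun c => s1 (.inl c)).1 with b | b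
    · exact b
    · exact (orb_disj (fun c => s1 (.inr c)) a b).elim
  refine ⟨k, fun q hq => ?_⟩
  obtain ⟨u, hu, u1⟩ := hp.exists_notMem_finite ((fo p).union (fo q))
  have a := (step hh hu.symm fun c => u1 (.inl c)).2 k hk.symm
  exact (step hh (hu.trans hq.symm) fun c => orb_disj (fun c => u1 (.inr c)) (orb_self q) c).2 k a

theorem dc_finite [Nonempty Ω] [Finite K] : {h | DC K h}.Finite := by
  let Y : Set Ω := {p | {q | ty K q = ty K p}.Finite}
  have hY : Y.Finite := by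
    refine (finite_univ.biUnion (t := fun τ => {q | q ∈ Y ∧ ty K q = τ}) fun τ _ => ?_).subset
      fun p hp => mem_biUnion (mem_univ (ty K p)) ⟨hp, rfl⟩
    rcases eq_empty_or_nonempty {q | q ∈ Y ∧ ty K q = τ} with e | ⟨p, hp, rfl⟩
    · simp [e]
    · exact hp.subset fun q hq => hq.2
  let R : Set Ω := Y ∪ range (Function.invFun (ty K))
  have : Finite R := hY.union (finite_range _)
  refine Finite.of_injOn (f := fun (h : Perm Ω) (r : R) => h r.1)
    (t := {f | ∀ r : R, f r ∈ Y ∪ orb K r}) (fun h hh r => ?_)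
    (fun h hh h' hh' e => Perm.ext fun p => ?_) (Finite.pi' fun r => hY.union (finite_range _))
  · by_cases hr : r.1 ∈ Y
    · refine Or.inl (by_contra fun c => ?_)
      have hi : DC K h⁻¹ := fun t a b => (Commute.inv_right (hh t a b)).eq
      obtain ⟨k, hk⟩ := key hi c
      have e : r.1 = k.1 (h r) := by simpa using hk _ rfl
      refine c (Finite.of_injOn (f := k.1) (fun q hq => ?_) k.1.injective.injOn hr)
      rw [e]; exact ty_smul hq k
    · obtain ⟨k, hk⟩ := key hh hr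
      exact Or.inr ⟨k, (hk _ rfl).symm⟩
  · by_cases hp : p ∈ Y
    · exact congrFun e ⟨p, Or.inl hp⟩
    obtain ⟨k, hk⟩ := key hh hp
    obtain ⟨l, hl⟩ := key hh' hp
    have hr : ty K (Function.invFun (ty K) (ty K p)) = ty K p := Function.invFun_eq ⟨p, rfl⟩
    have := congrFun e ⟨_, Or.inr ⟨ty K p, rfl⟩⟩
    simp only [hk _ hr, hl _ hr] at this
    rw [hk p rfl, hl p rfl]
    exact (ty_iff hr k l).1 this

theorem dc_inv {x h : Perm Ω} (hx : x * x = 1) (h0 : {p | x p = p}.Infinite)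
    (h1 : {p | x p ≠ p}.Infinite) (hh : DC (Subgroup.zpowers x) h) : h = 1 ∨ h = x := by
  have mem : ∀ k ∈ Subgroup.zpowers x, k = 1 ∨ k = x := by
    let H : Subgroup (Perm Ω) :=
      { carrier := {k | k = 1 ∨ k = x}
        one_mem' := .inl rfl
        mul_mem' := by rintro a b (rfl | rfl) (rfl | rfl) <;> simp [hx]
        inv_mem' := by rintro a (rfl | rfl) <;> simp [inv_eq_of_mul_eq_one_right hx] }
    exact fun k hk => (Subgroup.zpowers_le (H := H)).2 (.inr rfl) hk
  have : Finite (Subgroup.zpowers x) :=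
    ((finite_singleton x).insert 1).subset fun k hk => mem k hk
  have same : ∀ p q, (x p = p ↔ x q = q) →
      ty (Subgroup.zpowers x) p = ty (Subgroup.zpowers x) q := fun p q e => by
    funext ⟨⟨k, hk⟩, ⟨l, hl⟩⟩
    rcases mem k hk with rfl | rfl <;> rcases mem l hl with rfl | rfl <;>
      simp [ty, e, eq_comm (a := p), eq_comm (a := q)]
  obtain ⟨p, hp⟩ := h0.nonempty
  obtain ⟨q, hq⟩ := h1.nonempty
  obtain ⟨k, hk⟩ := key hh (p := p) (h0.mono fun r hr => same r p (iff_of_true hr hp))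
  obtain ⟨l, hl⟩ := key hh (p := q) (h1.mono fun r hr => same r q (iff_of_false hr hq))
  have : h = l.1 := Perm.ext fun r => by
    by_cases c : x r = r
    · rw [hk r (same r p (iff_of_true c hp))]
      rcases mem _ k.2 with a | a <;> rcases mem _ l.2 with b | b <;> simp [a, b, c]
    · exact hl r (same r q (iff_of_false c hq))
  exact this ▸ mem _ l.2

end Pool.Agent.Lib.helper15.Fdc
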