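import Pool.Agent.Lib.helper15.Fdc1

set_option autoImplicit false

namespace Pool.Agent.Lib.helper15.Fdc

open Equiv Set

variable {I : Type} [LinearOrder I]

abbrev Om (I : Type) := I →₀ ZMod 2

def sig (A : Finset I) (x : Om I) : (A → ZMod 2) × (WithBot A → Prop) :=
  (fun i => x i, fun a => ∃ b ∉ A, WithBot.map Subtype.val a < b ∧ x b ≠ 0)

structure P (A : Finset I) (g : Perm (Om I)) : Prop where
  loc : ∀ x, ∀ i ∉ A, g x i = x i
  dep : ∀ x y, sig A x = sig A y → g x - x = g y - y
  bdd : ∀ x b, b ∉ A → (∀ a ∈ A, a < b) → x b ≠ 0 → g x = x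

lemma sig_mono {A B : Finset I} (h : A ⊆ B) {x y : Om I} (e : sig B x = sig B y) :
    sig A x = sig A y := by
  have k : ∀ {x y : Om I}, sig B x = sig B y → ∀ a, (sig A x).2 a → (sig A y).2 a := by
    rintro x y e a ⟨b, b1, b2, b3⟩
    by_cases hb : b ∈ B
    · exact ⟨b, b1, b2, fun c => b3 ((congrFun (congrArg Prod.fst e) ⟨b, hb⟩).trans c)⟩
    · have := congrFun (congrArg Prod.snd e) (a.map fun i => ⟨i.1, h i.2⟩)
      simp only [sig, WithBot.map_map] at this
      obtain ⟨c, c1, c2⟩ := this.mp ⟨b, hb, b2, b3⟩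
      exact ⟨c, fun d => c1 (h d), c2⟩
  exact Prod.ext (funext fun i => congrFun (congrArg Prod.fst e) ⟨i.1, h i.2⟩)
    (funext fun a => propext ⟨k e a, k e.symm a⟩)

lemma sig_add {A : Finset I} {x y z : Om I} (e : sig A x = sig A y) (hz : ∀ i ∉ A, z i = 0) :
    sig A (x + z) = sig A (y + z) := by
  have k : ∀ x : Om I, (sig A (x + z)).2 = (sig A x).2 := fun x => funext fun a => propext <|
    exists_congr fun b => and_congr_right fun hb => by simp [hz b hb]
  refine Prod.ext (funext fun i => ?_) (by rw [k, k, e])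
  have : x i = y i := congrFun (congrArg Prod.fst e) i
  simp [sig, this]

lemma P.mono {A B : Finset I} {g} (h : A ⊆ B) (p : P A g) : P B g :=
  ⟨fun x i hi => p.loc x i fun c => hi (h c), fun x y e => p.dep x y (sig_mono h e),
    fun x b b1 b2 => p.bdd x b (fun c => b1 (h c)) fun a ha => b2 a (h ha)⟩

def GA (A : Finset I) : Subgroup (Perm (Om I)) where
  carrier := {g | P A g}
  one_mem' := ⟨fun _ _ _ => rfl, fun _ _ _ => by simp, fun _ _ _ _ _ => rfl⟩
  mul_mem' := fun {g h} hg hh => by
    refine ⟨fun x i hi => (hg.loc _ i hi).trans (hh.loc x i hi), fun x y e => ?_,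
      fun x b b1 b2 b3 => ?_⟩
    · have a := hh.dep x y e
      have := sig_add (z := h x - x) e fun i hi => by simp [hh.loc x i hi]
      rw [add_sub_cancel, a, add_sub_cancel] at this
      have b := hg.dep _ _ this
      show g (h x) - x = g (h y) - y
      linear_combination (norm := abel) a + b
    · show g (h x) = x
      rw [hh.bdd x b b1 b2 b3, hg.bdd x b b1 b2 b3]
  inv_mem' := fun {g} hg => by
    have l : ∀ x, ∀ i ∉ A, g⁻¹ x i = x i := fun x i hi => by
      rw [← hg.loc (g⁻¹ x) i hi]; simp
    refine ⟨l, fun x y e => ?_, fun x b b1 b2 b3 => ?_⟩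
    · have := sig_add (z := g⁻¹ x - x) e fun i hi => by
        rw [Finsupp.sub_apply, l x i hi, sub_self]
      rw [add_sub_cancel] at this
      have b := hg.dep _ _ this
      have : g⁻¹ y = y + (g⁻¹ x - x) := by
        rw [Perm.inv_eq_iff_eq]
        rw [show g (g⁻¹ x) = x by simp] at b
        linear_combination (norm := abel) b
      rw [this]; abel
    · rw [Perm.inv_eq_iff_eq, hg.bdd x b b1 b2 b3]

instance (A : Finset I) : Finite (GA A) := by
  refine Finite.of_injective (fun (g : GA A) s (i : A) => g.1 (Function.invFun (sig A) s) i)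
    fun g h e => Subtype.ext (Perm.ext fun x => ?_)
  have hr : sig A (Function.invFun (sig A) (sig A x)) = sig A x := Function.invFun_eq ⟨x, rfl⟩
  have : g.1 (Function.invFun (sig A) (sig A x)) = h.1 (Function.invFun (sig A) (sig A x)) := by
    ext i
    by_cases hi : i ∈ A
    · exact congrFun (congrFun e _) ⟨i, hi⟩
    · rw [P.loc g.2 _ i hi, P.loc h.2 _ i hi]
  have a := P.dep g.2 _ _ hr
  have b := P.dep h.2 _ _ hr
  rw [this, b] at a
  exact (sub_left_injective a).symm

def G (I : Type) [LinearOrder I] : Subgroup (Perm (Om I)) where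
  carrier := {g | ∃ A, g ∈ GA A}
  one_mem' := ⟨∅, one_mem _⟩
  mul_mem' := fun ⟨A, a⟩ ⟨B, b⟩ => ⟨A ∪ B, mul_mem (P.mono Finset.subset_union_left a)
    (P.mono Finset.subset_union_right b)⟩
  inv_mem' := fun ⟨A, a⟩ => ⟨A, inv_mem a⟩

lemma fin_mem {t : Perm (Om I)} (h : {x | t x ≠ x}.Finite) : t ∈ G I := by
  let A := h.toFinset.biUnion Finsupp.support
  have k : ∀ x, t x ≠ x → ∀ i ∉ A, x i = 0 := fun x hx i hi => by_contra fun c =>
    hi (Finset.mem_biUnion.2 ⟨x, by simpa using hx, by simpa using c⟩)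
  have u : ∀ x y, sig A x = sig A y → t x ≠ x → x = y := fun x y e hx => by
    ext i
    by_cases hi : i ∈ A
    · exact congrFun (congrArg Prod.fst e) ⟨i, hi⟩
    · rw [k x hx i hi]
      by_contra c
      obtain ⟨b, b1, -, b2⟩ := (congrFun (congrArg Prod.snd e) ⊥).mpr
        ⟨i, hi, WithBot.bot_lt_coe i, Ne.symm c⟩
      exact b2 (k x hx b b1)
  refine ⟨A, fun x i hi => ?_, fun x y e => ?_, fun x b b1 _ b3 => by_contra fun c =>
    b3 (k x c b b1)⟩
  · by_cases hx : t x = x
    · rw [hx]
    · rw [k x hx i hi, k (t x) (fun c => hx (t.injective c)) i hi]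
  · by_cases hx : t x = x
    · by_cases hy : t y = y
      · simp [hx, hy]
      · rw [u y x e.symm hy]
    · rw [u x y e hx]

lemma dc_of {F : Set (G I)} {K : Subgroup (Perm (Om I))} (hF : ∀ f ∈ F, f.1 ∈ K) {h : G I}
    (hh : h ∈ F.centralizer.centralizer) : DC K h.1 := fun t a b =>
  congrArg Subtype.val (hh ⟨t, fin_mem a⟩ fun f hf => Subtype.ext (b _ (hF f hf)))

theorem fdc (F : Set (G I)) (hF : F.Finite) : F.centralizer.centralizer.Finite := by
  choose A hA using fun g : G I => g.2
  refine Finite.of_injOn (f := Subtype.val) (fun h hh => dc_of (fun f hf => ?_) hh)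
    Subtype.val_injective.injOn (dc_finite (K := GA (hF.toFinset.biUnion A)))
  exact P.mono (Finset.subset_biUnion_of_mem A (by simpa using hf)) (hA f)

open Classical in
noncomputable def fl (a : I) (x : Om I) : Om I :=
  if ∀ b, a < b → x b = 0 then x + Finsupp.single a 1 else x

omit [LinearOrder I] in
lemma ee (a : I) : (Finsupp.single a 1 + Finsupp.single a 1 : Om I) = 0 := by
  rw [← Finsupp.single_add]; exact Finsupp.single_eq_zero.2 rfl

lemma fl_pos {a : I} {x : Om I} (h : ∀ b, a < b → x b = 0) : fl a x = x + Finsupp.single a 1 :=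
  if_pos h

lemma fl_inv (a : I) : Function.Involutive (fl a) := fun x => by
  by_cases h : ∀ b, a < b → x b = 0
  · rw [fl_pos h, fl_pos fun b hb => by simp [h b hb, hb.ne'], add_assoc, ee, add_zero]
  · have : fl a x = x := if_neg h
    rw [this, this]

noncomputable def X (a : I) : G I := ⟨(fl_inv a).toPerm, {a}, by
  refine ⟨fun x i hi => ?_, fun x y e => ?_, fun x b _ b2 b3 => ?_⟩
  · show fl a x i = x i
    unfold fl; split_ifs <;> simp [Finset.notMem_singleton.1 hi]
  · have := congrFun (congrArg Prod.snd e) (⟨a, by simp⟩ : ({a} : Finset I))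
    have k : ∀ x : Om I, (sig {a} x).2 (⟨a, by simp⟩ : ({a} : Finset I)) ↔
        ¬∀ b, a < b → x b = 0 := fun x => by
      simp only [sig, WithBot.map_coe, WithBot.coe_lt_coe, Finset.mem_singleton]
      push Not
      exact exists_congr fun b => and_iff_right_of_imp fun h => h.1.ne'
    rw [k, k, eq_iff_iff, not_iff_not] at this
    show fl a x - x = fl a y - y
    by_cases h : ∀ b, a < b → x b = 0
    · rw [fl_pos h, fl_pos (this.1 h)]; simp
    · rw [show fl a x = x from if_neg h, show fl a y = y from if_neg (mt this.2 h)]; simp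
  · exact if_neg fun c => b3 (c b (b2 a (by simp)))⟩

lemma X_sq (a : I) : X a * X a = 1 := Subtype.ext (Perm.ext (fl_inv a))

lemma X_inj : Function.Injective (X (I := I)) := fun a b h => by
  have : fl a 0 = fl b 0 := congrArg (fun g : G I => g.1 0) h
  rw [fl_pos fun _ _ => rfl, fl_pos fun _ _ => rfl, zero_add, zero_add] at this
  exact Finsupp.single_left_injective one_ne_zero this

lemma cnt (hI : ∀ a : I, (Iic a).Countable) {S : Set I} (hS : S.Countable) :
    {a | ¬∀ s ∈ S, s < a}.Countable :=
  (hS.biUnion fun s _ => hI s).mono fun a ha => by simpa using ha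

theorem generic (hI : ∀ a : I, (Iic a).Countable) (u v : G I) (hu : u ≠ 1) :
    {a | u * X a = X a * v}.Countable := by
  obtain ⟨p, hp⟩ : ∃ p, u.1 p ≠ p := by_contra fun c =>
    hu (Subtype.ext (Perm.ext fun p => by_contra fun d => c ⟨p, d⟩))
  obtain ⟨A, hA⟩ := v.2
  refine Set.Countable.mono ?_ (cnt hI (A ∪ p.support).countable_toSet)
  refine fun a ha c => hp ?_
  have h0 : ∀ b, a ≤ b → p b = 0 := fun b hb => by_contra fun d =>
    (c b (by simp [d])).not_ge hb
  have e : u.1 (fl a (fl a p)) = fl a (v.1 (fl a p)) := congrArg (fun g : G I => g.1 (fl a p)) ha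
  rwa [P.bdd hA _ a (fun d => (c a (by simp [d])).false) (fun s hs => c s (by simp [hs]))
    (by simp [fl_pos fun b hb => h0 b hb.le, h0 a le_rfl]), fl_inv] at e

theorem small [Uncountable I] (hI : ∀ a : I, (Iic a).Countable) :
    {a : I | ¬({X a} : Set (G I)).centralizer.centralizer ⊆ {1, X a}}.Countable := by
  refine Set.Countable.mono ?_ (cnt hI (countable_range (Infinite.natEmbedding I)))
  refine fun a ha c => ha fun h hh => ?_
  have s : Function.Injective fun b : I => (Finsupp.single b 1 : Om I) :=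
    Finsupp.single_left_injective one_ne_zero
  refine (dc_inv (congrArg Subtype.val (X_sq a)) ?_ ?_ (dc_of (fun f hf => ?_) hh)).imp
    Subtype.ext Subtype.ext
  · have : (Ioi a).Infinite := fun f => not_countable_univ
      (((hI a).union f.countable).mono fun b _ => by simp [le_or_gt])
    refine infinite_of_injOn_mapsTo s.injOn (fun b hb => ?_) this
    exact if_neg fun d => by simpa using d b hb
  · refine infinite_of_injective_forall_mem (s.comp (Infinite.natEmbedding I).injective) fun n d => ?_
    have : fl a _ = _ := d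
    rw [fl_pos fun b hb => by simp [((c _ ⟨n, rfl⟩).trans hb).ne']] at this
    simp at this
  · rw [hf]; exact Subgroup.mem_zpowers _

theorem exists_group : ∃ (G : Type) (_ : Group G) (I : Type) (_ : Uncountable I) (x : I → G),
    Function.Injective x ∧ (∀ F : Set G, F.Finite → F.centralizer.centralizer.Finite) ∧
    (∀ u v, u ≠ 1 → {i | u * x i = x i * v}.Countable) ∧ (∀ i, x i * x i = 1) ∧
    {i | ¬({x i} : Set G).centralizer.centralizer ⊆ {1, x i}}.Countable := by
  let I := (Cardinal.aleph.{0} 1).ord.ToType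
  have : Uncountable I := by
    rw [← Cardinal.aleph0_lt_mk_iff, Cardinal.mk_ord_toType]; exact Cardinal.aleph0_lt_aleph_one
  have hI : ∀ a : I, (Iic a).Countable := fun a => by
    rw [← Iio_insert]
    exact ((Cardinal.countable_iff_lt_aleph_one _).2 (Cardinal.mk_Iio_toType_ord_lt a)).insert a
  exact ⟨G I, inferInstance, I, this, X, X_inj, fdc, generic hI, X_sq, small hI⟩

end Pool.Agent.Lib.helper15.Fdc
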