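import Mathlib

set_option autoImplicit false

open Set Metric

namespace Pool.Agent.Lib.helper15.GH3

def Good {n : ℕ} (D : Fin n → Fin n → ℤ) : Prop :=
  (∀ x, D x x = 0) ∧ (∀ x y, D x y = D y x) ∧ (∀ x y z, D x z ≤ D x y + D y z) ∧
    ∀ x y, D x y = 0 → x = y

instance {n : ℕ} (D : Fin n → Fin n → ℤ) : Decidable (Good D) := by unfold Good; infer_instance

def Sp {n : ℕ} (D : Fin n → Fin n → ℤ) (_h : Good D) : Type := Fin n

variable {n : ℕ} {D D' : Fin n → Fin n → ℤ} {h : Good D} {h' : Good D'}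

noncomputable instance : MetricSpace (Sp D h) where
  dist x y := D x y
  dist_self x := by exact_mod_cast h.1 x
  dist_comm x y := by exact_mod_cast h.2.1 x y
  dist_triangle x y z := by exact_mod_cast h.2.2.1 x y z
  eq_of_dist_eq_zero {x y} e := h.2.2.2 x y (by exact_mod_cast e)

instance : Finite (Sp D h) := inferInstanceAs (Finite (Fin n))
instance [NeZero n] : Nonempty (Sp D h) := inferInstanceAs (Nonempty (Fin n))

lemma dist_eq (x y : Sp D h) : dist x y = (D x y : ℝ) := rfl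

/-- a relation of distortion less than `k + 1` with full domain lies in the graph of `σ` -/
lemma rigid {k : ℤ} {σ : Fin n → Fin n}
    (H : ∀ f : Fin n → Fin n, (∀ x y, |D x y - D' (f x) (f y)| ≤ k) → f = σ)
    {S : Set (Sp D h × Sp D' h')} (h1 : ∀ x, ∃ y, (x, y) ∈ S)
    (h2 : ∀ p ∈ S, ∀ q ∈ S, |dist p.1 q.1 - dist p.2 q.2| < k + 1) {x : Sp D h} {y : Sp D' h'}
    (hp : (x, y) ∈ S) : y = σ x := by
  classical
  choose f hf using h1
  obtain ⟨g, hg, e⟩ : ∃ g : Sp D h → Sp D' h', (∀ z, (z, g z) ∈ S) ∧ g x = y :=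
    ⟨Function.update f x y, fun z => by
      by_cases e : z = x
      · subst e; simpa using hp
      · simpa [e] using hf z, by simp⟩
  have := H g fun a b => by
    have := h2 _ (hg a) _ (hg b)
    simp only [dist_eq] at this
    exact Int.lt_add_one_iff.1 (by exact_mod_cast this)
  rw [← this]; exact e.symm

lemma near {Z : Type*} [MetricSpace Z] {X Y : Type*} [MetricSpace X] [MetricSpace Y] [Finite X]
    [Finite Y] [Nonempty X] [Nonempty Y] {φ : X → Z} {ψ : Y → Z} (h1 : Isometry φ) (h2 : Isometry ψ)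
    {r : ℝ} (hr : hausdorffDist (range φ) (range ψ) < r) :
    (∀ x, ∃ y, (x, y) ∈ {p : X × Y | dist (φ p.1) (ψ p.2) < r}) ∧
      ∀ p ∈ {p : X × Y | dist (φ p.1) (ψ p.2) < r}, ∀ q ∈ {p : X × Y | dist (φ p.1) (ψ p.2) < r},
        |dist p.1 q.1 - dist p.2 q.2| < 2 * r := by
  refine ⟨fun x => ?_, fun p hp q hq => ?_⟩
  · obtain ⟨_, ⟨y, rfl⟩, hy⟩ := exists_dist_lt_of_hausdorffDist_lt (mem_range_self x) hr
      (hausdorffEDist_ne_top_of_nonempty_of_bounded (range_nonempty _) (range_nonempty _)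
        (finite_range _).isBounded (finite_range _).isBounded)
    exact ⟨y, hy⟩
  · rw [← h1.dist_eq, ← h2.dist_eq, ← Real.dist_eq]
    have := dist_dist_dist_le (φ p.1) (φ q.1) (ψ p.2) (ψ q.2)
    simp only [mem_ofPred_eq] at hp hq
    linarith

def A1 : Fin 3 → Fin 3 → ℤ := ![![0, 10, 30], ![10, 0, 20], ![30, 20, 0]]
def A2 : Fin 3 → Fin 3 → ℤ := ![![0, 8, 28], ![8, 0, 20], ![28, 20, 0]]
def A3 : Fin 3 → Fin 3 → ℤ := ![![0, 10, 28], ![10, 0, 18], ![28, 18, 0]]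
lemma a1 : Good A1 := by decide
lemma a2 : Good A2 := by decide
lemma a3 : Good A3 := by decide

/-- the three subsets of the line cannot be placed at mutual Hausdorff distance at most one -/
theorem noH {Z : Type*} [MetricSpace Z] {φ1 : Sp A1 a1 → Z} {φ2 : Sp A2 a2 → Z} {φ3 : Sp A3 a3 → Z}
    (h1 : Isometry φ1) (h2 : Isometry φ2) (h3 : Isometry φ3)
    (e12 : hausdorffDist (range φ1) (range φ2) ≤ 1) (e13 : hausdorffDist (range φ1) (range φ3) ≤ 1)
    (e23 : hausdorffDist (range φ2) (range φ3) ≤ 1) : False := by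
  obtain ⟨p1, q1⟩ := near h1 h2 (r := 5 / 4) (by linarith)
  obtain ⟨p2, q2⟩ := near h1 h3 (r := 5 / 4) (by linarith)
  obtain ⟨p3, q3⟩ := near h2 h3 (r := 5 / 4) (by linarith)
  obtain ⟨y1, k1⟩ := p1 (0 : Fin 3)
  obtain ⟨y2, k2⟩ := p2 (2 : Fin 3)
  obtain ⟨y3, k3⟩ := p3 (1 : Fin 3)
  obtain rfl := rigid (k := 2) (σ := id) (by decide) p1
    (fun p hp q hq => (q1 p hp q hq).trans (by norm_num)) k1
  obtain rfl := rigid (k := 2) (σ := id) (by decide) p2
    (fun p hp q hq => (q2 p hp q hq).trans (by norm_num)) k2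
  obtain rfl := rigid (k := 2) (σ := id) (by decide) p3
    (fun p hp q hq => (q3 p hp q hq).trans (by norm_num)) k3
  have d1 : dist (φ1 (0 : Fin 3)) (φ1 (2 : Fin 3)) = 30 := by rw [h1.dist_eq, dist_eq]; rfl
  have d2 : dist (φ2 (0 : Fin 3)) (φ2 (1 : Fin 3)) = 8 := by rw [h2.dist_eq, dist_eq]; rfl
  have d3 : dist (φ3 (1 : Fin 3)) (φ3 (2 : Fin 3)) = 18 := by rw [h3.dist_eq, dist_eq]; rfl
  have t1 := dist_triangle4 (φ1 (0 : Fin 3)) (φ2 (0 : Fin 3)) (φ2 (1 : Fin 3)) (φ3 (1 : Fin 3))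
  have t2 := dist_triangle4 (φ1 (0 : Fin 3)) (φ3 (1 : Fin 3)) (φ3 (2 : Fin 3)) (φ1 (2 : Fin 3))
  simp only [mem_ofPred_eq, id] at k1 k2 k3
  rw [dist_comm] at k2
  linarith

def B (p q : ℤ) : Fin 4 → Fin 4 → ℤ :=
  ![![0, 50, 70 + p, 80 + q], ![50, 0, 70 - p, 80 - q], ![70 + p, 70 - p, 0, 60],
    ![80 + q, 80 - q, 60, 0]]
lemma b1 : Good (B 2 0) := by decide
lemma b2 : Good (B 1 2) := by decide
lemma b3 : Good (B (-1) 2) := by decide
def sw : Fin 4 → Fin 4 := ![1, 0, 2, 3]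
lemma r12 : ∀ f : Fin 4 → Fin 4, (∀ x y, |B 2 0 x y - B 1 2 (f x) (f y)| ≤ 2) → f = id := by
  decide +kernel
lemma r23 : ∀ f : Fin 4 → Fin 4, (∀ x y, |B 1 2 x y - B (-1) 2 (f x) (f y)| ≤ 2) → f = id := by
  decide +kernel
lemma r13 : ∀ f : Fin 4 → Fin 4, (∀ x y, |B 2 0 x y - B (-1) 2 (f x) (f y)| ≤ 2) → f = sw := by
  decide +kernel

end Pool.Agent.Lib.helper15.GH3
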