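import Mathlib

open Finset

namespace Pool.Agent.Lib.helper15.Gur1

/-- the defining extension property of the Gurarii space -/
def GurProp (G : Type) [NormedAddCommGroup G] [NormedSpace ℝ G] : Prop :=
  ∀ ε : ℝ, 0 < ε → ∀ (A : Submodule ℝ G) (B : Type) [NormedAddCommGroup B] [NormedSpace ℝ B]
    [FiniteDimensional ℝ B] (g : A →ₗᵢ[ℝ] B), ∃ f : B →ₗ[ℝ] G,
      (∀ b, (1 + ε)⁻¹ * ‖b‖ ≤ ‖f b‖ ∧ ‖f b‖ ≤ (1 + ε) * ‖b‖) ∧
      ∀ a : A, ‖f (g a) - a‖ ≤ ε * ‖a‖

variable {G : Type} [NormedAddCommGroup G] [NormedSpace ℝ G]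

lemma not_fin (h : GurProp G) : ¬ FiniteDimensional ℝ G := by
  intro hf
  let g : (⊥ : Submodule ℝ G) →ₗᵢ[ℝ] (Fin (Module.finrank ℝ G + 1) → ℝ) :=
    { toLinearMap := 0
      norm_map' := fun x => by rw [Subsingleton.elim x 0]; simp }
  obtain ⟨f, hf, -⟩ := h 1 one_pos ⊥ _ g
  have hi : Function.Injective f := by
    rw [injective_iff_map_eq_zero]
    intro b hb
    have := (hf b).1
    rw [hb, norm_zero] at this
    exact norm_le_zero_iff.1 (by linarith)
  have := LinearMap.finrank_le_finrank_of_injective hi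
  simp at this

def sg (b : Bool) : ℝ := if b then 1 else -1

lemma sg_abs (b : Bool) : |sg b| = 1 := by cases b <;> simp [sg]

noncomputable def riesz {j : ℕ} (t : ℝ) (e w : Fin j → Bool) : ℝ :=
  (∏ k, (1 + Complex.I * (sg (e k) * sg (w k) * t : ℝ))).im

lemma riesz_le {n : ℕ} (hn : 0 < n) (e w : Fin (n ^ 2) → Bool) :
    |riesz (1 / n) e w| ≤ 2 := by
  refine (Complex.abs_im_le_norm _).trans ?_
  have hn' : (0 : ℝ) < n := by exact_mod_cast hn
  rw [← sq_le_sq₀ (norm_nonneg _) (by norm_num), norm_prod, ← Finset.prod_pow]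
  have h1 : ∀ k, ‖(1 + Complex.I * (sg (e k) * sg (w k) * (1 / n) : ℝ) : ℂ)‖ ^ 2 =
      1 + (1 / n : ℝ) ^ 2 := fun k => by
    rw [Complex.sq_norm, Complex.normSq_apply]
    cases e k <;> cases w k <;> simp [sg] <;> ring
  simp only [h1, prod_const, card_univ, Fintype.card_fin]
  calc (1 + (1 / n : ℝ) ^ 2) ^ n ^ 2 ≤ (Real.exp ((1 / n : ℝ) ^ 2)) ^ n ^ 2 := by
        gcongr; linarith [Real.add_one_le_exp ((1 / n : ℝ) ^ 2)]
    _ = Real.exp 1 := by
        rw [← Real.exp_nat_mul]; congr 1; push_cast; field_simp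
    _ ≤ 2 ^ 2 := by linarith [Real.exp_one_lt_d9]

lemma riesz_sum {j : ℕ} (t : ℝ) (w : Fin j → Bool) (i : Fin j) :
    ∑ e : Fin j → Bool, sg (e i) * riesz t e w = 2 ^ j * (sg (w i) * t) := by
  have h1 : ∀ e : Fin j → Bool, sg (e i) * riesz t e w = (∏ k, ((if k = i then (sg (e k) : ℂ)
      else 1) * (1 + Complex.I * (sg (e k) * sg (w k) * t : ℝ)))).im := fun e => by
    rw [prod_mul_distrib, prod_ite_eq']
    simp [riesz]
  simp only [h1]
  rw [← Complex.im_sum, ← Fintype.piFinset_univ, ← Finset.prod_univ_sum (fun _ => univ)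
    (fun k b => (if k = i then (sg b : ℂ) else 1) *
      (1 + Complex.I * (sg b * sg (w k) * t : ℝ)))]
  have h2 : ∀ k, ∑ b : Bool, (if k = i then (sg b : ℂ) else 1) *
      (1 + Complex.I * (sg b * sg (w k) * t : ℝ)) =
      2 * (if k = i then Complex.I * (sg (w k) * t : ℝ) else 1) := fun k => by
    rw [Fintype.sum_bool]
    have e1 : sg true = 1 := rfl
    have e2 : sg false = -1 := rfl
    rw [e1, e2]
    split_ifs <;> push_cast <;> ring
  simp only [h2]
  rw [prod_mul_distrib, prod_ite_eq']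
  have : ((2 : ℂ) ^ j) = ((2 ^ j : ℝ) : ℂ) := by push_cast; rfl
  simp only [prod_const, card_univ, Fintype.card_fin, mem_univ, if_true, this]
  rw [Complex.im_ofReal_mul]
  simp

lemma key {n : ℕ} (hn : 0 < n) (M : ℝ)
    (S : Fin (n ^ 2) → ((Fin (n ^ 2) → Bool) → ℝ) →ₗ[ℝ] ℝ)
    (h1 : ∀ y, ∑ i, |S i y| ≤ M * ‖y‖) (h2 : ∀ i, 1 / 2 ≤ S i fun w => sg (w i)) :
    (n : ℝ) ≤ 4 * |M| := by
  have hn' : (0 : ℝ) < n := by exact_mod_cast hn
  have e1 : ∀ i, ∑ e : Fin (n ^ 2) → Bool, sg (e i) * S i (riesz (1 / n) e) =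
      2 ^ n ^ 2 * (1 / n) * S i fun w => sg (w i) := fun i => by
    have : (∑ e : Fin (n ^ 2) → Bool, sg (e i) • riesz (1 / n) e) =
        (2 ^ n ^ 2 * (1 / n) : ℝ) • fun w => sg (w i) := by
      funext w
      rw [Finset.sum_apply]
      simp only [Pi.smul_apply, smul_eq_mul]
      rw [riesz_sum]; ring
    have := congrArg (S i) this
    simpa only [map_sum, map_smul, smul_eq_mul] using this
  have e2 : ∀ e : Fin (n ^ 2) → Bool, ∑ i, sg (e i) * S i (riesz (1 / n) e) ≤ |M| * 2 := fun e => by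
    refine (sum_le_sum fun i _ => (le_abs_self _).trans_eq
      (by rw [abs_mul, sg_abs, one_mul])).trans ((h1 _).trans ?_)
    exact mul_le_mul (le_abs_self M) ((pi_norm_le_iff_of_nonneg (by norm_num)).2
      fun w => riesz_le hn e w) (norm_nonneg _) (abs_nonneg M)
  have e3 : ∑ i, ∑ e : Fin (n ^ 2) → Bool, sg (e i) * S i (riesz (1 / n) e) ≤
      2 ^ n ^ 2 * (|M| * 2) := by
    rw [sum_comm]
    refine (sum_le_sum fun e _ => e2 e).trans_eq ?_
    simp
  have e4 : ∑ _i : Fin (n ^ 2), (2 ^ n ^ 2 * (1 / n) * (1 / 2) : ℝ) ≤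
      ∑ i, ∑ e : Fin (n ^ 2) → Bool, sg (e i) * S i (riesz (1 / n) e) :=
    sum_le_sum fun i _ => by rw [e1]; gcongr; exact h2 i
  have e5 := e4.trans e3
  simp only [sum_const, card_univ, Fintype.card_fin, nsmul_eq_mul] at e5
  have e6 : ((n ^ 2 : ℕ) : ℝ) * (2 ^ n ^ 2 * (1 / n) * (1 / 2)) = 2 ^ n ^ 2 * (n / 2) := by
    push_cast; field_simp
  rw [e6] at e5
  have := le_of_mul_le_mul_left e5 (by positivity)
  linarith

lemma sum_abs_le {j : ℕ} (c : Fin j → ℝ) :
    ∑ i, |c i| ≤ ‖∑ i, c i • fun w : Fin j → Bool => sg (w i)‖ := by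
  refine le_trans ?_ ((Real.le_norm_self _).trans (norm_le_pi_norm
    (∑ i, c i • fun w : Fin j → Bool => sg (w i)) fun i => decide (0 ≤ c i)))
  rw [Finset.sum_apply]
  refine le_of_eq (sum_congr rfl fun i _ => ?_)
  by_cases h : 0 ≤ c i
  · simp [sg, h, abs_of_nonneg h]
  · simp [sg, h, abs_of_neg (not_le.1 h)]

/-- pushout: a finite-dimensional B containing span a isometrically, with r_i going to a_i -/
lemma push (h : GurProp G) {j : ℕ} (K ε : ℝ) (hK : 0 < K) (hε : 0 < ε) (a : Fin j → G)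
    (ha : ∀ i, ‖a i‖ ≤ K) : ∃ R : ((Fin j → Bool) → ℝ) →ₗ[ℝ] G,
      (∀ y, ‖R y‖ ≤ (1 + ε) * K * ‖y‖) ∧ ∀ i, ‖R (fun w => sg (w i)) - a i‖ ≤ ε * K := by
  let A : Submodule ℝ G := Submodule.span ℝ (Set.range a)
  have : FiniteDimensional ℝ A := FiniteDimensional.span_of_finite ℝ (Set.finite_range a)
  let a' : Fin j → A := fun i => ⟨a i, Submodule.subset_span ⟨i, rfl⟩⟩
  let W := WithLp 1 (A × ((Fin j → Bool) → ℝ))
  let v : Fin j → W := fun i => WithLp.toLp 1 (a' i, -K • fun w => sg (w i))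
  let N : Submodule ℝ W := Submodule.span ℝ (Set.range v)
  have : IsClosed (N : Set W) := N.closed_of_finiteDimensional
  have nW : ∀ x : W, ‖x‖ = ‖x.fst‖ + ‖x.snd‖ := fun x => WithLp.prod_norm_eq_of_L1 x
  let L : (A × ((Fin j → Bool) → ℝ)) →ₗ[ℝ] (W ⧸ N) :=
    N.mkQ ∘ₗ (WithLp.linearEquiv 1 ℝ _).symm.toLinearMap
  have hL : ∀ x, ‖L x‖ ≤ ‖x.1‖ + ‖x.2‖ := fun x =>
    (Submodule.Quotient.norm_mk_le N _).trans_eq (nW _)
  let g : A →ₗᵢ[ℝ] (W ⧸ N) :=
    { toLinearMap := L ∘ₗ LinearMap.inl ℝ _ _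
      norm_map' := fun x => by
        refine le_antisymm ((hL _).trans_eq (by simp)) (le_of_forall_pos_le_add fun d hd => ?_)
        obtain ⟨m, hm, hm2⟩ := Submodule.Quotient.norm_mk_lt (L (x, 0)) hd
        have hm3 : m - WithLp.toLp 1 (x, 0) ∈ N := (Submodule.Quotient.eq N).1 hm
        obtain ⟨c, hc⟩ := (Submodule.mem_span_range_iff_exists_fun ℝ).1 hm3
        have e1 : m.fst = x + ∑ i, c i • a' i := by
          have := congrArg (fun z : W => (WithLp.fstₗ 1 ℝ _ _) z) hc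
          simp only [map_sum, map_smul, map_sub] at this
          simp [v] at this
          rw [this]; abel
        have e2 : m.snd = -K • ∑ i, c i • fun w : Fin j → Bool => sg (w i) := by
          have := congrArg (fun z : W => (WithLp.sndₗ 1 ℝ _ _) z) hc
          simp only [map_sum, map_smul, map_sub] at this
          simp only [v, WithLp.sndₗ_apply, WithLp.toLp_snd, sub_zero] at this
          rw [← this, Finset.smul_sum]
          exact sum_congr rfl fun i _ => smul_comm _ _ _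
        have e3 : ‖∑ i, c i • a' i‖ ≤ K * ∑ i, |c i| := by
          rw [Finset.mul_sum]
          refine (norm_sum_le _ _).trans (sum_le_sum fun i _ => ?_)
          rw [norm_smul, mul_comm]
          exact mul_le_mul_of_nonneg_right (ha i) (abs_nonneg _)
        have e4 : K * ∑ i, |c i| ≤ ‖m.snd‖ := by
          rw [e2, norm_smul, norm_neg, Real.norm_of_nonneg hK.le]
          exact mul_le_mul_of_nonneg_left (sum_abs_le c) hK.le
        have e5 : ‖x‖ ≤ ‖m.fst‖ + ‖∑ i, c i • a' i‖ := by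
          rw [e1]; simpa using norm_sub_le (x + ∑ i, c i • a' i) (∑ i, c i • a' i)
        have e6 := nW m
        change ‖x‖ ≤ ‖L (x, 0)‖ + d
        linarith }
  obtain ⟨f, hf, hf2⟩ := h ε hε A _ g
  refine ⟨f ∘ₗ L ∘ₗ LinearMap.inr ℝ _ _ ∘ₗ (K • LinearMap.id), fun y => ?_, fun i => ?_⟩
  · refine (hf _).2.trans ?_
    rw [mul_assoc]
    gcongr
    refine (hL _).trans_eq ?_
    simp [norm_smul, abs_of_pos hK]
  · have e : L (0, K • fun w => sg (w i)) = g (a' i) := by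
      change L _ = L (a' i, 0)
      rw [eq_comm, ← sub_eq_zero, ← map_sub]
      refine (Submodule.Quotient.mk_eq_zero N).2 (Submodule.subset_span ⟨i, ?_⟩)
      simp [v]
    change ‖f (L (0, K • fun w => sg (w i))) - a i‖ ≤ _
    rw [e]
    exact (hf2 (a' i)).trans (mul_le_mul_of_nonneg_left (ha i) hε.le)

/-- no uniformly complemented l_1^j -/
lemma noL1 (h : GurProp G) (K : ℝ) (hK : 1 ≤ K) : ∃ j : ℕ, ∀ (a : Fin j → G)
    (g : Fin j → G →ₗ[ℝ] ℝ), (∀ i, ‖a i‖ ≤ K) → (∀ x, ∑ i, |g i x| ≤ K * ‖x‖) →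
      ¬ ∀ i, g i (a i) = 1 := by
  obtain ⟨n, hn⟩ := exists_nat_gt (4 * |K * (2 * K)|)
  have hn0 : 0 < n := by
    have : (0 : ℝ) < n := lt_of_le_of_lt (by positivity) hn
    exact_mod_cast this
  refine ⟨n ^ 2, fun a g ha hg h1 => ?_⟩
  have hK0 : 0 < K := by linarith
  obtain ⟨R, hR, hR2⟩ := push h K (1 / (2 * K ^ 2)) hK0 (by positivity) a ha
  have hε : 1 / (2 * K ^ 2) ≤ 1 := by
    rw [div_le_one (by positivity)]; nlinarith
  refine absurd (key hn0 (K * (2 * K)) (fun i => g i ∘ₗ R) (fun y => ?_) fun i => ?_) hn.not_ge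
  · refine (hg _).trans ?_
    rw [mul_assoc]
    gcongr
    refine (hR y).trans ?_
    gcongr
    linarith
  · have e1 : |g i (R (fun w => sg (w i)) - a i)| ≤ K * (1 / (2 * K ^ 2) * K) :=
      (single_le_sum (f := fun i' => |g i' (R (fun w => sg (w i)) - a i)|)
        (fun _ _ => abs_nonneg _) (mem_univ i)).trans ((hg _).trans (by gcongr; exact hR2 i))
    have e2 : K * (1 / (2 * K ^ 2) * K) = 1 / 2 := by field_simp
    rw [e2, map_sub, h1, abs_le] at e1
    change 1 / 2 ≤ g i (R fun w => sg (w i))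
    linarith [e1.1]

end Pool.Agent.Lib.helper15.Gur1
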