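import Mathlib

set_option autoImplicit false

open Filter Topology Set

namespace Pool.Agent.Lib.helper15.Hilb

abbrev P := ℝ × ℝ

def ip (φ v : P) : ℝ := φ.1 * v.1 + φ.2 * v.2
def l (φ v : P) : ℝ := 1 - ip φ v

structure Gg (G : P → ℝ) : Prop where
  cont : Continuous G
  add : ∀ x y, G (x + y) ≤ G x + G y
  hom : ∀ t : ℝ, 0 ≤ t → ∀ x, G (t • x) = t * G x
  pos : ∀ x, x ≠ 0 → 0 < G x
  dense : Dense {x | DifferentiableAt ℝ G x}

def Sup (G : P → ℝ) (φ A : P) : Prop := (∀ v, ip φ v ≤ G v) ∧ ip φ A = 1 ∧ G A = 1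
def Sm (G : P → ℝ) (φ A : P) : Prop := Sup G φ A ∧ ∀ ψ, Sup G ψ A → ψ = φ

variable {G : P → ℝ} (hG : Gg G)

lemma gg_of (K : Set P) (ho : IsOpen K) (hc : Convex ℝ K) (hb : Bornology.IsBounded K)
    (h0 : (0 : P) ∈ K) : Gg (gauge K) ∧ ∀ x, x ∈ K ↔ gauge K x < 1 := by
  have hn : K ∈ 𝓝 (0 : P) := ho.mem_nhds h0
  have ha : Absorbent ℝ K := absorbent_nhds_zero hn
  refine ⟨⟨continuous_gauge hc hn, gauge_add_le hc ha, fun t ht x => gauge_smul_of_nonneg ht x,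
    fun x hx => (gauge_pos ha ((NormedSpace.isVonNBounded_iff ℝ).2 hb)).2 hx, ?_⟩, fun x => ?_⟩
  · obtain ⟨C, hC⟩ := hc.lipschitz_gauge hn
    exact MeasureTheory.Measure.dense_of_ae (μ := MeasureTheory.volume) hC.ae_differentiableAt
  · rw [gauge_lt_one_iff_mem_interior hc hn, ho.interior_eq]

include hG

lemma Gg.zero : G 0 = 0 := by simpa using hG.hom 0 le_rfl 0

lemma Gg.nonneg (x : P) : 0 ≤ G x := by
  rcases eq_or_ne x 0 with rfl | h
  exacts [hG.zero.ge, (hG.pos x h).le]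

lemma Gg.conv {x y : P} {s t : ℝ} (hs : 0 ≤ s) (ht : 0 ≤ t) : G (s • x + t • y) ≤ s * G x + t * G y :=
  (hG.add _ _).trans_eq (by rw [hG.hom s hs, hG.hom t ht])

lemma Gg.exists_sup {A : P} (hA : G A = 1) : ∃ φ, Sup G φ A := by
  obtain ⟨f, hf⟩ := geometric_hahn_banach_open_point (s := {x | G x < 1}) (x := A)
    (fun x hx y hy s t hs ht hst => by
      have := hG.conv (x := x) (y := y) hs ht
      simp only [mem_ofPred_eq] at hx hy ⊢
      rcases hs.eq_or_lt with rfl | hs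
      · rw [zero_add] at hst; subst hst; linarith
      · nlinarith)
    (isOpen_lt hG.cont continuous_const) (by simp [hA])
  have f0 : 0 < f A := by simpa using hf 0 (by simp [hG.zero])
  have e : ∀ v : P, ip ((f A)⁻¹ • (f (1, 0), f (0, 1))) v = (f A)⁻¹ * f v := fun v => by
    have : v = v.1 • ((1 : ℝ), (0 : ℝ)) + v.2 • ((0 : ℝ), (1 : ℝ)) := by ext <;> simp
    conv_rhs => rw [this, map_add, map_smul, map_smul]
    simp [ip]; ring
  refine ⟨_, fun v => ?_, by rw [e, inv_mul_cancel₀ f0.ne'], hA⟩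
  rw [e, inv_mul_le_iff₀ f0]
  refine le_of_forall_gt_imp_ge_of_dense fun t ht => ?_
  have g0 := hG.nonneg v
  have t0 : 0 < t := lt_of_le_of_lt (by positivity) ht
  have := hf ((f A / t) • v) (by
    rw [mem_ofPred_eq, hG.hom _ (by positivity), div_mul_eq_mul_div, div_lt_one t0]; exact ht)
  rw [map_smul, smul_eq_mul, div_mul_eq_mul_div, div_lt_iff₀ t0] at this
  nlinarith

lemma Gg.dense_sm {X : P} (hX : G X = 1) : X ∈ closure {A | ∃ φ, Sm G φ A} := by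
  have hc : ContinuousAt (fun p : P => (G p)⁻¹ • p) X :=
    (hG.cont.continuousAt.inv₀ (by simp [hX])).smul continuousAt_id
  have h1 : X ∈ closure ({p | 0 < G p} ∩ {x | DifferentiableAt ℝ G x}) :=
    hG.dense.open_subset_closure_inter (isOpen_lt continuous_const hG.cont) (by simp [hX])
  have h2 := mem_closure_image hc h1
  simp only [hX, inv_one, one_smul] at h2
  refine closure_mono ?_ h2
  rintro _ ⟨p, ⟨hp : 0 < G p, hd⟩, rfl⟩
  have hA : G ((G p)⁻¹ • p) = 1 := by rw [hG.hom _ (by positivity), inv_mul_cancel₀ hp.ne']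
  have key : ∀ ψ, Sup G ψ ((G p)⁻¹ • p) → ψ = (fderiv ℝ G p (1, 0), fderiv ℝ G p (0, 1)) := by
    intro ψ hψ
    have h1 : ip ψ p = G p := by
      have := hψ.2.1
      simp only [ip, Prod.smul_fst, Prod.smul_snd, smul_eq_mul] at this ⊢
      field_simp at this; linarith
    have h2 : HasFDerivAt (fun v => G v - ip ψ v) (fderiv ℝ G p -
        (ψ.1 • ContinuousLinearMap.fst ℝ ℝ ℝ + ψ.2 • ContinuousLinearMap.snd ℝ ℝ ℝ)) p :=
      (DifferentiableAt.hasFDerivAt hd).sub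
        ((hasFDerivAt_fst.const_mul ψ.1).add (hasFDerivAt_snd.const_mul ψ.2))
    have h3 := IsLocalMin.hasFDerivAt_eq_zero (Eventually.of_forall fun v => by
      have := hψ.1 v
      linarith) h2
    rw [sub_eq_zero] at h3
    rw [h3]; simp
  obtain ⟨φ, hφ⟩ := hG.exists_sup hA
  exact ⟨φ, hφ, fun ψ hψ => (key ψ hψ).trans (key φ hφ).symm⟩

lemma Gg.usc {φ A : P} (h : Sm G φ A) {I ψ : ℕ → P} (hs : ∀ n, Sup G (ψ n) (I n))
    (hI : Tendsto I atTop (𝓝 A)) : Tendsto ψ atTop (𝓝 φ) := by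
  have hc := hG.cont
  have cl : IsClosed {ψ : P | ∀ v, ip ψ v ≤ G v} := by
    rw [ofPred_forall]
    exact isClosed_iInter fun v => isClosed_le (by unfold ip; fun_prop) continuous_const
  have cp : IsCompact {ψ : P | ∀ v, ip ψ v ≤ G v} := by
    refine ((isCompact_Icc (a := -G (-1, 0)) (b := G (1, 0))).prod
      (isCompact_Icc (a := -G (0, -1)) (b := G (0, 1)))).of_isClosed_subset cl fun ψ h => ?_
    have h1 := h (1, 0); have h2 := h (-1, 0); have h3 := h (0, 1); have h4 := h (0, -1)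
    simp only [ip] at h1 h2 h3 h4
    exact ⟨⟨by linarith, by linarith⟩, by linarith, by linarith⟩
  refine cp.tendsto_nhds_of_unique_mapClusterPt (Eventually.of_forall fun n => (hs n).1)
    fun x hx hcl => h.2 x ⟨hx, le_antisymm ((hx A).trans h.1.2.2.le) ?_, h.1.2.2⟩
  refine le_of_forall_pos_le_add fun ε hε => ?_
  have h1 : Tendsto (fun n => G (I n - A)) atTop (𝓝 0) := by
    simpa [hG.zero, Function.comp_def] using (hc.tendsto (A - A)).comp (hI.sub_const A)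
  refine IsClosed.mem_of_mapClusterPt (s := {x | 1 ≤ ip x A + ε})
    (isClosed_le continuous_const (by unfold ip; fun_prop)) hcl ?_
  filter_upwards [h1.eventually (gt_mem_nhds hε)] with n hn
  have h2 := (hs n).1 (I n - A)
  have h3 := (hs n).2.1
  simp only [ip, Prod.fst_sub, Prod.snd_sub, mem_ofPred_eq] at h2 h3 ⊢
  linarith

lemma Gg.exit {x w : P} (hx : G x < 1) (hw : w ≠ 0) : ∃ t : ℝ, 0 < t ∧ G (x + t • w) = 1 := by
  have w0 := hG.pos w hw
  have n0 := hG.nonneg (-x)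
  have hc := hG.cont
  have h1 : 1 ≤ G (x + ((1 + G (-x)) / G w) • w) := by
    have := hG.add (x + ((1 + G (-x)) / G w) • w) (-x)
    rw [add_neg_cancel_comm, hG.hom _ (by positivity), div_mul_cancel₀ _ w0.ne'] at this
    linarith
  obtain ⟨t, ht, h⟩ := intermediate_value_Icc (f := fun t : ℝ => G (x + t • w)) (a := 0)
    (b := (1 + G (-x)) / G w) (by positivity) (by fun_prop) (show 1 ∈ _ from ⟨by simpa using hx.le, h1⟩)
  refine ⟨t, ht.1.lt_of_ne ?_, h⟩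
  rintro rfl
  simp only [zero_smul, add_zero] at h; linarith

lemma Gg.exit_eq {x w : P} {t : ℝ} (hx : G x < 1) (ht : 0 < t) (h : G (x + t • w) = 1) :
    {s : ℝ | 0 ≤ s ∧ G (x + s • w) < 1} = Ico 0 t := by
  ext s
  refine and_congr_right fun hs => ⟨fun h1 => ?_, fun h1 => ?_⟩
  · by_contra hn
    push Not at hn
    have s0 : 0 < s := ht.trans_le hn
    have := hG.conv (x := x) (y := x + s • w) (s := 1 - t / s) (t := t / s)
      (sub_nonneg.2 ((div_le_one s0).2 hn)) (by positivity)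
    rw [show (1 - t / s) • x + (t / s) • (x + s • w) = x + t • w by
      rw [smul_add, smul_smul, div_mul_cancel₀ _ s0.ne']; module, h] at this
    have h2 : 0 < t / s := by positivity
    have h3 : t / s ≤ 1 := (div_le_one s0).2 hn
    nlinarith
  · have := hG.conv (x := x) (y := x + t • w) (s := 1 - s / t) (t := s / t)
      (sub_nonneg.2 ((div_le_one ht).2 h1.le)) (by positivity)
    rw [show (1 - s / t) • x + (s / t) • (x + t • w) = x + s • w by
      rw [smul_add, smul_smul, div_mul_cancel₀ _ ht.ne']; module, h] at this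
    have h3 : s / t < 1 := (div_lt_one ht).2 h1
    nlinarith

/-- chord data -/
def Ch (G : P → ℝ) (a b φ ψ : P) : Prop :=
  ∃ σ : ℝ, 0 < σ ∧ ∃ τ : ℝ, 0 < τ ∧ Sup G φ (a - σ • (b - a)) ∧ Sup G ψ (b - τ • (a - b))

omit hG in
lemma Ch.symm {a b φ ψ : P} (h : Ch G a b φ ψ) : Ch G b a ψ φ :=
  let ⟨σ, h1, τ, h2, h3, h4⟩ := h; ⟨τ, h2, σ, h1, h4, h3⟩

lemma Gg.exists_ch {a b : P} (ha : G a < 1) (hb : G b < 1) (h : a ≠ b) : ∃ φ ψ, Ch G a b φ ψ := by
  obtain ⟨σ, h1, h2⟩ := hG.exit ha (w := -(b - a)) (by simpa [sub_eq_zero] using h)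
  obtain ⟨τ, h3, h4⟩ := hG.exit hb (w := -(a - b)) (by simpa [sub_eq_zero] using h.symm)
  rw [smul_neg, ← sub_eq_add_neg] at h2 h4
  obtain ⟨φ, hφ⟩ := hG.exists_sup h2
  obtain ⟨ψ, hψ⟩ := hG.exists_sup h4
  exact ⟨φ, ψ, σ, h1, τ, h3, hφ, hψ⟩

lemma Gg.lim_ch {A B φA : P} (hA : Sm G φA A) (hl : 0 < l φA B) {s : ℕ → ℝ}
    (s0 : ∀ n, 0 < s n) (s1 : ∀ n, s n < 1) (hs : Tendsto s atTop (𝓝 0)) {φ ψ : ℕ → P}
    (h : ∀ n, Ch G ((1 - s n) • A) ((1 - s n) • B) (φ n) (ψ n)) :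
    Tendsto φ atTop (𝓝 φA) ∧ Tendsto (fun n => l (φ n) ((1 - s n) • A) / s n) atTop (𝓝 1) := by
  choose σ h1 τ h2 h3 h4 using h
  have a1 := hA.1.2.1
  have hσ : ∀ n, σ n ≤ s n / ((1 - s n) * l φA B) := fun n => by
    have := (hA.1.1 _).trans (h3 n).2.2.le
    rw [le_div_iff₀ (mul_pos (by linarith [s1 n]) hl)]
    simp only [l, ip, Prod.fst_sub, Prod.snd_sub, Prod.smul_fst, Prod.smul_snd, smul_eq_mul]
      at this a1 ⊢
    linear_combination this - (1 - s n) * (1 + σ n) * a1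
  have lσ : Tendsto σ atTop (𝓝 0) := by
    refine squeeze_zero (fun n => (h1 n).le) hσ ?_
    simpa [Pi.div_def] using hs.div ((hs.const_sub 1).mul_const (l φA B)) (by simpa using hl.ne')
  have l1 : Tendsto φ atTop (𝓝 φA) := hG.usc hA h3 (by
    simpa using ((hs.const_sub 1).smul_const A).sub
      (lσ.smul (((hs.const_sub 1).smul_const B).sub ((hs.const_sub 1).smul_const A))))
  refine ⟨l1, ?_⟩
  have l2 : Tendsto (fun n => l (φ n) ((1 - s n) • B) / ((1 - s n) * l φA B)) atTop (𝓝 1) := by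
    have : Tendsto (fun n => l (φ n) ((1 - s n) • B)) atTop (𝓝 (l φA ((1 - 0 : ℝ) • B))) :=
      ((show Continuous fun q : P × P => l q.1 q.2 by unfold l ip; fun_prop).tendsto
        (φA, (1 - 0 : ℝ) • B)).comp (l1.prodMk_nhds ((hs.const_sub 1).smul_const B))
    simpa [hl.ne', Pi.div_def] using this.div ((hs.const_sub 1).mul_const (l φA B)) (by simpa using hl.ne')
  refine tendsto_of_tendsto_of_tendsto_of_le_of_le tendsto_const_nhds l2 (fun n => ?_) fun n => ?_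
  all_goals
    have e0 := ((h3 n).1 A).trans hA.1.2.2.le
    have e1 : s n ≤ l (φ n) ((1 - s n) • A) := by
      simp only [l, ip, Prod.smul_fst, Prod.smul_snd, smul_eq_mul] at e0 ⊢
      nlinarith [s1 n]
  · exact (one_le_div (s0 n)).2 e1
  · have e2 : (1 + σ n) * l (φ n) ((1 - s n) • A) = σ n * l (φ n) ((1 - s n) • B) := by
      have := (h3 n).2.1
      simp only [l, ip, Prod.fst_sub, Prod.snd_sub, Prod.smul_fst, Prod.smul_snd, smul_eq_mul]
        at this ⊢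
      linear_combination -this
    have e3 := hσ n
    have p0 := mul_pos (sub_pos.2 (s1 n)) hl
    rw [le_div_iff₀ p0] at e3
    have e4 : 0 < l (φ n) ((1 - s n) • B) := by
      refine (mul_pos_iff_of_pos_left (h1 n)).1 ?_
      rw [← e2]; exact mul_pos (by linarith [h1 n]) ((s0 n).trans_le e1)
    show _ / _ ≤ _ / _
    rw [div_le_div_iff₀ (s0 n) p0]
    nlinarith [mul_le_mul_of_nonneg_left e3 e4.le,
      mul_pos (mul_pos (h1 n) ((s0 n).trans_le e1)) p0]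

def det (f g h : ℝ × P) : ℝ := f.1 * (g.2.1 * h.2.2 - g.2.2 * h.2.1) -
  g.1 * (f.2.1 * h.2.2 - f.2.2 * h.2.1) + h.1 * (f.2.1 * g.2.2 - f.2.2 * g.2.1)

def co (φ ψ : P) (r : ℝ) : ℝ × P := (1 - r, r • ψ - φ)

noncomputable def rm (φ ψ a b : P) : ℝ := √(l φ a * l φ b / (l ψ a * l ψ b))

def Seg (G : P → ℝ) : Prop := ∀ A B C φA φB φC : P, Sm G φA A → Sm G φB B → Sm G φC C →
  φA ≠ φB → φB ≠ φC → φC ≠ φA → l φA B * l φB C * l φC A = l φB A * l φC B * l φA C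

omit hG in
lemma l_pos {A B φA φB : P} (hA : Sm G φA A) (hB : Sm G φB B) (h : φA ≠ φB) : 0 < l φA B := by
  have := (hA.1.1 B).trans hB.1.2.2.le
  refine sub_pos.2 (this.lt_of_ne fun e => h (hB.2 _ ⟨hA.1.1, e, hB.1.2.2⟩))

omit hG in
lemma det_mul {A B C φA φB φC : P} (a : ip φA A = 1) (b : ip φB B = 1) (c : ip φC C = 1) :
    det (1, -φA) (1, -φB) (1, -φC) * det (1, A) (1, B) (1, C) =
      l φA B * l φB C * l φC A + l φB A * l φC B * l φA C := by
  have e : det (1, -φA) (1, -φB) (1, -φC) * det (1, A) (1, B) (1, C) =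
      l φA A * (l φB B * l φC C - l φB C * l φC B) - l φA B * (l φB A * l φC C - l φB C * l φC A) +
      l φA C * (l φB A * l φC B - l φB B * l φC A) := by
    simp only [det, l, ip, Prod.fst_neg, Prod.snd_neg]; ring
  rw [e]; simp only [l, a, b, c]; ring

omit hG in
lemma col_det {a b c : P} (h : Collinear ℝ {a, b, c}) : det (1, a) (1, b) (1, c) = 0 := by
  obtain ⟨v, hv⟩ := (collinear_iff_of_mem (p₀ := a) (by simp)).1 h
  obtain ⟨r, rfl⟩ := hv b (by simp)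
  obtain ⟨t, rfl⟩ := hv c (by simp)
  simp [det]; ring

lemma Gg.seg (ρ : P → P → P → P → P → ℝ)
    (H : ∀ a b c : P, G a < 1 → G b < 1 → G c < 1 → ¬ Collinear ℝ {a, b, c} →
      ∃ φ1 ψ1 φ2 ψ2 φ3 ψ3 : P,
      Ch G a b φ1 ψ1 ∧ Ch G b c φ2 ψ2 ∧ Ch G c a φ3 ψ3 ∧ det (co φ1 ψ1 (ρ φ1 ψ1 a b c))
        (co φ2 ψ2 (ρ φ2 ψ2 b c a)) (co φ3 ψ3 (ρ φ3 ψ3 c a b)) = 0)
    (ρ0 : P → P → P → P → P → ℝ)
    (L : ∀ (A B C φA φB : P) (s : ℕ → ℝ) (φ ψ : ℕ → P), 0 < l φA B → 0 < l φB A → 0 < l φB C →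
      (∀ n, 0 < s n) → Tendsto s atTop (𝓝 0) → Tendsto φ atTop (𝓝 φA) → Tendsto ψ atTop (𝓝 φB) →
      Tendsto (fun n => l (φ n) ((1 - s n) • A) / s n) atTop (𝓝 1) →
      Tendsto (fun n => l (ψ n) ((1 - s n) • B) / s n) atTop (𝓝 1) →
      Tendsto (fun n => ρ (φ n) (ψ n) ((1 - s n) • A) ((1 - s n) • B) ((1 - s n) • C)) atTop
        (𝓝 (ρ0 φA φB A B C)))
    {A B C φA φB φC : P} (hA : Sm G φA A) (hB : Sm G φB B) (hC : Sm G φC C)
    (h1 : φA ≠ φB) (h2 : φB ≠ φC) (h3 : φC ≠ φA) :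
    ρ0 φA φB A B C * ρ0 φB φC B C A * ρ0 φC φA C A B = 1 := by
  have ab := l_pos hA hB h1; have ba := l_pos hB hA h1.symm
  have bc := l_pos hB hC h2; have cb := l_pos hC hB h2.symm
  have ca := l_pos hC hA h3; have ac := l_pos hA hC h3.symm
  have hd := det_mul hA.1.2.1 hB.1.2.1 hC.1.2.1
  have hd0 : det (1, -φA) (1, -φB) (1, -φC) * det (1, A) (1, B) (1, C) ≠ 0 := by
    rw [hd]; positivity
  let s : ℕ → ℝ := fun n => 1 / 2 * (1 / ((n : ℝ) + 1))
  have s0 : ∀ n, 0 < s n := fun n => by positivity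
  have s1 : ∀ n, s n < 1 := fun n => by
    have h4 : 1 / ((n : ℝ) + 1) ≤ 1 := by rw [div_le_one (by positivity)]; simp
    simp only [s]; linarith
  have hs : Tendsto s atTop (𝓝 0) := by
    simpa [s] using tendsto_one_div_add_atTop_nhds_zero_nat.const_mul (1 / 2 : ℝ)
  have g1 : ∀ X, G X = 1 → ∀ n, G ((1 - s n) • X) < 1 := fun X hX n => by
    rw [hG.hom _ (by linarith [s1 n]), hX]; linarith [s0 n]
  have nc : ∀ n, ¬ Collinear ℝ {(1 - s n) • A, (1 - s n) • B, (1 - s n) • C} := fun n h => by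
    have e : det (1, (1 - s n) • A) (1, (1 - s n) • B) (1, (1 - s n) • C) =
        (1 - s n) ^ 2 * det (1, A) (1, B) (1, C) := by simp [det]; ring
    rw [col_det h, eq_comm, mul_eq_zero] at e
    exact e.elim (pow_pos (sub_pos.2 (s1 n)) 2).ne' (right_ne_zero_of_mul hd0)
  choose φ1 ψ1 φ2 ψ2 φ3 ψ3 c1 c2 c3 c4 using fun n => H _ _ _
    (g1 A hA.1.2.2 n) (g1 B hB.1.2.2 n) (g1 C hC.1.2.2 n) (nc n)
  obtain ⟨a1, a2⟩ := hG.lim_ch hA ab s0 s1 hs c1
  obtain ⟨a3, a4⟩ := hG.lim_ch hB ba s0 s1 hs fun n => (c1 n).symm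
  obtain ⟨b1, b2⟩ := hG.lim_ch hB bc s0 s1 hs c2
  obtain ⟨b3, b4⟩ := hG.lim_ch hC cb s0 s1 hs fun n => (c2 n).symm
  obtain ⟨d1, d2⟩ := hG.lim_ch hC ca s0 s1 hs c3
  obtain ⟨d3, d4⟩ := hG.lim_ch hA ac s0 s1 hs fun n => (c3 n).symm
  have cc : ∀ {φ ψ : ℕ → P} {r : ℕ → ℝ} {φ0 ψ0 : P} {r0 : ℝ}, Tendsto φ atTop (𝓝 φ0) →
      Tendsto ψ atTop (𝓝 ψ0) → Tendsto r atTop (𝓝 r0) →
      Tendsto (fun n => co (φ n) (ψ n) (r n)) atTop (𝓝 (co φ0 ψ0 r0)) := fun h1 h2 h3 =>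
    (h3.const_sub 1).prodMk_nhds ((h3.smul h2).sub h1)
  have lim := ((show Continuous fun q : (ℝ × P) × (ℝ × P) × (ℝ × P) => det q.1 q.2.1 q.2.2 by
    unfold det; fun_prop).tendsto _).comp
      ((cc a1 a3 (L A B C _ _ s _ _ ab ba bc s0 hs a1 a3 a2 a4)).prodMk_nhds
      ((cc b1 b3 (L B C A _ _ s _ _ bc cb ca s0 hs b1 b3 b2 b4)).prodMk_nhds
      (cc d1 d3 (L C A B _ _ s _ _ ca ac ab s0 hs d1 d3 d2 d4))))
  have e := tendsto_nhds_unique lim (tendsto_const_nhds.congr fun n => (c4 n).symm)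
  have e2 : ∀ r1 r2 r3 : ℝ, det (co φA φB r1) (co φB φC r2) (co φC φA r3) =
      (1 - r1 * r2 * r3) * det (1, -φA) (1, -φB) (1, -φC) := fun r1 r2 r3 => by
    simp [det, co]; ring
  simp only [e2] at e
  linarith [(mul_eq_zero.1 e).resolve_right (left_ne_zero_of_mul hd0)]

omit hG in
lemma l_tend {φ a : ℕ → P} {φ0 a0 : P} (h1 : Tendsto φ atTop (𝓝 φ0)) (h2 : Tendsto a atTop (𝓝 a0)) :
    Tendsto (fun n => l (φ n) (a n)) atTop (𝓝 (l φ0 a0)) :=
  ((show Continuous fun q : P × P => l q.1 q.2 by unfold l ip; fun_prop).tendsto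
    (φ0, a0)).comp (h1.prodMk_nhds h2)

theorem Gg.seg_med (H : ∀ a b c φ1 ψ1 φ2 ψ2 φ3 ψ3 : P, G a < 1 → G b < 1 → G c < 1 →
      ¬ Collinear ℝ {a, b, c} → Ch G a b φ1 ψ1 → Ch G b c φ2 ψ2 → Ch G c a φ3 ψ3 →
      det (co φ1 ψ1 (rm φ1 ψ1 a b)) (co φ2 ψ2 (rm φ2 ψ2 b c)) (co φ3 ψ3 (rm φ3 ψ3 c a)) = 0) :
    Seg G := by
  intro A B C φA φB φC hA hB hC h1 h2 h3
  have := hG.seg (fun φ ψ a b _ => rm φ ψ a b) (fun a b c ha hb hc hn => by
      obtain ⟨φ1, ψ1, c1⟩ := hG.exists_ch ha hb (ne₁₂_of_not_collinear hn)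
      obtain ⟨φ2, ψ2, c2⟩ := hG.exists_ch hb hc (ne₂₃_of_not_collinear hn)
      obtain ⟨φ3, ψ3, c3⟩ := hG.exists_ch hc ha (ne₁₃_of_not_collinear hn).symm
      exact ⟨_, _, _, _, _, _, c1, c2, c3, H _ _ _ _ _ _ _ _ _ ha hb hc hn c1 c2 c3⟩) (fun φ ψ a b _ => √(l φ b / l ψ a))
    (fun A B C φA φB s φ ψ ab ba _ s0 hs l1 l2 l3 l4 => by
      have sm : ∀ X : P, Tendsto (fun n => (1 - s n) • X) atTop (𝓝 X) := fun X => by
        simpa using (hs.const_sub 1).smul_const X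
      have := ((l3.mul (l_tend l1 (sm B))).div ((l_tend l2 (sm A)).mul l4)
        (by simpa using ba.ne')).sqrt
      simp only [one_mul, mul_one] at this
      refine this.congr fun n => ?_
      have := (s0 n).ne'
      simp only [rm, Pi.div_apply]
      congr 1
      rw [div_mul_eq_mul_div, ← mul_div_assoc, div_div_div_cancel_right₀ this]) hA hB hC h1 h2 h3
  have ab := l_pos hA hB h1; have ba := l_pos hB hA h1.symm
  have bc := l_pos hB hC h2; have cb := l_pos hC hB h2.symm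
  have ca := l_pos hC hA h3; have ac := l_pos hA hC h3.symm
  rw [← Real.sqrt_mul (by positivity), ← Real.sqrt_mul (by positivity), Real.sqrt_eq_one] at this
  field_simp at this
  linarith

theorem Gg.seg_alt (H : ∀ a b c : P, G a < 1 → G b < 1 → G c < 1 → ¬ Collinear ℝ {a, b, c} →
      ∃ φ1 ψ1 φ2 ψ2 φ3 ψ3 : P, Ch G a b φ1 ψ1 ∧ Ch G b c φ2 ψ2 ∧ Ch G c a φ3 ψ3 ∧
      det (co φ1 ψ1 (l φ1 c / l ψ1 c)) (co φ2 ψ2 (l φ2 a / l ψ2 a))
        (co φ3 ψ3 (l φ3 b / l ψ3 b)) = 0) : Seg G := by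
  intro A B C φA φB φC hA hB hC h1 h2 h3
  have := hG.seg (fun φ ψ _ _ c => l φ c / l ψ c) H (fun φ ψ _ _ c => l φ c / l ψ c)
    (fun A B C φA φB s φ ψ ab ba bc s0 hs l1 l2 l3 l4 => by
      have sm : ∀ X : P, Tendsto (fun n => (1 - s n) • X) atTop (𝓝 X) := fun X => by
        simpa using (hs.const_sub 1).smul_const X
      exact (l_tend l1 (sm C)).div (l_tend l2 (sm C)) bc.ne') hA hB hC h1 h2 h3
  have ab := l_pos hA hB h1; have bc := l_pos hB hC h2; have ca := l_pos hC hA h3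
  field_simp at this
  linarith

lemma Gg.avoid (φ1 φ2 : P) : ∃ X φ, Sm G φ X ∧ φ ≠ φ1 ∧ φ ≠ φ2 := by
  obtain ⟨v, v0, h1⟩ : ∃ v : P, v ≠ 0 ∧ ip φ1 v = 0 := by
    rcases eq_or_ne φ1 0 with rfl | h
    · exact ⟨(1, 0), by simp, by simp [ip]⟩
    · refine ⟨(φ1.2, -φ1.1), fun e => h ?_, by simp [ip]; ring⟩
      simp only [Prod.ext_iff, Prod.fst_zero, Prod.snd_zero, neg_eq_zero] at e ⊢
      exact e.symm
  obtain ⟨w, w0, h2, h3⟩ : ∃ w : P, w ≠ 0 ∧ ip φ1 w = 0 ∧ ip φ2 w ≤ 0 := by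
    rcases le_total (ip φ2 v) 0 with h | h
    · exact ⟨v, v0, h1, h⟩
    · refine ⟨-v, by simpa, ?_, ?_⟩ <;> simp only [ip, Prod.fst_neg, Prod.snd_neg] at * <;> linarith
  have g0 := hG.pos w w0
  have hX : G ((G w)⁻¹ • w) = 1 := by rw [hG.hom _ (by positivity), inv_mul_cancel₀ g0.ne']
  have e : ∀ φ, ip φ ((G w)⁻¹ • w) = (G w)⁻¹ * ip φ w := fun φ => by simp [ip]; ring
  obtain ⟨X, ⟨a, b⟩, φ, hφ⟩ := mem_closure_iff.1 (hG.dense_sm hX) ({X | ip φ1 X < 1} ∩ {X | ip φ2 X < 1})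
    ((isOpen_lt (by unfold ip; fun_prop) continuous_const).inter
      (isOpen_lt (by unfold ip; fun_prop) continuous_const))
    ⟨by simp [e, h2], by
      rw [mem_ofPred_eq, e]; nlinarith [inv_pos.2 g0]⟩
  refine ⟨X, φ, hφ, ?_, ?_⟩ <;> rintro rfl
  exacts [a.ne hφ.1.2.1, b.ne hφ.1.2.1]

def IsQ (f : P → ℝ) : Prop := ∃ c0 c1 c2 α β γ : ℝ, ∀ X : P,
  f X = c0 + c1 * X.1 + c2 * X.2 + α * X.1 ^ 2 + 2 * β * X.1 * X.2 + γ * X.2 ^ 2

omit hG in
lemma IsQ.add {f g : P → ℝ} (hf : IsQ f) (hg : IsQ g) : IsQ fun X => f X + g X := by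
  obtain ⟨c0, c1, c2, α, β, γ, h⟩ := hf
  obtain ⟨c0', c1', c2', α', β', γ', h'⟩ := hg
  exact ⟨c0 + c0', c1 + c1', c2 + c2', α + α', β + β', γ + γ', fun X => by simp only [h, h']; ring⟩

omit hG in
lemma isQ_det (k : ℝ) (B C φ : P) : IsQ fun X => det (1, X) (1, B) (1, C) * (k * l φ X) :=
  ⟨k * (B.1 * C.2 - B.2 * C.1), k * (B.2 - C.2 - φ.1 * (B.1 * C.2 - B.2 * C.1)),
    k * (C.1 - B.1 - φ.2 * (B.1 * C.2 - B.2 * C.1)), -k * φ.1 * (B.2 - C.2),
    -k * (φ.1 * (C.1 - B.1) + φ.2 * (B.2 - C.2)) / 2, -k * φ.2 * (C.1 - B.1),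
    fun X => by simp only [det, l, ip]; ring⟩

omit hG in
lemma bary (A B C X φ : P) : det (1, A) (1, B) (1, C) * l φ X = det (1, X) (1, B) (1, C) * l φ A +
    det (1, X) (1, C) (1, A) * l φ B + det (1, X) (1, A) (1, B) * l φ C := by
  simp only [det, l, ip]; ring

omit hG in
lemma tang (S : Seg G) {A B C X φA φB φC : P} (hA : Sm G φA A) (hB : Sm G φB B) (hC : Sm G φC C)
    (h1 : φA ≠ φB) (h2 : φB ≠ φC) (h3 : φC ≠ φA) (hX : Sm G φA X) :
    l φA X = 0 ∧ det (1, X) (1, C) (1, A) = 0 ∧ det (1, X) (1, A) (1, B) = 0 := by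
  have ab := l_pos hA hB h1; have ba := l_pos hB hA h1.symm
  have bc := l_pos hB hC h2; have cb := l_pos hC hB h2.symm
  have ca := l_pos hC hA h3; have ac := l_pos hA hC h3.symm
  have s1 := S _ _ _ _ _ _ hA hB hC h1 h2 h3
  have s2 := S _ _ _ _ _ _ hX hB hC h1 h2 h3
  have x0 : l φA X = 0 := sub_eq_zero.2 hX.1.2.1.symm
  have e1 := bary A B C X φA
  have e2 := bary A B C X φB
  have e3 := bary A B C X φC
  rw [x0, show l φA A = 0 from sub_eq_zero.2 hA.1.2.1.symm] at e1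
  rw [show l φB B = 0 from sub_eq_zero.2 hB.1.2.1.symm] at e2
  rw [show l φC C = 0 from sub_eq_zero.2 hC.1.2.1.symm] at e3
  have e4 : l φC X * l φB A = l φB X * l φC A := by
    apply mul_left_cancel₀ (mul_pos ab bc).ne'
    linear_combination l φB A * s2 - l φB X * s1
  have e5 : det (1, X) (1, A) (1, B) * (l φA B * l φB C * l φC A * 2) = 0 := by
    linear_combination (l φA B * l φB A) * e3 - (l φA B * l φC A) * e2 -
      (det (1, A) (1, B) (1, C) * l φA B) * e4 - (l φC B * l φB A) * e1 +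
      det (1, X) (1, A) (1, B) * s1
  have c0 := (mul_eq_zero.1 e5).resolve_right (by positivity)
  refine ⟨x0, ?_, c0⟩
  rw [c0] at e1
  exact (mul_eq_zero.1 (by linarith : _ * l φA B = 0)).resolve_right ab.ne'

lemma Gg.conic (S : Seg G) : ∃ q, IsQ q ∧ (∃ X, q X ≠ 0) ∧ ∀ X, G X = 1 → q X = 0 := by
  obtain ⟨A, φA, hA, -, -⟩ := hG.avoid 0 0
  obtain ⟨B, φB, hB, h1, -⟩ := hG.avoid φA φA
  obtain ⟨C, φC, hC, h3, h2⟩ := hG.avoid φA φB
  replace h1 := h1.symm; replace h2 := h2.symm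
  have ab := l_pos hA hB h1; have ba := l_pos hB hA h1.symm
  have bc := l_pos hB hC h2; have cb := l_pos hC hB h2.symm
  have ca := l_pos hC hA h3; have ac := l_pos hA hC h3.symm
  have hd := det_mul hA.1.2.1 hB.1.2.1 hC.1.2.1
  have hd0 : det (1, A) (1, B) (1, C) ≠ 0 := right_ne_zero_of_mul (by rw [hd]; positivity)
  refine ⟨_, ((isQ_det (l φB A * l φC B) B C φA).add (isQ_det (l φA B * l φC B) C A φB)).add
    (isQ_det (l φA B * l φB C) A B φC), ⟨(1 / 2 : ℝ) • (A + B), ?_⟩, fun X hX => ?_⟩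
  · have a0 : l φA A = 0 := sub_eq_zero.2 hA.1.2.1.symm
    have b0 : l φB B = 0 := sub_eq_zero.2 hB.1.2.1.symm
    have e0 : ∀ φ, l φ ((1 / 2 : ℝ) • (A + B)) = (l φ A + l φ B) / 2 := fun φ => by
      simp [l, ip]; ring
    have e1 : det (1, (1 / 2 : ℝ) • (A + B)) (1, B) (1, C) = det (1, A) (1, B) (1, C) / 2 := by
      simp [det]; ring
    have e2 : det (1, (1 / 2 : ℝ) • (A + B)) (1, C) (1, A) = det (1, A) (1, B) (1, C) / 2 := by
      simp [det]; ring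
    have e3 : det (1, (1 / 2 : ℝ) • (A + B)) (1, A) (1, B) = 0 := by simp [det]; ring
    simp only [e0, e1, e2, e3, a0, b0, zero_mul, add_zero, zero_add, ← mul_add]
    positivity
  · refine IsClosed.closure_subset_iff (isClosed_eq (f := fun X =>
      det (1, X) (1, B) (1, C) * (l φB A * l φC B * l φA X) +
      det (1, X) (1, C) (1, A) * (l φA B * l φC B * l φB X) +
      det (1, X) (1, A) (1, B) * (l φA B * l φB C * l φC X)) (g := fun _ => 0) ?_
      continuous_const) |>.2 ?_ (hG.dense_sm hX)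
    · unfold det l ip; fun_prop
    rintro X ⟨φ, hX⟩
    rw [mem_ofPred_eq]
    by_cases e1 : φ = φA
    · obtain ⟨a, b, c⟩ := tang S hA hB hC h1 h2 h3 (e1 ▸ hX)
      simp [a, b, c]
    by_cases e2 : φ = φB
    · obtain ⟨a, b, c⟩ := tang S hB hC hA h2 h3 h1 (e2 ▸ hX)
      simp [a, b, c]
    by_cases e3 : φ = φC
    · obtain ⟨a, b, c⟩ := tang S hC hA hB h3 h1 h2 (e3 ▸ hX)
      simp [a, b, c]
    have s1 := S _ _ _ _ _ _ hA hB hX h1 (Ne.symm e2) e1
    have s2 := S _ _ _ _ _ _ hB hC hX h2 (Ne.symm e3) e2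
    have e := bary A B C X φ
    rw [show l φ X = 0 from sub_eq_zero.2 hX.1.2.1.symm] at e
    apply mul_left_cancel₀ (l_pos hX hB e2).ne'
    linear_combination (-l φA B * l φC B * l φB X) * e -
      (det (1, X) (1, B) (1, C) * l φC B) * s1 + (det (1, X) (1, A) (1, B) * l φA B) * s2

theorem Gg.ellipse (S : Seg G) : ∃ f : P ≃ᵃ[ℝ] P, ∀ p, G (f p) < 1 ↔ p.1 ^ 2 + p.2 ^ 2 < 1 := by
  obtain ⟨q, ⟨c0, c1, c2, α, β, γ, hq⟩, ⟨X0, h0⟩, h⟩ := hG.conic S
  have key : ∀ v : P, c1 * v.1 + c2 * v.2 = -c0 * (G v - G (-v)) ∧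
      α * v.1 ^ 2 + 2 * β * v.1 * v.2 + γ * v.2 ^ 2 = -c0 * (G v * G (-v)) := fun v => by
    rcases eq_or_ne v 0 with rfl | hv
    · simp [hG.zero]
    have k : ∀ v : P, v ≠ 0 → c0 * G v ^ 2 + (c1 * v.1 + c2 * v.2) * G v +
        (α * v.1 ^ 2 + 2 * β * v.1 * v.2 + γ * v.2 ^ 2) = 0 := fun v hv => by
      have g0 := hG.pos v hv
      have := h ((G v)⁻¹ • v) (by rw [hG.hom _ (by positivity), inv_mul_cancel₀ g0.ne'])
      rw [hq] at this
      simp only [Prod.smul_fst, Prod.smul_snd, smul_eq_mul] at this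
      field_simp at this
      linear_combination this
    have k1 := k v hv
    have k2 := k (-v) (by simpa)
    simp only [Prod.fst_neg, Prod.snd_neg] at k2
    have e : c1 * v.1 + c2 * v.2 = -c0 * (G v - G (-v)) := by
      apply mul_left_cancel₀ (add_pos (hG.pos v hv) (hG.pos (-v) (by simpa))).ne'
      linear_combination k1 - k2
    exact ⟨e, by linear_combination k1 - G v * e⟩
  have c0' : c0 ≠ 0 := by
    rintro rfl
    refine h0 ?_
    rw [hq]; linear_combination (key X0).1 + (key X0).2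
  obtain ⟨a1, a2, α, β, γ, key⟩ : ∃ a1 a2 α β γ : ℝ, ∀ v : P, a1 * v.1 + a2 * v.2 = G v - G (-v) ∧
      α * v.1 ^ 2 + 2 * β * v.1 * v.2 + γ * v.2 ^ 2 = G v * G (-v) :=
    ⟨-c1 / c0, -c2 / c0, -α / c0, -β / c0, -γ / c0, fun v =>
      ⟨by field_simp; linear_combination -(key v).1, by field_simp; linear_combination -(key v).2⟩⟩
  have pd : ∀ v : P, v ≠ 0 → 0 < α * v.1 ^ 2 + 2 * β * v.1 * v.2 + γ * v.2 ^ 2 := fun v hv => by
    rw [(key v).2]; exact mul_pos (hG.pos v hv) (hG.pos (-v) (by simpa))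
  have α0 : 0 < α := by simpa using pd (1, 0) (by simp)
  have δ0 : 0 < α * γ - β ^ 2 := by
    have := pd (-β, α) (by simp [α0.ne'])
    refine (mul_pos_iff_of_pos_left α0).1 (by linarith)
  set δ := α * γ - β ^ 2 with hδ
  set x0 := (β * a2 - γ * a1) / (2 * δ) with hx
  set y0 := (β * a1 - α * a2) / (2 * δ) with hy
  have x1 : 2 * α * x0 + 2 * β * y0 = -a1 := by rw [hx, hy]; field_simp; rw [hδ]; ring
  have y1 : 2 * β * x0 + 2 * γ * y0 = -a2 := by rw [hx, hy]; field_simp; rw [hδ]; ring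
  set R := 1 + (α * x0 ^ 2 + 2 * β * x0 * y0 + γ * y0 ^ 2) with hR
  have R0 : 0 < R := by
    have := (key (x0, y0)).2
    have := mul_nonneg (hG.nonneg (x0, y0)) (hG.nonneg (-(x0, y0)))
    simp only at *; linarith
  obtain ⟨k1, k10, hk1⟩ : ∃ k : ℝ, k ≠ 0 ∧ α * k ^ 2 = R :=
    ⟨√(R / α), by positivity, by rw [Real.sq_sqrt (by positivity)]; field_simp⟩
  obtain ⟨k2, k20, hk2⟩ : ∃ k : ℝ, k ≠ 0 ∧ δ * k ^ 2 = R * α :=
    ⟨√(R * α / δ), by positivity, by rw [Real.sq_sqrt (by positivity)]; field_simp⟩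
  let f0 : P ≃ₗ[ℝ] P :=
    { toFun := fun p => (k1 * p.1 - β / α * k2 * p.2, k2 * p.2)
      invFun := fun p => ((p.1 + β / α * p.2) / k1, p.2 / k2)
      map_add' := fun p q => by ext <;> simp <;> ring
      map_smul' := fun t p => by ext <;> simp <;> ring
      left_inv := fun p => by ext <;> simp <;> field_simp <;> ring
      right_inv := fun p => by ext <;> simp <;> field_simp <;> ring }
  refine ⟨f0.toAffineEquiv.trans (AffineEquiv.constVAdd ℝ P (x0, y0)), fun p => ?_⟩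
  set v := (f0.toAffineEquiv.trans (AffineEquiv.constVAdd ℝ P (x0, y0))) p with hv
  have v1 : v.1 = x0 + (k1 * p.1 - β / α * k2 * p.2) := rfl
  have v2 : v.2 = y0 + k2 * p.2 := rfl
  have e : (1 - G v) * (1 + G (-v)) = R * (1 - (p.1 ^ 2 + p.2 ^ 2)) := by
    have h1 := (key v).1
    have h2 := (key v).2
    have h3 : α * (β / α) = β := by field_simp
    rw [v1, v2] at h1 h2
    apply mul_left_cancel₀ α0.ne'
    generalize β / α = m at *
    subst h3
    rw [hδ] at hk2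
    linear_combination α * h1 + α * h2 - α * hR +
      (-α * (x0 + (k1 * p.1 - m * k2 * p.2))) * x1 + (-α * (y0 + k2 * p.2)) * y1 -
      α * p.1 ^ 2 * hk1 - p.2 ^ 2 * hk2
  have n0 := hG.nonneg (-v)
  constructor <;> intro h1
  · have : 0 < R * (1 - (p.1 ^ 2 + p.2 ^ 2)) := by rw [← e]; apply mul_pos <;> linarith
    linarith [(mul_pos_iff_of_pos_left R0).1 this]
  · have : 0 < (1 - G v) * (1 + G (-v)) := by rw [e]; apply mul_pos <;> linarith
    linarith [(mul_pos_iff_of_pos_right (by linarith : 0 < 1 + G (-v))).1 this]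

noncomputable def hd (G : P → ℝ) (x y : P) : ℝ := (1 / 2) * Real.log
  (((1 + sSup {s : ℝ | 0 ≤ s ∧ G (x - s • (y - x)) < 1}) *
      sSup {t : ℝ | 0 ≤ t ∧ G (x + t • (y - x)) < 1}) /
    (sSup {s : ℝ | 0 ≤ s ∧ G (x - s • (y - x)) < 1} *
      (sSup {t : ℝ | 0 ≤ t ∧ G (x + t • (y - x)) < 1} - 1)))

lemma Gg.hd_eq {x y : P} {S T : ℝ} (hx : G x < 1) (S0 : 0 < S) (T0 : 0 < T)
    (h1 : G (x - S • (y - x)) = 1) (h2 : G (x + T • (y - x)) = 1) :
    hd G x y = 1 / 2 * Real.log ((1 + S) * T / (S * (T - 1))) := by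
  have e1 := hG.exit_eq hx S0 (w := -(y - x)) (by rwa [smul_neg, ← sub_eq_add_neg])
  simp only [smul_neg, ← sub_eq_add_neg] at e1
  rw [hd, e1, hG.exit_eq hx T0 h2, csSup_Ico S0, csSup_Ico T0]

omit hG in
lemma hd_self {x : P} (hx : G x < 1) : hd G x x = 0 := by
  have : sSup {s : ℝ | 0 ≤ s} = 0 := Real.sSup_of_not_bddAbove (not_bddAbove_Ici 0)
  simp [hd, hx, this]

omit hG in
lemma l_pos' {φ x : P} (h : ∀ v, ip φ v ≤ G v) (hx : G x < 1) : 0 < l φ x :=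
  sub_pos.2 ((h x).trans_lt hx)

noncomputable def lr (φ ψ p : P) : ℝ := Real.log (l φ p / l ψ p)

lemma Gg.hd_ge0 {x y φ ψ : P} (hx : G x < 1) (hy : G y < 1) (h1 : ∀ v, ip φ v ≤ G v)
    (h2 : ∀ v, ip ψ v ≤ G v) : 1 / 2 * (lr φ ψ y - lr φ ψ x) ≤ hd G x y := by
  rcases eq_or_ne x y with rfl | h
  · simp [hd_self hx]
  obtain ⟨φ', ψ', σ, σ0, τ, τ0, h3, h4⟩ := hG.exists_ch hx hy h
  have e : y - τ • (x - y) = x + (1 + τ) • (y - x) := by module
  rw [hG.hd_eq hx σ0 (by linarith : 0 < 1 + τ) h3.2.2 (e ▸ h4.2.2)]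
  have a1 := l_pos' h1 hx; have a2 := l_pos' h1 hy
  have a3 := l_pos' h2 hx; have a4 := l_pos' h2 hy
  rw [lr, lr, ← Real.log_div (by positivity) (by positivity), add_sub_cancel_left]
  refine mul_le_mul_of_nonneg_left (Real.log_le_log (by positivity) ?_) (by norm_num)
  have b1 : σ * l φ y ≤ (1 + σ) * l φ x := by
    have := (h1 _).trans h3.2.2.le
    simp only [l, ip, Prod.fst_sub, Prod.snd_sub, Prod.smul_fst, Prod.smul_snd, smul_eq_mul]
      at this ⊢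
    linarith
  have b2 : τ * l ψ x ≤ (1 + τ) * l ψ y := by
    have := (h2 _).trans h4.2.2.le
    simp only [l, ip, Prod.fst_sub, Prod.snd_sub, Prod.smul_fst, Prod.smul_snd, smul_eq_mul]
      at this ⊢
    linarith
  rw [div_div_div_eq, div_le_div_iff₀ (by positivity) (by positivity)]
  nlinarith [mul_le_mul b1 b2 (by positivity) (by positivity)]

lemma Gg.hd_ge {x y φ ψ : P} (hx : G x < 1) (hy : G y < 1) (h1 : ∀ v, ip φ v ≤ G v)
    (h2 : ∀ v, ip ψ v ≤ G v) : 1 / 2 * |lr φ ψ y - lr φ ψ x| ≤ hd G x y := by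
  have a := hG.hd_ge0 hx hy h1 h2
  have b := hG.hd_ge0 hx hy h2 h1
  have e : ∀ p, lr ψ φ p = -lr φ ψ p := fun p => by rw [lr, lr, ← Real.log_inv, inv_div]
  rw [e, e] at b
  rcases abs_cases (lr φ ψ y - lr φ ψ x) with h | h <;> rw [h.1] <;> linarith

omit hG in
lemma Ch.aff {a b φ ψ : P} (h : Ch G a b φ ψ) (ha : G a < 1) (hb : G b < 1) :
    ∃ σ τ κ1 κ2 : ℝ, 0 < σ ∧ 0 < τ ∧ 0 < κ1 ∧ 0 < κ2 ∧ G (a + (-σ) • (b - a)) = 1 ∧
      G (a + (1 + τ) • (b - a)) = 1 ∧ (∀ t : ℝ, l φ (a + t • (b - a)) = (t + σ) * κ1) ∧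
      ∀ t : ℝ, l ψ (a + t • (b - a)) = (1 + τ - t) * κ2 := by
  obtain ⟨σ, σ0, τ, τ0, h1, h2⟩ := h
  have e1 : ∀ t : ℝ, l φ (a + t • (b - a)) = (t + σ) * -ip φ (b - a) := fun t => by
    have := h1.2.1
    simp only [l, ip, Prod.fst_sub, Prod.snd_sub, Prod.smul_fst, Prod.smul_snd, smul_eq_mul,
      Prod.fst_add, Prod.snd_add] at this ⊢
    linarith
  have e2 : ∀ t : ℝ, l ψ (a + t • (b - a)) = (1 + τ - t) * ip ψ (b - a) := fun t => by
    have := h2.2.1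
    simp only [l, ip, Prod.fst_sub, Prod.snd_sub, Prod.smul_fst, Prod.smul_snd, smul_eq_mul,
      Prod.fst_add, Prod.snd_add] at this ⊢
    linarith
  refine ⟨σ, τ, _, _, σ0, τ0, ?_, ?_, by rw [neg_smul, ← sub_eq_add_neg]; exact h1.2.2,
    by rw [show a + (1 + τ) • (b - a) = b - τ • (a - b) by module]; exact h2.2.2, e1, e2⟩
  · have := l_pos' h1.1 ha
    rw [show a = a + (0 : ℝ) • (b - a) by simp, e1, zero_add] at this
    exact (mul_pos_iff_of_pos_left σ0).1 this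
  · have := l_pos' h2.1 ha
    rw [show a = a + (0 : ℝ) • (b - a) by simp, e2, sub_zero] at this
    exact (mul_pos_iff_of_pos_left (by linarith)).1 this

lemma Gg.hd_ch {a b φ ψ : P} (h : Ch G a b φ ψ) (ha : G a < 1) (hb : G b < 1) {s t : ℝ}
    (hs : G (a + s • (b - a)) < 1) (ht : G (a + t • (b - a)) < 1) :
    hd G (a + s • (b - a)) (a + t • (b - a)) =
      1 / 2 * |lr φ ψ (a + t • (b - a)) - lr φ ψ (a + s • (b - a))| := by
  obtain ⟨σ, τ, κ1, κ2, σ0, τ0, k1, k2, g1, g2, e1, e2⟩ := h.aff ha hb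
  obtain ⟨_, -, _, -, h1, h2⟩ := h
  have a1 := l_pos' h1.1 hs; have a2 := l_pos' h1.1 ht
  have a3 := l_pos' h2.1 hs; have a4 := l_pos' h2.1 ht
  rw [e1, mul_pos_iff_of_pos_right k1] at a1 a2
  rw [e2, mul_pos_iff_of_pos_right k2] at a3 a4
  rw [lr, lr, e1, e1, e2, e2, ← Real.log_div (by positivity) (by positivity)]
  have w : ∀ u c : ℝ, c * (t - s) = u - s → a + s • (b - a) + c •
      (a + t • (b - a) - (a + s • (b - a))) = a + u • (b - a) := fun u c h => by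
    rw [show a + t • (b - a) - (a + s • (b - a)) = (t - s) • (b - a) by module, smul_smul, h]
    module
  have w' : ∀ u c : ℝ, -c * (t - s) = u - s → a + s • (b - a) - c •
      (a + t • (b - a) - (a + s • (b - a))) = a + u • (b - a) := fun u c h => by
    rw [← w u (-c) h]; module
  rcases lt_trichotomy s t with h | rfl | h
  · have d := sub_pos.2 h
    rw [hG.hd_eq hs (S := (s + σ) / (t - s)) (T := (1 + τ - s) / (t - s)) (by positivity)
      (by positivity) (by rw [w' (-σ) _ (by field_simp; ring), g1])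
      (by rw [w (1 + τ) _ (by field_simp), g2]), abs_of_nonneg (Real.log_nonneg ?_)]
    · congr 2
      rw [div_sub_one d.ne', show 1 + τ - s - (t - s) = 1 + τ - t by ring]
      field_simp; ring
    · rw [one_le_div (by positivity), div_le_div_iff₀ (by positivity) (by positivity)]
      nlinarith [mul_pos (mul_pos k1 k2) (mul_pos d (by positivity : 0 < 1 + τ + σ))]
  · rw [hd_self hs, div_self (by positivity)]; simp
  · have d := sub_pos.2 h
    rw [hG.hd_eq hs (S := (1 + τ - s) / (s - t)) (T := (s + σ) / (s - t)) (by positivity)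
      (by positivity) (by rw [w' (1 + τ) _ (by field_simp; ring), g2])
      (by rw [w (-σ) _ (by field_simp; ring), g1]),
      abs_of_nonpos (Real.log_nonpos (by positivity) ?_), ← Real.log_inv]
    · congr 2
      rw [div_sub_one d.ne', show s + σ - (s - t) = t + σ by ring]
      field_simp; ring
    · rw [div_le_one (by positivity), div_le_div_iff₀ (by positivity) (by positivity)]
      nlinarith [mul_pos (mul_pos k1 k2) (mul_pos d (by positivity : 0 < 1 + τ + σ))]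

def ev (f : ℝ × P) (p : P) : ℝ := f.1 + ip f.2 p

omit hG in
lemma ev_co (φ ψ p : P) (r : ℝ) : ev (co φ ψ r) p = l φ p - r * l ψ p := by
  simp [ev, co, l, ip]; ring

lemma Gg.foot {a b φ ψ : P} (h : Ch G a b φ ψ) (ha : G a < 1) (hb : G b < 1) {r : ℝ} (hr : 0 < r) :
    (co φ ψ r).2 ≠ 0 ∧ ∃ t : ℝ, G (a + t • (b - a)) < 1 ∧ ev (co φ ψ r) (a + t • (b - a)) = 0 ∧
      (∀ s : ℝ, G (a + s • (b - a)) < 1 → ∀ z, G z < 1 → ev (co φ ψ r) z = 0 →
        hd G (a + s • (b - a)) (a + t • (b - a)) ≤ hd G (a + s • (b - a)) z) ∧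
      (r = rm φ ψ a b → 0 ≤ t ∧ t ≤ 1 ∧ hd G a (a + t • (b - a)) = hd G (a + t • (b - a)) b) := by
  obtain ⟨σ, τ, κ1, κ2, σ0, τ0, k1, k2, g1, g2, e1, e2⟩ := h.aff ha hb
  have p0 : 0 < κ1 + r * κ2 := by positivity
  obtain ⟨t, ht⟩ : ∃ t, (t + σ) * κ1 = r * ((1 + τ - t) * κ2) :=
    ⟨(r * (1 + τ) * κ2 - σ * κ1) / (κ1 + r * κ2), by field_simp; ring⟩
  have t1 : 0 < t + σ := by
    refine (mul_pos_iff_of_pos_right p0).1 ?_
    nlinarith [mul_pos (mul_pos hr k2) (by positivity : 0 < 1 + τ + σ)]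
  have t2 : 0 < 1 + τ - t := by
    refine (mul_pos_iff_of_pos_right p0).1 ?_
    nlinarith [mul_pos k1 (by positivity : 0 < 1 + τ + σ)]
  have hin : G (a + t • (b - a)) < 1 := by
    rcases le_total 0 t with h | h
    · exact ((hG.exit_eq ha (by linarith) g2).ge ⟨h, by linarith⟩).2
    · have := ((hG.exit_eq ha σ0 (w := -(b - a)) (by rwa [smul_neg, ← neg_smul])).ge
        (show -t ∈ _ from ⟨by linarith, by linarith⟩)).2
      rwa [neg_smul_neg] at this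
  have h' := h
  obtain ⟨_, -, _, -, h1, h2⟩ := h'
  have lz : ∀ z, G z < 1 → ev (co φ ψ r) z = 0 → lr φ ψ z = Real.log r := fun z hz e => by
    rw [ev_co, sub_eq_zero] at e
    rw [lr, e, mul_div_cancel_right₀ _ (l_pos' h2.1 hz).ne']
  have e0 : ev (co φ ψ r) (a + t • (b - a)) = 0 := by rw [ev_co, e1, e2, ht, sub_self]
  refine ⟨fun h0 => ?_, t, hin, e0, fun s hs z hz e => ?_, fun e => ?_⟩
  · have e3 : ev (co φ ψ r) (a + (-σ) • (b - a)) = 0 := by
      rw [← e0]; simp only [ev, h0, ip]; simp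
    rw [ev_co, e1, e2] at e3
    nlinarith [mul_pos (mul_pos hr k2) (by positivity : 0 < 1 + τ + σ)]
  · rw [hG.hd_ch h ha hb hs hin, lz _ hin e0, ← lz z hz e]
    exact hG.hd_ge hs hz h1.1 h2.1
  · have a0 : a = a + (0 : ℝ) • (b - a) := by simp
    have b0 : b = a + (1 : ℝ) • (b - a) := by simp
    have r2 : r ^ 2 = l φ a * l φ b / (l ψ a * l ψ b) := by
      have := l_pos' h1.1 ha; have := l_pos' h1.1 hb
      have := l_pos' h2.1 ha; have := l_pos' h2.1 hb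
      rw [e, rm, Real.sq_sqrt (by positivity)]
    have r3 : Real.log r - lr φ ψ a = lr φ ψ b - Real.log r := by
      have := l_pos' h1.1 ha; have := l_pos' h1.1 hb
      have := l_pos' h2.1 ha; have := l_pos' h2.1 hb
      have := Real.log_pow r 2
      rw [r2, mul_div_mul_comm, Real.log_mul (by positivity) (by positivity)] at this
      simp only [lr]; push_cast at this; linarith
    have c1 := e1 0; have c2 := e1 1; have c3 := e2 0; have c4 := e2 1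
    rw [← a0] at c1 c3; rw [← b0] at c2 c4
    rw [c1, c2, c3, c4, sub_zero, show 1 + τ - 1 = τ by ring, zero_add,
      eq_div_iff (by positivity)] at r2
    refine ⟨?_, ?_, ?_⟩
    · refine (mul_nonneg_iff_of_pos_right p0).1 ?_
      have : σ * κ1 ≤ r * ((1 + τ) * κ2) := by
        refine (pow_le_pow_iff_left₀ (by positivity) (by positivity) two_ne_zero).1 ?_
        refine le_of_mul_le_mul_left ?_ τ0
        have : τ * (r * ((1 + τ) * κ2)) ^ 2 = (1 + τ) * (σ * κ1 * ((1 + σ) * κ1)) := by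
          linear_combination (1 + τ) * r2
        rw [this]
        nlinarith [mul_pos (mul_pos σ0 (mul_pos k1 k1)) (by positivity : 0 < 1 + τ + σ)]
      linarith
    · rw [← sub_nonneg]
      refine (mul_nonneg_iff_of_pos_right p0).1 ?_
      have : r * (τ * κ2) ≤ (1 + σ) * κ1 := by
        refine (pow_le_pow_iff_left₀ (by positivity) (by positivity) two_ne_zero).1 ?_
        refine le_of_mul_le_mul_left ?_ (by positivity : 0 < 1 + τ)
        have : (1 + τ) * (r * (τ * κ2)) ^ 2 = τ * (σ * κ1 * ((1 + σ) * κ1)) := by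
          linear_combination τ * r2
        rw [this]
        nlinarith [mul_pos (mul_pos (by positivity : 0 < 1 + σ) (mul_pos k1 k1))
          (by positivity : 0 < 1 + τ + σ)]
      linarith
    · have x1 := hG.hd_ch h ha hb (s := 0) (a0 ▸ ha) hin
      have x2 := hG.hd_ch h ha hb (t := 1) hin (b0 ▸ hb)
      rw [← a0] at x1; rw [← b0] at x2
      rw [x1, x2, lz _ hin e0, r3]

omit hG in
lemma line_ex (O m : P) {f : ℝ × P} (hf : f.2 ≠ 0) (hm : ev f m = 0) :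
    ∃ ℓ : AffineSubspace ℝ P, Module.finrank ℝ ℓ.direction = 1 ∧ (∀ p, O + p ∈ ℓ ↔ ev f p = 0) ∧
      ∀ v ∈ ℓ.direction, ip f.2 v = 0 := by
  have h0 : ((-f.2.2, f.2.1) : P) ≠ 0 := fun e => hf (by
    simp only [Prod.ext_iff, Prod.fst_zero, Prod.snd_zero, neg_eq_zero] at e ⊢; exact e.symm)
  have key : ∀ v : P, v ∈ Submodule.span ℝ {((-f.2.2, f.2.1) : P)} ↔ ip f.2 v = 0 := fun v => by
    rw [Submodule.mem_span_singleton]
    constructor
    · rintro ⟨c, rfl⟩; simp [ip]; ring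
    · intro h
      have : f.2.1 ^ 2 + f.2.2 ^ 2 ≠ 0 := fun e => hf (Prod.ext (by simp; nlinarith) (by simp; nlinarith))
      refine ⟨(f.2.1 * v.2 - f.2.2 * v.1) / (f.2.1 ^ 2 + f.2.2 ^ 2), Prod.ext ?_ ?_⟩ <;>
        simp only [ip, Prod.smul_mk, smul_eq_mul] at h ⊢ <;> field_simp
      · linear_combination -f.2.1 * h
      · linear_combination -f.2.2 * h
  refine ⟨AffineSubspace.mk' (O + m) (Submodule.span ℝ {((-f.2.2, f.2.1) : P)}), ?_, fun p => ?_,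
    fun v hv => ?_⟩
  · rw [AffineSubspace.direction_mk', finrank_span_singleton h0]
  · rw [AffineSubspace.mem_mk', key]
    simp only [ev, ip, vsub_eq_sub, add_sub_add_left_eq_sub, Prod.fst_sub, Prod.snd_sub] at hm ⊢
    constructor <;> intro h <;> linarith
  · rwa [AffineSubspace.direction_mk', key] at hv

omit hG in
lemma pencil_det (O : P) {f1 f2 f3 : ℝ × P} {ℓ1 ℓ2 ℓ3 : AffineSubspace ℝ P}
    (h0 : Module.finrank ℝ ℓ1.direction = 1)
    (h1 : (∀ p, O + p ∈ ℓ1 ↔ ev f1 p = 0) ∧ ∀ v ∈ ℓ1.direction, ip f1.2 v = 0)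
    (h2 : (∀ p, O + p ∈ ℓ2 ↔ ev f2 p = 0) ∧ ∀ v ∈ ℓ2.direction, ip f2.2 v = 0)
    (h3 : (∀ p, O + p ∈ ℓ3 ↔ ev f3 p = 0) ∧ ∀ v ∈ ℓ3.direction, ip f3.2 v = 0)
    (h : (∃ p, p ∈ ℓ1 ∧ p ∈ ℓ2 ∧ p ∈ ℓ3) ∨
      (ℓ1.direction = ℓ2.direction ∧ ℓ2.direction = ℓ3.direction)) : det f1 f2 f3 = 0 := by
  rcases h with ⟨p, a, b, c⟩ | ⟨a, b⟩
  · rw [← add_sub_cancel O p] at a b c
    have a := (h1.1 _).1 a; have b := (h2.1 _).1 b; have c := (h3.1 _).1 c
    simp only [ev, ip, det] at a b c ⊢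
    linear_combination (f2.2.1 * f3.2.2 - f2.2.2 * f3.2.1) * a -
      (f1.2.1 * f3.2.2 - f1.2.2 * f3.2.1) * b + (f1.2.1 * f2.2.2 - f1.2.2 * f2.2.1) * c
  · obtain ⟨⟨v, hv⟩, v0, -⟩ := finrank_eq_one_iff'.1 h0
    have c1 := h1.2 v hv; have c2 := h2.2 v (a ▸ hv); have c3 := h3.2 v (b ▸ a ▸ hv)
    simp only [ip, det] at c1 c2 c3 ⊢
    by_cases e : v.1 = 0
    · have e2 : v.2 ≠ 0 := fun e2 => v0 (Subtype.ext (Prod.ext e e2))
      simp only [e, mul_zero, zero_add, mul_eq_zero, e2, or_false] at c1 c2 c3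
      simp [c1, c2, c3]
    · apply mul_left_cancel₀ e
      linear_combination (f3.1 * f2.2.2 - f2.1 * f3.2.2) * c1 + (f1.1 * f3.2.2 - f3.1 * f1.2.2) * c2 +
        (f2.1 * f1.2.2 - f1.1 * f2.2.2) * c3

lemma Gg.rev1 {x F u : P} (hx : G x < 1) (hF : G F < 1) (hne : x ≠ F)
    (h : ∀ e : ℝ, G (F + e • u) < 1 → hd G x F ≤ hd G x (F + e • u)) :
    ∃ φ ψ, Ch G x F φ ψ ∧ 0 ≤ ip ψ u * l φ F - ip φ u * l ψ F := by
  have hc := hG.cont
  have t0 : Tendsto (fun n : ℕ => F + (1 / ((n : ℝ) + 1)) • u) atTop (𝓝 F) := by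
    simpa using (tendsto_one_div_add_atTop_nhds_zero_nat (𝕜 := ℝ).smul_const u).const_add F
  obtain ⟨N, hN⟩ := eventually_atTop.1 ((((hc.tendsto F).comp t0).eventually (gt_mem_nhds hF)).and
    ((t0.eventually_ne hne.symm).and
    ((((hc.tendsto _).comp (t0.const_sub x)).eventually
      (lt_mem_nhds (half_lt_self (hG.pos _ (sub_ne_zero.2 hne))))).and
    (((hc.tendsto _).comp (t0.sub_const x)).eventually
      (lt_mem_nhds (half_lt_self (hG.pos _ (sub_ne_zero.2 hne.symm))))))))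
  let Y : ℕ → P := fun n => F + (1 / (((n + N : ℕ) : ℝ) + 1)) • u
  have tY : Tendsto Y atTop (𝓝 F) := t0.comp (tendsto_add_atTop_nat N)
  have hY := fun n => hN (n + N) (by omega)
  simp only [Function.comp] at hY
  choose φ ψ c using fun n => hG.exists_ch hx (hY n).1 (hY n).2.1.symm
  have k : ∀ n, 0 ≤ ip (ψ n) u * l (φ n) F - ip (φ n) u * l (ψ n) F := fun n => by
    obtain ⟨σ, τ, κ1, κ2, σ0, τ0, k1, k2, -, -, e1, e2⟩ := (c n).aff hx (hY n).1
    have h1 := hG.hd_ch (c n) hx (hY n).1 (s := 0) (t := 1) (by simpa using hx)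
      (by simpa using (hY n).1)
    have c1 := e1 0; have c2 := e1 1; have c3 := e2 0; have c4 := e2 1
    simp only [zero_smul, add_zero, one_smul, add_sub_cancel] at h1 c1 c2 c3 c4
    obtain ⟨_, -, _, -, s1, s2⟩ := c n
    have a1 := l_pos' s1.1 hx; have a2 := l_pos' s1.1 (hY n).1; have a3 := l_pos' s1.1 hF
    have b1 := l_pos' s2.1 hx; have b2 := l_pos' s2.1 (hY n).1; have b3 := l_pos' s2.1 hF
    simp only [lr] at h1
    rw [abs_of_nonneg (sub_nonneg.2 (Real.log_le_log (by positivity) (by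
      rw [div_le_div_iff₀ b1 b2, c1, c2, c3, c4]
      nlinarith [mul_pos (mul_pos k1 k2) (by positivity : 0 < 1 + τ + σ)])))] at h1
    have h2 := (hG.hd_ge0 hx hF s1.1 s2.1).trans ((h _ (hY n).1).trans_eq h1)
    have h3 : lr (φ n) (ψ n) F ≤ lr (φ n) (ψ n) (Y n) := by simp only [lr, Y] at h2 ⊢; linarith
    rw [lr, lr, Real.log_le_log_iff (by positivity) (by positivity), div_le_div_iff₀ b3 b2] at h3
    refine (mul_nonneg_iff_of_pos_left (by positivity : 0 < 1 / (((n + N : ℕ) : ℝ) + 1))).1 ?_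
    simp only [Y, l, ip, Prod.fst_add, Prod.snd_add, Prod.smul_fst, Prod.smul_snd, smul_eq_mul]
      at h3 ⊢
    linarith
  choose σ σ0 τ τ0 s1 s2 using c
  have bx : ∀ φ : P, (∀ v, ip φ v ≤ G v) →
      φ ∈ Icc (-G (-1, 0)) (G (1, 0)) ×ˢ Icc (-G (0, -1)) (G (0, 1)) := fun φ h => by
    have h1 := h (1, 0); have h2 := h (-1, 0); have h3 := h (0, 1); have h4 := h (0, -1)
    simp only [ip] at h1 h2 h3 h4
    exact ⟨⟨by linarith, by linarith⟩, by linarith, by linarith⟩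
  have bσ : ∀ n, σ n ∈ Icc 0 ((1 + G (-x)) / (G (x - F) / 2)) := fun n => ⟨(σ0 n).le, by
    have := hG.add (x - σ n • (Y n - x)) (-x)
    rw [(s1 n).2.2, show x - σ n • (Y n - x) + -x = σ n • (x - Y n) by module,
      hG.hom _ (σ0 n).le] at this
    rw [le_div_iff₀ (half_pos (hG.pos _ (sub_ne_zero.2 hne)))]
    nlinarith [(hY n).2.2.1, σ0 n]⟩
  have bτ : ∀ n, τ n ∈ Icc 0 ((1 + G (-x)) / (G (F - x) / 2)) := fun n => ⟨(τ0 n).le, by
    have := hG.add (Y n - τ n • (x - Y n)) (-x)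
    rw [(s2 n).2.2, show Y n - τ n • (x - Y n) + -x = (1 + τ n) • (Y n - x) by module,
      hG.hom _ (by linarith [τ0 n])] at this
    rw [le_div_iff₀ (half_pos (hG.pos _ (sub_ne_zero.2 hne.symm)))]
    nlinarith [(hY n).2.2.2, τ0 n, hG.nonneg (Y n - x)]⟩
  obtain ⟨⟨⟨σ', τ'⟩, φ', ψ'⟩, hm, j, hj, lim⟩ := ((isCompact_Icc.prod isCompact_Icc).prod
    ((isCompact_Icc.prod isCompact_Icc).prod (isCompact_Icc.prod isCompact_Icc))).tendsto_subseq
    (x := fun n => ((σ n, τ n), φ n, ψ n)) fun n => ⟨⟨bσ n, bτ n⟩, bx _ (s1 n).1, bx _ (s2 n).1⟩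
  have lY := tY.comp hj.tendsto_atTop
  have su : ∀ {φ I : ℕ → P} {φ' I' : P}, (∀ n, Sup G (φ n) (I n)) → Tendsto φ atTop (𝓝 φ') →
      Tendsto I atTop (𝓝 I') → Sup G φ' I' := fun {φ I φ' I'} h h1 h2 =>
    ⟨fun v => by
      have := ge_of_tendsto' (l_tend h1 (tendsto_const_nhds (x := v))) (b := 1 - G v)
        fun n => sub_le_sub_left ((h n).1 v) 1
      simp only [l] at this; linarith,
    by
      have := tendsto_nhds_unique (l_tend h1 h2)
        (tendsto_const_nhds.congr fun n => (sub_eq_zero.2 (h n).2.1.symm).symm)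
      simp only [l] at this; linarith,
    tendsto_nhds_unique ((hc.tendsto _).comp h2) (tendsto_const_nhds.congr fun n => (h n).2.2.symm)⟩
  have S1 : Sup G φ' (x - σ' • (F - x)) := su (fun n => s1 (j n)) lim.snd_nhds.fst_nhds
    ((lim.fst_nhds.fst_nhds.smul (lY.sub_const x)).const_sub x)
  have S2 : Sup G ψ' (F - τ' • (x - F)) := su (fun n => s2 (j n)) lim.snd_nhds.snd_nhds
    (lY.sub (lim.fst_nhds.snd_nhds.smul (lY.const_sub x)))
  refine ⟨φ', ψ', ⟨σ', hm.1.1.1.lt_of_ne ?_, τ', hm.1.2.1.lt_of_ne ?_, S1, S2⟩, ?_⟩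
  · rintro rfl; exact hx.ne (by simpa using S1.2.2)
  · rintro rfl; exact hF.ne (by simpa using S2.2.2)
  · exact ge_of_tendsto' (((show Continuous fun q : (ℝ × ℝ) × P × P =>
      ip q.2.2 u * l q.2.1 F - ip q.2.1 u * l q.2.2 F by unfold l ip; fun_prop).tendsto _).comp lim)
      fun n => k (j n)

lemma Gg.rev2 {x F u : P} (hx : G x < 1) (hF : G F < 1) (hne : x ≠ F)
    (h : ∀ e : ℝ, G (F + e • u) < 1 → hd G x F ≤ hd G x (F + e • u)) :
    ∃ φ ψ, Ch G x F φ ψ ∧ ip ψ u * l φ F - ip φ u * l ψ F = 0 := by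
  obtain ⟨φ, ψ, ⟨σ, σ0, τ, τ0, a1, a2⟩, a3⟩ := hG.rev1 hx hF hne h
  obtain ⟨φ', ψ', ⟨σ', σ0', τ', τ0', b1, b2⟩, b3⟩ := hG.rev1 hx hF hne (u := -u) fun e => by
    simpa using h (-e)
  have ex : ∀ {p w : P} {s t : ℝ}, G p < 1 → 0 < s → 0 < t → G (p - s • w) = 1 → G (p - t • w) = 1 →
      s = t := fun {p w s t} hp hs ht h1 h2 => by
    have := (hG.exit_eq hp hs (w := -w) (by rwa [smul_neg, ← sub_eq_add_neg])).symm.trans
      (hG.exit_eq hp ht (w := -w) (by rwa [smul_neg, ← sub_eq_add_neg]))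
    rw [← csSup_Ico hs, this, csSup_Ico ht]
  obtain rfl := ex hx σ0 σ0' a1.2.2 b1.2.2
  obtain rfl := ex hF τ0 τ0' a2.2.2 b2.2.2
  have cv : ∀ {φ φ' I : P} {t : ℝ}, Sup G φ I → Sup G φ' I → t ∈ Icc (0 : ℝ) 1 →
      Sup G (φ' + t • (φ - φ')) I := fun {φ φ' I t} h1 h2 ht => by
    have e : ∀ v, ip (φ' + t • (φ - φ')) v = (1 - t) * ip φ' v + t * ip φ v := fun v => by
      simp [ip]; ring
    refine ⟨fun v => ?_, by rw [e, h1.2.1, h2.2.1]; ring, h1.2.2⟩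
    rw [e]; nlinarith [h1.1 v, h2.1 v, ht.1, ht.2]
  obtain ⟨t, ht, e⟩ := intermediate_value_Icc (f := fun t : ℝ =>
    ip (ψ' + t • (ψ - ψ')) u * l (φ' + t • (φ - φ')) F -
      ip (φ' + t • (φ - φ')) u * l (ψ' + t • (ψ - ψ')) F) zero_le_one (by unfold l ip; fun_prop)
    (show 0 ∈ _ from ⟨by
      simp only [ip, Prod.fst_neg, Prod.snd_neg, zero_smul, add_zero] at b3 ⊢; linarith,
      by simpa using a3⟩)
  exact ⟨_, _, ⟨σ, σ0, τ, τ0, cv a1 b1 ht, cv a2 b2 ht⟩, e⟩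

lemma Gg.rev3 {a b u : P} {t : ℝ} (ha : G a < 1) (hb : G b < 1) (hne : a ≠ b)
    (hF : G (a + t • (b - a)) < 1) (h : ∀ x ∈ ({a, b} : Set P), ∀ e : ℝ,
      G (a + t • (b - a) + e • u) < 1 → hd G x (a + t • (b - a)) ≤ hd G x (a + t • (b - a) + e • u)) :
    ∃ φ ψ, Ch G a b φ ψ ∧ ip ψ u * l φ (a + t • (b - a)) - ip φ u * l ψ (a + t • (b - a)) = 0 := by
  have key : ∀ {a b : P} {t : ℝ}, 0 < t → G a < 1 → G b < 1 → a ≠ b → G (a + t • (b - a)) < 1 →
      (∀ e : ℝ, G (a + t • (b - a) + e • u) < 1 →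
        hd G a (a + t • (b - a)) ≤ hd G a (a + t • (b - a) + e • u)) →
      ∃ φ ψ, Ch G a b φ ψ ∧ ip ψ u * l φ (a + t • (b - a)) - ip φ u * l ψ (a + t • (b - a)) = 0 := by
    intro a b t ht ha hb hne hF h
    obtain ⟨φ, ψ, ⟨σ, σ0, τ, τ0, a1, a2⟩, a3⟩ := hG.rev2 ha hF (by
      simpa [ht.ne', sub_eq_zero] using hne.symm) h
    rw [show a + t • (b - a) - τ • (a - (a + t • (b - a))) = a + ((1 + τ) * t) • (b - a) by module]
      at a2
    have := ((hG.exit_eq ha (by positivity) a2.2.2).le (show (1 : ℝ) ∈ _ from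
      ⟨zero_le_one, by simpa using hb⟩)).2
    refine ⟨φ, ψ, ⟨σ * t, by positivity, (1 + τ) * t - 1, by linarith, ?_, ?_⟩, a3⟩
    · rwa [add_sub_cancel_left, smul_smul] at a1
    · rwa [show b - ((1 + τ) * t - 1) • (a - b) = a + ((1 + τ) * t) • (b - a) by module]
  rcases lt_or_ge 0 t with h0 | h0
  · exact key h0 ha hb hne hF (h a (by simp))
  · have e : a + t • (b - a) = b + (1 - t) • (a - b) := by module
    rw [e] at hF h ⊢
    obtain ⟨φ, ψ, h1, h2⟩ := key (by linarith) hb ha hne.symm hF (h b (by simp))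
    exact ⟨ψ, φ, h1.symm, by linarith⟩

end Pool.Agent.Lib.helper15.Hilb
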