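import Pool.Agent.Lib.helper15.Hilb

set_option autoImplicit false

open Filter Topology Set

namespace Pool.Agent.Lib.helper15.Hilb

lemma pencil_det' (O : P) {f1 f2 f3 : ℝ × P} {ℓ1 ℓ2 ℓ3 : AffineSubspace ℝ P}
    (h0 : Module.finrank ℝ ℓ1.direction = 1)
    (h1 : (∀ p, O + p ∈ ℓ1 → ev f1 p = 0) ∧ ∀ v ∈ ℓ1.direction, ip f1.2 v = 0)
    (h2 : (∀ p, O + p ∈ ℓ2 → ev f2 p = 0) ∧ ∀ v ∈ ℓ2.direction, ip f2.2 v = 0)
    (h3 : (∀ p, O + p ∈ ℓ3 → ev f3 p = 0) ∧ ∀ v ∈ ℓ3.direction, ip f3.2 v = 0)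
    (h : (∃ p, p ∈ ℓ1 ∧ p ∈ ℓ2 ∧ p ∈ ℓ3) ∨
      (ℓ1.direction = ℓ2.direction ∧ ℓ2.direction = ℓ3.direction)) : det f1 f2 f3 = 0 := by
  rcases h with ⟨p, a, b, c⟩ | ⟨a, b⟩
  · rw [← add_sub_cancel O p] at a b c
    have a := h1.1 _ a; have b := h2.1 _ b; have c := h3.1 _ c
    simp only [ev, ip, det] at a b c ⊢
    linear_combination (f2.2.1 * f3.2.2 - f2.2.2 * f3.2.1) * a -
      (f1.2.1 * f3.2.2 - f1.2.2 * f3.2.1) * b + (f1.2.1 * f2.2.2 - f1.2.2 * f2.2.1) * c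
  · obtain ⟨⟨v, hv⟩, v0, -⟩ := finrank_eq_one_iff'.1 h0
    have c1 := h1.2 v hv; have c2 := h2.2 v (a ▸ hv); have c3 := h3.2 v (b ▸ a ▸ hv)
    simp only [ip, det] at c1 c2 c3 ⊢
    by_cases e : v.1 = 0
    · have e2 : v.2 ≠ 0 := fun e2 => v0 (Subtype.ext (Prod.ext e e2))
      simp only [e, mul_zero, zero_add, mul_eq_zero, e2, or_false] at c1 c2 c3
      simp [c1, c2, c3]
    · apply mul_left_cancel₀ e
      linear_combination (f3.1 * f2.2.2 - f2.1 * f3.2.2) * c1 + (f1.1 * f3.2.2 - f3.1 * f1.2.2) * c2 +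
        (f2.1 * f1.2.2 - f1.1 * f2.2.2) * c3

/-- a reverse perpendicular through `c` is the line through `c` and the pole of a chord -/
lemma Gg.rev4 {G : P → ℝ} (hG : Gg G) (O : P) {a b c : P} {t : ℝ} {ℓ : AffineSubspace ℝ P}
    (ha : G a < 1) (hb : G b < 1) (hc : G c < 1) (hne : a ≠ b)
    (h1 : Module.finrank ℝ ℓ.direction = 1) (hcl : O + c ∈ ℓ)
    (hF : G (a + t • (b - a)) < 1) (hFl : O + (a + t • (b - a)) ∈ ℓ)
    (h : ∀ x ∈ ({a, b} : Set P), ∀ z, O + z ∈ ℓ → G z < 1 →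
      hd G x (a + t • (b - a)) ≤ hd G x z) :
    ∃ φ ψ, Ch G a b φ ψ ∧ (∀ p, O + p ∈ ℓ → ev (co φ ψ (l φ c / l ψ c)) p = 0) ∧
      ∀ v ∈ ℓ.direction, ip (co φ ψ (l φ c / l ψ c)).2 v = 0 := by
  obtain ⟨⟨u, hu⟩, -, hs⟩ := finrank_eq_one_iff'.1 h1
  set F := a + t • (b - a) with hFd
  obtain ⟨φ, ψ, ch, e⟩ := hG.rev3 (u := u) ha hb hne hF fun x hx e he => h x hx _ (by
    have := AffineSubspace.vadd_mem_of_mem_direction (ℓ.direction.smul_mem e hu) hFl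
    rwa [vadd_eq_add, add_comm, add_assoc] at this) he
  rw [← hFd] at e
  have dir : ∀ v ∈ ℓ.direction, ip ψ v * l φ F = ip φ v * l ψ F := fun v hv => by
    obtain ⟨k, hk⟩ := hs ⟨v, hv⟩
    obtain rfl : k • u = v := congrArg Subtype.val hk
    simp only [ip, Prod.smul_fst, Prod.smul_snd, smul_eq_mul] at e ⊢
    linear_combination k * e
  have pt : ∀ p, O + p ∈ ℓ → l φ p * l ψ F = l φ F * l ψ p := fun p hp => by
    have := dir _ (AffineSubspace.vsub_mem_direction hp hFl)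
    simp only [l, ip, vsub_eq_sub, add_sub_add_left_eq_sub, Prod.fst_sub, Prod.snd_sub] at this ⊢
    linear_combination this
  obtain ⟨_, -, _, -, s1, s2⟩ := id ch
  have b1 := (l_pos' s2.1 hc).ne'
  have b2 := (l_pos' s2.1 hF).ne'
  have er : l φ c / l ψ c = l φ F / l ψ F := by rw [div_eq_div_iff b1 b2, pt c hcl]
  refine ⟨φ, ψ, ch, fun p hp => ?_, fun v hv => ?_⟩
  · rw [ev_co, er]; field_simp; linear_combination pt p hp
  · have := dir v hv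
    rw [er]
    simp only [co, ip, Prod.fst_sub, Prod.snd_sub, Prod.smul_fst, Prod.smul_snd, smul_eq_mul]
      at this ⊢
    field_simp
    linear_combination this

end Pool.Agent.Lib.helper15.Hilb
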