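import Mathlib

open Set Filter Topology Metric

namespace Pool.Agent.Lib.helper15.Hol

variable {X Z : Type*} [NormedAddCommGroup X] [NormedSpace ℝ X] [NormedAddCommGroup Z]
  [NormedSpace ℝ Z]

lemma nz {v w : Z} (hv : 0 < ‖v‖) (hw : 0 < ‖w‖) :
    ‖‖v‖⁻¹ • v - ‖w‖⁻¹ • w‖ ≤ 2 * ‖v‖⁻¹ * ‖v - w‖ := by
  have e : ‖v‖⁻¹ • v - ‖w‖⁻¹ • w = ‖v‖⁻¹ • (v - w) + (‖v‖⁻¹ * (‖w‖ - ‖v‖) * ‖w‖⁻¹) • w := by
    rw [show ‖v‖⁻¹ * (‖w‖ - ‖v‖) * ‖w‖⁻¹ = ‖v‖⁻¹ - ‖w‖⁻¹ by field_simp]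
    module
  rw [e]
  refine (norm_add_le _ _).trans ?_
  rw [norm_smul, norm_smul, norm_mul, norm_mul, norm_inv, norm_inv, norm_norm, norm_norm,
    mul_assoc, inv_mul_cancel₀ hw.ne', mul_one, Real.norm_eq_abs, abs_sub_comm]
  have := mul_le_mul_of_nonneg_left (abs_norm_sub_norm_le v w) (inv_pos.2 hv).le
  linarith

lemma exG (S : Z →ₗᵢ[ℝ] Z) (φ : Z →L[ℝ] ℝ) (e : Z) (he : φ e = 1) (hS : ∀ z, φ (S z) = 0) :
    ∃ (G : Z → Z) (L : ℝ), 0 ≤ L ∧ (∀ z, ‖G z‖ = 1) ∧ (∀ z, ‖z‖ = 1 → G z = S z) ∧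
      ∀ z w, ‖G z - G w‖ ≤ L * ‖z - w‖ := by
  set v : Z → Z := fun z => max (1 - ‖z‖) 0 • e + S z with hv
  set M := 1 + ‖φ‖ + ‖φ‖ * ‖e‖
  have M0 : 0 < M := by positivity
  have lb : ∀ z, 1 ≤ ‖v z‖ * M := fun z => by
    have h1 : max (1 - ‖z‖) 0 ≤ ‖φ‖ * ‖v z‖ := by
      have := φ.le_opNorm (v z)
      simp only [hv, map_add, map_smul, he, hS, smul_eq_mul, mul_one, add_zero] at this ⊢
      exact (le_abs_self _).trans this
    have h2 : ‖z‖ ≤ ‖v z‖ + max (1 - ‖z‖) 0 * ‖e‖ := by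
      have := norm_sub_le (v z) (max (1 - ‖z‖) 0 • e)
      rwa [norm_smul, Real.norm_of_nonneg (le_max_right _ _), show v z - max (1 - ‖z‖) 0 • e = S z
        by simp [hv], S.norm_map] at this
    have := mul_le_mul_of_nonneg_right h1 (norm_nonneg e)
    simp only [M]
    nlinarith [le_max_left (1 - ‖z‖) 0]
  have v0 : ∀ z, 0 < ‖v z‖ := fun z => pos_of_mul_pos_left (one_pos.trans_le (lb z)) M0.le
  refine ⟨fun z => ‖v z‖⁻¹ • v z, 2 * M * (‖e‖ + 1), by positivity, fun z => ?_, fun z hz => ?_,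
    fun z w => (nz (v0 z) (v0 w)).trans ?_⟩
  · rw [norm_smul, norm_inv, norm_norm, inv_mul_cancel₀ (v0 z).ne']
  · simp [hv, hz]
  · have h1 : ‖v z‖⁻¹ ≤ M := by rw [inv_le_iff_one_le_mul₀' (v0 z)]; exact lb z
    have h2 : ‖v z - v w‖ ≤ (‖e‖ + 1) * ‖z - w‖ := by
      rw [show v z - v w = (max (1 - ‖z‖) 0 - max (1 - ‖w‖) 0) • e + S (z - w) by
        simp only [hv, map_sub]; module]
      refine (norm_add_le _ _).trans ?_
      rw [S.norm_map, norm_smul, Real.norm_eq_abs]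
      have := (abs_max_sub_max_le_abs (1 - ‖z‖) (1 - ‖w‖) 0).trans (show _ ≤ ‖z - w‖ by
        rw [sub_sub_sub_cancel_left, abs_sub_comm]; exact abs_norm_sub_norm_le z w)
      nlinarith [norm_nonneg e]
    rw [mul_assoc (2 * M)]
    exact mul_le_mul (by linarith) h2 (norm_nonneg _) (by positivity)

lemma gen (i : Z →L[ℝ] X) (ρ : X →L[ℝ] Z) (hi : ∀ z, ρ (i z) = z) (S : Z →ₗᵢ[ℝ] Z)
    (φ : Z →L[ℝ] ℝ) (e : Z) (he : φ e = 1) (hS : ∀ z, φ (S z) = 0) (hf : ∀ z, S z = z → z = 0)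
    (ha : ∀ ε > 0, ∃ z, ‖S z - z‖ < ε * ‖z‖) {α : ℝ} (h0 : 0 < α) (h1 : α < 1) :
    ∃ T : closedBall (0 : X) 1 → closedBall (0 : X) 1,
      (∀ n ≥ 1, ∀ x y, ‖(T^[n] x : X) - T^[n] y‖ ≤ ‖(x : X) - y‖ ^ α) ∧ (∀ x, T x ≠ x) ∧
      ⨅ x : closedBall (0 : X) 1, ‖(x : X) - T x‖ = 0 := by
  obtain ⟨G, L, L0, G1, GS, hL⟩ := exG S φ e he hS
  set K := ‖i‖ * (L * ‖ρ‖) + 1 with hK
  have K0 : 1 ≤ K := le_add_of_nonneg_left (by positivity)
  set δ := K⁻¹ ^ (1 - α)⁻¹ with hδ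
  have δ0 : 0 < δ := by positivity
  have δ1 : δ ^ (1 - α) = K⁻¹ := Real.rpow_inv_rpow (by positivity) (by linarith)
  have δ2 : δ ^ α ≤ 1 := Real.rpow_le_one δ0.le (Real.rpow_le_one (by positivity)
    (inv_le_one_of_one_le₀ K0) (inv_nonneg.2 (by linarith))) h0.le
  set r := δ ^ α / (2 * (‖i‖ + 1)) with hr
  have r0 : 0 < r := by positivity
  have r1 : 2 * (r * ‖i‖) ≤ δ ^ α := by
    have : r * (2 * (‖i‖ + 1)) = δ ^ α := div_mul_cancel₀ _ (by positivity)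
    nlinarith
  have nb : ∀ z, ‖r • i z‖ ≤ r * ‖i‖ * ‖z‖ := fun z => by
    rw [norm_smul, Real.norm_of_nonneg r0.le, mul_assoc]
    exact mul_le_mul_of_nonneg_left (i.le_opNorm z) r0.le
  have mb : ∀ z, ‖z‖ = 1 → r • i z ∈ closedBall (0 : X) 1 := fun z hz =>
    mem_closedBall_zero_iff.2 ((nb z).trans (by rw [hz]; nlinarith [norm_nonneg i]))
  have ri : ∀ z, r⁻¹ • ρ (r • i z) = z := fun z => by
    rw [map_smul, hi, smul_smul, inv_mul_cancel₀ r0.ne', one_smul]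
  have Sn : ∀ n z w, ‖S^[n] z - S^[n] w‖ = ‖z - w‖ := fun n z w => by
    induction n with
    | zero => rfl
    | succ n ih => rw [Function.iterate_succ_apply', Function.iterate_succ_apply', ← map_sub,
        S.norm_map, ih]
  have S1 : ∀ n z, ‖S^[n] z‖ = ‖z‖ := fun n z => by
    have := Sn n z 0
    rwa [Function.iterate_fixed (map_zero S), sub_zero, sub_zero] at this
  set T : closedBall (0 : X) 1 → closedBall (0 : X) 1 :=
    fun x => ⟨r • i (G (r⁻¹ • ρ x)), mb _ (G1 _)⟩ with hT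
  have it : ∀ n x, (T^[n + 1] x : X) = r • i (S^[n] (G (r⁻¹ • ρ x))) := fun n x => by
    induction n with
    | zero => rfl
    | succ n ih =>
      rw [Function.iterate_succ_apply', Function.iterate_succ_apply' S]
      show r • i (G (r⁻¹ • ρ (T^[n + 1] x))) = _
      rw [ih, ri, GS _ ((S1 _ _).trans (G1 _))]
  refine ⟨T, fun n hn x y => ?_, fun x hx => ?_, le_antisymm (le_of_forall_pos_le_add fun ε hε => ?_)
    (Real.iInf_nonneg fun _ => norm_nonneg _)⟩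
  · obtain ⟨n, rfl⟩ := Nat.exists_eq_add_of_le' hn
    rw [it, it, ← smul_sub, ← map_sub]
    refine (nb _).trans ?_
    rw [Sn]
    rcases le_total ‖(x : X) - y‖ δ with h | h
    · have a1 := hL (r⁻¹ • ρ x) (r⁻¹ • ρ y)
      rw [← smul_sub, ← map_sub, norm_smul, Real.norm_of_nonneg (inv_pos.2 r0).le] at a1
      have a2 := ρ.le_opNorm ((x : X) - y)
      have a3 : ‖(x : X) - y‖ ^ (1 - α) ≤ K⁻¹ := δ1 ▸ Real.rpow_le_rpow (norm_nonneg _) h (by linarith)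
      have a4 : ‖(x : X) - y‖ = ‖(x : X) - y‖ ^ (1 - α) * ‖(x : X) - y‖ ^ α := by
        rw [← Real.rpow_add' (norm_nonneg _) (by norm_num)]; simp
      have a5 : K * ‖(x : X) - y‖ ≤ ‖(x : X) - y‖ ^ α := by
        conv_lhs => rw [a4, ← mul_assoc]
        exact mul_le_of_le_one_left (by positivity) (by
          rwa [← le_inv_mul_iff₀ (by positivity), mul_one])
      calc _ ≤ r * ‖i‖ * (L * (r⁻¹ * (‖ρ‖ * ‖(x : X) - y‖))) := by gcongr; exact a1.trans (by gcongr)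
        _ = ‖i‖ * (L * ‖ρ‖) * ‖(x : X) - y‖ := by field_simp
        _ ≤ _ := by nlinarith [norm_nonneg ((x : X) - y)]
    · have := norm_sub_le (G (r⁻¹ • ρ x)) (G (r⁻¹ • ρ y))
      rw [G1, G1] at this
      have a := mul_le_mul_of_nonneg_left this (show 0 ≤ r * ‖i‖ by positivity)
      linarith [Real.rpow_le_rpow δ0.le h h0.le]
  · have a : r • i (G (r⁻¹ • ρ x)) = x := congrArg Subtype.val hx
    have b := ri (G (r⁻¹ • ρ x))
    rw [a] at b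
    have c := G1 (r⁻¹ • ρ x)
    rw [← b] at c
    rw [GS _ c] at b
    rw [hf _ b.symm, norm_zero] at c
    exact zero_ne_one c
  · obtain ⟨z, hz⟩ := ha ε hε
    have z0 : 0 < ‖z‖ := pos_of_mul_pos_right ((norm_nonneg _).trans_lt hz) hε.le
    have z1 : ‖‖z‖⁻¹ • z‖ = 1 := by rw [norm_smul, norm_inv, norm_norm, inv_mul_cancel₀ z0.ne']
    refine (ciInf_le ⟨0, by rintro _ ⟨x, rfl⟩; exact norm_nonneg _⟩ ⟨_, mb _ z1⟩).trans ?_
    show ‖r • i _ - r • i (G (r⁻¹ • ρ (r • i _)))‖ ≤ _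
    rw [ri, GS _ z1, ← smul_sub, ← map_sub, map_smul, ← smul_sub]
    refine (nb _).trans ?_
    rw [norm_smul, norm_inv, norm_norm, norm_sub_rev, zero_add]
    have : ‖z‖⁻¹ * ‖S z - z‖ ≤ ε := by rw [inv_mul_le_iff₀ z0]; linarith
    exact (mul_le_of_le_one_left (by positivity) (by nlinarith [norm_nonneg i])).trans this

end Pool.Agent.Lib.helper15.Hol
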