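import Mathlib

/-! One-step extension and direct limit for representations. -/

set_option autoImplicit false

namespace Pool.Agent.Lib.helper15.HomRep

universe u

open Function

structure Rp (K : Type u) [CommRing K] : Type (u + 1) where
  G : Type u
  V : Type u
  [iG : Group G]
  [iA : AddCommGroup V]
  [iM : Module K V]
  ρ : Representation K G V

attribute [instance] Rp.iG Rp.iA Rp.iM

variable {K : Type u} [CommRing K]

structure Emb (A B : Rp K) where
  β : A.G →* B.G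
  α : A.V →ₗ[K] B.V
  hβ : Injective β
  hα : Injective α
  eqv : ∀ g v, α (A.ρ g v) = B.ρ (β g) (α v)

def Emb.refl (A : Rp K) : Emb A A := ⟨MonoidHom.id _, LinearMap.id, injective_id, injective_id,
  fun _ _ => rfl⟩

def Emb.comp {A B C : Rp K} (f : Emb B C) (e : Emb A B) : Emb A C :=
  ⟨f.β.comp e.β, f.α.comp e.α, f.hβ.comp e.hβ, f.hα.comp e.hα, fun g v => by
    simp [e.eqv, f.eqv]⟩

/-- a partial isomorphism, given by its graphs -/
structure PIso (A : Rp K) (Γ : Subgroup (A.G × A.G)) (Λ : Submodule K (A.V × A.V)) : Prop where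
  g1 : ∀ x ∈ Γ, x.1 = 1 → x.2 = 1
  g2 : ∀ x ∈ Γ, x.2 = 1 → x.1 = 1
  v1 : ∀ x ∈ Λ, x.1 = 0 → x.2 = 0
  v2 : ∀ x ∈ Λ, x.2 = 0 → x.1 = 0
  inv : ∀ x ∈ Γ, ∀ y ∈ Λ, (A.ρ x.1 y.1, A.ρ x.2 y.2) ∈ Λ

def Good {A B : Rp K} (e : Emb A B) : Prop :=
  ∀ Γ Λ, PIso A Γ Λ → ∃ g : B.G, (∀ y ∈ Λ, B.ρ g (e.α y.1) = e.α y.2) ∧
    ∀ x ∈ Γ, g * e.β x.1 * g⁻¹ = e.β x.2

section Step
variable {G : Type u} [Group G]

abbrev Om (G : Type u) := G × (G × ℕ)

def act : G →* Equiv.Perm (Om G) where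
  toFun h := Equiv.prodCongr (Equiv.mulRight h⁻¹) (Equiv.refl _)
  map_one' := by ext <;> simp
  map_mul' a b := by ext <;> simp [mul_assoc]

@[simp] lemma act_apply (h : G) (ω : Om G) : act h ω = (ω.1 * h⁻¹, ω.2) := rfl

lemma free_struct {Γ : Type u} [Group Γ] (p : Γ →* G) (hp : Injective p) :
    ∃ τ : Γ × (G × ℕ) ≃ Om G, ∀ γ δ x, τ (γ * δ, x) = act (p γ) (τ (δ, x)) := by
  have h1 : Nonempty ((G ⧸ p.range) × (G × ℕ) ≃ G × ℕ) := by
    rw [← Cardinal.eq, Cardinal.mk_prod, Cardinal.lift_id, Cardinal.lift_id]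
    apply Cardinal.mul_eq_right (Cardinal.aleph0_le_mk _)
    · refine Cardinal.mk_le_of_injective (f := fun q => (q.out, 0)) ?_
      intro a b h
      exact Quotient.out_injective (congrArg Prod.fst h)
    · exact Cardinal.mk_ne_zero _
  obtain ⟨ε⟩ := h1
  let t : Γ × (G × ℕ) → Om G := fun z => ((ε.symm z.2).1.out * (p z.1)⁻¹, (ε.symm z.2).2)
  have ht : Bijective t := by
    constructor
    · rintro ⟨γ, x⟩ ⟨δ, y⟩ h
      simp only [t, Prod.mk.injEq] at h
      have h2 : (ε.symm x).1 = (ε.symm y).1 := by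
        have := congrArg (fun g : G => (g : G ⧸ p.range)) h.1
        simp only [QuotientGroup.mk_mul_of_mem _ (p.range.inv_mem ⟨_, rfl⟩),
          QuotientGroup.out_eq'] at this
        exact this
      have h3 : x = y := ε.symm.injective (Prod.ext h2 h.2)
      subst h3
      have h4 := h.1
      rw [mul_right_inj, inv_inj] at h4
      rw [hp h4]
    · rintro ⟨g, x⟩
      obtain ⟨⟨_, γ, rfl⟩, hγ⟩ := QuotientGroup.mk_out_eq_mul p.range g
      refine ⟨(γ, ε (g, x)), ?_⟩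
      simp [t, hγ]
  refine ⟨Equiv.ofBijective t ht, fun γ δ x => ?_⟩
  simp [t, mul_assoc]

variable {E : Type u} [AddCommGroup E] [Module K E]

def PP (K : Type u) [CommRing K] (E : Type u) [AddCommGroup E] [Module K E] {Ω : Type u}
    (π : Equiv.Perm Ω) : (Ω → E) ≃ₗ[K] (Ω → E) := LinearEquiv.funCongrLeft K E π.symm

@[simp] lemma PP_apply {Ω : Type u} (π : Equiv.Perm Ω) (u : Ω → E) (ω : Ω) :
    PP K E π u ω = u (π⁻¹ ω) := rfl

lemma PP_mul {Ω : Type u} (π σ : Equiv.Perm Ω) (u : Ω → E) :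
    PP K E (π * σ) u = PP K E π (PP K E σ u) := rfl

lemma extend [hE : Module.Injective K E] {Γ : Type u} [Group Γ] (p : Γ →* G) (hp : Injective p)
    {Λ : Type u} [AddCommGroup Λ] [Module K Λ] (a : Γ → Λ → Λ)
    (i i' : Λ →ₗ[K] (Om G → E)) (hi : Injective i)
    (h1 : ∀ γ l, i (a γ l) = PP K E (act (p γ)) (i l))
    (h2 : ∀ γ l, i' (a γ l) = PP K E (act (p γ)) (i' l)) :
    ∃ f : (Om G → E) →ₗ[K] (Om G → E), (∀ l, f (i l) = i' l) ∧
      ∀ γ v, f (PP K E (act (p γ)) v) = PP K E (act (p γ)) (f v) := by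
  obtain ⟨τ, hτ⟩ := free_struct p hp
  choose φ hφ using fun x : G × ℕ => hE.out i hi ((LinearMap.proj (τ (1, x))).comp i')
  refine ⟨LinearMap.pi fun ω => (φ (τ.symm ω).2).comp
    (PP K E (act (p (τ.symm ω).1⁻¹))).toLinearMap, ?_, ?_⟩
  · intro l
    funext ω
    obtain ⟨⟨γ, x⟩, rfl⟩ := τ.surjective ω
    simp only [LinearMap.pi_apply, Equiv.symm_apply_apply, LinearMap.comp_apply,
      LinearEquiv.coe_coe, ← h1, hφ, h2, LinearMap.proj_apply, PP_apply]
    rw [← map_inv, ← map_inv, inv_inv, ← hτ, mul_one]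
  · intro δ v
    funext ω
    obtain ⟨⟨γ, x⟩, rfl⟩ := τ.surjective ω
    simp only [LinearMap.pi_apply, Equiv.symm_apply_apply, LinearMap.comp_apply,
      LinearEquiv.coe_coe, PP_apply]
    rw [← map_inv, ← map_inv, ← hτ, Equiv.symm_apply_apply, ← PP_mul, ← map_mul, ← map_mul]
    simp

end Step

lemma exists_inj (V : Type u) [AddCommGroup V] [Module K V] :
    ∃ (E : Type u) (_ : AddCommGroup E) (_ : Module K E) (_ : Module.Injective K E)
      (e : V →ₗ[K] E), Injective e := by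
  let E := CategoryTheory.Injective.under (ModuleCat.of K V)
  have hE : CategoryTheory.Injective E := CategoryTheory.Injective.injective_under _
  exact ⟨E, inferInstance, inferInstance, Module.injective_module_of_injective_object K E (inj := hE),
    (CategoryTheory.Injective.ι (ModuleCat.of K V)).hom,
    (ModuleCat.mono_iff_injective _).1 inferInstance⟩

theorem step (A : Rp K) : ∃ (B : Rp K) (e : Emb A B), Good e := by
  obtain ⟨E, _, _, hE, e, he⟩ := exists_inj (K := K) A.V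
  let U := Om A.G → E
  let B : Rp K :=
    { G := Equiv.Perm (Om A.G) × ((U × U) ≃ₗ[K] (U × U))
      V := U × U
      ρ := { toFun := fun g => g.2.toLinearMap
             map_one' := rfl
             map_mul' := fun _ _ => rfl } }
  let D : Equiv.Perm (Om A.G) →* ((U × U) ≃ₗ[K] (U × U)) :=
    MonoidHom.mk' (fun π => (PP K E π).prodCongr (PP K E π)) fun _ _ => rfl
  have hD : ∀ π v, D π v = (PP K E π v.1, PP K E π v.2) := fun _ _ => rfl
  let j : A.V →ₗ[K] U := LinearMap.pi fun ω => e.comp (A.ρ ω.1)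
  have hj : Injective j := by
    intro v w h
    have := congrFun h (1, 1, 0)
    apply he
    have h2 : e (A.ρ 1 v) = e (A.ρ 1 w) := this
    simpa using h2
  have hje : ∀ g v, j (A.ρ g v) = PP K E (act g) (j v) := by
    intro g v
    funext ω
    rw [PP_apply, ← map_inv]
    show e (A.ρ ω.1 (A.ρ g v)) = e (A.ρ (ω.1 * g⁻¹⁻¹) v)
    simp
  let em : Emb A B :=
    { β := MonoidHom.prod act (D.comp act)
      α := (LinearMap.inl K U U).comp j
      hβ := by
        intro g h hgh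
        have : act g = act h := congrArg Prod.fst hgh
        simpa using congrArg (fun π : Equiv.Perm (Om A.G) => (π (1, 1, 0)).1) this
      hα := LinearMap.inl_injective.comp hj
      eqv := by
        intro g v
        show (j _, 0) = D (act g) (j v, 0)
        rw [hD, hje, map_zero] }
  refine ⟨B, em, fun Γ Λ h => ?_⟩
  let p1 : Γ →* A.G := (MonoidHom.fst _ _).comp Γ.subtype
  let p2 : Γ →* A.G := (MonoidHom.snd _ _).comp Γ.subtype
  have hp1 : Injective p1 := (injective_iff_map_eq_one _).2 fun x hx =>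
    Subtype.ext (Prod.ext hx (h.g1 _ x.2 hx))
  have hp2 : Injective p2 := (injective_iff_map_eq_one _).2 fun x hx =>
    Subtype.ext (Prod.ext (h.g2 _ x.2 hx) hx)
  let q1 : Λ →ₗ[K] A.V := (LinearMap.fst _ _ _).comp Λ.subtype
  let q2 : Λ →ₗ[K] A.V := (LinearMap.snd _ _ _).comp Λ.subtype
  have hq1 : Injective q1 := (injective_iff_map_eq_zero _).2 fun x hx =>
    Subtype.ext (Prod.ext hx (h.v1 _ x.2 hx))
  have hq2 : Injective q2 := (injective_iff_map_eq_zero _).2 fun x hx =>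
    Subtype.ext (Prod.ext (h.v2 _ x.2 hx) hx)
  let a : Γ → Λ → Λ := fun γ l => ⟨_, h.inv _ γ.2 _ l.2⟩
  obtain ⟨τ1, hτ1⟩ := free_struct p1 hp1
  obtain ⟨τ2, hτ2⟩ := free_struct p2 hp2
  let σ : Equiv.Perm (Om A.G) := τ1.symm.trans τ2
  have hσ : ∀ γ, σ * act (p1 γ) = act (p2 γ) * σ := by
    intro γ
    apply Equiv.ext
    intro ω
    obtain ⟨⟨δ, x⟩, rfl⟩ := τ1.surjective ω
    rw [Equiv.Perm.mul_apply, Equiv.Perm.mul_apply, ← hτ1]
    simp only [σ, Equiv.trans_apply, Equiv.symm_apply_apply, hτ2]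
  let S := PP K E σ
  have hS : ∀ γ v, S (PP K E (act (p1 γ)) v) = PP K E (act (p2 γ)) (S v) := by
    intro γ v
    rw [← PP_mul, ← PP_mul, hσ]
  let i1 : Λ →ₗ[K] U := S.toLinearMap.comp (j.comp q1)
  let i2 : Λ →ₗ[K] U := j.comp q2
  have e1 : ∀ γ l, i1 (a γ l) = PP K E (act (p2 γ)) (i1 l) := by
    intro γ l
    show S (j (A.ρ (p1 γ) (q1 l))) = _
    rw [hje, hS]; rfl
  have e2 : ∀ γ l, i2 (a γ l) = PP K E (act (p2 γ)) (i2 l) := fun γ l => hje _ _
  obtain ⟨f, hf1, hf2⟩ := extend p2 hp2 a i1 i2 (S.injective.comp (hj.comp hq1)) e1 e2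
  obtain ⟨f', hf1', hf2'⟩ := extend p2 hp2 a i2 i1 (hj.comp hq2) e2 e1
  let t : U × U →ₗ[K] U := S.toLinearMap.comp (LinearMap.snd _ _ _) +
    f.comp (S.toLinearMap.comp (LinearMap.fst _ _ _))
  let T0 : U × U →ₗ[K] U × U :=
    LinearMap.prod t (S.toLinearMap.comp (LinearMap.fst _ _ _) - f'.comp t)
  have hT0 : ∀ v, T0 v = (S v.2 + f (S v.1), S v.1 - f' (S v.2 + f (S v.1))) := fun _ => rfl
  have hT : Bijective T0 := by
    constructor
    · rw [injective_iff_map_eq_zero]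
      rintro ⟨x, y⟩ hxy
      rw [hT0, Prod.mk_eq_zero] at hxy
      obtain ⟨h1, h2⟩ := hxy
      rw [h1, map_zero, sub_zero] at h2
      rw [h2, map_zero, add_zero] at h1
      exact Prod.ext (S.map_eq_zero_iff.1 h2) (S.map_eq_zero_iff.1 h1)
    · rintro ⟨x, y⟩
      refine ⟨(S.symm (y + f' x), S.symm (x - f (y + f' x))), ?_⟩
      rw [hT0]; simp
  let T := LinearEquiv.ofBijective T0 hT
  refine ⟨(σ, T), ?_, ?_⟩
  · intro y hy
    show T0 (j y.1, 0) = (j y.2, 0)
    have h1 : f (S (j y.1)) = j y.2 := hf1 ⟨y, hy⟩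
    have h2 : f' (j y.2) = S (j y.1) := hf1' ⟨y, hy⟩
    rw [hT0]; simp [h1, h2]
  · intro x hx
    rw [mul_inv_eq_iff_eq_mul]
    refine Prod.ext (hσ ⟨x, hx⟩) (LinearEquiv.ext fun v => ?_)
    show T0 (D (act (p1 ⟨x, hx⟩)) v) = D (act (p2 ⟨x, hx⟩)) (T0 v)
    rw [hD, hD, hT0, hT0]
    simp only [hS, hf2, ← map_add, hf2', ← map_sub]

section Limit
variable (A : Rp K)

noncomputable def nxt (A : Rp K) : Rp K := (step A).choose
noncomputable def nemb (A : Rp K) : Emb A (nxt A) := (step A).choose_spec.choose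
lemma nemb_good (A : Rp K) : Good (nemb A) := (step A).choose_spec.choose_spec

noncomputable def sq : ℕ → Rp K
  | 0 => A
  | n + 1 => nxt (sq n)

noncomputable def up (i j : ℕ) (h : i ≤ j) : Emb (sq A i) (sq A j) :=
  Nat.leRec (motive := fun j _ => Emb (sq A i) (sq A j)) (Emb.refl _)
    (fun k _ ih => (nemb (sq A k)).comp ih) h

lemma up_self (i : ℕ) : up A i i le_rfl = Emb.refl _ := Nat.leRec_self _ _

lemma up_succ (i j : ℕ) (h : i ≤ j) (h' : i ≤ j + 1) :
    up A i (j + 1) h' = (nemb (sq A j)).comp (up A i j h) := Nat.leRec_succ _ _ h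

lemma up_trans (i j k : ℕ) (h : i ≤ j) (h' : j ≤ k) :
    (up A j k h').comp (up A i j h) = up A i k (h.trans h') := by
  induction h' with
  | refl => rw [up_self]; rfl
  | step h' ih => rw [up_succ _ _ _ h', up_succ _ _ _ (h.trans h'), ← ih]; rfl

noncomputable def fG (i j : ℕ) (h : i ≤ j) : (sq A i).G →* (sq A j).G := (up A i j h).β
noncomputable def fV (i j : ℕ) (h : i ≤ j) : (sq A i).V →ₗ[K] (sq A j).V := (up A i j h).α

instance : DirectedSystem (fun i => (sq A i).G) (fG A · · ·) where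
  map_self i x := by simp only [fG, up_self]; rfl
  map_map k j i h h' x := by simp only [fG, ← up_trans A i j k h h']; rfl

instance : DirectedSystem (fun i => (sq A i).V) (fV A · · ·) where
  map_self i x := by simp only [fV, up_self]; rfl
  map_map k j i h h' x := by simp only [fV, ← up_trans A i j k h h']; rfl

abbrev GLim := DirectLimit (fun i => (sq A i).G) (fG A)
abbrev VLim := DirectLimit (fun i => (sq A i).V) (fV A)

noncomputable def iG (n : ℕ) : (sq A n).G →* GLim A :=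
  MonoidHom.mk' (fun g => ⟦⟨n, g⟩⟧) fun a b => (DirectLimit.mul_def (f := fG A) n a b).symm

noncomputable def iV (n : ℕ) : (sq A n).V →ₗ[K] VLim A where
  toFun v := ⟦⟨n, v⟩⟧
  map_add' a b := (DirectLimit.add_def (f := fV A) n a b).symm
  map_smul' c a := (DirectLimit.smul_def (f := fV A) n a c).symm

lemma iG_up (i j : ℕ) (h : i ≤ j) (g) : iG A j (fG A i j h g) = iG A i g :=
  DirectLimit.mk_apply (F := fun i => (sq A i).G) (f := fG A) i j g h

lemma iV_up (i j : ℕ) (h : i ≤ j) (g) : iV A j (fV A i j h g) = iV A i g :=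
  DirectLimit.mk_apply (F := fun i => (sq A i).V) (f := fV A) i j g h

noncomputable def ac : GLim A → VLim A → VLim A :=
  DirectLimit.map₂ (fG A) (fV A) (fV A) (fun i g v => (sq A i).ρ g v)
    fun i j h g v => (up A i j h).eqv g v

lemma ac_def (n : ℕ) (g v) : ac A (iG A n g) (iV A n v) = iV A n ((sq A n).ρ g v) :=
  DirectLimit.map₂_def (F₁ := fun i => (sq A i).G) (F₂ := fun i => (sq A i).V)
    (F := fun i => (sq A i).V) (fG A) (fV A) (fV A) (fun i g v => (sq A i).ρ g v) _ n g v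

lemma exG (x : GLim A) : ∀ᶠ n in Filter.atTop, ∃ g, iG A n g = x := by
  obtain ⟨i, g, rfl⟩ := DirectLimit.exists_eq_mk _ x
  rw [Filter.eventually_atTop]
  exact ⟨i, fun n hn => ⟨_, iG_up A i n hn g⟩⟩

lemma exV (x : VLim A) : ∀ᶠ n in Filter.atTop, ∃ g, iV A n g = x := by
  obtain ⟨i, g, rfl⟩ := DirectLimit.exists_eq_mk _ x
  rw [Filter.eventually_atTop]
  exact ⟨i, fun n hn => ⟨_, iV_up A i n hn g⟩⟩

noncomputable def lim : Rp K where
  G := GLim A
  V := VLim A
  ρ :=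
    { toFun := fun g =>
        { toFun := ac A g
          map_add' := fun v w => by
            obtain ⟨n, ⟨g, rfl⟩, ⟨v, rfl⟩, ⟨w, rfl⟩⟩ :=
              ((exG A g).and ((exV A v).and (exV A w))).exists
            rw [← map_add, ac_def, ac_def, ac_def, map_add, map_add]
          map_smul' := fun c v => by
            obtain ⟨n, ⟨g, rfl⟩, ⟨v, rfl⟩⟩ := ((exG A g).and (exV A v)).exists
            rw [← map_smul, ac_def, ac_def, map_smul, map_smul]; rfl }
      map_one' := LinearMap.ext fun v => by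
        obtain ⟨n, v, rfl⟩ := (exV A v).exists
        show ac A 1 (iV A n v) = iV A n v
        rw [← map_one (iG A n), ac_def]; simp
      map_mul' := fun g h => LinearMap.ext fun v => by
        obtain ⟨n, ⟨g, rfl⟩, ⟨h, rfl⟩, ⟨v, rfl⟩⟩ :=
          ((exG A g).and ((exG A h).and (exV A v))).exists
        show ac A (iG A n g * iG A n h) (iV A n v) = ac A (iG A n g) (ac A (iG A n h) (iV A n v))
        rw [← map_mul, ac_def, ac_def, ac_def]; simp }

noncomputable def iL (n : ℕ) : Emb (sq A n) (lim A) where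
  β := iG A n
  α := iV A n
  hβ := DirectLimit.mk_injective (fG A) (fun i j h => (up A i j h).hβ) n
  hα := DirectLimit.mk_injective (fV A) (fun i j h => (up A i j h).hα) n
  eqv g v := (ac_def A n g v).symm

theorem lim_hom (Γ Λ) (h : PIso (lim A) Γ Λ) (n : ℕ)
    (hΓ : ∀ x ∈ Γ, x.1 ∈ (iL A n).β.range ∧ x.2 ∈ (iL A n).β.range)
    (hΛ : ∀ x ∈ Λ, x.1 ∈ LinearMap.range (iL A n).α ∧ x.2 ∈ LinearMap.range (iL A n).α) :
    ∃ g : (lim A).G, (∀ y ∈ Λ, (lim A).ρ g y.1 = y.2) ∧ ∀ x ∈ Γ, g * x.1 * g⁻¹ = x.2 := by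
  set e := iL A n with he
  have h' : PIso (sq A n) (Γ.comap (e.β.prodMap e.β)) (Λ.comap (e.α.prodMap e.α)) :=
    { g1 := fun x hx h1 => e.hβ (by rw [map_one]; exact h.g1 _ hx (by simp [h1]))
      g2 := fun x hx h1 => e.hβ (by rw [map_one]; exact h.g2 _ hx (by simp [h1]))
      v1 := fun x hx h1 => e.hα (by rw [map_zero]; exact h.v1 _ hx (by simp [h1]))
      v2 := fun x hx h1 => e.hα (by rw [map_zero]; exact h.v2 _ hx (by simp [h1]))
      inv := fun x hx y hy => by
        have := h.inv _ hx _ hy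
        show (e.α ((sq A n).ρ x.1 y.1), e.α ((sq A n).ρ x.2 y.2)) ∈ Λ
        rw [e.eqv, e.eqv]; exact this }
  obtain ⟨g, hg1, hg2⟩ := nemb_good (sq A n) _ _ h'
  have k1 : ∀ x, (iL A (n + 1)).β ((nemb (sq A n)).β x) = e.β x := by
    intro x
    have := iG_up A n (n + 1) (Nat.le_succ n) x
    rw [fG, up_succ _ _ _ le_rfl, up_self] at this
    exact this
  have k2 : ∀ x, (iL A (n + 1)).α ((nemb (sq A n)).α x) = e.α x := by
    intro x
    have := iV_up A n (n + 1) (Nat.le_succ n) x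
    rw [fV, up_succ _ _ _ le_rfl, up_self] at this
    exact this
  refine ⟨(iL A (n + 1)).β g, ?_, ?_⟩
  · rintro ⟨y1, y2⟩ hy
    obtain ⟨⟨a, rfl⟩, ⟨b, rfl⟩⟩ := hΛ _ hy
    have := congrArg (iL A (n + 1)).α (hg1 (a, b) hy)
    rw [k2] at this
    rw [← this, ← k2, ← (iL A (n + 1)).eqv]; rfl
  · rintro ⟨y1, y2⟩ hy
    obtain ⟨⟨a, rfl⟩, ⟨b, rfl⟩⟩ := hΓ _ hy
    have := congrArg (iL A (n + 1)).β (hg2 (a, b) hy)
    rw [k1] at this
    rw [← this, ← k1, ← map_inv, ← map_mul, ← map_mul]; rfl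

theorem fin_range (S : Set (lim A).G) (hS : S.Finite) (T : Set (lim A).V) (hT : T.Finite) :
    ∀ᶠ n in Filter.atTop, (∀ x ∈ S, x ∈ (iL A n).β.range) ∧
      ∀ x ∈ T, x ∈ LinearMap.range (iL A n).α :=
  ((Filter.eventually_all_finite hS).2 fun x _ => exG A x).and
    ((Filter.eventually_all_finite hT).2 fun x _ => exV A x)

end Limit

end Pool.Agent.Lib.helper15.HomRep
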