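import Mathlib

set_option autoImplicit false

open Filter Topology

namespace Pool.Agent.Lib.helper15.InvSC

section ring
variable {R : Type*} [NormedRing R] [NormedAlgebra ℝ R]

lemma amqm (s c : ℝ) (hc : 0 ≤ c) :
    (1 / 2 : ℝ) * (√((s + 1) ^ 2 + c) + √((s - 1) ^ 2 + c)) ≤ √(s ^ 2 + (c + 1)) := by
  apply Real.le_sqrt_of_sq_le
  have h1 := Real.sq_sqrt (show 0 ≤ (s + 1) ^ 2 + c by positivity)
  have h2 := Real.sq_sqrt (show 0 ≤ (s - 1) ^ 2 + c by positivity)
  nlinarith [sq_nonneg (√((s + 1) ^ 2 + c) - √((s - 1) ^ 2 + c))]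

lemma key (A B : R) (hA : ‖A‖ ≤ 1) (hB : ‖B‖ ≤ 1) (h : Commute A B) (n : ℕ) : ∀ s : ℝ,
    ‖s • ((1 / 2 : ℝ) • (A + B)) ^ (n + 1) + ((n : ℝ) + 1) • (((1 / 2 : ℝ) • (A - B)) *
      ((1 / 2 : ℝ) • (A + B)) ^ n)‖ ≤ √(s ^ 2 + (n + 1)) := by
  set P := (1 / 2 : ℝ) • (A + B) with hP
  set D := (1 / 2 : ℝ) • (A - B) with hD
  have hA' : A = P + D := by rw [hP, hD]; module
  have hB' : B = P - D := by rw [hP, hD]; module
  have hc : Commute D P := by
    rw [hP, hD]
    refine Commute.smul_left (Commute.smul_right ?_ _) _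
    exact ((Commute.refl A).sub_left h.symm).add_right (h.sub_left (Commute.refl B))
  induction n with
  | zero =>
    intro s
    have e : s • P ^ (0 + 1) + (((0 : ℕ) : ℝ) + 1) • (D * P ^ 0) =
        (1 / 2 : ℝ) • ((s + 1) • A + (s - 1) • B) := by
      simp only [zero_add, pow_one, pow_zero, mul_one, Nat.cast_zero, one_smul]
      rw [hP, hD]; module
    rw [e, norm_smul]
    have h1 := amqm s 0 le_rfl
    simp only [add_zero, Real.sqrt_sq_eq_abs, zero_add] at h1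
    simp only [Nat.cast_zero, zero_add]
    refine le_trans ?_ h1
    rw [Real.norm_eq_abs, abs_of_pos (by norm_num : (0 : ℝ) < 1 / 2)]
    gcongr
    refine (norm_add_le _ _).trans (add_le_add ?_ ?_) <;> rw [norm_smul, Real.norm_eq_abs]
    · exact mul_le_of_le_one_right (abs_nonneg _) hA
    · exact mul_le_of_le_one_right (abs_nonneg _) hB
  | succ n ih =>
    intro s
    have e : s • P ^ (n + 1 + 1) + (((n + 1 : ℕ) : ℝ) + 1) • (D * P ^ (n + 1)) =
        (1 / 2 : ℝ) • (((s + 1) • P ^ (n + 1) + ((n : ℝ) + 1) • (D * P ^ n)) * A +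
          ((s - 1) • P ^ (n + 1) + ((n : ℝ) + 1) • (D * P ^ n)) * B) := by
      have c1 : P ^ (n + 1) * D = D * P ^ (n + 1) := (hc.pow_right (n + 1)).eq.symm
      have c2 : D * P ^ n * P = D * P ^ (n + 1) := by rw [mul_assoc, pow_succ]
      have c3 : P ^ (n + 1) * P = P ^ (n + 1 + 1) := by rw [← pow_succ]
      generalize hX : D * P ^ n = X at *
      conv_rhs => rw [hA', hB']
      simp only [add_mul, mul_add, mul_sub, smul_mul_assoc, c1, c2, c3]
      push_cast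
      module
    rw [e, norm_smul]
    have h1 := amqm s ((n : ℝ) + 1) (by positivity)
    push_cast
    refine le_trans ?_ h1
    rw [Real.norm_eq_abs, abs_of_pos (by norm_num : (0 : ℝ) < 1 / 2)]
    gcongr
    refine (norm_add_le _ _).trans (add_le_add ?_ ?_)
    · exact (norm_mul_le _ _).trans ((mul_le_of_le_one_right (norm_nonneg _) hA).trans (ih _))
    · exact (norm_mul_le _ _).trans ((mul_le_of_le_one_right (norm_nonneg _) hB).trans (ih _))

end ring

lemma le_of_sq_le_sq_aux {a b : ℝ} (h : a ^ 2 ≤ b ^ 2) (hb : 0 ≤ b) : a ≤ b :=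
  (le_abs_self a).trans (abs_le_of_sq_le_sq h hb)

variable {X : Type*} [NormedAddCommGroup X] [NormedSpace ℝ X]

lemma eq_of_approx (x y : X) (h : ∀ δ > 0, ∃ A B : X →L[ℝ] X, ‖A‖ ≤ 1 ∧ ‖B‖ ≤ 1 ∧ Commute A B ∧
    ‖x - A ((1 / 2 : ℝ) • (x + y))‖ ≤ δ ∧ ‖y - B ((1 / 2 : ℝ) • (x + y))‖ ≤ δ) : x = y := by
  set m := (1 / 2 : ℝ) • (x + y) with hm
  have main : ∀ n : ℕ, ‖x - y‖ ≤ 2 * (‖m‖ / √((n : ℝ) + 1)) := by
    intro n
    refine le_of_forall_pos_le_add fun η hη => ?_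
    obtain ⟨A, B, hA, hB, hc, h1, h2⟩ := h (η / (2 * n + 2)) (by positivity)
    set δ := η / (2 * n + 2) with hδ
    set P := (1 / 2 : ℝ) • (A + B) with hP
    set D := (1 / 2 : ℝ) • (A - B) with hD
    have nP : ‖P‖ ≤ 1 := by
      rw [hP, norm_smul, Real.norm_eq_abs, abs_of_pos (by norm_num : (0 : ℝ) < 1 / 2)]
      linarith [norm_add_le A B]
    have nD : ‖D‖ ≤ 1 := by
      rw [hD, norm_smul, Real.norm_eq_abs, abs_of_pos (by norm_num : (0 : ℝ) < 1 / 2)]
      linarith [norm_sub_le A B]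
    have a1 : ‖m - P m‖ ≤ δ := by
      have : m - P m = (1 / 2 : ℝ) • ((x - A m) + (y - B m)) := by
        rw [hP]
        simp only [smul_apply, add_apply]
        conv_lhs => congr; rw [hm]
        module
      rw [this, norm_smul, Real.norm_eq_abs, abs_of_pos (by norm_num : (0 : ℝ) < 1 / 2)]
      linarith [norm_add_le (x - A m) (y - B m)]
    have a2 : ∀ k : ℕ, ‖m - (P ^ k) m‖ ≤ k * δ := by
      intro k
      induction k with
      | zero => simp
      | succ k ih =>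
        have : m - (P ^ (k + 1)) m = (m - P m) + P (m - (P ^ k) m) := by
          rw [pow_succ', map_sub]; simp
        rw [this]
        have b := (P.le_opNorm (m - (P ^ k) m)).trans
          (mul_le_of_le_one_left (norm_nonneg _) nP)
        have := norm_add_le (m - P m) (P (m - (P ^ k) m))
        rw [Nat.cast_succ]
        linarith
    have a3 := key A B hA hB hc n 0
    rw [← hP, ← hD, zero_smul, zero_add, norm_smul, Real.norm_eq_abs,
      abs_of_pos (by positivity : (0 : ℝ) < n + 1)] at a3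
    simp only [ne_eq, OfNat.ofNat_ne_zero, not_false_eq_true, zero_pow, zero_add] at a3
    have sq : 0 < √((n : ℝ) + 1) := Real.sqrt_pos.2 (by positivity)
    have a4 : ‖D * P ^ n‖ ≤ 1 / √((n : ℝ) + 1) := by
      rw [le_div_iff₀ sq]
      have := Real.mul_self_sqrt (show (0 : ℝ) ≤ n + 1 by positivity)
      nlinarith [norm_nonneg (D * P ^ n)]
    have a5 : ‖D m‖ ≤ ‖m‖ / √((n : ℝ) + 1) + n * δ := by
      have : D m = (D * P ^ n) m + D (m - (P ^ n) m) := by rw [map_sub]; simp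
      rw [this]
      refine (norm_add_le _ _).trans (add_le_add ?_ ?_)
      · refine ((D * P ^ n).le_opNorm m).trans ?_
        calc _ ≤ 1 / √((n : ℝ) + 1) * ‖m‖ := by gcongr
          _ = _ := by ring
      · exact (D.le_opNorm _).trans ((mul_le_of_le_one_left (norm_nonneg _) nD).trans (a2 n))
    have a6 : x - y = (x - A m) - (y - B m) + (2 : ℝ) • D m := by
      rw [hD]
      simp only [smul_apply, sub_apply]
      module
    have a7 := norm_add_le ((x - A m) - (y - B m)) ((2 : ℝ) • D m)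
    have a8 := norm_sub_le (x - A m) (y - B m)
    rw [norm_smul, Real.norm_eq_abs, abs_of_pos (by norm_num : (0 : ℝ) < 2)] at a7
    have a9 : (2 * n + 2) * δ = η := by rw [hδ]; field_simp
    rw [a6]
    linarith
  have lim : Tendsto (fun n : ℕ => 2 * (‖m‖ / √((n : ℝ) + 1))) atTop (𝓝 (2 * 0)) := by
    refine Tendsto.const_mul _ (Tendsto.div_atTop tendsto_const_nhds ?_)
    exact Real.tendsto_sqrt_atTop.comp (tendsto_natCast_atTop_atTop.atTop_add tendsto_const_nhds)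
  have := ge_of_tendsto' lim main
  rw [mul_zero] at this
  exact sub_eq_zero.1 (norm_le_zero_iff.1 this)

section
variable (C : Submodule ℝ (X →L[ℝ] X))

noncomputable def p (z : X) (ε : ℝ) (x : X) : ℝ := ⨅ A : C, (ε * ‖(A : X →L[ℝ] X)‖ + ‖x - A.1 z‖)

variable {C} {z : X} {ε : ℝ}

lemma bdd (hε : 0 < ε) (x : X) :
    BddBelow (Set.range fun A : C => (ε * ‖(A : X →L[ℝ] X)‖ + ‖x - A.1 z‖)) :=
  ⟨0, by rintro _ ⟨A, rfl⟩; positivity⟩

lemma p_le (hε : 0 < ε) (x : X) (A : X →L[ℝ] X) (hA : A ∈ C) :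
    p C z ε x ≤ ε * ‖A‖ + ‖x - A z‖ := ciInf_le (bdd hε x) ⟨A, hA⟩

lemma p_nonneg (hε : 0 < ε) (x : X) : 0 ≤ p C z ε x := le_ciInf fun A => by positivity

lemma p_le_norm (hε : 0 < ε) (x : X) : p C z ε x ≤ ‖x‖ := by
  simpa using p_le (z := z) hε x 0 C.zero_mem

lemma p_lt {x : X} {c : ℝ} (h : p C z ε x < c) : ∃ A ∈ C, ε * ‖A‖ + ‖x - A z‖ < c := by
  obtain ⟨A, hA⟩ := exists_lt_of_ciInf_lt h
  exact ⟨A.1, A.2, hA⟩

lemma p_add (hε : 0 < ε) (x y : X) : p C z ε (x + y) ≤ p C z ε x + p C z ε y := by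
  refine le_of_forall_pos_le_add fun η hη => ?_
  obtain ⟨A, hA, h1⟩ := p_lt (C := C) (z := z) (ε := ε) (x := x) (lt_add_of_pos_right _ (half_pos hη))
  obtain ⟨B, hB, h2⟩ := p_lt (C := C) (z := z) (ε := ε) (x := y) (lt_add_of_pos_right _ (half_pos hη))
  have h3 := p_le (z := z) hε (x + y) (A + B) (C.add_mem hA hB)
  have h4 : ‖x + y - (A + B) z‖ ≤ ‖x - A z‖ + ‖y - B z‖ := by
    have : x + y - (A + B) z = (x - A z) + (y - B z) := by simp; abel
    rw [this]; exact norm_add_le _ _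
  have h5 : ε * ‖A + B‖ ≤ ε * (‖A‖ + ‖B‖) := by gcongr; exact norm_add_le _ _
  linarith

lemma p_smul_le (hε : 0 < ε) (r : ℝ) (x : X) : p C z ε (r • x) ≤ |r| * p C z ε x := by
  refine le_of_forall_pos_le_add fun η hη => ?_
  obtain ⟨A, hA, h1⟩ := p_lt (C := C) (z := z) (ε := ε) (x := x)
    (lt_add_of_pos_right _ (show 0 < η / (|r| + 1) by positivity))
  have h3 := p_le (z := z) hε (r • x) (r • A) (C.smul_mem r hA)
  have h4 : r • x - (r • A) z = r • (x - A z) := by simp [smul_sub]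
  rw [h4, norm_smul, norm_smul, Real.norm_eq_abs] at h3
  have h5 : |r| * (η / (|r| + 1)) ≤ η := by
    rw [← mul_div_assoc, div_le_iff₀ (by positivity)]; nlinarith
  have h6 : |r| * (ε * ‖A‖ + ‖x - A z‖) ≤ |r| * (p C z ε x + η / (|r| + 1)) := by gcongr
  nlinarith

lemma p_smul (hε : 0 < ε) (r : ℝ) (x : X) : p C z ε (r • x) = |r| * p C z ε x := by
  refine le_antisymm (p_smul_le hε r x) ?_
  rcases eq_or_ne r 0 with rfl | hr
  · simpa using p_nonneg hε _
  · have := p_smul_le (C := C) (z := z) hε r⁻¹ (r • x)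
    rw [smul_smul, inv_mul_cancel₀ hr, one_smul, abs_inv] at this
    have h0 : 0 < |r| := abs_pos.2 hr
    calc _ ≤ |r| * (|r|⁻¹ * p C z ε (r • x)) := by gcongr
      _ = _ := by field_simp

lemma p_inv_le (hε : 0 < ε) (T : X ≃ₗᵢ[ℝ] X)
    (hT : ∀ A ∈ C, (T.toLinearIsometry.toContinuousLinearMap ∘L A) ∈ C) (x : X) :
    p C z ε (T x) ≤ p C z ε x := by
  refine le_ciInf fun A => (p_le hε _ _ (hT A.1 A.2)).trans (le_of_eq ?_)
  rw [LinearIsometry.norm_toContinuousLinearMap_comp]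
  congr 1
  show ‖T x - T (A.1 z)‖ = _
  rw [← map_sub, T.norm_map]

end

theorem main [TopologicalSpace.SeparableSpace X] (S : Set (X ≃ₗᵢ[ℝ] X))
    (hinv : ∀ T ∈ S, T.symm ∈ S) (hcomm : ∀ T ∈ S, ∀ T' ∈ S, ∀ x, T (T' x) = T' (T x)) :
    ∃ N : X → ℝ,
      (∀ x y : X, N (x + y) ≤ N x + N y) ∧
      (∀ (r : ℝ) (x : X), N (r • x) = |r| * N x) ∧
      (∀ x : X, ‖x‖ ≤ N x ∧ N x ≤ 2 * ‖x‖) ∧
      (∀ T ∈ S, ∀ x : X, N (T x) = N x) ∧
      (∀ x y : X, N x = N y → x ≠ y → N (x + y) < 2 * N x) := by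
  let S' : Set (X →L[ℝ] X) := (fun T : X ≃ₗᵢ[ℝ] X => T.toLinearIsometry.toContinuousLinearMap) '' S
  let C : Submodule ℝ (X →L[ℝ] X) :=
    (Subalgebra.centralizer ℝ (Set.centralizer S')).toSubmodule
  have hS' : S' ⊆ Set.centralizer S' := by
    rintro _ ⟨T, hT, rfl⟩ _ ⟨T', hT', rfl⟩
    ext x
    exact hcomm T' hT' T hT x
  have hC1 : (1 : X →L[ℝ] X) ∈ C := (Subalgebra.centralizer ℝ (Set.centralizer S')).one_mem
  have hCc : ∀ A ∈ C, ∀ B ∈ C, Commute A B := by
    intro A hA B hB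
    have : A ∈ Set.centralizer S' := Set.centralizer_subset hS' hA
    exact hB A this
  have hCT : ∀ T ∈ S, ∀ A ∈ C, (T.toLinearIsometry.toContinuousLinearMap ∘L A) ∈ C := by
    intro T hT A hA
    exact (Subalgebra.centralizer ℝ (Set.centralizer S')).mul_mem
      (Set.subset_centralizer_centralizer ⟨T, hT, rfl⟩) hA
  let d := TopologicalSpace.denseSeq X
  let q : ℕ → X → ℝ := fun k => p C (d (Nat.unpair k).1) (1 / ((Nat.unpair k).2 + 1))
  have hε : ∀ k : ℕ, (0 : ℝ) < 1 / ((Nat.unpair k).2 + 1) := fun k => by positivity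
  have q0 : ∀ k x, 0 ≤ q k x := fun k x => p_nonneg (hε k) x
  have q1 : ∀ k x, q k x ≤ ‖x‖ := fun k x => p_le_norm (hε k) x
  have hs : ∀ x, Summable fun k : ℕ => (1 / 2 : ℝ) ^ k * q k x ^ 2 := fun x => by
    refine Summable.of_nonneg_of_le (fun k => by positivity) (fun k => ?_)
      (summable_geometric_two.mul_right (‖x‖ ^ 2))
    gcongr
    exacts [q0 k x, q1 k x]
  let F : X → ℝ := fun x => ‖x‖ ^ 2 + ∑' k : ℕ, (1 / 2 : ℝ) ^ k * q k x ^ 2
  have t0 : ∀ x, 0 ≤ ∑' k : ℕ, (1 / 2 : ℝ) ^ k * q k x ^ 2 := fun x =>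
    tsum_nonneg fun k => by positivity
  have F0 : ∀ x, 0 ≤ F x := fun x => add_nonneg (by positivity) (t0 x)
  have Flo : ∀ x, ‖x‖ ≤ √(F x) := fun x => Real.le_sqrt_of_sq_le (le_add_of_nonneg_right (t0 x))
  have Fhi : ∀ x, √(F x) ≤ 2 * ‖x‖ := fun x => by
    rw [Real.sqrt_le_left (by positivity)]
    have : ∑' k : ℕ, (1 / 2 : ℝ) ^ k * q k x ^ 2 ≤ ∑' k : ℕ, (1 / 2 : ℝ) ^ k * ‖x‖ ^ 2 := by
      refine (hs x).tsum_le_tsum (fun k => ?_) (summable_geometric_two.mul_right _)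
      gcongr
      exacts [q0 k x, q1 k x]
    rw [tsum_mul_right, tsum_geometric_two] at this
    show ‖x‖ ^ 2 + _ ≤ _
    nlinarith [sq_nonneg ‖x‖]
  have Fadd : ∀ (x y : X) (t : ℝ), 0 < t → F (x + y) ≤ (1 + t) * F x + (1 + 1 / t) * F y := by
    intro x y t ht
    have el : ∀ a b c : ℝ, 0 ≤ c → c ≤ a + b → c ^ 2 ≤ (1 + t) * a ^ 2 + (1 + 1 / t) * b ^ 2 := by
      intro a b c h0 h1
      have h2 : c ^ 2 ≤ (a + b) ^ 2 := by gcongr
      have h3 : 0 ≤ (t * a - b) ^ 2 / t := by positivity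
      have h4 : (t * a - b) ^ 2 / t = t * a ^ 2 - 2 * a * b + 1 / t * b ^ 2 := by field_simp; ring
      nlinarith
    have e1 := el _ _ _ (norm_nonneg _) (norm_add_le x y)
    have e2 : ∑' k : ℕ, (1 / 2 : ℝ) ^ k * q k (x + y) ^ 2 ≤ ∑' k : ℕ,
        ((1 + t) * ((1 / 2 : ℝ) ^ k * q k x ^ 2) + (1 + 1 / t) * ((1 / 2 : ℝ) ^ k * q k y ^ 2)) := by
      refine (hs _).tsum_le_tsum (fun k => ?_) (((hs x).mul_left _).add ((hs y).mul_left _))
      have := el _ _ _ (q0 k (x + y)) (p_add (hε k) x y)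
      have h2 : (0 : ℝ) < (1 / 2 : ℝ) ^ k := by positivity
      nlinarith
    rw [((hs x).mul_left _).tsum_add ((hs y).mul_left _), tsum_mul_left, tsum_mul_left] at e2
    show _ + _ ≤ (1 + t) * (_ + _) + (1 + 1 / t) * (_ + _)
    linarith
  refine ⟨fun x => √(F x), fun x y => ?_, fun r x => ?_, fun x => ⟨Flo x, Fhi x⟩, fun T hT x => ?_,
    fun x y hxy hne => ?_⟩
  · rcases eq_or_ne x 0 with rfl | hx
    · rw [zero_add]; exact le_add_of_nonneg_left (Real.sqrt_nonneg _)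
    rcases eq_or_ne y 0 with rfl | hy
    · rw [add_zero]; exact le_add_of_nonneg_right (Real.sqrt_nonneg _)
    have a : 0 < √(F x) := (norm_pos_iff.2 hx).trans_le (Flo x)
    have b : 0 < √(F y) := (norm_pos_iff.2 hy).trans_le (Flo y)
    show √(F (x + y)) ≤ √(F x) + √(F y)
    rw [Real.sqrt_le_left (by positivity)]
    refine (Fadd x y (√(F y) / √(F x)) (by positivity)).trans (le_of_eq ?_)
    have a2 := Real.sq_sqrt (F0 x)
    have b2 := Real.sq_sqrt (F0 y)
    generalize √(F x) = u at *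
    generalize √(F y) = v at *
    rw [← a2, ← b2]; field_simp; ring
  · have : F (r • x) = |r| ^ 2 * F x := by
      show ‖r • x‖ ^ 2 + ∑' k : ℕ, (1 / 2 : ℝ) ^ k * q k (r • x) ^ 2 = |r| ^ 2 * (_ + _)
      rw [mul_add, ← tsum_mul_left, norm_smul, mul_pow, Real.norm_eq_abs]
      congr 2
      funext k
      have : q k (r • x) = |r| * q k x := p_smul (hε k) r x
      rw [this]; ring
    show √(F (r • x)) = _
    rw [this, Real.sqrt_mul (by positivity), Real.sqrt_sq (abs_nonneg r)]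
  · show √(F (T x)) = √(F x)
    congr 1
    show ‖T x‖ ^ 2 + ∑' k : ℕ, (1 / 2 : ℝ) ^ k * q k (T x) ^ 2 = _ + _
    rw [T.norm_map]
    congr 2
    funext k
    have : q k (T x) = q k x := by
      refine le_antisymm (p_inv_le (hε k) T (hCT T hT) x) ?_
      have := p_inv_le (z := d (Nat.unpair k).1) (hε k) T.symm (hCT _ (hinv T hT)) (T x)
      rwa [T.symm_apply_apply] at this
    rw [this]
  · by_contra hlt
    push Not at hlt
    apply hne
    have hF : F x = F y := by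
      rw [← Real.sq_sqrt (F0 x), ← Real.sq_sqrt (F0 y)]; exact congrArg (· ^ 2) hxy
    have h4 : 4 * F x ≤ F (x + y) := by
      have hlt : 2 * √(F x) ≤ √(F (x + y)) := hlt
      have := Real.sq_sqrt (F0 x)
      have := Real.sq_sqrt (F0 (x + y))
      nlinarith [Real.sqrt_nonneg (F x)]
    have el : ∀ a b c : ℝ, 0 ≤ c → c ≤ a + b → 0 ≤ 2 * a ^ 2 + 2 * b ^ 2 - c ^ 2 := by
      intro a b c h0 h1
      have h2 : c ^ 2 ≤ (a + b) ^ 2 := by gcongr
      nlinarith [sq_nonneg (a - b)]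
    let g : ℕ → ℝ := fun k => 2 * ((1 / 2 : ℝ) ^ k * q k x ^ 2) + 2 * ((1 / 2 : ℝ) ^ k * q k y ^ 2)
      - (1 / 2 : ℝ) ^ k * q k (x + y) ^ 2
    have g0 : ∀ k, 0 ≤ g k := fun k => by
      have := el _ _ _ (q0 k (x + y)) (p_add (hε k) x y)
      have h2 : (0 : ℝ) < (1 / 2 : ℝ) ^ k := by positivity
      show 0 ≤ _ + _ - _
      nlinarith
    have gs : Summable g := (((hs x).mul_left _).add ((hs y).mul_left _)).sub (hs _)
    have gt : ∑' k, g k ≤ 0 := by
      rw [(((hs x).mul_left _).add ((hs y).mul_left _)).tsum_sub (hs _),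
        ((hs x).mul_left _).tsum_add ((hs y).mul_left _), tsum_mul_left, tsum_mul_left]
      have := el _ _ _ (norm_nonneg _) (norm_add_le x y)
      simp only [F] at hF h4
      linarith
    have gz : ∀ k, q k x = q k y ∧ q k (x + y) = 2 * q k x := fun k => by
      have h1 : g k ≤ 0 := (gs.le_tsum k fun j _ => g0 j).trans gt
      have h2 : (0 : ℝ) < (1 / 2 : ℝ) ^ k := by positivity
      have h3 : 2 * q k x ^ 2 + 2 * q k y ^ 2 - q k (x + y) ^ 2 ≤ 0 := by
        have : g k = (1 / 2 : ℝ) ^ k * (2 * q k x ^ 2 + 2 * q k y ^ 2 - q k (x + y) ^ 2) := by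
          show _ + _ - _ = _; ring
        rw [this] at h1
        exact nonpos_of_mul_nonpos_right h1 h2
      have a := q0 k x; have b := q0 k y; have c := q0 k (x + y)
      have e : q k (x + y) ≤ q k x + q k y := p_add (hε k) x y
      have e2 : q k (x + y) ^ 2 ≤ (q k x + q k y) ^ 2 := by gcongr
      have e3 : q k x = q k y := by nlinarith [sq_nonneg (q k x - q k y)]
      refine ⟨e3, le_antisymm (by linarith) ?_⟩
      rw [← e3] at h3
      exact le_of_sq_le_sq_aux (by nlinarith) c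
    refine eq_of_approx x y fun δ hδ => ?_
    set m := (1 / 2 : ℝ) • (x + y) with hm
    obtain ⟨j, hj⟩ := exists_nat_one_div_lt (show 0 < min 1 (δ / (2 * ‖m‖ + 4)) by positivity)
    set ε : ℝ := 1 / ((j : ℝ) + 1) with hεdef
    have ε0 : 0 < ε := by positivity
    have ε1 : ε < 1 := hj.trans_le (min_le_left _ _)
    have ε2 : ε * (2 * ‖m‖ + 4) < δ := by
      have := hj.trans_le (min_le_right _ _)
      rwa [lt_div_iff₀ (by positivity)] at this
    obtain ⟨i, hi⟩ := Metric.denseRange_iff.1 (TopologicalSpace.denseRange_denseSeq X) m (ε ^ 2)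
      (by positivity)
    rw [dist_eq_norm] at hi
    have hi : ‖m - d i‖ < ε ^ 2 := hi
    have hq : q (Nat.pair i j) = p C (d i) ε := by simp only [q, Nat.unpair_pair, hεdef]
    obtain ⟨k1, k2⟩ := gz (Nat.pair i j)
    rw [hq] at k1 k2
    have pm : p C (d i) ε m = p C (d i) ε x := by
      rw [hm, p_smul ε0, k2, abs_of_pos (by norm_num : (0 : ℝ) < 1 / 2)]; ring
    have pm2 : p C (d i) ε m < ε + ε ^ 2 := by
      have := p_le (z := d i) ε0 m 1 hC1
      have h1 : ε * ‖(1 : X →L[ℝ] X)‖ ≤ ε :=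
        mul_le_of_le_one_right ε0.le ContinuousLinearMap.norm_id_le
      simp only [one_apply_eq_self] at this
      linarith
    have fin : ∀ w : X, p C (d i) ε w < ε + ε ^ 2 → ∃ A ∈ C, ‖A‖ ≤ 1 ∧ ‖w - A m‖ ≤ δ := by
      intro w hw
      obtain ⟨A, hA, h1⟩ := p_lt hw
      have nA : ‖A‖ ≤ 1 + ε := by
        have := norm_nonneg (w - A (d i))
        have h2 : ε * ‖A‖ ≤ ε * (1 + ε) := by nlinarith
        exact le_of_mul_le_mul_left h2 ε0
      have nw : ‖w - A (d i)‖ ≤ ε + ε ^ 2 := by nlinarith [norm_nonneg A]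
      have nA' : ‖(1 - ε) • A‖ ≤ 1 := by
        rw [norm_smul, Real.norm_eq_abs, abs_of_pos (by linarith)]
        nlinarith [norm_nonneg A]
      refine ⟨(1 - ε / 1) • A, C.smul_mem _ hA, by simpa using nA', ?_⟩
      have e : w - ((1 - ε / 1) • A) m = (w - A (d i)) - A (m - d i) + ε • A m := by
        simp only [smul_apply, map_sub]; module
      rw [e]
      have b1 := norm_add_le ((w - A (d i)) - A (m - d i)) (ε • A m)
      have b2 := norm_sub_le (w - A (d i)) (A (m - d i))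
      have b3 : ‖A (m - d i)‖ ≤ 2 * ε ^ 2 := (A.le_opNorm _).trans (by
        nlinarith [norm_nonneg A, norm_nonneg (m - d i)])
      have b4 : ‖ε • A m‖ ≤ ε * (2 * ‖m‖) := by
        rw [norm_smul, Real.norm_eq_abs, abs_of_pos ε0]
        gcongr
        exact (A.le_opNorm _).trans (by nlinarith [norm_nonneg A, norm_nonneg m])
      nlinarith
    obtain ⟨A, hA, a1, a2⟩ := fin x (pm ▸ pm2)
    obtain ⟨B, hB, b1, b2⟩ := fin y (k1 ▸ pm ▸ pm2)
    exact ⟨A, B, a1, b1, hCc A hA B hB, a2, b2⟩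

end Pool.Agent.Lib.helper15.InvSC
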