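import Mathlib
import Pool.Agent.Lib.helper15.Bochner

set_option autoImplicit false

open MeasureTheory Filter Topology Set
open scoped Real RealInnerProductSpace

namespace Pool.Agent.Lib.helper15.MagFour

noncomputable def κ : Measure ℝ := wd volume fun s : ℝ => π⁻¹ * (1 + s ^ 2)⁻¹

instance : IsFiniteMeasure κ := wd_finite _ (integrable_inv_one_add_sq.const_mul _)

lemma κ_char (r : ℝ) : ∫ s, e (r * s) ∂κ = Real.exp (-|r|) := by
  rw [κ, wd_integral _ (by fun_prop) fun s => by positivity]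
  have : (π : ℂ) ≠ 0 := by simp
  have h := cauchy r
  simp only [Complex.real_smul, Complex.ofReal_mul, mul_assoc, integral_const_mul]
  simp only [mul_comm _ (e _)]
  rw [h]; push_cast; field_simp

lemma κ_int0 {p : ℝ} (h0 : 0 < p) (h1 : p < 1) :
    Integrable fun s : ℝ => (π⁻¹ * (1 + s ^ 2)⁻¹) • |s| ^ p := by
  refine ((integrable_rpow_neg_one_add_norm_sq (E := ℝ) (μ := volume) (r := 2 - p)
    (by simp; linarith)).const_mul π⁻¹).mono' (Measurable.aestronglyMeasurable (by fun_prop))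
    (Eventually.of_forall fun s => ?_)
  have q : 0 < 1 + s ^ 2 := by positivity
  rw [smul_eq_mul, Real.norm_of_nonneg (by positivity), mul_assoc, Real.norm_eq_abs, sq_abs,
    show -(2 - p) / 2 = -1 + 1 / 2 * p by ring, Real.rpow_add q, Real.rpow_neg_one,
    Real.rpow_mul q.le, ← Real.sqrt_eq_rpow]
  gcongr
  exact Real.abs_le_sqrt (by linarith)

lemma κ_int {p : ℝ} (h0 : 0 < p) (h1 : p < 1) : Integrable (fun s : ℝ => |s| ^ p) κ :=
  (wd_integrable _ (by fun_prop) (fun s => by positivity) _).2 (κ_int0 h0 h1)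

lemma κ_pos {p : ℝ} (h0 : 0 < p) (h1 : p < 1) : 0 < ∫ s, |s| ^ p ∂κ := by
  rw [κ, wd_integral _ (by fun_prop) fun s => by positivity]
  refine integral_pos_of_integrable_nonneg_nonzero ?_ (κ_int0 h0 h1) (fun s => by positivity)
    (x := 1) (by simp)
  have h2 : Continuous fun s : ℝ => (1 + s ^ 2)⁻¹ :=
    Continuous.inv₀ (by fun_prop) fun s => by positivity
  exact (continuous_const.mul h2).smul (continuous_abs.rpow_const fun _ => Or.inr h0.le)

lemma rpow_near {p t : ℝ} (h0 : 0 < p) (h1 : p < 1) (ht : 0 ≤ t) :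
    |t ^ p - t| ≤ (1 - p) * (1 + t ^ 2) := by
  rw [abs_le]
  constructor
  · rcases le_total t 1 with h | h
    · have : t ^ (1 : ℝ) ≤ t ^ p := Real.rpow_le_rpow_of_exponent_ge' ht h h0.le h1.le
      rw [Real.rpow_one] at this
      nlinarith [sq_nonneg t]
    · have t0 : 0 < t := by linarith
      have e1 : t ^ p = t * Real.exp (-((1 - p) * Real.log t)) := by
        rw [Real.rpow_def_of_pos t0]
        nth_rewrite 2 [← Real.exp_log t0]
        rw [← Real.exp_add]; congr 1; ring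
      have e2 := Real.add_one_le_exp (-((1 - p) * Real.log t))
      have e3 := Real.log_le_sub_one_of_pos t0
      have e4 : (1 - p) * Real.log t ≤ (1 - p) * t := by gcongr <;> linarith
      rw [e1]; nlinarith
  · have := Real.geom_mean_le_arith_mean2_weighted h0.le (sub_nonneg.2 h1.le) ht zero_le_one
      (by ring)
    rw [Real.one_rpow] at this
    nlinarith [sq_nonneg t]

variable {V : Type} [NormedAddCommGroup V] [InnerProductSpace ℝ V] [MeasurableSpace V]
  [BorelSpace V] [FiniteDimensional ℝ V] {N : Seminorm ℝ V}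

theorem PN.levy (hN : PN N) : ∃ C : ℝ, 0 ≤ C ∧ ∀ η : ℝ, 0 < η → η < 1 → ∃ μ : Measure V,
    IsFiniteMeasure μ ∧ μ.real univ ≤ C ∧
      ∀ z, |∫ ξ, |⟪‖ξ‖⁻¹ • ξ, z⟫| ∂μ - N z| ≤ η * (C * (1 + ‖z‖ ^ 2) + (1 + N z ^ 2)) := by
  obtain ⟨ν, hν, h⟩ := hN.stable
  have law : ∀ x, ν.map (fun ξ => ⟪ξ, x⟫) = κ.map fun s => N x * s := fun x => by
    refine Measure.ext_of_charFun (funext fun t => ?_)
    rw [charFun_apply_real, charFun_apply_real, integral_map (by fun_prop) (by fun_prop),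
      integral_map (by fun_prop) (by fun_prop)]
    have h1 := h (t • x)
    have h2 := κ_char (t * N x)
    rw [map_smul_eq_mul, Real.norm_eq_abs] at h1
    rw [abs_mul, abs_of_nonneg (apply_nonneg N x), ← h1] at h2
    simp only [e, inner_smul_right, mul_assoc t, Complex.ofReal_mul] at h2
    simpa only [Complex.ofReal_mul] using h2.symm
  let b := stdOrthonormalBasis ℝ V
  refine ⟨∑ k, (1 + N (b k) + N (b k) ^ 2), by positivity, fun η h0 h1 => ?_⟩
  set p := 1 - η with hp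
  have p0 : 0 < p := by linarith
  have p1 : p < 1 := by linarith
  have c0 := κ_pos p0 p1
  set c := ∫ s, |s| ^ p ∂κ with hc
  have mom : ∀ x, Integrable (fun ξ => |⟪ξ, x⟫| ^ p) ν ∧ ∫ ξ, |⟪ξ, x⟫| ^ p ∂ν = N x ^ p * c := by
    intro x
    have e1 : ∀ s : ℝ, |N x * s| ^ p = N x ^ p * |s| ^ p := fun s => by
      rw [abs_mul, abs_of_nonneg (apply_nonneg N x), Real.mul_rpow (apply_nonneg N x) (abs_nonneg _)]
    have m1 : Measurable fun s : ℝ => |s| ^ p := by fun_prop
    constructor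
    · have := (integrable_map_measure (μ := κ) (f := fun s => N x * s) m1.aestronglyMeasurable
        (by fun_prop)).2 (by simpa only [Function.comp_def, e1] using (κ_int p0 p1).const_mul _)
      rw [← law] at this
      exact (integrable_map_measure m1.aestronglyMeasurable (by fun_prop)).1 this
    · rw [← integral_map (φ := fun ξ => ⟪ξ, x⟫) (f := fun s : ℝ => |s| ^ p) (by fun_prop)
        m1.aestronglyMeasurable, law, integral_map (by fun_prop) m1.aestronglyMeasurable]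
      simp only [e1, integral_const_mul, hc]
  have nb : ∀ ξ : V, ‖ξ‖ ^ p ≤ ∑ k, |⟪ξ, b k⟫| ^ p := fun ξ => by
    have h1 : ‖ξ‖ ≤ ∑ k, |⟪ξ, b k⟫| := by
      nth_rewrite 1 [← b.sum_repr' ξ]
      refine (norm_sum_le _ _).trans_eq (Finset.sum_congr rfl fun k _ => ?_)
      rw [norm_smul, b.orthonormal.1, mul_one, real_inner_comm, Real.norm_eq_abs]
    refine (Real.rpow_le_rpow (norm_nonneg _) h1 p0.le).trans ?_
    induction (Finset.univ : Finset (Fin (Module.finrank ℝ V))) using Finset.induction_on with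
    | empty => simp [p0.ne']
    | insert a s ha ih =>
      rw [Finset.sum_insert ha, Finset.sum_insert ha]
      exact (Real.rpow_add_le_add_rpow (abs_nonneg _) (by positivity) p0.le p1.le).trans (by gcongr)
  have is : Integrable (fun ξ => ∑ k, |⟪ξ, b k⟫| ^ p) ν := integrable_finsetSum _ fun k _ => (mom _).1
  have ig : Integrable (fun ξ : V => ‖ξ‖ ^ p) ν :=
    is.mono' (Measurable.aestronglyMeasurable (by fun_prop)) (Eventually.of_forall fun ξ => by
      rw [Real.norm_of_nonneg (by positivity)]; exact nb ξ)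
  have gm : Measurable fun ξ : V => c⁻¹ * ‖ξ‖ ^ p := by fun_prop
  have gp : ∀ ξ : V, 0 ≤ c⁻¹ * ‖ξ‖ ^ p := fun ξ => by positivity
  have fin := wd_finite ν (ig.const_mul c⁻¹)
  have mass : (wd ν fun ξ => c⁻¹ * ‖ξ‖ ^ p).real univ ≤ ∑ k, (1 + N (b k) + N (b k) ^ 2) := by
    rw [wd_mass _ gm gp, integral_const_mul, inv_mul_le_iff₀ c0]
    refine (integral_mono ig is nb).trans ?_
    rw [integral_finsetSum _ fun k _ => (mom _).1, Finset.mul_sum]
    refine Finset.sum_le_sum fun k _ => ?_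
    rw [(mom _).2, mul_comm c]
    gcongr
    have := (abs_le.1 (rpow_near p0 p1 (apply_nonneg N (b k)))).2
    nlinarith [sq_nonneg (N (b k))]
  refine ⟨_, fin, mass, fun z => ?_⟩
  set μ := wd ν fun ξ => c⁻¹ * ‖ξ‖ ^ p with hμ
  have tb : ∀ ξ : V, |⟪‖ξ‖⁻¹ • ξ, z⟫| ≤ ‖z‖ := fun ξ => by
    refine (abs_real_inner_le_norm _ _).trans (mul_le_of_le_one_left (norm_nonneg _) ?_)
    rw [norm_smul, norm_inv, norm_norm]; exact inv_mul_le_one
  have i1 : Integrable (fun ξ : V => |⟪‖ξ‖⁻¹ • ξ, z⟫|) μ :=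
    Integrable.of_bound (Measurable.aestronglyMeasurable (by fun_prop)) ‖z‖
      (Eventually.of_forall fun ξ => by rw [Real.norm_eq_abs, abs_abs]; exact tb ξ)
  have i2 : Integrable (fun ξ : V => |⟪‖ξ‖⁻¹ • ξ, z⟫| ^ p) μ :=
    Integrable.of_bound (Measurable.aestronglyMeasurable (by fun_prop)) (‖z‖ ^ p)
      (Eventually.of_forall fun ξ => by
        rw [Real.norm_of_nonneg (by positivity)]; gcongr; exact tb ξ)
  have e1 : ∫ ξ, |⟪‖ξ‖⁻¹ • ξ, z⟫| ^ p ∂μ = N z ^ p := by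
    rw [hμ, wd_integral _ gm gp]
    have : ∀ ξ : V, (c⁻¹ * ‖ξ‖ ^ p) • |⟪‖ξ‖⁻¹ • ξ, z⟫| ^ p = c⁻¹ * |⟪ξ, z⟫| ^ p := fun ξ => by
      rw [smul_eq_mul, mul_assoc, ← Real.mul_rpow (norm_nonneg _) (abs_nonneg _)]
      rcases eq_or_ne ξ 0 with rfl | h
      · simp
      · rw [real_inner_smul_left, abs_mul, abs_inv, abs_norm,
          mul_inv_cancel_left₀ (norm_ne_zero_iff.2 h)]
    simp only [this, integral_const_mul, (mom z).2]
    field_simp
  have e2 : |∫ ξ, |⟪‖ξ‖⁻¹ • ξ, z⟫| ^ p ∂μ - ∫ ξ, |⟪‖ξ‖⁻¹ • ξ, z⟫| ∂μ| ≤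
      η * (1 + ‖z‖ ^ 2) * μ.real univ := by
    rw [← integral_sub i2 i1]
    refine norm_integral_le_of_norm_le_const (μ := μ)
      (f := fun ξ => |⟪‖ξ‖⁻¹ • ξ, z⟫| ^ p - |⟪‖ξ‖⁻¹ • ξ, z⟫|) (Eventually.of_forall fun ξ => ?_)
    refine (rpow_near p0 p1 (abs_nonneg _)).trans ?_
    rw [hp, sub_sub_cancel]; gcongr; exact tb ξ
  have e3 := rpow_near p0 p1 (apply_nonneg N z)
  rw [hp, sub_sub_cancel, ← hp] at e3
  have e4 : η * (1 + ‖z‖ ^ 2) * μ.real univ ≤
      η * (1 + ‖z‖ ^ 2) * ∑ k, (1 + N (b k) + N (b k) ^ 2) := by gcongr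
  rw [e1] at e2
  rw [abs_le] at e2 e3 ⊢
  constructor <;> linarith [e2.1, e2.2, e3.1, e3.2]

end Pool.Agent.Lib.helper15.MagFour
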