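import Mathlib

set_option autoImplicit false

open Filter Topology Cardinal

namespace Pool.Agent.Lib.helper15.MS

def J : Type := (continuum.{0}).ord.ToType
noncomputable instance : LinearOrder J := inferInstanceAs (LinearOrder (continuum.{0}).ord.ToType)
instance : WellFoundedLT J := inferInstanceAs (WellFoundedLT (continuum.{0}).ord.ToType)

lemma mkJ : #J = continuum := mk_ord_toType _

instance : Nonempty J := by
  rw [← mk_ne_zero_iff, mkJ]; exact continuum_ne_zero

lemma bdd_of_countable (s : Set J) (hs : s.Countable) : ∃ β, ∀ γ ∈ s, γ < β := by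
  rw [← not_isCofinal_iff]
  intro h
  have h1 := Order.cof_le h
  have h2 : Order.cof J = (continuum.{0}).ord.cof := Ordinal.cof_toType _
  have h3 : ℵ₀ < (continuum.{0}).ord.cof := by
    rw [← two_power_aleph0]; exact lt_cof_ord_power le_rfl (by norm_num)
  rw [h2] at h1
  exact absurd (h3.trans_le (h1.trans (le_aleph0_iff_set_countable.2 hs))) (lt_irrefl _)

lemma exists_enum (C : Type) [Nonempty C] (hC : #C ≤ continuum) :
    ∃ c : J → C, ∀ y β0, ∃ β, β0 ≤ β ∧ c β = y := by
  have h1 : #J = #(J × J) := by simp [mkJ]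
  obtain ⟨e⟩ := Cardinal.eq.1 h1
  rw [← mkJ] at hC
  obtain ⟨ι⟩ := (le_def _ _).1 hC
  refine ⟨fun β => Function.invFun ι (e β).2, fun y β0 => ?_⟩
  by_contra hn
  push Not at hn
  have h2 : ∀ a : J, e.symm (a, ι y) ∈ Set.Iio β0 := by
    intro a
    by_contra h
    refine hn _ (not_lt.1 h) ?_
    simp [Function.leftInverse_invFun ι.injective y]
  have h3 : #J ≤ #(Set.Iio β0) := mk_le_of_injective (f := fun a => ⟨_, h2 a⟩) fun a b h => by
    simpa using h
  have h4 : #(Set.Iio β0) < continuum := mk_Iio_toType_ord_lt β0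
  rw [mkJ] at h3
  exact absurd (h3.trans_lt h4) (lt_irrefl _)

def X : Type := lp (fun _ : J => ℝ) 1
noncomputable instance : NormedAddCommGroup X := inferInstanceAs (NormedAddCommGroup (lp (fun _ : J => ℝ) 1))
noncomputable instance : NormedSpace ℝ X := inferInstanceAs (NormedSpace ℝ (lp (fun _ : J => ℝ) 1))
instance : CompleteSpace X := inferInstanceAs (CompleteSpace (lp (fun _ : J => ℝ) 1))

noncomputable def ev (γ : J) : X →L[ℝ] ℝ := lp.evalCLM ℝ (fun _ : J => ℝ) 1 γ

lemma X_ext {x y : X} (h : ∀ γ, ev γ x = ev γ y) : x = y := lp.ext (funext h)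

lemma hasSum_norm (x : X) : HasSum (fun γ => |ev γ x|) ‖x‖ := by
  have := lp.hasSum_norm (p := 1) (by simp) x
  simp only [ENNReal.toReal_one, Real.rpow_one, Real.norm_eq_abs] at this
  exact this

lemma ev_le (x : X) (γ : J) : |ev γ x| ≤ ‖x‖ := le_hasSum (hasSum_norm x) γ fun _ _ => abs_nonneg _

noncomputable def mk (f : J → ℝ) (x : X) (h : ∀ γ, |f γ| ≤ |ev γ x|) : X :=
  ⟨f, memℓp_gen (by
    simp only [ENNReal.toReal_one, Real.rpow_one, Real.norm_eq_abs]
    exact Summable.of_nonneg_of_le (fun _ => abs_nonneg _) h (hasSum_norm x).summable)⟩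

@[simp] lemma ev_mk (f : J → ℝ) (x : X) (h : ∀ γ, |f γ| ≤ |ev γ x|) (γ : J) :
    ev γ (mk f x h) = f γ := rfl

lemma norm_mono {x y : X} (h : ∀ γ, |ev γ x| ≤ |ev γ y|) : ‖x‖ ≤ ‖y‖ :=
  hasSum_le h (hasSum_norm x) (hasSum_norm y)

lemma norm_add_disj {x y : X} (h : ∀ γ, ev γ x = 0 ∨ ev γ y = 0) : ‖x + y‖ = ‖x‖ + ‖y‖ := by
  refine (hasSum_norm (x + y)).unique ?_
  have e : (fun γ => |ev γ (x + y)|) = fun γ => |ev γ x| + |ev γ y| := by
    funext γ; rcases h γ with h | h <;> simp [h]
  rw [e]; exact (hasSum_norm x).add (hasSum_norm y)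

noncomputable def sg (α : J) (t : ℝ) : X := lp.single 1 α t

lemma ev_sg (α γ : J) (t : ℝ) : ev γ (sg α t) = if γ = α then t else 0 := by
  show (Pi.single α t : J → ℝ) γ = _
  rw [Pi.single_apply]

lemma norm_sg (α : J) (t : ℝ) : ‖sg α t‖ = |t| :=
  lp.norm_single (E := fun _ : J => ℝ) (p := 1) one_pos α t

noncomputable def hd (l : WithBot J) (x : X) : X :=
  mk (fun γ => if (γ : WithBot J) ≤ l then ev γ x else 0) x fun γ => by split_ifs <;> simp

noncomputable def tl (l : WithBot J) (x : X) : X :=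
  mk (fun γ => if l < (γ : WithBot J) then ev γ x else 0) x fun γ => by split_ifs <;> simp

lemma ev_hd (l : WithBot J) (x : X) (γ : J) :
    ev γ (hd l x) = if (γ : WithBot J) ≤ l then ev γ x else 0 := rfl
lemma ev_tl (l : WithBot J) (x : X) (γ : J) :
    ev γ (tl l x) = if l < (γ : WithBot J) then ev γ x else 0 := rfl

lemma hd_add_tl (l : WithBot J) (x : X) : hd l x + tl l x = x := X_ext fun γ => by
  rw [map_add, ev_hd, ev_tl]
  by_cases h : (γ : WithBot J) ≤ l
  · rw [if_pos h, if_neg (not_lt.2 h), add_zero]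
  · rw [if_neg h, if_pos (not_le.1 h), zero_add]

lemma norm_hd_tl (l : WithBot J) (x : X) : ‖hd l x‖ + ‖tl l x‖ = ‖x‖ := by
  rw [← norm_add_disj, hd_add_tl]
  intro γ
  rw [ev_hd, ev_tl]
  by_cases h : (γ : WithBot J) ≤ l
  · right; rw [if_neg (not_lt.2 h)]
  · left; rw [if_neg h]

lemma hd_sub (l : WithBot J) (x y : X) : hd l (x - y) = hd l x - hd l y := X_ext fun γ => by
  simp only [map_sub, ev_hd]; split_ifs <;> simp

lemma tl_sub (l : WithBot J) (x y : X) : tl l (x - y) = tl l x - tl l y := X_ext fun γ => by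
  simp only [map_sub, ev_tl]; split_ifs <;> simp

lemma supp_countable (x : X) : {γ | ev γ x ≠ 0}.Countable := by
  have := (hasSum_norm x).summable.countable_support
  refine this.mono fun γ h => ?_
  simpa using h

lemma fin_big (x : X) : {γ | 1 < ev γ x}.Finite := by
  have := (hasSum_norm x).summable.tendsto_cofinite_zero.eventually (gt_mem_nhds one_pos)
  refine (eventually_cofinite.1 this).subset fun γ h => ?_
  simp only [Set.mem_ofPred_eq, not_lt] at h ⊢
  exact h.le.trans (le_abs_self _)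

lemma mkX : #X ≤ continuum := by
  let g : X → {t : Set (J × ℝ) // #t ≤ ℵ₀} := fun x =>
    ⟨(fun γ => (γ, ev γ x)) '' {γ | ev γ x ≠ 0},
      le_aleph0_iff_set_countable.2 ((supp_countable x).image _)⟩
  have hg : Function.Injective g := by
    have k : ∀ x y, g x = g y → ∀ γ, ev γ x ≠ 0 → ev γ x = ev γ y := by
      intro x y h γ hγ
      have : (γ, ev γ x) ∈ (g y).1 := h ▸ ⟨γ, hγ, rfl⟩
      obtain ⟨δ, -, h2⟩ := this
      simp only [Prod.mk.injEq] at h2
      rw [← h2.2, h2.1]
    intro x y h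
    refine X_ext fun γ => ?_
    by_cases h1 : ev γ x = 0
    · by_cases h2 : ev γ y = 0
      · rw [h1, h2]
      · exact (k y x h.symm γ h2).symm
    · exact k x y h γ h1
  refine (mk_le_of_injective hg).trans ((mk_bounded_set_le_of_infinite _ _).trans ?_)
  simp [mkJ, mk_real]

abbrev Code : Type := ℕ → (X →₀ ℝ)

lemma mkCode : #Code ≤ continuum := by
  have h : #(X →₀ ℝ) ≤ continuum := by
    rw [mk_finsupp_of_infinite']; simp [mkX, mk_real]
  have : #Code = #(X →₀ ℝ) ^ ℵ₀ := by simp [Code]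
  rw [this]
  calc _ ≤ continuum ^ ℵ₀ := power_le_power_right h
    _ = _ := continuum_power_aleph0

noncomputable def τ (t : ℝ) : ℝ := min t (max (2 - t) 0)
noncomputable def lam (r t : ℝ) : ℝ := max 0 (min 1 ((t - 2) / (r + 1)))

lemma τ_of_le {t : ℝ} (h : t ≤ 1) : τ t = t := min_eq_left (le_max_of_le_left (by linarith))
lemma τ_of_ge {t : ℝ} (h : 2 ≤ t) : τ t = 0 := by
  unfold τ; rw [max_eq_right (by linarith), min_eq_right (by linarith)]
lemma lam_of_le {r t : ℝ} (hr : 0 ≤ r) (h : t ≤ 2) : lam r t = 0 :=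
  max_eq_left (min_le_of_right_le (div_nonpos_of_nonpos_of_nonneg (by linarith) (by linarith)))
lemma lam_top {r : ℝ} (hr : 0 ≤ r) : lam r (3 + r) = 1 := by
  unfold lam
  rw [show (3 + r - 2) / (r + 1) = 1 by field_simp; ring]; simp

lemma τ_lip (s t : ℝ) : |τ s - τ t| ≤ |min s 2 - min t 2| := by
  unfold τ
  simp only [min_def, max_def]
  split_ifs <;> rw [abs_le] <;> constructor <;>
    first | linarith [le_abs_self (s - t), neg_abs_le (s - t), le_abs_self (s - 2), neg_abs_le (s - 2),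
      le_abs_self (2 - t), neg_abs_le (2 - t), abs_nonneg ((2 : ℝ) - 2)]

lemma lam_lip {r : ℝ} (hr : 0 ≤ r) (s t : ℝ) : |lam r s - lam r t| * r ≤ |max s 2 - max t 2| := by
  have e : ∀ s, lam r s = min 1 ((max s 2 - 2) / (r + 1)) := by
    intro s
    rcases le_total s 2 with h | h
    · rw [lam_of_le hr h, max_eq_right h]; simp
    · rw [max_eq_left h, lam, max_eq_right]
      exact le_min zero_le_one (div_nonneg (by linarith) (by linarith))
  rw [e, e]
  have h1 := abs_min_sub_min_le_max 1 ((max s 2 - 2) / (r + 1)) 1 ((max t 2 - 2) / (r + 1))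
  rw [sub_self, abs_zero, max_eq_right (a := (0 : ℝ)) (abs_nonneg _), ← sub_div, abs_div,
    abs_of_pos (show 0 < r + 1 by linarith), le_div_iff₀ (by linarith),
    show max s 2 - 2 - (max t 2 - 2) = max s 2 - max t 2 by ring] at h1
  nlinarith [abs_nonneg (min 1 ((max s 2 - 2) / (r + 1)) - min 1 ((max t 2 - 2) / (r + 1)))]

lemma key {r : ℝ} (hr : 0 ≤ r) (s t : ℝ) : |τ s - τ t| + |lam r s - lam r t| * r ≤ |s - t| := by
  refine (add_le_add (τ_lip s t) (lam_lip hr s t)).trans ?_
  rcases le_total s 2 with h | h <;> rcases le_total t 2 with h' | h' <;>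
    simp only [min_eq_left, min_eq_right, max_eq_left, max_eq_right, h, h', sub_self, abs_zero,
      add_zero, zero_add, le_refl]
  · rw [abs_of_nonpos (by linarith), abs_of_nonpos (by linarith), abs_of_nonpos (by linarith)]
    linarith
  · rw [abs_of_nonneg (by linarith), abs_of_nonneg (by linarith), abs_of_nonneg (by linarith)]
    linarith

lemma τ_abs (t : ℝ) : |τ t| ≤ |t| := by
  have := key le_rfl t 0
  rw [τ_of_le (zero_le_one)] at this
  simpa using this

lemma lam_abs {r : ℝ} (hr : 0 ≤ r) (t : ℝ) : |lam r t| * r ≤ |t| := by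
  have := key hr t 0
  rw [lam_of_le hr (zero_le_two)] at this
  simp only [sub_zero] at this
  linarith [abs_nonneg (τ t - τ 0)]

noncomputable def τx (x : X) : X := mk (fun γ => τ (ev γ x)) x fun _ => τ_abs _

lemma ev_τx (x : X) (γ : J) : ev γ (τx x) = τ (ev γ x) := rfl

/-- distance-like function -/
noncomputable def aa (z : Prop) (r : ℝ) (α : J) (p : X) : ℝ := by
  classical exact if z then |ev α p| else min |ev α p| ‖p - sg α (3 + r)‖

lemma aa_nonneg (z : Prop) (r : ℝ) (α : J) (p : X) : 0 ≤ aa z r α p := by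
  unfold aa; split_ifs <;> positivity

lemma aa_lip (z : Prop) (r : ℝ) (α : J) (p q : X) : aa z r α p ≤ aa z r α q + ‖p - q‖ := by
  have h1 : |ev α p| ≤ |ev α q| + ‖p - q‖ := by
    have := ev_le (p - q) α
    rw [map_sub] at this
    linarith [abs_sub_abs_le_abs_sub (ev α p) (ev α q)]
  have h2 : ‖p - sg α (3 + r)‖ ≤ ‖q - sg α (3 + r)‖ + ‖p - q‖ := by
    have := norm_add_le (q - sg α (3 + r)) (p - q)
    rwa [show q - sg α (3 + r) + (p - q) = p - sg α (3 + r) by abel] at this
  unfold aa; split_ifs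
  · exact h1
  · rw [← min_add_add_right]; exact min_le_min h1 h2

lemma aa_zero (z : Prop) (r : ℝ) (α : J) (p : X) (h : ev α p = 0) : aa z r α p = 0 := by
  unfold aa; split_ifs <;> simp [h]

noncomputable def DD (z : Prop) (r : ℝ) (α : J) (p q : X) : ℝ :=
  min (min ‖p - q‖ (aa z r α p + aa z r α q)) 1

noncomputable def GG (z : Prop) (r : ℝ) (α : J) (p q : X) : ℝ :=
  DD z r α p q - min (aa z r α q) 1

lemma DD_lip (z : Prop) (r : ℝ) (α : J) (p p' q : X) :
    DD z r α p q ≤ DD z r α p' q + ‖p - p'‖ := by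
  unfold DD
  rw [← min_add_add_right, ← min_add_add_right]
  refine min_le_min (min_le_min ?_ ?_) (by linarith [norm_nonneg (p - p')])
  · have := norm_add_le (p' - q) (p - p')
    rwa [show p' - q + (p - p') = p - q by abel] at this
  · linarith [aa_lip z r α p p']

lemma GG_lip (z : Prop) (r : ℝ) (α : J) (p p' q : X) :
    |GG z r α p q - GG z r α p' q| ≤ ‖p - p'‖ := by
  unfold GG
  have h1 := DD_lip z r α p p' q
  have h2 := DD_lip z r α p' p q
  rw [norm_sub_rev] at h2
  rw [abs_le]; constructor <;> linarith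

lemma GG_zero (z : Prop) (r : ℝ) (α : J) (p q : X) (h : aa z r α p = 0) : GG z r α p q = 0 := by
  unfold GG DD
  have := aa_lip z r α q p
  rw [h, zero_add, norm_sub_rev] at this
  rw [h, zero_add, min_eq_right this, sub_self]

lemma DD_nonneg (z : Prop) (r : ℝ) (α : J) (p q : X) : 0 ≤ DD z r α p q :=
  le_min (le_min (norm_nonneg _) (add_nonneg (aa_nonneg ..) (aa_nonneg ..))) zero_le_one

lemma GG_abs (z : Prop) (r : ℝ) (α : J) (p q : X) : |GG z r α p q| ≤ 1 := by
  unfold GG
  have h1 := DD_nonneg z r α p q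
  have h2 : DD z r α p q ≤ 1 := min_le_right _ _
  have h3 : 0 ≤ min (aa z r α q) 1 := le_min (aa_nonneg ..) zero_le_one
  have h4 : min (aa z r α q) 1 ≤ 1 := min_le_right _ _
  rw [abs_le]; constructor <;> linarith

lemma GG_self (z : Prop) (r : ℝ) (α : J) (p q : X) : GG z r α p q - GG z r α q q = DD z r α p q := by
  have : DD z r α q q = 0 := le_antisymm (by unfold DD; simp) (DD_nonneg ..)
  unfold GG; rw [this]; ring

lemma DD_eq (z : Prop) (r : ℝ) (α : J) (p q : X) (h : ‖p - q‖ ≤ 1 / 2)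
    (h1 : 1 < ev α p ∨ 1 < ev α q) : DD z r α p q = ‖p - q‖ := by
  have h0 := abs_le.1 (ev_le (p - q) α)
  rw [map_sub] at h0
  have a1 : 1 / 2 ≤ |ev α p| := le_trans (by rcases h1 with h1 | h1 <;> linarith [h0.1, h0.2])
    (le_abs_self _)
  have a2 : 1 / 2 ≤ |ev α q| := le_trans (by rcases h1 with h1 | h1 <;> linarith [h0.1, h0.2])
    (le_abs_self _)
  have a3 : ‖p - q‖ ≤ aa z r α p + aa z r α q := by
    have t := norm_sub_le (p - sg α (3 + r)) (q - sg α (3 + r))
    rw [show p - sg α (3 + r) - (q - sg α (3 + r)) = p - q by abel] at t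
    have := norm_nonneg (p - sg α (3 + r))
    have := norm_nonneg (q - sg α (3 + r))
    unfold aa; split_ifs
    · linarith
    · simp only [min_def]; split_ifs <;> linarith
  unfold DD
  rw [min_eq_left a3, min_eq_left (by linarith)]

lemma DD_eq_zero (z : Prop) (r : ℝ) (α : J) (p q : X) (h : DD z r α p q = 0)
    (h1 : 1 < ev α p) : p = q ∨ (¬ z ∧ p = sg α (3 + r) ∧ ev α q = 0) := by
  by_cases hpq : p = q
  · exact Or.inl hpq
  right
  have n0 : 0 < ‖p - q‖ := norm_pos_iff.2 (sub_ne_zero.2 hpq)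
  have h2 : aa z r α p + aa z r α q ≤ 0 := by
    by_contra hn
    have : 0 < DD z r α p q := lt_min (lt_min n0 (not_le.1 hn)) one_pos
    linarith
  have hp : aa z r α p = 0 := by linarith [aa_nonneg z r α p, aa_nonneg z r α q]
  have hq : aa z r α q = 0 := by linarith [aa_nonneg z r α p, aa_nonneg z r α q]
  have b : 0 < |ev α p| := abs_pos.2 (by linarith)
  unfold aa at hp hq
  split_ifs at hp hq with hz
  · linarith
  · have e1 : p = sg α (3 + r) := by
      rcases min_eq_iff.1 hp with h | h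
      · linarith [h.1]
      · exact sub_eq_zero.1 (norm_eq_zero.1 h.1)
    refine ⟨hz, e1, ?_⟩
    rcases min_eq_iff.1 hq with h | h
    · exact abs_eq_zero.1 h.1
    · exact absurd (e1.trans (sub_eq_zero.1 (norm_eq_zero.1 h.1)).symm) hpq

end Pool.Agent.Lib.helper15.MS
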