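import Pool.Agent.Lib.helper15.MS1

set_option autoImplicit false

open Filter Topology

namespace Pool.Agent.Lib.helper15.MS

abbrev Ix : Type := Option (J × X)

def A : Type := lp (fun _ : Ix => X) ⊤
noncomputable instance : NormedAddCommGroup A := inferInstanceAs (NormedAddCommGroup (lp (fun _ : Ix => X) ⊤))
noncomputable instance : NormedSpace ℝ A := inferInstanceAs (NormedSpace ℝ (lp (fun _ : Ix => X) ⊤))
instance : CompleteSpace A := inferInstanceAs (CompleteSpace (lp (fun _ : Ix => X) ⊤))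

noncomputable def cp (i : Ix) : A →L[ℝ] X := lp.evalCLM ℝ (fun _ : Ix => X) ⊤ i

lemma A_ext {x y : A} (h : ∀ i γ, ev γ (cp i x) = ev γ (cp i y)) : x = y :=
  lp.ext (funext fun i => X_ext (h i))

lemma cp_le (y : A) (i : Ix) : ‖cp i y‖ ≤ ‖y‖ :=
  lp.norm_apply_le_norm (E := fun _ : Ix => X) (p := ⊤) (by simp) y i

lemma A_norm_le (y : A) {c : ℝ} (hc : 0 ≤ c) (h : ∀ i, ‖cp i y‖ ≤ c) : ‖y‖ ≤ c :=
  lp.norm_le_of_forall_le (E := fun _ : Ix => X) hc h

def lev : Ix → WithBot J
  | none => ⊥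
  | some (α, _) => α

def Sup (β : J) (y : A) : Prop :=
  ∀ i γ, (β ≤ γ ∨ (β : WithBot J) ≤ lev i) → ev γ (cp i y) = 0

variable (v : J → A)

noncomputable def gg : Ix → X → X
  | none, _ => 0
  | some (α, q), x => sg α (GG (v α = 0) ‖v α‖ α (hd α x) q)

lemma gg_norm (i : Ix) (x : X) : ‖gg v i x‖ ≤ 1 := by
  rcases i with _ | ⟨α, q⟩
  · simp [gg]
  · rw [gg, norm_sg]; exact GG_abs ..

lemma sg_sub (α : J) (s t : ℝ) : sg α s - sg α t = sg α (s - t) := X_ext fun γ => by
  simp only [map_sub, ev_sg]; split_ifs <;> simp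

lemma gg_lip (i : Ix) (x x' : X) : ‖gg v i x - gg v i x'‖ ≤ ‖hd (lev i) (x - x')‖ := by
  rcases i with _ | ⟨α, q⟩
  · simp [gg]
  · simp only [gg, lev]
    rw [sg_sub, norm_sg, hd_sub]; exact GG_lip ..

lemma gg_ev (i : Ix) (x : X) (γ : J) (h : (γ : WithBot J) ≠ lev i) : ev γ (gg v i x) = 0 := by
  rcases i with _ | ⟨α, q⟩
  · simp [gg]
  · simp only [gg, ev_sg]
    rw [if_neg]
    rintro rfl; exact h rfl

lemma gg_zero (i : Ix) (x : X) (h : ∀ γ : J, (γ : WithBot J) = lev i → ev γ x = 0) :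
    gg v i x = 0 := by
  rcases i with _ | ⟨α, q⟩
  · rfl
  · simp only [gg]
    rw [GG_zero _ _ _ _ _ (aa_zero _ _ _ _ (by rw [ev_hd, if_pos le_rfl]; exact h α rfl))]
    exact X_ext fun γ => by simp [ev_sg]

lemma tl_le (l : WithBot J) (x : X) : ‖tl l x‖ ≤ ‖x‖ := by
  linarith [norm_hd_tl l x, norm_nonneg (hd l x)]

noncomputable def B (x : X) : A :=
  ⟨fun i => gg v i x + tl (lev i) (τx x), memℓp_infty ⟨1 + ‖x‖, by
    rintro _ ⟨i, rfl⟩
    exact (norm_add_le _ _).trans (add_le_add (gg_norm v i x)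
      ((tl_le _ _).trans (norm_mono fun γ => τ_abs _)))⟩⟩

lemma cp_B (x : X) (i : Ix) : cp i (B v x) = gg v i x + tl (lev i) (τx x) := rfl

lemma sumL (x : X) : Summable fun β => lam ‖v β‖ (ev β x) • v β :=
  Summable.of_norm_bounded (hasSum_norm x).summable fun β => by
    rw [norm_smul]; exact lam_abs (norm_nonneg _) _

noncomputable def L (x : X) : A := ∑' β, lam ‖v β‖ (ev β x) • v β

noncomputable def U (x : X) : A := B v x + L v x

lemma cp_L (x : X) (i : Ix) : HasSum (fun β => lam ‖v β‖ (ev β x) • cp i (v β)) (cp i (L v x)) := by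
  simpa only [map_smul, L] using (cp i).hasSum (sumL v x).hasSum

lemma ev_L_zero (x : X) (i : Ix) (γ : J)
    (h : ∀ β, ev β x ≤ 2 ∨ ev γ (cp i (v β)) = 0) : ev γ (cp i (L v x)) = 0 := by
  have h1 := (ev γ).hasSum (cp_L v x i)
  refine h1.unique ?_
  have : (fun β => ev γ (lam ‖v β‖ (ev β x) • cp i (v β))) = fun _ => 0 := by
    funext β
    rcases h β with h | h
    · rw [lam_of_le (norm_nonneg _) h]; simp
    · simp [h]
  rw [this]; exact hasSum_zero

variable {v}

lemma U_lip (Hv : ∀ β, Sup β (v β)) (x x' : X) : ‖U v x - U v x'‖ ≤ ‖x - x'‖ := by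
  refine A_norm_le _ (norm_nonneg _) fun i => ?_
  have e : cp i (U v x - U v x') = (gg v i x - gg v i x') + (tl (lev i) (τx x - τx x') +
      (cp i (L v x) - cp i (L v x'))) := by
    simp only [U, map_sub, map_add, cp_B, tl_sub]; abel
  rw [e, ← norm_hd_tl (lev i) (x - x')]
  refine (norm_add_le _ _).trans (add_le_add (gg_lip v i x x') ((norm_add_le _ _).trans ?_))
  have h1 := (cp_L v x i).sub (cp_L v x' i)
  have h2 := (hasSum_norm (tl (lev i) (x - x'))).sub (hasSum_norm (tl (lev i) (τx x - τx x')))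
  have h3 := h1.norm_le_of_bounded h2 fun β => by
    rw [← sub_smul, norm_smul, ev_tl, ev_tl]
    split_ifs with h
    · have := key (norm_nonneg (v β)) (ev β x) (ev β x')
      have h4 : ‖lam ‖v β‖ (ev β x) - lam ‖v β‖ (ev β x')‖ * ‖cp i (v β)‖ ≤
        |lam ‖v β‖ (ev β x) - lam ‖v β‖ (ev β x')| * ‖v β‖ :=
        mul_le_mul_of_nonneg_left (cp_le _ _) (norm_nonneg _)
      simp only [map_sub, ev_τx]
      linarith
    · have : cp i (v β) = 0 := X_ext fun γ => Hv β i γ (Or.inr (not_lt.1 h))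
      simp [this]
  linarith

lemma cp_U (Hv : ∀ β, Sup β (v β)) (x : X) (i : Ix) (h : ∀ β : J, lev i < β → ev β x ≤ 1) :
    cp i (U v x) = gg v i x + tl (lev i) x := by
  have h1 : cp i (L v x) = 0 := X_ext fun γ => ev_L_zero v x i γ fun β => by
    by_cases hb : lev i < β
    · left; linarith [h β hb]
    · right; exact Hv β i γ (Or.inr (not_lt.1 hb))
  have h2 : tl (lev i) (τx x) = tl (lev i) x := X_ext fun γ => by
    rw [ev_tl, ev_tl, ev_τx]
    split_ifs with hb
    · exact τ_of_le (h γ hb)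
    · rfl
  rw [U, map_add, h1, add_zero, cp_B, h2]

lemma cp_U_sub (Hv : ∀ β, Sup β (v β)) (x x' : X) (i : Ix)
    (h : ∀ β : J, lev i < β → ev β x ≤ 1 ∧ ev β x' ≤ 1) :
    ‖cp i (U v x - U v x')‖ = ‖gg v i x - gg v i x'‖ + ‖tl (lev i) (x - x')‖ := by
  rw [map_sub, cp_U Hv x i fun β hb => (h β hb).1, cp_U Hv x' i fun β hb => (h β hb).2,
    ← norm_add_disj, tl_sub]
  · congr 1; abel
  · intro γ
    by_cases hb : lev i < γ
    · left; rw [map_sub, gg_ev v i x γ hb.ne', gg_ev v i x' γ hb.ne', sub_self]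
    · right; rw [ev_tl, if_neg hb]

lemma cases_big (x x' : X) : (∀ β, ev β x ≤ 1 ∧ ev β x' ≤ 1) ∨
    ∃ α, (1 < ev α x ∨ 1 < ev α x') ∧ ∀ β, α < β → ev β x ≤ 1 ∧ ev β x' ≤ 1 := by
  have hf := (fin_big x).union (fin_big x')
  rcases Set.eq_empty_or_nonempty ({γ | 1 < ev γ x} ∪ {γ | 1 < ev γ x'}) with h | h
  · left
    intro β
    have := Set.eq_empty_iff_forall_notMem.1 h β
    simpa using this
  · right
    obtain ⟨α, hα, hm⟩ := hf.exists_maximal h
    refine ⟨α, hα, fun β hb => ?_⟩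
    by_contra hn
    have : β ∈ {γ | 1 < ev γ x} ∪ {γ | 1 < ev γ x'} := by
      simp only [Set.mem_union, Set.mem_ofPred_eq]
      by_contra h2
      push Not at h2
      exact hn h2
    exact absurd (hm this hb.le) (not_le.2 hb)

lemma tl_bot (x : X) : tl ⊥ x = x := X_ext fun γ => by rw [ev_tl, if_pos (WithBot.bot_lt_coe γ)]

lemma low_none (Hv : ∀ β, Sup β (v β)) (x x' : X) (h : ∀ β, ev β x ≤ 1 ∧ ev β x' ≤ 1) :
    ‖x - x'‖ ≤ ‖U v x - U v x'‖ := by
  have := cp_U_sub Hv x x' none fun β _ => h β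
  simp only [gg, lev, tl_bot, sub_self, norm_zero, zero_add] at this
  rw [← this]; exact cp_le _ _

lemma low_some (Hv : ∀ β, Sup β (v β)) (x x' : X) (α : J)
    (h : ∀ β, α < β → ev β x ≤ 1 ∧ ev β x' ≤ 1) :
    DD (v α = 0) ‖v α‖ α (hd α x) (hd α x') + ‖tl α (x - x')‖ ≤ ‖U v x - U v x'‖ := by
  have := cp_U_sub Hv x x' (some (α, hd α x')) fun β hb => h β (WithBot.coe_lt_coe.1 hb)
  simp only [gg, lev] at this
  rw [sg_sub, norm_sg, GG_self, abs_of_nonneg (DD_nonneg ..)] at this
  rw [← this]; exact cp_le _ _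

lemma U_loc (Hv : ∀ β, Sup β (v β)) (x x' : X) (hd2 : ‖x - x'‖ ≤ 1 / 2) :
    ‖U v x - U v x'‖ = ‖x - x'‖ := by
  refine le_antisymm (U_lip Hv x x') ?_
  rcases cases_big x x' with h | ⟨α, h1, h⟩
  · exact low_none Hv x x' h
  · have := low_some Hv x x' α h
    have h3 := norm_hd_tl α (x - x')
    rw [DD_eq _ _ _ _ _ (by rw [← hd_sub]; linarith [norm_nonneg (tl α (x - x'))])
      (by simpa only [ev_hd, if_pos le_rfl] using h1), ← hd_sub] at this
    linarith

def Lo (β : J) (x : X) : Prop := ∀ γ, β ≤ γ → ev γ x = 0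

lemma U_sup {β : J} (Hv : ∀ γ < β, Sup γ (v γ)) {x : X} (hx : Lo β x) : Sup β (U v x) := by
  intro i γ h
  have h1 : ev γ (cp i (L v x)) = 0 := ev_L_zero v x i γ fun δ => by
    by_cases hb : δ < β
    · right
      refine Hv δ hb i γ (h.imp (hb.le.trans) fun h => le_trans ?_ h)
      exact WithBot.coe_le_coe.2 hb.le
    · left; rw [hx δ (not_lt.1 hb)]; norm_num
  have h2 : ev γ (gg v i x) = 0 := by
    by_cases hc : (γ : WithBot J) = lev i
    · rw [gg_zero v i x fun δ hδ => hx δ ?_]; · simp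
      rcases h with h | h
      · rw [← hδ, WithBot.coe_inj] at hc; exact hc ▸ h
      · rw [← hδ] at h; exact WithBot.coe_le_coe.1 h
    · exact gg_ev v i x γ hc
  have h3 : ev γ (tl (lev i) (τx x)) = 0 := by
    rw [ev_tl, ev_τx]
    split_ifs with hb
    · rw [hx γ, τ_of_le zero_le_one]
      rcases h with h | h
      · exact h
      · exact WithBot.coe_le_coe.1 (h.trans hb.le)
    · rfl
  rw [U, map_add, map_add, cp_B, map_add, h1, h2, h3]; simp

lemma U_local {v v' : J → A} {β : J} (h : ∀ γ < β, v γ = v' γ) {x : X} (hx : Lo β x) :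
    U v x = U v' x := by
  have h1 : L v x = L v' x := tsum_congr fun γ => by
    by_cases hb : γ < β
    · rw [h γ hb]
    · rw [hx γ (not_lt.1 hb), lam_of_le (norm_nonneg _) zero_le_two,
        lam_of_le (norm_nonneg _) zero_le_two, zero_smul, zero_smul]
  have h2 : B v x = B v' x := A_ext fun i γ => by
    rw [cp_B, cp_B]
    congr 2
    rcases i with _ | ⟨α, q⟩
    · rfl
    · by_cases hb : α < β
      · simp only [gg, h α hb]
      · have : ∀ δ : J, (δ : WithBot J) = lev (some (α, q)) → ev δ x = 0 := fun δ hδ => by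
          rw [WithBot.coe_inj.1 hδ]; exact hx α (not_lt.1 hb)
        rw [gg_zero v _ x this, gg_zero v' _ x this]
  rw [U, U, h1, h2]

lemma U_zero : U v 0 = 0 := A_ext fun i γ => by
  rw [U, map_add, map_add, cp_B, map_add, gg_zero v i 0 (by simp),
    ev_L_zero v 0 i γ (by simp), ev_tl, ev_τx]
  simp [τ_of_le]

lemma U_sg (β : J) (t : ℝ) (ht : 2 ≤ t) (i : Ix) :
    cp i (U v (sg β t)) = gg v i (sg β t) + lam ‖v β‖ t • cp i (v β) := by
  have h1 : L v (sg β t) = lam ‖v β‖ t • v β := by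
    rw [L, tsum_eq_single β]
    · rw [ev_sg, if_pos rfl]
    · intro γ hγ
      rw [ev_sg, if_neg hγ, lam_of_le (norm_nonneg _) zero_le_two, zero_smul]
  have h2 : tl (lev i) (τx (sg β t)) = 0 := X_ext fun γ => by
    rw [ev_tl, ev_τx, ev_sg]
    split_ifs <;> simp [τ_of_ge ht, τ_of_le]
  rw [U, map_add, h1, cp_B, h2, add_zero, map_smul]

lemma U_two (β : J) : ‖U v (sg β 2)‖ ≤ 1 := A_norm_le _ zero_le_one fun i => by
  rw [U_sg β 2 le_rfl, lam_of_le (norm_nonneg _) le_rfl, zero_smul, add_zero]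
  exact gg_norm ..

lemma U_top (β : J) (h : v β ≠ 0) : U v (sg β (3 + ‖v β‖)) = v β := A_ext fun i γ => by
  rw [U_sg β _ (by linarith [norm_nonneg (v β)]), lam_top (norm_nonneg _), one_smul]
  have : gg v i (sg β (3 + ‖v β‖)) = 0 := by
    by_cases hc : (β : WithBot J) = lev i
    · rcases i with _ | ⟨α, q⟩
      · rfl
      · obtain rfl : β = α := WithBot.coe_inj.1 hc
        have e : hd β (sg β (3 + ‖v β‖)) = sg β (3 + ‖v β‖) := X_ext fun γ => by
          rw [ev_hd, ev_sg]
          split_ifs with h1 h2 h2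
          · rfl
          · rfl
          · exact absurd (h2 ▸ le_rfl) h1
          · rfl
        simp only [gg]
        rw [GG_zero _ _ _ _ _ (by rw [e]; unfold aa; rw [if_neg h]; simp)]
        exact X_ext fun γ => by simp [ev_sg]
    · exact gg_zero v i _ fun δ hδ => by
        rw [ev_sg, if_neg]; rintro rfl; exact hc hδ
  rw [this, zero_add]

lemma U_hd (Hv : ∀ β, Sup β (v β)) (x : X) (α : J) (h : ∀ β, α < β → ev β x ≤ 1) (i : Ix) (γ : J) :
    ev γ (cp i (U v (hd α x))) = if lev i ≤ α ∧ γ ≤ α then ev γ (cp i (U v x)) else 0 := by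
  split_ifs with hc
  · have h1 : L v (hd α x) = L v x := tsum_congr fun β => by
      rw [ev_hd]
      split_ifs with hb
      · rfl
      · rw [lam_of_le (norm_nonneg _) zero_le_two, lam_of_le (norm_nonneg _)]
        linarith [h β (not_le.1 fun h => hb (WithBot.coe_le_coe.2 h))]
    have h2 : gg v i (hd α x) = gg v i x := by
      rcases i with _ | ⟨α', q⟩
      · rfl
      · have : hd α' (hd α x) = hd α' x := X_ext fun δ => by
          simp only [ev_hd]
          split_ifs with h1 h2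
          · rfl
          · exact absurd (h1.trans hc.1) h2
          · rfl
        simp only [gg, this]
    simp only [U, map_add, cp_B, h1, h2, ev_tl, ev_τx, ev_hd, if_pos (WithBot.coe_le_coe.2 hc.2)]
  · have h1 : ev γ (cp i (L v (hd α x))) = 0 := ev_L_zero v _ i γ fun δ => by
      by_cases hb : δ ≤ α
      · right
        refine Hv δ i γ ?_
        rcases not_and_or.1 hc with hc | hc
        · right; exact (WithBot.coe_le_coe.2 hb).trans (not_le.1 hc).le
        · left; exact hb.trans (not_le.1 hc).le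
      · left; rw [ev_hd, if_neg fun h => hb (WithBot.coe_le_coe.1 h)]; norm_num
    have h2 : ev γ (gg v i (hd α x)) = 0 := by
      by_cases hd2 : (γ : WithBot J) = lev i
      · rw [gg_zero v i _ fun δ hδ => ?_]; · simp
        rw [ev_hd, if_neg]
        intro h3
        refine hc ⟨hδ ▸ h3, WithBot.coe_le_coe.1 ?_⟩
        rw [hd2, ← hδ]; exact h3
      · exact gg_ev v i _ γ hd2
    have h3 : ev γ (tl (lev i) (τx (hd α x))) = 0 := by
      rw [ev_tl, ev_τx, ev_hd]
      split_ifs with hb hb2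
      · exact absurd ⟨hb.le.trans hb2, WithBot.coe_le_coe.1 hb2⟩ hc
      · exact τ_of_le zero_le_one
      · rfl
    rw [U, map_add, map_add, cp_B, map_add, h1, h2, h3]; simp

lemma U_inj (Hv : ∀ β, Sup β (v β)) (Ha : ∀ β, v β ≠ 0 → ∀ x, Lo β x → U v x ≠ v β) :
    Function.Injective (U v) := by
  have main : ∀ x x' α, U v x = U v x' → 1 < ev α x →
      (∀ β, α < β → ev β x ≤ 1 ∧ ev β x' ≤ 1) → x = x' := by
    intro x x' α hU h1 h
    have := low_some Hv x x' α h
    rw [hU, sub_self, norm_zero] at this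
    have d0 := DD_nonneg (v α = 0) ‖v α‖ α (hd α x) (hd α x')
    have d1 := norm_nonneg (tl α (x - x'))
    have e1 : tl α (x - x') = 0 := norm_eq_zero.1 (by linarith)
    rcases DD_eq_zero _ _ _ _ _ (by linarith : DD (v α = 0) ‖v α‖ α (hd α x) (hd α x') = 0)
      (by rwa [ev_hd, if_pos le_rfl]) with h2 | ⟨h2, h3, h4⟩
    · rw [← sub_eq_zero, ← hd_add_tl α (x - x'), e1, hd_sub, h2]; simp
    · exfalso
      have e2 : U v (hd α x) = U v (hd α x') := A_ext fun i γ => by
        rw [U_hd Hv x α fun β hb => (h β hb).1, U_hd Hv x' α fun β hb => (h β hb).2, hU]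
      rw [h3, U_top α h2] at e2
      refine Ha α h2 (hd α x') (fun γ hγ => ?_) e2.symm
      rcases hγ.eq_or_lt with rfl | hγ
      · exact h4
      · rw [ev_hd, if_neg fun h => absurd (WithBot.coe_le_coe.1 h) (not_le.2 hγ)]
  intro x x' hU
  rcases cases_big x x' with h | ⟨α, h1 | h1, h⟩
  · have := low_none Hv x x' h
    rw [hU, sub_self, norm_zero] at this
    exact sub_eq_zero.1 (norm_le_zero_iff.1 this)
  · exact main x x' α hU h1 h
  · exact (main x' x α hU.symm h1 fun β hb => (h β hb).symm).symm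

def Good (c : Code) (β : J) (v : J → A) (y : A) : Prop :=
  (∀ n, ∀ x ∈ (c n).support, Lo β x) ∧
  Tendsto (fun n => (c n).sum fun x r => r • U v x) atTop (𝓝 y) ∧ ∀ x, Lo β x → U v x ≠ y

lemma Good_local {c : Code} {β : J} {v v' : J → A} (h : ∀ γ < β, v γ = v' γ) :
    Good c β v = Good c β v' := by
  have k : ∀ v v' : J → A, (∀ γ < β, v γ = v' γ) → ∀ y, Good c β v y → Good c β v' y := by
    intro v v' h y ⟨h1, h2, h3⟩
    refine ⟨h1, h2.congr fun n => Finset.sum_congr rfl fun x hx => ?_, fun x hx => ?_⟩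
    · show _ • _ = _ • _
      rw [U_local h (h1 n x hx)]
    · rw [← U_local h hx]; exact h3 x hx
  funext y
  exact propext ⟨k v v' h y, k v' v (fun γ hγ => (h γ hγ).symm) y⟩

noncomputable def pick (P : A → Prop) : A := by
  classical exact if h : ∃ y, P y then h.choose else 0

lemma exists_v (c : J → Code) : ∃ v : J → A, ∀ β, v β = pick (Good (c β) β v) := by
  classical
  let F : ∀ β : J, (∀ γ, γ < β → A) → A := fun β rec =>
    pick (Good (c β) β fun γ => if h : γ < β then rec γ h else 0)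
  refine ⟨(wellFounded_lt (α := J)).fix F, fun β => ?_⟩
  rw [WellFounded.fix_eq]
  exact congrArg pick (Good_local fun γ hγ => dif_pos hγ)

theorem main : ∃ (Y : Submodule ℝ A) (_ : IsClosed (Y : Set A)) (V : X → Y),
    Function.Bijective V ∧ (∀ x x', ‖x - x'‖ ≤ 1 / 2 → dist (V x) (V x') = dist x x') ∧
    ¬ Isometry V := by
  obtain ⟨c, hc⟩ := exists_enum Code mkCode
  obtain ⟨v, hv⟩ := exists_v c
  have hg : ∀ β, v β ≠ 0 → Good (c β) β v (v β) := by
    intro β h
    have e := hv β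
    unfold pick at e
    split_ifs at e with h1
    · rw [e]; exact h1.choose_spec
    · exact absurd e h
  have Hv : ∀ β, Sup β (v β) := by
    intro β
    induction β using WellFoundedLT.induction with
    | ind β ih =>
      by_cases h : v β = 0
      · intro i γ _; simp [h]
      · obtain ⟨h1, h2, -⟩ := hg β h
        intro i γ hi
        have h3 := (((ev γ).comp (cp i)).continuous.tendsto _).comp h2
        refine tendsto_nhds_unique h3 (tendsto_const_nhds.congr fun n => ?_)
        simp only [Function.comp_apply, Finsupp.sum, map_sum, map_smul,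
          ContinuousLinearMap.comp_apply]
        exact (Finset.sum_eq_zero fun x hx => by rw [U_sup ih (h1 n x hx) i γ hi, smul_zero]).symm
  let Y := (Submodule.span ℝ (Set.range (U v))).topologicalClosure
  let V : X → Y := fun x => ⟨U v x, Submodule.le_topologicalClosure _ (Submodule.subset_span ⟨x, rfl⟩)⟩
  have hd : ∀ x x', dist (V x) (V x') = ‖U v x - U v x'‖ := fun x x' => by
    rw [Subtype.dist_eq, dist_eq_norm]
  refine ⟨Y, Submodule.isClosed_topologicalClosure _, V, ⟨fun x x' h => ?_, fun y => ?_⟩,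
    fun x x' h => by rw [hd, U_loc Hv x x' h, dist_eq_norm], fun h => ?_⟩
  · exact U_inj Hv (fun β h => (hg β h).2.2) (congrArg Subtype.val h)
  · obtain ⟨s, hs, hy⟩ := mem_closure_iff_seq_limit.1 y.2
    choose d hd using fun n => Finsupp.mem_span_range_iff_exists_finsupp.1 (hs n)
    obtain ⟨β0, hβ0⟩ := bdd_of_countable (⋃ n, ⋃ x ∈ (d n).support, {γ | ev γ x ≠ 0})
      (Set.countable_iUnion fun n => (d n).support.countable_toSet.biUnion fun x _ => supp_countable x)
    obtain ⟨β, hβ, hcβ⟩ := hc d β0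
    by_cases hex : ∃ x, Lo β x ∧ U v x = y
    · obtain ⟨x, -, hx⟩ := hex
      exact ⟨x, Subtype.ext hx⟩
    · have G : Good (c β) β v y := by
        rw [hcβ]
        refine ⟨fun n x hx γ hγ => ?_, hy.congr fun n => (hd n).symm, fun x hx h => hex ⟨x, hx, h⟩⟩
        by_contra hn
        have := hβ0 γ (Set.mem_iUnion.2 ⟨n, Set.mem_biUnion hx hn⟩)
        exact absurd (this.trans_le (hβ.trans hγ)) (lt_irrefl _)
      have e := hv β
      unfold pick at e
      rw [dif_pos ⟨_, G⟩] at e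
      have G' := Exists.choose_spec (⟨_, G⟩ : ∃ y, Good (c β) β v y)
      rw [← e] at G'
      have e2 : v β = y := tendsto_nhds_unique G'.2.1 G.2.1
      have e3 : v β ≠ 0 := fun h => G'.2.2 0 (fun _ _ => by simp) (by rw [U_zero, h])
      exact ⟨sg β (3 + ‖v β‖), Subtype.ext ((U_top β e3).trans e2)⟩
  · obtain ⟨β⟩ := (inferInstance : Nonempty J)
    have := h.dist_eq (sg β 2) 0
    rw [hd, U_zero, sub_zero, dist_zero_right, norm_sg] at this
    have h2 := U_two (v := v) β
    rw [this] at h2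
    norm_num at h2

end Pool.Agent.Lib.helper15.MS
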