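import Mathlib
import Pool.Agent.Lib.helper15.MagFour

set_option autoImplicit false

open MeasureTheory Filter Topology Set
open scoped Real FourierTransform

namespace Pool.Agent.Lib.helper15.MagFour

lemma int_pow (k : ℕ) {b : ℝ} (hb : 0 < b) : Integrable fun g : ℝ => g ^ k * Real.exp (-b * g ^ 2) := by
  simpa using integrable_rpow_mul_exp_neg_mul_sq hb (s := k)
    (lt_of_lt_of_le (by norm_num) (Nat.cast_nonneg k))

lemma int_g2 {b : ℂ} (hb : 0 < b.re) :
    Integrable fun g : ℝ => (g : ℂ) ^ 2 * Complex.exp (-b * g ^ 2) := by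
  refine (int_pow 2 hb).mono' (by fun_prop) (Eventually.of_forall fun g => ?_)
  rw [norm_mul, norm_cexp_neg_mul_sq]; simp

lemma gauss2 {b : ℂ} (hb : 0 < b.re) :
    ∫ g : ℝ, (g : ℂ) ^ 2 * Complex.exp (-b * g ^ 2) = (π / b) ^ (1 / 2 : ℂ) / (2 * b) := by
  have b0 : b ≠ 0 := fun h => by simp [h] at hb
  have h := integral_eq_zero_of_hasDerivAt_of_integrable
    (f := fun g : ℝ => (g : ℂ) * Complex.exp (-b * g ^ 2))
    (f' := fun g : ℝ => Complex.exp (-b * g ^ 2) - 2 * b * ((g : ℂ) ^ 2 * Complex.exp (-b * g ^ 2)))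
    (fun g => by
      have := ((hasDerivAt_id (g : ℂ)).mul
        (((hasDerivAt_pow 2 (g : ℂ)).const_mul (-b)).cexp)).comp_ofReal
      refine this.congr_deriv ?_
      simp; ring)
    ((integrable_cexp_neg_mul_sq hb).sub ((int_g2 hb).const_mul _))
    (integrable_mul_cexp_neg_mul_sq hb)
  rw [integral_sub (integrable_cexp_neg_mul_sq hb) ((int_g2 hb).const_mul _), integral_const_mul,
    integral_gaussian_complex hb] at h
  rw [eq_div_iff (by simpa using b0)]
  linear_combination -h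

noncomputable def ρ (g : ℝ) : ℝ := 2 / √π * (g ^ 2 * Real.exp (-1 * g ^ 2))

lemma ρ_nonneg (g : ℝ) : 0 ≤ ρ g := by unfold ρ; positivity
@[fun_prop] lemma cont_ρ : Continuous ρ := by unfold ρ; fun_prop
lemma int_ρ : Integrable ρ := (int_pow 2 one_pos).const_mul _

noncomputable def c (ξ : ℝ) : ℂ := ∫ g, e (g ^ 2 * ξ) * ρ g

lemma c_eq (ξ : ℝ) : c ξ = 2 / √π * ((π / (1 - ξ * Complex.I)) ^ (1 / 2 : ℂ) /
    (2 * (1 - ξ * Complex.I))) := by
  rw [← gauss2 (by simp), ← integral_const_mul]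
  refine integral_congr_ae (Eventually.of_forall fun g => ?_)
  simp only [e, ρ]
  push_cast
  rw [mul_left_comm, mul_left_comm (Complex.exp _), ← Complex.exp_add]
  congr 3; ring

lemma b_ne (ξ : ℝ) : (1 - ξ * Complex.I) ≠ 0 := fun h => by simpa using congrArg Complex.re h

lemma c_sq (ξ : ℝ) : c ξ ^ 2 = ((1 - ξ * Complex.I) ^ 3)⁻¹ := by
  have h := b_ne ξ
  have h1 : ((π / (1 - ξ * Complex.I)) ^ (1 / 2 : ℂ)) ^ 2 = π / (1 - ξ * Complex.I) := by
    simp
  have h2 : ((√π : ℝ) : ℂ) ^ 2 = π := by exact_mod_cast Real.sq_sqrt Real.pi_pos.le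
  have h3 : (π : ℂ) ≠ 0 := by simp
  rw [c_eq, mul_pow, div_pow, div_pow, h1, h2]
  field_simp

lemma ρ_one : ∫ g, (ρ g : ℂ) = 1 := by
  have h := c_sq 0
  simp only [c, mul_zero, e_zero, one_mul, integral_complex_ofReal] at h ⊢
  have h1 : (∫ g, ρ g) ^ 2 = 1 := by
    have : ((∫ g, ρ g : ℝ) : ℂ) ^ 2 = 1 := by simpa using h
    exact_mod_cast this
  have h2 : 0 ≤ ∫ g, ρ g := integral_nonneg ρ_nonneg
  have : ∫ g, ρ g = 1 := by nlinarith
  rw [this]; simp

noncomputable def K (L : ℝ) (x g : ℝ) : ℂ := (Ioo (-(L + g ^ 2)) (L + g ^ 2)).indicator (fun _ => ρ g) x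

lemma int_K {L : ℝ} (hL : 0 ≤ L) : Integrable (Function.uncurry (K L)) (volume.prod volume) := by
  have hm : Measurable (Function.uncurry (K L)) := by
    have : Function.uncurry (K L) = {p : ℝ × ℝ | -(L + p.2 ^ 2) < p.1 ∧ p.1 < L + p.2 ^ 2}.indicator
        fun p => (ρ p.2 : ℂ) := by
      funext p; simp [K, indicator, Function.uncurry]
    rw [this]
    refine Measurable.indicator (by fun_prop) ?_
    exact (measurableSet_lt (f := fun p : ℝ × ℝ => -(L + p.2 ^ 2)) (g := fun p => p.1)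
      (by fun_prop) (by fun_prop)).inter (measurableSet_lt (g := fun p : ℝ × ℝ => L + p.2 ^ 2)
      (f := fun p => p.1) (by fun_prop) (by fun_prop))
  rw [integrable_prod_iff' hm.aestronglyMeasurable]
  refine ⟨Eventually.of_forall fun g => ?_, ?_⟩
  · have : IntegrableOn (fun _ : ℝ => (ρ g : ℂ)) (Ioo (-(L + g ^ 2)) (L + g ^ 2)) :=
      integrableOn_const (by simp)
    exact this.integrable_indicator measurableSet_Ioo
  · have : Integrable fun g : ℝ => 2 * L * ρ g + 4 / √π * (g ^ 4 * Real.exp (-1 * g ^ 2)) :=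
      (int_ρ.const_mul _).add ((int_pow 4 one_pos).const_mul _)
    refine this.congr (Eventually.of_forall fun g => ?_)
    simp only [Function.uncurry, K, norm_indicator_eq_indicator_norm]
    rw [integral_indicator measurableSet_Ioo, setIntegral_const, Real.volume_real_Ioo_of_le
      (by nlinarith [sq_nonneg g]), Complex.norm_real, Real.norm_of_nonneg (ρ_nonneg g)]
    simp only [ρ, smul_eq_mul]; ring

noncomputable def a0 (L ξ : ℝ) : ℝ := 2 * (e (L * ξ) * c ξ).im / ξ

lemma four_K {L : ℝ} (hL : 0 ≤ L) {ξ : ℝ} (hξ : ξ ≠ 0) :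
    ∫ x, e (-(ξ * x)) * ∫ g, K L x g = a0 L ξ := by
  simp_rw [← integral_const_mul]
  rw [integral_integral_swap (f := fun x g => e (-(ξ * x)) * K L x g)
    (int_e (int_K hL) (θ := fun p => -(ξ * p.1)) (by fun_prop))]
  have h1 : ∀ g : ℝ, ∫ x, e (-(ξ * x)) * K L x g =
      ((2 / ξ * (e (L * ξ) * (e (g ^ 2 * ξ) * ρ g)).im : ℝ) : ℂ) := by
    intro g
    have : (fun x => e (-(ξ * x)) * K L x g) = (Ioo (-(L + g ^ 2)) (L + g ^ 2)).indicator
        fun x : ℝ => ρ g * Complex.exp ((-ξ * Complex.I) * x) := by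
      funext x
      simp only [K, indicator, e]
      split_ifs
      · rw [mul_comm]; congr 2; push_cast; ring
      · simp
    have hξ' : (ξ : ℂ) ≠ 0 := by exact_mod_cast hξ
    rw [this, integral_indicator measurableSet_Ioo, integral_const_mul, ← integral_Ioc_eq_integral_Ioo,
      ← intervalIntegral.integral_of_le (by nlinarith [sq_nonneg g]),
      integral_exp_mul_complex (by simpa using hξ), ← mul_assoc (e _), ← e_add, Complex.mul_im,
      Complex.ofReal_im, Complex.ofReal_re, e_im]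
    have e1 : Complex.exp (-ξ * Complex.I * ((L + g ^ 2 : ℝ) : ℂ)) =
        Complex.exp (-((L * ξ + g ^ 2 * ξ : ℝ) : ℂ) * Complex.I) := by congr 1; push_cast; ring
    have e2 : Complex.exp (-ξ * Complex.I * ((-(L + g ^ 2) : ℝ) : ℂ)) =
        Complex.exp (((L * ξ + g ^ 2 * ξ : ℝ) : ℂ) * Complex.I) := by congr 1; push_cast; ring
    rw [e1, e2]
    simp only [mul_zero, zero_add, Complex.ofReal_mul, Complex.ofReal_sin, Complex.sin,
      Complex.ofReal_div, Complex.ofReal_ofNat]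
    field_simp
    simp
  simp_rw [h1]
  have hi : Integrable fun g : ℝ => e (L * ξ) * (e (g ^ 2 * ξ) * ρ g) :=
    (int_e int_ρ.ofReal (by fun_prop)).const_mul _
  rw [integral_complex_ofReal, integral_const_mul]
  have := integral_im hi
  simp only [RCLike.im_to_complex] at this
  rw [this, integral_const_mul, a0, c]
  congr 1; ring

noncomputable def pw (ξ : ℝ) : ℝ := √(1 + ξ ^ 2) ^ 3

noncomputable def G (ξ : ℝ) : ℂ := (1 - ((1 + ξ * Complex.I) / √(1 + ξ ^ 2) * e (-ξ)) ^ 3) / ξ ^ 2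

lemma energy (L ξ : ℝ) : pw ξ * a0 L ξ ^ 2 =
    2 * ((1 - Real.cos ((2 * L + 3) * ξ)) / ξ ^ 2) + 2 * (e ((2 * L + 3) * ξ) * G ξ).re := by
  have h := b_ne ξ
  have p0 : 0 < 1 + ξ ^ 2 := by positivity
  set s := √(1 + ξ ^ 2) with hs
  have s0 : 0 < s := Real.sqrt_pos.2 p0
  have s2 : s ^ 2 = 1 + ξ ^ 2 := Real.sq_sqrt p0.le
  have s0' : (s : ℂ) ≠ 0 := by exact_mod_cast s0.ne'
  have s2' : (s : ℂ) ^ 2 = (1 + ξ * Complex.I) * (1 - ξ * Complex.I) := by
    have : (s : ℂ) ^ 2 = 1 + ξ ^ 2 := by exact_mod_cast s2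
    rw [this]; linear_combination (ξ : ℂ) ^ 2 * Complex.I_sq
  set z := e (L * ξ) * c ξ with hz
  have nb : ‖1 - ξ * Complex.I‖ = s := by
    rw [Complex.norm_eq_sqrt_sq_add_sq]; simp [hs]
  have z1 : s ^ 3 * ‖z‖ ^ 2 = 1 := by
    rw [← norm_pow, hz, mul_pow, c_sq, norm_mul, norm_pow, norm_e, norm_inv, norm_pow, nb]
    field_simp
  have z2 : ((s ^ 3 : ℝ) : ℂ) * z ^ 2 =
      e ((2 * L + 3) * ξ) * ((1 + ξ * Complex.I) / s * e (-ξ)) ^ 3 := by
    have : e (L * ξ) ^ 2 = e ((2 * L + 3) * ξ) * e (-ξ) ^ 3 := by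
      simp only [pow_succ, pow_zero, one_mul, ← e_add]; congr 1; ring
    have q : (1 + ξ * Complex.I) = s ^ 2 / (1 - ξ * Complex.I) := by rw [s2']; field_simp
    rw [hz, mul_pow, c_sq, this, q]
    push_cast; field_simp
  have z3 := congrArg Complex.re z2
  rw [Complex.re_ofReal_mul] at z3
  have z4 : 2 * z.im ^ 2 = ‖z‖ ^ 2 - (z ^ 2).re := by
    clear_value z
    rw [Complex.sq_norm, Complex.normSq_apply, sq z, Complex.mul_re]; ring
  have g1 : (e ((2 * L + 3) * ξ) * G ξ).re = (Real.cos ((2 * L + 3) * ξ) - s ^ 3 * (z ^ 2).re) / ξ ^ 2 := by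
    rw [G, ← mul_div_assoc, ← Complex.ofReal_pow, Complex.div_ofReal_re, mul_sub, mul_one,
      Complex.sub_re, e_re, z3]
  rw [g1, pw, a0, ← hs, ← hz, div_pow, ← mul_div_assoc, ← mul_add, ← add_div, ← mul_div_assoc]
  congr 1
  linear_combination 2 * s ^ 3 * z4 + 2 * z1

lemma int_G : Integrable G := by
  refine (integrable_inv_one_add_sq.const_mul 9).mono' (Measurable.aestronglyMeasurable ?_)
    (Eventually.of_forall fun ξ => ?_)
  · unfold G e; fun_prop
  have p0 : 0 < 1 + ξ ^ 2 := by positivity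
  set s := √(1 + ξ ^ 2) with hs
  have s0 : 0 < s := Real.sqrt_pos.2 p0
  have s2 : s ^ 2 = 1 + ξ ^ 2 := Real.sq_sqrt p0.le
  have s1 : 1 ≤ s := by nlinarith [sq_nonneg ξ]
  have nb : ‖1 + ξ * Complex.I‖ = s := by
    rw [Complex.norm_eq_sqrt_sq_add_sq]; simp [hs]
  set y := (1 + ξ * Complex.I) / s * e (-ξ) with hy
  have y1 : ‖y‖ = 1 := by
    rw [hy, norm_mul, norm_div, nb, norm_e, Complex.norm_real, Real.norm_of_nonneg s0.le]
    field_simp
  rcases eq_or_ne ξ 0 with rfl | h0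
  · simp [G]
  have x0 : 0 < ξ ^ 2 := by positivity
  rw [G, ← hs, ← hy, norm_div, norm_pow, Complex.norm_real, Real.norm_eq_abs, sq_abs,
    ← div_eq_mul_inv, div_le_div_iff₀ x0 p0]
  rcases le_total (ξ ^ 2) 1 with h | h
  · have h1 : ‖1 - y‖ ≤ 3 / 2 * ξ ^ 2 := by
      have : 1 - y = ((Complex.exp (ξ * Complex.I) - 1 - ξ * Complex.I) +
          (1 + ξ * Complex.I) / s * ((s - 1 : ℝ) : ℂ)) * e (-ξ) := by
        have s0' : (s : ℂ) ≠ 0 := by exact_mod_cast s0.ne'
        have : Complex.exp (ξ * Complex.I) * e (-ξ) = 1 := by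
          rw [← e, ← e_add]; simp
        rw [hy]; push_cast; field_simp
        linear_combination (-s : ℂ) * this
      rw [this, norm_mul, norm_e, mul_one]
      refine (norm_add_le _ _).trans ?_
      have h2 := Complex.norm_exp_sub_one_sub_id_le (x := ξ * Complex.I)
        (by simpa using (sq_le_one_iff_abs_le_one ξ).1 h)
      rw [norm_mul, norm_div, nb, Complex.norm_real, Complex.norm_real, Real.norm_of_nonneg s0.le,
        Real.norm_of_nonneg (by linarith), div_self s0.ne']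
      simp only [norm_mul, Complex.norm_real, Real.norm_eq_abs, Complex.norm_I, mul_one,
        sq_abs] at h2
      nlinarith
    have h2 : ‖1 - y ^ 3‖ ≤ 3 * ‖1 - y‖ := by
      rw [show 1 - y ^ 3 = (1 + y + y ^ 2) * (1 - y) by ring, norm_mul]
      gcongr
      refine norm_add₃_le.trans ?_
      rw [norm_pow, y1]; norm_num
    nlinarith [norm_nonneg (1 - y ^ 3)]
  · have h2 : ‖1 - y ^ 3‖ ≤ 2 := by
      refine (norm_sub_le _ _).trans ?_
      rw [norm_pow, y1]; norm_num
    nlinarith [norm_nonneg (1 - y ^ 3)]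

lemma cos_bd (a ξ : ℝ) : (1 - Real.cos (a * ξ)) / ξ ^ 2 ≤
    (1 - Real.cos (a * ξ)) * (1 + ξ ^ 2)⁻¹ + a ^ 2 / 2 * (1 + ξ ^ 2)⁻¹ := by
  rcases eq_or_ne ξ 0 with rfl | h0
  · simp; positivity
  have x0 : 0 < ξ ^ 2 := by positivity
  have := Real.one_sub_sq_div_two_le_cos (x := a * ξ)
  rw [← add_mul, ← div_eq_mul_inv, div_le_div_iff₀ x0 (by positivity)]
  nlinarith

lemma int_cos (a : ℝ) : Integrable fun ξ : ℝ => (1 - Real.cos (a * ξ)) / ξ ^ 2 := by
  refine (integrable_inv_one_add_sq.const_mul (2 + a ^ 2 / 2)).mono'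
    (Measurable.aestronglyMeasurable (by fun_prop)) (Eventually.of_forall fun ξ => ?_)
  rw [Real.norm_of_nonneg (div_nonneg (by linarith [Real.cos_le_one (a * ξ)]) (sq_nonneg _)),
    add_mul]
  refine (cos_bd a ξ).trans ?_
  gcongr
  linarith [Real.neg_one_le_cos (a * ξ)]

lemma J_le0 {a : ℝ} (ha : 0 < a) :
    ∫ ξ : ℝ, (1 - Real.cos (a * ξ)) / ξ ^ 2 ≤ π * a + π * a ^ 2 / 2 := by
  have i1 : Integrable fun ξ : ℝ => e (a * ξ) * (((1 + ξ ^ 2)⁻¹ : ℝ) : ℂ) :=
    int_e integrable_inv_one_add_sq.ofReal (by fun_prop)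
  have h1 := integral_re i1
  simp only [RCLike.re_to_complex, cauchy, Complex.mul_re, Complex.ofReal_re, Complex.ofReal_im,
    mul_zero, sub_zero, e_re] at h1
  have i2 : Integrable fun ξ : ℝ => Real.cos (a * ξ) * (1 + ξ ^ 2)⁻¹ := by
    simpa only [RCLike.re_to_complex, Complex.mul_re, Complex.ofReal_re, Complex.ofReal_im,
      mul_zero, sub_zero, e_re] using i1.re
  have i3 := integrable_inv_one_add_sq.sub i2
  refine (integral_mono (int_cos a) (i3.add (integrable_inv_one_add_sq.const_mul (a ^ 2 / 2)))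
    fun ξ => (cos_bd a ξ).trans_eq (by simp only [Pi.add_apply, Pi.sub_apply]; ring)).trans ?_
  simp only [Pi.add_apply]
  rw [integral_add i3 (integrable_inv_one_add_sq.const_mul _), integral_const_mul]
  simp only [Pi.sub_apply]
  rw [integral_sub integrable_inv_one_add_sq i2, h1, integral_univ_inv_one_add_sq, abs_of_pos ha]
  nlinarith [Real.add_one_le_exp (-a), Real.pi_pos]

lemma J_scale {a : ℝ} (ha : 0 < a) : ∫ ξ : ℝ, (1 - Real.cos (a * ξ)) / ξ ^ 2 =
    a * ∫ ξ : ℝ, (1 - Real.cos ξ) / ξ ^ 2 := by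
  have := Measure.integral_comp_mul_left (fun ξ : ℝ => (1 - Real.cos ξ) / ξ ^ 2) a
  rw [abs_of_pos (inv_pos.2 ha), smul_eq_mul] at this
  have h2 : ∀ ξ : ℝ, (1 - Real.cos (a * ξ)) / ξ ^ 2 = a ^ 2 * ((1 - Real.cos (a * ξ)) / (a * ξ) ^ 2) := by
    intro ξ; rw [mul_pow]; field_simp
  simp_rw [h2]
  rw [integral_const_mul, this]; field_simp

lemma J_le {a : ℝ} (ha : 0 < a) : ∫ ξ : ℝ, (1 - Real.cos (a * ξ)) / ξ ^ 2 ≤ π * a := by
  rw [J_scale ha, mul_comm π]
  gcongr
  refine le_of_forall_pos_le_add fun ε hε => ?_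
  have p := Real.pi_pos
  have h0 : 0 < ε / π := by positivity
  have := J_le0 h0
  rw [J_scale h0] at this
  refine le_of_mul_le_mul_left (this.trans ?_) h0
  have : π * (ε / π) ^ 2 = ε / π * ε := by field_simp
  nlinarith

theorem trial {ε : ℝ} (hε : 0 < ε) : ∀ᶠ L : ℝ in atTop, ∃ a : ℝ → ℝ, Integrable a ∧
    Integrable (fun ξ => pw ξ * a ξ ^ 2) ∧ (∀ s, |s| < L → ∫ ξ, e (s * ξ) * a ξ = 2 * π) ∧
    ∫ ξ, pw ξ * a ξ ^ 2 ≤ 2 * π * (2 * L + 3) + ε := by
  have RL : Tendsto (fun L : ℝ => ∫ ξ, e ((2 * L + 3) * ξ) * G ξ) atTop (𝓝 0) := by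
    have h1 : Tendsto (fun L : ℝ => -(2 * π)⁻¹ * (2 * L + 3)) atTop (cocompact ℝ) := by
      refine Tendsto.mono_right ?_ atBot_le_cocompact
      exact (tendsto_atTop_add_const_right _ _ (tendsto_id.const_mul_atTop two_pos)).const_mul_atTop_of_neg
        (neg_lt_zero.2 (by positivity))
    refine ((Real.zero_at_infty_fourier G).comp h1).congr fun L => ?_
    simp only [Function.comp, Real.fourier_real_eq_integral_exp_smul, e, smul_eq_mul]
    congr 1; funext ξ; congr 4
    field_simp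
  have RL2 := (Complex.continuous_re.tendsto 0).comp RL
  filter_upwards [eventually_ge_atTop 0, RL2.eventually (gt_mem_nhds (show (0 : ℂ).re < ε / 2 by
    simpa using hε))] with L hL hL2
  have iG : Integrable fun ξ => e ((2 * L + 3) * ξ) * G ξ := int_e int_G (by fun_prop)
  have iE : Integrable fun ξ => pw ξ * a0 L ξ ^ 2 := by
    simp_rw [energy]
    exact ((int_cos _).const_mul 2).add (iG.re.const_mul 2)
  have hae : ∀ᵐ ξ : ℝ, ∫ x, e (-(ξ * x)) * ∫ g, K L x g = a0 L ξ :=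
    (Measure.ae_ne volume 0).mono fun ξ h => four_K hL h
  have iφ : Integrable fun x => ∫ g, K L x g := (int_K hL).integral_prod_left
  have ia : Integrable (a0 L) := by
    refine (iE.add integrable_inv_one_add_sq).mono' ?_ (Eventually.of_forall fun ξ => ?_)
    · have : Continuous fun ξ : ℝ => ∫ x, e (-(ξ * x)) * ∫ g, K L x g :=
        continuous_of_dominated (fun ξ => (int_e iφ (by fun_prop)).1)
          (fun ξ => Eventually.of_forall fun x => by rw [norm_mul, norm_e, one_mul]) iφ.norm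
          (Eventually.of_forall fun x => by fun_prop)
      exact (Complex.continuous_re.comp this).aestronglyMeasurable.congr
        (hae.mono fun ξ h => by simp only [Function.comp, h, Complex.ofReal_re])
    · have p0 : 0 < 1 + ξ ^ 2 := by positivity
      have s2 := Real.sq_sqrt p0.le
      have s1 : 1 ≤ √(1 + ξ ^ 2) := Real.one_le_sqrt.2 (by nlinarith [sq_nonneg ξ])
      have h1 : 1 + ξ ^ 2 ≤ pw ξ := by rw [pw, pow_succ _ 2, s2]; nlinarith
      simp only [Pi.add_apply, Real.norm_eq_abs]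
      rw [← sq_abs (a0 L ξ)]
      set t := |a0 L ξ|
      have t0 : 0 ≤ t := abs_nonneg _
      have h2 : t ≤ (1 + ξ ^ 2) * t ^ 2 + (1 + ξ ^ 2)⁻¹ := by
        refine le_of_mul_le_mul_left ?_ p0
        rw [mul_add, mul_inv_cancel₀ p0.ne']
        nlinarith [sq_nonneg ((1 + ξ ^ 2) * t - 1)]
      nlinarith [sq_nonneg t]
  refine ⟨a0 L, ia, iE, fun s hs => ?_, ?_⟩
  · have key : ∀ s, |s| < L → ∫ g, K L s g = 1 := fun s hs => by
      rw [← ρ_one]
      refine integral_congr_ae (Eventually.of_forall fun g => ?_)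
      have := abs_lt.1 hs
      exact indicator_of_mem (by constructor <;> nlinarith [sq_nonneg g]) _
    refine (inv1 _ (fun ξ => (a0 L ξ : ℂ)) iφ ia.ofReal hae s ?_).trans (by rw [key s hs, mul_one])
    refine (continuousAt_const (y := (1 : ℂ))).congr ?_
    filter_upwards [(isOpen_lt continuous_abs continuous_const).mem_nhds hs] with x hx
    exact (key x hx).symm
  · simp_rw [energy]
    have iG' : Integrable fun ξ => (e ((2 * L + 3) * ξ) * G ξ).re := iG.re
    rw [integral_add ((int_cos _).const_mul 2) (iG'.const_mul 2), integral_const_mul,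
      integral_const_mul]
    have := integral_re iG
    simp only [RCLike.re_to_complex] at this
    simp only [Function.comp] at hL2
    rw [this]
    nlinarith [J_le (a := 2 * L + 3) (by linarith)]

end Pool.Agent.Lib.helper15.MagFour
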