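import Mathlib
import Pool.Agent.Lib.helper15.MagTrial
import Pool.Agent.Lib.helper15.Cut

set_option autoImplicit false

open MeasureTheory Filter Topology Set
open scoped Real

namespace Pool.Agent.Lib.helper15.MagFour

abbrev E := EuclideanSpace ℝ (Fin 2)

section
variable {ι : Type} [Fintype ι]

noncomputable def Q (x : ι → E) (v : ι → ℝ) : ℝ :=
  ∑ i, ∑ j, v i * v j * Real.exp (-dist (x i) (x j))

noncomputable def W (x : ι → E) (v : ι → ℝ) (p : ℝ × ℝ) : ℂ :=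
  ∑ i, v i * e (x i 0 * p.1 + x i 1 * p.2)

lemma dist_E (x y : E) : dist x y = √((x 0 - y 0) ^ 2 + (x 1 - y 1) ^ 2) := by
  rw [EuclideanSpace.dist_eq, Fin.sum_univ_two, Real.dist_eq, Real.dist_eq, sq_abs, sq_abs]

lemma cont_W (x : ι → E) (v : ι → ℝ) : Continuous (W x v) := by unfold W; fun_prop

lemma W_le (x : ι → E) (v : ι → ℝ) (p : ℝ × ℝ) : ‖W x v p‖ ≤ ∑ i, |v i| :=
  (norm_sum_le _ _).trans (by simp)

lemma int_W (x : ι → E) (v : ι → ℝ) : Integrable fun p => Φ p * ‖W x v p‖ ^ 2 := by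
  refine (int_Φ.mul_const ((∑ i, |v i|) ^ 2)).mono'
    (cont_Φ.mul ((cont_W x v).norm.pow 2)).aestronglyMeasurable (Eventually.of_forall fun p => ?_)
  have := Φ_pos p
  rw [Real.norm_of_nonneg (by positivity)]
  gcongr
  exact W_le x v p

lemma Q_eq (x : ι → E) (v : ι → ℝ) : Q x v = ∫ p, Φ p * ‖W x v p‖ ^ 2 := by
  have h : ∀ p, ((Φ p * ‖W x v p‖ ^ 2 : ℝ) : ℂ) = ∑ i, ∑ j, (v i * v j : ℂ) *
      (e ((x i 0 - x j 0) * p.1 + (x i 1 - x j 1) * p.2) * Φ p) := by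
    intro p
    rw [Complex.ofReal_mul, Complex.ofReal_pow, ← Complex.mul_conj', W, map_sum,
      Finset.sum_mul_sum, Finset.mul_sum]
    refine Finset.sum_congr rfl fun i _ => ?_
    rw [Finset.mul_sum]
    refine Finset.sum_congr rfl fun j _ => ?_
    rw [map_mul, conj_e, Complex.conj_ofReal, show (x i 0 - x j 0) * p.1 + (x i 1 - x j 1) * p.2 =
      (x i 0 * p.1 + x i 1 * p.2) + -(x j 0 * p.1 + x j 1 * p.2) by ring,
      e_add (x i 0 * p.1 + x i 1 * p.2)]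
    ring
  have hi : ∀ i j, Integrable fun p : ℝ × ℝ => (v i * v j : ℂ) *
      (e ((x i 0 - x j 0) * p.1 + (x i 1 - x j 1) * p.2) * Φ p) := fun i j =>
    (int_e int_Φ.ofReal (by fun_prop)).const_mul _
  apply Complex.ofReal_injective
  rw [← integral_complex_ofReal]
  simp_rw [h]
  rw [integral_finsetSum _ fun i _ => integrable_finsetSum _ fun j _ => hi i j, Q]
  push_cast
  refine Finset.sum_congr rfl fun i _ => ?_
  rw [integral_finsetSum _ fun j _ => hi i j]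
  refine Finset.sum_congr rfl fun j _ => ?_
  rw [integral_const_mul, plane, dist_E]
  push_cast; rfl

lemma Q_nonneg (x : ι → E) (v : ι → ℝ) : 0 ≤ Q x v := by
  rw [Q_eq]; exact integral_nonneg fun p => mul_nonneg (Φ_pos p).le (sq_nonneg _)

noncomputable def ch (y : E) : Multiplicative (ℝ × ℝ) →* ℂ where
  toFun p := e (y 0 * p.toAdd.1 + y 1 * p.toAdd.2)
  map_one' := by simp
  map_mul' p q := by
    rw [← e_add]; congr 1; simp; ring

lemma e_inj {a b : ℝ} (h : ∀ t, e (a * t) = e (b * t)) : a = b := by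
  by_contra hn
  have h0 : a - b ≠ 0 := sub_ne_zero.2 hn
  have h1 := h (π / (a - b))
  have h2 : a * (π / (a - b)) = π + b * (π / (a - b)) := by field_simp; ring
  rw [h2, e_add] at h1
  have h3 : e π = -1 := by simp [e]
  have h4 : e (b * (π / (a - b))) ≠ 0 := Complex.exp_ne_zero _
  rw [h3] at h1
  exact h4 (by linear_combination -h1 / 2)

lemma ch_inj : Function.Injective ch := by
  intro y z h
  have h1 : ∀ p : ℝ × ℝ, e (y 0 * p.1 + y 1 * p.2) = e (z 0 * p.1 + z 1 * p.2) := fun p =>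
    DFunLike.congr_fun h (Multiplicative.ofAdd p)
  ext i
  fin_cases i
  · exact e_inj fun t => by simpa using h1 (t, 0)
  · exact e_inj fun t => by simpa using h1 (0, t)

lemma Q_pos (x : ι → E) (hx : Function.Injective x) (v : ι → ℝ) (hv : v ≠ 0) : 0 < Q x v := by
  refine (Q_nonneg x v).lt_of_ne fun h => hv ?_
  rw [Q_eq, eq_comm, integral_eq_zero_iff_of_nonneg
    (fun p => mul_nonneg (Φ_pos p).le (sq_nonneg _)) (int_W x v),
    Continuous.ae_eq_iff_eq volume (f := fun p => Φ p * ‖W x v p‖ ^ 2)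
      (cont_Φ.mul ((cont_W x v).norm.pow 2)) continuous_zero] at h
  have li := (linearIndependent_monoidHom (Multiplicative (ℝ × ℝ)) ℂ).comp (ch ∘ x)
    (ch_inj.comp hx)
  have := Fintype.linearIndependent_iff.1 li (fun i => v i) (by
    funext p
    have := congrFun h p.toAdd
    simp only [Pi.zero_apply, mul_eq_zero, (Φ_pos _).ne', false_or, pow_eq_zero_iff two_ne_zero,
      norm_eq_zero] at this
    simpa [W, ch] using this)
  funext i
  simpa using this i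

lemma upper {L : ℝ} {a : ℝ → ℝ} (ia : Integrable a) (iE : Integrable fun ξ => pw ξ * a ξ ^ 2)
    (h1 : ∀ s, |s| < L → ∫ ξ, e (s * ξ) * a ξ = 2 * π) (x : ι → E) (v : ι → ℝ)
    (hx : ∀ i k, |x i k| < L) :
    2 * ∑ i, v i - Q x v ≤ (∫ ξ, pw ξ * a ξ ^ 2) ^ 2 / (2 * π) ^ 3 := by
  have p0 : 0 < 2 * π := by positivity
  have ie : ∀ s : ℝ, Integrable fun ξ => e (s * ξ) * a ξ := fun s => int_e ia.ofReal (by fun_prop)
  have h2 : ∫ p : ℝ × ℝ, (a p.1 * a p.2 : ℝ) * W x v p = (((2 * π) ^ 2 * ∑ i, v i : ℝ) : ℂ) := by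
    have : ∀ p : ℝ × ℝ, (a p.1 * a p.2 : ℝ) * W x v p =
        ∑ i, v i * ((e (x i 0 * p.1) * a p.1) * (e (x i 1 * p.2) * a p.2)) := by
      intro p
      rw [W, Finset.mul_sum]
      refine Finset.sum_congr rfl fun i _ => ?_
      rw [e_add]; push_cast; ring
    simp_rw [this]
    rw [Measure.volume_eq_prod, integral_finsetSum _ fun i _ =>
      ((ie _).mul_prod (ie _)).const_mul _]
    push_cast
    rw [Finset.mul_sum]
    refine Finset.sum_congr rfl fun i _ => ?_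
    rw [integral_const_mul, integral_prod_mul (fun ξ => e (x i 0 * ξ) * a ξ)
      (fun ξ => e (x i 1 * ξ) * a ξ), h1 _ (hx i 0), h1 _ (hx i 1)]
    ring
  have iP : Integrable (fun p : ℝ × ℝ => pw p.1 * a p.1 ^ 2 * (pw p.2 * a p.2 ^ 2)) := iE.mul_prod iE
  have h3 := norm_integral_le_of_norm_le (f := fun p : ℝ × ℝ => (a p.1 * a p.2 : ℝ) * W x v p)
    ((iP.const_mul (2 * (2 * π))⁻¹).add ((int_W x v).const_mul ((2 * π) ^ 2 / 2)))
    (Eventually.of_forall fun p => ?_)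
  · simp only [Pi.add_apply] at h3
    rw [h2, integral_add (iP.const_mul _) ((int_W x v).const_mul _), integral_const_mul,
      integral_const_mul, ← Q_eq, Measure.volume_eq_prod,
      integral_prod_mul (fun ξ => pw ξ * a ξ ^ 2) (fun ξ => pw ξ * a ξ ^ 2), Complex.norm_real,
      ← sq] at h3
    have h4 := (le_abs_self _).trans h3
    rw [le_div_iff₀ (by positivity)]
    have h5 := mul_le_mul_of_nonneg_left h4 (by positivity : 0 ≤ 2 * (2 * π))
    rw [mul_add, ← mul_assoc (2 * (2 * π)) _⁻¹, mul_inv_cancel₀ (by positivity)] at h5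
    nlinarith
  · simp only [Pi.add_apply, norm_mul, Complex.norm_real, Real.norm_eq_abs, ← abs_mul]
    have h4 : √(1 + p.1 ^ 2 + p.2 ^ 2) ^ 3 ≤ pw p.1 * pw p.2 := by
      rw [pw, pw, ← mul_pow, ← Real.sqrt_mul (by positivity)]
      gcongr
      nlinarith [mul_nonneg (sq_nonneg p.1) (sq_nonneg p.2)]
    rw [Φ, show pw p.1 * a p.1 ^ 2 * (pw p.2 * a p.2 ^ 2) = pw p.1 * pw p.2 * |a p.1 * a p.2| ^ 2 by
      rw [sq_abs]; ring]
    have s0 : 0 < √(1 + p.1 ^ 2 + p.2 ^ 2) ^ 3 := by positivity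
    generalize √(1 + p.1 ^ 2 + p.2 ^ 2) ^ 3 = s at *
    generalize pw p.1 * pw p.2 = P at *
    generalize |a p.1 * a p.2| = A
    generalize ‖W x v p‖ = w
    generalize 2 * π = τ at *
    have : A * w ≤ (2 * τ)⁻¹ * (s * A ^ 2) + τ ^ 2 / 2 * ((τ * s)⁻¹ * w ^ 2) := by
      have : (2 * τ)⁻¹ * (s * A ^ 2) + τ ^ 2 / 2 * ((τ * s)⁻¹ * w ^ 2) - A * w =
          (s * A - τ * w) ^ 2 / (2 * τ * s) := by field_simp; ring
      have h : 0 ≤ (s * A - τ * w) ^ 2 / (2 * τ * s) := by positivity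
      linarith
    refine this.trans ?_
    gcongr

end

def Fam (S : Set E) (C : ℝ) : Prop := ∀ (ι : Type) [Fintype ι] (x : ι → E) (v : ι → ℝ),
  (∀ i, x i ∈ S) → 2 * ∑ i, v i - Q x v ≤ C

theorem upper_ev : ∀ᶠ L : ℝ in atTop, Fam {y | ∀ k, |y k| < L} ((2 * L + 3.05) ^ 2 / (2 * π)) := by
  have p0 : 0 < 2 * π := by positivity
  filter_upwards [trial (ε := 2 * π * 0.05) (by positivity)] with L ⟨a, ia, iE, h1, h2⟩ ι _ x v hx
  refine (upper ia iE h1 x v hx).trans ?_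
  have h0 : 0 ≤ ∫ ξ, pw ξ * a ξ ^ 2 :=
    integral_nonneg fun ξ => mul_nonneg (by unfold pw; positivity) (sq_nonneg _)
  calc _ ≤ (2 * π * (2 * L + 3.05)) ^ 2 / (2 * π) ^ 3 := by gcongr; linarith
    _ = _ := by field_simp

section fin
variable (F : Finset E) [DecidableEq F]

noncomputable def Z : Matrix F F ℝ := Matrix.of fun x y : F => Real.exp (-dist x.1 y.1)

omit [DecidableEq F] in
lemma Q_Z (v : F → ℝ) : v ⬝ᵥ (Z F).mulVec v = Q (fun y : F => y.1) v := Cut.quad_eq _ _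

lemma Z_unit : IsUnit (Z F).det := by
  refine (Matrix.isUnit_iff_isUnit_det _).1 (Matrix.PosDef.isUnit
    (Matrix.PosDef.of_dotProduct_mulVec_pos ?_ fun w hw => ?_))
  · ext a b; simp [Z, dist_comm]
  · have := Q_pos _ Subtype.val_injective w hw
    rw [← Q_Z] at this
    simpa using this

lemma weight : ∃ w : F → ℝ, (Z F).mulVec w = (fun _ => 1) ∧ ∑ a, ∑ b, (Z F)⁻¹ a b = ∑ a, w a := by
  have hw : (Z F).mulVec ((Z F)⁻¹.mulVec fun _ => 1) = fun _ => 1 := by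
    rw [Matrix.mulVec_mulVec, Matrix.mul_nonsing_inv _ (Z_unit F), Matrix.one_mulVec]
  exact ⟨_, hw, Cut.mag_weight _ (Z_unit F) _ hw⟩

lemma magF_le {S : Set E} {C : ℝ} (h : Fam S C) (hF : ↑F ⊆ S) : ∑ a, ∑ b, (Z F)⁻¹ a b ≤ C := by
  obtain ⟨w, h1, h2⟩ := weight F
  have := h F (fun y => y.1) w fun y => hF y.2
  rw [← Q_Z, h1] at this
  simp only [dotProduct, mul_one] at this
  linarith

lemma le_magF : Fam F (∑ a, ∑ b, (Z F)⁻¹ a b) := by
  classical
  intro ι _ x v hx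
  obtain ⟨w, h1, h2⟩ := weight F
  have h3 : ∀ i, ∑ b : F, w b * Real.exp (-dist (x i) b) = 1 := fun i => by
    have := congrFun h1 ⟨x i, hx i⟩
    simpa [Matrix.mulVec, dotProduct, Z, mul_comm] using this
  have h4 := Q_Z F w
  rw [h1] at h4
  simp only [dotProduct, mul_one, Q] at h4
  have := Q_nonneg (Sum.elim x fun y : F => y.1) (Sum.elim v fun y => -w y)
  simp only [Q, Fintype.sum_sum_type, Sum.elim_inl, Sum.elim_inr, Finset.sum_add_distrib,
    neg_mul_neg, ← h4] at this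
  have h5 : ∑ i, ∑ b : F, v i * -w b * Real.exp (-dist (x i) b) = -∑ i, v i := by
    rw [← Finset.sum_neg_distrib]
    refine Finset.sum_congr rfl fun i _ => ?_
    rw [show -v i = -v i * 1 by ring, ← h3 i, Finset.mul_sum]
    exact Finset.sum_congr rfl fun b _ => by ring
  have h6 : ∑ b : F, ∑ i, -w b * v i * Real.exp (-dist (b : E) (x i)) = -∑ i, v i := by
    rw [← h5, Finset.sum_comm]
    exact Finset.sum_congr rfl fun i _ => Finset.sum_congr rfl fun b _ => by rw [dist_comm]; ring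
  rw [h5, h6] at this
  rw [h2, Q]; linarith

end fin

lemma greedy {S : Set E} {J : ℝ} (hJ : 0 ≤ J) (h : ∀ (n : ℕ) (x : Fin n → E), ∃ y ∈ S,
    ∑ i, Real.exp (-dist (x i) y) ≤ n * J) (n : ℕ) : ∃ x : Fin n → E, (∀ i, x i ∈ S) ∧
      ∑ i, ∑ j, Real.exp (-dist (x i) (x j)) ≤ n + n ^ 2 * J := by
  induction n with
  | zero => exact ⟨Fin.elim0, fun i => i.elim0, by simp⟩
  | succ n ih =>
    obtain ⟨x, hx, h1⟩ := ih
    obtain ⟨y, hy, h2⟩ := h n x
    refine ⟨Fin.cons y x, fun i => Fin.cases hy hx i, ?_⟩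
    simp only [Fin.sum_univ_succ, Fin.cons_zero, Fin.cons_succ, dist_self, neg_zero, Real.exp_zero,
      Finset.sum_add_distrib, dist_comm y]
    push_cast
    nlinarith

lemma lower {S : Set E} {J C : ℝ} (hJ : 0 < J) (h : ∀ (n : ℕ) (x : Fin n → E), ∃ y ∈ S,
    ∑ i, Real.exp (-dist (x i) y) ≤ n * J) (hC : Fam S C) : J⁻¹ ≤ C := by
  refine le_of_forall_pos_le_add fun ε hε => ?_
  obtain ⟨n, hn⟩ := exists_nat_gt (J⁻¹ ^ 2 / ε)
  have n0 : (0 : ℝ) < n := lt_trans (by positivity) hn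
  obtain ⟨x, hx, h1⟩ := greedy hJ.le h n
  have h2 := hC _ x (fun _ => (n * J)⁻¹) hx
  simp only [Q, ← Finset.mul_sum, Finset.sum_const, Finset.card_univ, Fintype.card_fin,
    nsmul_eq_mul] at h2
  have h3 := mul_le_mul_of_nonneg_left h1 (by positivity : 0 ≤ (n * J)⁻¹ * (n * J)⁻¹)
  have e1 : (n * J)⁻¹ * (n * J)⁻¹ * (n + n ^ 2 * J) = J⁻¹ ^ 2 / n + J⁻¹ := by field_simp
  have e2 : n * (n * J)⁻¹ = J⁻¹ := by field_simp
  have e3 : J⁻¹ ^ 2 / n ≤ ε := by
    rw [div_le_iff₀ n0]; rw [div_lt_iff₀ hε] at hn; linarith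
  linarith

lemma avg {Ω : Type} [MeasurableSpace Ω] (μ : Measure Ω) (s : Set Ω) (m I : ℝ) (hm : 0 < m)
    (hs : μ s = ENNReal.ofReal m) (γ : Ω → E) {S : Set E} (hγ : ∀ ω ∈ s, γ ω ∈ S)
    (hI : ∀ x : E, ∃ f : Ω → ℝ, Integrable f μ ∧ ∫ ω, f ω ∂μ = I ∧
      ∀ ω, Real.exp (-dist x (γ ω)) ≤ f ω) (hI0 : 0 < I) {C : ℝ} (hC : Fam S C) : m / I ≤ C := by
  rw [← inv_div]
  refine lower (by positivity) (fun n x => ?_) hC
  choose f h1 h2 h3 using hI
  have hi : Integrable (fun ω => ∑ i, f (x i) ω) μ := integrable_finsetSum _ fun i _ => h1 _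
  obtain ⟨ω, hω, h⟩ := exists_le_setAverage (μ := μ) (s := s) (f := fun ω => ∑ i, f (x i) ω)
    (by simpa [hs] using hm) (by simp [hs]) hi.integrableOn
  refine ⟨γ ω, hγ ω hω, (Finset.sum_le_sum fun i _ => h3 _ _).trans (h.trans ?_)⟩
  rw [setAverage_eq, measureReal_def, hs, ENNReal.toReal_ofReal hm.le, smul_eq_mul]
  have := setIntegral_le_integral (s := s) hi (Eventually.of_forall fun ω =>
    Finset.sum_nonneg fun i _ => (Real.exp_pos _).le.trans (h3 _ _))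
  rw [integral_finsetSum _ fun i _ => h1 _] at this
  simp only [h2, Finset.sum_const, Finset.card_univ, Fintype.card_fin, nsmul_eq_mul] at this
  calc _ ≤ m⁻¹ * (n * I) := by gcongr
    _ = _ := by field_simp

def Box (a b c d : ℝ) : Set E := {y | (a ≤ y 0 ∧ y 0 ≤ b) ∧ c ≤ y 1 ∧ y 1 ≤ d}

lemma int_abs_eq : ∫ x : ℝ, Real.exp (-|x|) = 2 := by
  rw [integral_comp_abs (f := fun x => Real.exp (-x)), integral_exp_neg_Ioi_zero]; simp

lemma seg1 {t C a c : ℝ} (ht : 0 < t) (hC : Fam (Box a a c (c + t)) C) : t / 2 ≤ C := by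
  refine avg volume (Icc c (c + t)) t 2 ht (by simp) (fun s => !₂[a, s]) (S := Box a a c (c + t))
    (fun s hs => ⟨by simp, by simpa using hs⟩) (fun x => ⟨fun s => Real.exp (-|s - x 1|),
      int_abs0.comp_sub_right _, ?_, fun s => ?_⟩) two_pos hC
  · rw [integral_sub_right_eq_self (fun s => Real.exp (-|s|)), int_abs_eq]
  · rw [Real.exp_le_exp, neg_le_neg_iff, abs_sub_comm]
    simpa [Real.dist_eq] using PiLp.dist_apply_le x !₂[a, s] 1

lemma seg0 {t C a c : ℝ} (ht : 0 < t) (hC : Fam (Box c (c + t) a a) C) : t / 2 ≤ C := by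
  refine avg volume (Icc c (c + t)) t 2 ht (by simp) (fun s => !₂[s, a]) (S := Box c (c + t) a a)
    (fun s hs => ⟨by simpa using hs, by simp⟩) (fun x => ⟨fun s => Real.exp (-|s - x 0|),
      int_abs0.comp_sub_right _, ?_, fun s => ?_⟩) two_pos hC
  · rw [integral_sub_right_eq_self (fun s => Real.exp (-|s|)), int_abs_eq]
  · rw [Real.exp_le_exp, neg_le_neg_iff, abs_sub_comm]
    simpa [Real.dist_eq] using PiLp.dist_apply_le x !₂[s, a] 0

lemma sq_low {t C : ℝ} (ht : 0 < t) (hC : Fam (Box 0 t 0 t) C) : t ^ 2 / (2 * π) ≤ C := by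
  have h1 : ∫ z : ℂ, Real.exp (-‖z‖) = 2 * π := by
    have := Complex.integral_exp_neg_rpow (p := 1) le_rfl
    simp only [Real.rpow_one] at this
    rw [this, show (2 : ℝ) / 1 + 1 = (2 : ℕ) + 1 by norm_num, Real.Gamma_nat_eq_factorial]
    simp [mul_comm]
  have h2 : Integrable fun z : ℂ => Real.exp (-‖z‖) :=
    Integrable.of_integral_ne_zero (by rw [h1]; positivity)
  refine avg volume (Icc 0 t ×ℂ Icc 0 t) (t ^ 2) (2 * π) (by positivity) ?_
    (fun z : ℂ => !₂[z.re, z.im]) (S := Box 0 t 0 t) (fun z hz => ⟨by simpa using hz.1, by simpa using hz.2⟩)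
    (fun x => ⟨fun z => Real.exp (-‖z - ⟨x 0, x 1⟩‖), h2.comp_sub_right _, ?_, fun z => ?_⟩)
    (by positivity) hC
  · have := Complex.volume_preserving_equiv_real_prod.measure_preimage
      (s := Icc 0 t ×ˢ Icc 0 t) (measurableSet_Icc.prod measurableSet_Icc).nullMeasurableSet
    refine Eq.trans this ?_
    rw [Measure.volume_eq_prod, Measure.prod_prod, Real.volume_Icc, sub_zero,
      ← ENNReal.ofReal_mul ht.le, sq]
  · rw [integral_sub_right_eq_self (fun z : ℂ => Real.exp (-‖z‖)), h1]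
  · show _ ≤ Real.exp _
    rw [dist_E, norm_sub_rev, Complex.norm_eq_sqrt_sq_add_sq]
    simp

end Pool.Agent.Lib.helper15.MagFour
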