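import Mathlib

namespace Pool.Agent.Lib.helper15.PD

open MonoidAlgebra

variable {G Q : Type} [Group G] [Group Q]

abbrev R (G : Type) : Type := MonoidAlgebra ℤ G

lemma fin_orb {g : G} (hg : ¬ IsOfFinOrder g) (r : R G) (f : ℕ → G) (hf : Function.Injective f)
    (h : ∀ n, r.coeff (f (n + 1)) = r.coeff (f n)) : r.coeff (f 0) = 0 := by
  by_contra h0
  have : ∀ n, r.coeff (f n) = r.coeff (f 0) := fun n => by
    induction n with
    | zero => rfl
    | succ n ih => rw [h, ih]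
  exact Set.infinite_of_injective_forall_mem hf
    (fun n => Finsupp.mem_support_iff.2 ((this n).symm ▸ h0)) r.coeff.support.finite_toSet

lemma reg_left {g : G} (hg : ¬ IsOfFinOrder g) {r : R G} (h : r * (of ℤ G g - 1) = 0) :
    r = 0 := by
  rw [mul_sub, mul_one, sub_eq_zero] at h
  ext x
  have hi : Function.Injective fun n : ℕ => x * g ^ n :=
    (mul_right_injective x).comp (injective_pow_iff_not_isOfFinOrder.2 hg)
  have := fin_orb hg r _ hi fun n => by
    conv_lhs => rw [← h]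
    simp [pow_succ, mul_assoc]
  simpa using this

lemma reg_right {g : G} (hg : ¬ IsOfFinOrder g) {r : R G} (h : (of ℤ G g - 1) * r = 0) :
    r = 0 := by
  rw [sub_mul, one_mul, sub_eq_zero] at h
  ext x
  have hi : Function.Injective fun n : ℕ => g ^ n * x :=
    (mul_left_injective x).comp (injective_pow_iff_not_isOfFinOrder.2 hg)
  have := fin_orb hg r _ hi fun n => by
    conv_lhs => rw [← h]
    simp [pow_succ', mul_assoc]
  simpa using this

lemma ker_set (φ : G →* Q) (J : AddSubgroup (R G))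
    (hJ : ∀ g g', φ g = φ g' → of ℤ G g - of ℤ G g' ∈ J) {r : R G}
    (h : mapDomainRingHom ℤ φ r = 0) : r ∈ J := by
  have key : ∀ r : R G, r - mapDomain (Function.invFun φ) (mapDomain φ r) ∈ J := fun r => by
    induction r using MonoidAlgebra.induction_linear with
    | zero => simp
    | add a b ha hb =>
      rw [mapDomain_add, mapDomain_add]
      convert J.add_mem ha hb using 1
      abel
    | single g n =>
      have := J.zsmul_mem (hJ g (Function.invFun φ (φ g))
        (Function.invFun_eq ⟨g, rfl⟩).symm) n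
      simpa [smul_sub] using this
  have h' : mapDomain φ r = 0 := h
  simpa [h'] using key r

lemma kerL (φ : G →* Q) (s : Set G) (hs : φ.ker ≤ Subgroup.closure s) (J : AddSubgroup (R G))
    (hJ : ∀ u r, r ∈ J → u * r ∈ J) (hs2 : ∀ g ∈ s, of ℤ G g - 1 ∈ J) {r : R G}
    (h : mapDomainRingHom ℤ φ r = 0) : r ∈ J := by
  have key : ∀ k ∈ Subgroup.closure s, of ℤ G k - 1 ∈ J := fun k hk => by
    induction hk using Subgroup.closure_induction with
    | mem x hx => exact hs2 x hx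
    | one => rw [map_one, sub_self]; exact J.zero_mem
    | mul x y _ _ hx hy =>
      convert J.add_mem (hJ (of ℤ G x) _ hy) hx using 1
      rw [map_mul]; noncomm_ring
    | inv x _ hx =>
      convert J.neg_mem (hJ (of ℤ G x⁻¹) _ hx) using 1
      rw [mul_sub, ← map_mul, inv_mul_cancel, map_one]; noncomm_ring
  refine ker_set φ J (fun g g' e => ?_) h
  convert hJ (of ℤ G g') _ (key (g'⁻¹ * g) (hs (by simp [e]))) using 1
  rw [mul_sub, ← map_mul, mul_inv_cancel_left, mul_one]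

lemma kerR (φ : G →* Q) (s : Set G) (hs : φ.ker ≤ Subgroup.closure s) (J : AddSubgroup (R G))
    (hJ : ∀ u r, r ∈ J → r * u ∈ J) (hs2 : ∀ g ∈ s, of ℤ G g - 1 ∈ J) {r : R G}
    (h : mapDomainRingHom ℤ φ r = 0) : r ∈ J := by
  have key : ∀ k ∈ Subgroup.closure s, of ℤ G k - 1 ∈ J := fun k hk => by
    induction hk using Subgroup.closure_induction with
    | mem x hx => exact hs2 x hx
    | one => rw [map_one, sub_self]; exact J.zero_mem
    | mul x y _ _ hx hy =>
      convert J.add_mem (hJ (of ℤ G y) _ hx) hy using 1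
      rw [map_mul]; noncomm_ring
    | inv x _ hx =>
      convert J.neg_mem (hJ (of ℤ G x⁻¹) _ hx) using 1
      rw [sub_mul, ← map_mul, mul_inv_cancel, map_one]; noncomm_ring
  refine ker_set φ J (fun g g' e => ?_) h
  convert hJ (of ℤ G g') _ (key (g * g'⁻¹) (hs (by simp [e]))) using 1
  rw [sub_mul, ← map_mul, inv_mul_cancel_right, one_mul]

def LJ {A : Type} [Ring A] (a b c : A) : AddSubgroup A where
  carrier := {r | ∃ u v w, r = u * a + v * b + w * c}
  zero_mem' := ⟨0, 0, 0, by simp⟩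
  add_mem' := by
    rintro _ _ ⟨u, v, w, rfl⟩ ⟨u', v', w', rfl⟩
    exact ⟨u + u', v + v', w + w', by noncomm_ring⟩
  neg_mem' := by
    rintro _ ⟨u, v, w, rfl⟩
    exact ⟨-u, -v, -w, by noncomm_ring⟩

def RJ {A : Type} [Ring A] (a b c : A) : AddSubgroup A where
  carrier := {r | ∃ u v w, r = a * u + b * v + c * w}
  zero_mem' := ⟨0, 0, 0, by simp⟩
  add_mem' := by
    rintro _ _ ⟨u, v, w, rfl⟩ ⟨u', v', w', rfl⟩
    exact ⟨u + u', v + v', w + w', by noncomm_ring⟩
  neg_mem' := by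
    rintro _ ⟨u, v, w, rfl⟩
    exact ⟨-u, -v, -w, by noncomm_ring⟩

lemma kerL3 (φ : G →* Q) (x y z : G) (hs : φ.ker ≤ Subgroup.closure {x, y, z}) {r : R G}
    (h : mapDomainRingHom ℤ φ r = 0) :
    ∃ u v w, r = u * (of ℤ G x - 1) + v * (of ℤ G y - 1) + w * (of ℤ G z - 1) := by
  refine kerL φ _ hs (LJ _ _ _) ?_ ?_ h
  · rintro t _ ⟨u, v, w, rfl⟩
    exact ⟨t * u, t * v, t * w, by noncomm_ring⟩
  · rintro g (rfl | rfl | rfl)
    exacts [⟨1, 0, 0, by simp⟩, ⟨0, 1, 0, by simp⟩, ⟨0, 0, 1, by simp⟩]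

lemma kerR3 (φ : G →* Q) (x y z : G) (hs : φ.ker ≤ Subgroup.closure {x, y, z}) {r : R G}
    (h : mapDomainRingHom ℤ φ r = 0) :
    ∃ u v w, r = (of ℤ G x - 1) * u + (of ℤ G y - 1) * v + (of ℤ G z - 1) * w := by
  refine kerR φ _ hs (RJ _ _ _) ?_ ?_ h
  · rintro t _ ⟨u, v, w, rfl⟩
    exact ⟨u * t, v * t, w * t, by noncomm_ring⟩
  · rintro g (rfl | rfl | rfl)
    exacts [⟨1, 0, 0, by simp⟩, ⟨0, 1, 0, by simp⟩, ⟨0, 0, 1, by simp⟩]

lemma map_of (φ : G →* Q) (g : G) : mapDomainRingHom ℤ φ (of ℤ G g) = of ℤ Q (φ g) := by simp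

lemma regL (φ : G →* Q) (x y z : G) (hs : φ.ker ≤ Subgroup.closure {x, y, 1}) (hx : φ x = 1)
    (hy : φ y = 1) (hz : ¬ IsOfFinOrder (φ z)) {r u v : R G}
    (h : r * (of ℤ G z - 1) = u * (of ℤ G x - 1) + v * (of ℤ G y - 1)) :
    ∃ u v, r = u * (of ℤ G x - 1) + v * (of ℤ G y - 1) := by
  have h1 := congrArg (mapDomainRingHom ℤ φ) h
  simp only [map_mul, map_add, map_sub, map_one, map_of, hx, hy, sub_self, mul_zero,
    add_zero] at h1
  obtain ⟨u, v, w, e⟩ := kerL3 φ x y 1 hs (reg_left hz h1)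
  exact ⟨u, v, by rw [e, map_one, sub_self, mul_zero, add_zero]⟩

lemma regR (φ : G →* Q) (x y z : G) (hs : φ.ker ≤ Subgroup.closure {x, y, 1}) (hx : φ x = 1)
    (hy : φ y = 1) (hz : ¬ IsOfFinOrder (φ z)) {r u v : R G}
    (h : (of ℤ G z - 1) * r = (of ℤ G x - 1) * u + (of ℤ G y - 1) * v) :
    ∃ u v, r = (of ℤ G x - 1) * u + (of ℤ G y - 1) * v := by
  have h1 := congrArg (mapDomainRingHom ℤ φ) h
  simp only [map_mul, map_add, map_sub, map_one, map_of, hx, hy, sub_self, zero_mul,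
    add_zero] at h1
  obtain ⟨u, v, w, e⟩ := kerR3 φ x y 1 hs (reg_right hz h1)
  exact ⟨u, v, by rw [e, map_one, sub_self, zero_mul, add_zero]⟩

/-- augmentation -/
noncomputable def aug (G : Type) [Group G] : R G →ₐ[ℤ] ℤ := MonoidAlgebra.lift ℤ ℤ G 1

@[simp] lemma aug_of (g : G) : aug G (of ℤ G g) = 1 := by simp [aug]

lemma aug_zero {r : R G} (h : aug G r = 0) :
    mapDomainRingHom ℤ (1 : G →* Unit) r = 0 := by
  have : ∀ r : R G, mapDomainRingHom ℤ (1 : G →* Unit) r = aug G r • 1 := fun r => by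
    induction r using MonoidAlgebra.induction_linear with
    | zero => simp
    | add a b ha hb => rw [map_add, map_add, ha, hb, add_smul]
    | single g n => simp [aug, MonoidAlgebra.one_def]
  rw [this, h, zero_smul]

end Pool.Agent.Lib.helper15.PD
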