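import Mathlib
import Pool.Agent.Lib.helper15.PD1

namespace Pool.Agent.Lib.helper15.PD

open MonoidAlgebra CategoryTheory Matrix

variable {k G : Type} [CommRing k] [Group G]

noncomputable def rho (k G : Type) [CommRing k] [Group G] (m : ℕ) : Representation k G (Fin m → MonoidAlgebra k G) where
  toFun g := DistribSMul.toLinearMap k _ (of k G g)
  map_one' := LinearMap.ext fun x => by simp only [map_one]; exact one_smul _ x
  map_mul' g h := LinearMap.ext fun x => by simp only [map_mul]; exact mul_smul _ _ x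

noncomputable abbrev P (k G : Type) [CommRing k] [Group G] (m : ℕ) : Rep k G := Rep.of (rho k G m)

lemma map_rsmul {m : ℕ} {B : Rep k G} (f : P k G m ⟶ B) (r : MonoidAlgebra k G) (x : Fin m → MonoidAlgebra k G) :
    f.hom (r • x) = B.ρ.asAlgebraHom r (f.hom x) := by
  induction r using MonoidAlgebra.induction_linear with
  | zero => simp
  | add a b ha hb => rw [add_smul, map_add, ha, hb, map_add, LinearMap.add_apply]
  | single g n =>
    have e : (single g n : MonoidAlgebra k G) • x = n • (rho k G m g x) := by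
      change _ = n • (of k G g • x)
      rw [← smul_assoc]; simp
    rw [e, map_smul, Representation.asAlgebraHom_single, LinearMap.smul_apply]
    congr 1
    exact Rep.hom_comm_apply f g x

lemma hom_eq {m : ℕ} {B : Rep k G} (f : P k G m ⟶ B) (x : Fin m → MonoidAlgebra k G) :
    f.hom x = ∑ i, B.ρ.asAlgebraHom (x i) (f.hom (Pi.single i 1)) := by
  have : x = ∑ i, x i • (Pi.single i 1 : Fin m → MonoidAlgebra k G) := by
    ext1 j; simp [Finset.sum_apply, Pi.single_apply]
  conv_lhs => rw [this, map_sum]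
  exact Finset.sum_congr rfl fun i _ => map_rsmul f _ _

noncomputable def mkHom {m : ℕ} (B : Rep k G) (b : Fin m → B) : P k G m ⟶ B :=
  Rep.ofHom (LinearMap.intertwiningMap_of_isIntertwiningMap (rho k G m) B.ρ
    { toFun := fun x => ∑ i, B.ρ.asAlgebraHom (x i) (b i)
      map_add' := fun x y => by simp [Finset.sum_add_distrib]
      map_smul' := fun n x => by simp [Finset.smul_sum] } fun g x => by
    change ∑ i, B.ρ.asAlgebraHom (MonoidAlgebra.of k G g * x i) (b i) =
      B.ρ g (∑ i, B.ρ.asAlgebraHom (x i) (b i))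
    simp only [map_mul, map_sum, Representation.asAlgebraHom_of, Module.End.mul_apply])

lemma mkHom_apply {m : ℕ} (B : Rep k G) (b : Fin m → B) (x : Fin m → MonoidAlgebra k G) :
    (mkHom B b).hom x = ∑ i, B.ρ.asAlgebraHom (x i) (b i) := rfl

lemma mkHom_single {m : ℕ} (B : Rep k G) (b : Fin m → B) (i : Fin m) :
    (mkHom B b).hom (Pi.single i 1) = b i := by
  rw [mkHom_apply, Finset.sum_eq_single i] <;> simp +contextual [Pi.single_apply]

lemma hom_ext' {m : ℕ} {B : Rep k G} {f g : P k G m ⟶ B}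
    (h : ∀ i, f.hom (Pi.single i 1) = g.hom (Pi.single i 1)) : f = g := by
  refine Rep.hom_ext (DFunLike.ext _ _ fun x => ?_)
  rw [hom_eq f, hom_eq g]
  simp only [h]

instance proj (m : ℕ) : Projective (P k G m) where
  factors {B C} f e he := by
    choose b hb using fun i => (Rep.epi_iff_surjective e).1 he (f.hom (Pi.single i 1))
    refine ⟨mkHom B b, hom_ext' fun i => ?_⟩
    change e.hom ((mkHom B b).hom _) = _
    rw [mkHom_single, hb]

noncomputable def dm {m n : ℕ} (M : Matrix (Fin m) (Fin n) (MonoidAlgebra k G)) : P k G m ⟶ P k G n :=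
  Rep.ofHom (LinearMap.intertwiningMap_of_isIntertwiningMap (rho k G m) (rho k G n)
    ((vecMulLinear M).restrictScalars k) fun g x => (vecMulLinear M).map_smul (of k G g) x)

lemma dm_apply {m n : ℕ} (M : Matrix (Fin m) (Fin n) (MonoidAlgebra k G)) (x : Fin m → MonoidAlgebra k G) :
    (dm M).hom x = x ᵥ* M := rfl

lemma dm_comp {m n : ℕ} (M : Matrix (Fin m) (Fin n) (MonoidAlgebra k G)) {B : Rep k G} (f : P k G n ⟶ B)
    (i : Fin m) : (dm M ≫ f).hom (Pi.single i 1) =
      ∑ j, B.ρ.asAlgebraHom (M i j) (f.hom (Pi.single j 1)) := by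
  change f.hom ((dm M).hom _) = _
  rw [dm_apply, hom_eq]
  simp

noncomputable def ag (k G : Type) [CommRing k] [Group G] : MonoidAlgebra k G →ₐ[k] k :=
  MonoidAlgebra.lift k k G 1

structure Data (k G : Type) [CommRing k] [Group G] where
  m : ℕ → ℕ
  M : ∀ n, Matrix (Fin (m (n + 1))) (Fin (m n)) (MonoidAlgebra k G)
  sq : ∀ n x, x ᵥ* M (n + 1) ᵥ* M n = 0
  ex : ∀ n x, x ᵥ* M n = 0 → ∃ y, y ᵥ* M (n + 1) = x
  ex0 : ∀ x, (∃ y, y ᵥ* M 0 = x) ↔ ∑ i, ag k G (x i) = 0
  surj : ∀ c : k, ∃ x : Fin (m 0) → MonoidAlgebra k G, ∑ i, ag k G (x i) = c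

namespace Data
variable (D : Data k G)

noncomputable def K : ChainComplex (Rep k G) ℕ :=
  ChainComplex.of (fun n => P k G (D.m n)) (fun n => dm (D.M n)) fun n =>
    Rep.hom_ext (DFunLike.ext _ _ fun x => D.sq n x)

lemma K_d (n : ℕ) : D.K.d (n + 1) n = dm (D.M n) := by
  simp [K, ChainComplex.of]

noncomputable def eps : P k G (D.m 0) ⟶ Rep.trivial k G k := mkHom _ fun _ => (1 : k)

lemma eps_apply (x : Fin (D.m 0) → MonoidAlgebra k G) : D.eps.hom x = ∑ i, ag k G (x i) := by
  rw [eps, mkHom_apply]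
  refine Finset.sum_congr rfl fun i _ => ?_
  induction x i using MonoidAlgebra.induction_linear with
  | zero => simp
  | add a b ha hb => rw [map_add, LinearMap.add_apply, ha, hb, map_add]
  | single g n => simp [ag]

lemma eps_d : D.K.d 1 0 ≫ D.eps = 0 := by
  rw [K_d]
  exact Rep.hom_ext (DFunLike.ext _ _ fun x => (D.eps_apply _).trans ((D.ex0 _).1 ⟨x, rfl⟩))

noncomputable def res : ProjectiveResolution (Rep.trivial k G k) where
  complex := D.K
  projective n := proj (D.m n)
  π := (D.K.toSingle₀Equiv _).symm ⟨D.eps, D.eps_d⟩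
  quasiIso := ⟨fun n => by
    cases n with
    | zero =>
      rw [ChainComplex.quasiIsoAt₀_iff, ShortComplex.quasiIso_iff_of_zeros' _ rfl rfl rfl]
      constructor
      · apply (forget₂ _ (ModuleCat k)).reflects_exact_of_faithful
        rw [ShortComplex.moduleCat_exact_iff]
        intro x hx
        have h1 : (((D.K.toSingle₀Equiv _).symm ⟨D.eps, D.eps_d⟩).f 0).hom x = 0 := hx
        rw [ChainComplex.toSingle₀Equiv_symm_apply_f_zero] at h1
        obtain ⟨y, hy⟩ := (D.ex0 x).2 ((D.eps_apply x).symm.trans h1)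
        refine ⟨y, ?_⟩
        change (D.K.d 1 0).hom y = x
        rw [K_d]; exact hy
      · rw [Rep.epi_iff_surjective]
        intro c
        obtain ⟨x, hx⟩ := D.surj c
        refine ⟨x, ?_⟩
        change (((D.K.toSingle₀Equiv _).symm ⟨D.eps, D.eps_d⟩).f 0).hom x = c
        rw [ChainComplex.toSingle₀Equiv_symm_apply_f_zero]
        exact (D.eps_apply x).trans hx
    | succ n =>
      rw [quasiIsoAt_iff_exactAt' (hL := ChainComplex.exactAt_succ_single_obj ..),
          HomologicalComplex.exactAt_iff' _ (n + 2) (n + 1) n (by simp) (by simp)]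
      apply (forget₂ _ (ModuleCat k)).reflects_exact_of_faithful
      rw [ShortComplex.moduleCat_exact_iff]
      intro x hx
      have h1 : (D.K.d (n + 1) n).hom x = 0 := hx
      rw [K_d] at h1
      obtain ⟨y, hy⟩ := D.ex n x h1
      refine ⟨y, ?_⟩
      change (D.K.d (n + 1 + 1) (n + 1)).hom y = x
      rw [K_d]; exact hy⟩

/-- the dual differential -/
noncomputable def del (B : Rep k G) (n : ℕ) (b : Fin (D.m n) → B) : Fin (D.m (n + 1)) → B :=
  fun i => ∑ j, B.ρ.asAlgebraHom (D.M n i j) (b j)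

lemma L_d (B : Rep k G) (n : ℕ) (f : P k G (D.m n) ⟶ B) :
    (D.K.linearYonedaObj k B).d n (n + 1) f = dm (D.M n) ≫ f := by
  rw [← K_d]; rfl

lemma sub_succ (B : Rep k G) (n : ℕ)
    (h : ∀ b, D.del B (n + 1) b = 0 → ∃ c, D.del B n c = b) :
    Subsingleton (groupCohomology B (n + 1)) := by
  refine ModuleCat.isZero_iff_subsingleton.1 (Limits.IsZero.of_iso ?_
    (groupCohomologyIso B (n + 1) D.res))
  rw [← HomologicalComplex.exactAt_iff_isZero_homology,
    HomologicalComplex.exactAt_iff' _ n (n + 1) (n + 2) (by simp) (by simp),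
    ShortComplex.moduleCat_exact_iff]
  intro f hf
  have h1 : dm (D.M (n + 1)) ≫ (f : P k G (D.m (n + 1)) ⟶ B) = 0 := (D.L_d B _ f).symm.trans hf
  obtain ⟨c, hc⟩ := h (fun i => (f : P k G (D.m (n + 1)) ⟶ B).hom (Pi.single i 1))
    (funext fun i => by
      have := dm_comp (D.M (n + 1)) (f : P k G (D.m (n + 1)) ⟶ B) i
      rw [h1] at this
      exact this.symm)
  refine ⟨mkHom B c, (D.L_d B n _).trans (hom_ext' fun i => ?_)⟩
  refine (dm_comp _ _ i).trans (Eq.trans ?_ (congrFun hc i))
  exact Finset.sum_congr rfl fun j _ => congrArg _ (mkHom_single B c j)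

lemma sub_zero (B : Rep k G) (h : ∀ b, D.del B 0 b = 0 → b = 0) :
    Subsingleton (groupCohomology B 0) := by
  refine ModuleCat.isZero_iff_subsingleton.1 (Limits.IsZero.of_iso ?_
    (groupCohomologyIso B 0 D.res))
  rw [← HomologicalComplex.exactAt_iff_isZero_homology,
    HomologicalComplex.exactAt_iff' _ 0 0 1 (by simp) (by simp),
    ShortComplex.moduleCat_exact_iff]
  intro f hf
  have h1 : dm (D.M 0) ≫ (f : P k G (D.m 0) ⟶ B) = 0 := (D.L_d B _ f).symm.trans hf
  have h2 := h (fun i => (f : P k G (D.m 0) ⟶ B).hom (Pi.single i 1))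
    (funext fun i => by
      have := dm_comp (D.M 0) (f : P k G (D.m 0) ⟶ B) i
      rw [h1] at this
      exact this.symm)
  refine ⟨0, (map_zero _).trans ?_⟩
  exact (hom_ext' (f := f) (g := 0) fun i => congrFun h2 i).symm

lemma top (B : Rep k G) (n : ℕ) (h0 : D.m (n + 2) = 0) (e : (Fin (D.m (n + 1)) → B) →ₗ[k] k)
    (hs : Function.Surjective e) (hk : ∀ b, e b = 0 ↔ ∃ c, D.del B n c = b) :
    Nonempty (groupCohomology B (n + 1) ≃+ k) := by
  let S := (D.res.complex.linearYonedaObj k B).sc' n (n + 1) (n + 2)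
  have i1 : groupCohomology B (n + 1) ≅ S.moduleCatLeftHomologyData.H :=
    groupCohomologyIso B (n + 1) D.res ≪≫
      HomologicalComplex.homologyIsoSc' _ n (n + 1) (n + 2) (by simp) (by simp) ≪≫
      S.moduleCatHomologyIso
  let E : LinearMap.ker S.g.hom →ₗ[k] k := 
    { toFun := fun f => e fun i => (f.1 : P k G (D.m (n + 1)) ⟶ B).hom (Pi.single i 1)
      map_add' := fun f g => by rw [← map_add]; rfl
      map_smul' := fun c f => by rw [← map_smul]; rfl }
  have hE : Function.Surjective E := fun c => by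
    obtain ⟨b, hb⟩ := hs c
    refine ⟨⟨mkHom B b, (D.L_d B _ _).trans (hom_ext' fun i => (h0 ▸ i : Fin 0).elim0)⟩, ?_⟩
    rw [← hb]
    exact congrArg e (funext fun i => mkHom_single B b i)
  have hK : LinearMap.range S.moduleCatToCycles = LinearMap.ker E := by
    ext f
    rw [LinearMap.mem_ker]
    refine Iff.trans ?_ (hk _).symm
    constructor
    · rintro ⟨g, rfl⟩
      refine ⟨fun i => (g : P k G (D.m n) ⟶ B).hom (Pi.single i 1), funext fun i => ?_⟩
      refine (dm_comp (D.M n) (g : P k G (D.m n) ⟶ B) i).symm.trans ?_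
      exact congrArg (fun h : P k G (D.m (n + 1)) ⟶ B => h.hom (Pi.single i 1)) (D.L_d B n g).symm
    · rintro ⟨c, hc⟩
      refine ⟨mkHom B c, Subtype.ext ((D.L_d B n _).trans (hom_ext' fun i => ?_))⟩
      refine (dm_comp _ _ i).trans (Eq.trans ?_ (congrFun hc i))
      exact Finset.sum_congr rfl fun j _ => congrArg _ (mkHom_single B c j)
  exact ⟨i1.toLinearEquiv.toAddEquiv.trans
    ((Submodule.quotEquivOfEq _ _ hK).trans (E.quotKerEquivOfSurjective hE)).toAddEquiv⟩

end Data

end Pool.Agent.Lib.helper15.PD
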