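import Mathlib
import Pool.Agent.Lib.helper15.PD2

namespace Pool.Agent.Lib.helper15.PD

open Matrix

def s (c : ℤ) : ℤ := (Int.negOnePow c : ℤˣ)

lemma s_add (c d : ℤ) : s (c + d) = s c * s d := by simp [s, Int.negOnePow_add]
@[simp] lemma s_zero : s 0 = 1 := by simp [s]
@[simp] lemma s_one : s 1 = -1 := by simp [s]
@[simp] lemma s_neg (c : ℤ) : s (-c) = s c := by simp [s]
lemma s_sq (c : ℤ) : s c * s c = 1 := by
  rw [← s_neg c, s_neg, ← s_add, ← two_mul]; simp [s]
lemma s_two (c : ℤ) : s (2 * c) = 1 := by simp [s]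

@[ext] structure Γ where
  a : ℤ
  b : ℤ
  c : ℤ

instance : Mul Γ := ⟨fun g h => ⟨g.a + s g.c * (h.a - g.c * h.b), g.b + s g.c * h.b, g.c + h.c⟩⟩
instance : One Γ := ⟨⟨0, 0, 0⟩⟩
instance : Inv Γ := ⟨fun g => ⟨-s g.c * (g.a + g.c * g.b), -s g.c * g.b, -g.c⟩⟩

@[simp] lemma mul_a (g h : Γ) : (g * h).a = g.a + s g.c * (h.a - g.c * h.b) := rfl
@[simp] lemma mul_b (g h : Γ) : (g * h).b = g.b + s g.c * h.b := rfl
@[simp] lemma mul_c (g h : Γ) : (g * h).c = g.c + h.c := rfl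
@[simp] lemma one_a : (1 : Γ).a = 0 := rfl
@[simp] lemma one_b : (1 : Γ).b = 0 := rfl
@[simp] lemma one_c : (1 : Γ).c = 0 := rfl
@[simp] lemma inv_a (g : Γ) : g⁻¹.a = -s g.c * (g.a + g.c * g.b) := rfl
@[simp] lemma inv_b (g : Γ) : g⁻¹.b = -s g.c * g.b := rfl
@[simp] lemma inv_c (g : Γ) : g⁻¹.c = -g.c := rfl

instance : Group Γ := Group.ofLeftAxioms
  (fun g h k => by ext <;> simp [s_add] <;> ring)
  (fun g => by ext <;> simp)
  (fun g => by ext <;> simp <;> ring)

def x : Γ := ⟨1, 0, 0⟩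
def y : Γ := ⟨0, 1, 0⟩
def t : Γ := ⟨0, 0, 1⟩

lemma zp (g : Γ) (f : ℤ → Γ) (h0 : f 0 = 1) (h : ∀ n, f (n + 1) = f n * g) (n : ℤ) :
    g ^ n = f n := by
  induction n using Int.induction_on with
  | zero => simp [h0]
  | succ n ih => rw [_root_.zpow_add_one, ih, h]
  | pred n ih => rw [_root_.zpow_sub_one, ih, mul_inv_eq_iff_eq_mul, ← h, sub_add_cancel]

lemma x_pow (n : ℤ) : x ^ n = ⟨n, 0, 0⟩ :=
  zp x (fun n => ⟨n, 0, 0⟩) rfl (fun n => by ext <;> simp [x]) n
lemma y_pow (n : ℤ) : y ^ n = ⟨0, n, 0⟩ :=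
  zp y (fun n => ⟨0, n, 0⟩) rfl (fun n => by ext <;> simp [y]) n
lemma t_pow (n : ℤ) : t ^ n = ⟨0, 0, n⟩ :=
  zp t (fun n => ⟨0, 0, n⟩) rfl (fun n => by ext <;> simp [t]) n

lemma nf (g : Γ) : g = x ^ g.a * y ^ g.b * t ^ g.c := by
  rw [x_pow, y_pow, t_pow]; ext <;> simp

lemma x_inf : ¬ IsOfFinOrder x := fun h => by
  obtain ⟨n, hn, e⟩ := isOfFinOrder_iff_pow_eq_one.1 h
  have := congrArg Γ.a ((x_pow n).symm.trans ((zpow_natCast x n).trans e))
  simp at this; omega

lemma t_inf : ¬ IsOfFinOrder t := fun h => by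
  obtain ⟨n, hn, e⟩ := isOfFinOrder_iff_pow_eq_one.1 h
  have := congrArg Γ.c ((t_pow n).symm.trans ((zpow_natCast t n).trans e))
  simp at this; omega

def f1 : Γ →* Γ := MonoidHom.mk' (fun g => ⟨g.b, 0, g.c⟩) fun g h => by ext <;> simp
def f2 : Γ →* Γ := MonoidHom.mk' (fun g => ⟨0, 0, g.c⟩) fun g h => by ext <;> simp

lemma k1 : f1.ker ≤ Subgroup.closure {x, 1, 1} := fun g hg => by
  have h1 : g.b = 0 := congrArg Γ.a hg
  have h2 : g.c = 0 := congrArg Γ.c hg
  rw [nf g, h1, h2, zpow_zero, zpow_zero, mul_one, mul_one]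
  exact Subgroup.zpow_mem _ (Subgroup.subset_closure (by simp)) _

lemma k2 : f2.ker ≤ Subgroup.closure {x, y, 1} := fun g hg => by
  have h2 : g.c = 0 := congrArg Γ.c hg
  rw [nf g, h2, zpow_zero, mul_one]
  exact Subgroup.mul_mem _ (Subgroup.zpow_mem _ (Subgroup.subset_closure (by simp)) _)
    (Subgroup.zpow_mem _ (Subgroup.subset_closure (by simp)) _)

lemma k3 (z : Γ) (hz : z = t ∨ z = x * y * t) :
    (1 : Γ →* Unit).ker ≤ Subgroup.closure {x, y, z} := fun g _ => by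
  have hx : x ∈ Subgroup.closure {x, y, z} := Subgroup.subset_closure (by simp)
  have hy : y ∈ Subgroup.closure {x, y, z} := Subgroup.subset_closure (by simp)
  have hz' : z ∈ Subgroup.closure {x, y, z} := Subgroup.subset_closure (by simp)
  have ht : t ∈ Subgroup.closure {x, y, z} := by
    rcases hz with h | h
    · exact h ▸ hz'
    · have := Subgroup.mul_mem _ (Subgroup.inv_mem _ (Subgroup.mul_mem _ hx hy)) hz'
      nth_rewrite 2 [h] at this
      rwa [inv_mul_cancel_left] at this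
  rw [nf g]
  exact Subgroup.mul_mem _ (Subgroup.mul_mem _ (Subgroup.zpow_mem _ hx _)
    (Subgroup.zpow_mem _ hy _)) (Subgroup.zpow_mem _ ht _)

noncomputable def o (g : Γ) : R Γ := MonoidAlgebra.of ℤ Γ g

lemma o_mul {g h k : Γ} (e : g * h = k) : o g * o h = o k := by rw [← e]; exact (map_mul _ _ _).symm

noncomputable def a : R Γ := o x - 1
noncomputable def b : R Γ := o y - 1
noncomputable def c : R Γ := o t - 1
noncomputable def p : R Γ := o (x * t)
noncomputable def q : R Γ := o (y * t)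
noncomputable def e : R Γ := o (x * y * t)

lemma I1 : a * b = b * a := by
  have h1 : o x * o y = o (x * y) := o_mul rfl
  have h2 : o y * o x = o (x * y) := o_mul (by ext <;> simp [x, y])
  unfold a b
  linear_combination (norm := noncomm_ring) h1 - h2

lemma I2 : a * c = -(p * a) - a := by
  have h1 : o x * o t = p := o_mul rfl
  have h2 : p * o x = o t := o_mul (by ext <;> simp [x, t])
  unfold a c
  linear_combination (norm := noncomm_ring) h1 + h2

lemma I3 : b * c = -(p * a) - q * b - b := by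
  have h1 : o y * o t = q := o_mul rfl
  have h2 : p * o x = o t := o_mul (by ext <;> simp [x, t])
  have h3 : q * o y = p := o_mul (by ext <;> simp [x, y, t])
  unfold a b c
  linear_combination (norm := noncomm_ring) h1 + h2 + h3

lemma I4 : e * b = a * p - b * p := by
  have h1 : e * o y = o (x * (x * t)) := o_mul (by ext <;> simp [x, y, t])
  have h2 : o x * p = o (x * (x * t)) := o_mul rfl
  have h3 : o y * p = e := o_mul (by ext <;> simp [x, y, t])
  unfold a b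
  linear_combination (norm := noncomm_ring) h1 - h2 + h3

lemma I5 : e * a = -(a * q) := by
  have h1 : e * o x = q := o_mul (by ext <;> simp [x, y, t])
  have h2 : o x * q = e := o_mul (mul_assoc _ _ _).symm
  unfold a
  linear_combination (norm := noncomm_ring) h1 + h2

lemma L1 {u : R Γ} (h : u * a = 0) : u = 0 := reg_left x_inf h
lemma R1 {u : R Γ} (h : a * u = 0) : u = 0 := reg_right x_inf h

lemma L2 {v w : R Γ} (h : v * a + w * b = 0) : ∃ u, v = u * b ∧ w = -(u * a) := by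
  obtain ⟨u, u', h1⟩ := regL f1 x 1 y k1 rfl rfl x_inf (r := w) (u := -v) (v := 0)
    (by change w * b = -v * a + _; linear_combination (norm := noncomm_ring) h)
  rw [map_one, sub_self, mul_zero, add_zero] at h1
  replace h1 : w = u * a := h1
  refine ⟨-u, ?_, by rw [h1]; simp⟩
  rw [← sub_eq_zero]
  apply L1
  rw [h1] at h
  linear_combination (norm := noncomm_ring) h - u * I1

lemma R2 {v w : R Γ} (h : b * v = a * w) : ∃ u, v = a * u ∧ w = b * u := by
  obtain ⟨u, u', h1⟩ := regR f1 x 1 y k1 rfl rfl x_inf (r := v) (u := w) (v := 0)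
    (by change b * v = a * w + _; rw [h, mul_zero, add_zero])
  rw [map_one, sub_self, zero_mul, add_zero] at h1
  replace h1 : v = a * u := h1
  refine ⟨u, h1, ?_⟩
  rw [← sub_eq_zero]
  apply R1
  rw [h1] at h
  linear_combination (norm := noncomm_ring) -h - I1 * u

lemma L3 {u v w : R Γ} (h : u * a + v * b + w * c = 0) : ∃ s1 s2, w = s1 * a + s2 * b :=
  regL f2 x y t k2 rfl rfl t_inf (r := w) (u := -u) (v := -v)
    (by change w * c = -u * a + -v * b; linear_combination (norm := noncomm_ring) h)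

lemma R3 {u v w : R Γ} (h : (e - 1) * u - b * v + a * w = 0) : ∃ s1 s2, u = a * s1 + b * s2 :=
  regR f2 x y (x * y * t) k2 rfl rfl t_inf (r := u) (u := -w) (v := v)
    (by change (e - 1) * u = a * -w + b * v; linear_combination (norm := noncomm_ring) h)

noncomputable def M0 : Matrix (Fin 3) (Fin 1) (R Γ) := !![a; b; c]
noncomputable def M1 : Matrix (Fin 3) (Fin 3) (R Γ) :=
  !![b, -a, 0; -p - 1, 0, -a; -p, -q - 1, -b]
noncomputable def M2 : Matrix (Fin 1) (Fin 3) (R Γ) := !![e - 1, -b, a]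

lemma v0 (v : Fin 3 → R Γ) : v ᵥ* M0 = ![v 0 * a + v 1 * b + v 2 * c] := by
  ext1 i; fin_cases i; simp [M0, vecMul, dotProduct, Fin.sum_univ_three]

lemma v1 (v : Fin 3 → R Γ) : v ᵥ* M1 = ![v 0 * b + v 1 * (-p - 1) + v 2 * -p,
    v 0 * -a + v 2 * (-q - 1), v 1 * -a + v 2 * -b] := by
  ext1 i; fin_cases i <;> simp [M1, vecMul, dotProduct, Fin.sum_univ_three]

lemma v2 (v : Fin 1 → R Γ) : v ᵥ* M2 = ![v 0 * (e - 1), v 0 * -b, v 0 * a] := by
  ext1 i; fin_cases i <;> simp [M2, vecMul, dotProduct]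

lemma ext3 {A : Type} {u v : Fin 3 → A} (h0 : u 0 = v 0) (h1 : u 1 = v 1) (h2 : u 2 = v 2) :
    u = v := by
  ext1 i; fin_cases i <;> assumption

lemma ext1' {A : Type} {u v : Fin 1 → A} (h0 : u 0 = v 0) : u = v := by
  ext1 i; fin_cases i; assumption

lemma sq0 (v : Fin 3 → R Γ) : v ᵥ* M1 ᵥ* M0 = 0 := by
  rw [v0, v1]
  refine ext1' ?_
  simp only [Matrix.cons_val, Pi.zero_apply, Matrix.cons_val_zero]
  linear_combination (norm := noncomm_ring) -(v 0 * I1) - v 1 * I2 - v 2 * I3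

lemma sq1 (v : Fin 1 → R Γ) : v ᵥ* M2 ᵥ* M1 = 0 := by
  rw [v1, v2]
  refine ext3 ?_ ?_ ?_ <;> simp only [Matrix.cons_val, Pi.zero_apply, Matrix.cons_val_zero]
  · linear_combination (norm := noncomm_ring) v 0 * I4
  · linear_combination (norm := noncomm_ring) -(v 0 * I5)
  · linear_combination (norm := noncomm_ring) -(v 0 * I1)

lemma ex0 (v : Fin 3 → R Γ) (h : v ᵥ* M0 = 0) : ∃ w, w ᵥ* M1 = v := by
  rw [v0] at h
  replace h : v 0 * a + v 1 * b + v 2 * c = 0 := congrFun h 0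
  obtain ⟨s1, s2, h1⟩ := L3 h
  obtain ⟨u, h2, h3⟩ := L2 (v := v 0 - s1 * (p + 1) - s2 * p) (w := v 1 - s2 * (q + 1)) (by
    rw [h1] at h
    linear_combination (norm := noncomm_ring) h - s1 * I2 - s2 * I3)
  refine ⟨![u, -s1, -s2], ?_⟩
  rw [v1]
  refine ext3 ?_ ?_ ?_ <;> simp only [Matrix.cons_val, Matrix.cons_val_zero]
  · linear_combination (norm := noncomm_ring) -h2
  · linear_combination (norm := noncomm_ring) -h3
  · linear_combination (norm := noncomm_ring) -h1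

lemma ex1 (v : Fin 3 → R Γ) (h : v ᵥ* M1 = 0) : ∃ w, w ᵥ* M2 = v := by
  rw [v1] at h
  have h1 : v 0 * -a + v 2 * (-q - 1) = 0 := congrFun h 1
  have h2 : v 1 * -a + v 2 * -b = 0 := congrFun h 2
  obtain ⟨u, h3, h4⟩ := L2 (v := v 1) (w := v 2) (by linear_combination (norm := noncomm_ring) -h2)
  have h5 : v 0 + u * (e - 1) = 0 := L1 (by
    rw [h4] at h1
    linear_combination (norm := noncomm_ring) -h1 + u * I5)
  refine ⟨![-u], ?_⟩
  rw [v2]
  refine ext3 ?_ ?_ ?_ <;> simp only [Matrix.cons_val, Matrix.cons_val_zero]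
  · linear_combination (norm := noncomm_ring) -h5
  · linear_combination (norm := noncomm_ring) -h3
  · linear_combination (norm := noncomm_ring) -h4

lemma ex2 (v : Fin 1 → R Γ) (h : v ᵥ* M2 = 0) : v = 0 := by
  rw [v2] at h
  exact ext1' (L1 (congrFun h 2))

lemma aug_o (g : Γ) : ag ℤ Γ (o g) = 1 := aug_of g

def mm : ℕ → ℕ
  | 0 => 1
  | 1 => 3
  | 2 => 3
  | 3 => 1
  | _ + 4 => 0

noncomputable def MM : ∀ n, Matrix (Fin (mm (n + 1))) (Fin (mm n)) (R Γ)
  | 0 => M0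
  | 1 => M1
  | 2 => M2
  | _ + 3 => 0

noncomputable def D : Data ℤ Γ where
  m := mm
  M := MM
  sq n := match n with
    | 0 => sq0
    | 1 => sq1
    | 2 => fun (v : Fin 0 → R Γ) => by
        change v ᵥ* (0 : Matrix (Fin 0) (Fin 1) (R Γ)) ᵥ* M2 = 0
        rw [vecMul_zero, zero_vecMul]
    | _ + 3 => fun _ => vecMul_zero _
  ex n := match n with
    | 0 => ex0
    | 1 => ex1
    | 2 => fun v h => ⟨0, (zero_vecMul _).trans (ex2 v h).symm⟩
    | _ + 3 => fun v _ => ⟨0, funext fun i => Fin.elim0 i⟩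
  ex0 v := by
    change (∃ w, w ᵥ* M0 = v) ↔ ∑ i : Fin 1, ag ℤ Γ (v i) = 0
    rw [Fin.sum_univ_one]
    constructor
    · rintro ⟨w, rfl⟩
      rw [v0]
      simp [a, b, c, aug_o]
    · intro h
      obtain ⟨u1, u2, u3, h1⟩ := kerL3 1 x y t (k3 t (Or.inl rfl)) (aug_zero h)
      exact ⟨![u1, u2, u3], (v0 _).trans (ext1' h1.symm)⟩
  surj k := ⟨fun _ => k • 1, by
    change ∑ _i : Fin 1, ag ℤ Γ (k • 1) = k
    simp⟩

noncomputable abbrev B : Rep ℤ Γ := Rep.ofMulAction ℤ Γ Γ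

lemma d0 (z : Fin 1 → R Γ) : D.del B 0 z = ![a * z 0, b * z 0, c * z 0] := by
  refine funext fun i : Fin 3 => ?_
  change ∑ j : Fin 1, (Representation.ofMulAction ℤ Γ Γ).asAlgebraHom (M0 i j) (z j) = _
  simp only [Representation.asAlgebraHom_ofMulAction_smul_eq_mul]
  fin_cases i <;> simp [M0]

lemma d1 (z : Fin 3 → R Γ) : D.del B 1 z = ![b * z 0 - a * z 1, (-p - 1) * z 0 - a * z 2,
    -p * z 0 + (-q - 1) * z 1 - b * z 2] := by
  refine funext fun i : Fin 3 => ?_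
  change ∑ j : Fin 3, (Representation.ofMulAction ℤ Γ Γ).asAlgebraHom (M1 i j) (z j) = _
  simp only [Representation.asAlgebraHom_ofMulAction_smul_eq_mul]
  fin_cases i <;> simp [M1, Fin.sum_univ_three, sub_eq_add_neg]

lemma d2 (z : Fin 3 → R Γ) : D.del B 2 z = ![(e - 1) * z 0 - b * z 1 + a * z 2] := by
  refine funext fun i : Fin 1 => ?_
  change ∑ j : Fin 3, (Representation.ofMulAction ℤ Γ Γ).asAlgebraHom (M2 i j) (z j) = _
  simp only [Representation.asAlgebraHom_ofMulAction_smul_eq_mul]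
  fin_cases i; simp [M2, Fin.sum_univ_three, sub_eq_add_neg]

lemma H4 (M : Rep ℤ Γ) : Subsingleton (groupCohomology M 4) :=
  D.sub_succ M 3 fun _ _ => ⟨0, funext fun i => Fin.elim0 i⟩

lemma H0 : Subsingleton (groupCohomology B 0) :=
  D.sub_zero B fun (z : Fin 1 → R Γ) h => ext1' (R1 (congrFun ((d0 z).symm.trans h) 0))

lemma H1 : Subsingleton (groupCohomology B 1) :=
  D.sub_succ B 0 fun (z : Fin 3 → R Γ) h => by
    have h' := (d1 z).symm.trans h
    have h0 : b * z 0 - a * z 1 = 0 := congrFun h' 0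
    have h1 : (-p - 1) * z 0 - a * z 2 = 0 := congrFun h' 1
    obtain ⟨r, h2, h3⟩ := R2 (sub_eq_zero.1 h0)
    have h4 : c * r - z 2 = 0 := R1 (by
      rw [h2] at h1
      linear_combination (norm := noncomm_ring) h1 + I2 * r)
    exact ⟨![r], (d0 _).trans (ext3 h2.symm h3.symm (sub_eq_zero.1 h4))⟩

lemma H2 : Subsingleton (groupCohomology B 2) :=
  D.sub_succ B 1 fun (w : Fin 3 → R Γ) h => by
    have h0 : (e - 1) * w 0 - b * w 1 + a * w 2 = 0 := congrFun ((d2 w).symm.trans h) 0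
    obtain ⟨s1, s2, h1⟩ := R3 h0
    obtain ⟨r, h2, h3⟩ := R2 (v := (p + 1) * s2 + w 1) (w := p * s2 - (q + 1) * s1 + w 2) (by
      rw [h1] at h0
      linear_combination (norm := noncomm_ring) -h0 + I4 * s2 + I5 * s1)
    refine ⟨![s2, -s1, -r], (d1 _).trans (ext3 ?_ ?_ ?_)⟩ <;>
      simp only [Matrix.cons_val, Matrix.cons_val_zero]
    · linear_combination (norm := noncomm_ring) -h1
    · linear_combination (norm := noncomm_ring) -h2
    · linear_combination (norm := noncomm_ring) -h3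

lemma H3 : Nonempty (groupCohomology B 3 ≃+ ℤ) := by
  refine D.top B 2 rfl ((ag ℤ Γ).toLinearMap ∘ₗ LinearMap.proj (0 : Fin 1))
    (fun k => ⟨fun _ => (k • 1 : R Γ), by change ag ℤ Γ (k • 1) = k; simp⟩)
    fun (z : Fin 1 → R Γ) => ?_
  change ag ℤ Γ (z 0) = 0 ↔ _
  constructor
  · intro h
    obtain ⟨u1, u2, u3, h1⟩ := kerR3 1 x y (x * y * t) (k3 _ (Or.inr rfl)) (aug_zero h)
    replace h1 : z 0 = a * u1 + b * u2 + (e - 1) * u3 := h1
    refine ⟨![u3, -u2, u1], (d2 _).trans (ext1' ?_)⟩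
    simp only [Matrix.cons_val, Matrix.cons_val_zero]
    linear_combination (norm := noncomm_ring) -h1
  · rintro ⟨w, hw⟩
    rw [← congrFun ((d2 w).symm.trans hw) 0]
    simp [a, b, e, aug_o]

end Pool.Agent.Lib.helper15.PD
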