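import Mathlib
import Pool.Agent.Lib.helper15.PD3

namespace Pool.Agent.Lib.helper15.PD

open CategoryTheory

/-- type FP over k: the trivial module has a projective resolution of finite length by
finitely generated k[G]-modules -/
def IsFP (k G : Type) [CommRing k] [Group G] : Prop :=
  ∃ P : ProjectiveResolution (Rep.trivial k G k),
    (∀ i, Module.Finite (MonoidAlgebra k G) (P.complex.X i).ρ.asModule) ∧
    ∃ N, ∀ i, N < i → Limits.IsZero (P.complex.X i)

/-- Poincare duality group of dimension n -/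
def IsPD (n : ℕ) (G : Type) [Group G] : Prop :=
  IsFP ℤ G ∧ (∀ i, i ≠ n → Subsingleton (groupCohomology (Rep.ofMulAction ℤ G G) i)) ∧
    Nonempty (groupCohomology (Rep.ofMulAction ℤ G G) n ≃+ ℤ)

lemma Data.fp {k G : Type} [CommRing k] [Group G] (D : Data k G) (N : ℕ)
    (h : ∀ i, N < i → D.m i = 0) : IsFP k G := by
  refine ⟨D.res, fun i => ?_, N, fun i hi => ?_⟩
  · let f : (Fin (D.m i) → MonoidAlgebra k G) →ₗ[MonoidAlgebra k G] (rho k G (D.m i)).asModule :=
      { toFun := fun x => x
        map_add' := fun _ _ => rfl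
        map_smul' := fun r x => map_rsmul (𝟙 (P k G (D.m i))) r x }
    exact Module.Finite.of_surjective f fun x => ⟨x, rfl⟩
  · rw [Limits.IsZero.iff_id_eq_zero]
    exact hom_ext' (m := D.m i) fun j => (h i hi ▸ j : Fin 0).elim0

lemma Data.high {k G : Type} [CommRing k] [Group G] (D : Data k G) (B : Rep k G) (n : ℕ)
    (h : D.m (n + 1) = 0) : Subsingleton (groupCohomology B (n + 1)) :=
  D.sub_succ B n fun _ _ => ⟨0, funext fun j => (h ▸ j : Fin 0).elim0⟩

lemma pd3 : IsPD 3 Γ := by
  refine ⟨D.fp 3 fun i hi => ?_, fun i hi => ?_, H3⟩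
  · obtain ⟨j, rfl⟩ : ∃ j, i = j + 4 := ⟨i - 4, by omega⟩
    rfl
  · match i, hi with
    | 0, _ => exact H0
    | 1, _ => exact H1
    | 2, _ => exact H2
    | j + 4, _ => exact D.high B (j + 3) rfl

end Pool.Agent.Lib.helper15.PD
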