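import Mathlib

set_option autoImplicit false
open Classical

namespace Pool.Agent.Lib.helper15.PermMob

abbrev P := Σ n : ℕ, Equiv.Perm (Fin n)

def Le (x y : P) : Prop :=
  ∃ e : Fin x.1 → Fin y.1, StrictMono e ∧ ∀ i j, x.2 i < x.2 j ↔ y.2 (e i) < y.2 (e j)

def val (x : P) (i : ℕ) : ℕ := if h : i < x.1 then (x.2 ⟨i, h⟩ : ℕ) else 0

theorem val_of_lt (x : P) (i : ℕ) (h : i < x.1) : val x i = (x.2 ⟨i, h⟩ : ℕ) := by
  simp [val, h]

theorem val_fin (x : P) (i : Fin x.1) : val x i = (x.2 i : ℕ) := by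
  simp [val]

theorem val_lt (x : P) (i : ℕ) (h : i < x.1) : val x i < x.1 := by
  rw [val_of_lt x i h]; exact (x.2 ⟨i, h⟩).2

theorem val_inj (x : P) (i j : ℕ) (hi : i < x.1) (hj : j < x.1) (h : val x i = val x j) :
    i = j := by
  rw [val_of_lt x i hi, val_of_lt x j hj] at h
  have := x.2.injective (Fin.ext h)
  simpa using this

structure REmb (n : ℕ) (v : ℕ → ℕ) (n' : ℕ) (v' : ℕ → ℕ) (e : ℕ → ℕ) : Prop where
  mono : ∀ i j, i < j → j < n → e i < e j
  bd : ∀ i, i < n → e i < n'
  ord : ∀ i j, i < n → j < n → (v i < v j ↔ v' (e i) < v' (e j))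

def Emb (x y : P) (e : ℕ → ℕ) : Prop := REmb x.1 (val x) y.1 (val y) e

def toN {a b : ℕ} (e : Fin a → Fin b) (i : ℕ) : ℕ := if h : i < a then (e ⟨i, h⟩ : ℕ) else 0

theorem emb_toN (x y : P) (e : Fin x.1 → Fin y.1) (he : StrictMono e)
    (ho : ∀ i j, x.2 i < x.2 j ↔ y.2 (e i) < y.2 (e j)) : Emb x y (toN e) := by
  refine ⟨?_, ?_, ?_⟩
  · intro i j hij hj
    have hi : i < x.1 := by omega
    simp only [toN, hi, hj, dif_pos]
    exact he (show (⟨i, hi⟩ : Fin x.1) < ⟨j, hj⟩ from hij)
  · intro i hi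
    simp only [toN, hi, dif_pos]
    exact (e _).2
  · intro i j hi hj
    simp only [toN, hi, hj, dif_pos]
    rw [val_of_lt x i hi, val_of_lt x j hj, val_fin, val_fin]
    exact ho _ _

theorem le_iff (x y : P) : Le x y ↔ ∃ e, Emb x y e := by
  constructor
  · rintro ⟨e, he, ho⟩
    exact ⟨_, emb_toN x y e he ho⟩
  · rintro ⟨e, he⟩
    refine ⟨fun i => ⟨e i, he.bd i i.2⟩, ?_, ?_⟩
    · intro i j hij
      exact he.mono i j hij j.2
    · intro i j
      have := he.ord i j i.2 j.2
      rw [val_fin, val_fin, val_of_lt y _ (he.bd i i.2), val_of_lt y _ (he.bd j j.2)] at this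
      exact this

theorem REmb.le_apply {n n' : ℕ} {v v' e : ℕ → ℕ} (h : REmb n v n' v' e) (i : ℕ) (hi : i < n) :
    i ≤ e i := by
  induction i with
  | zero => omega
  | succ k ih =>
    have := ih (by omega)
    have := h.mono k (k + 1) (by omega) hi
    omega

theorem REmb.size_le {n n' : ℕ} {v v' e : ℕ → ℕ} (h : REmb n v n' v' e) : n ≤ n' := by
  rcases n with _ | k
  · omega
  · have := h.le_apply k (by omega)
    have := h.bd k (by omega)
    omega

theorem REmb.comp {n n' n'' : ℕ} {v v' v'' e e' : ℕ → ℕ} (h : REmb n v n' v' e)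
    (h' : REmb n' v' n'' v'' e') : REmb n v n'' v'' (fun i => e' (e i)) := by
  refine ⟨?_, ?_, ?_⟩
  · intro i j hij hj
    exact h'.mono _ _ (h.mono i j hij hj) (h.bd j hj)
  · intro i hi
    exact h'.bd _ (h.bd i hi)
  · intro i j hi hj
    rw [h.ord i j hi hj, h'.ord _ _ (h.bd i hi) (h.bd j hj)]

theorem Le.refl (x : P) : Le x x := ⟨id, strictMono_id, fun _ _ => Iff.rfl⟩

theorem Le.trans {x y z : P} (h : Le x y) (h' : Le y z) : Le x z := by
  rw [le_iff] at *
  obtain ⟨e, he⟩ := h
  obtain ⟨e', he'⟩ := h'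
  exact ⟨_, REmb.comp he he'⟩

theorem Le.size_le {x y : P} (h : Le x y) : x.1 ≤ y.1 := by
  rw [le_iff] at h
  obtain ⟨e, he⟩ := h
  exact REmb.size_le he

theorem perm_eq {n : ℕ} (p q : Equiv.Perm (Fin n)) (h : ∀ i j, p i < p j ↔ q i < q j) : p = q := by
  have hs : StrictMono (fun a => q (p.symm a)) := by
    intro a b hab
    apply (h _ _).mp
    simpa using hab
  ext i
  have := hs.apply_eq (x := p i)
  simp only [Equiv.symm_apply_apply] at this
  rw [this]

def Rep (x : P) (n : ℕ) (v : ℕ → ℕ) : Prop :=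
  x.1 = n ∧ ∀ i j, i < n → j < n → (val x i < val x j ↔ v i < v j)

theorem rep_self (x : P) : Rep x x.1 (val x) := ⟨rfl, fun _ _ _ _ => Iff.rfl⟩

theorem rep_unique {x y : P} {n : ℕ} {v : ℕ → ℕ} (hx : Rep x n v) (hy : Rep y n v) : x = y := by
  obtain ⟨a, p⟩ := x
  obtain ⟨b, q⟩ := y
  obtain ⟨h1, h2⟩ := hx
  obtain ⟨h3, h4⟩ := hy
  simp only at h1 h3
  subst h1
  subst h3
  congr 1
  apply perm_eq
  intro i j
  have h5 := h2 i j i.2 j.2
  have h6 := h4 i j i.2 j.2
  rw [val_fin ⟨_, p⟩, val_fin ⟨_, p⟩] at h5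
  rw [val_fin ⟨_, q⟩, val_fin ⟨_, q⟩] at h6
  exact h5.trans h6.symm

theorem exists_rep (n : ℕ) (v : ℕ → ℕ) (hv : ∀ i j, i < n → j < n → v i = v j → i = j) :
    ∃ x, Rep x n v := by
  let f : Fin n → ℕ := fun i => v i
  have hf : Function.Injective f := fun i j h => Fin.ext (hv _ _ i.2 j.2 h)
  have hm : StrictMono (f ∘ Tuple.sort f) :=
    (Tuple.monotone_sort f).strictMono_of_injective (hf.comp (Tuple.sort f).injective)
  refine ⟨⟨n, (Tuple.sort f).symm⟩, rfl, ?_⟩
  intro i j hi hj
  rw [val_of_lt ⟨n, _⟩ i hi, val_of_lt ⟨n, _⟩ j hj]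
  have := hm.lt_iff_lt (a := (Tuple.sort f).symm ⟨i, hi⟩) (b := (Tuple.sort f).symm ⟨j, hj⟩)
  simp only [Function.comp, Equiv.apply_symm_apply] at this
  exact this.symm

noncomputable def mk (n : ℕ) (v : ℕ → ℕ) : P :=
  if h : ∃ x, Rep x n v then h.choose else ⟨0, 1⟩

theorem rep_mk (n : ℕ) (v : ℕ → ℕ) (hv : ∀ i j, i < n → j < n → v i = v j → i = j) :
    Rep (mk n v) n v := by
  have h := exists_rep n v hv
  simp only [mk, h, dif_pos]
  exact h.choose_spec

theorem emb_iff {x y : P} {n n' : ℕ} {v v' e : ℕ → ℕ} (hx : Rep x n v) (hy : Rep y n' v') :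
    Emb x y e ↔ REmb n v n' v' e := by
  obtain ⟨h1, h2⟩ := hx
  obtain ⟨h3, h4⟩ := hy
  subst h1
  subst h3
  constructor
  · intro h
    refine ⟨h.mono, h.bd, ?_⟩
    intro i j hi hj
    rw [← h2 i j hi hj, ← h4 _ _ (h.bd i hi) (h.bd j hj)]
    exact h.ord i j hi hj
  · intro h
    refine ⟨h.mono, h.bd, ?_⟩
    intro i j hi hj
    rw [h2 i j hi hj, h4 _ _ (h.bd i hi) (h.bd j hj)]
    exact h.ord i j hi hj

theorem Le.eq_of_size {x y : P} (h : Le x y) (hs : y.1 ≤ x.1) : x = y := by
  have hle := h.size_le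
  have hxy : x.1 = y.1 := by omega
  obtain ⟨a, p⟩ := x
  obtain ⟨b, q⟩ := y
  simp only at hxy
  subst hxy
  obtain ⟨e, he, ho⟩ := h
  have hid : ∀ i, e i = i := fun i => he.apply_eq
  congr 1
  apply perm_eq
  intro i j
  have := ho i j
  rw [hid i, hid j] at this
  exact this

noncomputable def Icc (x y : P) : Finset P :=
  ((Finset.range (y.1 + 1)).sigma
    (fun k => (Finset.univ : Finset (Equiv.Perm (Fin k))))).filter (fun z => Le x z ∧ Le z y)

theorem mem_Icc {x y z : P} : z ∈ Icc x y ↔ Le x z ∧ Le z y := by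
  simp only [Icc, Finset.mem_filter, Finset.mem_sigma, Finset.mem_range, Finset.mem_univ, and_true]
  constructor
  · exact fun h => h.2
  · intro h
    have := h.2.size_le
    exact ⟨by omega, h⟩

theorem lt_of_mem_erase {x y z : P} (h : z ∈ (Icc x y).erase y) : z.1 < y.1 := by
  rw [Finset.mem_erase, mem_Icc] at h
  by_contra hc
  exact h.1 (h.2.2.eq_of_size (by omega))

noncomputable def mob (x : P) (y : P) : ℤ :=
  if x = y then 1 else if Le x y then
    - ∑ z ∈ ((Icc x y).erase y).attach, mob x z.1 else 0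
termination_by y.1
decreasing_by exact lt_of_mem_erase z.2

theorem mob_self (x : P) : mob x x = 1 := by
  rw [mob]; simp

theorem mob_not_le (x y : P) (h : ¬ Le x y) : mob x y = 0 := by
  have : x ≠ y := fun hxy => h (hxy ▸ Le.refl x)
  rw [mob]; simp [this, h]

theorem sum_mob (x y : P) (h : Le x y) :
    ∑ z ∈ Icc x y, mob x z = if x = y then 1 else 0 := by
  split_ifs with hxy
  · subst hxy
    have : Icc x x = {x} := by
      ext z
      rw [mem_Icc, Finset.mem_singleton]
      constructor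
      · intro hz
        exact hz.2.eq_of_size hz.1.size_le
      · rintro rfl
        exact ⟨Le.refl _, Le.refl _⟩
    rw [this, Finset.sum_singleton, mob_self]
  · have hy : y ∈ Icc x y := mem_Icc.mpr ⟨h, Le.refl y⟩
    rw [← Finset.add_sum_erase _ _ hy]
    have : mob x y = - ∑ z ∈ (Icc x y).erase y, mob x z := by
      rw [mob]
      simp only [hxy, h, if_false, if_true]
      rw [Finset.sum_attach ((Icc x y).erase y) (fun z => mob x z)]
    rw [this]
    ring

theorem mob_eq (x t : P) (g : P → ℤ)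
    (h : ∀ y, Le x y → Le y t → ∑ z ∈ Icc x y, g z = if x = y then 1 else 0) :
    ∀ (n : ℕ) (y : P), y.1 = n → Le x y → Le y t → mob x y = g y := by
  intro n
  induction n using Nat.strong_induction_on with
  | _ n ih =>
    intro y hn hxy hyt
    have h1 := h y hxy hyt
    rw [← sum_mob x y hxy] at h1
    have hy : y ∈ Icc x y := mem_Icc.mpr ⟨hxy, Le.refl y⟩
    rw [← Finset.add_sum_erase _ _ hy, ← Finset.add_sum_erase _ _ hy] at h1
    have h2 : ∑ z ∈ (Icc x y).erase y, g z = ∑ z ∈ (Icc x y).erase y, mob x z := by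
      apply Finset.sum_congr rfl
      intro z hz
      have hlt := lt_of_mem_erase hz
      rw [Finset.mem_erase, mem_Icc] at hz
      exact (ih z.1 (by omega) z rfl hz.2.1 (hz.2.2.trans hyt)).symm
    linarith

def sv (a b : P) (i : ℕ) : ℕ := if i < a.1 then val a i else a.1 + val b (i - a.1)

noncomputable def dsum (a b : P) : P := mk (a.1 + b.1) (sv a b)

theorem sv_left (a b : P) (i : ℕ) (h : i < a.1) : sv a b i = val a i := by simp [sv, h]

theorem sv_right (a b : P) (i : ℕ) (h : a.1 ≤ i) : sv a b i = a.1 + val b (i - a.1) := by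
  simp [sv, not_lt.mpr h]

theorem rep_dsum (a b : P) : Rep (dsum a b) (a.1 + b.1) (sv a b) := by
  apply rep_mk
  intro i j hi hj h
  by_cases h1 : i < a.1 <;> by_cases h2 : j < a.1
  · rw [sv_left _ _ _ h1, sv_left _ _ _ h2] at h
    exact val_inj a i j h1 h2 h
  · rw [sv_left _ _ _ h1, sv_right _ _ _ (by omega)] at h
    have := val_lt a i h1
    omega
  · rw [sv_left _ _ _ h2, sv_right _ _ _ (by omega)] at h
    have := val_lt a j h2
    omega
  · rw [sv_right _ _ _ (by omega), sv_right _ _ _ (by omega)] at h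
    have := val_inj b (i - a.1) (j - a.1) (by omega) (by omega) (by omega)
    omega

theorem dsum_size (a b : P) : (dsum a b).1 = a.1 + b.1 := (rep_dsum a b).1

theorem le_dsum {a a' b b' : P} (ha : Le a a') (hb : Le b b') : Le (dsum a b) (dsum a' b') := by
  rw [le_iff] at *
  obtain ⟨e1, h1⟩ := ha
  obtain ⟨e2, h2⟩ := hb
  refine ⟨fun i => if i < a.1 then e1 i else a'.1 + e2 (i - a.1), ?_⟩
  rw [emb_iff (rep_dsum a b) (rep_dsum a' b')]
  refine ⟨?_, ?_, ?_⟩
  · intro i j hij hj
    by_cases hi1 : i < a.1 <;> by_cases hj1 : j < a.1 <;> simp only [hi1, hj1, if_true, if_false]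
    · exact h1.mono i j hij hj1
    · have := h1.bd i hi1
      omega
    · omega
    · have := h2.mono (i - a.1) (j - a.1) (by omega) (by omega)
      omega
  · intro i hi
    by_cases hi1 : i < a.1 <;> simp only [hi1, if_true, if_false]
    · have := h1.bd i hi1
      omega
    · have := h2.bd (i - a.1) (by omega)
      omega
  · intro i j hi hj
    by_cases hi1 : i < a.1 <;> by_cases hj1 : j < a.1 <;> simp only [hi1, hj1, if_true, if_false]
    · rw [sv_left _ _ _ hi1, sv_left _ _ _ hj1, sv_left _ _ _ (h1.bd i hi1),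
        sv_left _ _ _ (h1.bd j hj1)]
      exact h1.ord i j hi1 hj1
    · rw [sv_left _ _ _ hi1, sv_right _ _ _ (by omega), sv_left _ _ _ (h1.bd i hi1),
        sv_right _ _ _ (by omega)]
      have := val_lt a i hi1
      have := val_lt a' _ (h1.bd i hi1)
      omega
    · rw [sv_left _ _ _ hj1, sv_right _ _ _ (by omega), sv_left _ _ _ (h1.bd j hj1),
        sv_right _ _ _ (by omega)]
      have := val_lt a j hj1
      have := val_lt a' _ (h1.bd j hj1)
      omega
    · rw [sv_right _ _ _ (by omega), sv_right _ _ _ (by omega), sv_right _ _ _ (by omega),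
        sv_right _ _ _ (by omega)]
      have := h2.ord (i - a.1) (j - a.1) (by omega) (by omega)
      simp only [Nat.add_sub_cancel_left]
      omega

theorem le_dsum_right (a b : P) : Le b (dsum a b) := by
  rw [le_iff]
  refine ⟨fun i => a.1 + i, ?_⟩
  rw [emb_iff (rep_self b) (rep_dsum a b)]
  refine ⟨?_, ?_, ?_⟩
  · intro i j hij _
    omega
  · intro i hi
    omega
  · intro i j _ _
    rw [sv_right _ _ _ (by omega), sv_right _ _ _ (by omega)]
    simp only [Nat.add_sub_cancel_left]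
    omega

theorem exists_cut {n n' : ℕ} {v v' e : ℕ → ℕ} (h : REmb n v n' v' e) (c : ℕ) :
    ∃ p, p ≤ n ∧ (∀ i, i < p → e i < c) ∧ (∀ i, p ≤ i → i < n → c ≤ e i) := by
  have hex : ∃ p, n ≤ p ∨ c ≤ e p := ⟨n, Or.inl le_rfl⟩
  refine ⟨Nat.find hex, Nat.find_min' hex (Or.inl le_rfl), ?_, ?_⟩
  · intro i hi
    have := Nat.find_min hex hi
    omega
  · intro i hi hin
    have h1 := Nat.find_spec hex
    rcases Nat.eq_or_lt_of_le hi with h2 | h2
    · rw [h2] at h1
      omega
    · have := h.mono _ _ h2 hin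
      omega

theorem cut_lt {n : ℕ} {v e : ℕ → ℕ} {a' b' : P} (h : REmb n v (a'.1 + b'.1) (sv a' b') e)
    {i j : ℕ} (hi : i < n) (hj : j < n) (h1 : e i < a'.1) (h2 : a'.1 ≤ e j) : v i < v j := by
  rw [h.ord i j hi hj, sv_left _ _ _ h1, sv_right _ _ _ h2]
  have := val_lt a' _ h1
  omega

theorem split {z a' b' : P} (h : Le z (dsum a' b')) :
    ∃ a b, Le a a' ∧ Le b b' ∧ z = dsum a b := by
  rw [le_iff] at h
  obtain ⟨e, he⟩ := h
  rw [emb_iff (rep_self z) (rep_dsum a' b')] at he
  obtain ⟨p, hp, hp1, hp2⟩ := exists_cut he a'.1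
  have ra : Rep (mk p (val z)) p (val z) :=
    rep_mk _ _ (fun i j hi hj h => val_inj z i j (by omega) (by omega) h)
  have rb : Rep (mk (z.1 - p) (fun i => val z (p + i))) (z.1 - p) (fun i => val z (p + i)) :=
    rep_mk _ _ (fun i j hi hj h => by
      have := val_inj z (p + i) (p + j) (by omega) (by omega) h
      omega)
  refine ⟨mk p (val z), mk (z.1 - p) (fun i => val z (p + i)), ?_, ?_, ?_⟩
  · rw [le_iff]
    refine ⟨e, ?_⟩
    rw [emb_iff ra (rep_self a')]
    refine ⟨fun i j hij hj => he.mono i j hij (by omega), hp1, ?_⟩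
    intro i j hi hj
    rw [he.ord i j (by omega) (by omega), sv_left _ _ _ (hp1 i hi), sv_left _ _ _ (hp1 j hj)]
  · rw [le_iff]
    refine ⟨fun i => e (p + i) - a'.1, ?_⟩
    rw [emb_iff rb (rep_self b')]
    refine ⟨?_, ?_, ?_⟩
    · intro i j hij hj
      have := he.mono (p + i) (p + j) (by omega) (by omega)
      have := hp2 (p + i) (by omega) (by omega)
      omega
    · intro i hi
      have := he.bd (p + i) (by omega)
      have := hp2 (p + i) (by omega) (by omega)
      omega
    · intro i j hi hj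
      have h1 := hp2 (p + i) (by omega) (by omega)
      have h2 := hp2 (p + j) (by omega) (by omega)
      rw [he.ord (p + i) (p + j) (by omega) (by omega), sv_right _ _ _ h1, sv_right _ _ _ h2]
      omega
  · generalize mk p (val z) = a at ra
    generalize mk (z.1 - p) (fun i => val z (p + i)) = b at rb
    obtain ⟨ra1, ra2⟩ := ra
    obtain ⟨rb1, rb2⟩ := rb
    apply rep_unique _ (rep_dsum a b)
    refine ⟨by omega, ?_⟩
    intro i j hi hj
    by_cases hi1 : i < a.1 <;> by_cases hj1 : j < a.1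
    · rw [sv_left _ _ _ hi1, sv_left _ _ _ hj1, ra2 i j (by omega) (by omega)]
    · rw [sv_left _ _ _ hi1, sv_right _ _ _ (by omega)]
      have := val_lt a i hi1
      have := cut_lt he (i := i) (j := j) (by omega) (by omega) (hp1 i (by omega))
        (hp2 j (by omega) (by omega))
      omega
    · rw [sv_left _ _ _ hj1, sv_right _ _ _ (by omega)]
      have := val_lt a j hj1
      have := cut_lt he (i := j) (j := i) (by omega) (by omega) (hp1 j (by omega))
        (hp2 i (by omega) (by omega))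
      omega
    · rw [sv_right _ _ _ (by omega), sv_right _ _ _ (by omega)]
      have := rb2 (i - a.1) (j - a.1) (by omega) (by omega)
      have e1 : p + (i - a.1) = i := by omega
      have e2 : p + (j - a.1) = j := by omega
      simp only [e1, e2] at this
      omega

def Indec (a : P) : Prop := ∀ j, 0 < j → j < a.1 → val a j < val a 0

def Ind (s : ℕ) (b : P) : Prop :=
  ∀ p, 0 < p → p < s → p ≤ b.1 → ∃ i j, i < p ∧ p ≤ j ∧ j < b.1 ∧ val b j < val b i

theorem ind_dsum {s : ℕ} {a : P} (b : P) (ha : Indec a) (hs : s ≤ a.1) : Ind s (dsum a b) := by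
  intro p hp hps _
  obtain ⟨h1, h2⟩ := rep_dsum a b
  refine ⟨0, p, hp, le_rfl, by omega, ?_⟩
  rw [h2 p 0 (by omega) (by omega), sv_left _ _ _ (by omega), sv_left _ _ _ (by omega)]
  exact ha p hp (by omega)

theorem cut_cases {s : ℕ} {a b a' b' : P} {e : ℕ → ℕ} (ha : Indec a) (hs : s ≤ a.1) (hb : Ind s b)
    (ha' : a'.1 < 2 * s) (h : Emb (dsum a b) (dsum a' b') e) :
    Le (dsum a b) b' ∨ (Emb a a' e ∧ Emb b b' (fun i => e (a.1 + i) - a'.1) ∧
      ∀ i, i < b.1 → a'.1 ≤ e (a.1 + i)) := by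
  rw [emb_iff (rep_dsum a b) (rep_dsum a' b')] at h
  obtain ⟨p, hp, hp1, hp2⟩ := exists_cut h a'.1
  by_cases hp0 : p = 0
  · left
    rw [le_iff]
    refine ⟨fun i => e i - a'.1, ?_⟩
    rw [emb_iff (rep_dsum a b) (rep_self b')]
    refine ⟨?_, ?_, ?_⟩
    · intro i j hij hj
      have := h.mono i j hij hj
      have := hp2 i (by omega) (by omega)
      omega
    · intro i hi
      have := h.bd i hi
      have := hp2 i (by omega) (by omega)
      omega
    · intro i j hi hj
      rw [h.ord i j hi hj, sv_right a' b' _ (hp2 i (by omega) hi),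
        sv_right a' b' _ (hp2 j (by omega) hj)]
      omega
  · right
    have hpa : p = a.1 := by
      by_contra hne
      rcases Nat.lt_or_gt_of_ne hne with hlt | hgt
      · have h1 := cut_lt h (i := 0) (j := p) (by omega) (by omega) (hp1 0 (by omega))
          (hp2 p le_rfl (by omega))
        rw [sv_left _ _ _ (by omega), sv_left _ _ _ (by omega)] at h1
        have := ha p (by omega) hlt
        omega
      · have h1 := h.le_apply (p - 1) (by omega)
        have h2 := hp1 (p - 1) (by omega)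
        obtain ⟨i, j, hi, hj, hjb, hv⟩ := hb (p - a.1) (by omega) (by omega) (by omega)
        have h3 := cut_lt h (i := a.1 + i) (j := a.1 + j) (by omega) (by omega)
          (hp1 _ (by omega)) (hp2 _ (by omega) (by omega))
        rw [sv_right _ _ _ (by omega), sv_right _ _ _ (by omega)] at h3
        simp only [Nat.add_sub_cancel_left] at h3
        omega
    subst hpa
    refine ⟨⟨fun i j hij hj => h.mono i j hij (by omega), hp1, ?_⟩, ⟨?_, ?_, ?_⟩, ?_⟩
    · intro i j hi hj
      have := h.ord i j (by omega) (by omega)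
      rw [sv_left _ _ _ hi, sv_left _ _ _ hj, sv_left _ _ _ (hp1 i hi),
        sv_left _ _ _ (hp1 j hj)] at this
      exact this
    · intro i j hij hj
      have := h.mono (a.1 + i) (a.1 + j) (by omega) (by omega)
      have := hp2 (a.1 + i) (by omega) (by omega)
      omega
    · intro i hi
      have := h.bd (a.1 + i) (by omega)
      have := hp2 (a.1 + i) (by omega) (by omega)
      omega
    · intro i j hi hj
      have h1 := hp2 (a.1 + i) (by omega) (by omega)
      have h2 := hp2 (a.1 + j) (by omega) (by omega)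
      have := h.ord (a.1 + i) (a.1 + j) (by omega) (by omega)
      rw [sv_right _ _ _ (by omega), sv_right _ _ _ (by omega), sv_right _ _ _ h1,
        sv_right _ _ _ h2] at this
      simp only [Nat.add_sub_cancel_left] at this
      omega
    · intro i hi
      exact hp2 _ (by omega) (by omega)

noncomputable def pw (a : P) : ℕ → P
  | 0 => ⟨0, 1⟩
  | k + 1 => dsum a (pw a k)

def Uniq (x y : P) : Prop := ∀ e e', Emb x y e → Emb x y e' → ∀ i, i < x.1 → e i = e' i

structure Base (s t : P) : Prop where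
  le : Le s t
  pos : 0 < s.1
  small : t.1 < 2 * s.1
  indec : ∀ a, Le s a → Le a t → Indec a
  uniq : Uniq s t

section
variable {s t : P} (B : Base s t)
include B

theorem Base.ind_pw (k : ℕ) : Ind s.1 (pw s k) := by
  cases k with
  | zero =>
    intro p hp _ h
    simp only [pw] at h
    omega
  | succ k => exact ind_dsum _ (B.indec s (Le.refl s) B.le) le_rfl

theorem Base.not_le (k : ℕ) : ¬ Le (pw s (k + 1)) (pw t k) := by
  induction k with
  | zero =>
    intro h
    have h1 := h.size_le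
    have h2 := B.pos
    simp only [pw, dsum_size] at h1
    omega
  | succ k ih =>
    intro h
    rw [le_iff] at h
    obtain ⟨e, he⟩ := h
    rcases cut_cases (B.indec s (Le.refl s) B.le) le_rfl (B.ind_pw (k + 1)) B.small he with h | h
    · exact ih ((le_dsum_right _ _).trans h)
    · exact ih ((le_iff _ _).mpr ⟨_, h.2.1⟩)

theorem Base.cancel (k : ℕ) {a b a' b' : P} {e : ℕ → ℕ} (ha : Le s a) (hat : Le a t)
    (hb : Le (pw s k) b) (hbi : Ind s.1 b) (ha' : Le a' t) (hb' : Le b' (pw t k))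
    (h : Emb (dsum a b) (dsum a' b') e) :
    Emb a a' e ∧ Emb b b' (fun i => e (a.1 + i) - a'.1) ∧ ∀ i, i < b.1 → a'.1 ≤ e (a.1 + i) := by
  have h1 := ha'.size_le
  have h2 := B.small
  rcases cut_cases (B.indec a ha hat) ha.size_le hbi (by omega) h with h | h
  · exact absurd (((le_dsum ha hb).trans h).trans hb') (B.not_le k)
  · exact h

theorem Base.decomp (k : ℕ) {z a' b' : P} (ha' : Le a' t) (hb' : Le b' (pw t k))
    (h1 : Le (pw s (k + 1)) z) (h2 : Le z (dsum a' b')) :
    ∃ a b, Le s a ∧ Le a a' ∧ Le (pw s k) b ∧ Le b b' ∧ z = dsum a b := by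
  obtain ⟨a, b, ha, hb, rfl⟩ := split h2
  rw [le_iff] at h1
  obtain ⟨e, he⟩ := h1
  have := B.cancel k (Le.refl s) B.le (Le.refl _) (B.ind_pw k) (ha.trans ha') (hb.trans hb') he
  exact ⟨a, b, (le_iff _ _).mpr ⟨_, this.1⟩, ha, (le_iff _ _).mpr ⟨_, this.2.1⟩, hb, rfl⟩

theorem Base.ind_mem (k : ℕ) {b : P} (h1 : Le (pw s k) b) (h2 : Le b (pw t k)) : Ind s.1 b := by
  cases k with
  | zero =>
    intro p hp _ h
    have := h2.size_le
    simp only [pw] at this
    omega
  | succ k =>
    obtain ⟨a, c, ha, hat, _, _, rfl⟩ := B.decomp k (Le.refl t) (Le.refl _) h1 h2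
    exact ind_dsum _ (B.indec a ha hat) ha.size_le

theorem Base.le_pw (k : ℕ) : Le (pw s k) (pw t k) := by
  induction k with
  | zero => exact Le.refl _
  | succ k ih => exact le_dsum B.le ih

theorem Base.uniq_pw (k : ℕ) : Uniq (pw s k) (pw t k) := by
  induction k with
  | zero =>
    intro e e' _ _ i hi
    simp only [pw] at hi
    omega
  | succ k ih =>
    intro e e' he he' i hi
    have h1 := B.cancel k (Le.refl s) B.le (Le.refl _) (B.ind_pw k) (Le.refl t) (Le.refl _) he
    have h2 := B.cancel k (Le.refl s) B.le (Le.refl _) (B.ind_pw k) (Le.refl t) (Le.refl _) he'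
    by_cases his : i < s.1
    · exact B.uniq e e' h1.1 h2.1 i his
    · simp only [pw, dsum_size] at hi
      have h3 := ih _ _ h1.2.1 h2.2.1 (i - s.1) (by omega)
      have h4 := h1.2.2 (i - s.1) (by omega)
      have h5 := h2.2.2 (i - s.1) (by omega)
      have e1 : s.1 + (i - s.1) = i := by omega
      simp only [e1] at h3 h4 h5
      omega

theorem Base.dsum_inj (k : ℕ) {a b a' b' : P} (ha : Le s a) (hat : Le a t)
    (hb : Le (pw s k) b) (hbt : Le b (pw t k)) (ha' : Le a' t) (hb' : Le b' (pw t k))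
    (h : dsum a b = dsum a' b') : a = a' ∧ b = b' := by
  have h0 : Le (dsum a b) (dsum a' b') := h ▸ Le.refl _
  rw [le_iff] at h0
  obtain ⟨e, he⟩ := h0
  have h1 := B.cancel k ha hat hb (B.ind_mem k hb hbt) ha' hb' he
  have h2 : Le a a' := (le_iff _ _).mpr ⟨_, h1.1⟩
  have h3 : Le b b' := (le_iff _ _).mpr ⟨_, h1.2.1⟩
  have h4 := h2.size_le
  have h5 := h3.size_le
  have h6 : a.1 + b.1 = a'.1 + b'.1 := by rw [← dsum_size, ← dsum_size, h]
  exact ⟨h2.eq_of_size (by omega), h3.eq_of_size (by omega)⟩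

theorem Base.sum_Icc (k : ℕ) {a b : P} (hat : Le a t) (hbt : Le b (pw t k)) (g : P → ℤ) :
    ∑ z ∈ Icc (pw s (k + 1)) (dsum a b), g z =
      ∑ p ∈ Icc s a ×ˢ Icc (pw s k) b, g (dsum p.1 p.2) := by
  symm
  apply Finset.sum_bij (fun p _ => dsum p.1 p.2)
  · intro p hp
    rw [Finset.mem_product, mem_Icc, mem_Icc] at hp
    rw [mem_Icc]
    exact ⟨le_dsum hp.1.1 hp.2.1, le_dsum hp.1.2 hp.2.2⟩
  · intro p hp q hq h
    rw [Finset.mem_product, mem_Icc, mem_Icc] at hp hq
    have := B.dsum_inj k hp.1.1 (hp.1.2.trans hat) hp.2.1 (hp.2.2.trans hbt) (hq.1.2.trans hat)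
      (hq.2.2.trans hbt) h
    exact Prod.ext this.1 this.2
  · intro z hz
    rw [mem_Icc] at hz
    obtain ⟨a1, b1, h1, h2, h3, h4, rfl⟩ := B.decomp k hat hbt hz.1 hz.2
    exact ⟨(a1, b1), by
      rw [Finset.mem_product, mem_Icc, mem_Icc]
      exact ⟨⟨h1, h2⟩, ⟨h3, h4⟩⟩, rfl⟩
  · intro p _
    rfl

theorem Base.mob_dsum (k : ℕ) : ∀ (n : ℕ) (a b : P), a.1 + b.1 = n → Le s a → Le a t →
    Le (pw s k) b → Le b (pw t k) →
    mob (pw s (k + 1)) (dsum a b) = mob s a * mob (pw s k) b := by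
  intro n
  induction n using Nat.strong_induction_on with
  | _ n ih =>
    intro a b hn ha hat hb hbt
    have h1 := sum_mob (pw s (k + 1)) (dsum a b) (le_dsum ha hb)
    rw [B.sum_Icc k hat hbt] at h1
    have h2 : ∑ p ∈ Icc s a ×ˢ Icc (pw s k) b, mob s p.1 * mob (pw s k) p.2 =
        (if s = a then 1 else 0) * (if pw s k = b then 1 else 0) := by
      rw [← sum_mob s a ha, ← sum_mob _ b hb, Finset.sum_mul_sum, Finset.sum_product]
    have h3 : (if pw s (k + 1) = dsum a b then (1 : ℤ) else 0) =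
        (if s = a then 1 else 0) * (if pw s k = b then 1 else 0) := by
      by_cases h : pw s (k + 1) = dsum a b
      · have := B.dsum_inj k (Le.refl s) B.le (Le.refl _) (B.le_pw k) hat hbt h
        rw [if_pos h, if_pos this.1, if_pos this.2]
        norm_num
      · rw [if_neg h]
        by_cases h4 : s = a
        · by_cases h5 : pw s k = b
          · exfalso
            apply h
            rw [← h4, ← h5]
            rfl
          · simp [h5]
        · simp [h4]
    have h4 : ∑ p ∈ Icc s a ×ˢ Icc (pw s k) b,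
        (mob (pw s (k + 1)) (dsum p.1 p.2) - mob s p.1 * mob (pw s k) p.2) = 0 := by
      rw [Finset.sum_sub_distrib, h1, h2, h3, sub_self]
    rw [Finset.sum_eq_single (a, b)] at h4
    · linarith
    · intro p hp hne
      rw [Finset.mem_product, mem_Icc, mem_Icc] at hp
      have h5 := hp.1.2.size_le
      have h6 := hp.2.2.size_le
      have h7 : p.1.1 + p.2.1 < n := by
        by_contra hc
        exact hne (Prod.ext (hp.1.2.eq_of_size (by omega)) (hp.2.2.eq_of_size (by omega)))
      rw [ih _ h7 p.1 p.2 rfl hp.1.1 (hp.1.2.trans hat) hp.2.1 (hp.2.2.trans hbt), sub_self]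
    · intro hn
      exfalso
      apply hn
      rw [Finset.mem_product, mem_Icc, mem_Icc]
      exact ⟨⟨ha, Le.refl _⟩, ⟨hb, Le.refl _⟩⟩

theorem Base.mob_pw (k : ℕ) : mob (pw s k) (pw t k) = mob s t ^ k := by
  induction k with
  | zero =>
    rw [pow_zero]
    exact mob_self (⟨0, 1⟩ : P)
  | succ k ih =>
    have := B.mob_dsum k _ t (pw t k) rfl B.le (Le.refl t) (B.le_pw k) (Le.refl _)
    rw [ih] at this
    rw [pow_succ']
    exact this

end

end Pool.Agent.Lib.helper15.PermMob
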