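import Mathlib

set_option autoImplicit false

namespace Pool.Agent.Lib.helper15.PosA

section abs
variable {X Y W Z : Type*} [NormedAddCommGroup X] [NormedSpace ℝ X] [CompleteSpace X]
  [NormedAddCommGroup Y] [NormedSpace ℝ Y]
  [NormedAddCommGroup W] [NormedSpace ℝ W]
  [NormedAddCommGroup Z] [NormedSpace ℝ Z]

lemma neumann (B : X ≃L[ℝ] Z) (N : X →L[ℝ] Z) (M : X →L[ℝ] X) (hM : ∀ x, B (M x) = N x)
    (h : ‖M‖ < 1) : ∃ T : X ≃L[ℝ] Z, ∀ x, T x = B x + N x := by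
  have h' : ‖-M‖ < 1 := by simpa using h
  let u : (X →L[ℝ] X)ˣ := Units.oneSub (-M) h'
  refine ⟨(ContinuousLinearEquiv.ofUnit u).trans B, fun x => ?_⟩
  have e : (ContinuousLinearEquiv.ofUnit u) x = x + M x := by
    show ((1 - (-M) : X →L[ℝ] X)) x = _
    simp
  simp [e, hM]

omit [CompleteSpace X] in
lemma small (M : X →L[ℝ] X) : ∃ l : ℝ, 0 < l ∧ ‖l⁻¹ • M‖ < 1 := by
  refine ⟨‖M‖ + 1, by positivity, ?_⟩
  have : 0 < ‖M‖ + 1 := by positivity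
  rw [norm_smul, Real.norm_eq_abs, abs_of_pos (inv_pos.2 this), inv_mul_lt_iff₀ this]
  linarith

lemma out (α : X →L[ℝ] W) (β : W →L[ℝ] X) (hαβ : ∀ w, α (β w) = w) (κ : (Y × W) ≃L[ℝ] W) :
    ∃ l : ℝ, 0 < l ∧ ∃ T : X ≃L[ℝ] (Y × X), ∀ f,
      T f = ((κ.symm (α f)).1, f + l • β (κ.symm (α f)).2) := by
  let M0 : X →L[ℝ] X := β ∘L (κ : (Y × W) →L[ℝ] W) ∘L (ContinuousLinearMap.inr ℝ Y W) ∘L α
  obtain ⟨l, hl, hM⟩ := small M0
  let k' : X →L[ℝ] (Y × W) := (κ.symm : W →L[ℝ] (Y × W)) ∘L α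
  let B1 : X →L[ℝ] (Y × X) := ((ContinuousLinearMap.fst ℝ Y W) ∘L k').prod
    (ContinuousLinearMap.id ℝ X - β ∘L α + l • (β ∘L (ContinuousLinearMap.snd ℝ Y W) ∘L k'))
  let B2 : (Y × X) →L[ℝ] X := β ∘L (κ : (Y × W) →L[ℝ] W) ∘L
      ((ContinuousLinearMap.id ℝ Y).prodMap (l⁻¹ • α)) + (ContinuousLinearMap.snd ℝ Y X)
      - β ∘L α ∘L (ContinuousLinearMap.snd ℝ Y X)
  have hB1 : ∀ f, B1 f = ((κ.symm (α f)).1, f - β (α f) + l • β (κ.symm (α f)).2) := fun f => rfl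
  have hB2 : ∀ y g, B2 (y, g) = β (κ (y, l⁻¹ • α g)) + g - β (α g) := fun y g => rfl
  have h12 : Function.LeftInverse B2 B1 := by
    intro f
    rw [hB1, hB2]
    have : α (f - β (α f) + l • β (κ.symm (α f)).2) = l • (κ.symm (α f)).2 := by
      simp [hαβ]
    rw [this, smul_smul, inv_mul_cancel₀ hl.ne', one_smul]
    simp
    abel
  have h21 : Function.RightInverse B2 B1 := by
    rintro ⟨y, g⟩
    rw [hB2, hB1]
    have : α (β (κ (y, l⁻¹ • α g)) + g - β (α g)) = κ (y, l⁻¹ • α g) := by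
      simp [hαβ]
    rw [this]
    simp only [ContinuousLinearEquiv.symm_apply_apply, map_smul, smul_smul,
      mul_inv_cancel₀ hl.ne', one_smul]
    congr 1
    abel
  let B : X ≃L[ℝ] (Y × X) := ContinuousLinearEquiv.equivOfInverse B1 B2 h12 h21
  let N : X →L[ℝ] (Y × X) := (ContinuousLinearMap.inr ℝ Y X) ∘L β ∘L α
  obtain ⟨T, hT⟩ := neumann B N (l⁻¹ • M0) (by
    intro x
    show B1 (l⁻¹ • β (κ (0, α x))) = (0, β (α x))
    rw [hB1]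
    have e0 : κ (0, l⁻¹ • α x) = l⁻¹ • κ (0, α x) := by
      rw [← map_smul κ]; simp
    have : α (l⁻¹ • β (κ (0, α x))) = κ (0, l⁻¹ • α x) := by
      rw [map_smul, hαβ, e0]
    rw [this]
    simp only [ContinuousLinearEquiv.symm_apply_apply, map_smul, smul_smul,
      mul_inv_cancel₀ hl.ne', one_smul]
    have e : β (κ (0, l⁻¹ • α x)) = l⁻¹ • β (κ (0, α x)) := by
      rw [e0, map_smul]
    rw [e]; simp) hM
  refine ⟨l, hl, T, fun f => ?_⟩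
  rw [hT]
  show B1 f + (0, β (α f)) = _
  rw [hB1]
  ext <;> simp
  abel

lemma inn [CompleteSpace Y] (α : X →L[ℝ] W) (β : W →L[ℝ] X) (hαβ : ∀ w, α (β w) = w)
    (κ : (Y × W) ≃L[ℝ] W) :
    ∃ l : ℝ, 0 < l ∧ ∃ T : (Y × X) ≃L[ℝ] X, ∀ y f,
      T (y, f) = f + l • β (κ (y, α f)) := by
  let M0 : (Y × X) →L[ℝ] (Y × X) := ((ContinuousLinearMap.id ℝ Y).prodMap β) ∘L
    (κ.symm : W →L[ℝ] (Y × W)) ∘L α ∘L (ContinuousLinearMap.snd ℝ Y X)
  obtain ⟨l, hl, hM⟩ := small M0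
  let B1 : (Y × X) →L[ℝ] X := (ContinuousLinearMap.snd ℝ Y X)
      - β ∘L α ∘L (ContinuousLinearMap.snd ℝ Y X) + l • (β ∘L (κ : (Y × W) →L[ℝ] W) ∘L
      ((ContinuousLinearMap.id ℝ Y).prodMap α))
  let B2 : X →L[ℝ] (Y × X) := l⁻¹ • (((ContinuousLinearMap.id ℝ Y).prodMap β) ∘L
    (κ.symm : W →L[ℝ] (Y × W)) ∘L α) + (ContinuousLinearMap.inr ℝ Y X) ∘L
      (ContinuousLinearMap.id ℝ X - β ∘L α)
  have hB1 : ∀ y f, B1 (y, f) = f - β (α f) + l • β (κ (y, α f)) := fun y f => rfl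
  have hB2 : ∀ g, B2 g = (l⁻¹ • (κ.symm (α g)).1, l⁻¹ • β (κ.symm (α g)).2 + (g - β (α g))) := by
    intro g
    show l⁻¹ • ((κ.symm (α g)).1, β (κ.symm (α g)).2) + (0, g - β (α g)) = _
    simp
  have h12 : Function.LeftInverse B2 B1 := by
    rintro ⟨y, f⟩
    rw [hB1, hB2]
    have : α (f - β (α f) + l • β (κ (y, α f))) = l • κ (y, α f) := by
      simp [hαβ]
    rw [this]
    simp only [map_smul, ContinuousLinearEquiv.symm_apply_apply, Prod.smul_fst, Prod.smul_snd,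
      smul_smul, inv_mul_cancel₀ hl.ne', one_smul]
    congr 1
    abel
  have key : ∀ (c : ℝ) (w : W), κ (c • (κ.symm w).1, c • (κ.symm w).2) = c • w := by
    intro c w
    have : (c • (κ.symm w).1, c • (κ.symm w).2) = c • κ.symm w := rfl
    rw [this, map_smul]; simp
  have h21 : Function.RightInverse B2 B1 := by
    intro g
    rw [hB2, hB1]
    have : α (l⁻¹ • β (κ.symm (α g)).2 + (g - β (α g))) = l⁻¹ • (κ.symm (α g)).2 := by
      simp [hαβ]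
    rw [this, key]
    simp only [map_smul, smul_smul, mul_inv_cancel₀ hl.ne', one_smul]
    abel
  let B : (Y × X) ≃L[ℝ] X := ContinuousLinearEquiv.equivOfInverse B1 B2 h12 h21
  let N : (Y × X) →L[ℝ] X := β ∘L α ∘L (ContinuousLinearMap.snd ℝ Y X)
  obtain ⟨T, hT⟩ := neumann B N (l⁻¹ • M0) (by
    rintro ⟨y, x⟩
    show B1 (l⁻¹ • (κ.symm (α x)).1, l⁻¹ • β (κ.symm (α x)).2) = β (α x)
    rw [hB1]
    have : α (l⁻¹ • β (κ.symm (α x)).2) = l⁻¹ • (κ.symm (α x)).2 := by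
      simp [hαβ]
    rw [this, key]
    simp only [map_smul, smul_smul, mul_inv_cancel₀ hl.ne', one_smul]
    abel) hM
  refine ⟨l, hl, T, fun y f => ?_⟩
  rw [hT]
  show B1 (y, f) + β (α f) = _
  rw [hB1]
  abel

end abs

section ck
variable {A B Z : Type*} [TopologicalSpace A] [TopologicalSpace B] [TopologicalSpace Z]
  [CompactSpace A] [CompactSpace B] [CompactSpace Z]

/-- composition operator -/
noncomputable def cmp (a : C(A, Z)) : C(Z, ℝ) →L[ℝ] C(A, ℝ) :=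
  LinearMap.mkContinuous
    { toFun := fun F => F.comp a
      map_add' := fun _ _ => rfl
      map_smul' := fun _ _ => rfl } 1 (fun F => by
        rw [one_mul]
        exact (ContinuousMap.norm_le _ (norm_nonneg F)).2 fun x => F.norm_coe_le_norm _)

@[simp] lemma cmp_apply (a : C(A, Z)) (F : C(Z, ℝ)) (x : A) : cmp a F x = F (a x) := rfl

lemma split [T2Space Z] (a : C(A, Z)) (b : C(B, Z))
    (bij : Function.Bijective (Sum.elim a b)) :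
    ∃ κ : (C(A, ℝ) × C(B, ℝ)) ≃L[ℝ] C(Z, ℝ), (∀ F, κ.symm F = (cmp a F, cmp b F)) ∧
      ∀ f g, (∀ x, 0 ≤ f x) → (∀ x, 0 ≤ g x) → ∀ z, 0 ≤ κ (f, g) z := by
  let e : (A ⊕ B) ≃ Z := Equiv.ofBijective _ bij
  have he : Continuous e := a.continuous.sumElim b.continuous
  let h : (A ⊕ B) ≃ₜ Z := he.homeoOfEquivCompactToT2
  let k : C(Z, ℝ) →L[ℝ] (C(A, ℝ) × C(B, ℝ)) := (cmp a).prod (cmp b)
  have hk : ∀ F, k F = (cmp a F, cmp b F) := fun F => rfl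
  have hinj : k.ker = ⊥ := by
    rw [LinearMap.ker_eq_bot']
    intro F hF
    have hF : k F = 0 := hF
    rw [hk] at hF
    ext z
    obtain ⟨x | x, rfl⟩ := bij.2 z
    · exact congrArg (fun p : C(A, ℝ) × C(B, ℝ) => p.1 x) hF
    · exact congrArg (fun p : C(A, ℝ) × C(B, ℝ) => p.2 x) hF
  have hsurj : k.range = ⊤ := by
    rw [LinearMap.range_eq_top]
    rintro ⟨f, g⟩
    refine ⟨⟨fun z => Sum.elim f g (h.symm z),
      (f.continuous.sumElim g.continuous).comp h.symm.continuous⟩, ?_⟩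
    show k _ = _
    rw [hk]
    have h1 : ∀ x, h.symm (a x) = Sum.inl x := fun x => h.symm_apply_eq.2 rfl
    have h2 : ∀ x, h.symm (b x) = Sum.inr x := fun x => h.symm_apply_eq.2 rfl
    ext x <;> simp [h1, h2]
  let κ := (ContinuousLinearEquiv.ofBijective k hinj hsurj).symm
  have hκ : ∀ F, κ.symm F = (cmp a F, cmp b F) := fun F => rfl
  refine ⟨κ, hκ, fun f g hf hg z => ?_⟩
  have := hκ (κ (f, g))
  rw [κ.symm_apply_apply] at this
  obtain ⟨x | x, rfl⟩ := bij.2 z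
  · have h1 := congrArg (fun p : C(A, ℝ) × C(B, ℝ) => p.1 x) this
    simp only [cmp_apply] at h1
    show 0 ≤ κ (f, g) (a x)
    rw [← h1]; exact hf x
  · have h1 := congrArg (fun p : C(A, ℝ) × C(B, ℝ) => p.2 x) this
    simp only [cmp_apply] at h1
    show 0 ≤ κ (f, g) (b x)
    rw [← h1]; exact hg x

/-- positivity -/
def Pos (T : C(A, ℝ) → C(B, ℝ)) : Prop := ∀ f : C(A, ℝ), (∀ x, 0 ≤ f x) → ∀ y, 0 ≤ T f y

variable {X Y L : Type*} [TopologicalSpace X] [TopologicalSpace Y] [TopologicalSpace L]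
  [CompactSpace X] [CompactSpace Y] [CompactSpace L]

/-- C(X) maps positively onto C(Y) x C(X) -/
lemma out' [T2Space L] (α : C(X, ℝ) →L[ℝ] C(L, ℝ)) (β : C(L, ℝ) →L[ℝ] C(X, ℝ)) (hαβ : ∀ w, α (β w) = w)
    (hα : Pos α) (hβ : Pos β) (a : C(Y, L)) (b : C(L, L))
    (bij : Function.Bijective (Sum.elim a b)) :
    ∃ T : C(X, ℝ) ≃L[ℝ] (C(Y, ℝ) × C(X, ℝ)), ∀ f : C(X, ℝ), (∀ x, 0 ≤ f x) →
      (∀ y, 0 ≤ (T f).1 y) ∧ ∀ y, 0 ≤ (T f).2 y := by
  obtain ⟨κ, hκ, -⟩ := split a b bij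
  obtain ⟨l, hl, T, hT⟩ := out α β hαβ κ
  refine ⟨T, fun f hf => ?_⟩
  rw [hT, hκ]
  refine ⟨fun y => hα f hf _, fun y => ?_⟩
  have h1 := hβ (cmp b (α f)) (fun x => hα f hf _) y
  have h2 := hf y
  show 0 ≤ f y + l * β (cmp b (α f)) y
  positivity

lemma inn' [T2Space L] (α : C(X, ℝ) →L[ℝ] C(L, ℝ)) (β : C(L, ℝ) →L[ℝ] C(X, ℝ)) (hαβ : ∀ w, α (β w) = w)
    (hα : Pos α) (hβ : Pos β) (a : C(Y, L)) (b : C(L, L))
    (bij : Function.Bijective (Sum.elim a b)) :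
    ∃ T : (C(Y, ℝ) × C(X, ℝ)) ≃L[ℝ] C(X, ℝ), ∀ (g : C(Y, ℝ)) (f : C(X, ℝ)), (∀ x, 0 ≤ g x) →
      (∀ x, 0 ≤ f x) → ∀ y, 0 ≤ T (g, f) y := by
  obtain ⟨κ, -, hκ⟩ := split a b bij
  obtain ⟨l, hl, T, hT⟩ := inn α β hαβ κ
  refine ⟨T, fun g f hg hf y => ?_⟩
  rw [hT]
  have h1 := hβ _ (hκ g (α f) hg (hα f hf)) y
  have h2 := hf y
  show 0 ≤ f y + l * β (κ (g, α f)) y
  positivity

end ck

end Pool.Agent.Lib.helper15.PosA
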