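import Pool.Agent.Lib.helper15.PosA

set_option autoImplicit false

open Filter Topology

namespace Pool.Agent.Lib.helper15.PosB
open Pool.Agent.Lib.helper15.PosA

abbrev K := ℕ → Bool
abbrev I := unitInterval

def cons (i : Bool) : C(K, K) :=
  ⟨fun ω n => match n with | 0 => i | n + 1 => ω n, continuous_pi fun n => by
    cases n with
    | zero => exact continuous_const
    | succ n => exact continuous_apply n⟩

@[simp] lemma cons_zero (i : Bool) (ω : K) : cons i ω 0 = i := rfl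
@[simp] lemma cons_succ (i : Bool) (ω : K) (n : ℕ) : cons i ω (n + 1) = ω n := rfl

def tl (ω : K) : K := fun n => ω (n + 1)

lemma cons_tl (ω : K) : cons (ω 0) (tl ω) = ω := by
  funext n; cases n <;> rfl

noncomputable def clamp : C(ℝ, I) := ⟨Set.projIcc 0 1 zero_le_one, continuous_projIcc⟩

lemma clamp_eq {x : ℝ} (h0 : 0 ≤ x) (h1 : x ≤ 1) : (clamp x : ℝ) = x := by
  show ((Set.projIcc 0 1 zero_le_one x : I) : ℝ) = x
  rw [Set.projIcc_of_mem zero_le_one ⟨h0, h1⟩]

noncomputable def p : C(I, ℝ) := ⟨fun t => clamp (3 * (t : ℝ) - 1), by fun_prop⟩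

lemma p_nonneg (t : I) : 0 ≤ p t := (clamp _).2.1
lemma p_le (t : I) : p t ≤ 1 := (clamp _).2.2
lemma p_zero (t : I) (h : (t : ℝ) ≤ 1 / 3) : p t = 0 := by
  show ((Set.projIcc 0 1 zero_le_one (3 * (t : ℝ) - 1) : I) : ℝ) = 0
  rw [Set.projIcc_of_le_left _ (by linarith)]
lemma p_one (t : I) (h : 2 / 3 ≤ (t : ℝ)) : p t = 1 := by
  show ((Set.projIcc 0 1 zero_le_one (3 * (t : ℝ) - 1) : I) : ℝ) = 1
  rw [Set.projIcc_of_right_le _ (by linarith)]

section
variable (v : Bool → C(I, I))

noncomputable def u : ℕ → C(K, ℝ) → C(I, ℝ)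
  | 0, f => ContinuousMap.const I (f fun _ => false)
  | n + 1, f => (1 - p) * (u n (f.comp (cons false))).comp (v false)
      + p * (u n (f.comp (cons true))).comp (v true)

lemma u_succ (n : ℕ) (f : C(K, ℝ)) (t : I) : u v (n + 1) f t =
    (1 - p t) * u v n (f.comp (cons false)) (v false t)
      + p t * u v n (f.comp (cons true)) (v true t) := rfl

lemma u_add (n : ℕ) : ∀ f g : C(K, ℝ), u v n (f + g) = u v n f + u v n g := by
  induction n with
  | zero => intro f g; rfl
  | succ n ih =>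
    intro f g
    ext t
    simp only [ContinuousMap.add_apply, u_succ, ContinuousMap.add_comp, ih]
    ring

lemma u_smul (n : ℕ) (c : ℝ) : ∀ f : C(K, ℝ), u v n (c • f) = c • u v n f := by
  induction n with
  | zero => intro f; rfl
  | succ n ih =>
    intro f
    ext t
    simp only [ContinuousMap.smul_apply, u_succ, ContinuousMap.smul_comp, ih, smul_eq_mul]
    ring

lemma u_le (n : ℕ) (b : ℝ) : ∀ f : C(K, ℝ), (∀ ω, f ω ≤ b) → ∀ t, u v n f t ≤ b := by
  induction n with
  | zero => intro f h t; exact h _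
  | succ n ih =>
    intro f h t
    rw [u_succ]
    have h0 := ih (f.comp (cons false)) (fun ω => h _) (v false t)
    have h1 := ih (f.comp (cons true)) (fun ω => h _) (v true t)
    have := p_nonneg t
    have := p_le t
    nlinarith

lemma le_u (n : ℕ) (b : ℝ) : ∀ f : C(K, ℝ), (∀ ω, b ≤ f ω) → ∀ t, b ≤ u v n f t := by
  induction n with
  | zero => intro f h t; exact h _
  | succ n ih =>
    intro f h t
    rw [u_succ]
    have h0 := ih (f.comp (cons false)) (fun ω => h _) (v false t)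
    have h1 := ih (f.comp (cons true)) (fun ω => h _) (v true t)
    have := p_nonneg t
    have := p_le t
    nlinarith

def Osc (n : ℕ) (ε : ℝ) (f : C(K, ℝ)) : Prop :=
  ∀ ω ω' : K, (∀ i < n, ω i = ω' i) → f ω - f ω' ≤ ε

lemma Osc.cons {n : ℕ} {ε : ℝ} {f : C(K, ℝ)} (h : Osc (n + 1) ε f) (i : Bool) :
    Osc n ε (f.comp (cons i)) := by
  intro ω ω' hω
  apply h
  intro j hj
  cases j with
  | zero => rfl
  | succ j => exact hω j (by omega)

lemma exists_osc (f : C(K, ℝ)) {ε : ℝ} (hε : 0 < ε) : ∃ n, Osc n ε f := by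
  have hu : UniformContinuous f := CompactSpace.uniformContinuous_of_continuous f.continuous
  have h1 : {q : K × K | dist (f q.1) (f q.2) < ε} ∈ uniformity K :=
    hu (Metric.dist_mem_uniformity hε)
  rw [Pi.uniformity, Filter.mem_iInf] at h1
  obtain ⟨S, hS, V, hV, hVe⟩ := h1
  obtain ⟨N, hN⟩ := hS.bddAbove
  refine ⟨N + 1, fun ω ω' hω => ?_⟩
  have : (ω, ω') ∈ {q : K × K | dist (f q.1) (f q.2) < ε} := by
    rw [hVe, Set.mem_iInter]
    intro i
    obtain ⟨t, ht, hsub⟩ := Filter.mem_comap.1 (hV i)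
    apply hsub
    have hi : (i : ℕ) < N + 1 := Nat.lt_succ_of_le (hN i.2)
    show (ω i, ω' i) ∈ t
    rw [hω i hi]
    exact refl_mem_uniformity ht
  have h2 : dist (f ω) (f ω') < ε := this
  rw [Real.dist_eq] at h2
  exact (le_abs_self _).trans h2.le

lemma u_close (n : ℕ) (ε : ℝ) : ∀ f : C(K, ℝ), Osc n ε f → ∀ m m', n ≤ m → n ≤ m' → ∀ t,
    u v m f t - u v m' f t ≤ ε := by
  induction n with
  | zero =>
    intro f h m m' _ _ t
    have h1 : ∀ ω', u v m f t - ε ≤ f ω' := fun ω' => by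
      have := u_le v m (f ω' + ε) f (fun ω => by
        have := h ω ω' (by simp); linarith) t
      linarith
    have := le_u v m' _ f h1 t
    linarith
  | succ n ih =>
    intro f h m m' hm hm' t
    obtain ⟨m, rfl⟩ : ∃ k, m = k + 1 := ⟨m - 1, by omega⟩
    obtain ⟨m', rfl⟩ : ∃ k, m' = k + 1 := ⟨m' - 1, by omega⟩
    rw [u_succ, u_succ]
    have h0 := ih _ (h.cons false) m m' (by omega) (by omega) (v false t)
    have h1 := ih _ (h.cons true) m m' (by omega) (by omega) (v true t)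
    have := p_nonneg t
    have := p_le t
    nlinarith

lemma u_cauchy (f : C(K, ℝ)) : CauchySeq fun n => u v n f := by
  rw [Metric.cauchySeq_iff]
  intro ε hε
  obtain ⟨n, hn⟩ := exists_osc f (half_pos hε)
  refine ⟨n, fun m hm m' hm' => ?_⟩
  refine lt_of_le_of_lt ?_ (half_lt_self hε)
  rw [ContinuousMap.dist_le (half_pos hε).le]
  intro t
  rw [Real.dist_eq, abs_le]
  have h1 := u_close v n _ f hn m m' hm hm' t
  have h2 := u_close v n _ f hn m' m hm' hm t
  constructor <;> linarith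

noncomputable def U0 (f : C(K, ℝ)) : C(I, ℝ) := limUnder atTop fun n => u v n f

lemma U0_tend (f : C(K, ℝ)) : Tendsto (fun n => u v n f) atTop (𝓝 (U0 v f)) :=
  (u_cauchy v f).tendsto_limUnder

lemma U0_pt (f : C(K, ℝ)) (t : I) : Tendsto (fun n => u v n f t) atTop (𝓝 (U0 v f t)) :=
  ((continuous_eval_const t).tendsto _).comp (U0_tend v f)

noncomputable def U : C(K, ℝ) →L[ℝ] C(I, ℝ) :=
  LinearMap.mkContinuous
    { toFun := U0 v
      map_add' := fun f g => tendsto_nhds_unique (U0_tend v (f + g)) (by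
        simp only [u_add]; exact (U0_tend v f).add (U0_tend v g))
      map_smul' := fun c f => tendsto_nhds_unique (U0_tend v (c • f)) (by
        simp only [u_smul]; exact (U0_tend v f).const_smul c) } 1 (fun f => by
      rw [one_mul]
      refine (ContinuousMap.norm_le _ (norm_nonneg f)).2 fun t => ?_
      show ‖U0 v f t‖ ≤ _
      rw [Real.norm_eq_abs, abs_le]
      have hb : ∀ ω, |f ω| ≤ ‖f‖ := fun ω => f.norm_coe_le_norm ω
      exact ⟨ge_of_tendsto' (U0_pt v f t) fun n => le_u v n _ f (fun ω => (abs_le.1 (hb ω)).1) t,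
        le_of_tendsto' (U0_pt v f t) fun n => u_le v n _ f (fun ω => (abs_le.1 (hb ω)).2) t⟩)

lemma U_pt (f : C(K, ℝ)) (t : I) : Tendsto (fun n => u v n f t) atTop (𝓝 (U v f t)) :=
  U0_pt v f t

lemma U_pos : Pos (U v) := fun f hf t =>
  ge_of_tendsto' (U_pt v f t) fun n => le_u v n _ f hf t

end

section
variable {s : ℝ} (h0 : 0 < s) (h1 : s < 1)
include h0 h1

lemma cf_bound (ω : K) : 0 ≤ (1 - s) * Cardinal.cantorFunction s ω ∧
    (1 - s) * Cardinal.cantorFunction s ω ≤ 1 := by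
  have hs : 0 < 1 - s := by linarith
  constructor
  · exact mul_nonneg hs.le (tsum_nonneg fun n => Cardinal.cantorFunctionAux_nonneg h0.le)
  · have : Cardinal.cantorFunction s ω ≤ (1 - s)⁻¹ := by
      rw [← tsum_geometric_of_lt_one h0.le h1]
      refine (Cardinal.summable_cantor_function ω h0.le h1).tsum_le_tsum (fun n => ?_)
        (summable_geometric_of_lt_one h0.le h1)
      cases h : ω n <;> simp [h, Cardinal.cantorFunctionAux, pow_nonneg h0.le]
    calc _ ≤ (1 - s) * (1 - s)⁻¹ := by gcongr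
      _ = 1 := mul_inv_cancel₀ hs.ne'

lemma cf_cont : Continuous fun ω : K => Cardinal.cantorFunction s ω := by
  refine continuous_tsum (u := fun n => s ^ n) (fun n => ?_)
    (summable_geometric_of_lt_one h0.le h1) (fun n ω => ?_)
  · exact (continuous_of_discreteTopology (f := fun b : Bool => cond b (s ^ n) 0)).comp
      (continuous_apply n)
  · cases h : ω n <;> simp [h, Cardinal.cantorFunctionAux, abs_of_pos h0, pow_nonneg h0.le]

noncomputable def φ : C(K, I) :=
  ⟨fun ω => ⟨(1 - s) * Cardinal.cantorFunction s ω, cf_bound h0 h1 ω⟩,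
    (continuous_const.mul (cf_cont h0 h1)).subtype_mk _⟩

noncomputable def ψ (i : Bool) : C(I, I) :=
  ⟨fun t => ⟨(1 - s) * cond i 1 0 + s * t, by
    have := t.2.1; have := t.2.2
    cases i <;> simp only [cond_true, cond_false] <;> constructor <;> nlinarith⟩,
    Continuous.subtype_mk (by fun_prop) _⟩

lemma ψ_val (i : Bool) (t : I) : (ψ h0 h1 i t : ℝ) = (1 - s) * cond i 1 0 + s * t := rfl

lemma φ_cons (i : Bool) (ω : K) : φ h0 h1 (cons i ω) = ψ h0 h1 i (φ h0 h1 ω) := by
  apply Subtype.ext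
  show (1 - s) * Cardinal.cantorFunction s (cons i ω) =
    (1 - s) * cond i 1 0 + s * ((1 - s) * Cardinal.cantorFunction s ω)
  rw [Cardinal.cantorFunction_succ _ h0.le h1]
  simp only [cons_zero, cons_succ]
  ring

end

noncomputable def vv (s : ℝ) (i : Bool) : C(I, I) :=
  ⟨fun t => clamp (((t : ℝ) - (1 - s) * cond i 1 0) / s), by fun_prop⟩

lemma a0 : (0 : ℝ) < 2 / 3 := by norm_num
lemma a1 : (2 / 3 : ℝ) < 1 := by norm_num
lemma b0 : (0 : ℝ) < 1 / 3 := by norm_num
lemma b1 : (1 / 3 : ℝ) < 1 := by norm_num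

lemma ψ_vv_false (t : I) (h : (t : ℝ) ≤ 2 / 3) : ψ a0 a1 false (vv (2 / 3) false t) = t := by
  apply Subtype.ext
  rw [ψ_val]
  have := t.2.1
  have e : (vv (2 / 3) false t : ℝ) = ((t : ℝ) - (1 - 2 / 3) * 0) / (2 / 3) :=
    clamp_eq (by simp only [cond_false]; linarith) (by simp only [cond_false]; linarith)
  rw [e]; simp only [cond_false]; ring

lemma ψ_vv_true (t : I) (h : 1 / 3 ≤ (t : ℝ)) : ψ a0 a1 true (vv (2 / 3) true t) = t := by
  apply Subtype.ext
  rw [ψ_val]
  have := t.2.2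
  have e : (vv (2 / 3) true t : ℝ) = ((t : ℝ) - (1 - 2 / 3) * 1) / (2 / 3) :=
    clamp_eq (by simp only [cond_true]; linarith) (by simp only [cond_true]; linarith)
  rw [e]; simp only [cond_true]; ring

lemma mil_approx (n : ℕ) (ε : ℝ) : ∀ g : C(I, ℝ),
    (∀ x y : I, |(x : ℝ) - y| ≤ (2 / 3) ^ n → |g x - g y| ≤ ε) →
    ∀ t, |u (vv (2 / 3)) n (g.comp (φ a0 a1)) t - g t| ≤ ε := by
  induction n with
  | zero =>
    intro g h t
    apply h
    have := t.2.1; have := t.2.2
    have := (φ a0 a1 fun _ => false).2.1; have := (φ a0 a1 fun _ => false).2.2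
    rw [abs_le]; constructor <;> simp only [pow_zero] <;> linarith
  | succ n ih =>
    intro g h t
    rw [u_succ]
    have e : ∀ i, (g.comp (φ a0 a1)).comp (cons i) = (g.comp (ψ a0 a1 i)).comp (φ a0 a1) := by
      intro i; ext ω; simp [φ_cons]
    have hh : ∀ i t, |u (vv (2 / 3)) n ((g.comp (ψ a0 a1 i)).comp (φ a0 a1)) t
        - g (ψ a0 a1 i t)| ≤ ε := by
      intro i t
      refine ih (g.comp (ψ a0 a1 i)) (fun x y hxy => h _ _ ?_) t
      rw [ψ_val, ψ_val]
      have : (1 - 2 / 3) * cond i 1 0 + 2 / 3 * (x : ℝ) - ((1 - 2 / 3) * cond i 1 0 + 2 / 3 * (y : ℝ))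
        = 2 / 3 * (x - y) := by ring
      rw [this, abs_mul, abs_of_pos a0, pow_succ]
      linarith
    rw [e, e]
    have k0 := hh false (vv (2 / 3) false t)
    have k1 := hh true (vv (2 / 3) true t)
    have q0 := p_nonneg t
    have q1 := p_le t
    rcases le_total (t : ℝ) (1 / 3) with c | c
    · rw [ψ_vv_false t (by linarith)] at k0
      rw [p_zero t c]; simpa using k0
    · rw [ψ_vv_true t c] at k1
      rcases le_total (t : ℝ) (2 / 3) with d | d
      · rw [ψ_vv_false t d] at k0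
        rw [abs_le] at k0 k1 ⊢
        constructor <;> nlinarith [k0.1, k0.2, k1.1, k1.2]
      · rw [p_one t d]; simpa using k1

theorem milyutin (g : C(I, ℝ)) : U (vv (2 / 3)) (g.comp (φ a0 a1)) = g := by
  ext t
  refine tendsto_nhds_unique (U_pt _ _ t) ?_
  rw [Metric.tendsto_atTop]
  intro ε hε
  have hu : UniformContinuous g := CompactSpace.uniformContinuous_of_continuous g.continuous
  obtain ⟨δ, hδ, hg⟩ := Metric.uniformContinuous_iff.1 hu (ε / 2) (half_pos hε)
  obtain ⟨N, hN⟩ := exists_pow_lt_of_lt_one hδ a1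
  refine ⟨N, fun n hn => lt_of_le_of_lt (mil_approx n (ε / 2) g (fun x y hxy => ?_) t)
    (half_lt_self hε)⟩
  have : (2 / 3 : ℝ) ^ n ≤ (2 / 3) ^ N := pow_le_pow_of_le_one a0.le a1.le hn
  exact (hg (show dist (x : ℝ) y < δ by rw [Real.dist_eq]; linarith)).le

lemma vv_ψ (i : Bool) (t : I) : vv (1 / 3) i (ψ b0 b1 i t) = t := by
  apply Subtype.ext
  have := t.2.1; have := t.2.2
  have e : ((ψ b0 b1 i t : ℝ) - (1 - 1 / 3) * cond i 1 0) / (1 / 3) = t := by
    rw [ψ_val]; ring
  show (clamp (((ψ b0 b1 i t : ℝ) - (1 - 1 / 3) * cond i 1 0) / (1 / 3)) : ℝ) = t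
  rw [e]; exact clamp_eq t.2.1 t.2.2

lemma ext_approx (n : ℕ) (ε : ℝ) : ∀ f : C(K, ℝ), Osc n ε f →
    ∀ ω, |u (vv (1 / 3)) n f (φ b0 b1 ω) - f ω| ≤ ε := by
  induction n with
  | zero =>
    intro f h ω
    have h1 := h ω (fun _ => false) (by simp)
    have h2 := h (fun _ => false) ω (by simp)
    show |f (fun _ => false) - f ω| ≤ ε
    rw [abs_le]; constructor <;> linarith
  | succ n ih =>
    intro f h ω
    obtain ⟨i, ω', rfl⟩ : ∃ i ω', ω = cons i ω' := ⟨_, _, (cons_tl ω).symm⟩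
    rw [φ_cons, u_succ]
    have := (φ b0 b1 ω').2.1; have := (φ b0 b1 ω').2.2
    cases i
    · rw [p_zero _ (by rw [ψ_val]; simp only [cond_false]; linarith), vv_ψ]
      simpa using ih _ (h.cons false) ω'
    · rw [p_one _ (by rw [ψ_val]; simp only [cond_true]; linarith), vv_ψ]
      simpa using ih _ (h.cons true) ω'

theorem extension (f : C(K, ℝ)) : cmp (φ b0 b1) (U (vv (1 / 3)) f) = f := by
  ext ω
  refine tendsto_nhds_unique (U_pt _ _ (φ b0 b1 ω)) ?_
  rw [Metric.tendsto_atTop]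
  intro ε hε
  obtain ⟨N, hN⟩ := exists_osc f (half_pos hε)
  refine ⟨N, fun n hn => lt_of_le_of_lt (ext_approx n (ε / 2) f (fun x y hxy => ?_) ω)
    (half_lt_self hε)⟩
  exact hN x y fun i hi => hxy i (by omega)

end Pool.Agent.Lib.helper15.PosB
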