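import Pool.Agent.Lib.helper15.PosB

set_option autoImplicit false

open Filter Topology

namespace Pool.Agent.Lib.helper15.PosC
open Pool.Agent.Lib.helper15.PosA Pool.Agent.Lib.helper15.PosB

abbrev L := {ω : K // Monotone ω}

instance : CompactSpace L := by
  have : IsClosed {ω : K | Monotone ω} := by
    have e : {ω : K | Monotone ω} = ⋂ a, ⋂ b, ⋂ (_ : a ≤ b), {ω : K | ω a ≤ ω b} := by
      ext ω; simp [Monotone]
    rw [e]
    exact isClosed_iInter fun a => isClosed_iInter fun b => isClosed_iInter fun _ =>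
      (isClosed_discrete {q : Bool × Bool | q.1 ≤ q.2}).preimage
        (f := fun ω : K => (ω a, ω b)) ((continuous_apply a).prodMk (continuous_apply b))
  exact isCompact_iff_compactSpace.1 this.isCompact

def r0 (ω : K) : ℕ → Bool
  | 0 => ω 0
  | n + 1 => r0 ω n || ω (n + 1)

lemma r0_mono (ω : K) : Monotone (r0 ω) := monotone_nat_of_le_succ fun n => by
  simp only [r0]; cases r0 ω n <;> simp

lemma r0_cont (n : ℕ) : Continuous fun ω : K => r0 ω n := by
  induction n with
  | zero => exact continuous_apply 0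
  | succ n ih =>
    exact (continuous_of_discreteTopology (f := fun q : Bool × Bool => q.1 || q.2)).comp
      (ih.prodMk (continuous_apply (n + 1)))

lemma r0_eq (ω : K) (h : Monotone ω) : r0 ω = ω := by
  funext n
  induction n with
  | zero => rfl
  | succ n ih =>
    simp only [r0, ih]
    have := h (Nat.le_succ n)
    revert this
    cases ω n <;> cases ω (n + 1) <;> simp

def r : C(K, L) := ⟨fun ω => ⟨r0 ω, r0_mono ω⟩, (continuous_pi r0_cont).subtype_mk _⟩

lemma r_eq (l : L) : r l.1 = l := Subtype.ext (r0_eq _ l.2)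

def top : C(I, L × I) := ⟨fun t => (⟨fun _ => true, monotone_const⟩, t), by fun_prop⟩

def shL (l : L) : L := ⟨cons false l.1, monotone_nat_of_le_succ fun n => by
  cases n with
  | zero => simp
  | succ n => exact l.2 (Nat.le_succ n)⟩

def sh : C(L × I, L × I) := ⟨fun q => (shL q.1, q.2), by
  refine Continuous.prodMk ?_ continuous_snd
  exact Continuous.subtype_mk (((cons false).continuous.comp continuous_subtype_val).comp
    continuous_fst) _⟩

lemma bijL : Function.Bijective (Sum.elim top sh) := by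
  constructor
  · rintro (x | x) (y | y) h
    · exact congrArg Sum.inl (congrArg Prod.snd h)
    · have := congrArg (fun q : L × I => q.1.1 0) h
      simp [top, sh, shL] at this
    · have := congrArg (fun q : L × I => q.1.1 0) h
      simp [top, sh, shL] at this
    · congr 1
      refine Prod.ext (Subtype.ext (funext fun n => ?_)) ?_
      · exact congrArg (fun q : L × I => q.1.1 (n + 1)) h
      · have := congrArg (fun q : L × I => q.2) h
        exact this
  · rintro ⟨l, t⟩
    cases h : l.1 0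
    · refine ⟨Sum.inr (⟨tl l.1, fun a b hab => l.2 (Nat.succ_le_succ hab)⟩, t), ?_⟩
      refine Prod.ext (Subtype.ext ?_) rfl
      show cons false (tl l.1) = l.1
      rw [← h, cons_tl]
    · refine ⟨Sum.inl t, Prod.ext (Subtype.ext (funext fun n => ?_)) rfl⟩
      have := l.2 (Nat.zero_le n)
      rw [h] at this
      show true = l.1 n
      revert this; cases l.1 n <;> simp

lemma bijK : Function.Bijective (Sum.elim (cons false) (cons true)) := by
  constructor
  · rintro (x | x) (y | y) h
    · congr 1; funext n; exact congrFun h (n + 1)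
    · exact absurd (congrFun h 0) (by simp)
    · exact absurd (congrFun h 0) (by simp)
    · congr 1; funext n; exact congrFun h (n + 1)
  · intro ω
    cases h : ω 0
    · exact ⟨Sum.inl (tl ω), by rw [← cons_tl ω, h]; rfl⟩
    · exact ⟨Sum.inr (tl ω), by rw [← cons_tl ω, h]; rfl⟩

noncomputable def lift (T : C(K, ℝ) →L[ℝ] C(I, ℝ)) : C(L × K, ℝ) →L[ℝ] C(L × I, ℝ) :=
  LinearMap.mkContinuous
    { toFun := fun F => ContinuousMap.uncurry ((⟨T, T.continuous⟩ : C(C(K, ℝ), C(I, ℝ))).comp F.curry)
      map_add' := fun F G => by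
        ext ⟨l, t⟩
        show T ((F + G).curry l) t = T (F.curry l) t + T (G.curry l) t
        have : (F + G).curry l = F.curry l + G.curry l := rfl
        rw [this, map_add]; rfl
      map_smul' := fun c F => by
        ext ⟨l, t⟩
        show T ((c • F).curry l) t = c • T (F.curry l) t
        have : (c • F).curry l = c • F.curry l := rfl
        rw [this, map_smul]; rfl } ‖T‖ (fun F => by
      refine (ContinuousMap.norm_le _ (by positivity)).2 fun q => ?_
      show ‖T (F.curry q.1) q.2‖ ≤ _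
      refine (ContinuousMap.norm_coe_le_norm _ _).trans ((T.le_opNorm _).trans ?_)
      gcongr
      exact (ContinuousMap.norm_le _ (norm_nonneg F)).2 fun x => F.norm_coe_le_norm _)

lemma lift_apply (T : C(K, ℝ) →L[ℝ] C(I, ℝ)) (F : C(L × K, ℝ)) (q : L × I) :
    lift T F q = T (F.curry q.1) q.2 := rfl

def inter : C(L × K, K) := ⟨fun q n => if n % 2 = 0 then q.1.1 (n / 2) else q.2 (n / 2),
  continuous_pi fun n => by
    split_ifs
    · exact (continuous_apply _).comp (continuous_subtype_val.comp continuous_fst)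
    · exact (continuous_apply _).comp continuous_snd⟩

noncomputable def spl : C(K, L × I) :=
  ⟨fun ω => (r fun n => ω (2 * n), φ a0 a1 fun n => ω (2 * n + 1)), by
    refine Continuous.prodMk (r.continuous.comp ?_) ((φ a0 a1).continuous.comp ?_) <;>
    exact continuous_pi fun n => continuous_apply _⟩

lemma spl_inter (l : L) (ω : K) : spl (inter (l, ω)) = (l, φ a0 a1 ω) := by
  have e1 : (fun n => inter (l, ω) (2 * n)) = l.1 := by
    funext n
    show (if (2 * n) % 2 = 0 then l.1 (2 * n / 2) else ω (2 * n / 2)) = l.1 n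
    rw [if_pos (by omega), Nat.mul_div_cancel_left _ two_pos]
  have e2 : (fun n => inter (l, ω) (2 * n + 1)) = ω := by
    funext n
    show (if (2 * n + 1) % 2 = 0 then l.1 ((2 * n + 1) / 2) else ω ((2 * n + 1) / 2)) = ω n
    rw [if_neg (by omega)]; congr 1; omega
  show (r fun n => inter (l, ω) (2 * n), φ a0 a1 fun n => inter (l, ω) (2 * n + 1)) = _
  rw [e1, e2, r_eq]

noncomputable def α : C(K, ℝ) →L[ℝ] C(L × I, ℝ) := lift (U (vv (2 / 3))) ∘L cmp inter
noncomputable def β : C(L × I, ℝ) →L[ℝ] C(K, ℝ) := cmp spl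

lemma αβ (G : C(L × I, ℝ)) : α (β G) = G := by
  ext ⟨l, t⟩
  show U (vv (2 / 3)) ((cmp inter (cmp spl G)).curry l) t = G (l, t)
  have : (cmp inter (cmp spl G)).curry l = (G.curry l).comp (φ a0 a1) := by
    ext ω
    show G (spl (inter (l, ω))) = G (l, φ a0 a1 ω)
    rw [spl_inter]
  rw [this, milyutin]; rfl

lemma α_pos : Pos α := fun f hf q =>
  U_pos (vv (2 / 3)) ((cmp inter f).curry q.1) (fun _ => hf _) q.2
lemma β_pos : Pos β := fun f hf q => hf _

theorem CD : ∃ T : C(K, ℝ) ≃L[ℝ] C(I, ℝ), ∀ f : C(K, ℝ), (∀ x, 0 ≤ f x) → ∀ y, 0 ≤ (T f) y := by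
  obtain ⟨T1, h1⟩ := out' α β αβ α_pos β_pos top sh bijL
  obtain ⟨T2, h2⟩ := inn' (cmp (φ b0 b1)) (U (vv (1 / 3))) extension (fun f hf q => hf _)
    (U_pos _) (cons false) (cons true) bijK
  refine ⟨(T1.trans (ContinuousLinearEquiv.prodComm ℝ _ _)).trans T2, fun f hf y => ?_⟩
  exact h2 (T1 f).2 (T1 f).1 (h1 f hf).2 (h1 f hf).1 y

theorem DC : ∃ T : C(I, ℝ) ≃L[ℝ] C(K, ℝ), ∀ f : C(I, ℝ), (∀ x, 0 ≤ f x) → ∀ y, 0 ≤ (T f) y := by
  obtain ⟨T1, h1⟩ := out' (cmp (φ b0 b1)) (U (vv (1 / 3))) extension (fun f hf q => hf _)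
    (U_pos _) (cons false) (cons true) bijK
  obtain ⟨T2, h2⟩ := inn' α β αβ α_pos β_pos top sh bijL
  refine ⟨(T1.trans (ContinuousLinearEquiv.prodComm ℝ _ _)).trans T2, fun f hf y => ?_⟩
  exact h2 (T1 f).2 (T1 f).1 (h1 f hf).2 (h1 f hf).1 y

end Pool.Agent.Lib.helper15.PosC
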