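import Pool.Agent.Lib.helper15.PosC

set_option autoImplicit false

open Filter Topology

namespace Pool.Agent.Lib.helper15.PosD
open Pool.Agent.Lib.helper15.PosA Pool.Agent.Lib.helper15.PosB Pool.Agent.Lib.helper15.PosC

abbrev Q := ℕ → I

def v : C(Q, Q) := ⟨fun t n => t (n + 1), by fun_prop⟩
noncomputable def q : C(Q, ℝ) := p.comp ⟨fun t => t 0, by fun_prop⟩

lemma q_nonneg (t : Q) : 0 ≤ q t := p_nonneg _
lemma q_le (t : Q) : q t ≤ 1 := p_le _

noncomputable def w : ℕ → C(K, ℝ) → C(Q, ℝ)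
  | 0, f => ContinuousMap.const Q (f fun _ => false)
  | n + 1, f => (1 - q) * (w n (f.comp (cons false))).comp v
      + q * (w n (f.comp (cons true))).comp v

lemma w_succ (n : ℕ) (f : C(K, ℝ)) (t : Q) : w (n + 1) f t =
    (1 - q t) * w n (f.comp (cons false)) (v t)
      + q t * w n (f.comp (cons true)) (v t) := rfl

lemma w_add (n : ℕ) : ∀ f g : C(K, ℝ), w n (f + g) = w n f + w n g := by
  induction n with
  | zero => intro f g; rfl
  | succ n ih =>
    intro f g
    ext t
    simp only [ContinuousMap.add_apply, w_succ, ContinuousMap.add_comp, ih]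
    ring

lemma w_smul (n : ℕ) (c : ℝ) : ∀ f : C(K, ℝ), w n (c • f) = c • w n f := by
  induction n with
  | zero => intro f; rfl
  | succ n ih =>
    intro f
    ext t
    simp only [ContinuousMap.smul_apply, w_succ, ContinuousMap.smul_comp, ih, smul_eq_mul]
    ring

lemma w_le (n : ℕ) (b : ℝ) : ∀ f : C(K, ℝ), (∀ ω, f ω ≤ b) → ∀ t, w n f t ≤ b := by
  induction n with
  | zero => intro f h t; exact h _
  | succ n ih =>
    intro f h t
    rw [w_succ]
    have h0 := ih (f.comp (cons false)) (fun ω => h _) (v t)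
    have h1 := ih (f.comp (cons true)) (fun ω => h _) (v t)
    have := q_nonneg t
    have := q_le t
    nlinarith

lemma le_w (n : ℕ) (b : ℝ) : ∀ f : C(K, ℝ), (∀ ω, b ≤ f ω) → ∀ t, b ≤ w n f t := by
  induction n with
  | zero => intro f h t; exact h _
  | succ n ih =>
    intro f h t
    rw [w_succ]
    have h0 := ih (f.comp (cons false)) (fun ω => h _) (v t)
    have h1 := ih (f.comp (cons true)) (fun ω => h _) (v t)
    have := q_nonneg t
    have := q_le t
    nlinarith

lemma w_close (n : ℕ) (ε : ℝ) : ∀ f : C(K, ℝ), Osc n ε f → ∀ m m', n ≤ m → n ≤ m' → ∀ t,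
    w m f t - w m' f t ≤ ε := by
  induction n with
  | zero =>
    intro f h m m' _ _ t
    have h1 : ∀ ω', w m f t - ε ≤ f ω' := fun ω' => by
      have := w_le m (f ω' + ε) f (fun ω => by
        have := h ω ω' (by simp); linarith) t
      linarith
    have := le_w m' _ f h1 t
    linarith
  | succ n ih =>
    intro f h m m' hm hm' t
    obtain ⟨m, rfl⟩ : ∃ k, m = k + 1 := ⟨m - 1, by omega⟩
    obtain ⟨m', rfl⟩ : ∃ k, m' = k + 1 := ⟨m' - 1, by omega⟩
    rw [w_succ, w_succ]
    have h0 := ih _ (h.cons false) m m' (by omega) (by omega) (v t)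
    have h1 := ih _ (h.cons true) m m' (by omega) (by omega) (v t)
    have := q_nonneg t
    have := q_le t
    nlinarith

lemma w_cauchy (f : C(K, ℝ)) : CauchySeq fun n => w n f := by
  rw [Metric.cauchySeq_iff]
  intro ε hε
  obtain ⟨n, hn⟩ := exists_osc f (half_pos hε)
  refine ⟨n, fun m hm m' hm' => ?_⟩
  refine lt_of_le_of_lt ?_ (half_lt_self hε)
  rw [ContinuousMap.dist_le (half_pos hε).le]
  intro t
  rw [Real.dist_eq, abs_le]
  have h1 := w_close n _ f hn m m' hm hm' t
  have h2 := w_close n _ f hn m' m hm' hm t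
  constructor <;> linarith

noncomputable def W0 (f : C(K, ℝ)) : C(Q, ℝ) := limUnder atTop fun n => w n f

lemma W0_tend (f : C(K, ℝ)) : Tendsto (fun n => w n f) atTop (𝓝 (W0 f)) :=
  (w_cauchy f).tendsto_limUnder

lemma W0_pt (f : C(K, ℝ)) (t : Q) : Tendsto (fun n => w n f t) atTop (𝓝 (W0 f t)) :=
  ((continuous_eval_const t).tendsto _).comp (W0_tend f)

noncomputable def W : C(K, ℝ) →L[ℝ] C(Q, ℝ) :=
  LinearMap.mkContinuous
    { toFun := W0
      map_add' := fun f g => tendsto_nhds_unique (W0_tend (f + g)) (by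
        simp only [w_add]; exact (W0_tend f).add (W0_tend g))
      map_smul' := fun c f => tendsto_nhds_unique (W0_tend (c • f)) (by
        simp only [w_smul]; exact (W0_tend f).const_smul c) } 1 (fun f => by
      rw [one_mul]
      refine (ContinuousMap.norm_le _ (norm_nonneg f)).2 fun t => ?_
      show ‖W0 f t‖ ≤ _
      rw [Real.norm_eq_abs, abs_le]
      have hb : ∀ ω, |f ω| ≤ ‖f‖ := fun ω => f.norm_coe_le_norm ω
      exact ⟨ge_of_tendsto' (W0_pt f t) fun n => le_w n _ f (fun ω => (abs_le.1 (hb ω)).1) t,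
        le_of_tendsto' (W0_pt f t) fun n => w_le n _ f (fun ω => (abs_le.1 (hb ω)).2) t⟩)

lemma W_pt (f : C(K, ℝ)) (t : Q) : Tendsto (fun n => w n f t) atTop (𝓝 (W f t)) := W0_pt f t

lemma W_pos : Pos W := fun f hf t =>
  ge_of_tendsto' (W_pt f t) fun n => le_w n _ f hf t

def Cp (b : Bool) (t : I) : Prop := (b = true → 1 / 3 ≤ (t : ℝ)) ∧ (b = false → (t : ℝ) ≤ 2 / 3)

lemma w_approx (n : ℕ) (c ε : ℝ) : ∀ (f : C(K, ℝ)) (t : Q),
    (∀ ω : K, (∀ j < n, Cp (ω j) (t j)) → |f ω - c| ≤ ε) → |w n f t - c| ≤ ε := by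
  induction n with
  | zero => intro f t h; exact h _ (by simp)
  | succ n ih =>
    intro f t h
    rw [w_succ]
    have hh : ∀ i, Cp i (t 0) → |w n (f.comp (cons i)) (v t) - c| ≤ ε := by
      intro i hi
      refine ih _ _ fun ω hω => h _ fun j hj => ?_
      cases j with
      | zero => exact hi
      | succ j => exact hω j (by omega)
    have q0 := q_nonneg t
    have q1 := q_le t
    rcases le_total (t 0 : ℝ) (1 / 3) with a | a
    · have k0 := hh false ⟨by simp, fun _ => by linarith⟩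
      have : q t = 0 := p_zero _ a
      rw [this]; simpa using k0
    · have k1 := hh true ⟨fun _ => a, by simp⟩
      rcases le_total (t 0 : ℝ) (2 / 3) with d | d
      · have k0 := hh false ⟨by simp, fun _ => d⟩
        rw [abs_le] at k0 k1 ⊢
        constructor <;> nlinarith [k0.1, k0.2, k1.1, k1.2]
      · have : q t = 1 := p_one _ d
        rw [this]; simpa using k1

lemma exists_cp (t : I) : ∃ b, Cp b t := by
  rcases le_total (t : ℝ) (1 / 2) with a | a
  · exact ⟨false, by simp, fun _ => by linarith⟩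
  · exact ⟨true, fun _ => by linarith, by simp⟩

lemma W_eq (f : C(K, ℝ)) (t : Q) (c : ℝ) (h : ∀ ω : K, (∀ j, Cp (ω j) (t j)) → f ω = c) :
    W f t = c := by
  refine tendsto_nhds_unique (W_pt f t) ?_
  rw [Metric.tendsto_atTop]
  intro ε hε
  obtain ⟨N, hN⟩ := exists_osc f (half_pos hε)
  refine ⟨N, fun n hn => lt_of_le_of_lt (w_approx n c (ε / 2) f t fun ω hω => ?_)
    (half_lt_self hε)⟩
  choose b hb using fun j => exists_cp (t j)
  let ω' : K := fun j => if j < n then ω j else b j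
  have h1 : f ω' = c := h ω' fun j => by
    by_cases hj : j < n
    · simp only [ω', if_pos hj]; exact hω j hj
    · simp only [ω', if_neg hj]; exact hb j
  have e : ∀ i < N, ω i = ω' i := fun i hi => by
    simp only [ω', if_pos (show i < n by omega)]
  have h2 := hN ω ω' e
  have h3 := hN ω' ω fun i hi => (e i hi).symm
  rw [abs_le]; constructor <;> linarith

section gen
variable (X : Type*) [MetricSpace X] [CompactSpace X]

lemma exists_H [Nonempty X] : ∃ H : C(X, Q), ∀ x y, x ≠ y →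
    ∃ n, (H x n : ℝ) < 1 / 3 ∧ 2 / 3 < (H y n : ℝ) := by
  let d := TopologicalSpace.denseSeq X
  have hd : DenseRange d := TopologicalSpace.denseRange_denseSeq X
  refine ⟨⟨fun x n => clamp (((Nat.unpair n).1 : ℝ) * dist x (d (Nat.unpair n).2)), by fun_prop⟩,
    fun x y hxy => ?_⟩
  have h0 : 0 < dist x y := dist_pos.2 hxy
  obtain ⟨m, hm⟩ := exists_nat_gt (2 / dist x y)
  have hm0 : (0 : ℝ) < m := lt_trans (by positivity) hm
  obtain ⟨k, hk⟩ := Metric.denseRange_iff.1 hd x (1 / (4 * m)) (by positivity)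
  refine ⟨Nat.pair m k, ?_, ?_⟩
  · show (clamp (((Nat.unpair (Nat.pair m k)).1 : ℝ) * dist x (d (Nat.unpair (Nat.pair m k)).2)) : ℝ) < _
    simp only [Nat.unpair_pair]
    have : (m : ℝ) * dist x (d k) < 1 / 4 := by
      calc _ < (m : ℝ) * (1 / (4 * m)) := by gcongr
        _ = 1 / 4 := by field_simp
    rw [clamp_eq (by positivity) (by linarith)]; linarith
  · show _ < (clamp (((Nat.unpair (Nat.pair m k)).1 : ℝ) * dist y (d (Nat.unpair (Nat.pair m k)).2)) : ℝ)
    simp only [Nat.unpair_pair]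
    have a1 : (m : ℝ) * dist x (d k) < 1 / 4 := by
      calc _ < (m : ℝ) * (1 / (4 * m)) := by gcongr
        _ = 1 / 4 := by field_simp
    have a2 : 2 < (m : ℝ) * dist x y := by rwa [div_lt_iff₀ h0] at hm
    have a3 : dist x y ≤ dist x (d k) + dist y (d k) := dist_triangle_right _ _ _
    have a4 : 1 ≤ (m : ℝ) * dist y (d k) := by nlinarith
    show _ < ((Set.projIcc 0 1 zero_le_one ((m : ℝ) * dist y (d k)) : I) : ℝ)
    rw [Set.projIcc_of_right_le _ a4]; norm_num

lemma cp_closed : IsClosed {z : Bool × I | Cp z.1 z.2} := by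
  have e : {z : Bool × I | Cp z.1 z.2} = ({z | z.1 = false} ∩ {z | (z.2 : ℝ) ≤ 2 / 3}) ∪
      ({z | z.1 = true} ∩ {z | 1 / 3 ≤ (z.2 : ℝ)}) := by
    ext ⟨b, t⟩; cases b <;> simp [Cp]
  rw [e]
  exact ((isClosed_eq continuous_fst continuous_const).inter
    (isClosed_le (by fun_prop) continuous_const)).union
    ((isClosed_eq continuous_fst continuous_const).inter
    (isClosed_le continuous_const (by fun_prop)))

lemma exists_Φ [Nonempty X] : ∃ (H : C(X, Q)) (Φ : C(K, X)), ∀ ω x, (∀ j, Cp (ω j) (H x j)) →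
    Φ ω = x := by
  obtain ⟨H, hH⟩ := exists_H X
  let R : Set (K × X) := {z | ∀ j, Cp (z.1 j) (H z.2 j)}
  have hR : IsClosed R := by
    have e : R = ⋂ j, (fun z : K × X => (z.1 j, H z.2 j)) ⁻¹' {z : Bool × I | Cp z.1 z.2} := by
      ext z; simp [R]
    rw [e]
    exact isClosed_iInter fun j => cp_closed.preimage (by fun_prop)
  have : CompactSpace R := isCompact_iff_compactSpace.1 hR.isCompact
  let e : R → K := fun z => z.1.1
  have he : Continuous e := by fun_prop
  have hi : Function.Injective e := by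
    rintro ⟨⟨ω, x⟩, h1⟩ ⟨⟨ω', y⟩, h2⟩ h
    have h : ω = ω' := h
    subst h
    congr 2
    by_contra hxy
    obtain ⟨n, a, b⟩ := hH x y hxy
    have c1 := h1 n
    have c2 := h2 n
    cases hn : ω n
    · have := c2.2 hn; simp only at this; linarith
    · have := c1.1 hn; simp only at this; linarith
  have hemb : IsClosedEmbedding e := he.isClosedEmbedding hi
  have hne : (Set.range e).Nonempty := by
    obtain ⟨x⟩ := ‹Nonempty X›
    choose b hb using fun j => exists_cp (H x j)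
    exact ⟨b, ⟨(b, x), hb⟩, rfl⟩
  obtain ⟨ρ, hρ, -, hρc⟩ := PiNat.exists_retraction_subtype_of_isClosed hemb.isClosed_range hne
  let h := hemb.isEmbedding.toHomeomorph
  refine ⟨H, ⟨fun ω => (h.symm (ρ ω)).1.2, by fun_prop⟩, fun ω x hx => ?_⟩
  have a1 : ρ ω = ⟨ω, ⟨(ω, x), hx⟩, rfl⟩ := hρ ⟨ω, ⟨(ω, x), hx⟩, rfl⟩
  have a2 : h.symm (ρ ω) = ⟨(ω, x), hx⟩ := by
    rw [a1]; exact h.symm_apply_eq.2 rfl
  show (h.symm (ρ ω)).1.2 = x
  rw [a2]

variable {X}

noncomputable def lift' (T : C(K, ℝ) →L[ℝ] C(X, ℝ)) : C(L × K, ℝ) →L[ℝ] C(L × X, ℝ) :=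
  LinearMap.mkContinuous
    { toFun := fun F => ContinuousMap.uncurry ((⟨T, T.continuous⟩ : C(C(K, ℝ), C(X, ℝ))).comp F.curry)
      map_add' := fun F G => by
        ext ⟨l, t⟩
        show T ((F + G).curry l) t = T (F.curry l) t + T (G.curry l) t
        have : (F + G).curry l = F.curry l + G.curry l := rfl
        rw [this, map_add]; rfl
      map_smul' := fun c F => by
        ext ⟨l, t⟩
        show T ((c • F).curry l) t = c • T (F.curry l) t
        have : (c • F).curry l = c • F.curry l := rfl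
        rw [this, map_smul]; rfl } ‖T‖ (fun F => by
      refine (ContinuousMap.norm_le _ (by positivity)).2 fun q => ?_
      show ‖T (F.curry q.1) q.2‖ ≤ _
      refine (ContinuousMap.norm_coe_le_norm _ _).trans ((T.le_opNorm _).trans ?_)
      gcongr
      exact (ContinuousMap.norm_le _ (norm_nonneg F)).2 fun x => F.norm_coe_le_norm _)

variable (X)

lemma compl1 [Nonempty X] : ∃ (α : C(K, ℝ) →L[ℝ] C(L × X, ℝ)) (β : C(L × X, ℝ) →L[ℝ] C(K, ℝ)),
    (∀ G, α (β G) = G) ∧ Pos α ∧ Pos β := by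
  obtain ⟨H, Φ, hΦ⟩ := exists_Φ X
  let spl : C(K, L × X) :=
    ⟨fun ω => (r fun n => ω (2 * n), Φ fun n => ω (2 * n + 1)), by
      refine Continuous.prodMk (r.continuous.comp ?_) (Φ.continuous.comp ?_) <;>
      exact continuous_pi fun n => continuous_apply _⟩
  have spl_inter : ∀ (l : L) (ω : K), spl (inter (l, ω)) = (l, Φ ω) := by
    intro l ω
    have e1 : (fun n => inter (l, ω) (2 * n)) = l.1 := by
      funext n
      show (if (2 * n) % 2 = 0 then l.1 (2 * n / 2) else ω (2 * n / 2)) = l.1 n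
      rw [if_pos (by omega), Nat.mul_div_cancel_left _ two_pos]
    have e2 : (fun n => inter (l, ω) (2 * n + 1)) = ω := by
      funext n
      show (if (2 * n + 1) % 2 = 0 then l.1 ((2 * n + 1) / 2) else ω ((2 * n + 1) / 2)) = ω n
      rw [if_neg (by omega)]; congr 1; omega
    show (r fun n => inter (l, ω) (2 * n), Φ fun n => inter (l, ω) (2 * n + 1)) = _
    rw [e1, e2, r_eq]
  refine ⟨lift' (cmp H ∘L W) ∘L cmp inter, cmp spl, fun G => ?_, fun f hf z => ?_,
    fun f hf z => hf _⟩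
  · ext ⟨l, x⟩
    show W ((cmp inter (cmp spl G)).curry l) (H x) = G (l, x)
    refine W_eq _ _ _ fun ω hω => ?_
    show G (spl (inter (l, ω))) = G (l, x)
    rw [spl_inter, hΦ ω x hω]
  · exact W_pos ((cmp inter f).curry z.1) (fun _ => hf _) (H z.2)

lemma compl2 [Uncountable X] : ∃ (α : C(X, ℝ) →L[ℝ] C(K, ℝ)) (β : C(K, ℝ) →L[ℝ] C(X, ℝ)),
    (∀ G, α (β G) = G) ∧ Pos α ∧ Pos β := by
  obtain ⟨e, -, he, hi⟩ := (isClosed_univ (X := X)).exists_nat_bool_injection_of_not_countable
    Set.not_countable_univ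
  have hemb : IsClosedEmbedding e := he.isClosedEmbedding hi
  obtain ⟨g, hg, hge⟩ := ContinuousMap.exists_extension_forall_mem_of_isClosedEmbedding
    (⟨fun ω => (φ b0 b1 ω : ℝ), continuous_subtype_val.comp (φ b0 b1).continuous⟩ : C(K, ℝ)) (t := Set.Icc 0 1)
    (fun ω => (φ b0 b1 ω).2) ⟨0, by simp⟩ hemb
  let g' : C(X, I) := ⟨fun x => ⟨g x, hg x⟩, by fun_prop⟩
  have h1 : ∀ ω, g' (e ω) = φ b0 b1 ω := fun ω => Subtype.ext (congrFun hge ω)
  refine ⟨cmp ⟨e, he⟩, cmp g' ∘L U (vv (1 / 3)), fun f => ?_, fun f hf z => hf _,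
    fun f hf z => U_pos _ f hf _⟩
  ext ω
  show U (vv (1 / 3)) f (g' (e ω)) = f ω
  rw [h1]
  exact congrArg (fun F : C(K, ℝ) => F ω) (extension f)

def top' : C(X, L × X) := ⟨fun t => (⟨fun _ => true, monotone_const⟩, t), by fun_prop⟩

def sh' : C(L × X, L × X) := ⟨fun q => (shL q.1, q.2), by
  refine Continuous.prodMk ?_ continuous_snd
  exact Continuous.subtype_mk (((cons false).continuous.comp continuous_subtype_val).comp
    continuous_fst) _⟩

omit [CompactSpace X] in
lemma bijL' : Function.Bijective (Sum.elim (top' X) (sh' X)) := by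
  constructor
  · rintro (x | x) (y | y) h
    · exact congrArg Sum.inl (congrArg Prod.snd h)
    · have := congrArg (fun q : L × X => q.1.1 0) h
      simp [top', sh', shL] at this
    · have := congrArg (fun q : L × X => q.1.1 0) h
      simp [top', sh', shL] at this
    · congr 1
      refine Prod.ext (Subtype.ext (funext fun n => ?_)) ?_
      · exact congrArg (fun q : L × X => q.1.1 (n + 1)) h
      · have := congrArg (fun q : L × X => q.2) h
        exact this
  · rintro ⟨l, t⟩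
    cases h : l.1 0
    · refine ⟨Sum.inr (⟨tl l.1, fun a b hab => l.2 (Nat.succ_le_succ hab)⟩, t), ?_⟩
      refine Prod.ext (Subtype.ext ?_) rfl
      show cons false (tl l.1) = l.1
      rw [← h, cons_tl]
    · refine ⟨Sum.inl t, Prod.ext (Subtype.ext (funext fun n => ?_)) rfl⟩
      have := l.2 (Nat.zero_le n)
      rw [h] at this
      show true = l.1 n
      revert this; cases l.1 n <;> simp

theorem CX [Uncountable X] :
    ∃ T : C(K, ℝ) ≃L[ℝ] C(X, ℝ), ∀ f : C(K, ℝ), (∀ x, 0 ≤ f x) → ∀ y, 0 ≤ (T f) y := by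
  obtain ⟨α, β, h, hα, hβ⟩ := compl1 X
  obtain ⟨α', β', h', hα', hβ'⟩ := compl2 X
  obtain ⟨T1, h1⟩ := out' α β h hα hβ (top' X) (sh' X) (bijL' X)
  obtain ⟨T2, h2⟩ := inn' α' β' h' hα' hβ' (cons false) (cons true) bijK
  refine ⟨(T1.trans (ContinuousLinearEquiv.prodComm ℝ _ _)).trans T2, fun f hf y => ?_⟩
  exact h2 (T1 f).2 (T1 f).1 (h1 f hf).2 (h1 f hf).1 y

theorem XC [Uncountable X] :
    ∃ T : C(X, ℝ) ≃L[ℝ] C(K, ℝ), ∀ f : C(X, ℝ), (∀ x, 0 ≤ f x) → ∀ y, 0 ≤ (T f) y := by
  obtain ⟨α, β, h, hα, hβ⟩ := compl1 X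
  obtain ⟨α', β', h', hα', hβ'⟩ := compl2 X
  obtain ⟨T1, h1⟩ := out' α' β' h' hα' hβ' (cons false) (cons true) bijK
  obtain ⟨T2, h2⟩ := inn' α β h hα hβ (top' X) (sh' X) (bijL' X)
  refine ⟨(T1.trans (ContinuousLinearEquiv.prodComm ℝ _ _)).trans T2, fun f hf y => ?_⟩
  exact h2 (T1 f).2 (T1 f).1 (h1 f hf).2 (h1 f hf).1 y

end gen

end Pool.Agent.Lib.helper15.PosD
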