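import Mathlib

open Filter Topology
open scoped Matrix.Norms.Operator BoundedContinuousFunction

namespace Pool.Agent.Lib.helper15.PropS

noncomputable abbrev X := lp (fun _ : ℕ => ℂ) 1
noncomputable abbrev Z := lp (fun _ : ℕ => X) 1
abbrev E := Matrix (Fin 3) (Fin 3) ℂ
abbrev I := (ℕ × ℕ) × ℕ

lemma summ {Y : Type} [NormedAddCommGroup Y] (x : lp (fun _ : ℕ => Y) 1) :
    Summable fun n => ‖x n‖ := by
  simpa using (lp.memℓp x).summable (by simp)

lemma norm_eq {Y : Type} [NormedAddCommGroup Y] (x : lp (fun _ : ℕ => Y) 1) :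
    ‖x‖ = ∑' n, ‖x n‖ := by
  simpa using lp.norm_eq_tsum_rpow (by simp) x

lemma app_le {Y : Type} [NormedAddCommGroup Y] (x : lp (fun _ : ℕ => Y) 1) (n : ℕ) :
    ‖x n‖ ≤ ‖x‖ := lp.norm_apply_le_norm (by simp) x n

noncomputable def tens (x y : X) : Z :=
  ⟨fun n => x n • y, memℓp_gen (by simpa [norm_smul] using (summ x).mul_right ‖y‖)⟩

@[simp] lemma tens_apply (x y : X) (n : ℕ) : tens x y n = x n • y := rfl

lemma norm_tens (x y : X) : ‖tens x y‖ = ‖x‖ * ‖y‖ := by
  rw [norm_eq, norm_eq x, ← tsum_mul_right]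
  simp [norm_smul]

def N : Type := X × Z

noncomputable instance : NormedAddCommGroup N := inferInstanceAs (NormedAddCommGroup (X × Z))
noncomputable instance : NormedSpace ℂ N := inferInstanceAs (NormedSpace ℂ (X × Z))
instance : CompleteSpace N := inferInstanceAs (CompleteSpace (X × Z))

lemma N.ext {p q : N} (h1 : p.1 = q.1) (h2 : ∀ n, p.2 n = q.2 n) : p = q :=
  Prod.ext h1 (lp.ext (funext h2))

noncomputable instance : NonUnitalNormedRing N :=
  { (inferInstance : NormedAddCommGroup N) with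
    mul := fun p q => ((0, tens p.1 q.1) : X × Z)
    left_distrib := fun a b c => N.ext (add_zero 0).symm fun n => smul_add (a.1 n) b.1 c.1
    right_distrib := fun a b c => N.ext (add_zero 0).symm fun n => add_smul (a.1 n) (b.1 n) c.1
    zero_mul := fun a => N.ext rfl fun n => zero_smul ℂ a.1
    mul_zero := fun a => N.ext rfl fun n => smul_zero (a.1 n)
    mul_assoc := fun a b c => N.ext rfl fun n =>
      (zero_smul ℂ c.1).trans (smul_zero (a.1 n)).symm
    norm_mul_le := fun a b => by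
      change max ‖(0 : X)‖ ‖tens a.1 b.1‖ ≤ ‖a‖ * ‖b‖
      rw [norm_zero, norm_tens]
      exact max_le (by positivity) (mul_le_mul (norm_fst_le (E := X) (F := Z) a)
        (norm_fst_le (E := X) (F := Z) b) (norm_nonneg _) (norm_nonneg _)) }

@[simp] lemma mul_fst (p q : N) : (p * q).1 = 0 := rfl
@[simp] lemma mul_snd (p q : N) : (p * q).2 = tens p.1 q.1 := rfl
@[simp] lemma add_fst (p q : N) : (p + q).1 = p.1 + q.1 := rfl
@[simp] lemma add_snd (p q : N) : (p + q).2 = p.2 + q.2 := rfl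
@[simp] lemma smul_fst (c : ℂ) (p : N) : (c • p).1 = c • p.1 := rfl
@[simp] lemma smul_snd (c : ℂ) (p : N) : (c • p).2 = c • p.2 := rfl
@[simp] lemma zero_fst : (0 : N).1 = 0 := rfl
@[simp] lemma zero_snd : (0 : N).2 = 0 := rfl

instance : IsScalarTower ℂ N N := ⟨fun c p q => N.ext (smul_zero c).symm fun n =>
  mul_smul c (p.1 n) q.1⟩
instance : SMulCommClass ℂ N N := ⟨fun c p q => N.ext (smul_zero c) fun n =>
  smul_comm c (p.1 n) q.1⟩

noncomputable def al (k : ℕ × ℕ) (x : X) : ℂ := if k.1 = k.2 then x 0 + x k.1 else x k.1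
noncomputable def be (k : ℕ × ℕ) (x : X) : ℂ :=
  if k.1 = k.2 then (1 / 2) ^ k.1 * x 0 - x k.1 else x k.2
noncomputable def ga (k : ℕ × ℕ) (t : Z) : ℂ :=
  if k.1 = k.2 then be k (t 0) + be k (t k.1) else be k (t k.1)

lemma al_le (k : ℕ × ℕ) (x : X) : ‖al k x‖ ≤ 2 * ‖x‖ := by
  unfold al
  have h0 := app_le x 0
  have h1 := app_le x k.1
  split_ifs
  · exact (norm_add_le _ _).trans (by linarith)
  · linarith [norm_nonneg x]

lemma be_le (k : ℕ × ℕ) (x : X) : ‖be k x‖ ≤ 2 * ‖x‖ := by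
  unfold be
  have h0 := app_le x 0
  have h1 := app_le x k.1
  have h2 := app_le x k.2
  split_ifs
  · refine (norm_sub_le _ _).trans ?_
    have : ‖(1 / 2 : ℂ) ^ k.1 * x 0‖ ≤ ‖x 0‖ := by
      rw [norm_mul, norm_pow]
      exact mul_le_of_le_one_left (norm_nonneg _) (pow_le_one₀ (norm_nonneg _) (by norm_num))
    linarith
  · linarith [norm_nonneg x]

lemma ga_le (k : ℕ × ℕ) (t : Z) : ‖ga k t‖ ≤ 4 * ‖t‖ := by
  unfold ga
  have h0 := (be_le k (t 0)).trans (mul_le_mul_of_nonneg_left (app_le t 0) (by norm_num))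
  have h1 := (be_le k (t k.1)).trans (mul_le_mul_of_nonneg_left (app_le t k.1) (by norm_num))
  split_ifs
  · exact (norm_add_le _ _).trans (by linarith)
  · linarith [norm_nonneg t]

noncomputable def th (k : ℕ × ℕ) (p : N) : E :=
  al k p.1 • !![0, 1, 0; 0, 0, 0; 0, 0, 0] + be k p.1 • !![0, 0, 0; 0, 0, 1; 0, 0, 0] +
    ga k p.2 • !![0, 0, 1; 0, 0, 0; 0, 0, 0]

noncomputable def C0 : ℝ := 2 * ‖(!![0, 1, 0; 0, 0, 0; 0, 0, 0] : E)‖ +
  2 * ‖(!![0, 0, 0; 0, 0, 1; 0, 0, 0] : E)‖ + 4 * ‖(!![0, 0, 1; 0, 0, 0; 0, 0, 0] : E)‖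

lemma th_le (k : ℕ × ℕ) (p : N) : ‖th k p‖ ≤ C0 * ‖p‖ := by
  unfold th C0
  have h1 : ‖p.1‖ ≤ ‖p‖ := norm_fst_le (E := X) (F := Z) p
  have h2 : ‖p.2‖ ≤ ‖p‖ := norm_snd_le (E := X) (F := Z) p
  refine (norm_add₃_le).trans ?_
  simp only [norm_smul]
  have a1 := (al_le k p.1).trans (mul_le_mul_of_nonneg_left h1 (by norm_num))
  have a2 := (be_le k p.1).trans (mul_le_mul_of_nonneg_left h1 (by norm_num))
  have a3 := (ga_le k p.2).trans (mul_le_mul_of_nonneg_left h2 (by norm_num))
  have b1 := mul_le_mul_of_nonneg_right a1 (norm_nonneg (!![0, 1, 0; 0, 0, 0; 0, 0, 0] : E))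
  have b2 := mul_le_mul_of_nonneg_right a2 (norm_nonneg (!![0, 0, 0; 0, 0, 1; 0, 0, 0] : E))
  have b3 := mul_le_mul_of_nonneg_right a3 (norm_nonneg (!![0, 0, 1; 0, 0, 0; 0, 0, 0] : E))
  nlinarith

lemma be_smul (k : ℕ × ℕ) (c : ℂ) (x : X) : be k (c • x) = c * be k x := by
  unfold be; split_ifs <;> simp <;> ring

lemma be_add (k : ℕ × ℕ) (x y : X) : be k (x + y) = be k x + be k y := by
  unfold be; split_ifs <;> simp <;> ring

lemma th_add (k : ℕ × ℕ) (p q : N) : th k (p + q) = th k p + th k q := by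
  have h1 : al k (p.1 + q.1) = al k p.1 + al k q.1 := by
    unfold al; split_ifs <;> simp <;> ring
  have h3 : ga k (p.2 + q.2) = ga k p.2 + ga k q.2 := by
    unfold ga; split_ifs <;> simp [be_add] <;> ring
  simp only [th, add_fst, add_snd, h1, h3, be_add, add_smul]
  abel

lemma th_smul (k : ℕ × ℕ) (c : ℂ) (p : N) : th k (c • p) = c • th k p := by
  have h1 : al k (c • p.1) = c * al k p.1 := by
    unfold al; split_ifs <;> simp <;> ring
  have h3 : ga k (c • p.2) = c * ga k p.2 := by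
    unfold ga; split_ifs <;> simp [be_smul] <;> ring
  simp only [th, smul_fst, smul_snd, h1, h3, be_smul, smul_add, mul_smul]

lemma th_mul (k : ℕ × ℕ) (p q : N) : th k (p * q) = th k p * th k q := by
  have h1 : al k 0 = 0 := by unfold al; split_ifs <;> simp
  have h2 : be k 0 = 0 := by unfold be; split_ifs <;> simp
  have h3 : ga k (tens p.1 q.1) = al k p.1 * be k q.1 := by
    unfold ga al; split_ifs <;> simp [be_smul] <;> ring
  simp only [th, mul_fst, mul_snd, h1, h2, h3]
  ext i j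
  fin_cases i <;> fin_cases j <;> simp [Matrix.mul_apply, Fin.sum_univ_three]

noncomputable def Th : N →L[ℂ] (I →ᵇ E) :=
  LinearMap.mkContinuous
    { toFun := fun p => BoundedContinuousFunction.ofNormedAddCommGroupDiscrete
        (fun i : I => th i.1 p) (C0 * ‖p‖) (fun i => th_le i.1 p)
      map_add' := fun p q => by ext1 i; exact th_add i.1 p q
      map_smul' := fun c p => by ext1 i; exact th_smul i.1 c p } C0 fun p => by
    refine (BoundedContinuousFunction.norm_le ((norm_nonneg _).trans (th_le (0, 0) p))).2 ?_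
    exact fun i => th_le i.1 p

@[simp] lemma Th_apply (p : N) (i : I) : Th p i = th i.1 p := rfl

def F : Filter I := comap Prod.snd atTop

def Van (g : I →ᵇ E) : Prop := Tendsto g F (𝓝 0)

lemma van_closed : IsClosed {g : I →ᵇ E | Van g} := by
  refine isClosed_of_closure_subset fun g hg => ?_
  refine Metric.tendsto_nhds.2 fun ε hε => ?_
  obtain ⟨f, hf, hd⟩ := Metric.mem_closure_iff.1 hg (ε / 2) (by positivity)
  filter_upwards [Metric.tendsto_nhds.1 hf (ε / 2) (by positivity)] with i hi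
  have := BoundedContinuousFunction.dist_coe_le_dist (f := g) (g := f) i
  linarith [dist_triangle (g i) (f i) 0]

lemma Van.mul_left {g : I →ᵇ E} (f : I →ᵇ E) (h : Van g) : Van (f * g) := by
  refine squeeze_zero_norm (a := fun i => ‖f‖ * ‖g i‖) (fun i => ?_) ?_
  · exact (norm_mul_le _ _).trans
      (mul_le_mul_of_nonneg_right (f.norm_coe_le_norm i) (norm_nonneg _))
  · simpa using (tendsto_zero_iff_norm_tendsto_zero.1 h).const_mul ‖f‖

lemma Van.mul_right {g : I →ᵇ E} (f : I →ᵇ E) (h : Van g) : Van (g * f) := by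
  refine squeeze_zero_norm (a := fun i => ‖g i‖ * ‖f‖) (fun i => ?_) ?_
  · exact (norm_mul_le _ _).trans
      (mul_le_mul_of_nonneg_left (f.norm_coe_le_norm i) (norm_nonneg _))
  · simpa using (tendsto_zero_iff_norm_tendsto_zero.1 h).mul_const ‖f‖

lemma Van.add {f g : I →ᵇ E} (hf : Van f) (hg : Van g) : Van (f + g) := by
  have := Tendsto.add hf hg
  rw [add_zero] at this
  exact this

lemma van_zero : Van 0 := tendsto_const_nhds (x := (0 : E))

lemma Th_mul (p q : N) : Th (p * q) = Th p * Th q := by ext1 i; exact th_mul i.1 p q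

noncomputable def AS : NonUnitalSubalgebra ℂ (N × (I →ᵇ E)) where
  carrier := {a | Van (a.2 - Th a.1)}
  add_mem' {a b} ha hb := by
    have := Van.add ha hb
    change Van (a.2 + b.2 - Th (a.1 + b.1))
    rw [map_add]; convert this using 1; abel
  zero_mem' := by
    change Van (0 - Th 0)
    simpa using van_zero
  mul_mem' {a b} ha hb := by
    have := Van.add (Van.mul_left a.2 hb) (Van.mul_right (Th b.1) ha)
    change Van (a.2 * b.2 - Th (a.1 * b.1))
    rw [Th_mul]; convert this using 1; noncomm_ring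
  smul_mem' c a ha := by
    change Van (c • a.2 - Th (c • a.1))
    rw [map_smul, ← smul_sub]
    simpa [Van] using Tendsto.const_smul ha c

instance : CompleteSpace AS :=
  (van_closed.preimage (f := fun a : N × (I →ᵇ E) => a.2 - Th a.1) (by fun_prop)).completeSpace_coe

/-- embed N -/
noncomputable def iN (p : N) : AS := ⟨(p, Th p), by
  change Van (Th p - Th p)
  simpa using van_zero⟩

noncomputable def iD (g : I →ᵇ E) (hg : Van g) : AS := ⟨(0, g), by
  change Van (g - Th 0)
  simpa using hg⟩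

lemma iN_mul (p q : N) : iN p * iN q = iN (p * q) := Subtype.ext (Prod.ext rfl (Th_mul p q).symm)

lemma norm_iN (p : N) : ‖iN p‖ ≤ (C0 + 1) * ‖p‖ := by
  have h0 : 0 ≤ C0 := by unfold C0; positivity
  change max ‖p‖ ‖Th p‖ ≤ _
  have : ‖Th p‖ ≤ C0 * ‖p‖ :=
    (BoundedContinuousFunction.norm_le (by positivity)).2 fun i => th_le i.1 p
  exact max_le (by nlinarith [norm_nonneg p]) (by nlinarith [norm_nonneg p])

noncomputable def r0 : Z := ⟨fun n => lp.single 1 n ((1 / 2 : ℂ) ^ n), memℓp_gen (by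
  simpa [lp.norm_single] using summable_geometric_of_lt_one (r := (2:ℝ)⁻¹) (by norm_num)
    (by norm_num))⟩

lemma r0_apply (n m : ℕ) : r0 n m = if m = n then (1 / 2 : ℂ) ^ n else 0 := by
  change (lp.single 1 n ((1 / 2 : ℂ) ^ n) : X) m = _
  simp [lp.single_apply, Pi.single_apply]

noncomputable def rN : N := ((0, r0) : X × Z)

lemma th_r (k : ℕ × ℕ) : th k rN = 0 := by
  have h1 : al k 0 = 0 := by unfold al; split_ifs <;> simp
  have h2 : be k 0 = 0 := by unfold be; split_ifs <;> simp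
  have h3 : ga k r0 = 0 := by
    unfold ga be
    by_cases h : k.1 = k.2
    · simp only [if_pos h, r0_apply]
      by_cases h0 : k.1 = 0
      · simp [h0]
      · simp [h0, Ne.symm h0]
    · simp only [if_neg h, r0_apply, if_neg (Ne.symm h)]
  change al k 0 • _ + be k 0 • _ + ga k r0 • _ = _
  simp [h1, h2, h3]

lemma ker_th (p : N) (h : ∀ k, th k p = 0) : p = p.2 0 0 • rN := by
  have h1 : ∀ k, al k p.1 = 0 := fun k => by simpa [th] using congrFun (congrFun (h k) 0) 1
  have h3 : ∀ k, ga k p.2 = 0 := fun k => by simpa [th] using congrFun (congrFun (h k) 0) 2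
  have off : ∀ n m, n ≠ m → p.2 n m = 0 := fun n m hnm => by
    simpa [ga, be, hnm] using h3 (n, m)
  refine N.ext ?_ fun n => ?_
  · ext n
    simpa [al, rN] using h1 (n, n + 1)
  · ext m
    change p.2 n m = p.2 0 0 * r0 n m
    rw [r0_apply]
    by_cases hm : m = n
    · subst hm
      by_cases h0 : m = 0
      · simp [h0]
      · have := h3 (m, m)
        simp only [ga, be, if_true, off m 0 h0, off 0 m (Ne.symm h0)] at this ⊢
        linear_combination -this
    · simp [hm, off n m (Ne.symm hm)]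

end Pool.Agent.Lib.helper15.PropS
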