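import Mathlib
import Pool.Agent.Lib.helper15.Rat1

open Polynomial Metric Real

namespace Pool.Agent.Lib.helper15.Rat

lemma prod_cmp (s : Multiset ℂ) (f : ℂ → ℂ) (g : ℂ → ℝ) (h : ∀ a ∈ s, |g a| ≤ ‖f a‖) :
    |(s.map g).prod| ≤ ‖(s.map f).prod‖ := by
  induction s using Multiset.induction_on with
  | empty => simp
  | cons a s ih =>
    simp only [Multiset.map_cons, Multiset.prod_cons, abs_mul, norm_mul]
    exact mul_le_mul (h a (Multiset.mem_cons_self _ _))
      (ih fun b hb => h b (Multiset.mem_cons_of_mem hb)) (abs_nonneg _) (norm_nonneg _)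

lemma prod_le (s : Multiset ℂ) (f : ℂ → ℂ) {c : ℝ} (hc : 0 ≤ c) (h : ∀ a ∈ s, ‖f a‖ ≤ c) :
    ‖(s.map f).prod‖ ≤ c ^ s.card := by
  induction s using Multiset.induction_on with
  | empty => simp
  | cons a s ih =>
    simp only [Multiset.map_cons, Multiset.prod_cons, norm_mul, Multiset.card_cons, pow_succ']
    exact mul_le_mul (h a (Multiset.mem_cons_self _ _))
      (ih fun b hb => h b (Multiset.mem_cons_of_mem hb)) (norm_nonneg _) hc

lemma log_ms (t : Multiset ℂ) (ht : ∀ a ∈ t, 1 / 4 ≤ ‖a‖) : ∃ f : ℂ → ℂ,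
    DifferentiableOn ℂ f (ball 0 (1 / 4)) ∧ f 0 = 0 ∧ ∀ w ∈ ball (0 : ℂ) (1 / 4),
      Complex.exp (f w) * (t.map fun a => 0 - a).prod = (t.map fun a => w - a).prod := by
  induction t using Multiset.induction_on with
  | empty => exact ⟨fun _ => 0, differentiableOn_const _, rfl, by simp⟩
  | cons a t ih =>
    obtain ⟨f, h1, h2, h3⟩ := ih fun b hb => ht b (Multiset.mem_cons_of_mem hb)
    have ha := ht a (Multiset.mem_cons_self _ _)
    have ha0 : 0 < ‖a‖ := by linarith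
    have h4 : ∀ w ∈ ball (0 : ℂ) (1 / 4), 1 - w / a ∈ Complex.slitPlane := fun w hw => by
      refine Complex.ball_one_subset_slitPlane ?_
      rw [mem_ball, dist_eq_norm, sub_sub_cancel_left, norm_neg, norm_div, div_lt_one ha0]
      exact (mem_ball_zero_iff.1 hw).trans_le ha
    refine ⟨fun w => Complex.log (1 - w / a) + f w,
      (DifferentiableOn.clog (by fun_prop) h4).add h1, by simp [h2], fun w hw => ?_⟩
    simp only [Multiset.map_cons, Multiset.prod_cons]
    rw [Complex.exp_add, Complex.exp_log (Complex.slitPlane_ne_zero (h4 w hw)), ← h3 w hw]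
    have := norm_pos_iff.1 ha0
    field_simp
    ring

lemma node (s : Multiset ℝ) : ∃ i : ℕ, i ≤ s.card ∧
    (s.card.factorial : ℝ) ≤ 2 ^ s.card * |(s.map fun y => (i : ℝ) - y).prod| := by
  set S : ℝ[X] := (s.map fun y => X - C y).prod with hS
  have h1 : S.natDegree = s.card := natDegree_multiset_prod_X_sub_C_eq_card s
  have h2 : S.leadingCoeff = 1 := monic_multisetProd_X_sub_C s
  have h3 := congrFun S.fwdDiff_iter_degree_eq_factorial 0
  rw [fwdDiff_iter_eq_sum_shift, h1, h2] at h3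
  obtain ⟨i, hi, h4⟩ := Finset.exists_max_image (Finset.range (s.card + 1))
    (fun i : ℕ => |S.eval (i : ℝ)|) ⟨0, by simp⟩
  refine ⟨i, Nat.lt_succ_iff.1 (Finset.mem_range.1 hi), ?_⟩
  have h5 : S.eval (i : ℝ) = (s.map fun y => (i : ℝ) - y).prod := by
    rw [hS, eval_multiset_prod, Multiset.map_map]; simp
  have h6 : (s.card.factorial : ℝ) = ∑ k ∈ Finset.range (s.card + 1),
      ((-1 : ℤ) ^ (s.card - k) * s.card.choose k) • S.eval (0 + k • (1 : ℝ)) := by
    rw [h3]; simp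
  rw [← h5, h6]
  calc _ ≤ ∑ k ∈ Finset.range (s.card + 1), (s.card.choose k : ℝ) * |S.eval (i : ℝ)| := by
        refine Finset.sum_le_sum fun k hk => (le_abs_self _).trans ?_
        have := h4 k hk
        simp only [zsmul_eq_mul, abs_mul, Int.cast_mul, Int.cast_pow, Int.cast_neg, Int.cast_one,
          abs_pow, abs_neg, abs_one, one_pow, one_mul, Int.cast_natCast, Nat.abs_cast, zero_add,
          nsmul_eq_mul, mul_one]
        exact mul_le_mul_of_nonneg_left this (by positivity)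
    _ = _ := by
        rw [← Finset.sum_mul, ← Nat.cast_sum, Nat.sum_range_choose]; simp

lemma radius (s : Multiset ℂ) : ∃ r ∈ Set.Icc (1 / 16 : ℝ) (1 / 8),
    exp (-5 * s.card) ≤ |(s.map fun a => r - ‖a‖).prod| := by
  rcases Nat.eq_zero_or_pos s.card with h | h
  · exact ⟨1 / 16, by norm_num, by rw [Multiset.card_eq_zero.1 h]; simp⟩
  have hn : (0 : ℝ) < s.card := by exact_mod_cast h
  obtain ⟨i, h1, h2⟩ := node (s.map fun a => (‖a‖ - 1 / 16) * (16 * s.card))
  rw [Multiset.card_map] at h1 h2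
  have h3 : (i : ℝ) ≤ s.card := by exact_mod_cast h1
  refine ⟨1 / 16 + i / (16 * s.card), ⟨le_add_of_nonneg_right (by positivity), ?_⟩, ?_⟩
  · have : (i / (16 * s.card) : ℝ) ≤ 1 / 16 := by rw [div_le_iff₀ (by positivity)]; linarith
    linarith
  · have e : ((s.map fun a => (‖a‖ - 1 / 16) * (16 * s.card)).map fun y => (i : ℝ) - y).prod =
        (s.map fun a => 1 / 16 + i / (16 * s.card) - ‖a‖).prod * (16 * s.card) ^ s.card := by
      rw [Multiset.map_map, ← Multiset.prod_replicate, ← Multiset.map_const',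
        ← Multiset.prod_map_mul]
      congr 1
      refine Multiset.map_congr rfl fun a _ => ?_
      simp only [Function.comp]
      field_simp
      ring
    rw [e, abs_mul, abs_of_nonneg (a := (16 * s.card : ℝ) ^ s.card) (by positivity)] at h2
    have h4 := pow_div_factorial_le_exp _ hn.le s.card
    rw [div_le_iff₀ (by positivity)] at h4
    have h5 : (32 : ℝ) ^ s.card ≤ exp (4 * s.card) := by
      rw [mul_comm, exp_nat_mul]
      refine pow_le_pow_left₀ (by norm_num) ?_ _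
      have h6 : (2.7 : ℝ) ^ 4 ≤ exp 1 ^ 4 :=
        pow_le_pow_left₀ (by norm_num) (by linarith [exp_one_gt_d9]) 4
      rw [← exp_nat_mul] at h6
      norm_num at h6 ⊢
      linarith
    set y := |(s.map fun a => 1 / 16 + i / (16 * s.card) - ‖a‖).prod|
    have hy : 0 ≤ y := abs_nonneg _
    have h6 : (s.card : ℝ) ^ s.card * 1 ≤ s.card ^ s.card * (exp (5 * s.card) * y) := by
      calc _ ≤ exp s.card * (2 ^ s.card * (y * (16 * s.card) ^ s.card)) := by
            rw [mul_one]; exact h4.trans (mul_le_mul_of_nonneg_left h2 (exp_pos _).le)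
        _ = s.card ^ s.card * (exp s.card * 32 ^ s.card * y) := by
            rw [show (32 : ℝ) = 2 * 16 by norm_num, mul_pow, mul_pow]; ring
        _ ≤ s.card ^ s.card * (exp s.card * exp (4 * s.card) * y) := by gcongr
        _ = _ := by rw [← exp_add]; congr 3; ring
    have h7 := le_of_mul_le_mul_left h6 (by positivity)
    rw [neg_mul, exp_neg, inv_le_iff_one_le_mul₀' (exp_pos _)]
    exact h7

theorem minmod (P : ℂ[X]) {M L : ℝ} (hM : 0 < M) (hL : 0 < L)
    (h1 : ∀ w : ℂ, ‖w‖ ≤ 1 → ‖P.eval w‖ ≤ M) (h2 : M * exp (-L) ≤ ‖P.eval 0‖) :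
    ∃ r ∈ Set.Icc (1 / 16 : ℝ) (1 / 8), ∀ w : ℂ, ‖w‖ ≤ r →
      (‖w‖ = r ∨ ∀ a ∈ P.roots, r ≤ ‖a‖) → M * exp (-10 * L) ≤ ‖P.eval w‖ := by
  classical
  set s := P.roots.filter fun a => ‖a‖ < 1 / 4 with hs
  set t := P.roots.filter fun a => ¬ ‖a‖ < 1 / 4 with ht
  have hs1 : ∀ a ∈ s, ‖a‖ < 1 / 4 := fun a ha => (Multiset.mem_filter.1 ha).2
  let Q : ℂ → ℂ := fun w => P.leadingCoeff * (t.map fun a => w - a).prod
  have hP : ∀ w, ‖P.eval w‖ = ‖(s.map fun a => w - a).prod‖ * ‖Q w‖ := fun w => by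
    rw [(IsAlgClosed.splits P).eval_eq_prod_roots, ← norm_mul,
      ← Multiset.filter_add_not (fun a => ‖a‖ < 1 / 4) P.roots, Multiset.map_add,
      Multiset.prod_add]
    congr 1; ring
  have hQd : Differentiable ℂ Q := by
    have : Q = fun w => (C P.leadingCoeff * (t.map fun a => X - C a).prod).eval w := by
      funext w; rw [eval_mul, eval_multiset_prod, Multiset.map_map]; simp [Q]
    rw [this]; exact Polynomial.differentiable _
  have hQ : ∀ w : ℂ, ‖w‖ ≤ 1 → ‖Q w‖ ≤ M * (4 / 3) ^ s.card := fun w hw => by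
    refine Complex.norm_le_of_forall_mem_frontier_norm_le (isBounded_ball (x := 0) (r := 1))
      hQd.diffContOnCl (fun z hz => ?_) (by rw [closure_ball _ one_ne_zero]; simpa using hw)
    rw [frontier_ball _ one_ne_zero, mem_sphere_zero_iff_norm] at hz
    have a1 := prod_cmp s (fun a => z - a) (fun _ => 3 / 4) fun a ha => by
      have := norm_sub_norm_le z a
      rw [abs_of_pos (by norm_num)]
      linarith [hs1 a ha]
    rw [Multiset.map_const', Multiset.prod_replicate, abs_of_pos (by positivity)] at a1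
    have a2 := (mul_le_mul_of_nonneg_right a1 (norm_nonneg (Q z))).trans ((hP z).symm ▸ h1 z hz.le)
    have a3 := mul_le_mul_of_nonneg_right a2 (by positivity : (0 : ℝ) ≤ (4 / 3) ^ s.card)
    rwa [mul_right_comm, ← mul_pow, show (3 / 4 * (4 / 3) : ℝ) = 1 by norm_num, one_pow,
      one_mul] at a3
  have hB0 := prod_le s (fun a => 0 - a) (c := 1 / 4) (by norm_num) fun a ha => by
    simpa using (hs1 a ha).le
  have hn : (s.card : ℝ) ≤ L := by
    have a1 := mul_le_mul hB0 (hQ 0 (by simp)) (norm_nonneg _) (by positivity)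
    rw [← hP, mul_left_comm, ← mul_pow] at a1
    have a2 := le_of_mul_le_mul_left (h2.trans a1) hM
    have a3 : (1 / 4 * (4 / 3) : ℝ) ^ s.card ≤ exp (-1) ^ s.card := by
      refine pow_le_pow_left₀ (by norm_num) ?_ _
      rw [exp_neg, le_inv_comm₀ (by norm_num) (exp_pos _)]
      linarith [exp_one_lt_d9]
    rw [← exp_nat_mul] at a3
    have := exp_le_exp.1 (a2.trans a3)
    linarith
  have hQ0 : M * exp (-L) ≤ ‖Q 0‖ := by
    rw [hP] at h2
    exact h2.trans (mul_le_of_le_one_left (norm_nonneg _)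
      (hB0.trans (pow_le_one₀ (by norm_num) (by norm_num))))
  obtain ⟨f, f1, f2, f3⟩ := log_ms t fun a ha => not_lt.1 (Multiset.mem_filter.1 ha).2
  have f4 : ∀ w ∈ ball (0 : ℂ) (1 / 4), ‖Q w‖ = exp (f w).re * ‖Q 0‖ := fun w hw => by
    simp only [Q]
    rw [← f3 w hw, ← Complex.norm_exp, ← norm_mul, mul_left_comm]
  have f5 : Set.MapsTo f (ball 0 (1 / 4)) {z | z.re ≤ 2 * L} := fun w hw => by
    have a1 := hQ w (by linarith [mem_ball_zero_iff.1 hw])
    have a2 : (4 / 3 : ℝ) ^ s.card ≤ exp 1 ^ s.card :=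
      pow_le_pow_left₀ (by norm_num) (by linarith [exp_one_gt_d9]) _
    rw [← exp_nat_mul, mul_one] at a2
    have a3 := mul_le_mul_of_nonneg_left hQ0 (exp_pos (f w).re).le
    rw [← f4 w hw, mul_left_comm, ← exp_add] at a3
    have a4 := le_of_mul_le_mul_left ((a3.trans a1).trans
      (mul_le_mul_of_nonneg_left (a2.trans (exp_le_exp.2 hn)) hM.le)) hM
    have := exp_le_exp.1 a4
    change (f w).re ≤ 2 * L
    linarith
  obtain ⟨r, hr, h3⟩ := radius s
  refine ⟨r, hr, fun w hw h4 => ?_⟩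
  have hw8 : ‖w‖ ≤ 1 / 8 := hw.trans hr.2
  have hw4 : w ∈ ball (0 : ℂ) (1 / 4) := mem_ball_zero_iff.2 (by linarith)
  have a1 := Complex.borelCaratheodory_zero (by positivity) f1 f5 (by norm_num) hw4 f2
  have a2 : ‖f w‖ ≤ 4 * L := a1.trans (by rw [div_le_iff₀ (by linarith)]; nlinarith)
  have a3 : -(4 * L) ≤ (f w).re := by
    linarith [neg_abs_le (f w).re, Complex.abs_re_le_norm (f w)]
  have a4 := h3.trans (prod_cmp s (fun a => w - a) _ fun a ha => by
    rcases h4 with h4 | h4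
    · rw [← h4]; exact abs_norm_sub_norm_le _ _
    · have := h4 a (Multiset.mem_filter.1 ha).1
      have := norm_sub_norm_le a w
      rw [abs_of_nonpos (by linarith), norm_sub_rev]
      linarith)
  rw [hP, f4 w hw4]
  calc _ = exp (-5 * L) * (exp (-(4 * L)) * (M * exp (-L))) := by
        rw [mul_left_comm (exp _) M, mul_left_comm (exp _) M, ← exp_add, ← exp_add]; congr 2; ring
    _ ≤ _ := mul_le_mul ((exp_le_exp.2 (by linarith)).trans a4)
        (mul_le_mul (exp_le_exp.2 a3) hQ0 (by positivity) (exp_pos _).le) (by positivity)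
        (norm_nonneg _)

lemma three (P : ℂ[X]) {M η : ℝ} (x0 : ℂ) {R : ℝ} (hR : 0 < R)
    (h1 : ∀ x, ‖x - x0‖ ≤ R → ‖P.eval x‖ ≤ M) (h2 : ∀ x, ‖x - x0‖ = R / 64 → ‖P.eval x‖ ≤ η)
    (hη : 0 < η) (hηM : η ≤ M) {β : ℝ} (x : ℂ) (h3 : R / 64 ≤ ‖x - x0‖)
    (h4 : ‖x - x0‖ ≤ R * (1 - β)) (hβ : 0 ≤ β) : ‖P.eval x‖ ≤ M * (η / M) ^ (β / 5) := by
  have hM : 0 < M := hη.trans_le hηM
  have hx : 0 < ‖x - x0‖ := lt_of_lt_of_le (by positivity) h3
  have hl : 0 < log 64 := log_pos (by norm_num)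
  have hl5 : log 64 ≤ 5 := by
    rw [show (64 : ℝ) = 2 ^ 6 by norm_num, log_pow]
    have := log_two_lt_d9
    push_cast; linarith
  have hn : ∀ z : ℂ, ‖x0 + R * Complex.exp z - x0‖ = R * exp z.re := fun z => by
    rw [add_sub_cancel_left, norm_mul, Complex.norm_exp, Complex.norm_real, norm_of_nonneg hR.le]
  set z := Complex.log ((x - x0) / R) with hz
  have hzr : z.re = log (‖x - x0‖ / R) := by
    rw [hz, Complex.log_re, norm_div, Complex.norm_real, norm_of_nonneg hR.le]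
  have z1 : -log 64 ≤ z.re := by
    rw [hzr, ← log_inv]
    refine log_le_log (by norm_num) ?_
    rw [le_div_iff₀ hR]; linarith
  have z2 : z.re ≤ -β := by
    rw [hzr]
    have := log_le_sub_one_of_pos (div_pos hx hR)
    have h5 : ‖x - x0‖ / R ≤ 1 - β := by rw [div_le_iff₀ hR]; linarith
    linarith
  have hb : ∀ w : ℂ, w.re ≤ 0 → ‖P.eval (x0 + R * Complex.exp w)‖ ≤ M := fun w hw =>
    h1 _ (by rw [hn]; exact mul_le_of_le_one_right hR.le (exp_le_one_iff.2 hw))
  have key := Complex.HadamardThreeLines.norm_le_interp_of_mem_verticalClosedStrip'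
    (f := fun w => P.eval (x0 + R * Complex.exp w)) (z := z) (a := η) (b := M) (l := -log 64)
    (u := 0) (by linarith) ⟨z1, by linarith⟩
    (P.differentiable.comp (by fun_prop)).diffContOnCl
    ⟨M, by rintro _ ⟨w, hw, rfl⟩; exact hb w hw.2⟩
    (fun w hw => h2 _ (by
      rw [hn, show w.re = -log 64 from hw, exp_neg, exp_log (by norm_num)]; ring))
    (fun w hw => hb w (le_of_eq hw))
  have e : x0 + R * Complex.exp z = x := by
    have : (R : ℂ) ≠ 0 := by exact_mod_cast hR.ne'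
    rw [hz, Complex.exp_log (div_ne_zero (norm_pos_iff.1 hx) this)]
    field_simp; ring
  simp only [e] at key
  set θ := 1 - (z.re - -log 64) / (0 - -log 64) with hθ
  have hθ2 : β / 5 ≤ θ := by
    have : θ = -z.re / log 64 := by rw [hθ, zero_sub, neg_neg]; field_simp; ring
    rw [this]
    exact div_le_div₀ (by linarith) (by linarith) hl hl5
  have e2 : (z.re - -log 64) / (0 - -log 64) = 1 - θ := by rw [hθ]; ring
  rw [e2, rpow_sub hM, rpow_one] at key
  calc _ ≤ _ := key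
    _ = M * (η / M) ^ θ := by rw [div_rpow hη.le hM.le]; ring
    _ ≤ _ := mul_le_mul_of_nonneg_left (rpow_le_rpow_of_exponent_ge (by positivity)
        (div_le_one_of_le₀ hηM hM.le) hθ2) hM.le

theorem pcore (p : ℝ → ℂ[X]) {M R β L ε : ℝ} (hM : 1 ≤ M) (hR : 0 < R) (hR1 : R < 1) (hβ : 0 ≤ β)
    (hL : 1 ≤ L) (h1 : ∀ t ∈ Set.Icc (1 : ℝ) 3, ∀ x : ℂ, ‖x‖ ≤ 1 → ‖(p t).eval x‖ ≤ M)
    (h2 : ∀ s ∈ Set.Icc (1 : ℝ) 2, ∀ t ∈ Set.Icc (1 : ℝ) 2, ∀ x : ℂ, ‖x‖ ≤ 1 - R / 2 →
      ‖(p (s + t)).eval x - (p s).eval x * (p t).eval x‖ ≤ ε)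
    (h3 : ∀ x0 : ℂ, ‖x0‖ = 1 - R → ∃ x : ℂ, R / 64 ≤ ‖x - x0‖ ∧ ‖x - x0‖ ≤ R * (1 - β) ∧
      M * exp (-L * (β / 5)) < ‖(p 3).eval x‖)
    (h4 : (p 3).eval 0 = 0) (h5 : ε < (exp (-10 * L) / 2) ^ 2) : False := by
  have hM0 : 0 < M := by linarith
  set μ := exp (-10 * L) / 2 with hμ
  have hμ0 : 0 < μ := by positivity
  have hμ1 : μ ≤ 1 := by
    have : exp (-10 * L) ≤ 1 := exp_le_one_iff.2 (by linarith)
    linarith
  have hε : ε ≤ M * μ := by nlinarith
  have h12 : ∀ t ∈ Set.Icc (1 : ℝ) 2, t ∈ Set.Icc (1 : ℝ) 3 := fun t ht =>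
    ⟨ht.1, by linarith [ht.2]⟩
  have h33 : (3 : ℝ) ∈ Set.Icc (1 : ℝ) 3 := by norm_num
  have low : ∀ x0 ∈ sphere (0 : ℂ) (1 - R), 2 * M * μ ≤ ‖(p 3).eval x0‖ := by
    intro x0 hx0
    rw [mem_sphere_zero_iff_norm] at hx0
    obtain ⟨x, a1, a2, a3⟩ := h3 x0 hx0
    obtain ⟨x1, b1, b2⟩ : ∃ x1, ‖x1 - x0‖ = R / 64 ∧ M * exp (-L) ≤ ‖(p 3).eval x1‖ := by
      by_contra hc
      push Not at hc
      have := three (p 3) x0 hR (fun y hy => h1 3 h33 y (by
        linarith [norm_le_norm_sub_add y x0])) (fun y hy => (hc y hy).le) (by positivity)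
        (mul_le_of_le_one_right hM0.le (exp_le_one_iff.2 (by linarith))) x a1 a2 hβ
      rw [mul_div_cancel_left₀ _ hM0.ne', ← exp_mul] at this
      linarith
    let q : ℝ → ℂ[X] := fun t => (p t).comp (C x1 + C (R / 3 : ℂ) * X)
    have hq : ∀ t w, (q t).eval w = (p t).eval (x1 + R / 3 * w) := fun t w => by
      simp [q, eval_comp]
    have hR3 : ‖(R / 3 : ℂ)‖ = R / 3 := by simp [hR.le]
    have hin : ∀ w : ℂ, ‖w‖ ≤ 1 → ‖x1 + R / 3 * w‖ ≤ 1 - R / 2 := fun w hw => by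
      have c1 := norm_add_le x1 (R / 3 * w)
      have c2 := norm_le_norm_sub_add x1 x0
      rw [norm_mul, hR3] at c1
      nlinarith
    obtain ⟨r, hr, c1⟩ := minmod (q 3) (L := L) hM0 (by linarith)
      (fun w hw => by rw [hq]; exact h1 3 h33 _ (by linarith [hin w hw])) (by simpa [hq] using b2)
    have hs : ∀ z ∈ sphere (0 : ℂ) r, ‖z‖ ≤ 1 := fun z hz => by
      rw [mem_sphere_zero_iff_norm.1 hz]; linarith [hr.2]
    have e : 2 * M * μ = M * exp (-10 * L) := by rw [hμ]; ring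
    have c2 := zero_free (by linarith [hr.1]) q hM0
      (fun z hz t ht => by rw [hq]; exact h1 t (h12 t ht) _ (by linarith [hin z (hs z hz)]))
      (fun z hz s hs' t ht => by rw [hq, hq, hq]; exact h2 s hs' t ht _ (hin z (hs z hz)))
      (fun z hz => e ▸ c1 z (mem_sphere_zero_iff_norm.1 hz).le
        (Or.inl (mem_sphere_zero_iff_norm.1 hz))) hμ0.le hε h5
    have hRc : (R : ℂ) ≠ 0 := by exact_mod_cast hR.ne'
    have c3 := c1 ((x0 - x1) / (R / 3)) (by
      rw [norm_div, hR3, norm_sub_rev, b1, div_le_iff₀ (by positivity)]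
      nlinarith [hr.1]) (Or.inr c2)
    rw [hq, show x1 + R / 3 * ((x0 - x1) / (R / 3)) = x0 by field_simp; ring] at c3
    rwa [e]
  have hs : ∀ z ∈ sphere (0 : ℂ) (1 - R), ‖z‖ ≤ 1 - R / 2 := fun z hz => by
    rw [mem_sphere_zero_iff_norm.1 hz]; linarith
  have c := zero_free (by linarith) p hM0
    (fun z hz t ht => h1 t (h12 t ht) _ (by linarith [hs z hz]))
    (fun z hz s hs' t ht => h2 s hs' t ht _ (hs z hz)) low hμ0.le hε h5 0 (by
      refine (mem_roots fun h0 => ?_).2 h4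
      have := low ((1 - R : ℝ) : ℂ) (by
        rw [mem_sphere_zero_iff_norm, Complex.norm_real, norm_of_nonneg (by linarith)])
      rw [h0, eval_zero, norm_zero] at this
      nlinarith [mul_pos hM0 hμ0])
  rw [norm_zero] at c
  linarith

end Pool.Agent.Lib.helper15.Rat
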