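import Mathlib
import Pool.Agent.Lib.helper15.Rat2

open Polynomial Metric Real Filter Topology

namespace Pool.Agent.Lib.helper15.Rat

abbrev Qp := {q : ℚ // 0 < q}

lemma hs_congr {ι : Type} {f g : ι → ℂ} {a : ℂ} (h : HasSum f a)
    (e : ∀ q, g q = f q) : HasSum g a := (funext e : g = f) ▸ h

def La (N : ℕ) (q : Qp) : Prop := ∃ k < N, q.1 * N = (k : ℕ)

noncomputable def kk (N : ℕ) (q : Qp) : ℕ := ⌊q.1 * N⌋₊

lemma kk_eq {N k : ℕ} {q : Qp} (h : q.1 * N = (k : ℕ)) : kk N q = k := by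
  rw [kk, h, Nat.floor_natCast]

open Classical in
noncomputable def ee (N : ℕ) (x : ℂ) (q : Qp) : ℂ := if La N q then x ^ kk N q else 0

lemma ee_le {x : ℂ} (hx : ‖x‖ ≤ 1) (N : ℕ) (q : Qp) : ‖ee N x q‖ ≤ 1 := by
  unfold ee
  split_ifs
  · rw [norm_pow]; exact pow_le_one₀ (norm_nonneg _) hx
  · simp

lemma La_fin (N : ℕ) : {q | La N q}.Finite := by
  rcases Nat.eq_zero_or_pos N with h | h
  · simp [La, h]
  refine Set.Finite.of_finite_image (f := fun q : Qp => q.1 * N)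
    (((Set.finite_lt_nat N).image fun k : ℕ => (k : ℚ)).subset ?_) fun p _ q _ hpq => ?_
  · rintro _ ⟨q, ⟨k, hk, h⟩, rfl⟩
    exact ⟨k, hk, h.symm⟩
  · exact Subtype.ext (mul_right_cancel₀ (by positivity) hpq)

noncomputable def poly (N : ℕ) (f : Qp → ℂ) : ℂ[X] :=
  ∑ q ∈ (La_fin N).toFinset, monomial (kk N q) (f q)

lemma eval_poly (N : ℕ) (f : Qp → ℂ) (x : ℂ) : (poly N f).eval x = ∑' q, f q * ee N x q := by
  rw [poly, eval_finsetSum, tsum_eq_sum (s := (La_fin N).toFinset) fun q hq => by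
    rw [ee, if_neg (by simpa using hq), mul_zero]]
  exact Finset.sum_congr rfl fun q hq => by rw [eval_monomial, ee, if_pos (by simpa using hq)]

lemma norm_ee {x : ℂ} (hx : ‖x‖ ≤ 1) (N : ℕ) (c : ℂ) (q : Qp) : ‖c * ee N x q‖ ≤ ‖c‖ := by
  rw [norm_mul]; exact mul_le_of_le_one_right (norm_nonneg _) (ee_le hx _ _)

lemma eval_le {x : ℂ} (hx : ‖x‖ ≤ 1) (N : ℕ) {f : Qp → ℂ} (hf : Summable fun q => ‖f q‖) :
    ‖(poly N f).eval x‖ ≤ ∑' q, ‖f q‖ := by
  rw [eval_poly]; exact tsum_of_norm_bounded hf.hasSum fun q => norm_ee hx _ _ _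

lemma eval_zero' (N : ℕ) (f : Qp → ℂ) : (poly N f).eval 0 = 0 := by
  rw [eval_poly]
  refine (tsum_congr fun q => ?_).trans tsum_zero
  unfold ee
  split_ifs with h
  · obtain ⟨k, hk, h⟩ := h
    have h1 : (0 : ℚ) < N := by exact_mod_cast (by omega : 0 < N)
    have h2 : (0 : ℚ) < k := h ▸ mul_pos q.2 h1
    rw [kk_eq h, zero_pow (by exact_mod_cast h2.ne'), mul_zero]
  · exact mul_zero _

open Classical in
noncomputable def ind (N : ℕ) (q : Qp) : ℝ := if La N q then 0 else 1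

lemma ind_mem (N : ℕ) (q : Qp) : 0 ≤ ind N q ∧ ind N q ≤ 1 := by
  unfold ind; split_ifs <;> simp

lemma ee_mul {x : ℂ} (hx : ‖x‖ ≤ 1) (N : ℕ) (p q : Qp) :
    ‖ee N x (p + q) - ee N x p * ee N x q‖ ≤ ind N p + ‖x‖ ^ N := by
  have h0 : 0 ≤ ‖x‖ ^ N := by positivity
  by_cases hp : La N p
  · rw [ind, if_pos hp, zero_add, ee, ee, ee, if_pos hp]
    obtain ⟨i, hi, hp⟩ := hp
    by_cases hq : La N q
    · rw [if_pos hq]
      obtain ⟨j, hj, hq⟩ := hq
      have e : (p + q).1 * N = (i + j : ℕ) := by rw [Positive.coe_add, add_mul, hp, hq, Nat.cast_add]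
      rw [kk_eq hp, kk_eq hq, kk_eq e, ← pow_add]
      split_ifs with h
      · simpa using h0
      · rw [zero_sub, norm_neg, norm_pow]
        exact pow_le_pow_of_le_one (norm_nonneg _) hx (not_lt.1 fun h' => h ⟨_, h', e⟩)
    · rw [if_neg hq, if_neg, mul_zero, sub_zero, norm_zero]
      · exact h0
      · rintro ⟨k, hk, h⟩
        rw [Positive.coe_add, add_mul, hp] at h
        have h1 : (0 : ℚ) ≤ q.1 * N := mul_nonneg q.2.le (by positivity)
        have h2 : i ≤ k := by exact_mod_cast (by linarith : (i : ℚ) ≤ k)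
        exact hq ⟨k - i, by omega, by rw [Nat.cast_sub h2]; linarith⟩
  · rw [ind, if_neg hp, show ee N x p = 0 from if_neg hp, zero_mul, sub_zero]
    linarith [ee_le hx N (p + q)]

lemma eval_mul_le {x : ℂ} (hx : ‖x‖ ≤ 1) (N : ℕ) {f g h : Qp → ℂ} (hf : Summable fun q => ‖f q‖)
    (hg : Summable fun q => ‖g q‖)
    (hh : ∀ r : Qp, r.1 < 1 → h r = ∑' p : {p : Qp × Qp // p.1 + p.2 = r}, f p.1.1 * g p.1.2) :
    ‖(poly N h).eval x - (poly N f).eval x * (poly N g).eval x‖ ≤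
      ((∑' q, ind N q * ‖f q‖) + ‖x‖ ^ N * ∑' q, ‖f q‖) * ∑' q, ‖g q‖ := by
  have s1 : Summable fun p : Qp × Qp => f p.1 * g p.2 * ee N x (p.1 + p.2) :=
    Summable.of_norm_bounded (hf.mul_norm hg) fun p => norm_ee hx _ _ _
  have e1 : (poly N h).eval x = ∑' p : Qp × Qp, f p.1 * g p.2 * ee N x (p.1 + p.2) := by
    rw [eval_poly, ← (s1.hasSum.tsum_fiberwise fun p => p.1 + p.2).tsum_eq]
    refine tsum_congr fun r => ?_
    have : ∀ p : ((fun p : Qp × Qp => p.1 + p.2) ⁻¹' {r}),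
        f p.1.1 * g p.1.2 * ee N x (p.1.1 + p.1.2) = f p.1.1 * g p.1.2 * ee N x r := fun p => by
      rw [show p.1.1 + p.1.2 = r from p.2]
    rw [tsum_congr this, tsum_mul_right]
    by_cases hr : La N r
    · obtain ⟨k, hk, h1⟩ := hr
      have h2 : (k : ℚ) < N := by exact_mod_cast hk
      have h3 : (0 : ℚ) ≤ k := by positivity
      rw [hh r (by nlinarith)]; rfl
    · rw [show ee N x r = 0 from if_neg hr, mul_zero, mul_zero]
  have f1 : Summable fun q => ‖f q * ee N x q‖ :=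
    hf.of_nonneg_of_le (fun _ => norm_nonneg _) fun q => norm_ee hx _ _ _
  have g1 : Summable fun q => ‖g q * ee N x q‖ :=
    hg.of_nonneg_of_le (fun _ => norm_nonneg _) fun q => norm_ee hx _ _ _
  have f2 : Summable fun q => ind N q * ‖f q‖ := hf.of_nonneg_of_le
    (fun q => mul_nonneg (ind_mem N q).1 (norm_nonneg _))
    fun q => mul_le_of_le_one_left (norm_nonneg _) (ind_mem N q).2
  have f3 := f2.add (hf.mul_left (‖x‖ ^ N))
  have f4 : ∀ q, 0 ≤ ind N q * ‖f q‖ + ‖x‖ ^ N * ‖f q‖ := fun q => by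
    have := (ind_mem N q).1; positivity
  have s2 := f3.mul_of_nonneg hg f4 fun _ => norm_nonneg _
  rw [e1, eval_poly, eval_poly, tsum_mul_tsum_of_summable_norm f1 g1,
    ← s1.tsum_sub (summable_mul_of_summable_norm f1 g1), ← tsum_mul_left (a := ‖x‖ ^ N),
    ← f2.tsum_add (hf.mul_left _), f3.tsum_mul_tsum hg s2]
  refine tsum_of_norm_bounded s2.hasSum fun p => ?_
  have := mul_le_mul_of_nonneg_left (ee_mul hx N p.1 p.2)
    (mul_nonneg (norm_nonneg (f p.1)) (norm_nonneg (g p.2)))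
  calc _ = ‖f p.1‖ * ‖g p.2‖ * ‖ee N x (p.1 + p.2) - ee N x p.1 * ee N x p.2‖ := by
        rw [← norm_mul, ← norm_mul]; congr 1; ring
    _ ≤ _ := this
    _ = _ := by ring

noncomputable def av (J : ℕ) (y : ℝ) : ℂ :=
  (J : ℂ)⁻¹ * ∑ j ∈ Finset.range J, Complex.exp (y * Complex.I) ^ j

lemma av_le (J : ℕ) (y : ℝ) : ‖av J y‖ ≤ 1 := by
  rw [av, norm_mul, norm_inv, Complex.norm_natCast]
  refine inv_mul_le_one_of_le₀ ((norm_sum_le _ _).trans ?_) (by positivity)
  simp [Complex.norm_exp_ofReal_mul_I]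

lemma av_lim {y : ℝ} (h0 : y ≠ 0) (h1 : |y| < 1) : Tendsto (fun J => ‖av J y‖) atTop (𝓝 0) := by
  have h : Complex.exp (y * Complex.I) ≠ 1 := fun h => by
    obtain ⟨n, hn⟩ := Complex.exp_eq_one_iff.1 h
    have h2 : y = n * (2 * π) := by
      have : (y : ℂ) = n * (2 * π) := mul_right_cancel₀ Complex.I_ne_zero (by rw [hn]; ring)
      exact_mod_cast this
    have h3 : n ≠ 0 := by rintro rfl; simp [h0] at h2
    have h4 : (1 : ℝ) ≤ |(n : ℝ)| := by exact_mod_cast Int.one_le_abs h3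
    rw [h2, abs_mul, abs_of_pos two_pi_pos] at h1
    nlinarith [pi_gt_three]
  refine squeeze_zero (fun _ => norm_nonneg _) (fun J => ?_)
    (tendsto_const_div_atTop_nhds_zero_nat (2 / ‖Complex.exp (y * Complex.I) - 1‖))
  rw [av, geom_sum_eq h, norm_mul, norm_inv, Complex.norm_natCast, norm_div, inv_mul_eq_div]
  gcongr
  refine (norm_sub_le _ _).trans ?_
  simp [Complex.norm_exp_ofReal_mul_I]
  norm_num

open Classical in
noncomputable def DJ (f : Qp → ℂ) (q0 : Qp) (J : ℕ) : ℝ :=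
  ∑' q, if q = q0 then 0 else ‖f q‖ * ‖av J (q.1 - q0.1)‖

lemma DJ_lim {f : Qp → ℂ} (hf : Summable fun q => ‖f q‖) (h1 : ∀ q : Qp, 1 ≤ q.1 → f q = 0)
    {q0 : Qp} (h0 : q0.1 < 1) : Tendsto (DJ f q0) atTop (𝓝 0) := by
  classical
  rw [← tsum_zero (β := Qp)]
  refine tendsto_tsum_of_dominated_convergence hf (fun q => ?_)
    (Eventually.of_forall fun J q => ?_)
  · by_cases hq : q = q0
    · simp [hq]
    by_cases hq1 : 1 ≤ q.1
    · simp [h1 q hq1]
    simp only [hq, if_false]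
    rw [← mul_zero ‖f q‖]
    have a1 : (q.1 : ℝ) < 1 := by exact_mod_cast not_le.1 hq1
    have a2 : (q0.1 : ℝ) < 1 := by exact_mod_cast h0
    have a3 : (0 : ℝ) < q.1 := by exact_mod_cast q.2
    have a4 : (0 : ℝ) < q0.1 := by exact_mod_cast q0.2
    refine (av_lim (sub_ne_zero.2 fun h => hq (Subtype.ext (by exact_mod_cast h))) ?_).const_mul _
    rw [abs_lt]; constructor <;> linarith
  · split_ifs
    · simp
    · rw [Real.norm_of_nonneg (by positivity)]
      exact mul_le_of_le_one_right (norm_nonneg _) (av_le _ _)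

lemma avg_le {f : Qp → ℂ} (hf : Summable fun q => ‖f q‖) {N J : ℕ} (hJ : 0 < J) {q0 : Qp}
    (h0 : La N q0) {y : ℂ} (hy : ‖y‖ ≤ 1) {m : ℝ}
    (hm : ∀ j < J, ‖(poly N f).eval (y * Complex.exp ((j / N : ℝ) * Complex.I))‖ ≤ m) :
    ‖f q0‖ * ‖y‖ ^ kk N q0 ≤ m + DJ f q0 J := by
  classical
  have hJ' : (J : ℂ) ≠ 0 := by exact_mod_cast hJ.ne'
  have hN : (N : ℂ) ≠ 0 := by obtain ⟨k, hk, -⟩ := h0; exact_mod_cast (by omega : N ≠ 0)
  have hn : ∀ j : ℕ, ‖y * Complex.exp ((j / N : ℝ) * Complex.I)‖ ≤ 1 := fun j => by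
    rwa [norm_mul, Complex.norm_exp_ofReal_mul_I, mul_one]
  have h1 : HasSum (fun q => f q * ee N y q * av J (q.1 - q0.1))
      ((J : ℂ)⁻¹ * ∑ j ∈ Finset.range J, Complex.exp ((-(j * q0.1) : ℝ) * Complex.I) *
        (poly N f).eval (y * Complex.exp ((j / N : ℝ) * Complex.I))) := by
    simp only [eval_poly]
    refine hs_congr ((hasSum_sum (s := Finset.range J) fun j _ => ((Summable.of_norm_bounded hf fun q =>
      norm_ee (hn j) N (f q) q).hasSum.mul_left
      (Complex.exp ((-(j * q0.1) : ℝ) * Complex.I)))).mul_left (J : ℂ)⁻¹) ?_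
    · intro q
      rw [av, mul_left_comm, Finset.mul_sum]
      congr 1
      refine Finset.sum_congr rfl fun j _ => ?_
      unfold ee
      split_ifs with h
      · obtain ⟨k, -, h⟩ := h
        have h' : (q.1 : ℂ) * N = k := by exact_mod_cast h
        rw [kk_eq h, mul_pow, ← Complex.exp_nat_mul, ← Complex.exp_nat_mul]
        have : (j : ℂ) * ((q.1 - q0.1 : ℝ) * Complex.I) = (-(j * q0.1) : ℝ) * Complex.I +
            k * ((j / N : ℝ) * Complex.I) := by
          push_cast; rw [← h']; field_simp; ring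
        rw [this, Complex.exp_add]; ring
      · simp
  have h2 : ‖(J : ℂ)⁻¹ * ∑ j ∈ Finset.range J, Complex.exp ((-(j * q0.1) : ℝ) * Complex.I) *
      (poly N f).eval (y * Complex.exp ((j / N : ℝ) * Complex.I))‖ ≤ m := by
    rw [norm_mul, norm_inv, Complex.norm_natCast, inv_mul_le_iff₀ (by exact_mod_cast hJ)]
    refine (norm_sum_le _ _).trans ?_
    have := Finset.sum_le_card_nsmul (Finset.range J) _ m fun j hj => (show
      ‖Complex.exp ((-(j * q0.1) : ℝ) * Complex.I) *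
        (poly N f).eval (y * Complex.exp ((j / N : ℝ) * Complex.I))‖ ≤ m by
      rw [norm_mul, Complex.norm_exp_ofReal_mul_I, one_mul]; exact hm j (Finset.mem_range.1 hj))
    simpa using this
  rw [← h1.tsum_eq, h1.summable.tsum_eq_add_tsum_ite q0] at h2
  have h3 : ‖∑' q, if q = q0 then 0 else f q * ee N y q * av J (q.1 - q0.1)‖ ≤ DJ f q0 J := by
    refine tsum_of_norm_bounded (Summable.hasSum (hf.of_nonneg_of_le (fun q => ?_) fun q => ?_))
      fun q => ?_
    · split_ifs <;> positivity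
    · split_ifs
      · simp
      · exact mul_le_of_le_one_right (norm_nonneg _) (av_le _ _)
    · split_ifs
      · simp
      · rw [norm_mul]
        exact mul_le_mul_of_nonneg_right (norm_ee hy _ _ _) (norm_nonneg _)
  have h4 : ‖f q0 * ee N y q0 * av J (q0.1 - q0.1)‖ = ‖f q0‖ * ‖y‖ ^ kk N q0 := by
    rw [ee, if_pos h0]; simp [av, hJ']
  rw [← h4]
  have := norm_sub_le (f q0 * ee N y q0 * av J (q0.1 - q0.1) +
    ∑' q, if q = q0 then 0 else f q * ee N y q * av J (q.1 - q0.1))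
    (∑' q, if q = q0 then 0 else f q * ee N y q * av J (q.1 - q0.1))
  rw [add_sub_cancel_right] at this
  linarith

end Pool.Agent.Lib.helper15.Rat
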