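import Mathlib
import Pool.Agent.Lib.helper15.Rat3

open Polynomial Metric Real Filter Topology

namespace Pool.Agent.Lib.helper15.Rat

lemma geo {a b α : ℝ} (ha : 0 ≤ a) (hab : a ≤ b) (hb : b ≤ 1) {v : ℂ} (hv : ‖v‖ = 1) :
    b - a ≤ ‖b * v * Complex.exp (α * Complex.I) - a * v‖ ∧
    ‖b * v * Complex.exp (α * Complex.I) - a * v‖ ^ 2 ≤ (b - a) ^ 2 + α ^ 2 := by
  constructor
  · have := norm_sub_norm_le (b * v * Complex.exp (α * Complex.I)) (a * v)
    simpa [hv, Complex.norm_exp_ofReal_mul_I, abs_of_nonneg ha, abs_of_nonneg (ha.trans hab)]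
      using this
  · rw [show b * v * Complex.exp (α * Complex.I) - a * v =
      v * (b * Complex.exp (α * Complex.I) - a) by ring, norm_mul, hv, one_mul, Complex.sq_norm,
      Complex.normSq_apply]
    simp [Complex.exp_ofReal_mul_I_re, Complex.exp_ofReal_mul_I_im]
    have h1 := sin_sq_add_cos_sq α
    have h2 := one_sub_sq_div_two_le_cos (x := α)
    have h3 : a * b ≤ 1 := by nlinarith
    have h4 : 0 ≤ a * b := mul_nonneg ha (ha.trans hab)
    have h5 : a * b * (1 - cos α) ≤ 1 * (α ^ 2 / 2) :=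
      mul_le_mul h3 (by linarith) (by linarith [cos_le_one α]) zero_le_one
    have h6 : b ^ 2 * (sin α ^ 2 + cos α ^ 2) = b ^ 2 := by rw [h1, mul_one]
    nlinarith

lemma pow_le_pow_left₀_inv' {a b : ℝ} (hb : 0 ≤ b) (h : a ^ 2 ≤ b ^ 2) : a ≤ b :=
  (abs_le_of_sq_le_sq' h hb).2

lemma La_ev {q : Qp} (hq : q.1 < 1) : ∀ᶠ n : ℕ in atTop, La n.factorial q := by
  filter_upwards [eventually_ge_atTop q.1.den] with n hn
  obtain ⟨c, hc⟩ := Nat.dvd_factorial q.1.den_pos hn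
  obtain ⟨k, hk⟩ := Int.eq_ofNat_of_zero_le (Rat.num_nonneg.2 q.2.le)
  have e : q.1 * n.factorial = (k * c : ℕ) := by
    rw [hc, Nat.cast_mul, ← mul_assoc, Rat.mul_den_eq_num, hk]; simp
  refine ⟨k * c, ?_, e⟩
  have h1 : (0 : ℚ) < n.factorial := by positivity
  have : ((k * c : ℕ) : ℚ) < n.factorial := by nlinarith
  exact_mod_cast this

theorem main2 (u : ℝ → Qp → ℂ) {M : ℝ} (hM : 1 ≤ M) (hs : ∀ t > 0, Summable fun q => ‖u t q‖)
    (hb : ∀ t ∈ Set.Icc (1 : ℝ) 3, ∑' q, ‖u t q‖ ≤ M) (h1 : ∀ q : Qp, 1 ≤ q.1 → u 3 q = 0)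
    (hm : ∀ s > 0, ∀ t > 0, ∀ r : Qp, r.1 < 1 →
      u (s + t) r = ∑' p : {p : Qp × Qp // p.1 + p.2 = r}, u s p.1.1 * u t p.1.2)
    (ht : ∀ τ > 0, ∀ᶠ n : ℕ in atTop, ∀ t ∈ Set.Icc (1 : ℝ) 2,
      ∑' q, ind n.factorial q * ‖u t q‖ ≤ τ) {q0 : Qp} (h0 : q0.1 ≤ 1 / 2400) : u 3 q0 = 0 := by
  by_contra hc
  have hc0 := norm_pos_iff.2 hc
  set c := ‖u 3 q0‖ with hcc
  set q : ℝ := ((q0.1 : ℚ) : ℝ) with hq
  have hq0 : 0 < q := by rw [hq]; exact_mod_cast q0.2
  have hq1 : q ≤ 1 / 2400 := by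
    have : ((q0.1 : ℚ) : ℝ) ≤ ((1 / 2400 : ℚ) : ℝ) := Rat.cast_le.2 h0
    simpa using this
  obtain ⟨σ1, a1, a2⟩ : ∃ σ1 : ℝ, 1 ≤ σ1 ∧ 2 * M / c ≤ q * σ1 :=
    ⟨max 1 (2 * M / c / q), le_max_left _ _, by
      rw [← div_le_iff₀' hq0]; exact le_max_right _ _⟩
  obtain ⟨J, b1, b2⟩ := (((DJ_lim (hs 3 (by norm_num)) h1 (q0 := q0) (by linarith)).eventually
    (ge_mem_nhds (show 0 < c * exp (-2 * q * σ1) / 2 by positivity))).and
    (eventually_gt_atTop 0)).exists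
  obtain ⟨σ, c1, c2, c3, c4⟩ := ((eventually_ge_atTop (2 * σ1)).and ((eventually_ge_atTop
    (σ1 + J ^ 2)).and ((eventually_ge_atTop (1 / (30 * q))).and
    (eventually_ge_atTop (32 * M ^ 2))))).exists
  have hσ : 0 < σ := by linarith
  obtain ⟨n, d1, d2, d3⟩ := ((ht (exp (-σ / 4) / (8 * M)) (by positivity)).and
    ((La_ev (q := q0) (by linarith)).and
    (tendsto_natCast_atTop_atTop.eventually_ge_atTop (2 * σ)))).exists
  set N := n.factorial with hN
  have hN1 : 2 * σ ≤ N := d3.trans (by exact_mod_cast n.self_le_factorial)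
  have hN0 : (0 : ℝ) < N := by linarith
  have e1 : σ / N ≤ 1 / 2 := by rw [div_le_iff₀ hN0]; linarith
  have e2 : σ1 / N ≤ σ / N := by gcongr; linarith
  have e3 : 0 < σ1 / N := by positivity
  refine pcore (fun t => poly N (u t)) (M := M) (R := σ / N) (β := σ1 / (2 * σ)) (L := 30 * q * σ)
    (ε := (exp (-σ / 4) / (8 * M) + exp (-σ / 2) * M) * M) hM (by positivity) (by linarith)
    (by positivity) ?_ (fun t ht x hx => (eval_le hx _ (hs t (by linarith [ht.1]))).trans (hb t ht))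
    (fun s hs' t ht' x hx => ?_) (fun x0 hx0 => ?_) (eval_zero' _ _) ?_
  · rw [div_le_iff₀ (by positivity)] at c3; linarith
  · have f1 : 0 < s := by linarith [hs'.1]
    have f2 : 0 < t := by linarith [ht'.1]
    refine (eval_mul_le (by linarith) N (hs s f1) (hs t f2) (hm s f1 t f2)).trans ?_
    have f3 : ‖x‖ ^ N ≤ exp (-σ / 2) := by
      have f4 : ‖x‖ ≤ exp (-(σ / N / 2)) := by linarith [add_one_le_exp (-(σ / N / 2))]
      refine (pow_le_pow_left₀ (norm_nonneg _) f4 N).trans (le_of_eq ?_)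
      rw [← exp_nat_mul]; congr 1; field_simp
    exact mul_le_mul (add_le_add (d1 s hs') (mul_le_mul f3 (hb s ⟨hs'.1, by linarith [hs'.2]⟩)
      (tsum_nonneg fun _ => norm_nonneg _) (exp_pos _).le)) (hb t ⟨ht'.1, by linarith [ht'.2]⟩)
      (tsum_nonneg fun _ => norm_nonneg _) (by positivity)
  · by_contra hcon
    push Not at hcon
    have f0 : 0 < 1 - σ / N := by linarith
    set v : ℂ := x0 / (1 - σ / N : ℝ) with hv
    have hv1 : ‖v‖ = 1 := by
      rw [hv, norm_div, hx0, Complex.norm_real, norm_of_nonneg f0.le, div_self f0.ne']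
    have hx : x0 = (1 - σ / N : ℝ) * v := by
      rw [hv, mul_div_cancel₀ _ (by exact_mod_cast f0.ne')]
    have hy : ‖((1 - σ1 / N : ℝ) : ℂ) * v‖ = 1 - σ1 / N := by
      rw [norm_mul, hv1, mul_one, Complex.norm_real, norm_of_nonneg (by linarith)]
    have f1 := avg_le (hs 3 (by norm_num)) b2 d2 (y := (1 - σ1 / N : ℝ) * v) (by linarith)
      (m := M * exp (-(30 * q * σ) * (σ1 / (2 * σ) / 5))) fun j hj => by
        obtain ⟨g1, g2⟩ := geo (α := j / N) f0.le (show 1 - σ / N ≤ 1 - σ1 / N by linarith)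
          (by linarith) hv1
        rw [← hx] at g1 g2
        refine hcon _ (le_trans ?_ g1) (pow_le_pow_left₀_inv' ?_ (g2.trans ?_))
        · have : σ1 / N ≤ σ / N / 2 := by rw [div_right_comm]; gcongr; linarith
          linarith
        · have : σ1 / (2 * σ) ≤ 1 := by rw [div_le_one (by positivity)]; linarith
          exact mul_nonneg (by positivity) (by linarith)
        · have g3 : (j : ℝ) ^ 2 ≤ J ^ 2 := by gcongr
          have g4 : (σ - σ1) ^ 2 + j ^ 2 ≤ (σ - σ1 / 2) ^ 2 := by nlinarith [sq_nonneg (J : ℝ)]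
          calc _ = ((σ - σ1) ^ 2 + j ^ 2) / N ^ 2 := by field_simp; ring
            _ ≤ (σ - σ1 / 2) ^ 2 / N ^ 2 := by gcongr
            _ = _ := by field_simp
    obtain ⟨k, -, hk⟩ := d2
    have hk' : q * N = k := by rw [hq]; exact_mod_cast hk
    have f2 : exp (-2 * q * σ1) ≤ (1 - σ1 / N) ^ k := by
      have f3 : exp (-(2 * (σ1 / N))) ≤ 1 - σ1 / N := by
        rw [exp_neg, inv_le_iff_one_le_mul₀ (exp_pos _)]
        have := mul_le_mul_of_nonneg_left (add_one_le_exp (2 * (σ1 / N)))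
          (show 0 ≤ 1 - σ1 / N by linarith)
        nlinarith
      refine le_trans (le_of_eq ?_) (pow_le_pow_left₀ (exp_pos _).le f3 k)
      rw [← exp_nat_mul, ← hk']; congr 1; field_simp
    rw [hy, kk_eq hk, show -(30 * q * σ) * (σ1 / (2 * σ) / 5) = -2 * q * σ1 + -(q * σ1) by
      field_simp; ring, exp_add] at f1
    have f3 : M * exp (-(q * σ1)) < c / 2 := by
      rw [exp_neg, ← div_eq_mul_inv, div_lt_iff₀ (exp_pos _)]
      rw [div_le_iff₀ hc0] at a2
      nlinarith [add_one_le_exp (q * σ1)]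
    have f4 := mul_lt_mul_of_pos_left f3 (exp_pos (-2 * q * σ1))
    have f5 := mul_le_mul_of_nonneg_left f2 hc0.le
    nlinarith
  · have f1 : exp (-σ / 4) ≤ exp (-10 * (30 * q * σ)) ^ 2 := by
      rw [← exp_nat_mul, exp_le_exp]; push_cast; nlinarith
    have f2 : exp (-σ / 2) = exp (-σ / 4) * exp (-σ / 4) := by rw [← exp_add]; congr 1; ring
    have f3 : exp (-σ / 4) * (8 * M ^ 2) < 1 := by
      rw [neg_div, exp_neg, inv_mul_lt_iff₀ (exp_pos _)]
      linarith [add_one_le_exp (σ / 4)]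
    have f4 := mul_lt_mul_of_pos_left f3 (exp_pos (-σ / 4))
    have f5 : exp (-σ / 4) / (8 * M) * M = exp (-σ / 4) / 8 := by field_simp
    rw [add_mul, f5, f2, div_pow]
    nlinarith

lemma tri {c : Qp → ℝ} (hc : ∀ q, 0 ≤ c q ∧ c q ≤ 1) {f g : Qp → ℂ}
    (hf : Summable fun q => ‖f q‖) (hg : Summable fun q => ‖g q‖) :
    ∑' q, c q * ‖f q‖ ≤ ∑' q, c q * ‖g q‖ + ∑' q, ‖f q - g q‖ := by
  have h1 : ∀ {f : Qp → ℂ}, (Summable fun q => ‖f q‖) → Summable fun q => c q * ‖f q‖ :=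
    fun hf => hf.of_nonneg_of_le (fun q => mul_nonneg (hc q).1 (norm_nonneg _))
      fun q => mul_le_of_le_one_left (norm_nonneg _) (hc q).2
  have h2 : Summable fun q => ‖f q - g q‖ :=
    (hf.add hg).of_nonneg_of_le (fun _ => norm_nonneg _) fun q => norm_sub_le _ _
  rw [← (h1 hg).tsum_add h2]
  refine (h1 hf).tsum_le_tsum (fun q => ?_) ((h1 hg).add h2)
  have := mul_le_mul_of_nonneg_left (norm_le_norm_sub_add (f q) (g q)) (hc q).1
  have := mul_le_of_le_one_left (norm_nonneg (f q - g q)) (hc q).2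
  linarith

theorem main3 (u : ℝ → Qp → ℂ) (hs : ∀ t > 0, Summable fun q => ‖u t q‖)
    (h1 : ∀ t, ∀ q : Qp, 1 ≤ q.1 → u t q = 0)
    (hm : ∀ s > 0, ∀ t > 0, ∀ r : Qp, r.1 < 1 →
      u (s + t) r = ∑' p : {p : Qp × Qp // p.1 + p.2 = r}, u s p.1.1 * u t p.1.2)
    (hc : ∀ t > 0, Tendsto (fun s => ∑' q, ‖u s q - u t q‖) (𝓝 t) (𝓝 0))
    {q0 : Qp} (h0 : q0.1 ≤ 1 / 2400) : u 3 q0 = 0 := by
  have key : ∀ {ι : Type} (l : Filter ι) (b : ℝ) (P : ι → ℝ → Prop),
      (∀ t > 0, ∀ᶠ z in l ×ˢ 𝓝 t, P z.1 z.2) → ∀ᶠ i in l, ∀ t ∈ Set.Icc 1 b, P i t := by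
    intro ι l b P h
    have := isCompact_Icc.mem_prod_nhdsSet_of_forall (K := Set.Icc 1 b) (l := l)
      (s := {z | P z.1 z.2}) fun t ht => h t (by linarith [ht.1])
    filter_upwards [Eventually.curry this] with i hi t ht using hi.self_of_nhdsSet t ht
  obtain ⟨M, hM, hb⟩ := ((eventually_ge_atTop 1).and (key atTop 3
    (fun M t => ∑' q, ‖u t q‖ ≤ M) fun t ht => by
      filter_upwards [((eventually_ge_atTop (∑' q, ‖u t q‖ + 1)).prod_mk
        (((hc t ht).eventually (ge_mem_nhds one_pos)).and (lt_mem_nhds ht)))] with z ⟨a1, a2, a3⟩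
      have := tri (c := fun _ => 1) (by simp) (hs _ a3) (hs t ht)
      simp only [one_mul] at this
      linarith)).exists
  refine main2 u hM hs hb (h1 3) hm (fun τ hτ => key atTop 2
    (fun (n : ℕ) t => ∑' q, ind n.factorial q * ‖u t q‖ ≤ τ) fun t ht => ?_) h0
  have h2 : Tendsto (fun n : ℕ => ∑' q, ind n.factorial q * ‖u t q‖) atTop (𝓝 0) := by
    rw [← tsum_zero (β := Qp)]
    refine tendsto_tsum_of_dominated_convergence (hs t ht) (fun q => ?_)
      (Eventually.of_forall fun n q => ?_)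
    · by_cases hq : q.1 < 1
      · refine tendsto_const_nhds.congr' ?_
        filter_upwards [La_ev hq] with n hn
        rw [ind, if_pos hn, zero_mul]
      · simp [h1 t q (not_lt.1 hq)]
    · rw [Real.norm_of_nonneg (mul_nonneg (ind_mem _ q).1 (norm_nonneg _))]
      exact mul_le_of_le_one_left (norm_nonneg _) (ind_mem _ q).2
  filter_upwards [((h2.eventually (ge_mem_nhds (half_pos hτ))).prod_mk
    (((hc t ht).eventually (ge_mem_nhds (half_pos hτ))).and (lt_mem_nhds ht)))] with z ⟨a1, a2, a3⟩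
  have := tri (ind_mem z.1.factorial) (hs _ a3) (hs t ht)
  linarith

end Pool.Agent.Lib.helper15.Rat
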