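import Mathlib

set_option autoImplicit false
open Classical
open Finset

namespace Pool.Agent.Lib.helper15.Restr

theorem exists_big_fiber {α β : Type} [DecidableEq β] (s : Finset α) (t : Finset β) (f : α → β)
    (hf : ∀ a ∈ s, f a ∈ t) (ht : t.Nonempty) :
    ∃ y ∈ t, s.card ≤ (s.filter (fun a => f a = y)).card * t.card := by
  obtain ⟨y, hy, hmax⟩ := t.exists_max_image (fun y => (s.filter (fun a => f a = y)).card) ht
  exact ⟨y, hy, card_le_mul_card_image_of_maps_to hf _ hmax⟩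

theorem bad_card (Y : Finset ℕ) (R : ℕ → Finset ℕ) (σ : ℕ)
    (hpop : ∀ a, (Y.filter (fun b => a ∈ R b)).card ≤ σ) (U : Finset ℕ) :
    (Y.filter (fun b => ¬ Disjoint (R b) U)).card ≤ U.card * σ := by
  have hsub : Y.filter (fun b => ¬ Disjoint (R b) U) ⊆
      U.biUnion (fun a => Y.filter (fun b => a ∈ R b)) := by
    intro b hb
    rw [mem_filter, not_disjoint_iff] at hb
    obtain ⟨hb, a, ha1, ha2⟩ := hb
    exact mem_biUnion.mpr ⟨a, ha2, mem_filter.mpr ⟨hb, ha1⟩⟩
  exact (card_le_card hsub).trans (card_biUnion_le_card_mul _ _ _ (fun a _ => hpop a))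

theorem pigeon (B : Finset ℕ) (M C l : ℕ) (hB : ∀ b ∈ B, b ≤ M)
    (hno : ∀ b ∈ B, ∀ j, 1 ≤ j → j ≤ C → b + j * l ∉ B) :
    (C + 1) * B.card ≤ M + C * l + 1 := by
  have h := card_le_card_of_injOn (s := range (C + 1) ×ˢ B) (t := range (M + C * l + 1))
    (fun p => p.2 + p.1 * l) ?_ ?_
  · simpa [card_product] using h
  · intro p hp
    simp only [coe_product, Set.mem_prod, mem_coe, mem_range] at hp
    have h1 := hB p.2 hp.2
    have h2 : p.1 * l ≤ C * l := Nat.mul_le_mul_right _ (by omega)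
    simp only [coe_range, Set.mem_Iio]
    omega
  · rintro ⟨j, b⟩ hp ⟨j', b'⟩ hq heq
    simp only [coe_product, Set.mem_prod, mem_coe, mem_range] at hp hq
    simp only at heq
    rcases Nat.lt_trichotomy j j' with h | h | h
    · exfalso
      obtain ⟨e, rfl⟩ := Nat.exists_eq_add_of_lt h
      apply hno b' hq.2 (e + 1) (by omega) (by omega)
      have : b = b' + (e + 1) * l := by nlinarith
      rw [← this]
      exact hp.2
    · subst h
      simp only [Prod.mk.injEq, true_and]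
      omega
    · exfalso
      obtain ⟨e, rfl⟩ := Nat.exists_eq_add_of_lt h
      apply hno b hp.2 (e + 1) (by omega) (by omega)
      have : b' = b + (e + 1) * l := by nlinarith
      rw [← this]
      exact hq.2

theorem popular (B : Finset ℕ) (M C l : ℕ) (hB : ∀ b ∈ B, b ≤ M) (hC : 1 ≤ C)
    (hbig : 2 * (M + C * l + 1) ≤ (C + 1) * B.card) :
    ∃ j, 1 ≤ j ∧ j ≤ C ∧ B.card ≤ 2 * C * (B.filter (fun b => b + j * l ∈ B)).card := by
  obtain ⟨j, hj, hmax⟩ := (Icc 1 C).exists_max_image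
    (fun j => (B.filter (fun b => b + j * l ∈ B)).card) ⟨1, by simp [hC]⟩
  rw [mem_Icc] at hj
  refine ⟨j, hj.1, hj.2, ?_⟩
  let B2 := B.filter (fun b => ∀ j, 1 ≤ j → j ≤ C → b + j * l ∉ B)
  have h1 := pigeon B2 M C l (fun b hb => hB b (mem_filter.mp hb).1)
    (fun b hb j h1 h2 hm => (mem_filter.mp hb).2 j h1 h2 (mem_filter.mp hm).1)
  have hsub : B ⊆ B2 ∪ (Icc 1 C).biUnion (fun j => B.filter (fun b => b + j * l ∈ B)) := by
    intro b hb
    by_cases h : ∀ j, 1 ≤ j → j ≤ C → b + j * l ∉ B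
    · exact mem_union_left _ (mem_filter.mpr ⟨hb, h⟩)
    · push Not at h
      obtain ⟨j, h1, h2, h3⟩ := h
      exact mem_union_right _ (mem_biUnion.mpr ⟨j, mem_Icc.mpr ⟨h1, h2⟩, mem_filter.mpr ⟨hb, h3⟩⟩)
  have h2 := (card_le_card hsub).trans (card_union_le _ _)
  have h3 := card_biUnion_le_card_mul (Icc 1 C) (fun j => B.filter (fun b => b + j * l ∈ B)) _ hmax
  rw [Nat.card_Icc] at h3
  simp only [Nat.add_sub_cancel] at h3
  have h4 : 2 * B2.card ≤ B.card := by
    have : (C + 1) * (2 * B2.card) ≤ (C + 1) * B.card := by nlinarith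
    exact Nat.le_of_mul_le_mul_left this (by omega)
  nlinarith

structure Sys (A B : Finset ℕ) (S : ℕ → Finset ℕ) (h σ : ℕ) : Prop where
  sub : ∀ b ∈ B, S b ⊆ A
  card : ∀ b ∈ B, (S b).card ≤ h
  sum : ∀ b ∈ B, (S b).sum id = b
  pop : ∀ a, (B.filter (fun b => a ∈ S b)).card ≤ σ

theorem exists_pair {A B : Finset ℕ} {S : ℕ → Finset ℕ} {h σ : ℕ} (H : Sys A B S h σ) (e : ℕ)
    (V : Finset ℕ) (hr : 2 * (V.card * σ) < (B.filter (fun b => b + e ∈ B)).card) :
    ∃ b ∈ B, b + e ∈ B ∧ Disjoint (S b) V ∧ Disjoint (S (b + e)) V := by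
  by_contra hc
  push Not at hc
  have hb := bad_card B S σ H.pop V
  have hsub : B.filter (fun b => b + e ∈ B) ⊆ B.filter (fun b => ¬ Disjoint (S b) V) ∪
      (B.filter (fun b => ¬ Disjoint (S b) V)).image (fun b => b - e) := by
    intro b hb
    rw [mem_filter] at hb
    by_cases h1 : Disjoint (S b) V
    · exact mem_union_right _ (mem_image.mpr ⟨b + e, mem_filter.mpr ⟨hb.2, hc b hb.1 hb.2 h1⟩,
        by simp⟩)
    · exact mem_union_left _ (mem_filter.mpr ⟨hb.1, h1⟩)
  have h2 := (card_le_card hsub).trans (card_union_le _ _)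
  have h3 := card_image_le (s := B.filter (fun b => ¬ Disjoint (S b) V)) (f := fun b => b - e)
  omega

theorem gadget {A B : Finset ℕ} {S : ℕ → Finset ℕ} {h σ : ℕ} (H : Sys A B S h σ) (e : ℕ)
    (U : Finset ℕ) (r : ℕ)
    (hr : 2 * ((U.card + 2 * r * h) * σ) < (B.filter (fun b => b + e ∈ B)).card) :
    ∃ S1 S2 : Finset ℕ, S1 ⊆ A ∧ S2 ⊆ A ∧ Disjoint S1 U ∧ Disjoint S2 U ∧ S1.card ≤ r * h ∧
      S2.card ≤ r * h ∧ S2.sum id = S1.sum id + r * e := by
  induction r with
  | zero => exact ⟨∅, ∅, by simp⟩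
  | succ r ih =>
    have hmono : (U.card + 2 * r * h) * σ ≤ (U.card + 2 * (r + 1) * h) * σ :=
      Nat.mul_le_mul_right _ (by nlinarith)
    obtain ⟨S1, S2, h1, h2, h3, h4, h5, h6, h7⟩ := ih (by omega)
    have hV : (U ∪ S1 ∪ S2).card ≤ U.card + 2 * r * h := by
      have := card_union_le (U ∪ S1) S2
      have := card_union_le U S1
      nlinarith
    have hV2 : (U ∪ S1 ∪ S2).card * σ ≤ (U.card + 2 * r * h) * σ := Nat.mul_le_mul_right _ hV
    obtain ⟨b, hb, hbe, d1, d2⟩ := exists_pair H e (U ∪ S1 ∪ S2) (by omega)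
    simp only [disjoint_union_right] at d1 d2
    refine ⟨S b ∪ S1, S (b + e) ∪ S2, union_subset (H.sub b hb) h1,
      union_subset (H.sub _ hbe) h2, disjoint_union_left.mpr ⟨d1.1.1, h3⟩,
      disjoint_union_left.mpr ⟨d2.1.1, h4⟩, ?_, ?_, ?_⟩
    · have := card_union_le (S b) S1
      have := H.card b hb
      nlinarith
    · have := card_union_le (S (b + e)) S2
      have := H.card _ hbe
      nlinarith
    · rw [sum_union d1.1.2, sum_union d2.2, H.sum b hb, H.sum _ hbe, h7]
      ring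

theorem multi (A U0 : Finset ℕ) (Q w u : ℕ) (Λ : Finset ℕ)
    (hg : ∀ l ∈ Λ, ∀ U : Finset ℕ, U.card + 2 * w ≤ u → ∃ S1 S2 : Finset ℕ, S1 ⊆ A ∧ S2 ⊆ A ∧
      Disjoint S1 U ∧ Disjoint S2 U ∧ S1.card ≤ w ∧ S2.card ≤ w ∧ S2.sum id = S1.sum id + Q * l)
    (hu : U0.card + 2 * Λ.card * w ≤ u) :
    ∃ V : Finset ℕ, V ⊆ A ∧ Disjoint V U0 ∧ V.card ≤ 2 * Λ.card * w ∧
      ∃ G0 ⊆ V, ∀ l ∈ Λ, ∃ G ⊆ V, G.sum id = G0.sum id + Q * l := by
  induction Λ using Finset.induction_on with
  | empty => exact ⟨∅, by simp⟩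
  | insert l Λ hl ih =>
    rw [card_insert_of_notMem hl] at hu ⊢
    obtain ⟨V, h1, h2, h3, G0, h4, h5⟩ := ih (fun l' hl' => hg l' (mem_insert_of_mem hl'))
      (by nlinarith)
    have hc := card_union_le U0 V
    obtain ⟨S1, S2, g1, g2, g3, g4, g5, g6, g7⟩ := hg l (mem_insert_self _ _) (U0 ∪ V)
      (by nlinarith)
    simp only [disjoint_union_right] at g3 g4
    refine ⟨S1 ∪ S2 ∪ V, union_subset (union_subset g1 g2) h1,
      disjoint_union_left.mpr ⟨disjoint_union_left.mpr ⟨g3.1, g4.1⟩, h2⟩, ?_, S1 ∪ G0, ?_, ?_⟩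
    · have := card_union_le (S1 ∪ S2) V
      have := card_union_le S1 S2
      nlinarith
    · exact union_subset_union subset_union_left h4
    · intro l' hl'
      rw [sum_union (g3.2.mono_right h4)]
      rcases mem_insert.mp hl' with rfl | hl'
      · refine ⟨S2 ∪ G0, union_subset_union subset_union_right h4, ?_⟩
        rw [sum_union (g4.2.mono_right h4), g7]
        ring
      · obtain ⟨G, hG, hs⟩ := h5 l' hl'
        refine ⟨S1 ∪ G, union_subset_union subset_union_left hG, ?_⟩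
        rw [sum_union (g3.2.mono_right hG), hs]
        ring

noncomputable def unc (Y : Finset ℕ) (X L : ℕ) (Λ : Finset ℕ) : Finset ℕ :=
  (Ico X L).filter (fun τ => ∀ l ∈ Λ, ∀ x ∈ Y, x + l ≠ τ)

theorem cover (Y : Finset ℕ) (X L : ℕ) (hY : ∀ x ∈ Y, x < X) (k : ℕ) :
    ∃ Λ : Finset ℕ, Λ.card ≤ k ∧ (∀ l ∈ Λ, l < L) ∧
      (4 * (unc Y X L Λ).card ≤ Y.card ∨
        4 * L * (unc Y X L Λ).card + k * Y.card ^ 2 ≤ 4 * L ^ 2) := by
  induction k with
  | zero =>
    refine ⟨∅, by simp, by simp, Or.inr ?_⟩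
    have : (unc Y X L ∅).card ≤ L := by
      have := card_filter_le (Ico X L) (fun τ => ∀ l ∈ (∅ : Finset ℕ), ∀ x ∈ Y, x + l ≠ τ)
      rw [Nat.card_Ico] at this
      unfold unc
      omega
    nlinarith
  | succ k ih =>
    obtain ⟨Λ, h1, h2, h3⟩ := ih
    by_cases h4 : 4 * (unc Y X L Λ).card ≤ Y.card
    · exact ⟨Λ, by omega, h2, Or.inl h4⟩
    have h5 := h3.resolve_left h4
    set E := unc Y X L Λ with hE
    have hEne : E.Nonempty := card_pos.mp (by omega)
    have hEm : ∀ τ ∈ E, X ≤ τ ∧ τ < L := fun τ hτ => mem_Ico.mp (mem_filter.mp hτ).1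
    have hL : (range L).Nonempty := by
      obtain ⟨τ, hτ⟩ := hEne
      exact ⟨τ, mem_range.mpr (hEm τ hτ).2⟩
    obtain ⟨l, hl, hfib⟩ := exists_big_fiber (E ×ˢ Y) (range L) (fun p => p.1 - p.2) (by
      intro p hp
      rw [mem_product] at hp
      have := hEm p.1 hp.1
      rw [mem_range]
      omega) hL
    rw [card_product, card_range] at hfib
    have h6 : ((E ×ˢ Y).filter (fun p => p.1 - p.2 = l)).card ≤
        (E.filter (fun τ => ∃ x ∈ Y, x + l = τ)).card := by
      apply card_le_card_of_injOn (fun p => p.1)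
      · intro p hp
        simp only [coe_filter, mem_product, Set.mem_ofPred_eq] at hp ⊢
        have := hEm p.1 hp.1.1
        have := hY p.2 hp.1.2
        exact ⟨hp.1.1, p.2, hp.1.2, by omega⟩
      · intro p hp q hq hpq
        simp only [coe_filter, mem_product, Set.mem_ofPred_eq] at hp hq hpq
        have := hEm p.1 hp.1.1
        have := hY p.2 hp.1.2
        have := hY q.2 hq.1.2
        exact Prod.ext hpq (by omega)
    have h7 : unc Y X L (insert l Λ) = E.filter (fun τ => ¬ ∃ x ∈ Y, x + l = τ) := by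
      ext τ
      simp only [hE, unc, mem_filter, mem_insert, forall_eq_or_imp, not_exists, not_and]
      tauto
    have h8 := card_filter_add_card_filter_not (s := E) (fun τ => ∃ x ∈ Y, x + l = τ)
    refine ⟨insert l Λ, (card_insert_le _ _).trans (by omega), ?_, Or.inr ?_⟩
    · intro l' hl'
      rcases mem_insert.mp hl' with rfl | hl'
      · exact mem_range.mp hl
      · exact h2 l' hl'
    · rw [h7]
      generalize (E.filter (fun τ => ¬ ∃ x ∈ Y, x + l = τ)).card = e1 at *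
      generalize (E.filter (fun τ => ∃ x ∈ Y, x + l = τ)).card = e2 at *
      generalize ((E ×ˢ Y).filter (fun p => p.1 - p.2 = l)).card = f at *
      generalize E.card = e at *
      generalize Y.card = y at *
      have h9 : f * L ≤ e2 * L := Nat.mul_le_mul_right _ h6
      have h10 : y * y ≤ 4 * e * y := Nat.mul_le_mul_right _ (by omega)
      subst h8
      nlinarith

theorem triple (Y : Finset ℕ) (R : ℕ → Finset ℕ) (h σ X L : ℕ) (hY : ∀ x ∈ Y, x < X)
    (hc : ∀ x ∈ Y, (R x).card ≤ h) (hpop : ∀ a, (Y.filter (fun b => a ∈ R b)).card ≤ σ)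
    (E : Finset ℕ) (φ : ℕ → ℕ) (hφ : ∀ τ, X ≤ τ → τ < L → τ ∉ E → φ τ ∈ Y) (θ : ℕ)
    (h1 : 3 * X ≤ θ) (h2 : θ < L)
    (hnum : Y.card * (E.card + h * σ) + 2 * (L * (h * σ)) < Y.card ^ 2) :
    ∃ x1 ∈ Y, ∃ x2 ∈ Y, θ - x1 - x2 ∉ E ∧ Disjoint (R x2) (R x1) ∧
      Disjoint (R x1) (R (φ (θ - x1 - x2))) ∧ Disjoint (R x2) (R (φ (θ - x1 - x2))) := by
  by_contra hcon
  push Not at hcon
  have hb : ∀ x ∈ Y, (Y.filter (fun b => ¬ Disjoint (R b) (R x))).card ≤ h * σ := fun x hx =>
    (bad_card Y R σ hpop (R x)).trans (Nat.mul_le_mul_right _ (hc x hx))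
  let PA := (Y ×ˢ Y).filter (fun p => θ - p.1 - p.2 ∈ E)
  let PB := (Y ×ˢ Y).filter (fun p => ¬ Disjoint (R p.2) (R p.1))
  let PC := (Y ×ˢ Y).filter (fun p => θ - p.1 - p.2 ∉ E ∧
    ¬ Disjoint (R p.1) (R (φ (θ - p.1 - p.2))))
  let PD := (Y ×ˢ Y).filter (fun p => θ - p.1 - p.2 ∉ E ∧
    ¬ Disjoint (R p.2) (R (φ (θ - p.1 - p.2))))
  have hsub : Y ×ˢ Y ⊆ PA ∪ PB ∪ PC ∪ PD := by
    intro p hp
    have hp' := mem_product.mp hp
    simp only [PA, PB, PC, PD, mem_union, mem_filter]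
    have := hcon p.1 hp'.1 p.2 hp'.2
    tauto
  have hA : PA.card ≤ E.card * Y.card := by
    apply card_le_mul_card_image_of_maps_to (f := fun p => p.1)
    · intro p hp
      exact (mem_product.mp (mem_filter.mp hp).1).1
    · intro x hx
      apply card_le_card_of_injOn (fun p => θ - p.1 - p.2)
      · intro p hp
        simp only [PA, coe_filter, mem_filter, Set.mem_ofPred_eq] at hp
        exact hp.1.2
      · intro p hp q hq hpq
        simp only [PA, coe_filter, mem_filter, mem_product, Set.mem_ofPred_eq] at hp hq hpq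
        have := hY _ hp.1.1.1
        have := hY _ hp.1.1.2
        have := hY _ hq.1.1.2
        exact Prod.ext (by omega) (by omega)
  have hB : PB.card ≤ h * σ * Y.card := by
    apply card_le_mul_card_image_of_maps_to (f := fun p => p.1)
    · intro p hp
      exact (mem_product.mp (mem_filter.mp hp).1).1
    · intro x hx
      refine le_trans ?_ (hb x hx)
      apply card_le_card_of_injOn (fun p => p.2)
      · intro p hp
        simp only [PB, coe_filter, mem_filter, mem_product, Set.mem_ofPred_eq] at hp ⊢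
        exact ⟨hp.1.1.2, hp.2 ▸ hp.1.2⟩
      · intro p hp q hq hpq
        simp only [PB, coe_filter, mem_filter, mem_product, Set.mem_ofPred_eq] at hp hq hpq
        exact Prod.ext (by omega) hpq
  have hC : PC.card ≤ h * σ * (Ico X L \ E).card := by
    apply card_le_mul_card_image_of_maps_to (f := fun p => θ - p.1 - p.2)
    · intro p hp
      simp only [PC, mem_filter, mem_product] at hp
      have := hY _ hp.1.1
      have := hY _ hp.1.2
      rw [mem_sdiff, mem_Ico]
      exact ⟨by omega, hp.2.1⟩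
    · intro τ hτ
      rw [mem_sdiff, mem_Ico] at hτ
      refine le_trans ?_ (hb (φ τ) (hφ τ hτ.1.1 hτ.1.2 hτ.2))
      apply card_le_card_of_injOn (fun p => p.1)
      · intro p hp
        simp only [PC, coe_filter, mem_filter, mem_product, Set.mem_ofPred_eq] at hp ⊢
        exact ⟨hp.1.1.1, hp.2 ▸ hp.1.2.2⟩
      · intro p hp q hq hpq
        simp only [PC, coe_filter, mem_filter, mem_product, Set.mem_ofPred_eq] at hp hq hpq
        have := hY _ hp.1.1.1
        have := hY _ hp.1.1.2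
        have := hY _ hq.1.1.2
        exact Prod.ext hpq (by omega)
  have hD : PD.card ≤ h * σ * (Ico X L \ E).card := by
    apply card_le_mul_card_image_of_maps_to (f := fun p => θ - p.1 - p.2)
    · intro p hp
      simp only [PD, mem_filter, mem_product] at hp
      have := hY _ hp.1.1
      have := hY _ hp.1.2
      rw [mem_sdiff, mem_Ico]
      exact ⟨by omega, hp.2.1⟩
    · intro τ hτ
      rw [mem_sdiff, mem_Ico] at hτ
      refine le_trans ?_ (hb (φ τ) (hφ τ hτ.1.1 hτ.1.2 hτ.2))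
      apply card_le_card_of_injOn (fun p => p.2)
      · intro p hp
        simp only [PD, coe_filter, mem_filter, mem_product, Set.mem_ofPred_eq] at hp ⊢
        exact ⟨hp.1.1.2, hp.2 ▸ hp.1.2.2⟩
      · intro p hp q hq hpq
        simp only [PD, coe_filter, mem_filter, mem_product, Set.mem_ofPred_eq] at hp hq hpq
        have := hY _ hp.1.1.1
        have := hY _ hp.1.1.2
        have := hY _ hq.1.1.1
        exact Prod.ext (by omega) hpq
  have hI : (Ico X L \ E).card ≤ L := by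
    have := card_le_card (sdiff_subset (s := Ico X L) (t := E))
    rw [Nat.card_Ico] at this
    omega
  have h3 := card_le_card hsub
  rw [card_product] at h3
  have h4 := card_union_le (PA ∪ PB ∪ PC) PD
  have h5 := card_union_le (PA ∪ PB) PC
  have h6 := card_union_le PA PB
  have h7 : h * σ * (Ico X L \ E).card ≤ h * σ * L := Nat.mul_le_mul_left _ hI
  nlinarith

end Pool.Agent.Lib.helper15.Restr
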