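import Pool.Agent.Lib.helper15.RestrA

set_option autoImplicit false
open Classical
open Finset

namespace Pool.Agent.Lib.helper15.Restr

def Concl (A : Finset ℕ) (n W K t Q : ℕ) : Prop :=
  ∀ U0 : Finset ℕ, U0.card ≤ 2 * Q * Q → ∃ z0, z0 ≤ K * n ∧ ∀ k, k * Q ≤ W * n →
    ∃ T ⊆ A, Disjoint T U0 ∧ T.card ≤ t ∧ T.sum id = z0 + k * Q

theorem Concl.mono {A : Finset ℕ} {n W K t Q K' t' : ℕ} (h : Concl A n W K t Q) (hK : K ≤ K')
    (ht : t ≤ t') : Concl A n W K' t' Q := by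
  intro U0 hU
  obtain ⟨z0, h1, h2⟩ := h U0 hU
  refine ⟨z0, h1.trans (Nat.mul_le_mul_right _ hK), fun k hk => ?_⟩
  obtain ⟨T, h3, h4, h5, h6⟩ := h2 k hk
  exact ⟨T, h3, h4, h5.trans ht, h6⟩

theorem num1 (y y1 b e e' s u h σ Z d X : ℕ) (h1 : y1 + b = y) (h2 : b ≤ u * σ) (h3 : 4 * e ≤ y)
    (h4 : e' ≤ e + s * (u * σ)) (h5 : (4 * ((s + 1) * u + h) + 16 * Z * h * d) * σ < y)
    (h6 : X ≤ 2 * d * y) : y1 * (e' + h * σ) + 2 * (Z * X * (h * σ)) < y1 ^ 2 := by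
  have a1 : 4 * (s * (u * σ)) + 4 * (u * σ) + 4 * (h * σ) + 16 * (Z * d * (h * σ)) < y := by
    nlinarith
  have a2 : Z * X * (h * σ) ≤ 2 * y * (Z * d * (h * σ)) := by
    have : Z * (h * σ) * X ≤ Z * (h * σ) * (2 * d * y) := Nat.mul_le_mul_left _ h6
    nlinarith
  generalize Z * d * (h * σ) = p at *
  generalize Z * X * (h * σ) = q at *
  generalize s * (u * σ) = a at *
  generalize u * σ = c at *
  generalize h * σ = g at *
  have a3 : 2 * (e' + g) + y ≤ 2 * y1 := by omega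
  have a4 : y ≤ 2 * y1 := by omega
  have a5 : y1 * (2 * (e' + g) + y) ≤ y1 * (2 * y1) := Nat.mul_le_mul_left _ a3
  have a6 : y * y ≤ y * (2 * y1) := Nat.mul_le_mul_left _ a4
  have a7 : y * (16 * p + 1) ≤ y * y := Nat.mul_le_mul_left _ (by omega)
  have a8 : 0 < y := by omega
  nlinarith

theorem numQ (C Z Q W : ℕ) (hC : 1 ≤ C) (hZ : Z = W + 4) (h : 2 * C * Z ≤ Q) : 0 < Q := by
  nlinarith

theorem numX (n Q C Z m : ℕ) (hn : Q ≤ n) (h0 : Q * m ≤ n) (hQ2 : 2 * C * Z ≤ Q) :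
    Q * (m + 1) ≤ 2 * n ∧ C * (Z * (m + 1)) ≤ n := by
  have : 2 * C * Z * m ≤ Q * m := Nat.mul_le_mul_right _ hQ2
  constructor <;> nlinarith

theorem numY3 (n Q X d y : ℕ) (hQ : 0 < Q) (h1 : Q * X ≤ 2 * n) (h2 : n ≤ d * (y * Q)) :
    X ≤ 2 * d * y := by
  have : Q * X ≤ Q * (2 * d * y) := by nlinarith
  exact Nat.le_of_mul_le_mul_left this hQ

theorem numY4 (n Q d y G D σ : ℕ) (h1 : d * Q * G ≤ D) (h2 : n ≤ d * (y * Q)) (h3 : D * σ < n) :
    G * σ < y := by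
  have h4 := Nat.mul_le_mul_right σ h1
  have : d * Q * (G * σ) < d * Q * y := by nlinarith
  exact Nat.lt_of_mul_lt_mul_left this

theorem numE (X Z d y s e : ℕ) (hY3 : X ≤ 2 * d * y) (h4 : 0 < y)
    (hs : s = 16 * Z ^ 2 * d ^ 2 + 1) (h1 : e + s * y ^ 2 ≤ 4 * (Z * X) ^ 2) : False := by
  have h2 : X ^ 2 ≤ (2 * d * y) ^ 2 := Nat.pow_le_pow_left hY3 2
  have h3 : Z ^ 2 * X ^ 2 ≤ Z ^ 2 * (2 * d * y) ^ 2 := Nat.mul_le_mul_left _ h2
  have h5 : 0 < y ^ 2 := by positivity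
  rw [hs] at h1
  nlinarith [Nat.zero_le e]

theorem numP (n C d l b M : ℕ) (hC : C = 6 * d) (h1 : C * l ≤ M) (h2 : M ≤ n) (h3 : n ≤ d * b)
    (h4 : 0 < n) : 2 * (n + C * l + 1) ≤ (C + 1) * b := by
  have : C * b = 6 * (d * b) := by rw [hC]; ring
  nlinarith [Nat.zero_le b]

theorem numG (n C d u D σ b p a r h Q : ℕ) (hrh : r * h ≤ Q * h) (hU : a + 2 * (Q * h) ≤ u)
    (hD1 : 4 * C * d * u ≤ D) (hσ : D * σ < n) (hden : n ≤ d * b) (hj3 : b ≤ 2 * C * p) :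
    2 * ((a + 2 * r * h) * σ) < p := by
  have a1 : (a + 2 * r * h) * σ ≤ u * σ := Nat.mul_le_mul_right _ (by nlinarith)
  have a2 := Nat.mul_le_mul_right σ hD1
  have a3 := Nat.mul_le_mul_left d hj3
  have a4 : 2 * C * d * (2 * (u * σ)) < 2 * C * d * p := by nlinarith
  have a5 := Nat.lt_of_mul_lt_mul_left a4
  omega

theorem numK (n Q X W Z k : ℕ) (hQ : 0 < Q) (hX1 : n < Q * X) (hk : k * Q ≤ W * n)
    (hZ : Z = W + 4) : 3 * X + k < Z * X := by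
  have h0 : W * n ≤ W * (Q * X) := Nat.mul_le_mul_left _ hX1.le
  have h1 : Q * k ≤ Q * (W * X) := by nlinarith
  have h2 := Nat.le_of_mul_le_mul_left h1 hQ
  have h3 : 0 < X := by
    rcases Nat.eq_zero_or_pos X with h | h
    · simp [h] at hX1
    · exact h
  rw [hZ]
  nlinarith

theorem numS (c Q X k x0 x1 x2 l g : ℕ) (e1 : x0 + l + x1 + x2 = 3 * X + k) :
    c + Q * x2 + (c + Q * x1 + (c + Q * x0 + (g + Q * l))) = 3 * c + g + 3 * (Q * X) + k * Q := by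
  have e2 : Q * (x0 + l + x1 + x2) = Q * (3 * X + k) := by rw [e1]
  nlinarith

theorem core' (h d W C Z Q s u D : ℕ) (hd : 1 ≤ d) (hC : C = 6 * d) (hZ : Z = W + 4)
    (hQ1 : ∀ j, 1 ≤ j → j ≤ C → j ∣ Q) (hQ2 : 2 * C * Z ≤ Q) (hs : s = 16 * Z ^ 2 * d ^ 2 + 1)
    (hu : u = 2 * Q * Q + 2 * s * (Q * h)) (hD1 : 4 * C * d * u ≤ D)
    (hD2 : d * Q * (4 * ((s + 1) * u + h) + 16 * Z * h * d) ≤ D)
    (n : ℕ) (hn : Q ≤ n) (A B : Finset ℕ) (S : ℕ → Finset ℕ) (σ : ℕ) (hA : ∀ a ∈ A, a ≤ n)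
    (hB : ∀ b ∈ B, b ≤ n) (H : Sys A B S h σ) (hden : n ≤ d * B.card) (hσ : D * σ < n) :
    Concl A n W (9 + 2 * s * (Q * h)) (2 * s * (Q * h) + 3 * h) Q := by
  intro U0 hU0
  have hC1 : 1 ≤ C := by omega
  have hQ : 0 < Q := numQ C Z Q W hC1 hZ hQ2
  obtain ⟨X, hX⟩ : ∃ X, X = n / Q + 1 := ⟨_, rfl⟩
  have hX1 : n < Q * X := by rw [hX]; exact Nat.lt_mul_div_succ n hQ
  have hX0 : Q * (n / Q) ≤ n := Nat.mul_div_le n Q
  have hX2 : Q * X ≤ 2 * n := by rw [hX]; exact (numX n Q C Z _ hn hX0 hQ2).1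
  have hX3 : C * (Z * X) ≤ n := by rw [hX]; exact (numX n Q C Z _ hn hX0 hQ2).2
  obtain ⟨c, hc, hcl⟩ := exists_big_fiber B (range Q) (fun b => b % Q)
    (fun b _ => mem_range.mpr (Nat.mod_lt _ hQ)) ⟨0, mem_range.mpr hQ⟩
  rw [mem_range] at hc
  rw [card_range] at hcl
  obtain ⟨Y, hYdef⟩ : ∃ Y, Y = (range X).filter (fun x => c + Q * x ∈ B) := ⟨_, rfl⟩
  have hYm : ∀ x, x ∈ Y ↔ x < X ∧ c + Q * x ∈ B := by
    intro x
    rw [hYdef, mem_filter, mem_range]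
  have hY1 : (B.filter (fun b => b % Q = c)).card ≤ Y.card := by
    apply card_le_card_of_injOn (fun b => b / Q)
    · intro b hb
      simp only [coe_filter, Set.mem_ofPred_eq] at hb
      rw [mem_coe, hYm]
      have h1 := Nat.mod_add_div b Q
      have h2 := Nat.div_le_div_right (c := Q) (hB b hb.1)
      refine ⟨by rw [hX]; exact Nat.lt_succ_of_le h2, ?_⟩
      rw [← hb.2, h1]
      exact hb.1
    · intro a ha b hb hab
      simp only [coe_filter, Set.mem_ofPred_eq] at ha hb hab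
      rw [← Nat.mod_add_div a Q, ← Nat.mod_add_div b Q, ha.2, hb.2, hab]
  have hY2 : n ≤ d * (Y.card * Q) :=
    hden.trans (Nat.mul_le_mul_left _ (hcl.trans (Nat.mul_le_mul_right _ hY1)))
  have hY3 : X ≤ 2 * d * Y.card := numY3 n Q X d _ hQ hX2 hY2
  have hY4 : (4 * ((s + 1) * u + h) + 16 * Z * h * d) * σ < Y.card :=
    numY4 n Q d _ _ D σ hD2 hY2 hσ
  have hpopY : ∀ a, (Y.filter (fun x => a ∈ S (c + Q * x))).card ≤ σ := by
    intro a
    refine le_trans ?_ (H.pop a)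
    apply card_le_card_of_injOn (fun x => c + Q * x)
    · intro x hx
      simp only [coe_filter, Set.mem_ofPred_eq] at hx ⊢
      exact ⟨((hYm x).mp hx.1).2, hx.2⟩
    · intro x _ x' _ hxx
      simp only at hxx
      exact Nat.eq_of_mul_eq_mul_left hQ (by omega)
  obtain ⟨Λ, hΛ1, hΛ2, hΛ3⟩ := cover Y X (Z * X) (fun x hx => ((hYm x).mp hx).1) s
  have hE : 4 * (unc Y X (Z * X) Λ).card ≤ Y.card := by
    refine hΛ3.resolve_right ?_
    intro h1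
    exact numE X Z d _ s _ hY3 (Nat.zero_lt_of_lt hY4) hs h1
  have hΛ4 : 2 * Λ.card * (Q * h) ≤ 2 * s * (Q * h) := Nat.mul_le_mul_right _ (by omega)
  obtain ⟨V, hV1, hV2, hV3, G0, hG0, hG⟩ := multi A U0 Q (Q * h) u Λ (by
    intro l hl U hU
    have h1 : C * l ≤ C * (Z * X) := Nat.mul_le_mul_left _ (hΛ2 l hl).le
    obtain ⟨j, hj1, hj2, hj3⟩ := popular B n C l hB hC1
      (numP n C d l _ _ hC h1 hX3 hden (Nat.zero_lt_of_lt hσ))
    obtain ⟨r, hr⟩ := hQ1 j hj1 hj2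
    have hrQ : r ≤ Q := by rw [hr]; exact Nat.le_mul_of_pos_left _ hj1
    have hrh : r * h ≤ Q * h := Nat.mul_le_mul_right _ hrQ
    obtain ⟨S1, S2, g1, g2, g3, g4, g5, g6, g7⟩ := gadget H (j * l) U r
      (numG n C d u D σ _ _ _ r h Q hrh hU hD1 hσ hden hj3)
    refine ⟨S1, S2, g1, g2, g3, g4, g5.trans hrh, g6.trans hrh, ?_⟩
    rw [g7, hr]
    ring) (by omega)
  have hUc : (U0 ∪ V).card ≤ u := (card_union_le _ _).trans (by omega)
  have hbad := (bad_card Y (fun x => S (c + Q * x)) σ hpopY (U0 ∪ V)).trans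
    (Nat.mul_le_mul_right σ hUc)
  have hsplit := card_filter_add_card_filter_not (s := Y)
    (fun x => Disjoint (S (c + Q * x)) (U0 ∪ V))
  obtain ⟨Y1, hY1def⟩ : ∃ Y1, Y1 = Y.filter (fun x => Disjoint (S (c + Q * x)) (U0 ∪ V)) :=
    ⟨_, rfl⟩
  obtain ⟨Bd, hBd⟩ : ∃ Bd, Bd = Y.filter (fun x => ¬ Disjoint (S (c + Q * x)) (U0 ∪ V)) :=
    ⟨_, rfl⟩
  rw [← hBd] at hbad
  rw [← hBd, ← hY1def] at hsplit
  have hY1m : ∀ x ∈ Y1, x < X ∧ c + Q * x ∈ B ∧ Disjoint (S (c + Q * x)) (U0 ∪ V) := by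
    intro x hx
    rw [hY1def, mem_filter, hYm] at hx
    exact ⟨hx.1.1, hx.1.2, hx.2⟩
  have hE' : (unc Y1 X (Z * X) Λ).card ≤ (unc Y X (Z * X) Λ).card + s * (u * σ) := by
    have hsub : unc Y1 X (Z * X) Λ ⊆ unc Y X (Z * X) Λ ∪
        Λ.biUnion (fun l => Bd.image (fun x => x + l)) := by
      intro τ hτ
      rw [unc, mem_filter] at hτ
      by_cases h1 : ∀ l ∈ Λ, ∀ x ∈ Y, x + l ≠ τ
      · exact mem_union_left _ (mem_filter.mpr ⟨hτ.1, h1⟩)
      · push Not at h1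
        obtain ⟨l, hl, x, hx, hxl⟩ := h1
        refine mem_union_right _ (mem_biUnion.mpr ⟨l, hl, mem_image.mpr ⟨x, ?_, hxl⟩⟩)
        rw [hBd, mem_filter]
        refine ⟨hx, fun hdis => hτ.2 l hl x ?_ hxl⟩
        rw [hY1def, mem_filter]
        exact ⟨hx, hdis⟩
    have h1 := (card_le_card hsub).trans (card_union_le _ _)
    have h2 := card_biUnion_le_card_mul Λ (fun l => Bd.image (fun x => x + l)) (u * σ)
      (fun l _ => card_image_le.trans hbad)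
    have h3 : Λ.card * (u * σ) ≤ s * (u * σ) := Nat.mul_le_mul_right _ hΛ1
    omega
  have hφ : ∀ τ, ∃ x, X ≤ τ → τ < Z * X → τ ∉ unc Y1 X (Z * X) Λ →
      x ∈ Y1 ∧ ∃ l ∈ Λ, x + l = τ := by
    intro τ
    by_cases h1 : X ≤ τ ∧ τ < Z * X ∧ τ ∉ unc Y1 X (Z * X) Λ
    · have h2 := h1.2.2
      rw [unc, mem_filter, mem_Ico] at h2
      push Not at h2
      obtain ⟨l, hl, x, hx, hxl⟩ := h2 ⟨h1.1, h1.2.1⟩
      exact ⟨x, fun _ _ _ => ⟨hx, l, hl, hxl⟩⟩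
    · exact ⟨0, fun a b c => absurd ⟨a, b, c⟩ h1⟩
  choose φ hφ using hφ
  have hG0s : G0.sum id ≤ 2 * s * (Q * h) * n := by
    have h1 := sum_le_card_nsmul G0 id n (fun a ha => hA a (hV1 (hG0 ha)))
    have h2 : G0.card ≤ 2 * s * (Q * h) := (card_le_card hG0).trans (by omega)
    rw [smul_eq_mul] at h1
    exact h1.trans (Nat.mul_le_mul_right _ h2)
  refine ⟨3 * c + G0.sum id + 3 * (Q * X), by rw [add_mul]; omega, ?_⟩
  intro k hk
  have hk2 : 3 * X + k < Z * X := numK n Q X W Z k hQ hX1 hk hZ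
  obtain ⟨x1, hx1, x2, hx2, t1, t2, t3, t4⟩ := triple Y1 (fun x => S (c + Q * x)) h σ X (Z * X)
    (fun x hx => (hY1m x hx).1) (fun x hx => H.card _ (hY1m x hx).2.1)
    (fun a => le_trans (card_le_card (filter_subset_filter _ (by
      rw [hY1def]; exact filter_subset _ _))) (hpopY a))
    (unc Y1 X (Z * X) Λ) φ (fun τ a b c => (hφ τ a b c).1) (3 * X + k) (by omega) hk2
    (num1 Y.card Y1.card Bd.card _ _ s u h σ Z d X hsplit hbad hE hE' hY4 hY3)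
  obtain ⟨a1, a2, a3⟩ := hY1m x1 hx1
  obtain ⟨b1, b2, b3⟩ := hY1m x2 hx2
  obtain ⟨hx0, l, hl, hxl⟩ := hφ (3 * X + k - x1 - x2) (by omega) (by omega) t1
  generalize φ (3 * X + k - x1 - x2) = x0 at *
  obtain ⟨c1, c2, c3⟩ := hY1m x0 hx0
  obtain ⟨G, hGV, hGs⟩ := hG l hl
  rw [disjoint_union_right] at a3 b3 c3
  refine ⟨S (c + Q * x2) ∪ (S (c + Q * x1) ∪ (S (c + Q * x0) ∪ G)), ?_, ?_, ?_, ?_⟩
  · exact union_subset (H.sub _ b2) (union_subset (H.sub _ a2)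
      (union_subset (H.sub _ c2) (hGV.trans hV1)))
  · simp only [disjoint_union_left]
    exact ⟨b3.1, a3.1, c3.1, hV2.mono_left hGV⟩
  · have e1 := card_union_le (S (c + Q * x2)) (S (c + Q * x1) ∪ (S (c + Q * x0) ∪ G))
    have e2 := card_union_le (S (c + Q * x1)) (S (c + Q * x0) ∪ G)
    have e3 := card_union_le (S (c + Q * x0)) G
    have e4 := card_le_card hGV
    have := H.card _ a2
    have := H.card _ b2
    have := H.card _ c2
    omega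
  · rw [sum_union, sum_union, sum_union, H.sum _ a2, H.sum _ b2, H.sum _ c2, hGs]
    · exact numS c Q X k x0 x1 x2 l _ (by omega)
    · exact c3.2.mono_right hGV
    · exact disjoint_union_right.mpr ⟨t3, a3.2.mono_right hGV⟩
    · exact disjoint_union_right.mpr ⟨t2, disjoint_union_right.mpr ⟨t4, b3.2.mono_right hGV⟩⟩

theorem core (h d W : ℕ) (hd : 1 ≤ d) : ∃ D K t Q : ℕ, 1 ≤ D ∧ 0 < Q ∧ ∀ n, Q ≤ n →
    ∀ (A B : Finset ℕ) (S : ℕ → Finset ℕ) (σ : ℕ), (∀ a ∈ A, a ≤ n) → (∀ b ∈ B, b ≤ n) →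
      Sys A B S h σ → n ≤ d * B.card → D * σ < n → Concl A n W K t Q := by
  obtain ⟨Q, hQ⟩ : ∃ Q, Q = (6 * d).factorial * (2 * (6 * d) * (W + 4)) := ⟨_, rfl⟩
  obtain ⟨s, hs⟩ : ∃ s, s = 16 * (W + 4) ^ 2 * d ^ 2 + 1 := ⟨_, rfl⟩
  obtain ⟨u, hu⟩ : ∃ u, u = 2 * Q * Q + 2 * s * (Q * h) := ⟨_, rfl⟩
  have hf := Nat.factorial_pos (6 * d)
  refine ⟨4 * (6 * d) * d * u + d * Q * (4 * ((s + 1) * u + h) + 16 * (W + 4) * h * d) + 1,
    9 + 2 * s * (Q * h), 2 * s * (Q * h) + 3 * h, Q, by omega, by rw [hQ]; positivity, ?_⟩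
  intro n hn A B S σ hA hB H hden hσ
  refine core' h d W (6 * d) (W + 4) Q s u _ hd rfl rfl ?_ ?_ hs hu ?_ ?_ n hn A B S σ hA hB H
    hden hσ
  · intro j h1 h2
    rw [hQ]
    exact Dvd.dvd.mul_right (Nat.dvd_factorial h1 h2) _
  · rw [hQ]
    exact Nat.le_mul_of_pos_left _ hf
  · omega
  · omega

noncomputable def Sig (A : Finset ℕ) (i n : ℕ) : Finset ℕ :=
  (range (n + 1)).filter (fun v => ∃ T ⊆ A, T.card ≤ i ∧ T.sum id = v)

theorem mem_Sig {A : Finset ℕ} {i n v : ℕ} :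
    v ∈ Sig A i n ↔ v ≤ n ∧ ∃ T ⊆ A, T.card ≤ i ∧ T.sum id = v := by
  rw [Sig, mem_filter, mem_range, Nat.lt_succ_iff]

theorem lev (W i : ℕ) : ∀ d, 1 ≤ d → ∃ K t Qb : ℕ, ∀ n, Qb ≤ n → ∀ A : Finset ℕ,
    (∀ a ∈ A, a ≤ n) → n ≤ d * (Sig A i n).card → ∃ Q, 0 < Q ∧ Q ≤ Qb ∧ Concl A n W K t Q := by
  induction i with
  | zero =>
    intro d _
    refine ⟨0, 0, d + 1, ?_⟩
    intro n hn A _ hden
    exfalso
    have : (Sig A 0 n).card ≤ 1 := by
      have hs : Sig A 0 n ⊆ {0} := by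
        intro v hv
        obtain ⟨_, T, _, h2, h3⟩ := mem_Sig.mp hv
        have : T = ∅ := card_eq_zero.mp (by omega)
        subst this
        simp at h3
        simp [h3]
      simpa using card_le_card hs
    nlinarith
  | succ i ih =>
    intro d hd
    obtain ⟨D, K, t, Q, hD, hQ, hcore⟩ := core (i + 1) d W hd
    obtain ⟨K', t', Qb, hih⟩ := ih D hD
    refine ⟨K + K', t + t', Q + Qb, ?_⟩
    intro n hn A hA hden
    by_cases hσ : D * (Sig A i n).card < n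
    · have hS : ∀ b, ∃ T : Finset ℕ, b ∈ Sig A (i + 1) n →
          T ⊆ A ∧ T.card ≤ i + 1 ∧ T.sum id = b := by
        intro b
        by_cases hb : b ∈ Sig A (i + 1) n
        · obtain ⟨_, T, h⟩ := mem_Sig.mp hb
          exact ⟨T, fun _ => h⟩
        · exact ⟨∅, fun h => absurd h hb⟩
      choose S hS using hS
      refine ⟨Q, hQ, by omega, (hcore n (by omega) A (Sig A (i + 1) n) S _ hA
        (fun b hb => (mem_Sig.mp hb).1) ⟨fun b hb => (hS b hb).1, fun b hb => (hS b hb).2.1,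
          fun b hb => (hS b hb).2.2, ?_⟩ hden hσ).mono (by omega) (by omega)⟩
      intro a
      apply card_le_card_of_injOn (fun b => b - a)
      · intro b hb
        simp only [coe_filter, Set.mem_ofPred_eq] at hb
        obtain ⟨h1, h2, h3⟩ := hS b hb.1
        have h4 := (mem_Sig.mp hb.1).1
        have h5 := add_sum_erase (S b) id hb.2
        rw [mem_coe, mem_Sig]
        refine ⟨(Nat.sub_le _ _).trans h4, (S b).erase a, (erase_subset _ _).trans h1, ?_, ?_⟩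
        · rw [card_erase_of_mem hb.2]
          omega
        · simp only [id] at h3 h5 ⊢
          omega
      · intro b hb b' hb' hbb
        simp only [coe_filter, Set.mem_ofPred_eq] at hb hb' hbb
        have h1 := add_sum_erase (S b) id hb.2
        have h2 := add_sum_erase (S b') id hb'.2
        have h3 := (hS b hb.1).2.2
        have h4 := (hS b' hb'.1).2.2
        simp only [id] at h1 h2 h3 h4
        omega
    · obtain ⟨Q', h1, h2, h3⟩ := hih n (by omega) A hA (by omega)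
      exact ⟨Q', h1, by omega, h3.mono (by omega) (by omega)⟩

end Pool.Agent.Lib.helper15.Restr
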