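import Pool.Agent.Lib.helper15.RestrB

set_option autoImplicit false
open Classical
open Finset

namespace Pool.Agent.Lib.helper15.Restr

noncomputable def Ms (A : Finset ℕ) (i j n : ℕ) : Finset ℕ :=
  (range (n + 1)).filter (fun v => ∃ T ⊆ A, T.card ≤ i ∧ ∃ s : Multiset ℕ, (∀ x ∈ s, x ∈ A) ∧
    Multiset.card s ≤ j ∧ T.sum id + s.sum = v)

theorem mem_Ms {A : Finset ℕ} {i j n v : ℕ} :
    v ∈ Ms A i j n ↔ v ≤ n ∧ ∃ T ⊆ A, T.card ≤ i ∧ ∃ s : Multiset ℕ, (∀ x ∈ s, x ∈ A) ∧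
      Multiset.card s ≤ j ∧ T.sum id + s.sum = v := by
  rw [Ms, mem_filter, mem_range, Nat.lt_succ_iff]

theorem Ms_step (A : Finset ℕ) (i j n : ℕ) :
    (Ms A i (j + 1) n).card ≤ (i + 1) * (Ms A (i + 1) j n).card := by
  have hT : ∀ v, ∃ T : Finset ℕ, v ∈ Ms A i j n → T ⊆ A ∧ T.card ≤ i ∧ ∃ s : Multiset ℕ,
      (∀ x ∈ s, x ∈ A) ∧ Multiset.card s ≤ j ∧ T.sum id + s.sum = v := by
    intro v
    by_cases hv : v ∈ Ms A i j n
    · obtain ⟨_, T, h⟩ := mem_Ms.mp hv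
      exact ⟨T, fun _ => h⟩
    · exact ⟨∅, fun h => absurd h hv⟩
  choose T hT using hT
  have hsub0 : Ms A i j n ⊆ Ms A (i + 1) j n := by
    intro v hv
    obtain ⟨h0, T, h1, h2, h3⟩ := mem_Ms.mp hv
    exact mem_Ms.mpr ⟨h0, T, h1, by omega, h3⟩
  have hsub : Ms A i (j + 1) n ⊆ Ms A (i + 1) j n ∪
      (Ms A i j n).biUnion (fun v => (T v).image (fun a => v + a)) := by
    intro t ht
    obtain ⟨h0, T1, h1, h2, s, h3, h4, h5⟩ := mem_Ms.mp ht
    rcases s.empty_or_exists_mem with rfl | ⟨a, ha⟩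
    · exact mem_union_left _ (mem_Ms.mpr ⟨h0, T1, h1, by omega, 0, by simp, by simp, h5⟩)
    · obtain ⟨s', rfl⟩ := Multiset.exists_cons_of_mem ha
      rw [Multiset.card_cons] at h4
      rw [Multiset.sum_cons] at h5
      have hv : T1.sum id + s'.sum ∈ Ms A i j n := mem_Ms.mpr ⟨by omega, T1, h1, h2, s',
        fun x hx => h3 x (Multiset.mem_cons_of_mem hx), by omega, rfl⟩
      obtain ⟨g1, g2, s2, g3, g4, g5⟩ := hT _ hv
      by_cases hm : a ∈ T (T1.sum id + s'.sum)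
      · exact mem_union_right _ (mem_biUnion.mpr ⟨_, hv, mem_image.mpr ⟨a, hm, by omega⟩⟩)
      · refine mem_union_left _ (mem_Ms.mpr ⟨h0, insert a (T (T1.sum id + s'.sum)),
          insert_subset (h3 a ha) g1, (card_insert_le _ _).trans (by omega), s2, g3, g4, ?_⟩)
        rw [sum_insert hm]
        simp only [id] at g5 h5 ⊢
        omega
  have h1 := (card_le_card hsub).trans (card_union_le _ _)
  have h2 := card_biUnion_le_card_mul (Ms A i j n) (fun v => (T v).image (fun a => v + a)) i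
    (fun v hv => card_image_le.trans (hT v hv).2.1)
  have h3 := card_le_card hsub0
  have h4 := Nat.mul_le_mul_right i h3
  nlinarith

theorem Ms_le (A : Finset ℕ) (n j : ℕ) : ∀ i,
    (Ms A i j n).card ≤ (i + j) ^ j * (Sig A (i + j) n).card := by
  induction j with
  | zero =>
    intro i
    have : Ms A i 0 n ⊆ Sig A (i + 0) n := by
      intro v hv
      obtain ⟨h0, T, h1, h2, s, _, h4, h5⟩ := mem_Ms.mp hv
      have : s = 0 := Multiset.card_eq_zero.mp (by omega)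
      subst this
      exact mem_Sig.mpr ⟨h0, T, h1, h2, by simpa using h5⟩
    simpa using card_le_card this
  | succ j ih =>
    intro i
    have h1 := Ms_step A i j n
    have h2 := ih (i + 1)
    have e : i + 1 + j = i + (j + 1) := by omega
    rw [e] at h2
    calc (Ms A i (j + 1) n).card ≤ (i + 1) * ((i + (j + 1)) ^ j * (Sig A (i + (j + 1)) n).card) :=
          h1.trans (Nat.mul_le_mul_left _ h2)
      _ ≤ (i + (j + 1)) * ((i + (j + 1)) ^ j * (Sig A (i + (j + 1)) n).card) :=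
          Nat.mul_le_mul_right _ (by omega)
      _ = _ := by ring

noncomputable def Rs (E : Finset ℕ) (i M x : ℕ) : Finset ℕ :=
  (range x).filter (fun v => ∃ s : Multiset ℕ, (∀ a ∈ s, a ∈ E) ∧ Multiset.card s ≤ i ∧
    ∃ r, r ≤ M ∧ s.sum + r = v)

theorem mem_Rs {E : Finset ℕ} {i M x v : ℕ} :
    v ∈ Rs E i M x ↔ v < x ∧ ∃ s : Multiset ℕ, (∀ a ∈ s, a ∈ E) ∧ Multiset.card s ≤ i ∧
      ∃ r, r ≤ M ∧ s.sum + r = v := by
  rw [Rs, mem_filter, mem_range]

theorem mul_sum_le (g x : ℕ) (s : Multiset ℕ) (h : ∀ a ∈ s, g * a ≤ x) :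
    g * s.sum ≤ Multiset.card s * x := by
  induction s using Multiset.induction_on with
  | empty => simp
  | cons a s ih =>
    rw [Multiset.sum_cons, Multiset.card_cons]
    have h1 := h a (Multiset.mem_cons_self _ _)
    have h2 := ih (fun b hb => h b (Multiset.mem_cons_of_mem hb))
    nlinarith

theorem numR (c i x M k r : ℕ) (h1 : 4 * c * (i + 1) * k ≤ (i + 1) * x) (h2 : 4 * c * M ≤ x)
    (h3 : r ≤ M) : (k + r) * (2 * c) ≤ x := by
  have h4 : (i + 1) * (4 * c * k) ≤ (i + 1) * x := by nlinarith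
  have h5 := Nat.le_of_mul_le_mul_left h4 (Nat.succ_pos i)
  have h6 : 4 * c * r ≤ 4 * c * M := Nat.mul_le_mul_left _ h3
  nlinarith

theorem numR2 (c g x q b p a : ℕ) (h1 : x ≤ c * a) (h2 : a ≤ q + 1 + b * p) (h3 : b ≤ g)
    (h4 : 2 * c * q ≤ x) (h5 : 1 ≤ p) : x ≤ (2 * c + 2 * c * g) * p := by
  have h6 : b * p ≤ g * p := Nat.mul_le_mul_right _ h3
  have h7 : c * a ≤ c * (q + 1 + g * p) := Nat.mul_le_mul_left _ (by omega)
  have h8 : c * 1 ≤ c * p := Nat.mul_le_mul_left _ h5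
  nlinarith

theorem levC (i : ℕ) : ∀ c, 1 ≤ c → ∃ W, ∀ (M x : ℕ) (E : Finset ℕ), E.sum id < x →
    x ≤ c * (Rs E i M x).card → x ≤ W * (M + 1) := by
  induction i with
  | zero =>
    intro c _
    refine ⟨c, ?_⟩
    intro M x E _ h
    have : Rs E 0 M x ⊆ range (M + 1) := by
      intro v hv
      obtain ⟨_, s, _, h2, r, h3, h4⟩ := mem_Rs.mp hv
      have : s = 0 := Multiset.card_eq_zero.mp (by omega)
      subst this
      simp at h4
      rw [mem_range]
      omega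
    have h2 := card_le_card this
    rw [card_range] at h2
    exact h.trans (Nat.mul_le_mul_left _ h2)
  | succ i ih =>
    intro c hc
    obtain ⟨W, hW⟩ := ih (2 * c + 2 * c * (4 * c * (i + 1))) (by omega)
    refine ⟨W + 4 * c, ?_⟩
    intro M x E hE h
    by_cases hM : x ≤ 4 * c * M
    · nlinarith [Nat.zero_le (W * (M + 1))]
    have hx : 0 < x := by omega
    refine (hW M x E hE ?_).trans (Nat.mul_le_mul_right _ (by omega))
    obtain ⟨Big, hBig⟩ : ∃ Big, Big = E.filter (fun e => x ≤ 4 * c * (i + 1) * e) := ⟨_, rfl⟩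
    have hb : Big.card ≤ 4 * c * (i + 1) := by
      have h1 := card_nsmul_le_sum Big (fun e => 4 * c * (i + 1) * e) x
        (fun e he => by rw [hBig] at he; exact (mem_filter.mp he).2)
      rw [← mul_sum, smul_eq_mul] at h1
      have h2 : ∑ e ∈ Big, e ≤ E.sum id := sum_le_sum_of_subset (f := id)
        (by rw [hBig]; exact filter_subset _ _)
      have h3 : 4 * c * (i + 1) * ∑ e ∈ Big, e ≤ 4 * c * (i + 1) * x :=
        Nat.mul_le_mul_left _ (by omega)
      exact Nat.le_of_mul_le_mul_right (h1.trans h3) hx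
    have hsub : Rs E (i + 1) M x ⊆ range (x / (2 * c) + 1) ∪
        Big.biUnion (fun e => (Rs E i M x).image (fun v => e + v)) := by
      intro v hv
      obtain ⟨h0, s, h1, h2, r, h3, h4⟩ := mem_Rs.mp hv
      by_cases hs : ∃ a ∈ s, x ≤ 4 * c * (i + 1) * a
      · obtain ⟨a, ha, hax⟩ := hs
        obtain ⟨s', rfl⟩ := Multiset.exists_cons_of_mem ha
        rw [Multiset.card_cons] at h2
        rw [Multiset.sum_cons] at h4
        refine mem_union_right _ (mem_biUnion.mpr ⟨a, ?_, mem_image.mpr ⟨s'.sum + r, ?_, by omega⟩⟩)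
        · rw [hBig]
          exact mem_filter.mpr ⟨h1 a ha, hax⟩
        · exact mem_Rs.mpr ⟨by omega, s', fun b hb => h1 b (Multiset.mem_cons_of_mem hb),
            by omega, r, h3, rfl⟩
      · push Not at hs
        have h5 := mul_sum_le (4 * c * (i + 1)) x s (fun a ha => (hs a ha).le)
        have h6 := h5.trans (Nat.mul_le_mul_right x h2)
        have h7 := numR c i x M s.sum r h6 (by omega) h3
        refine mem_union_left _ (mem_range.mpr (Nat.lt_succ_of_le ?_))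
        rw [← h4]
        exact (Nat.le_div_iff_mul_le (by omega)).mpr h7
    have h1 := (card_le_card hsub).trans (card_union_le _ _)
    have h2 := card_biUnion_le_card_mul Big (fun e => (Rs E i M x).image (fun v => e + v)) _
      (fun e _ => card_image_le)
    rw [card_range] at h1
    have h3 : 1 ≤ (Rs E i M x).card :=
      card_pos.mpr ⟨0, mem_Rs.mpr ⟨hx, 0, by simp, by simp, 0, by simp, by simp⟩⟩
    exact numR2 c _ x (x / (2 * c)) Big.card _ _ h (by omega) hb (Nat.mul_div_le _ _) h3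

theorem greedy (w : ℕ) (E : Finset ℕ) : (∀ e ∈ E, e ≤ w + (E.filter (fun a => a < e)).sum id) →
    ∀ g, g ≤ w + E.sum id → ∃ T ⊆ E, T.sum id ≤ g ∧ g ≤ T.sum id + w := by
  induction E using Finset.induction_on_max with
  | empty =>
    intro _ g hg
    exact ⟨∅, by simp, by simp, by simpa using hg⟩
  | insert a s hmax ih =>
    intro h g hg
    have ha : a ∉ s := fun h => lt_irrefl _ (hmax a h)
    have h1 : ∀ e ∈ s, e ≤ w + (s.filter (fun b => b < e)).sum id := by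
      intro e he
      have h2 := h e (mem_insert_of_mem he)
      rw [filter_insert, if_neg (not_lt.mpr (hmax e he).le)] at h2
      exact h2
    have h2 := h a (mem_insert_self _ _)
    rw [filter_insert, if_neg (lt_irrefl a), filter_true_of_mem hmax] at h2
    rw [sum_insert ha] at hg
    simp only [id] at hg h2 ih h1
    by_cases hga : g < a
    · obtain ⟨T, h3, h4⟩ := ih h1 g (by omega)
      exact ⟨T, h3.trans (subset_insert _ _), h4⟩
    · obtain ⟨T, h3, h4, h5⟩ := ih h1 (g - a) (by omega)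
      refine ⟨insert a T, insert_subset_insert _ h3, ?_⟩
      rw [sum_insert (fun h => ha (h3 h))]
      simp only [id] at h4 h5 ⊢
      omega

def Basis (A : Set ℕ) (h N : ℕ) : Prop :=
  ∀ m, N ≤ m → ∃ s : Multiset ℕ, Multiset.card s ≤ h ∧ (∀ x ∈ s, x ∈ A) ∧ s.sum = m

theorem sizefix (h : ℕ) : ∃ W, ∀ (A : Set ℕ) (N n : ℕ), Basis A h N → N ≤ n → 1 ≤ n → ∀ g,
    ∃ T : Finset ℕ, (∀ a ∈ T, a ∈ A ∧ n < a) ∧ T.sum id ≤ g ∧ g ≤ T.sum id + W * n := by
  obtain ⟨W, hW⟩ := levC h 2 (by omega)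
  refine ⟨W * (h + 1) + 2, ?_⟩
  intro A N n hA hN hn g
  have claim : ∀ x, x ≤ (W * (h + 1) + 2) * n + ((Ioo n x).filter (fun a => a ∈ A)).sum id := by
    intro x
    by_cases h1 : ((Ioo n x).filter (fun a => a ∈ A)).sum id < x
    swap
    · omega
    by_cases h2 : x ≤ 2 * n
    · nlinarith [Nat.zero_le (W * (h + 1) * n),
        Nat.zero_le (((Ioo n x).filter (fun a => a ∈ A)).sum id)]
    have hsub : Ico N x ⊆ Rs ((Ioo n x).filter (fun a => a ∈ A)) h (h * n) x := by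
      intro v hv
      rw [mem_Ico] at hv
      obtain ⟨s, h3, h4, h5⟩ := hA v hv.1
      refine mem_Rs.mpr ⟨hv.2, s.filter (fun a => n < a), ?_,
        (Multiset.card_le_card (Multiset.filter_le _ _)).trans h3,
        (s.filter (fun a => ¬ n < a)).sum, ?_, ?_⟩
      · intro a ha
        rw [Multiset.mem_filter] at ha
        have := Multiset.single_le_sum (fun _ _ => Nat.zero_le _) a ha.1
        exact mem_filter.mpr ⟨mem_Ioo.mpr ⟨ha.2, by omega⟩, h4 a ha.1⟩
      · have h6 := mul_sum_le 1 n (s.filter (fun a => ¬ n < a)) (fun a ha => by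
          have := (Multiset.mem_filter.mp ha).2
          omega)
        have h7 := (Multiset.card_le_card (Multiset.filter_le (fun a => ¬ n < a) s)).trans h3
        have h8 := Nat.mul_le_mul_right n h7
        omega
      · rw [← Multiset.sum_add, Multiset.filter_add_not, h5]
    have h3 := card_le_card hsub
    rw [Nat.card_Ico] at h3
    have h4 := hW (h * n) x _ h1 (by omega)
    have h5 : W * (h * n + 1) ≤ W * ((h + 1) * n) := Nat.mul_le_mul_left _ (by nlinarith)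
    nlinarith [Nat.zero_le (((Ioo n x).filter (fun a => a ∈ A)).sum id)]
  obtain ⟨T, h1, h2⟩ := greedy ((W * (h + 1) + 2) * n) ((Ioo n (g + 1)).filter (fun a => a ∈ A))
    (by
      intro e he
      rw [mem_filter, mem_Ioo] at he
      have : ((Ioo n (g + 1)).filter (fun a => a ∈ A)).filter (fun a => a < e) =
          (Ioo n e).filter (fun a => a ∈ A) := by
        ext a
        simp only [mem_filter, mem_Ioo]
        constructor
        · rintro ⟨⟨⟨h1, _⟩, h2⟩, h3⟩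
          exact ⟨⟨h1, h3⟩, h2⟩
        · rintro ⟨⟨h1, h3⟩, h2⟩
          exact ⟨⟨⟨h1, by omega⟩, h2⟩, h3⟩
      rw [this]
      exact claim e) g ((Nat.le_succ g).trans (claim (g + 1)))
  refine ⟨T, fun a ha => ?_, h2⟩
  have := mem_filter.mp (h1 ha)
  exact ⟨this.2, (mem_Ioo.mp this.1).1⟩

def Res (A : Set ℕ) : Prop :=
  ∀ q r : ℕ, 0 < q → ∃ F : Finset ℕ, (∀ a ∈ F, a ∈ A) ∧ F.sum id ≡ r [MOD q]

theorem res_small (A : Set ℕ) (q : ℕ) (hq : 0 < q) : ∀ (k : ℕ) (F : Finset ℕ), F.card = k →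
    (∀ a ∈ F, a ∈ A) → ∃ F' : Finset ℕ, (∀ a ∈ F', a ∈ A) ∧ F'.card ≤ 2 * q ∧
      F'.sum id ≡ F.sum id [MOD q] := by
  intro k
  induction k using Nat.strong_induction_on with
  | _ k ih =>
    intro F hk hF
    by_cases h : F.card ≤ 2 * q
    · exact ⟨F, hF, h, Nat.ModEq.refl _⟩
    obtain ⟨t, ht1, ht2, ht3⟩ := Int.erdos_ginzburg_ziv (s := F) (n := q) (fun a : ℕ => (a : ℤ))
      (by omega)
    have h1 := card_sdiff_add_card_eq_card ht1
    obtain ⟨F', h2, h3, h4⟩ := ih (F \ t).card (by omega) (F \ t) rfl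
      (fun a ha => hF a (sdiff_subset ha))
    refine ⟨F', h2, h3, h4.trans ?_⟩
    rw [← sum_sdiff ht1]
    have h5 : q ∣ t.sum id := by
      have : ((t.sum id : ℕ) : ℤ) = ∑ i ∈ t, (i : ℤ) := by simp
      rw [← this] at ht3
      exact_mod_cast ht3
    exact (Nat.ModEq.refl _).add ((Nat.modEq_zero_iff_dvd.mpr h5).symm)

theorem main (h : ℕ) : ∃ t, ∀ (A : Set ℕ) (N : ℕ), Basis A h N → Res A →
    ∃ N1, ∀ m, N1 ≤ m → ∃ T : Finset ℕ, (∀ a ∈ T, a ∈ A) ∧ T.card ≤ t ∧ T.sum id = m := by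
  obtain ⟨W, hW⟩ := sizefix h
  have hh : 0 < h ^ h := by
    rcases Nat.eq_zero_or_pos h with rfl | h0
    · simp
    · positivity
  obtain ⟨K, t, Qb, hlev⟩ := lev (W + 1) h (2 * h ^ h) (by omega)
  refine ⟨2 * (K + 1) + 2 * Qb + t, ?_⟩
  intro A N hA hres
  have hF : ∀ q r : ℕ, ∃ F : Finset ℕ, 0 < q → (∀ a ∈ F, a ∈ A) ∧ F.card ≤ 2 * q ∧
      F.sum id ≡ r [MOD q] := by
    intro q r
    by_cases hq : 0 < q
    · obtain ⟨F, h1, h2⟩ := hres q r hq
      obtain ⟨F', h3, h4, h5⟩ := res_small A q hq _ F rfl h1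
      exact ⟨F', fun _ => ⟨h3, h4, h5.trans h2⟩⟩
    · exact ⟨∅, fun h => absurd h hq⟩
  choose F hF using hF
  obtain ⟨R, hR⟩ : ∃ R, ∀ q r, q ≤ Qb → r < q → (F q r).sum id ≤ R := by
    refine ⟨∑ p ∈ range (Qb + 1) ×ˢ range (Qb + 1), (F p.1 p.2).sum id, ?_⟩
    intro q r h1 h2
    exact single_le_sum (f := fun p : ℕ × ℕ => (F p.1 p.2).sum id) (a := (q, r))
      (fun _ _ => Nat.zero_le _) (by simp; omega)
  refine ⟨(K + 1) * (Qb + R + 2 * N + 1), ?_⟩
  intro m hm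
  obtain ⟨n, hn⟩ : ∃ n, n = m / (K + 1) := ⟨_, rfl⟩
  have hn1 : Qb + R + 2 * N + 1 ≤ n := by
    rw [hn, Nat.le_div_iff_mul_le (by omega), mul_comm]
    exact hm
  have hn2 : (K + 1) * n ≤ m := by rw [hn]; exact Nat.mul_div_le _ _
  have hn3 : m < (K + 1) * (n + 1) := by rw [hn]; exact Nat.lt_mul_div_succ _ (by omega)
  obtain ⟨A', hA'⟩ : ∃ A', A' = (range (n + 1)).filter (fun a => a ∈ A) := ⟨_, rfl⟩
  have hA'm : ∀ a, a ∈ A' ↔ a ≤ n ∧ a ∈ A := by
    intro a
    rw [hA', mem_filter, mem_range, Nat.lt_succ_iff]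
  have hsub : Icc N n ⊆ Ms A' 0 h n := by
    intro v hv
    rw [mem_Icc] at hv
    obtain ⟨s, h3, h4, h5⟩ := hA v hv.1
    refine mem_Ms.mpr ⟨hv.2, ∅, by simp, by simp, s, ?_, h3, by simpa using h5⟩
    intro a ha
    have := Multiset.single_le_sum (fun _ _ => Nat.zero_le _) a ha
    exact (hA'm a).mpr ⟨by omega, h4 a ha⟩
  have h1 := card_le_card hsub
  rw [Nat.card_Icc] at h1
  have h2 := Ms_le A' n h 0
  rw [zero_add] at h2
  obtain ⟨Q, hQ1, hQ2, hcon⟩ := hlev n (by omega) A' (fun a ha => ((hA'm a).mp ha).1)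
    (by rw [mul_assoc]; omega)
  obtain ⟨z0, hz0, hz⟩ := hcon ((range Q).biUnion (fun r => F Q r)) (by
    have := card_biUnion_le_card_mul (range Q) (fun r => F Q r) (2 * Q)
      (fun r _ => (hF Q r hQ1).2.1)
    rw [card_range] at this
    calc _ ≤ Q * (2 * Q) := this
      _ = _ := by ring)
  rw [add_mul, one_mul] at hn2
  obtain ⟨T1, g1, g2, g3⟩ := hW A N n hA (by omega) (by omega) (m - z0 - n)
  have g4 : T1.card ≤ 2 * (K + 1) := by
    have e1 := card_nsmul_le_sum T1 id n (fun a ha => (g1 a ha).2.le)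
    rw [smul_eq_mul] at e1
    have e2 : (K + 1) * (n + 1) ≤ (K + 1) * (2 * n) := Nat.mul_le_mul_left _ (by omega)
    have e3 : T1.card * n ≤ 2 * (K + 1) * n := by
      calc T1.card * n ≤ (K + 1) * (2 * n) := by omega
        _ = _ := by ring
    exact Nat.le_of_mul_le_mul_right e3 (by omega)
  obtain ⟨m', hm'⟩ : ∃ m', m' = m - z0 - T1.sum id := ⟨_, rfl⟩
  have hr := Nat.mod_lt m' hQ1
  obtain ⟨f1, f2, f3⟩ := hF Q (m' % Q) hQ1
  have f4 := hR Q (m' % Q) hQ2 hr
  have f5 : (F Q (m' % Q)).sum id ≤ m' := by omega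
  obtain ⟨k, hk⟩ := (Nat.modEq_iff_dvd' f5).mp (f3.trans (Nat.mod_modEq m' Q))
  obtain ⟨T2, e1, e2, e3, e4⟩ := hz k (by rw [add_mul, mul_comm k Q]; omega)
  have d1 : Disjoint T2 (F Q (m' % Q)) :=
    e2.mono_right (subset_biUnion_of_mem (fun r => F Q r) (mem_range.mpr hr))
  have d2 : Disjoint T1 (T2 ∪ F Q (m' % Q)) := by
    rw [disjoint_left]
    intro a ha hb
    have e5 := (g1 a ha).2
    rcases mem_union.mp hb with hb | hb
    · have := ((hA'm a).mp (e1 hb)).1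
      omega
    · have := single_le_sum (f := id) (fun _ _ => Nat.zero_le _) hb
      simp only [id] at this f4
      omega
  refine ⟨T1 ∪ (T2 ∪ F Q (m' % Q)), ?_, ?_, ?_⟩
  · intro a ha
    rcases mem_union.mp ha with ha | ha
    · exact (g1 a ha).1
    · rcases mem_union.mp ha with ha | ha
      · exact ((hA'm a).mp (e1 ha)).2
      · exact f1 a ha
  · have := card_union_le T1 (T2 ∪ F Q (m' % Q))
    have := card_union_le T2 (F Q (m' % Q))
    omega
  · have e6 : (T1 ∪ (T2 ∪ F Q (m' % Q))).sum id =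
        T1.sum id + (T2.sum id + (F Q (m' % Q)).sum id) := by
      rw [sum_union d2, sum_union d1]
    rw [mul_comm k Q] at e4
    omega

theorem res_of_removal (A : Set ℕ) (hA : ∀ F : Finset ℕ, ∃ N, ∀ m, N ≤ m →
    ∃ s : Multiset ℕ, (∀ x ∈ s, x ∈ A ∧ x ∉ F) ∧ s.sum = m) : Res A := by
  intro q r hq
  have hfin : {a | a ∈ A ∧ {b | b ∈ A ∧ b ≡ a [MOD q]}.Finite}.Finite := by
    have : {a | a ∈ A ∧ {b | b ∈ A ∧ b ≡ a [MOD q]}.Finite} ⊆
        ⋃ c ∈ {c | c < q ∧ {b | b ∈ A ∧ b ≡ c [MOD q]}.Finite}, {b | b ∈ A ∧ b ≡ c [MOD q]} := by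
      intro a ha
      simp only [Set.mem_iUnion]
      refine ⟨a % q, ⟨Nat.mod_lt _ hq, ?_⟩, ha.1, (Nat.mod_modEq a q).symm⟩
      exact ha.2.subset (fun b hb => ⟨hb.1, hb.2.trans (Nat.mod_modEq a q)⟩)
    refine Set.Finite.subset (Set.Finite.biUnion ?_ (fun c hc => hc.2)) this
    exact (Set.finite_lt_nat q).subset (fun c hc => hc.1)
  obtain ⟨N, hN⟩ := hA hfin.toFinset
  obtain ⟨s, h1, h2⟩ := hN (r + N * q) (by nlinarith)
  have key : ∀ s : Multiset ℕ, (∀ x ∈ s, {b | b ∈ A ∧ b ≡ x [MOD q]}.Infinite) →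
      ∃ F : Finset ℕ, (∀ a ∈ F, a ∈ A) ∧ F.sum id ≡ s.sum [MOD q] := by
    intro s
    induction s using Multiset.induction_on with
    | empty => exact fun _ => ⟨∅, by simp, by simp [Nat.ModEq]⟩
    | cons a s ih =>
      intro hs
      obtain ⟨F, h3, h4⟩ := ih (fun x hx => hs x (Multiset.mem_cons_of_mem hx))
      obtain ⟨b, hb, hbF⟩ := (hs a (Multiset.mem_cons_self _ _)).exists_notMem_finset F
      refine ⟨insert b F, ?_, ?_⟩
      · intro x hx
        rcases mem_insert.mp hx with rfl | hx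
        · exact hb.1
        · exact h3 x hx
      · rw [sum_insert hbF, Multiset.sum_cons]
        exact hb.2.add h4
  obtain ⟨F, h3, h4⟩ := key s (fun x hx hf => (h1 x hx).2 (by
    rw [Set.Finite.mem_toFinset]
    exact ⟨(h1 x hx).1, hf⟩))
  refine ⟨F, h3, h4.trans ?_⟩
  rw [h2]
  simp [Nat.ModEq]

theorem removal (A : Set ℕ) (hA : ∀ F : Finset ℕ, ∃ k N, ∀ m, N ≤ m →
    ∃ s : Multiset ℕ, (∀ x ∈ s, x ∈ A ∧ x ∉ F) ∧ Multiset.card s ≤ k ∧ s.sum = m) :
    ∃ t N1, ∀ m, N1 ≤ m → ∃ T : Finset ℕ, (∀ a ∈ T, a ∈ A) ∧ T.card ≤ t ∧ T.sum id = m := by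
  obtain ⟨h, N, hN⟩ := hA ∅
  obtain ⟨t, ht⟩ := main h
  refine ⟨t, ht A N ?_ (res_of_removal A ?_)⟩
  · intro m hm
    obtain ⟨s, h1, h2, h3⟩ := hN m hm
    exact ⟨s, h2, fun x hx => (h1 x hx).1, h3⟩
  · intro F
    obtain ⟨k, N, hN⟩ := hA F
    refine ⟨N, fun m hm => ?_⟩
    obtain ⟨s, h1, _, h3⟩ := hN m hm
    exact ⟨s, h1, h3⟩

end Pool.Agent.Lib.helper15.Restr
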