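import Pool.Agent.Lib.helper15.Fdc2

set_option autoImplicit false

namespace Pool.Agent.Lib.helper15.SemiZ

open Set TopologicalSpace

/-- The semi-Zariski topology of a semigroup `S`; `WithOne S` is `S¹`. -/
@[reducible] def semiZariski (S : Type) [Semigroup S] : TopologicalSpace S :=
  generateFrom ({U | ∃ a b c : WithOne S, U = {x : S | a * x * b ≠ c}} ∪
    {U | ∃ a b c d : WithOne S, U = {x : S | a * x * b ≠ c * x * d}})

/-- `Cent (Cent F)` is finite for every finite `F`. -/
def FiniteDoubleCentralizers (S : Type) [Semigroup S] : Prop :=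
  ∀ F : Set S, F.Finite → F.centralizer.centralizer.Finite

/-- The subspace `T` of `S` with the semi-Zariski topology is a countable union of discrete
subspaces. -/
def SigmaDiscrete (S : Type) [Semigroup S] (T : Set S) : Prop :=
  ∃ D : ℕ → Set S, ⋃ n, D n = T ∧ ∀ n, @IsDiscrete S (semiZariski S) (D n)

variable {G I : Type} [Group G] {x : I → G}

lemma red (a b : WithOne G) : ∃ p q : G, ∀ y : G, a * y * b = (p * y * q : G) := by
  induction a using WithOne.recOneCoe with
  | one => induction b using WithOne.recOneCoe with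
    | one => exact ⟨1, 1, fun y => by simp⟩
    | coe b => exact ⟨1, b, fun y => by simp⟩
  | coe a => induction b using WithOne.recOneCoe with
    | one => exact ⟨a, 1, fun y => by simp⟩
    | coe b => exact ⟨a, b, fun y => by simp⟩

lemma cocount (hx : Function.Injective x)
    (hg : ∀ u v, u ≠ 1 → {i | u * x i = x i * v}.Countable) {U : Set G}
    (hU : @IsOpen G (semiZariski G) U) (hn : U.Nonempty) : {i | x i ∉ U}.Countable := by
  induction hU with
  | basic U h =>
    rcases h with ⟨a, b, c, rfl⟩ | ⟨a, b, c, d, rfl⟩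
    · obtain ⟨p, q, e⟩ := red a b
      refine Set.Subsingleton.countable fun i hi j hj => hx ?_
      simp only [mem_ofPred_eq, e, not_not] at hi hj
      simpa using WithOne.coe_inj.1 (hi.trans hj.symm)
    · obtain ⟨p, q, e⟩ := red a b
      obtain ⟨r, s, f⟩ := red c d
      have k : ∀ y : G, a * y * b = c * y * d ↔ r⁻¹ * p * y = y * (s * q⁻¹) := fun y => by
        rw [e, f, WithOne.coe_inj]
        constructor <;> intro h
        · calc _ = r⁻¹ * (p * y * q) * q⁻¹ := by group
            _ = _ := by rw [h]; group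
        · calc _ = r * (r⁻¹ * p * y) * q := by group
            _ = _ := by rw [h]; group
      simp only [mem_ofPred_eq, not_not, k, ne_eq] at hn ⊢
      by_cases h : r⁻¹ * p = 1
      · obtain ⟨y, hy⟩ := hn
        refine Set.Subsingleton.countable fun i hi => (hy ?_).elim
        simp_all
      · exact hg _ _ h
  | univ => simp
  | inter U V _ _ h1 h2 =>
    exact ((h1 hn.left).union (h2 hn.right)).mono fun i hi => not_and_or.1 hi
  | sUnion S _ h =>
    obtain ⟨y, U, hU, hy⟩ := hn
    exact (h U hU ⟨y, hy⟩).mono fun i hi c => hi ⟨U, hU, c⟩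

lemma not_sigma [Uncountable I] (hx : Function.Injective x)
    (hg : ∀ u v, u ≠ 1 → {i | u * x i = x i * v}.Countable) {T : Set G}
    (hT : {i | x i ∉ T}.Countable) : ¬SigmaDiscrete G T := by
  rintro ⟨D, rfl, hD⟩
  refine not_countable_univ ((hT.union (countable_iUnion (t := fun n => {i | x i ∈ D n})
    fun n => ?_)).mono fun i _ => (em' (x i ∈ ⋃ n, D n)).imp_right fun h => by simpa using h)
  rcases eq_empty_or_nonempty {i | x i ∈ D n} with e | ⟨i, hi⟩
  · simp [e]
  let _ := semiZariski G
  obtain ⟨U, hU, e⟩ := isDiscrete_iff_forall_mem_exists_isOpen.1 (hD n) _ hi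
  have hn : x i ∈ U := (e.ge rfl).1
  refine ((cocount hx hg hU ⟨_, hn⟩).insert i).mono fun j hj => ?_
  by_cases c : x j ∈ U
  · exact .inl (hx (e.le ⟨c, hj⟩))
  · exact .inr c

end Pool.Agent.Lib.helper15.SemiZ
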