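import Mathlib

set_option autoImplicit false

namespace Pool.Agent.Lib.helper15.SimpRef

open Set

section Defs
variable {V W : Type} [AddCommGroup V] [Module ℝ V] [AddCommGroup W] [Module ℝ W]

/-- A convex polytope: the convex hull of finitely many points. -/
def IsPolytope (C : Set V) : Prop := ∃ S : Set V, S.Finite ∧ C = convexHull ℝ S

/-- A simplex with `n` vertices (of dimension `n - 1`). -/
def IsSimplex (T : Set V) (n : ℕ) : Prop :=
  ∃ v : Fin n → V, AffineIndependent ℝ v ∧ T = convexHull ℝ (range v)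

/-- The convex-form space: affine maps `C → [0, 1]`. -/
def Forms (C : Set V) : Set (C → ℝ) :=
  {ω | (∀ x, ω x ∈ Icc (0 : ℝ) 1) ∧ ∀ x y z : C, ∀ t ∈ Icc (0 : ℝ) 1,
    (z : V) = t • (x : V) + (1 - t) • (y : V) → ω z = t * ω x + (1 - t) * ω y}

/-- `f` with domain `D` is a partial, onto, affine map from `X` to `Y`. -/
structure PartialAffineOnto (X : Set V) (Y : Set W) (D : Set V) (f : V → W) : Prop where
  sub : D ⊆ X
  conv : Convex ℝ D
  aff : ∀ a ∈ D, ∀ b ∈ D, ∀ t ∈ Icc (0 : ℝ) 1, f (t • a + (1 - t) • b) = t • f a + (1 - t) • f b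
  onto : f '' D = Y

/-- `(T, ΩT, f, g)` refines `(C, ΩC)`; `D`, `D'` are the domains of `f`, `g`. -/
structure Refines (T : Set V) (C : Set W) (D : Set V) (f : V → W) (D' : Set (T → ℝ))
    (g : (T → ℝ) → C → ℝ) : Prop where
  hf : PartialAffineOnto T C D f
  hg : PartialAffineOnto (Forms T) (Forms C) D' g
  pair : ∀ a : T, ∀ c : C, (a : V) ∈ D → f a = c → ∀ ω ∈ D', g ω c = ω a

lemma convex_forms (C : Set V) : Convex ℝ (Forms C) := fun ω h ω' h' a b ha hb hab =>
  ⟨fun x => convex_Icc (𝕜 := ℝ) 0 1 (h.1 x) (h'.1 x) ha hb hab, fun x y z t ht e => by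
    simp only [Pi.add_apply, Pi.smul_apply, smul_eq_mul, h.2 x y z t ht e, h'.2 x y z t ht e]
    ring⟩

lemma exists_g {T : Set V} {C : Set W} {D : Set V} {f : V → W} (hf : PartialAffineOnto T C D f)
    (h : ∀ ω ∈ Forms C, ∃ w ∈ Forms T, ∀ a : T, ∀ c : C, (a : V) ∈ D → f a = c → ω c = w a) :
    ∃ D' g, Refines T C D f D' g := by
  choose s h1 h2 using fun c : C => hf.onto.ge c.2
  let g : (T → ℝ) → C → ℝ := fun w c => w ⟨s c, hf.sub (h1 c)⟩
  refine ⟨{w ∈ Forms T | g w ∈ Forms C ∧ ∀ a : T, ∀ c : C, (a : V) ∈ D → f a = c → g w c = w a},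
    g, hf, ⟨fun _ a => a.1, fun w hw w' hw' a b ha hb hab => ⟨convex_forms _ hw.1 hw'.1 ha hb hab,
      convex_forms _ hw.2.1 hw'.2.1 ha hb hab, fun x c p q => ?_⟩, fun _ _ _ _ _ _ => rfl,
      subset_antisymm (image_subset_iff.2 fun _ a => a.2.1) fun ω hω => ?_⟩,
    fun a c p q w hw => hw.2.2 a c p q⟩
  · show a * g w c + b * g w' c = a * w x + b * w' x
    rw [hw.2.2 x c p q, hw'.2.2 x c p q]
  · obtain ⟨w, hw, e⟩ := h ω hω
    have : g w = ω := funext fun c => (e ⟨s c, _⟩ c (h1 c) (h2 c)).symm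
    exact ⟨w, ⟨hw, this ▸ hω, this ▸ e⟩, this⟩

lemma simplex_card [FiniteDimensional ℝ V] {T : Set V} {n : ℕ} (h : IsSimplex T n) :
    (T.extremePoints ℝ).ncard ≤ Module.finrank ℝ V + 1 := by
  obtain ⟨v, hv, rfl⟩ := h
  refine (ncard_le_ncard extremePoints_convexHull_subset (finite_range v)).trans ?_
  rw [← image_univ]
  refine (ncard_image_le finite_univ).trans ?_
  simpa using hv.card_le_finrank_succ.trans (Nat.succ_le_succ (Submodule.finrank_le _))

lemma dim_le [FiniteDimensional ℝ V] {X D : Set V} {T : Set W} {n : ℕ} {f : V → W}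
    (h : IsSimplex T n) (hf : PartialAffineOnto X T D f) : n ≤ Module.finrank ℝ V + 1 := by
  classical
  obtain ⟨v, hv, rfl⟩ := h
  choose a h1 h2 using fun i => hf.onto.ge (subset_convexHull ℝ _ (mem_range_self (f := v) i))
  by_contra c
  obtain ⟨I, x, p, q⟩ := Convex.radon_partition (𝕜 := ℝ) (f := a) fun d => c <| by
    simpa using d.card_le_finrank_succ.trans (Nat.succ_le_succ (Submodule.finrank_le _))
  have k : ∀ J : Set (Fin n), convexHull ℝ (a '' J) ⊆ {x ∈ D | f x ∈ convexHull ℝ (v '' J)} :=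
    fun J => convexHull_min (image_subset_iff.2 fun i hi =>
      ⟨h1 i, subset_convexHull ℝ _ ⟨i, hi, (h2 i).symm⟩⟩) fun x hx y hy s t hs ht e => by
        obtain rfl : t = 1 - s := by linarith
        refine ⟨hf.conv hx.1 hy.1 hs ht e, ?_⟩
        rw [hf.aff x hx.1 y hy.1 s ⟨hs, by linarith⟩]
        exact convex_convexHull ℝ _ hx.2 hy.2 hs ht e
  obtain ⟨i, hi, hi'⟩ := AffineIndependent.exists_mem_inter_of_exists_mem_inter_affineSpan hv
    (convexHull_subset_affineSpan _ (k I p).2) (convexHull_subset_affineSpan _ (k _ q).2)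
  exact hi' hi

end Defs

variable {ι : Type} [Fintype ι] [DecidableEq ι]

def vtx (p : ι × ι) : ι → ℝ := Pi.single p.1 1 - Pi.single p.2 1

def C (ι : Type) [Fintype ι] [DecidableEq ι] : Set (ι → ℝ) :=
  convexHull ℝ (vtx '' {p | p.1 ≠ p.2})

def D (ι : Type) [Fintype ι] : Set (ι ⊕ ι → ℝ) :=
  {x ∈ stdSimplex ℝ _ | ∑ k, x (.inl k) = 1 / 2}

def F (x : ι ⊕ ι → ℝ) : ι → ℝ := fun k => 2 * x (.inl k) - 2 * x (.inr k)

lemma vtx_mem [Nontrivial ι] (p : ι × ι) : vtx p ∈ C ι := by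
  by_cases h : p.1 = p.2
  · obtain ⟨i, j, e⟩ := exists_pair_ne ι
    have a : vtx (i, j) ∈ C ι := subset_convexHull ℝ _ ⟨(i, j), e, rfl⟩
    have b : vtx (j, i) ∈ C ι := subset_convexHull ℝ _ ⟨(j, i), e.symm, rfl⟩
    have := convex_convexHull ℝ _ a b (a := 1 / 2) (b := 1 / 2) (by norm_num)
      (by norm_num) (by norm_num)
    rwa [show (1 / 2 : ℝ) • vtx (i, j) + (1 / 2 : ℝ) • vtx (j, i) = vtx p by
      simp [vtx, h, ← smul_add]] at this
  · exact subset_convexHull ℝ _ ⟨p, h, rfl⟩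

open Pointwise in
lemma C_eq [Nontrivial ι] : C ι = stdSimplex ℝ ι - stdSimplex ℝ ι := by
  rw [← convexHull_rangle_single_eq_stdSimplex, ← convexHull_sub]
  refine subset_antisymm (convexHull_mono ?_) (convexHull_min ?_ (convex_convexHull _ _))
  · rintro _ ⟨p, -, rfl⟩; exact ⟨_, ⟨_, rfl⟩, _, ⟨_, rfl⟩, rfl⟩
  · rintro _ ⟨_, ⟨i, rfl⟩, _, ⟨j, rfl⟩, rfl⟩; exact vtx_mem (i, j)

omit [DecidableEq ι] in
lemma D_inr {x} (h : x ∈ D ι) : ∑ k, x (.inr k) = 1 / 2 := by
  have := h.1.2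
  rw [Fintype.sum_sum_type, h.2] at this
  linarith

lemma hF [Nontrivial ι] : PartialAffineOnto (stdSimplex ℝ _) (C ι) (D ι) F where
  sub := fun _ h => h.1
  conv := fun x hx y hy a b ha hb e => ⟨convex_stdSimplex ℝ _ hx.1 hy.1 ha hb e, by
    simp only [Pi.add_apply, Pi.smul_apply, smul_eq_mul, Finset.sum_add_distrib, ← Finset.mul_sum,
      hx.2, hy.2]; linarith⟩
  aff := fun a _ b _ t _ => by ext k; simp [F]; ring
  onto := by
    rw [C_eq]
    ext c
    constructor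
    · rintro ⟨x, hx, rfl⟩
      exact ⟨fun k => 2 * x (.inl k), ⟨fun k => by linarith [hx.1.1 (.inl k)], by
        rw [← Finset.mul_sum, hx.2]; norm_num⟩, fun k => 2 * x (.inr k),
        ⟨fun k => by linarith [hx.1.1 (.inr k)], by rw [← Finset.mul_sum, D_inr hx]; norm_num⟩, rfl⟩
    · rintro ⟨p, hp, q, hq, rfl⟩
      refine ⟨Sum.elim (fun k => p k / 2) fun k => q k / 2, ⟨⟨?_, ?_⟩, ?_⟩, ?_⟩
      · rintro (k | k)
        exacts [half_pos_or (hp.1 k), half_pos_or (hq.1 k)]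
      · simp [← Finset.sum_div, hp.2, hq.2]; norm_num
      · simp [← Finset.sum_div, hp.2]
      · ext k; simp [F]; ring
where half_pos_or {x : ℝ} (h : 0 ≤ x) : 0 ≤ x / 2 := by linarith

theorem refines [Nontrivial ι] : ∃ D' g, Refines (stdSimplex ℝ _) (C ι) (D ι) F D' g := by
  refine exists_g hF fun ω hω => ?_
  let M : ι → ι → ℝ := fun i j => ω ⟨_, vtx_mem (i, j)⟩
  have ex : ∀ i j k l, M i j + M k l = M i l + M k j := fun i j k l => by
    have m := convex_convexHull ℝ _ (vtx_mem (i, j)) (vtx_mem (k, l)) (a := 1 / 2)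
      (b := 1 - 1 / 2) (by norm_num) (by norm_num) (by norm_num)
    have a := hω.2 ⟨_, vtx_mem (i, j)⟩ ⟨_, vtx_mem (k, l)⟩ ⟨_, m⟩ _ (by norm_num) rfl
    have b := hω.2 ⟨_, vtx_mem (i, l)⟩ ⟨_, vtx_mem (k, j)⟩ ⟨_, m⟩ (1 / 2) (by norm_num)
      (by simp only [vtx]; module)
    simp only [M]; linarith
  obtain ⟨o⟩ : Nonempty ι := inferInstance
  have dg : ∀ i, M i i = M o o := fun i => by simp [M, vtx]
  obtain ⟨u, hu⟩ := Finite.exists_min fun i => M i o
  obtain ⟨v, hv⟩ := Finite.exists_max fun i => M i o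
  have lin : C ι ⊆ {c | ∃ h : c ∈ C ι, ω ⟨c, h⟩ = M o o + ∑ k, M k o * c k} := by
    refine convexHull_min ?_ fun x ⟨hx, a⟩ y ⟨hy, b⟩ s t hs ht e => ?_
    · rintro _ ⟨⟨i, j⟩, -, rfl⟩
      refine ⟨vtx_mem _, ?_⟩
      have := ex i j j o
      simp only [vtx, Pi.sub_apply, mul_sub, Finset.sum_sub_distrib, Pi.single_apply, mul_ite,
        mul_one, mul_zero, Finset.sum_ite_eq', Finset.mem_univ, if_true]
      show M i j = _
      linarith [dg j]
    · obtain rfl : t = 1 - s := by linarith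
      refine ⟨convex_convexHull ℝ _ hx hy hs ht e, ?_⟩
      rw [hω.2 ⟨x, hx⟩ ⟨y, hy⟩ _ s ⟨hs, by linarith⟩ rfl, a, b]
      simp only [Pi.add_apply, Pi.smul_apply, smul_eq_mul, mul_add, Finset.sum_add_distrib,
        mul_left_comm (M _ o), ← Finset.mul_sum]
      ring
  let c : ι ⊕ ι → ℝ := Sum.elim (fun i => M o o + (2 * M i o - M u o - M v o))
    fun i => M o o - (2 * M i o - M u o - M v o)
  have hc : ∀ k, c k ∈ Icc (0 : ℝ) 1 := by
    have a := (hω.1 ⟨_, vtx_mem (u, v)⟩).1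
    have b := (hω.1 ⟨_, vtx_mem (v, u)⟩).2
    change 0 ≤ M u v at a
    change M v u ≤ 1 at b
    have := ex u v v o
    have := ex v u u o
    rintro (k | k) <;> constructor <;> simp only [c, Sum.elim_inl, Sum.elim_inr] <;>
      linarith [hu k, hv k, dg u, dg v]
  refine ⟨fun x => ∑ k, x.1 k * c k, ⟨fun x => ⟨Finset.sum_nonneg fun k _ =>
    mul_nonneg (x.2.1 k) (hc k).1, (Finset.sum_le_sum fun k _ =>
      mul_le_of_le_one_right (x.2.1 k) (hc k).2).trans x.2.2.le⟩, fun x y z t _ e => ?_⟩,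
    fun a z ha e => ?_⟩
  · simp only [e, Pi.add_apply, Pi.smul_apply, smul_eq_mul, add_mul, mul_assoc,
      Finset.sum_add_distrib, Finset.mul_sum]
  · obtain ⟨_, h⟩ := lin z.2
    rw [h, ← e]
    have : ∀ (r : ℝ) (x : ι → ℝ), ∑ k, x k * (r + 2 * M k o) = r * ∑ k, x k + ∑ k, M k o * (2 * x k) :=
      fun r x => by
        rw [Finset.mul_sum, ← Finset.sum_add_distrib]; exact Finset.sum_congr rfl fun _ _ => by ring
    have p := this (M o o - M u o - M v o) fun k => a.1 (.inl k)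
    have q := this (-M o o - M u o - M v o) fun k => a.1 (.inr k)
    rw [ha.2] at p
    rw [D_inr ha] at q
    simp only [F, mul_sub, Finset.sum_sub_distrib, Fintype.sum_sum_type, c, Sum.elim_inl,
      Sum.elim_inr]
    simp only [mul_sub, mul_add, mul_neg, Finset.sum_sub_distrib, Finset.sum_add_distrib,
      Finset.sum_neg_distrib] at p q ⊢
    linarith

lemma eq_single {p : ι → ℝ} (hp : p ∈ stdSimplex ℝ ι) {i : ι} (h : 1 ≤ p i) :
    p = Pi.single i 1 := by
  have a := hp.2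
  rw [← Finset.add_sum_erase _ _ (Finset.mem_univ i)] at a
  have b := Finset.sum_nonneg fun k (_ : k ∈ Finset.univ.erase i) => hp.1 k
  ext k
  by_cases e : k = i
  · subst e; simp; linarith
  · rw [Pi.single_eq_of_ne e]
    exact (Finset.sum_eq_zero_iff_of_nonneg fun k _ => hp.1 k).1 (by linarith) k (by simp [e])

lemma extreme [Nontrivial ι] : (C ι).extremePoints ℝ = vtx '' {p | p.1 ≠ p.2} := by
  refine subset_antisymm extremePoints_convexHull_subset ?_
  rintro _ ⟨⟨i, j⟩, h, rfl⟩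
  refine mem_extremePoints_iff_left.2 ⟨vtx_mem _, ?_⟩
  rw [C_eq]
  rintro _ ⟨p, hp, q, hq, rfl⟩ _ ⟨p', hp', q', hq', rfl⟩ ⟨s, t, hs, ht, e, k⟩
  have h : i ≠ j := h
  have a := congrFun k i
  have b := congrFun k j
  simp [vtx, h, h.symm] at a b
  have l := fun {p : ι → ℝ} (hp : p ∈ stdSimplex ℝ ι) k => mem_Icc_of_mem_stdSimplex hp k
  rw [eq_single hp (i := i) (by nlinarith [(l hq i).1, (l hp' i).2, (l hq' i).1]),
    eq_single hq (i := j) (by nlinarith [(l hp j).1, (l hp' j).1, (l hq' j).2])]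
  rfl

omit [Fintype ι] in
lemma vtx_inj : InjOn (vtx (ι := ι)) {p | p.1 ≠ p.2} := by
  rintro ⟨i, j⟩ h ⟨k, l⟩ h' e
  have h : i ≠ j := h
  have a := congrFun e i
  have b := congrFun e j
  simp only [vtx, Pi.sub_apply, Pi.single_apply, h, h.symm, if_true, if_false] at a b
  ext
  · by_contra c
    rw [if_neg c] at a
    split_ifs at a <;> norm_num at a
  · by_contra c
    rw [if_neg c] at b
    split_ifs at b <;> norm_num at b

lemma card_extreme [Nontrivial ι] :
    ((C ι).extremePoints ℝ).ncard = Fintype.card ι * Fintype.card ι - Fintype.card ι := by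
  rw [extreme, vtx_inj.ncard_image, ← Finset.card_univ, ← Finset.offDiag_card,
    ← ncard_coe_finset]
  congr 1; ext p; simp

lemma simplex_std {κ : Type} [Fintype κ] {n : ℕ} (e : Fin n ≃ κ) :
    IsSimplex (stdSimplex ℝ κ) n := by
  classical
  refine ⟨fun i => Pi.basisFun ℝ κ (e i),
    ((Pi.basisFun ℝ κ).linearIndependent.comp e e.injective).affineIndependent, ?_⟩
  rw [← convexHull_basis_eq_stdSimplex, ← e.surjective.range_comp]
  congr 2; ext i j; simp [Pi.single_apply, eq_comm]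

lemma poly : IsPolytope (C ι) := ⟨_, toFinite _, rfl⟩

lemma not_simplex {a : ℕ} (h : 3 ≤ a) (n : ℕ) : ¬IsSimplex (C (Fin a)) n := fun c => by
  have : Nontrivial (Fin a) := Fin.nontrivial_iff_two_le.2 (by omega)
  have := simplex_card c
  simp only [card_extreme, Fintype.card_fin, Module.finrank_fin_fun] at this
  have : 3 * a ≤ a * a := Nat.mul_le_mul_right a h
  omega

end Pool.Agent.Lib.helper15.SimpRef
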