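import Mathlib

/-! Invariant means on soluble groups (finitely additive means on bounded real functions). -/

set_option autoImplicit false

namespace Pool.Agent.Lib.helper15.SolMean

open Filter Topology
open scoped commutatorElement

/-- bounded real functions -/
def Bd {α : Type} (f : α → ℝ) : Prop := ∃ C : ℝ, ∀ x, |f x| ≤ C

lemma Bd.comp {α β : Type} {f : α → ℝ} (hf : Bd f) (g : β → α) : Bd (fun x => f (g x)) := by
  obtain ⟨C, hC⟩ := hf; exact ⟨C, fun x => hC _⟩

lemma Bd.add {α : Type} {f g : α → ℝ} (hf : Bd f) (hg : Bd g) : Bd (fun x => f x + g x) := by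
  obtain ⟨C, hC⟩ := hf; obtain ⟨D, hD⟩ := hg
  exact ⟨C + D, fun x => (abs_add_le _ _).trans (add_le_add (hC x) (hD x))⟩

lemma bd_const {α : Type} (c : ℝ) : Bd (fun _ : α => c) := ⟨|c|, fun _ => le_rfl⟩

/-- a mean on the bounded functions -/
structure Mean (α : Type) where
  M : (α → ℝ) → ℝ
  add : ∀ f g, Bd f → Bd g → M (fun x => f x + g x) = M f + M g
  mono : ∀ f g, Bd f → Bd g → (∀ x, f x ≤ g x) → M f ≤ M g
  const : ∀ c, M (fun _ => c) = c

lemma Mean.abs_le {α : Type} (m : Mean α) {f : α → ℝ} {C : ℝ} (h : ∀ x, |f x| ≤ C) :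
    |m.M f| ≤ C := by
  rw [_root_.abs_le]
  constructor
  · rw [← m.const (-C)]
    exact m.mono _ _ (bd_const _) ⟨C, h⟩ fun x => (_root_.abs_le.1 (h x)).1
  · rw [← m.const C]
    exact m.mono _ _ ⟨C, h⟩ (bd_const _) fun x => (_root_.abs_le.1 (h x)).2

lemma tendsto_ulim {ι : Type} (U : Ultrafilter ι) (u : ι → ℝ) (hu : Bd u) :
    Tendsto u U (𝓝 (limUnder (U : Filter ι) u)) := by
  obtain ⟨C, hC⟩ := hu
  apply tendsto_nhds_limUnder
  obtain ⟨x, -, hx⟩ := (isCompact_Icc (a := -C) (b := C)).ultrafilter_le_nhds (U.map u)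
    (by
      rw [le_principal_iff, Ultrafilter.coe_map, mem_map]
      exact univ_mem' fun i => abs_le.1 (hC i))
  exact ⟨x, hx⟩

lemma bd_means {α ι : Type} (m : ι → Mean α) {f : α → ℝ} (hf : Bd f) : Bd (fun i => (m i).M f) := by
  obtain ⟨C, hC⟩ := hf
  exact ⟨C, fun i => (m i).abs_le hC⟩

/-- ultralimit of means -/
noncomputable def Mean.ulim {α ι : Type} (U : Ultrafilter ι) (m : ι → Mean α) : Mean α where
  M f := limUnder (U : Filter ι) (fun i => (m i).M f)
  add f g hf hg := by
    have h1 := tendsto_ulim U _ (bd_means m (hf.add hg))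
    have h2 := (tendsto_ulim U _ (bd_means m hf)).add (tendsto_ulim U _ (bd_means m hg))
    refine tendsto_nhds_unique h1 (h2.congr fun i => ((m i).add f g hf hg).symm)
  mono f g hf hg h :=
    le_of_tendsto_of_tendsto' (tendsto_ulim U _ (bd_means m hf)) (tendsto_ulim U _ (bd_means m hg))
      fun i => (m i).mono f g hf hg h
  const c := by
    have h1 := tendsto_ulim U _ (bd_means m (bd_const c))
    exact tendsto_nhds_unique h1 (tendsto_const_nhds.congr fun i => ((m i).const c).symm)

lemma ulim_eq {α ι : Type} (U : Ultrafilter ι) (m : ι → Mean α) {f g : α → ℝ} (hf : Bd f)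
    (hg : Bd g) (h : Tendsto (fun i => (m i).M f - (m i).M g) U (𝓝 0)) :
    (Mean.ulim U m).M f = (Mean.ulim U m).M g := by
  have h2 := (tendsto_ulim U _ (bd_means m hf)).sub (tendsto_ulim U _ (bd_means m hg))
  exact sub_eq_zero.1 (tendsto_nhds_unique h2 h)

/-- invariance under left translation by `a` -/
def Mean.Inv {G : Type} [Group G] (m : Mean G) (a : G) : Prop :=
  ∀ f, Bd f → m.M (fun x => f (a * x)) = m.M f

/-- averaging over powers -/
noncomputable def Mean.avg {G : Type} [Group G] (m : Mean G) (a : G) (n : ℕ) : Mean G where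
  M f := (∑ i ∈ Finset.range (n + 1), m.M (fun x => f (a ^ i * x))) / (n + 1)
  add f g hf hg := by
    rw [← add_div, ← Finset.sum_add_distrib]
    congr 1
    exact Finset.sum_congr rfl fun i _ => m.add _ _ (hf.comp _) (hg.comp _)
  mono f g hf hg h := by
    apply div_le_div_of_nonneg_right _ (by positivity)
    exact Finset.sum_le_sum fun i _ => m.mono _ _ (hf.comp _) (hg.comp _) fun x => h _
  const c := by
    simp only [m.const, Finset.sum_const, Finset.card_range, nsmul_eq_mul]
    push_cast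
    field_simp

lemma exists_inv_insert {G : Type} [Group G] (m : Mean G) (a : G) :
    ∃ m' : Mean G, m'.Inv a ∧ ∀ b, Commute a b → m.Inv b → m'.Inv b := by
  refine ⟨Mean.ulim (hyperfilter ℕ) (m.avg a), ?_, ?_⟩
  · intro f hf
    apply ulim_eq _ _ (hf.comp _) hf
    obtain ⟨C, hC⟩ := hf
    have hb : ∀ n : ℕ, |(m.avg a n).M (fun x => f (a * x)) - (m.avg a n).M f| ≤ (2 * C) * (1 / ((n : ℝ) + 1)) := by
      intro n
      simp only [Mean.avg]
      rw [← sub_div, ← Finset.sum_sub_distrib]
      have : ∀ i : ℕ, (fun x => f (a * (a ^ i * x))) = fun x => f (a ^ (i + 1) * x) := by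
        intro i; funext x; rw [pow_succ', mul_assoc]
      simp only [this]
      rw [Finset.sum_range_sub (fun i => m.M (fun x => f (a ^ i * x))), abs_div,
        abs_of_pos (by positivity : (0 : ℝ) < (n : ℝ) + 1), mul_one_div]
      apply div_le_div_of_nonneg_right _ (by positivity)
      have h1 := m.abs_le (f := fun x => f (a ^ (n + 1) * x)) fun x => hC _
      have h2 := m.abs_le (f := fun x => f (a ^ 0 * x)) fun x => hC _
      exact (abs_sub _ _).trans (by linarith)
    have ht : Tendsto (fun n : ℕ => (2 * C) * (1 / ((n : ℝ) + 1))) atTop (𝓝 0) := by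
      simpa using (tendsto_one_div_add_atTop_nhds_zero_nat (𝕜 := ℝ)).const_mul (2 * C)
    have := squeeze_zero_norm
      (f := fun n : ℕ => (m.avg a n).M (fun x => f (a * x)) - (m.avg a n).M f)
      (fun n => by rw [Real.norm_eq_abs]; exact hb n) ht
    exact this.mono_left (hyperfilter_le_cofinite.trans Nat.cofinite_eq_atTop.le)
  · intro b hab hb f hf
    apply ulim_eq _ _ (hf.comp _) hf
    have : ∀ n, (m.avg a n).M (fun x => f (b * x)) - (m.avg a n).M f = 0 := by
      intro n
      simp only [Mean.avg]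
      rw [sub_eq_zero]
      congr 1
      refine Finset.sum_congr rfl fun i _ => ?_
      rw [← hb _ (hf.comp (fun x => a ^ i * x))]
      congr 1; funext x
      rw [← mul_assoc, ← mul_assoc, (hab.pow_left i).eq]
    simp only [this]
    exact tendsto_const_nhds

lemma exists_mean_comm {G : Type} [Group G] (hc : ∀ a b : G, Commute a b) :
    ∃ m : Mean G, ∀ a, m.Inv a := by
  classical
  have h1 : ∀ F : Finset G, ∃ m : Mean G, ∀ a ∈ F, m.Inv a := by
    intro F
    induction F using Finset.induction_on with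
    | empty => exact ⟨⟨fun f => f 1, fun _ _ _ _ => rfl, fun _ _ _ _ h => h 1, fun _ => rfl⟩, by simp⟩
    | insert a F _ ih =>
      obtain ⟨m, hm⟩ := ih
      obtain ⟨m', h1, h2⟩ := exists_inv_insert m a
      refine ⟨m', fun b hb => ?_⟩
      rcases Finset.mem_insert.1 hb with rfl | hb
      · exact h1
      · exact h2 b (hc a b) (hm b hb)
  choose m hm using h1
  refine ⟨Mean.ulim (Ultrafilter.of atTop) m, fun a f hf => ?_⟩
  apply ulim_eq _ _ (hf.comp _) hf
  refine Tendsto.mono_left ?_ (Ultrafilter.of_le _)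
  refine tendsto_const_nhds.congr' ?_
  filter_upwards [eventually_ge_atTop ({a} : Finset G)] with F hF
  rw [hm F a (hF (Finset.mem_singleton_self a)) f hf, sub_self]

lemma exists_mean_ext {G : Type} [Group G] (N : Subgroup G) [N.Normal]
    (h1 : ∃ m : Mean N, ∀ a, m.Inv a) (h2 : ∃ m : Mean (G ⧸ N), ∀ a, m.Inv a) :
    ∃ m : Mean G, ∀ a, m.Inv a := by
  obtain ⟨m1, h1⟩ := h1
  obtain ⟨m2, h2⟩ := h2
  let P : (G → ℝ) → G → ℝ := fun f g => m1.M (fun n => f (g * n))
  have hP : ∀ f, Bd f → ∀ g g' : G, (g : G ⧸ N) = g' → P f g = P f g' := by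
    intro f hf g g' h
    have h' : g⁻¹ * g' ∈ N := QuotientGroup.eq.1 h
    have := h1 ⟨_, h'⟩ (fun n => f (g * n)) (hf.comp _)
    simp only [P]
    rw [← this]
    congr 1; funext n; simp [mul_assoc]
  have hB : ∀ f, Bd f → Bd (fun q : G ⧸ N => P f q.out) := by
    rintro f ⟨C, hC⟩
    exact ⟨C, fun q => m1.abs_le fun n => hC _⟩
  refine ⟨⟨fun f => m2.M (fun q => P f q.out), ?_, ?_, ?_⟩, ?_⟩
  · intro f g hf hg
    rw [← m2.add _ _ (hB f hf) (hB g hg)]
    congr 1; funext q
    exact m1.add _ _ (hf.comp _) (hg.comp _)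
  · intro f g hf hg h
    exact m2.mono _ _ (hB f hf) (hB g hg) fun q => m1.mono _ _ (hf.comp _) (hg.comp _) fun n => h _
  · intro c
    simp only [P, m1.const, m2.const]
  · intro a f hf
    show m2.M (fun q => P (fun x => f (a * x)) q.out) = m2.M (fun q => P f q.out)
    rw [← h2 (a : G ⧸ N) _ (hB f hf)]
    congr 1; funext q
    rw [hP f hf _ (a * q.out) (by simp)]
    simp only [P, mul_assoc]

lemma derived_comm {G : Type} [Group G] {n : ℕ} (h : derivedSeries G (n + 1) = ⊥) :
    ∀ a ∈ derivedSeries G n, ∀ b ∈ derivedSeries G n, Commute a b := by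
  intro a ha b hb
  have : ⁅a, b⁆ ∈ derivedSeries G (n + 1) := by
    rw [derivedSeries_succ]; exact Subgroup.commutator_mem_commutator ha hb
  rw [h, Subgroup.mem_bot] at this
  exact commutatorElement_eq_one_iff_commute.1 this

lemma derived_quot {G : Type} [Group G] (n : ℕ) :
    derivedSeries (G ⧸ derivedSeries G n) n = ⊥ := by
  rw [← map_derivedSeries_eq (QuotientGroup.mk'_surjective (derivedSeries G n)) n,
    Subgroup.map_eq_bot_iff, QuotientGroup.ker_mk']

theorem exists_mean_of_derived (n : ℕ) : ∀ (G : Type) [Group G], derivedSeries G n = ⊥ →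
    ∃ m : Mean G, ∀ a, m.Inv a := by
  induction n with
  | zero =>
    intro G _ h
    apply exists_mean_comm
    intro a b
    have : a ∈ derivedSeries G 0 := by simp
    rw [h, Subgroup.mem_bot] at this
    rw [this]; exact Commute.one_left b
  | succ n ih =>
    intro G _ h
    refine exists_mean_ext (derivedSeries G n) (exists_mean_comm fun a b => ?_)
      (ih _ (derived_quot n))
    exact Subtype.ext (derived_comm h a a.2 b b.2).eq

/-- soluble groups are amenable -/
theorem exists_mean (G : Type) [Group G] (h : Group.IsSolvable G) : ∃ m : Mean G, ∀ a, m.Inv a := by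
  obtain ⟨n, hn⟩ := h.solvable
  exact exists_mean_of_derived n G hn

end Pool.Agent.Lib.helper15.SolMean
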