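import Mathlib
import Pool.Agent.Lib.helper15.Levy
import Pool.Agent.Lib.helper15.Cut

set_option autoImplicit false

open MeasureTheory Filter Topology Set
open scoped Real RealInnerProductSpace

namespace Pool.Agent.Lib.helper15.MagFour

section
variable {B : Type} [Fintype B]

noncomputable def qf (d : B → B → ℝ) (w : B → ℝ) : ℝ := ∑ y, ∑ y', w y * w y' * Real.exp (-d y y')

lemma exp_lip {s t : ℝ} (hs : 0 ≤ s) (ht : 0 ≤ t) : Real.exp (-s) - Real.exp (-t) ≤ |s - t| := by
  rcases le_total t s with h | h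
  · exact (sub_nonpos.2 (Real.exp_le_exp.2 (by linarith))).trans (abs_nonneg _)
  · have h1 := Real.add_one_le_exp (-(t - s))
    have h2 : Real.exp (-t) = Real.exp (-s) * Real.exp (-(t - s)) := by
      rw [← Real.exp_add]; congr 1; ring
    have h3 : Real.exp (-s) ≤ 1 := Real.exp_le_one_iff.2 (by linarith)
    rw [abs_of_nonpos (by linarith), h2]
    nlinarith [Real.exp_pos (-s)]

lemma qf_pert {d d' : B → B → ℝ} (h0 : ∀ y y', 0 ≤ d y y') (h0' : ∀ y y', 0 ≤ d' y y') {t : ℝ}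
    (h : ∀ y y', |d y y' - d' y y'| ≤ t) (w : B → ℝ) : qf d w ≤ qf d' w + t * (∑ y, |w y|) ^ 2 := by
  rw [sq, Finset.sum_mul_sum, Finset.mul_sum, qf, qf, ← Finset.sum_add_distrib]
  refine Finset.sum_le_sum fun y _ => ?_
  rw [Finset.mul_sum, ← Finset.sum_add_distrib]
  refine Finset.sum_le_sum fun y' _ => ?_
  have h1 : |Real.exp (-d y y') - Real.exp (-d' y y')| ≤ t :=
    abs_sub_le_iff.2 ⟨(exp_lip (h0 y y') (h0' y y')).trans (h y y'),
      (exp_lip (h0' y y') (h0 y y')).trans (by rw [abs_sub_comm]; exact h y y')⟩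
  have h2 := le_abs_self (w y * w y' * (Real.exp (-d y y') - Real.exp (-d' y y')))
  rw [abs_mul, abs_mul] at h2
  have h3 := mul_le_mul_of_nonneg_left h1 (mul_nonneg (abs_nonneg (w y)) (abs_nonneg (w y')))
  linarith

theorem atoms' {Ω : Type*} [MeasurableSpace Ω] (μ : Measure Ω) [DecidableEq B] (S : B → Set Ω)
    (hS : ∀ y, MeasurableSet (S y)) (hf : ∀ y y', μ (symmDiff (S y) (S y')) ≠ ⊤) :
    ∃ δ : (B → Bool) → ℝ, (∀ σ, 0 ≤ δ σ) ∧ (μ univ ≠ ⊤ → ∑ σ, δ σ = μ.real univ) ∧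
      ∀ y y', μ.real (symmDiff (S y) (S y')) = ∑ σ, if σ y = σ y' then 0 else δ σ := by
  classical
  let F : Ω → B → Bool := fun t y => decide (t ∈ S y)
  have hF : Measurable F := measurable_pi_iff.2 fun y => by
    refine measurable_to_bool ?_
    have : (fun t => decide (t ∈ S y)) ⁻¹' {true} = S y := by ext t; simp
    rw [this]; exact hS y
  refine ⟨fun σ => μ.real (F ⁻¹' {σ}), fun σ => measureReal_nonneg, fun h => ?_, fun y y' => ?_⟩
  · rw [sum_measureReal_preimage_singleton _ (fun σ _ => hF (measurableSet_singleton σ))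
      fun σ _ => ne_top_of_le_ne_top h (measure_mono (subset_univ _))]
    simp
  · have e : F ⁻¹' (Finset.univ.filter fun σ : B → Bool => ¬ σ y = σ y') =
        symmDiff (S y) (S y') := by
      ext t
      simp [F, Set.mem_symmDiff]
      tauto
    have : ∑ σ : B → Bool, (if σ y = σ y' then 0 else μ.real (F ⁻¹' {σ})) =
        ∑ σ ∈ Finset.univ.filter (fun σ : B → Bool => ¬ σ y = σ y'), μ.real (F ⁻¹' {σ}) := by
      rw [Finset.sum_filter]; exact Finset.sum_congr rfl fun σ _ => by split_ifs <;> rfl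
    rw [this, sum_measureReal_preimage_singleton _ (fun σ _ => hF (measurableSet_singleton σ))
      fun σ hσ => ne_top_of_le_ne_top (hf y y') (measure_mono ?_), e]
    rw [← e]
    exact preimage_mono (singleton_subset_iff.2 hσ)

variable {Ω : Type*} [MeasurableSpace Ω] (μ : Measure Ω) [IsFiniteMeasure μ]

def hyp (h : Ω → ℝ) : Set (Ω × ℝ) := {q | q.2 < h q.1}

lemma hyp_meas {h : Ω → ℝ} (hh : Measurable h) : MeasurableSet (hyp h) :=
  measurableSet_lt measurable_snd (hh.comp measurable_fst)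

omit [IsFiniteMeasure μ] in
lemma hyp_diff {h h' : Ω → ℝ} (hh : Measurable h) (hh' : Measurable h')
    (hi : Integrable (fun ω => |h ω - h' ω|) μ) :
    (μ.prod volume) (symmDiff (hyp h) (hyp h')) = ENNReal.ofReal (∫ ω, |h ω - h' ω| ∂μ) := by
  rw [Measure.prod_apply ((hyp_meas hh).symmDiff (hyp_meas hh')),
    ofReal_integral_eq_lintegral_ofReal hi (Eventually.of_forall fun ω => abs_nonneg _)]
  congr 1; funext ω
  have : Prod.mk ω ⁻¹' symmDiff (hyp h) (hyp h') = Ico (min (h ω) (h' ω)) (max (h ω) (h' ω)) := by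
    ext u
    simp only [hyp, mem_preimage, mem_symmDiff, mem_ofPred_eq, mem_Ico]
    grind
  rw [this, Real.volume_Ico, max_sub_min_eq_abs']

theorem split {A : Type} [Fintype A] (r : B → A) (f : B → Ω → ℝ) (g : A → Ω → ℝ)
    (hf : ∀ y, Measurable (f y)) (hg : ∀ x, Measurable (g x))
    (fi : ∀ y y', Integrable (fun ω => |f y ω - f y' ω|) μ)
    (gi : ∀ x x', Integrable (fun ω => |g x ω - g x' ω|) μ) {δ : ℝ} (hδ : 0 ≤ δ)
    (h : ∀ y ω, |f y ω - g (r y) ω| ≤ δ) {lam : ℝ}
    (hl : Fintype.card A * (2 * δ * μ.real univ) ≤ lam) :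
    ∃ d : A → A → ℝ, (∀ x x', 0 ≤ d x x') ∧ (∀ x x', |∫ ω, |g x ω - g x' ω| ∂μ - d x x'| ≤ lam) ∧
      ∀ w, Real.exp (-lam) * qf (fun y y' => d (r y) (r y')) w ≤
        qf (fun y y' => ∫ ω, |f y ω - f y' ω| ∂μ) w := by
  classical
  set M := μ.prod (volume : Measure ℝ) with hM
  let bad : A → Set (Ω × ℝ) := fun x => {q | |q.2 - g x q.1| ≤ δ}
  have bm : ∀ x, MeasurableSet (bad x) := fun x => by
    have := hg x
    exact measurableSet_le (by fun_prop) measurable_const
  have bv : ∀ x, M (bad x) = ENNReal.ofReal (2 * δ) * μ univ := fun x => by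
    rw [hM, Measure.prod_apply (bm x), ← lintegral_const]
    congr 1; funext ω
    have : Prod.mk ω ⁻¹' bad x = Metric.closedBall (g x ω) δ := by
      ext u; simp [bad, Real.dist_eq]
    rw [this, Real.volume_closedBall]
  have bf : ∀ x, M (bad x) ≠ ⊤ := fun x => by rw [bv]; finiteness
  set Bad := ⋃ x, bad x with hBad
  have Bm : MeasurableSet Bad := MeasurableSet.iUnion bm
  have Bf : M Bad ≠ ⊤ :=
    ne_top_of_le_ne_top (ENNReal.sum_ne_top.2 fun x _ => bf x) (measure_iUnion_fintype_le M bad)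
  have Bl : M.real Bad ≤ lam := by
    refine (measureReal_iUnion_fintype_le bad).trans (le_trans (le_of_eq ?_) hl)
    simp only [measureReal_def, bv, ENNReal.toReal_mul, ENNReal.toReal_ofReal (by positivity : 0 ≤ 2 * δ)]
    simp
  have key : ∀ h h' : Ω → ℝ, Measurable h → Measurable h' → Integrable (fun ω => |h ω - h' ω|) μ →
      M (symmDiff (hyp h) (hyp h')) ≠ ⊤ ∧ ∫ ω, |h ω - h' ω| ∂μ =
        (M.restrict Badᶜ).real (symmDiff (hyp h) (hyp h')) +
        (M.restrict Bad).real (symmDiff (hyp h) (hyp h')) := fun h h' h1 h2 h3 => by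
    have e := hyp_diff μ h1 h2 h3
    have f1 : M (symmDiff (hyp h) (hyp h')) ≠ ⊤ := by rw [hM, e]; simp
    have m1 := (hyp_meas h1).symmDiff (hyp_meas h2)
    refine ⟨f1, ?_⟩
    rw [measureReal_restrict_apply m1, measureReal_restrict_apply m1, add_comm, ← sdiff_eq,
      measureReal_inter_add_sdiff Bm f1, measureReal_def, hM, e,
      ENNReal.toReal_ofReal (integral_nonneg fun ω => abs_nonneg _)]
  have rf : ∀ (s t : Set (Ω × ℝ)), M s ≠ ⊤ → (M.restrict t) s ≠ ⊤ := fun s t h =>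
    ne_top_of_le_ne_top h (Measure.restrict_le_self s)
  have Bu : (M.restrict Bad).real univ ≤ lam := by simpa using Bl
  refine ⟨fun x x' => (M.restrict Badᶜ).real (symmDiff (hyp (g x)) (hyp (g x'))),
    fun x x' => measureReal_nonneg, fun x x' => ?_, fun w => ?_⟩
  · rw [(key _ _ (hg x) (hg x') (gi x x')).2, add_sub_cancel_left, abs_of_nonneg measureReal_nonneg]
    exact (measureReal_mono (subset_univ _) (by simpa using Bf)).trans Bu
  · obtain ⟨δ1, a1, a2, a3⟩ := atoms' (M.restrict Bad) (fun y => hyp (f y)) (fun y => hyp_meas (hf y))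
      fun y y' => rf _ _ (key _ _ (hf y) (hf y') (fi y y')).1
    obtain ⟨δ2, b1, -, b3⟩ := atoms' (M.restrict Badᶜ) (fun y => hyp (g (r y)))
      (fun y => hyp_meas (hg _)) fun y y' => rf _ _ (key _ _ (hg _) (hg _) (gi _ _)).1
    have psd : ∀ v, 0 ≤ qf (fun y y' => (M.restrict Badᶜ).real
        (symmDiff (hyp (g (r y))) (hyp (g (r y'))))) v := fun v => by
      have := Cut.lower_one (ι := B → Bool) (fun σ y => σ y) δ2 Finset.univ (fun σ _ => b1 σ) v
      simp only [qf, b3]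
      exact le_trans (by positivity) this
    have e : ∀ y y', (M.restrict Badᶜ).real (symmDiff (hyp (f y)) (hyp (f y'))) =
        (M.restrict Badᶜ).real (symmDiff (hyp (g (r y))) (hyp (g (r y')))) := fun y y' => by
      rw [measureReal_restrict_apply ((hyp_meas (hf _)).symmDiff (hyp_meas (hf _))),
        measureReal_restrict_apply ((hyp_meas (hg _)).symmDiff (hyp_meas (hg _)))]
      congr 1; ext q
      have : q ∈ Badᶜ → ∀ y, (q ∈ hyp (f y) ↔ q ∈ hyp (g (r y))) := fun hq y => by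
        have h1 : ¬ |q.2 - g (r y) q.1| ≤ δ := fun h => hq (mem_iUnion.2 ⟨r y, h⟩)
        have h2 := h y q.1
        simp only [hyp, mem_ofPred_eq]
        grind
      simp only [mem_inter_iff, mem_symmDiff]
      grind
    have := Cut.lower (ι := B → Bool) (fun σ y => σ y) δ1 Finset.univ (fun σ _ => a1 σ) _ psd w
    rw [a2 (by simpa using Bf)] at this
    refine le_trans (mul_le_mul_of_nonneg_right (Real.exp_le_exp.2 (neg_le_neg Bu)) (psd w))
      (this.trans_eq ?_)
    refine Finset.sum_congr rfl fun y _ => Finset.sum_congr rfl fun y' _ => ?_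
    beta_reduce
    rw [← a3, (key _ _ (hf y) (hf y') (fi y y')).2, e, neg_add, Real.exp_add]

end

lemma qf_push {A B : Type} [Fintype A] [Fintype B] [DecidableEq A] (r : B → A) (d : A → A → ℝ)
    (w : B → ℝ) : qf (fun y y' => d (r y) (r y')) w =
      qf d fun x => ∑ y ∈ Finset.univ.filter (fun y => r y = x), w y := by
  have h : ∀ F : A → ℝ, ∑ x, (∑ y ∈ Finset.univ.filter (fun y => r y = x), w y) * F x =
      ∑ y, w y * F (r y) := fun F => by
    rw [← Finset.sum_fiberwise Finset.univ r]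
    refine Finset.sum_congr rfl fun x _ => ?_
    rw [Finset.sum_mul]
    exact Finset.sum_congr rfl fun y hy => by rw [(Finset.mem_filter.1 hy).2]
  simp only [qf, mul_assoc, ← Finset.mul_sum, h]

variable {V : Type} [NormedAddCommGroup V] [InnerProductSpace ℝ V] [MeasurableSpace V]
  [BorelSpace V] [FiniteDimensional ℝ V] {N : Seminorm ℝ V}

theorem PN.compare (hN : PN N) : ∃ C : ℝ, 0 ≤ C ∧ ∀ (A B : Type) [Fintype A] [Fintype B]
    [DecidableEq A] (x : A → V) (y : B → V) (r : B → A) (δ : ℝ), 0 ≤ δ →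
    (∀ b, ‖y b - x (r b)‖ ≤ δ) → ∀ w : B → ℝ,
      Real.exp (-(Fintype.card A * (2 * δ * C))) *
        (qf (fun a a' => N (x a - x a')) (fun a => ∑ b ∈ Finset.univ.filter (fun b => r b = a), w b) -
          Fintype.card A * (2 * δ * C) *
          (∑ a, |∑ b ∈ Finset.univ.filter (fun b => r b = a), w b|) ^ 2) ≤
      qf (fun b b' => N (y b - y b')) w := by
  obtain ⟨C, C0, h⟩ := hN.levy
  refine ⟨C, C0, fun A B _ _ _ x y r δ hδ hr w => ?_⟩
  set v := fun a => ∑ b ∈ Finset.univ.filter (fun b => r b = a), w b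
  set lam := Fintype.card A * (2 * δ * C)
  let K : V → ℝ := fun z => C * (1 + ‖z‖ ^ 2) + (1 + N z ^ 2)
  have K0 : ∀ z, 0 ≤ K z := fun z => by positivity
  have Kle : ∀ {ι : Type} [Fintype ι] (u : ι → V) i j, K (u i - u j) ≤ ∑ i, ∑ j, K (u i - u j) :=
    fun u i j => (Finset.single_le_sum (f := fun j => K (u i - u j)) (fun _ _ => K0 _)
      (Finset.mem_univ j)).trans (Finset.single_le_sum (f := fun i => ∑ j, K (u i - u j))
        (fun _ _ => Finset.sum_nonneg fun _ _ => K0 _) (Finset.mem_univ i))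
  have lim : Tendsto (fun η : ℝ => Real.exp (-lam) * (qf (fun a a' => N (x a - x a')) v -
      (lam + η * ∑ i, ∑ j, K (x i - x j)) * (∑ a, |v a|) ^ 2) -
      (η * ∑ i, ∑ j, K (y i - y j)) * (∑ a, |w a|) ^ 2) (𝓝[>] 0) (𝓝 _) :=
    (Continuous.tendsto (by fun_prop) 0).mono_left nhdsWithin_le_nhds
  simp only [zero_mul, add_zero, sub_zero] at lim
  refine le_of_tendsto lim ?_
  filter_upwards [Ioo_mem_nhdsGT one_pos] with η hη
  obtain ⟨μ, hμ, m1, m2⟩ := h η hη.1 hη.2
  have tb : ∀ ξ z : V, |⟪‖ξ‖⁻¹ • ξ, z⟫| ≤ ‖z‖ := fun ξ z => by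
    refine (abs_real_inner_le_norm _ _).trans (mul_le_of_le_one_left (norm_nonneg _) ?_)
    rw [norm_smul, norm_inv, norm_norm]; exact inv_mul_le_one
  have i1 : ∀ z z' : V, Integrable (fun ξ : V => |⟪‖ξ‖⁻¹ • ξ, z⟫ - ⟪‖ξ‖⁻¹ • ξ, z'⟫|) μ := fun z z' =>
    Integrable.of_bound (Measurable.aestronglyMeasurable (by fun_prop)) ‖z - z'‖
      (Eventually.of_forall fun ξ => by
        rw [Real.norm_eq_abs, abs_abs, ← inner_sub_right]; exact tb ξ _)
  obtain ⟨d, d0, d1, d2⟩ := split μ r (fun b ξ => ⟪‖ξ‖⁻¹ • ξ, y b⟫) (fun a ξ => ⟪‖ξ‖⁻¹ • ξ, x a⟫)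
    (fun b => by fun_prop) (fun b => by fun_prop) (fun _ _ => i1 _ _) (fun _ _ => i1 _ _) hδ
    (fun b ξ => by rw [← inner_sub_right]; exact (tb _ _).trans (hr b)) (lam := lam)
    (by simp only [lam]; gcongr)
  simp only [← inner_sub_right] at d1 d2
  have h1 := d2 w
  rw [qf_push] at h1
  have h2 := qf_pert (d := fun b b' => ∫ ξ, |⟪‖ξ‖⁻¹ • ξ, y b - y b'⟫| ∂μ)
    (d' := fun b b' => N (y b - y b')) (fun _ _ => integral_nonneg fun _ => abs_nonneg _)
    (fun _ _ => apply_nonneg N _) (t := η * ∑ i, ∑ j, K (y i - y j))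
    (fun b b' => (m2 _).trans (mul_le_mul_of_nonneg_left (Kle y b b') hη.1.le)) w
  have h3 := qf_pert (d := fun a a' => N (x a - x a')) (d' := d) (fun _ _ => apply_nonneg N _) d0
    (t := lam + η * ∑ i, ∑ j, K (x i - x j)) (fun a a' => by
      have e1 := (m2 _).trans (mul_le_mul_of_nonneg_left (Kle x a a') hη.1.le)
      have e2 := d1 a a'
      rw [abs_le] at e1 e2 ⊢
      constructor <;> linarith [e1.1, e1.2, e2.1, e2.2]) v
  have h4 := mul_le_mul_of_nonneg_left (sub_le_iff_le_add.2 h3) (Real.exp_pos (-lam)).le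
  linarith

end Pool.Agent.Lib.helper15.MagFour
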