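import Mathlib

set_option autoImplicit false

open Filter Topology Set Real

namespace Pool.Agent.Lib.helper15.Thales

structure Lp (r : ℝ → ℝ) : Prop where
  pos : ∀ t, 0 < r t
  lip : ∀ s t, r s ≤ r t + |s - t|
  low : ∀ s t, |s - t| ≤ r s + r t

variable {r : ℝ → ℝ}

lemma Lp.cont (h : Lp r) : Continuous r :=
  (LipschitzWith.of_le_add (f := r) fun s t => by simpa [Real.dist_eq] using h.lip s t).continuous

lemma Lp.neg (h : Lp r) : Lp fun t => r (-t) :=
  ⟨fun _ => h.pos _, fun s t => by simpa [abs_sub_comm, neg_add_eq_sub] using h.lip (-s) (-t),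
    fun s t => by simpa [abs_sub_comm, neg_add_eq_sub] using h.low (-s) (-t)⟩

lemma Lp.shift (h : Lp r) (c : ℝ) : Lp fun t => r (t + c) :=
  ⟨fun _ => h.pos _, fun s t => by simpa using h.lip (s + c) (t + c),
    fun s t => by simpa using h.low (s + c) (t + c)⟩

lemma Lp.anti (h : Lp r) : Antitone fun t => r t - t := fun s t hst => by
  have := h.lip t s
  rw [abs_of_nonneg (sub_nonneg.2 hst)] at this
  dsimp only; linarith

lemma Lp.unb (h : Lp r) {Z : Set ℝ} (hc : IsClosed Z) (hn : Z.Nonempty)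
    (hi : ∀ t ∈ Z, t + r t ∈ Z) (c : ℝ) : ∃ t ∈ Z, c < t := by
  refine not_bddAbove_iff.1 (fun hb => ?_) c
  have := le_csSup hb (hi _ (hc.csSup_mem hn hb))
  linarith [h.pos (sSup Z)]

lemma Lp.lim (h : Lp r) : ∃ L, Tendsto (fun t => cosh (r t) / cosh t) atTop (𝓝 L) := by
  have hb : BddBelow (range fun t => r t - t) := ⟨-r 0, by
    rintro _ ⟨t, rfl⟩
    have := h.low t 0
    have := le_abs_self (t - 0)
    dsimp only; linarith⟩
  have l1 := tendsto_atTop_ciInf h.anti hb
  set b := ⨅ t, r t - t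
  have l2 : Tendsto (fun t : ℝ => exp (-t) ^ 2) atTop (𝓝 0) := by
    simpa using tendsto_exp_neg_atTop_nhds_zero.pow 2
  refine ⟨_, ((((continuous_exp.tendsto _).comp l1).add
    (((continuous_exp.tendsto _).comp l1.neg).mul l2)).div (l2.const_add 1) (by simp)).congr
    fun t => ?_⟩
  simp only [Function.comp, cosh_eq, neg_sub, exp_sub, exp_neg, Pi.div_apply]
  field_simp

lemma Lp.maxp (h : Lp r) {v : ℝ → ℝ} (hv : Continuous v) (h1 : Tendsto v atTop (𝓝 0))
    (h2 : Tendsto v atBot (𝓝 0))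
    (H : ∀ t, v t * (cosh (t - r t) + cosh (t + r t)) =
      v (t - r t) * cosh (t - r t) + v (t + r t) * cosh (t + r t)) (t : ℝ) : v t ≤ 0 := by
  by_contra hp
  push Not at hp
  obtain ⟨s, hs⟩ := hv.exists_forall_ge' t (by
    rw [cocompact_eq_atBot_atTop]
    exact (h2.sup h1 |>.mono_right (by simp)).eventually (ge_mem_nhds hp))
  obtain ⟨c, hc⟩ := eventually_atTop.1 (h1.eventually (gt_mem_nhds hp))
  obtain ⟨u, hu, cu⟩ := h.unb (Z := {u | v u = v s}) (isClosed_eq hv continuous_const) ⟨s, rfl⟩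
    (fun u hu => by
      have e := H u
      rw [show v u = v s from hu] at e
      refine le_antisymm (hs _) (le_of_mul_le_mul_right ?_ (cosh_pos (u + r u)))
      nlinarith [mul_le_mul_of_nonneg_right (hs (u - r u)) (cosh_pos (u - r u)).le]) c
  have := hc u cu.le
  rw [show v u = v s from hu] at this
  linarith [hs t]

theorem Lp.hyp (h : Lp r)
    (H : ∀ t, cosh (r (t - r t)) + cosh (r (t + r t)) = 2 * cosh (r t) ^ 2) :
    ∃ A B : ℝ, ∀ t, cosh (r t) = A * cosh t + B * sinh t := by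
  obtain ⟨L1, l1⟩ := h.lim
  obtain ⟨L2, l2⟩ := h.neg.lim
  have t1 : Tendsto (fun t => sinh t / cosh t) atTop (𝓝 1) := by
    have l2 : Tendsto (fun t : ℝ => exp (-t) ^ 2) atTop (𝓝 0) := by
      simpa using tendsto_exp_neg_atTop_nhds_zero.pow 2
    have := (l2.const_sub 1).div (l2.const_add 1) (by simp)
    simp only [sub_zero, add_zero, div_one] at this
    refine this.congr fun t => ?_
    simp only [cosh_eq, sinh_eq, exp_neg, Pi.div_apply]
    field_simp
  let v : ℝ → ℝ := fun t => cosh (r t) / cosh t - (L1 + L2) / 2 - (L1 - L2) / 2 * (sinh t / cosh t)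
  have hv : Continuous v := by
    have := h.cont
    have := fun t => (cosh_pos t).ne'
    unfold v; fun_prop (disch := assumption)
  have v1 : Tendsto v atTop (𝓝 0) := by
    have := (l1.sub_const ((L1 + L2) / 2)).sub (t1.const_mul ((L1 - L2) / 2))
    rwa [show L1 - (L1 + L2) / 2 - (L1 - L2) / 2 * 1 = 0 by ring] at this
  have v2 : Tendsto v atBot (𝓝 0) := by
    have := ((l2.sub_const ((L1 + L2) / 2)).add (t1.const_mul ((L1 - L2) / 2))).comp
      tendsto_neg_atBot_atTop
    rw [show L2 - (L1 + L2) / 2 + (L1 - L2) / 2 * 1 = 0 by ring] at this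
    refine this.congr fun t => ?_
    simp only [Function.comp, neg_neg, cosh_neg, sinh_neg, v]; ring
  have e : ∀ t, v t * cosh t = cosh (r t) - (L1 + L2) / 2 * cosh t - (L1 - L2) / 2 * sinh t :=
    fun t => by have := (cosh_pos t).ne'; unfold v; field_simp
  have K : ∀ t, v t * (cosh (t - r t) + cosh (t + r t)) =
      v (t - r t) * cosh (t - r t) + v (t + r t) * cosh (t + r t) := fun t => by
    rw [e, e]
    simp only [cosh_add, cosh_sub, sinh_add, sinh_sub]
    linear_combination 2 * cosh (r t) * e t - H t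
  refine ⟨(L1 + L2) / 2, (L1 - L2) / 2, fun t => ?_⟩
  have a := h.maxp hv v1 v2 K t
  have b := h.maxp (v := fun t => -v t) hv.neg (by simpa using v1.neg) (by simpa using v2.neg)
    (fun t => by linear_combination -K t) t
  have := e t
  rw [show v t = 0 by linarith] at this
  linarith

lemma Lp.minp (h : Lp r) (h0 : ∀ t, |t| ≤ r t) {u : ℝ → ℝ} (hu : Continuous u)
    (hb : BddBelow (range u)) (H : ∀ t, u (t - r t) + u (t + r t) = 2 * u t) :
    ∃ s, ∀ t, u s ≤ u t := by
  obtain ⟨s, -, hs⟩ := (isCompact_Icc (a := -r 0) (b := r 0)).exists_isMinOn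
    ⟨0, by constructor <;> linarith [h.pos 0]⟩ hu.continuousOn
  have i1 := fun t => ciInf_le hb t
  have : (u s + ⨅ t, u t) / 2 ≤ ⨅ t, u t := le_ciInf fun t => by
    have a1 := h.lip t 0
    have a2 := abs_le.1 (h0 t)
    rcases le_total 0 t with ht | ht
    · rw [sub_zero, abs_of_nonneg ht] at a1
      have : u s ≤ u (t - r t) := hs ⟨by linarith, by linarith [h.pos 0]⟩
      linarith [H t, i1 (t + r t)]
    · rw [sub_zero, abs_of_nonpos ht] at a1
      have : u s ≤ u (t + r t) := hs ⟨by linarith [h.pos 0], by linarith⟩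
      linarith [H t, i1 (t - r t)]
  exact ⟨s, fun t => by linarith [i1 t]⟩

lemma Lp.bd (h : Lp r) (h0 : ∀ t, |t| ≤ r t) {s : ℝ} (hs : ∀ t, r s ^ 2 - s ^ 2 ≤ r t ^ 2 - t ^ 2)
    (H : ∀ t, r (t - r t) ^ 2 + r (t + r t) ^ 2 = 4 * r t ^ 2) :
    (∀ t, s ≤ t → r t ^ 2 - t ^ 2 ≤ 2 * (r s ^ 2 - s ^ 2) + (r s - s) ^ 2) ∧
      Tendsto (fun t => t - r t) atTop (𝓝 0) := by
  have hc := h.cont
  set m := r s ^ 2 - s ^ 2 with hm
  have cl : IsClosed {t | r t ^ 2 - t ^ 2 = m} := isClosed_eq (by fun_prop) continuous_const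
  have inv : ∀ t ∈ {t | r t ^ 2 - t ^ 2 = m}, t + r t ∈ {t | r t ^ 2 - t ^ 2 = m} := fun t ht => by
    have a := hs (t - r t); have b := hs (t + r t); have c := H t
    simp only [mem_ofPred_eq] at ht ⊢
    nlinarith
  have a0 : ∀ t, 0 ≤ r t - t := fun t => by linarith [(abs_le.1 (h0 t)).2]
  constructor
  · intro t ht
    have hb : BddAbove ({t | r t ^ 2 - t ^ 2 = m} ∩ Iic t) := bddAbove_Iic.mono inter_subset_right
    have hm := (cl.inter isClosed_Iic).csSup_mem ⟨s, rfl, ht⟩ hb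
    have h1 := le_csSup hb ⟨rfl, ht⟩
    set z := sSup ({t | r t ^ 2 - t ^ 2 = m} ∩ Iic t)
    have h2 : t < z + r z := not_le.1 fun e => by
      have := le_csSup hb ⟨inv z hm.1, e⟩
      linarith [h.pos z]
    have h3 : r t - t ≤ r z - z := h.anti hm.2
    have h4 : r z - z ≤ r s - s := h.anti h1
    have h5 : r z ^ 2 - z ^ 2 = m := hm.1
    have h6 : 0 ≤ z + r z := by linarith [(abs_le.1 (h0 z)).1]
    nlinarith [mul_le_mul_of_nonneg_right h3 h6, mul_le_mul_of_nonneg_left h2.le (a0 t),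
      mul_self_le_mul_self (a0 t) (h3.trans h4)]
  · refine Metric.tendsto_atTop.2 fun ε ε0 => ?_
    obtain ⟨z, hz, h1⟩ := h.unb cl ⟨s, rfl⟩ inv (|m| / ε)
    refine ⟨z, fun t ht => ?_⟩
    have h3 : r t - t ≤ r z - z := h.anti ht
    have h5 : r z ^ 2 - z ^ 2 = m := hz
    rw [div_lt_iff₀ ε0] at h1
    have z0 : 0 < z := (mul_pos_iff_of_pos_right ε0).1 ((abs_nonneg m).trans_lt h1)
    rw [Real.dist_eq, sub_zero, abs_sub_comm, abs_of_nonneg (a0 t)]
    refine h3.trans_lt (lt_of_mul_lt_mul_right ?_ z0.le)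
    nlinarith [le_abs_self m, mul_nonneg (a0 z) (h.pos z).le]

lemma Lp.euc0 (h : Lp r) (h0 : ∀ t, |t| ≤ r t)
    (H : ∀ t, r (t - r t) ^ 2 + r (t + r t) ^ 2 = 4 * r t ^ 2) (t : ℝ) :
    r t ^ 2 - t ^ 2 = r 0 ^ 2 := by
  have hc := h.cont
  obtain ⟨s, hs⟩ := h.minp h0 (u := fun t => r t ^ 2 - t ^ 2) (by fun_prop) ⟨0, by
    rintro _ ⟨t, rfl⟩
    exact sub_nonneg.2 (sq_le_sq' (by linarith [(abs_le.1 (h0 t)).1]) (abs_le.1 (h0 t)).2)⟩
    fun t => by linear_combination H t
  obtain ⟨b1, l1⟩ := h.bd h0 hs H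
  obtain ⟨b2, -⟩ := h.neg.bd (fun t => by simpa using h0 (-t)) (s := -s)
    (fun t => by simpa using hs (-t)) fun t => by
      rw [← H (-t), add_comm]; congr 3 <;> ring
  have zero : ∀ u : ℝ → ℝ, Continuous u → (∀ t, u (t - r t) + u (t + r t) = 2 * u t) →
      ∀ s, (∀ t, u s ≤ u t) → u 0 = u s := fun u hu H s hs => by
    have cl : IsClosed {t | u t = u s} := isClosed_eq hu continuous_const
    refine cl.mem_of_frequently_of_tendsto ?_ l1
    refine frequently_atTop.2 fun c => ?_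
    obtain ⟨z, hz, h1⟩ := h.unb cl ⟨s, rfl⟩ (fun t ht => by
      have a := hs (t - r t); have b := hs (t + r t); have c := H t
      simp only [mem_ofPred_eq] at ht ⊢
      linarith) c
    refine ⟨z, h1.le, ?_⟩
    have a := hs (z - r z); have b := hs (z + r z); have c := H z
    simp only [mem_ofPred_eq] at hz ⊢
    linarith
  obtain ⟨s', hs'⟩ := h.minp h0 (u := fun t => -(r t ^ 2 - t ^ 2)) (by fun_prop)
    ⟨-(2 * (r s ^ 2 - s ^ 2) + (r s - s) ^ 2 + (r s + s) ^ 2), by
      rintro _ ⟨t, rfl⟩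
      rcases le_total s t with e | e
      · have := b1 t e; dsimp only; nlinarith [sq_nonneg (r s + s)]
      · have := b2 (-t) (by linarith)
        simp only [neg_neg, even_two, Even.neg_pow, sub_neg_eq_add] at this
        dsimp only; nlinarith [sq_nonneg (r s - s)]⟩
    fun t => by linear_combination -H t
  have e1 := zero (fun t => r t ^ 2 - t ^ 2) (by fun_prop) (fun t => by linear_combination H t) s hs
  have e2 := zero (fun t => -(r t ^ 2 - t ^ 2)) (by fun_prop)
    (fun t => by linear_combination -H t) s' hs'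
  have := hs t; have := hs' t
  nlinarith

theorem Lp.euc (h : Lp r) (H : ∀ t, r (t - r t) ^ 2 + r (t + r t) ^ 2 = 4 * r t ^ 2) :
    ∃ A B : ℝ, ∀ t, r t ^ 2 = t ^ 2 + A + B * t := by
  have k : ∀ s t, s - r s ≤ t + r t := fun s t => by linarith [h.low s t, le_abs_self (s - t)]
  have hb : BddAbove (range fun s => s - r s) := ⟨0 + r 0, by rintro _ ⟨s, rfl⟩; exact k s 0⟩
  set c := ⨆ s, s - r s
  have := (h.shift c).euc0 (fun t => abs_le.2 ⟨by linarith [ciSup_le fun s => k s (t + c)],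
    by linarith [le_ciSup hb (t + c)]⟩) fun t => by
      rw [← H (t + c)]; congr 3 <;> ring
  refine ⟨c ^ 2 + r (0 + c) ^ 2, -2 * c, fun t => ?_⟩
  have := this (t - c)
  rw [sub_add_cancel] at this
  linear_combination this

end Pool.Agent.Lib.helper15.Thales
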