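import Pool.Agent.Lib.helper15.Thales

set_option autoImplicit false

open Filter Topology Set Real

namespace Pool.Agent.Lib.helper15.Thales

abbrev P := ℝ × ℝ

structure PM (M : Set P) (d : P → P → ℝ) : Prop where
  op : IsOpen M
  cv : Convex ℝ M
  ne : M.Nonempty
  zero : ∀ x ∈ M, ∀ y ∈ M, d x y = 0 ↔ x = y
  symm : ∀ x ∈ M, ∀ y ∈ M, d x y = d y x
  tri : ∀ x ∈ M, ∀ y ∈ M, ∀ z ∈ M, d x z ≤ d x y + d y z
  cont : ContinuousOn (fun p : P × P => d p.1 p.2) (M ×ˢ M)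
  line : ∀ x ∈ M, ∀ y ∈ M, x ≠ y → ∃ γ : ℝ → P,
    range γ = M ∩ (affineSpan ℝ {x, y} : Set P) ∧ ∀ s t, d (γ s) (γ t) = |s - t|

def IsL (M : Set P) (d : P → P → ℝ) (γ : ℝ → P) : Prop :=
  (∀ s t, d (γ s) (γ t) = |s - t|) ∧ ∃ x y : P, range γ = M ∩ (affineSpan ℝ {x, y} : Set P)

variable {M : Set P} {d : P → P → ℝ} {γ : ℝ → P}

lemma IsL.mem (h : IsL M d γ) (t : ℝ) : γ t ∈ M :=
  let ⟨_, _, _, e⟩ := h; (e.le (mem_range_self t)).1

lemma IsL.inj (h : IsL M d γ) {s t : ℝ} (e : γ s = γ t) : s = t := by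
  have := h.1 s t
  rw [e, h.1, sub_self, abs_zero] at this
  exact sub_eq_zero.1 (abs_eq_zero.1 this.symm)

lemma IsL.shift (h : IsL M d γ) (c : ℝ) : IsL M d fun t => γ (t + c) :=
  ⟨fun s t => by simp [h.1], by
    obtain ⟨-, x, y, e⟩ := h
    exact ⟨x, y, by rw [← e]; exact (add_right_surjective c).range_comp γ⟩⟩

lemma IsL.range_eq (h : IsL M d γ) {s t : ℝ} (hst : s ≠ t) :
    range γ = M ∩ (affineSpan ℝ {γ s, γ t} : Set P) := by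
  obtain ⟨x, y, e⟩ := h.2
  rw [affineSpan_pair_eq_of_mem_of_mem_of_ne (e.le (mem_range_self s)).2
    (e.le (mem_range_self t)).2 fun e => hst (h.inj e), e]

lemma PM.exL (hM : PM M d) {x y : P} (hx : x ∈ M) (hy : y ∈ M) (h : x ≠ y) :
    ∃ γ T, IsL M d γ ∧ γ 0 = x ∧ γ T = y ∧ T ≠ 0 := by
  obtain ⟨γ, h1, h2⟩ := hM.line x hx y hy h
  obtain ⟨a, ha⟩ := h1.ge ⟨hx, left_mem_affineSpan_pair _ _ _⟩
  obtain ⟨b, hb⟩ := h1.ge ⟨hy, right_mem_affineSpan_pair _ _ _⟩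
  refine ⟨_, b - a, IsL.shift ⟨h2, x, y, h1⟩ a, by simpa using ha, by simpa using hb, fun e => h ?_⟩
  rw [← ha, ← hb, sub_eq_zero.1 e]

lemma PM.nonneg (hM : PM M d) {x y : P} (hx : x ∈ M) (hy : y ∈ M) : 0 ≤ d x y := by
  have := hM.tri x hx y hy x hx
  rw [(hM.zero x hx x hx).2 rfl, hM.symm y hy x hx] at this
  linarith

lemma PM.lp (hM : PM M d) (h : IsL M d γ) {q : P} (hq : q ∈ M) (hn : q ∉ range γ) :
    Lp fun t => d q (γ t) :=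
  ⟨fun t => (hM.nonneg hq (h.mem t)).lt_of_ne fun e =>
      hn ⟨t, ((hM.zero _ hq _ (h.mem t)).1 e.symm).symm⟩,
    fun s t => by rw [abs_sub_comm, ← h.1]; exact hM.tri _ hq _ (h.mem t) _ (h.mem s),
    fun s t => by
      rw [← h.1, hM.symm _ hq _ (h.mem s)]; exact hM.tri _ (h.mem s) _ hq _ (h.mem t)⟩

lemma PM.btw (hM : PM M d) (h : IsL M d γ) {a b c : ℝ} (hab : a ≠ b)
    (hw : Wbtw ℝ (γ a) (γ c) (γ b)) : c ∈ uIcc a b := by
  obtain ⟨l, hl, e⟩ := hw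
  let φ : P → ℝ := fun z => (d (γ 0) z ^ 2 - d (γ 1) z ^ 2 + 1) / 2
  have φe : ∀ s, φ (γ s) = s := fun s => by simp only [φ, h.1, sq_abs]; ring
  have mm : MapsTo (AffineMap.lineMap (γ a) (γ b)) (Icc (0 : ℝ) 1) M := fun l hl =>
    hM.cv.lineMap_mem (h.mem a) (h.mem b) hl
  have c1 : ∀ s, ContinuousOn (d (γ s)) M := fun s =>
    hM.cont.comp (f := fun z => (γ s, z)) (by fun_prop) fun z hz => ⟨h.mem s, hz⟩
  have hc : ContinuousOn (φ ∘ AffineMap.lineMap (γ a) (γ b)) (Icc (0 : ℝ) 1) :=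
    ((((c1 0).pow 2).sub ((c1 1).pow 2)).add continuousOn_const |>.div_const 2).comp
      AffineMap.lineMap_continuous.continuousOn mm
  have ec : (φ ∘ AffineMap.lineMap (γ a) (γ b)) l = c := by simp only [Function.comp, e, φe]
  have e0 : (φ ∘ AffineMap.lineMap (γ a) (γ b)) (0 : ℝ) = a := by simp [φe]
  have e1 : (φ ∘ AffineMap.lineMap (γ a) (γ b)) (1 : ℝ) = b := by simp [φe]
  rcases hc.strictMonoOn_of_injOn_Icc' zero_le_one (fun x hx y hy e => by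
    obtain ⟨s, hs⟩ := (h.range_eq hab).ge ⟨mm hx, AffineMap.lineMap_mem_affineSpan_pair _ _ _⟩
    obtain ⟨t, ht⟩ := (h.range_eq hab).ge ⟨mm hy, AffineMap.lineMap_mem_affineSpan_pair _ _ _⟩
    simp only [Function.comp, ← hs, ← ht, φe] at e
    exact AffineMap.lineMap_injective ℝ (fun e => hab (h.inj e)) (by rw [← hs, ← ht, e])) with k | k
  · have k1 := k.monotoneOn (left_mem_Icc.2 zero_le_one) hl hl.1
    have k2 := k.monotoneOn hl (right_mem_Icc.2 zero_le_one) hl.2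
    rw [ec] at k1 k2
    exact mem_uIcc.2 (.inl ⟨e0 ▸ k1, e1 ▸ k2⟩)
  · have k1 := k.antitoneOn (left_mem_Icc.2 zero_le_one) hl hl.1
    have k2 := k.antitoneOn hl (right_mem_Icc.2 zero_le_one) hl.2
    rw [ec] at k1 k2
    exact mem_uIcc.2 (.inr ⟨e1 ▸ k2, e0 ▸ k1⟩)

lemma PM.sbtw (hM : PM M d) (h : IsL M d γ) {a b c : ℝ} (h1 : a < b) (h2 : b < c) :
    Sbtw ℝ (γ a) (γ b) (γ c) := by
  refine ⟨?_, fun e => h1.ne' (h.inj e), fun e => h2.ne (h.inj e)⟩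
  have : Collinear ℝ {γ b, γ a, γ c} := collinear_insert_of_mem_affineSpan_pair
    ((h.range_eq (h1.trans h2).ne).le (mem_range_self b)).2
  rw [insert_comm] at this
  rcases this.wbtw_or_wbtw_or_wbtw with k | k | k
  · exact k
  · rcases mem_uIcc.1 (hM.btw h h1.ne' k) with k | k <;> linarith [k.1, k.2]
  · rcases mem_uIcc.1 (hM.btw h h2.ne' k) with k | k <;> linarith [k.1, k.2]

lemma PM.gen (hM : PM M d) {S : Set P}
    (hS : ∀ γ, IsL M d γ → ∀ T, T ≠ 0 → γ 0 ∈ S → γ T ∈ S → ∀ t, γ t ∈ S) {γ1 γ2 : ℝ → P}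
    (h1 : IsL M d γ1) (h2 : IsL M d γ2) (h0 : γ2 0 = γ1 0) {T : ℝ} (hT : γ2 T ∉ range γ1)
    (s1 : ∀ t, γ1 t ∈ S) (s2 : ∀ t, γ2 t ∈ S) : M ⊆ S := by
  have C : ∀ a ∈ S, ∀ b ∈ S, a ∈ M → b ∈ M → a ≠ b → ∀ y ∈ M, ∀ l : ℝ,
      y = AffineMap.lineMap a b l → y ∈ S := fun a ha b hb ma mb ab y hy l e => by
    obtain ⟨γ, T, k, rfl, rfl, T0⟩ := hM.exL ma mb ab
    obtain ⟨t, rfl⟩ := (k.range_eq T0.symm).ge ⟨hy, e ▸ AffineMap.lineMap_mem_affineSpan_pair _ _ _⟩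
    exact hS γ k T T0 ha hb t
  have T0 : T ≠ 0 := by rintro rfl; exact hT ⟨0, h0.symm⟩
  set O := γ1 0
  set A := γ1 1
  set B := γ2 T
  have OA : O ≠ A := fun e => zero_ne_one (h1.inj e)
  have OB : O ≠ B := fun e => hT ⟨0, e⟩
  have D : (A - O).1 * (B - O).2 - (A - O).2 * (B - O).1 ≠ 0 := fun e => hT (by
    rw [h1.range_eq zero_ne_one]
    refine ⟨h2.mem T, mem_affineSpan_pair_iff_exists_lineMap_eq.2 ?_⟩
    have n : (A - O).1 ^ 2 + (A - O).2 ^ 2 ≠ 0 := fun e => OA (sub_eq_zero.1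
      (Prod.ext (by simp only [Prod.fst_zero]; nlinarith) (by simp only [Prod.snd_zero]; nlinarith))).symm
    refine ⟨((A - O).1 * (B - O).1 + (A - O).2 * (B - O).2) / ((A - O).1 ^ 2 + (A - O).2 ^ 2), ?_⟩
    rw [AffineMap.lineMap_apply, vsub_eq_sub, vadd_eq_add, ← eq_sub_iff_add_eq]
    refine Prod.ext ?_ ?_ <;> simp only [Prod.smul_fst, Prod.smul_snd, smul_eq_mul] <;> field_simp
    · linear_combination (A - O).2 * e
    · linear_combination -(A - O).1 * e)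
  intro y hy
  obtain ⟨α, β, e⟩ : ∃ α β : ℝ, y - O = α • (A - O) + β • (B - O) := by
    refine ⟨((y - O).1 * (B - O).2 - (y - O).2 * (B - O).1) /
      ((A - O).1 * (B - O).2 - (A - O).2 * (B - O).1), ((A - O).1 * (y - O).2 - (A - O).2 * (y - O).1) /
      ((A - O).1 * (B - O).2 - (A - O).2 * (B - O).1), Prod.ext ?_ ?_⟩ <;>
      simp only [Prod.smul_fst, Prod.smul_snd, smul_eq_mul, Prod.fst_add, Prod.snd_add] <;>
      rw [div_mul_eq_mul_div, div_mul_eq_mul_div, ← add_div, eq_div_iff D] <;> ring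
  have ev : ∀ v : P, ∀ᶠ ε : ℝ in 𝓝[>] 0, O + ε • v ∈ M := fun v =>
    nhdsWithin_le_nhds ((show Continuous fun ε : ℝ => O + ε • v by fun_prop).continuousAt.eventually_mem
      (hM.op.mem_nhds (by simpa using h1.mem 0)))
  obtain ⟨ε, ⟨⟨m1, m2⟩, m3⟩, ε0⟩ := ((((ev ((2 * α) • (A - O))).and (ev ((2 * β) • (B - O)))).and
    (ev (y - O))).and self_mem_nhdsWithin).exists
  have ε0 : ε ≠ 0 := ne_of_gt ε0
  have sa := C O (s1 0) A (s1 1) (h1.mem 0) (h1.mem 1) OA _ m1 (ε * (2 * α)) (by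
    simp [AffineMap.lineMap_apply, smul_smul, add_comm])
  have sb := C O (s1 0) B (s2 T) (h1.mem 0) (h2.mem T) OB _ m2 (ε * (2 * β)) (by
    simp [AffineMap.lineMap_apply, smul_smul, add_comm])
  have ez : O + ε • (y - O) = AffineMap.lineMap (O + ε • (2 * α) • (A - O))
      (O + ε • (2 * β) • (B - O)) (1 / 2 : ℝ) := by
    rw [e, AffineMap.lineMap_apply, vsub_eq_sub, vadd_eq_add]; module
  have sz : O + ε • (y - O) ∈ S := by
    by_cases k : O + ε • (2 * α) • (A - O) = O + ε • (2 * β) • (B - O)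
    · rw [ez, ← k, AffineMap.lineMap_same_apply]; exact sa
    · exact C _ sa _ sb m1 m2 k _ m3 _ ez
  by_cases k : y = O
  · exact k ▸ s1 0
  · refine C O (s1 0) _ sz (h1.mem 0) m3 (by simp [ε0, sub_eq_zero, k]) y hy ε⁻¹ ?_
    simp [AffineMap.lineMap_apply, smul_smul, ε0]

lemma PM.foot (hM : PM M d) : ∃ γ1 γ2 T, IsL M d γ1 ∧ IsL M d γ2 ∧ γ2 0 = γ1 0 ∧
    γ2 T ∉ range γ1 ∧ T ≠ 0 ∧ ∀ t, d (γ2 T) (γ1 0) ≤ d (γ2 T) (γ1 t) := by
  obtain ⟨O, hO⟩ := hM.ne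
  have ev : ∀ v : P, ∀ᶠ ε : ℝ in 𝓝[>] 0, O + ε • v ∈ M := fun v =>
    nhdsWithin_le_nhds ((show Continuous fun ε : ℝ => O + ε • v by fun_prop).continuousAt.eventually_mem
      (hM.op.mem_nhds (by simpa using hO)))
  obtain ⟨ε, ⟨m1, m2⟩, ε0⟩ := (((ev (1, 0)).and (ev (0, 1))).and self_mem_nhdsWithin).exists
  have ε0 : ε ≠ 0 := ne_of_gt ε0
  obtain ⟨γ, T, k, e0, e1, T0⟩ := hM.exL hO m1 (by simp [ε0])
  have hn : O + ε • ((0, 1) : P) ∉ range γ := by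
    rw [k.range_eq T0.symm, e0, e1]
    rintro ⟨-, h⟩
    obtain ⟨l, hl⟩ := mem_affineSpan_pair_iff_exists_lineMap_eq.1 h
    have := congrArg Prod.snd hl
    simp [AffineMap.lineMap_apply, ε0] at this
  have lp := hM.lp k m2 hn
  obtain ⟨c, hc⟩ := lp.cont.exists_forall_le (tendsto_atTop_mono (fun t => by
    have := lp.low t 0
    show ‖t‖ - d (O + ε • ((0, 1) : P)) (γ 0) ≤ _
    rw [sub_zero] at this
    rw [Real.norm_eq_abs]; linarith) (tendsto_atTop_add_const_right _ _ tendsto_norm_cocompact_atTop))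
  obtain ⟨γ2, T2, k2, f0, f1, T20⟩ := hM.exL (k.mem c) m2 fun e => hn ⟨c, e⟩
  refine ⟨_, γ2, T2, k.shift c, k2, by simpa using f0, ?_, T20, fun t => ?_⟩
  · rintro ⟨t, ht⟩; exact hn ⟨_, ht.trans f1⟩
  · rw [f1, zero_add]; exact hc _

lemma cs_ex (hM : PM M d) (h : IsL M d γ)
    (H : ∀ γ, IsL M d γ → ∀ q ∈ M, q ∉ range γ → ∀ t,
      cosh (d q (γ (t - d q (γ t)))) + cosh (d q (γ (t + d q (γ t)))) = 2 * cosh (d q (γ t)) ^ 2)
    {x : P} (hx : x ∈ M) : ∃ A B : ℝ, ∀ t, cosh (d x (γ t)) = A * cosh t + B * sinh t := by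
  by_cases k : x ∈ range γ
  · obtain ⟨s, rfl⟩ := k
    exact ⟨cosh s, -sinh s, fun t => by rw [h.1, cosh_abs, cosh_sub]; ring⟩
  · exact (hM.lp h hx k).hyp (H γ h x hx k)

noncomputable def E (d : P → P → ℝ) (γ : ℝ → P) (x : P) : ℝ :=
  (cosh 1 * cosh (d x (γ 0)) - cosh (d x (γ 1))) / sinh 1

theorem PM.hyp (hM : PM M d)
    (K : ∀ γ, IsL M d γ → ∀ x ∈ M, ∃ A B : ℝ, ∀ t, cosh (d x (γ t)) = A * cosh t + B * sinh t) :
    ∃ e0 e1 e2 : P → ℝ, (∀ x ∈ M, ∀ y ∈ M, cosh (d x y) = e0 x * e0 y - e1 x * e1 y - e2 x * e2 y) ∧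
      (∀ x, 0 < e0 x) ∧ ∀ z0 z1 z2 : ℝ, 0 < z0 → z0 ^ 2 - z1 ^ 2 - z2 ^ 2 = 1 →
        ∃ x ∈ M, e0 x = z0 ∧ e1 x = z1 ∧ e2 x = z2 := by
  have s1 : sinh (1 : ℝ) ≠ 0 := by simp
  have rep : ∀ γ, IsL M d γ → ∀ x ∈ M, ∀ t,
      cosh (d x (γ t)) = cosh (d x (γ 0)) * cosh t - E d γ x * sinh t := fun γ h x hx t => by
    obtain ⟨A, B, e⟩ := K γ h x hx
    simp only [E, e, cosh_zero, sinh_zero]; field_simp; ring
  obtain ⟨γ1, γ2, T, h1, h2, h0, hn, T0, hm⟩ := hM.foot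
  have sT : sinh T ≠ 0 := by simpa using T0
  have dO1 : ∀ t, cosh (d (γ1 t) (γ1 0)) = cosh t := fun t => by simp [h1.1]
  have dO2 : ∀ t, cosh (d (γ2 t) (γ1 0)) = cosh t := fun t => by simp [← h0, h2.1]
  have ee : ∀ γ, IsL M d γ → ∀ t, E d γ (γ t) = sinh t := fun γ h t => by
    simp only [E, h.1, cosh_abs, cosh_sub, cosh_zero, sinh_zero]; field_simp; ring
  have q1 : E d γ1 (γ2 T) = 0 := by
    have hd : HasDerivAt (fun t => cosh T * cosh t - E d γ1 (γ2 T) * sinh t)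
        (cosh T * sinh 0 - E d γ1 (γ2 T) * cosh 0) 0 :=
      ((hasDerivAt_cosh 0).const_mul _).sub ((hasDerivAt_sinh 0).const_mul _)
    have := IsLocalMin.hasDerivAt_eq_zero (Eventually.of_forall fun t => by
      show _ ≤ _
      rw [← dO2, ← rep _ h1 _ (h2.mem T), ← rep _ h1 _ (h2.mem T), cosh_le_cosh,
        abs_of_nonneg (hM.nonneg (h2.mem _) (h1.mem _)),
        abs_of_nonneg (hM.nonneg (h2.mem _) (h1.mem _))]
      exact hm t) hd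
    simpa using this
  have q2 : ∀ t, E d γ2 (γ1 t) = 0 := fun t => by
    have a := rep _ h2 _ (h1.mem t) T
    rw [hM.symm _ (h1.mem t) _ (h2.mem T), rep _ h1 _ (h2.mem T), q1, h0, dO1, dO2] at a
    exact (mul_eq_zero.1 (by linarith)).resolve_right sT
  have q3 : ∀ t, E d γ1 (γ2 t) = 0 := fun t => by
    have a := rep _ h2 _ (h1.mem 1) t
    rw [q2, h0, dO1, hM.symm _ (h1.mem 1) _ (h2.mem t)] at a
    simp [E, a, dO2]
  have lin : ∀ γ, IsL M d γ → ∀ γ', IsL M d γ' → ∃ A B : ℝ, ∀ t,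
      E d γ' (γ t) = A * cosh t + B * sinh t := fun γ h γ' h' => by
    obtain ⟨A, B, e⟩ := K γ h _ (h'.mem 0)
    obtain ⟨A', B', e'⟩ := K γ h _ (h'.mem 1)
    refine ⟨(cosh 1 * A - A') / sinh 1, (cosh 1 * B - B') / sinh 1, fun t => ?_⟩
    rw [E, hM.symm _ (h.mem t) _ (h'.mem 0), hM.symm _ (h.mem t) _ (h'.mem 1), e, e']; ring
  have lin0 : ∀ γ, IsL M d γ → ∃ A B : ℝ, ∀ t,
      cosh (d (γ t) (γ1 0)) = A * cosh t + B * sinh t := fun γ h => by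
    obtain ⟨A, B, e⟩ := K γ h _ (h1.mem 0)
    exact ⟨A, B, fun t => by rw [hM.symm _ (h.mem t) _ (h1.mem 0), e]⟩
  have main : ∀ x ∈ M, ∀ y ∈ M, cosh (d x y) = cosh (d x (γ1 0)) * cosh (d y (γ1 0)) -
      E d γ1 x * E d γ1 y - E d γ2 x * E d γ2 y := fun x hx y hy => by
    refine hM.gen (S := {y | cosh (d x y) = cosh (d x (γ1 0)) * cosh (d y (γ1 0)) -
      E d γ1 x * E d γ1 y - E d γ2 x * E d γ2 y}) (fun γ h T T0 a b t => ?_) h1 h2 h0 hn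
      (fun t => ?_) (fun t => ?_) hy
    · obtain ⟨A, B, e⟩ := K γ h x hx
      obtain ⟨A0, B0, e0⟩ := lin0 γ h
      obtain ⟨A1, B1, e1⟩ := lin γ h _ h1
      obtain ⟨A2, B2, e2⟩ := lin γ h _ h2
      simp only [mem_ofPred_eq, e, e0, e1, e2, cosh_zero, sinh_zero] at a b ⊢
      apply mul_left_cancel₀ (show sinh T ≠ 0 by simpa using T0)
      linear_combination (sinh T * cosh t - cosh T * sinh t) * a + sinh t * b
    · simp only [mem_ofPred_eq, rep _ h1 x hx t, dO1, ee _ h1, q2]; ring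
    · simp only [mem_ofPred_eq, rep _ h2 x hx t, dO2, ee _ h2, q3, h0]; ring
  have close : ∀ x ∈ M, ∀ y ∈ M, x ≠ y → ∀ α β z0 z1 z2 : ℝ, 0 < z0 → z0 ^ 2 - z1 ^ 2 - z2 ^ 2 = 1 →
      z0 = α * cosh (d x (γ1 0)) + β * cosh (d y (γ1 0)) → z1 = α * E d γ1 x + β * E d γ1 y →
      z2 = α * E d γ2 x + β * E d γ2 y →
      ∃ w ∈ M, cosh (d w (γ1 0)) = z0 ∧ E d γ1 w = z1 ∧ E d γ2 w = z2 := by
    intro x hx y hy hxy α β z0 z1 z2 p hz k0 k1 k2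
    obtain ⟨γ, T, h, rfl, rfl, T0⟩ := hM.exL hx hy hxy
    obtain ⟨A0, B0, e0⟩ := lin0 γ h
    obtain ⟨A1, B1, e1⟩ := lin γ h _ h1
    obtain ⟨A2, B2, e2⟩ := lin γ h _ h2
    have m0 := main _ (h.mem 0) _ (h.mem 0)
    have m1 := main _ (h.mem 0) _ (h.mem 1)
    have m2 := main _ (h.mem 1) _ (h.mem 1)
    have pA := cosh_pos (d (γ 0) (γ1 0))
    simp only [h.1, e0, e1, e2, cosh_zero, sinh_zero, cosh_abs, sub_self, zero_sub, cosh_neg,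
      mul_one, mul_zero, add_zero] at m0 m1 m2 k0 k1 k2 pA
    have n1 : A0 * B0 - A1 * B1 - A2 * B2 = 0 := by
      apply mul_left_cancel₀ s1; linear_combination cosh 1 * m0 - m1
    have n2 : B0 ^ 2 - B1 ^ 2 - B2 ^ 2 = -1 := by
      apply mul_left_cancel₀ (pow_ne_zero 2 s1)
      linear_combination -m2 + cosh 1 ^ 2 * m0 - 2 * cosh 1 * sinh 1 * n1 - cosh_sq 1
    have n3 : (α + β * cosh T) ^ 2 = 1 + (β * sinh T) ^ 2 := by
      rw [k0, k1, k2] at hz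
      linear_combination hz + (α + β * cosh T) ^ 2 * m0 -
        2 * (α + β * cosh T) * (β * sinh T) * n1 - (β * sinh T) ^ 2 * n2
    have n4 : α + β * cosh T = z0 * A0 - z1 * A1 - z2 * A2 := by
      rw [k0, k1, k2]
      linear_combination (α + β * cosh T) * m0 - β * sinh T * n1
    have n5 : 0 < α + β * cosh T := by
      rw [n4]
      have : (z1 * A1 + z2 * A2) ^ 2 < (z0 * A0) ^ 2 := by
        rw [mul_pow, show z0 ^ 2 = 1 + z1 ^ 2 + z2 ^ 2 by linarith,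
          show A0 ^ 2 = 1 + A1 ^ 2 + A2 ^ 2 by linarith]
        nlinarith [sq_nonneg (z1 * A2 - z2 * A1), sq_nonneg z1, sq_nonneg z2, sq_nonneg A1,
          sq_nonneg A2]
      linarith [lt_of_pow_lt_pow_left₀ 2 (mul_pos p pA).le this]
    have n6 : cosh (arsinh (β * sinh T)) = α + β * cosh T := by
      rw [cosh_arsinh, ← n3, sqrt_sq n5.le]
    refine ⟨γ (arsinh (β * sinh T)), h.mem _, ?_, ?_, ?_⟩ <;>
      simp only [e0, e1, e2, n6, sinh_arsinh, k0, k1, k2] <;> ring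
  refine ⟨fun x => cosh (d x (γ1 0)), E d γ1, E d γ2, main, fun _ => cosh_pos _,
    fun z0 z1 z2 p hz => ?_⟩
  by_cases k : z1 = 0 ∧ z2 = 0
  · obtain ⟨rfl, rfl⟩ := k
    exact ⟨γ1 0, h1.mem 0, by simp only [dO1, cosh_zero]; nlinarith, by simp [ee _ h1], q2 0⟩
  have c1 := cosh_sq (arsinh z1)
  have c2 := cosh_sq (arsinh z2)
  have p1 := cosh_pos (arsinh z1)
  have p2 := cosh_pos (arsinh z2)
  rw [sinh_arsinh] at c1 c2
  obtain ⟨l, l0, hl⟩ : ∃ l : ℝ, 0 < l ∧ l ^ 2 * (2 + 2 * (cosh (arsinh z1) * cosh (arsinh z2))) = 1 :=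
    ⟨(√(2 + 2 * (cosh (arsinh z1) * cosh (arsinh z2))))⁻¹, by positivity, by
      rw [inv_pow, sq_sqrt (by positivity), inv_mul_cancel₀ (by positivity)]⟩
  obtain ⟨w, hw, w0, w1, w2⟩ := close _ (h1.mem (arsinh z1)) _ (h2.mem (arsinh z2)) (fun e => k ⟨by
      rw [← sinh_arsinh z1, ← ee _ h1, e, q3], by rw [← sinh_arsinh z2, ← ee _ h2, ← e, q2]⟩) l l
    (l * (cosh (arsinh z1) + cosh (arsinh z2))) (l * z1) (l * z2) (by positivity)
    (by linear_combination hl + l ^ 2 * c1 + l ^ 2 * c2) (by rw [dO1, dO2]; ring)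
    (by rw [ee _ h1, q3, sinh_arsinh]; ring) (by rw [ee _ h2, q2, sinh_arsinh]; ring)
  refine close _ hw _ (h1.mem 0) (fun e => k ?_) l⁻¹ (z0 - cosh (arsinh z1) - cosh (arsinh z2))
    _ _ _ p hz ?_ ?_ ?_
  · rw [e, ee _ h1, sinh_zero] at w1
    rw [e, q2] at w2
    exact ⟨(mul_eq_zero.1 w1.symm).resolve_left l0.ne', (mul_eq_zero.1 w2.symm).resolve_left l0.ne'⟩
  · rw [w0, dO1, cosh_zero]; field_simp; ring
  · rw [w1, ee _ h1, sinh_zero]; field_simp; ring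
  · rw [w2, q2]; field_simp; ring

noncomputable def F (d : P → P → ℝ) (γ : ℝ → P) (x : P) : ℝ :=
  (d x (γ 0) ^ 2 + 1 - d x (γ 1) ^ 2) / 2

lemma eu_ex (hM : PM M d) (h : IsL M d γ)
    (H : ∀ γ, IsL M d γ → ∀ q ∈ M, q ∉ range γ → ∀ t,
      d q (γ (t - d q (γ t))) ^ 2 + d q (γ (t + d q (γ t))) ^ 2 = 4 * d q (γ t) ^ 2)
    {x : P} (hx : x ∈ M) : ∃ A B : ℝ, ∀ t, d x (γ t) ^ 2 = t ^ 2 + A + B * t := by
  by_cases k : x ∈ range γ
  · obtain ⟨s, rfl⟩ := k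
    exact ⟨s ^ 2, -2 * s, fun t => by rw [h.1, sq_abs]; ring⟩
  · exact (hM.lp h hx k).euc (H γ h x hx k)

theorem PM.euc (hM : PM M d)
    (K : ∀ γ, IsL M d γ → ∀ x ∈ M, ∃ A B : ℝ, ∀ t, d x (γ t) ^ 2 = t ^ 2 + A + B * t) :
    ∃ e1 e2 : P → ℝ, (∀ x ∈ M, ∀ y ∈ M, d x y ^ 2 = (e1 x - e1 y) ^ 2 + (e2 x - e2 y) ^ 2) ∧
      ∀ z1 z2 : ℝ, ∃ x ∈ M, e1 x = z1 ∧ e2 x = z2 := by
  have rep : ∀ γ, IsL M d γ → ∀ x ∈ M, ∀ t,
      d x (γ t) ^ 2 = d x (γ 0) ^ 2 + t ^ 2 - 2 * F d γ x * t := fun γ h x hx t => by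
    obtain ⟨A, B, e⟩ := K γ h x hx
    simp only [F, e]; ring
  obtain ⟨γ1, γ2, T, h1, h2, h0, hn, T0, hm⟩ := hM.foot
  have dO1 : ∀ t, d (γ1 t) (γ1 0) ^ 2 = t ^ 2 := fun t => by simp [h1.1]
  have dO2 : ∀ t, d (γ2 t) (γ1 0) ^ 2 = t ^ 2 := fun t => by simp [← h0, h2.1]
  have ee : ∀ γ, IsL M d γ → ∀ t, F d γ (γ t) = t := fun γ h t => by
    simp only [F, h.1, sq_abs]; ring
  have q1 : F d γ1 (γ2 T) = 0 := by
    have := pow_le_pow_left₀ (hM.nonneg (h2.mem _) (h1.mem _)) (hm (F d γ1 (γ2 T))) 2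
    rw [rep _ h1 _ (h2.mem T) (F d γ1 (γ2 T))] at this
    nlinarith
  have q2 : ∀ t, F d γ2 (γ1 t) = 0 := fun t => by
    have a := rep _ h2 _ (h1.mem t) T
    rw [hM.symm _ (h1.mem t) _ (h2.mem T), rep _ h1 _ (h2.mem T), q1, h0, dO1, dO2] at a
    exact (mul_eq_zero.1 (by linarith)).resolve_right T0
  have q3 : ∀ t, F d γ1 (γ2 t) = 0 := fun t => by
    have a := rep _ h2 _ (h1.mem 1) t
    rw [q2, h0, dO1, hM.symm _ (h1.mem 1) _ (h2.mem t)] at a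
    simp only [F, a, dO2]; ring
  have lin : ∀ γ, IsL M d γ → ∀ γ', IsL M d γ' → ∃ A B : ℝ, ∀ t,
      F d γ' (γ t) = A + B * t := fun γ h γ' h' => by
    obtain ⟨A, B, e⟩ := K γ h _ (h'.mem 0)
    obtain ⟨A', B', e'⟩ := K γ h _ (h'.mem 1)
    refine ⟨(A + 1 - A') / 2, (B - B') / 2, fun t => ?_⟩
    rw [F, hM.symm _ (h.mem t) _ (h'.mem 0), hM.symm _ (h.mem t) _ (h'.mem 1), e, e']; ring
  have main : ∀ x ∈ M, ∀ y ∈ M, d x y ^ 2 = d x (γ1 0) ^ 2 + d y (γ1 0) ^ 2 -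
      2 * (F d γ1 x * F d γ1 y + F d γ2 x * F d γ2 y) := fun x hx y hy => by
    refine hM.gen (S := {y | d x y ^ 2 = d x (γ1 0) ^ 2 + d y (γ1 0) ^ 2 -
      2 * (F d γ1 x * F d γ1 y + F d γ2 x * F d γ2 y)}) (fun γ h T T0 a b t => ?_) h1 h2 h0 hn
      (fun t => ?_) (fun t => ?_) hy
    · obtain ⟨A, B, e⟩ := K γ h x hx
      obtain ⟨A0, B0, e0⟩ := K γ h _ (h1.mem 0)
      obtain ⟨A1, B1, e1⟩ := lin γ h _ h1
      obtain ⟨A2, B2, e2⟩ := lin γ h _ h2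
      simp only [mem_ofPred_eq, e, hM.symm _ (h.mem _) _ (h1.mem 0), e0, e1, e2] at a b ⊢
      apply mul_left_cancel₀ T0
      linear_combination (T - t) * a + t * b
    · simp only [mem_ofPred_eq, rep _ h1 x hx t, dO1, ee _ h1, q2]; ring
    · simp only [mem_ofPred_eq, rep _ h2 x hx t, dO2, ee _ h2, q3, h0]; ring
  refine ⟨F d γ1, F d γ2, fun x hx y hy => ?_, fun a b => ?_⟩
  · have m1 := main x hx x hx
    have m2 := main y hy y hy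
    rw [(hM.zero x hx x hx).2 rfl] at m1
    rw [(hM.zero y hy y hy).2 rfl] at m2
    linear_combination main x hx y hy - m1 / 2 - m2 / 2
  · by_cases k : γ1 (2 * a) = γ2 (2 * b)
    · have a1 := ee _ h1 (2 * a)
      have a2 := ee _ h2 (2 * b)
      rw [k, q3] at a1
      rw [← k, q2] at a2
      exact ⟨γ1 0, h1.mem 0, by rw [ee _ h1]; linarith, by rw [q2]; linarith⟩
    obtain ⟨γ, T, h, f0, f1, T0⟩ := hM.exL (h1.mem _) (h2.mem _) k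
    obtain ⟨A1, B1, e1⟩ := lin γ h _ h1
    obtain ⟨A2, B2, e2⟩ := lin γ h _ h2
    have a1 := e1 0; have a2 := e1 T; have a3 := e2 0; have a4 := e2 T
    rw [f0] at a1 a3; rw [f1] at a2 a4
    rw [ee _ h1] at a1; rw [q3] at a2; rw [q2] at a3; rw [ee _ h2] at a4
    exact ⟨γ (T / 2), h.mem _, by rw [e1]; linarith, by rw [e2]; linarith⟩

end Pool.Agent.Lib.helper15.Thales
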