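import Mathlib

/-! A closed set `{(c, w) | Br c w}` with at most one branch `w` per code `c`, and a forcing
analysis of it. -/

set_option autoImplicit false

namespace Pool.Agent.Lib.helper15.Tree

open Set Filter Topology

abbrev G := ℕ → ℤ
abbrev C := ℕ → ℕ

/-- code of the node `w|n` -/
def pre (w : G) (n : ℕ) : ℕ := Encodable.encode ((List.range n).map w)

/-- agreement below `n` -/
def Ag (n : ℕ) (u v : G) : Prop := ∀ i < n, u i = v i

lemma Ag.mono {n m : ℕ} {u v : G} (h : Ag n u v) (hm : m ≤ n) : Ag m u v := fun i hi => h i (by omega)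
lemma Ag.symm {n : ℕ} {u v : G} (h : Ag n u v) : Ag n v u := fun i hi => (h i hi).symm
lemma Ag.trans {n : ℕ} {u v w : G} (h : Ag n u v) (h' : Ag n v w) : Ag n u w :=
  fun i hi => (h i hi).trans (h' i hi)
lemma Ag.rfl {n : ℕ} {u : G} : Ag n u u := fun _ _ => Eq.refl _

lemma pre_eq {u v : G} {n m : ℕ} : pre u n = pre v m ↔ n = m ∧ Ag n u v := by
  unfold pre
  rw [Encodable.encode_inj]
  constructor
  · intro h
    have h1 : n = m := by simpa using congrArg List.length h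
    subst h1
    exact ⟨rfl, fun i hi => List.map_inj_left.1 h i (List.mem_range.2 hi)⟩
  · rintro ⟨rfl, h⟩
    exact List.map_congr_left fun i hi => h i (List.mem_range.1 hi)

lemma Ag.pre {n m : ℕ} {u v : G} (h : Ag n u v) (hm : m ≤ n) : pre u m = pre v m :=
  pre_eq.2 ⟨Eq.refl _, h.mono hm⟩

/-- `u` and `v` diverge at `i` -/
def Dv (i : ℕ) (u v : G) : Prop := Ag i u v ∧ u i ≠ v i

lemma Dv.congr {i n : ℕ} {u v v' : G} (h : Dv i u v) (h' : Ag n v v') (hi : i < n) : Dv i u v' :=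
  ⟨h.1.trans (h'.mono hi.le), by rw [← h' i hi]; exact h.2⟩
lemma Dv.symm {i : ℕ} {u v : G} (h : Dv i u v) : Dv i v u := ⟨h.1.symm, h.2.symm⟩

def Unb (c : C) (w : G) (k : ℕ) : Prop :=
  c (pre w k) ≠ 0 ∧ ∀ i w', Dv i w' w → c (pre w (i + 1)) ≤ c (pre w' (i + 1)) →
    k = i + 1 + c (pre w' (i + 1)) → c (pre w' (k + c (pre w k))) = 0

def Good (c : C) (w : G) (n : ℕ) : Prop := ∀ k ≤ n, Unb c w k
def Br (c : C) (w : G) : Prop := ∀ k, Unb c w k

lemma Unb.congr {c : C} {w v : G} {k : ℕ} (h : Unb c w k) (hv : Ag k w v) : Unb c v k := by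
  refine ⟨by rw [← hv.pre le_rfl]; exact h.1, fun i w' h1 h2 h3 => ?_⟩
  rw [← hv.pre le_rfl]
  exact h.2 i w' (h1.congr hv.symm (by omega)) (by rw [hv.pre (by omega)]; exact h2) h3

lemma br_unique {c : C} {w v : G} (hw : Br c w) (hv : Br c v) : w = v := by
  by_contra hne
  classical
  have hex : ∃ i, w i ≠ v i := Function.ne_iff.1 hne
  have hd : Dv (Nat.find hex) w v :=
    ⟨fun j hj => not_not.1 (Nat.find_min hex hj), Nat.find_spec hex⟩
  rcases le_total (c (pre w (Nat.find hex + 1))) (c (pre v (Nat.find hex + 1))) with h | h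
  · exact (hv _).1 ((hw _).2 _ v hd.symm h rfl)
  · exact (hw _).1 ((hv _).2 _ w hd h rfl)

lemma pre_cont (n : ℕ) : Continuous fun w : G => pre w n := by
  have : (fun w : G => pre w n) = (fun u : Fin n → ℤ => pre (fun i => if h : i < n then u ⟨i, h⟩ else 0) n) ∘
      fun (w : G) (i : Fin n) => w i := by
    funext w
    exact pre_eq.2 ⟨rfl, fun i hi => by simp [hi]⟩
  rw [this]
  exact continuous_of_discreteTopology.comp (by fun_prop)

lemma ev_cont {X : Type} [TopologicalSpace X] {c : X → C} {t : X → ℕ} (hc : Continuous c)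
    (ht : Continuous t) : Continuous fun x => c x (t x) :=
  (continuous_prod_of_discrete_right.2 fun n => continuous_apply n :
    Continuous fun p : C × ℕ => p.1 p.2).comp (hc.prodMk ht)

lemma closed_disc {X D : Type} [TopologicalSpace X] [TopologicalSpace D] [DiscreteTopology D]
    {T : X → D} (hT : Continuous T) (Q : D → Prop) : IsClosed {x | Q (T x)} :=
  (isClosed_discrete {d | Q d}).preimage hT

lemma unb_closed {X : Type} [TopologicalSpace X] {c : X → C} {w : X → G} (hc : Continuous c)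
    (hw : Continuous w) (k : ℕ) : IsClosed {x | Unb (c x) (w x) k} := by
  have hp : ∀ n, Continuous fun x => pre (w x) n := fun n => (pre_cont n).comp hw
  refine (closed_disc (ev_cont hc (hp k)) (· ≠ 0)).inter ?_
  show IsClosed {x | ∀ i w', _}
  simp only [ofPred_forall (fun (i : ℕ) x => ∀ w' : G, _)]
  refine isClosed_iInter fun i => ?_
  simp only [ofPred_forall (fun (w' : G) x => _)]
  refine isClosed_iInter fun w' => ?_
  have h1 : Continuous fun x => c x (pre w' (k + c x (pre (w x) k))) :=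
    ev_cont hc ((continuous_of_discreteTopology (f := fun t => pre w' (k + t))).comp (ev_cont hc (hp k)))
  have h2 : Continuous fun x => w x i := (continuous_apply i).comp hw
  have := closed_disc ((hp i).prodMk (h2.prodMk ((ev_cont hc (hp (i + 1))).prodMk
    ((ev_cont hc (continuous_const (y := pre w' (i + 1)))).prodMk h1))))
    (fun d => pre w' i = d.1 ∧ w' i ≠ d.2.1 → d.2.2.1 ≤ d.2.2.2.1 → k = i + 1 + d.2.2.2.1 → d.2.2.2.2 = 0)
  simpa [pre_eq, Dv] using this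

lemma br_closed {X : Type} [TopologicalSpace X] {c : X → C} {w : X → G} (hc : Continuous c)
    (hw : Continuous w) : IsClosed {x | Br (c x) (w x)} := by
  simp only [Br, ofPred_forall]
  exact isClosed_iInter fun k => unb_closed hc hw k

/-- forcing conditions -/
structure Cd where
  c : C
  R : Set ℕ
  Y : Set (G × ℕ)
  fin : R.Finite
  good : ∀ p ∈ Y, Good c p.1 p.2
  sub : ∀ p ∈ Y, ∀ k ≤ p.2, pre p.1 k ∈ R

def K (q : Cd) : Set C := {c | EqOn c q.c q.R ∧ ∀ p ∈ q.Y, Good c p.1 p.2}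

lemma K_closed (q : Cd) : IsClosed (K q) := by
  refine (isClosed_eqOn' _ _).inter ?_
  show IsClosed {c : C | ∀ p ∈ q.Y, ∀ k ≤ p.2, _}
  simp only [ofPred_forall]
  exact isClosed_iInter fun p => isClosed_iInter fun _ => isClosed_iInter fun k =>
    isClosed_iInter fun _ => unb_closed continuous_id continuous_const k
where isClosed_eqOn' (f : C) (R : Set ℕ) : IsClosed {c : C | EqOn c f R} := by
        simp only [EqOn, ofPred_forall]
        exact isClosed_iInter fun i => isClosed_iInter fun _ =>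
          isClosed_eq (continuous_apply i) continuous_const

lemma self_mem (q : Cd) : q.c ∈ K q := ⟨fun _ _ => rfl, q.good⟩

structure Le (q' q : Cd) : Prop where
  R : q.R ⊆ q'.R
  Y : q.Y ⊆ q'.Y
  c : EqOn q'.c q.c q.R

lemma Le.K {q' q : Cd} (h : Le q' q) : K q' ⊆ K q := fun _ hc =>
  ⟨fun _ hx => (hc.1 (h.R hx)).trans (h.c hx), fun p hp => hc.2 p (h.Y hp)⟩

lemma Le.trans {a b d : Cd} (h : Le a b) (h' : Le b d) : Le a d :=
  ⟨h'.R.trans h.R, h'.Y.trans h.Y, fun _ hx => (h.c (h'.R hx)).trans (h'.c hx)⟩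

def Via (q : Cd) (s : G) (n : ℕ) : Prop :=
  ∀ p ∈ q.Y, ∀ i < n, i < p.2 → Dv i p.1 s → q.c (pre p.1 (i + 1)) ≤ q.c (pre s (i + 1)) →
    p.2 < i + 1 + q.c (pre s (i + 1))

/-- `s|n` is a promised node through which a branch can still be led -/
def V (q : Cd) (s : G) (n : ℕ) : Prop := (∃ n', n ≤ n' ∧ (s, n') ∈ q.Y) ∧ Via q s n

lemma V.mono {q : Cd} {s : G} {n m : ℕ} (h : V q s n) (hm : m ≤ n) : V q s m :=
  ⟨let ⟨n', h1, h2⟩ := h.1; ⟨n', by omega, h2⟩, fun p hp i hi => h.2 p hp i (by omega)⟩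

lemma V.mem {q : Cd} {s : G} {n k : ℕ} (h : V q s n) (hk : k ≤ n) : pre s k ∈ q.R :=
  let ⟨_, h1, h2⟩ := h.1; q.sub _ h2 k (hk.trans h1)

lemma len_bdd {R : Set ℕ} (hR : R.Finite) : ∃ M, ∀ u k, pre u k ∈ R → k < M := by
  obtain ⟨M, hM⟩ := (hR.image fun x => ((Encodable.decode (α := List ℤ) x).getD []).length).bddAbove
  refine ⟨M + 1, fun u k h => ?_⟩
  have := hM (mem_image_of_mem _ h)
  simp [pre] at this
  omega

lemma fresh {R : Set ℕ} (hR : R.Finite) (n : ℕ) : ∃ T : ℤ, ∀ u : G, T ≤ u n → ∀ k > n, pre u k ∉ R := by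
  obtain ⟨M, hM⟩ := (hR.image fun x => ((Encodable.decode (α := List ℤ) x).getD []).getD n 0).bddAbove
  refine ⟨M + 1, fun u hu k hk h => ?_⟩
  have := hM (mem_image_of_mem _ h)
  simp [pre, hk] at this
  omega

lemma gen {q : Cd} {s : G} {n : ℕ} (h : V q s n) {u : G} (hu : Ag n u s)
    (hf : ∀ k > n, pre u k ∉ q.R) (L : ℕ) :
    ∃ c ∈ K q, Br c u ∧ ∀ k > n, L ≤ c (pre u k) := by
  classical
  obtain ⟨M0, hM0⟩ := len_bdd q.fin
  let M := max M0 L + 1
  let c : C := fun x => if x ∈ q.R then q.c x else if ∃ k > n, x = pre u k then M else 0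
  have c1 : ∀ x ∈ q.R, c x = q.c x := fun x hx => if_pos hx
  have c2 : ∀ k > n, c (pre u k) = M := fun k hk => by
    simp only [c, if_neg (hf k hk)]; exact if_pos ⟨k, hk, rfl⟩
  have c3 : ∀ x, c x ≠ 0 → x ∈ q.R ∨ ∃ k > n, x = pre u k := fun x hx => by
    by_contra h1
    push Not at h1
    apply hx
    simp only [c, if_neg h1.1]
    exact if_neg fun ⟨k, a, b⟩ => h1.2 k a b
  have hg : ∀ p ∈ q.Y, Good c p.1 p.2 := by
    rintro ⟨y, m⟩ hp k hk
    have hy := q.good _ hp k hk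
    have hm : m < M0 := hM0 _ _ (q.sub _ hp m le_rfl)
    have e1 : c (pre y k) = q.c (pre y k) := c1 _ (q.sub _ hp k hk)
    refine ⟨by rw [e1]; exact hy.1, fun i w' h1 h2 h3 => ?_⟩
    simp only at hk
    have e2 : c (pre y (i + 1)) = q.c (pre y (i + 1)) := c1 _ (q.sub _ hp _ (by simp only; omega))
    have h4 : c (pre w' (i + 1)) ≠ 0 := by
      have : q.c (pre y (i + 1)) ≠ 0 := (q.good _ hp (i + 1) (by simp only; omega)).1
      rw [← e2] at this
      exact fun h => this (Nat.le_zero.1 (h ▸ h2))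
    rcases c3 _ h4 with h5 | ⟨l, hl, h5⟩
    · rw [c1 _ h5] at h2 h3
      rw [e2] at h2
      rw [e1]
      have h6 := hy.2 i w' h1 h2 h3
      by_contra h7
      rcases c3 _ h7 with h8 | ⟨l, hl, h8⟩
      · exact h7 ((c1 _ h8).trans h6)
      · obtain ⟨rfl, h9⟩ := pre_eq.1 h8
        have e3 : pre w' (i + 1) = pre u (i + 1) := h9.pre (by omega)
        have hi : i + 1 ≤ n := by
          by_contra h10
          exact hf (i + 1) (by omega) (e3 ▸ h5)
        have e4 : pre w' (i + 1) = pre s (i + 1) := e3.trans (hu.pre hi)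
        have := h.2 _ hp i (by omega) (by simp only; omega)
          ((h1.symm.congr h9 (by omega)).congr hu (by omega)) (by rw [← e4]; exact h2)
        rw [← e4] at this
        simp only at this; omega
    · rw [h5, c2 l hl] at h3
      have := le_max_left M0 L
      omega
  refine ⟨c, ⟨c1, hg⟩, fun k => ?_, fun k hk => by rw [c2 k hk]; have := le_max_right M0 L; omega⟩
  by_cases hk : k ≤ n
  · obtain ⟨n', h1, h2⟩ := h.1
    exact (hg _ h2 k (hk.trans h1)).congr (hu.symm.mono hk)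
  · refine ⟨by rw [c2 k (by omega)]; omega, fun i w' h1 _ h3 => ?_⟩
    rw [c2 k (by omega)]
    by_contra h7
    rcases c3 _ h7 with h8 | ⟨l, hl, h8⟩
    · have := hM0 _ _ h8
      have := le_max_left M0 L
      omega
    · exact h1.2 ((pre_eq.1 h8).2 i (by omega))

/-- recenter at `c`, freeze `R'`, and promise the branch `w` up to `N` -/
def ext (q : Cd) (c : C) (hc : c ∈ K q) (R' : Set ℕ) (hR : R'.Finite) (w : G) (hw : Br c w) (N : ℕ) : Cd where
  c := c
  R := q.R ∪ R' ∪ pre w '' Iic N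
  Y := insert (w, N) q.Y
  fin := (q.fin.union hR).union ((finite_Iic N).image _)
  good := by
    rintro p (rfl | hp)
    · exact fun k _ => hw k
    · exact hc.2 p hp
  sub := by
    rintro p (rfl | hp) k hk
    · exact Or.inr ⟨k, hk, rfl⟩
    · exact Or.inl (Or.inl (q.sub p hp k hk))

section
variable {q : Cd} {c : C} (hc : c ∈ K q) {R' : Set ℕ} (hR : R'.Finite) {w : G} (hw : Br c w) (N : ℕ)

lemma ext_le : Le (ext q c hc R' hR w hw N) q :=
  ⟨fun _ h => Or.inl (Or.inl h), subset_insert _ _, hc.1⟩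

lemma ext_V : V (ext q c hc R' hR w hw N) w N := by
  refine ⟨⟨N, le_rfl, Or.inl rfl⟩, fun p hp i _ h1 h2 h3 => ?_⟩
  by_contra h4
  exact (hw _).1 (((ext q c hc R' hR w hw N).good p hp _ (not_lt.1 h4)).2 i w h2.symm h3 rfl)

lemma ext_V' {v : G} {m : ℕ} (h : V q v m)
    (hd : ∀ i < m, Dv i w v → c (pre v (i + 1)) < c (pre w (i + 1))) :
    V (ext q c hc R' hR w hw N) v m := by
  refine ⟨let ⟨n', h1, h2⟩ := h.1; ⟨n', h1, Or.inr h2⟩, ?_⟩
  rintro p (rfl | hp) i h1 h2 h3 h4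
  · exact absurd (hd i h1 h3) (not_lt.2 h4)
  · have e1 : c (pre p.1 (i + 1)) = q.c _ := hc.1 (q.sub p hp _ h2)
    have e2 : c (pre v (i + 1)) = q.c _ := hc.1 (h.mem h1)
    have := h.2 p hp i h1 h2 h3 (by rw [← e1, ← e2]; exact h4)
    rw [← e2] at this
    exact this
end

/-- dominance: `v` stays viable along branches through `u` -/
def Dom (q : Cd) (u : G) (n : ℕ) (v : G) (m : ℕ) : Prop :=
  V q v m ∧ m ≤ n ∧ ∀ i < m, Dv i u v → q.c (pre v (i + 1)) < q.c (pre u (i + 1))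

lemma ext_Dom {q : Cd} {c : C} (hc : c ∈ K q) {R' : Set ℕ} (hR : R'.Finite) {w : G} (hw : Br c w)
    {N : ℕ} {u v : G} {n m : ℕ} (hu : V q u n) (h : Dom q u n v m) (hwu : Ag n w u) (hN : n ≤ N) :
    Dom (ext q c hc R' hR w hw N) w N v m := by
  have key : ∀ i < m, Dv i w v → c (pre v (i + 1)) < c (pre w (i + 1)) := by
    intro i hi hd
    have h1 := h.2.1
    rw [hwu.pre (by omega : i + 1 ≤ n), hc.1 (h.1.mem hi), hc.1 (hu.mem (by omega))]
    exact h.2.2 i hi (hd.symm.congr hwu (by omega)).symm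
  exact ⟨ext_V' hc hR hw N h.1 key, h.2.1.trans hN, key⟩

lemma ex_fresh {q : Cd} (s : G) (n : ℕ) : ∃ u : G, Ag n u s ∧ ∀ k > n, pre u k ∉ q.R := by
  obtain ⟨T, hT⟩ := fresh q.fin n
  exact ⟨fun i => if i < n then s i else T, fun i hi => if_pos hi, hT _ (by simp)⟩

lemma approx {q : Cd} {s : G} {n : ℕ} (h : V q s n) {c : C} (hc : c ∈ K q) {R' : Set ℕ}
    (hR : R'.Finite) : ∃ c' ∈ K q, EqOn c' c R' ∧ ∃ w, Br c' w ∧ Ag n w s := by
  let q' : Cd := ⟨c, q.R ∪ R', q.Y, q.fin.union hR, hc.2, fun p hp k hk => Or.inl (q.sub p hp k hk)⟩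
  have hV : V q' s n := by
    refine ⟨h.1, fun p hp i h1 h2 h3 h4 => ?_⟩
    have e1 : c (pre p.1 (i + 1)) = q.c _ := hc.1 (q.sub p hp _ h2)
    have e2 : c (pre s (i + 1)) = q.c _ := hc.1 (h.mem h1)
    have := h.2 p hp i h1 h2 h3 (by rw [← e1, ← e2]; exact h4)
    rw [← e2] at this
    exact this
  obtain ⟨u, hu, hf⟩ := ex_fresh (q := q') s n
  obtain ⟨c', h1, h2, -⟩ := gen hV hu hf 0
  exact ⟨c', (⟨subset_union_left, Subset.rfl, hc.1⟩ : Le q' q).K h1, fun x hx => h1.1 (Or.inr hx), u, h2, hu⟩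

lemma clo {q : Cd} {s : G} {n : ℕ} (h : V q s n) {P : Set C} (hP : IsClosed P)
    (H : ∀ c ∈ K q, ∀ w, Br c w → Ag n w s → c ∈ P) : K q ⊆ P := by
  intro c hc
  choose c' h1 h2 w h3 h4 using fun j : ℕ => approx h hc (finite_Iic j)
  refine hP.mem_of_tendsto (f := c') (b := atTop) (tendsto_pi_nhds.2 fun x => ?_)
    (Eventually.of_forall fun j => H _ (h1 j) _ (h3 j) (h4 j))
  exact tendsto_const_nhds.congr' ((eventually_ge_atTop x).mono fun j hj => (h2 j hj).symm)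

lemma loc {φ : C × G → ℕ} (hφ : Continuous φ) (c : C) (g : G) : ∃ m, ∀ c' g', EqOn c' c (Iic m) →
    Ag m g' g → φ (c', g') = φ (c, g) := by
  by_contra H
  push Not at H
  choose c' g' h1 h2 h3 using H
  have : Tendsto (fun m => φ (c' m, g' m)) atTop (𝓝 (φ (c, g))) := by
    refine (hφ.tendsto _).comp (Tendsto.prodMk_nhds (tendsto_pi_nhds.2 fun x => ?_)
      (tendsto_pi_nhds.2 fun x => ?_))
    · exact tendsto_const_nhds.congr' ((eventually_ge_atTop x).mono fun j hj => (h1 j hj).symm)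
    · exact tendsto_const_nhds.congr' ((eventually_gt_atTop x).mono fun j hj => (h2 j x hj).symm)
  rw [nhds_discrete, tendsto_pure] at this
  obtain ⟨m, hm⟩ := this.exists
  exact h3 m hm

lemma add {q : Cd} {s : G} {n : ℕ} (h : V q s n) {u : G} (hu : Ag n u s)
    (hf : ∀ k > n, pre u k ∉ q.R) (L m : ℕ) :
    ∃ q', Le q' q ∧ V q' u m ∧ V q' s n ∧ Br q'.c u ∧ q'.R = q.R ∪ ∅ ∪ pre u '' Iic m ∧
      (∀ k > n, L ≤ q'.c (pre u k)) ∧
      ∀ v l, V q v l → (∀ i < l, Dv i u v → q'.c (pre v (i + 1)) < q'.c (pre u (i + 1))) → V q' v l := by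
  obtain ⟨c, h1, h2, h3⟩ := gen h hu hf L
  exact ⟨ext q c h1 ∅ finite_empty u h2 m, ext_le .., ext_V .., ext_V' _ _ _ _ h
    fun i hi hd => absurd (hu i hi) hd.2, h2, rfl, h3, fun v l hv hd => ext_V' _ _ _ _ hv hd⟩

lemma notMem_add {R : Set ℕ} {u v : G} {n m : ℕ} (hf : ∀ k > n, pre v k ∉ R) (h : v n ≠ u n) :
    ∀ k > n, pre v k ∉ R ∪ ∅ ∪ pre u '' Iic m := by
  rintro k hk ((h1 | h1) | ⟨l, -, h1⟩)
  · exact hf k hk h1
  · exact h1
  · obtain ⟨rfl, h2⟩ := pre_eq.1 h1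
    exact h (h2 n hk).symm

lemma half {q : Cd} {s γ : G} {N : ℕ} {φ ψ : C × G → ℕ} (hψ : Continuous ψ)
    (H : ∀ c ∈ K q, ∀ w g, Br c w → Ag N w s → Ag N g γ → φ (c, g) = ψ (c, w - g))
    {c : C} {g : G} {m : ℕ} (hm : N ≤ m) (hg : Ag N g γ)
    (hloc : ∀ c' g', EqOn c' c (Iic m) → Ag m g' g → φ (c', g') = φ (c, g))
    {q' : Cd} (hq : K q' ⊆ K q) (hc : ∀ c' ∈ K q', EqOn c' c (Iic m)) {v : G} (hv : V q' v m)
    (hvs : Ag N v s) : ∀ c' ∈ K q', ψ (c', v - g) = φ (c, g) := by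
  refine clo hv (P := {c' | ψ (c', v - g) = φ (c, g)}) (isClosed_eq (by fun_prop) continuous_const) ?_
  intro c' h1 w h2 h3
  have h4 : Ag m (w - (v - g)) g := fun i hi => by simp [h3 i hi]
  have := H c' (hq h1) w (w - (v - g)) h2 ((h3.mono hm).trans hvs) ((h4.mono hm).trans hg)
  rw [sub_sub_cancel] at this
  exact this.symm.trans (hloc _ _ (hc _ h1) h4)

lemma rect {q : Cd} {s γ : G} {N : ℕ} (h : V q s N) {φ ψ : C × G → ℕ} (hφ : Continuous φ)
    (hψ : Continuous ψ)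
    (H : ∀ c ∈ K q, ∀ w g, Br c w → Ag N w s → Ag N g γ → φ (c, g) = ψ (c, w - g)) :
    ∀ c ∈ K q, ∀ g k, Ag N g γ → Ag N k (s - γ) → φ (c, g) = ψ (c, k) := by
  intro c hc g k hg hk
  obtain ⟨m1, l1⟩ := loc hφ c g
  obtain ⟨m2, l2⟩ := loc hψ c k
  let m := m1 + m2 + N
  obtain ⟨c0, a1, a2, w, a3, a4⟩ := approx h hc (finite_Iic m)
  let q0 := ext q c0 a1 (Iic m) (finite_Iic m) w a3 N
  have V0 : V q0 w N := ext_V ..
  have L0 : Le q0 q := ext_le ..
  have E0 : ∀ c' ∈ K q0, EqOn c' c (Iic m) := fun c' h1 x hx =>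
    (h1.1 (Or.inl (Or.inr hx))).trans (a2 hx)
  obtain ⟨T, hT⟩ := fresh q0.fin N
  let x := |T| + |g N + k N| + 1
  let v1 : G := fun i => if i < N then w i else x
  let v3 : G := fun i => if i < N then w i else 2 * x
  let v2 : G := v1 + v3 - (g + k)
  have hx1 := le_abs_self T
  have hx2 := le_abs_self (g N + k N)
  have hx3 := abs_nonneg T
  have hx4 := abs_nonneg (g N + k N)
  have e1 : v1 N = x := by simp [v1]
  have e3 : v3 N = 2 * x := by simp [v3]
  have e2 : v2 N = 3 * x - (g N + k N) := by simp only [v2, Pi.sub_apply, Pi.add_apply, e1, e3]; ring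
  have g1 : Ag N v1 w := fun i hi => if_pos hi
  have g3 : Ag N v3 w := fun i hi => if_pos hi
  have g2 : Ag N v2 w := fun i hi => by
    simp only [v2, Pi.sub_apply, Pi.add_apply, g1 i hi, g3 i hi, hg i hi, hk i hi, a4 i hi]; ring
  obtain ⟨q1, L1, V1, W1, -, R1, -, -⟩ := add V0 g1 (hT _ (by omega)) 0 m
  obtain ⟨q3, L3, V3, W3, -, R3, -, -⟩ := add W1 g3
    (R1 ▸ notMem_add (hT _ (by omega)) (by omega)) 0 m
  obtain ⟨c2, b1, b2, -⟩ := gen W3 g2
    (R3 ▸ notMem_add (R1 ▸ notMem_add (hT _ (by omega)) (by omega)) (by omega)) 0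
  have t1 := half hψ H (m := m) (by omega) hg
    (fun c' g' h1 h2 => l1 c' g' (h1.mono (Iic_subset_Iic.2 (by omega))) (h2.mono (by omega)))
    ((L1.trans L0).K) (fun c' h1 => E0 c' (L1.K h1)) V1 (g1.trans a4) c2 (L3.K b1)
  have t3 := half (q := q) (s := s) (γ := s - γ) (φ := ψ) (ψ := φ) hφ (fun c hc w g h1 h2 h3 => by
      have := H c hc w (w - g) h1 h2 (fun i hi => by simp [h2 i hi, h3 i hi])
      rw [sub_sub_cancel] at this
      exact this.symm) (m := m) (by omega) hk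
    (fun c' g' h1 h2 => l2 c' g' (h1.mono (Iic_subset_Iic.2 (by omega))) (h2.mono (by omega)))
    (((L3.trans L1).trans L0).K) (fun c' h1 => E0 c' ((L3.trans L1).K h1)) V3 (g3.trans a4) c2 b1
  have t2 := H c2 (((L3.trans L1).trans L0).K b1) v2 (v3 - k) b2 (g2.trans a4)
    (fun i hi => by simp [g3 i hi, hk i hi, a4 i hi])
  have : v2 - (v3 - k) = v1 - g := by simp only [v2]; abel
  rw [this] at t2
  rw [← t1, ← t2, t3]

lemma baire {q : Cd} {s γ : G} {n : ℕ} (h : V q s n) (F : ℕ → Set (C × G × G))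
    (hF : ∀ m, IsClosed (F m))
    (H : ∀ c ∈ K q, ∀ w g, Br c w → Ag n w s → Ag n g γ → ∃ m, (c, w, g) ∈ F m) :
    ∃ m q' s' γ' N, Le q' q ∧ n ≤ N ∧ V q' s' N ∧ Ag n s' s ∧ Ag n γ' γ ∧
      (∀ v l, Dom q s n v l → Dom q' s' N v l) ∧
      ∀ c ∈ K q', ∀ w g, Br c w → Ag N w s' → Ag N g γ' → (c, w, g) ∈ F m := by
  let Z : Set (C × G × G) := {x | x.1 ∈ K q ∧ Br x.1 x.2.1 ∧ Ag n x.2.1 s ∧ Ag n x.2.2 γ}
  have ag : ∀ {f : C × G × G → G} (_ : Continuous f) (u : G), IsClosed {x | Ag n (f x) u} := by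
    intro f hf u
    simpa [pre_eq] using closed_disc ((pre_cont n).comp hf) (· = pre u n)
  have hZ : IsClosed Z := ((K_closed q).preimage continuous_fst).inter
    ((br_closed continuous_fst (by fun_prop)).inter ((ag (by fun_prop) s).inter (ag (by fun_prop) γ)))
  have := hZ.polishSpace
  obtain ⟨c0, a1, -, w0, a3, a4⟩ := approx h (self_mem q) finite_empty
  have : Nonempty Z := ⟨⟨(c0, w0, γ), a1, a3, a4, Ag.rfl⟩⟩
  obtain ⟨m, ⟨⟨c1, w1, g1⟩, b1, b2, b3, b4⟩, hx⟩ := nonempty_interior_of_iUnion_of_closed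
    (f := fun m => (Subtype.val ⁻¹' F m : Set Z)) (fun m => (hF m).preimage continuous_subtype_val)
    (eq_univ_of_forall fun ⟨⟨c, w, g⟩, b1, b2, b3, b4⟩ => mem_iUnion.2 (H c b1 w g b2 b3 b4))
  have : ∃ N, n ≤ N ∧ ∀ x : Z, EqOn x.1.1 c1 (Iic N) → Ag N x.1.2.1 w1 → Ag N x.1.2.2 g1 → x.1 ∈ F m := by
    by_contra H'
    push Not at H'
    choose x h1 h2 h3 h4 using fun j => H' (n + j) (by omega)
    have : Tendsto x atTop (𝓝 ⟨(c1, w1, g1), b1, b2, b3, b4⟩) := by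
      rw [tendsto_subtype_rng]
      refine Tendsto.prodMk_nhds (mx := fun j => (x j).1.1) (my := fun j => (x j).1.2)
        (tendsto_pi_nhds.2 fun y => ?_) (Tendsto.prodMk_nhds (mx := fun j => (x j).1.2.1)
        (my := fun j => (x j).1.2.2) (tendsto_pi_nhds.2 fun y => ?_) (tendsto_pi_nhds.2 fun y => ?_))
      · exact tendsto_const_nhds.congr' ((eventually_ge_atTop y).mono fun j hj =>
          (h1 j (by simp only [mem_Iic]; omega)).symm)
      · exact tendsto_const_nhds.congr' ((eventually_gt_atTop y).mono fun j hj => (h2 j y (by omega)).symm)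
      · exact tendsto_const_nhds.congr' ((eventually_gt_atTop y).mono fun j hj => (h3 j y (by omega)).symm)
    obtain ⟨j, hj⟩ := (this.eventually (mem_interior_iff_mem_nhds.1 hx)).exists
    exact h4 j hj
  obtain ⟨N, hN, HN⟩ := this
  refine ⟨m, ext q c1 b1 (Iic N) (finite_Iic N) w1 b2 N, w1, g1, N, ext_le .., hN, ext_V .., b3, b4,
    fun v l hd => ext_Dom _ _ _ h hd b3 hN, fun c hc w g h1 h2 h3 => ?_⟩
  exact HN ⟨(c, w, g), (ext_le ..).K hc, h1, (h2.mono hN).trans b3, (h3.mono hN).trans b4⟩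
    (fun x hx => hc.1 (Or.inl (Or.inr hx))) h2 h3

lemma cover {q : Cd} {s γ : G} {n : ℕ} (h : V q s n) {z : C → C} (hz : Continuous z)
    {Φ : C × G → ℕ → C} (hΦ : Continuous Φ)
    (H : ∀ c ∈ K q, ∀ w g, Br c w → Ag n w s → Ag n g γ → z c ∈ range (Φ (c, w - g))) :
    ∃ m q' s' η N, Le q' q ∧ n ≤ N ∧ V q' s' N ∧ Ag n s' s ∧ Ag n η (s - γ) ∧
      (∀ v l, Dom q s n v l → Dom q' s' N v l) ∧
      ∀ c ∈ K q', ∀ k, Ag N k η → Φ (c, k) m = z c := by
  obtain ⟨m, q', s', γ', N, a1, a2, a3, a4, a5, a6, a7⟩ := baire (γ := γ) h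
    (fun m => {x | Φ (x.1, x.2.1 - x.2.2) m = z x.1}) (fun m => isClosed_eq (by fun_prop) (by fun_prop)) H
  refine ⟨m, q', s', s' - γ', N, a1, a2, a3, a4, fun i hi => by simp [a4 i hi, a5 i hi], a6,
    fun c hc k hk => ?_⟩
  refine clo a3 (P := {c | Φ (c, k) m = z c}) (isClosed_eq (by fun_prop) hz) ?_ hc
  intro c hc w h1 h2
  simpa using a7 c hc w (w - k) h1 h2 (fun i hi => by simp [h2 i hi, hk i hi])

lemma claim {F F' : C × G → ℕ → C} (hF : Continuous F) (hF' : Continuous F')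
    (H : ∀ c w g, Br c w → range (F (c, g)) = range (F' (c, w - g)))
    {δ : G} (hδ : δ 0 ≠ 0) {q : Cd} {s γ : G} {n : ℕ} (h : V q s n) (hn : 1 ≤ n) (k : ℕ) :
    ∃ q' s' γ' n' k', Le q' q ∧ V q' s' n' ∧ n ≤ n' ∧ Ag n γ' γ ∧
      ∀ c ∈ K q', ∀ g, Ag n' g γ' → F (c, g) k = F (c, g + δ) k' := by
  obtain ⟨m0, q0, s0, γ0, n0, L0, n00, V0, -, g0, -, H0⟩ := baire (γ := γ) h
    (fun m => {x | F' (x.1, x.2.1 - x.2.2) m = F (x.1, x.2.2) k})
    (fun m => isClosed_eq (by fun_prop) (by fun_prop))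
    (fun c _ w g h1 _ _ => by
      have : F (c, g) k ∈ range (F' (c, w - g)) := H c w g h1 ▸ mem_range_self k
      exact this)
  have Z0 : ∀ c ∈ K q0, ∀ g, Ag n0 g γ0 → F (c, g) k = F (c, γ0) k := by
    intro c hc g hg
    funext j
    have := rect (γ := γ0) V0 (φ := fun x => F x k j) (ψ := fun x => F' x m0 j) (by fun_prop) (by fun_prop)
      (fun c hc w g h1 h2 h3 => (congrFun (H0 c hc w g h1 h2 h3) j).symm) c hc
    exact (this g _ hg Ag.rfl).trans (this γ0 _ Ag.rfl Ag.rfl).symm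
  obtain ⟨T, hT⟩ := fresh q0.fin 0
  let b : G := fun _ => |T| + |δ 0|
  let a : G := b + δ
  have hx1 := le_abs_self T
  have hx2 := neg_abs_le (δ 0)
  have hx3 := abs_nonneg (δ 0)
  have ea : a 0 = |T| + |δ 0| + δ 0 := rfl
  have eb : b 0 = |T| + |δ 0| := rfl
  have d0 : ∀ {u v : G} {i : ℕ}, u 0 ≠ v 0 → Dv i u v → i = 0 := fun h1 h2 => by
    by_contra h3
    exact h1 (h2.1 0 (by omega))
  have ne : ∀ u : G, T ≤ u 0 → u 0 ≠ s0 0 := fun u hu h1 =>
    hT u hu 1 one_pos (by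
      rw [pre_eq.2 ⟨rfl, (fun i hi => by rw [show i = 0 by omega]; exact h1 : Ag 1 u s0)⟩]
      exact V0.mem (by omega))
  obtain ⟨qa, La, Va, Wa, -, Ra, Pa, Da⟩ := add (V0.mono (Nat.zero_le _)) (u := a) (fun _ h => by omega)
    (hT _ (by omega)) (q0.c (pre s0 1) + 1) n0
  have ca : qa.c (pre s0 1) < qa.c (pre a 1) := by
    rw [La.c (V0.mem (by omega))]; exact Pa 1 one_pos
  have Sa : V qa s0 n0 := Da _ _ V0 fun i _ hd => by rw [d0 (ne a (by omega)) hd]; exact ca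
  obtain ⟨qb, Lb, Vb, -, -, -, Pb, Db⟩ := add Wa (u := b) (fun _ h => by omega)
    (Ra ▸ notMem_add (hT _ (by omega)) (by omega)) (qa.c (pre a 1) + 1) n0
  have cb : qb.c (pre a 1) < qb.c (pre b 1) := by
    rw [Lb.c (Va.mem (by omega))]; exact Pb 1 one_pos
  have cb' : qb.c (pre s0 1) < qb.c (pre a 1) := by
    rw [Lb.c (Sa.mem (by omega)), Lb.c (Va.mem (by omega))]; exact ca
  have D1 : Dom qb b n0 s0 n0 := by
    have : ∀ i < n0, Dv i b s0 → qb.c (pre s0 (i + 1)) < qb.c (pre b (i + 1)) := fun i _ hd => by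
      rw [d0 (ne b (by omega)) hd]; exact cb'.trans cb
    exact ⟨Db _ _ Sa this, le_rfl, this⟩
  have D2 : Dom qb b n0 a n0 := by
    have : ∀ i < n0, Dv i b a → qb.c (pre a (i + 1)) < qb.c (pre b (i + 1)) := fun i _ hd => by
      rw [d0 (by omega) hd]; exact cb
    exact ⟨Db _ _ Va this, le_rfl, this⟩
  have hz : Continuous fun c => F (c, γ0) k := by fun_prop
  obtain ⟨m1, q1, s1, η1, n1, L1, n01, -, -, g1, P1, H1⟩ := cover (γ := γ0) Vb hz hF'
    (fun c hc w g h1 _ h3 => by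
      rw [← H c w g h1, ← Z0 c ((Lb.trans La).K hc) g h3]; exact mem_range_self _)
  have A1 := (P1 _ _ D2).1
  have S1 := (P1 _ _ D1).1
  obtain ⟨a', ha', hf⟩ := ex_fresh (q := q1) a n0
  obtain ⟨c', hc', hb', -⟩ := gen A1 ha' hf 0
  have D3 : Dom q1 a n0 s0 n0 := ⟨S1, le_rfl, fun i _ hd => by
    rw [d0 (ne a (by omega)) hd, L1.c (D1.1.mem (by omega)), L1.c (D2.1.mem (by omega))]; exact cb'⟩
  have D4 := ext_Dom hc' finite_empty hb' A1 D3 ha' n01
  have L2 := ext_le hc' finite_empty hb' n1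
  obtain ⟨m2, q2, s2, η2, n2, L3, n12, -, -, g2, P2, H2⟩ := cover (γ := η1)
    (ext_V hc' finite_empty hb' n1) hz hF
    (fun c hc w g h1 _ h3 => by
      rw [H c w _ h1, sub_sub_cancel, ← H1 c (L2.K hc) g h3]; exact mem_range_self _)
  have S2 := (P2 _ _ D4).1
  obtain ⟨s', hs', hf'⟩ := ex_fresh (q := q2) s0 n0
  obtain ⟨q3, L4, V4, -⟩ := add S2 hs' hf' 0 n2
  have L5 : Le q3 q0 := L4.trans (L3.trans (L2.trans (L1.trans (Lb.trans La))))
  have g3 : Ag n0 (η2 - δ) γ0 := fun i hi => by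
    simp [g2 i (by omega), ha' i hi, g1 i hi, a]
  refine ⟨q3, s', η2 - δ, n2, m2, L5.trans L0, V4, by omega, (g3.mono n00).trans g0, fun c hc g hg => ?_⟩
  rw [Z0 c (L5.K hc) g ((hg.mono (by omega)).trans g3), H2 c (L4.K hc) _ fun i hi => by simp [hg i hi]]

structure St where
  q : Cd
  s : G
  γ : G
  n : ℕ
  v : V q s n
  pos : 1 ≤ n

theorem main {F F' : C × G → ℕ → C} (hF : Continuous F) (hF' : Continuous F')
    (H : ∀ c w g, Br c w → range (F (c, g)) = range (F' (c, w - g))) :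
    ∃ c g, range (F (c, g)) = range (F (c, g + 1)) := by
  have step : ∀ (x : St) (j : ℕ), ∃ y : St, Le y.q x.q ∧ x.n < y.n ∧ Ag x.n y.γ x.γ ∧ j ∈ y.q.R ∧
      ∀ c ∈ K y.q, ∀ g, Ag y.n g y.γ →
        F (c, g) j ∈ range (F (c, g + 1)) ∧ F (c, g + 1) j ∈ range (F (c, g)) := by
    intro x j
    obtain ⟨q1, s1, γ1, n1, k1, L1, V1, h1, g1, H1⟩ :=
      claim hF hF' H (δ := 1) (γ := x.γ) (by simp) x.v x.pos j
    have := x.pos
    obtain ⟨q2, s2, γ2, n2, k2, L2, V2, h2, g2, H2⟩ :=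
      claim hF hF' H (δ := -1) (γ := γ1 + 1) (by simp) V1 (by omega) j
    obtain ⟨c, a1, -, w, a2, -⟩ := approx V2 (self_mem _) finite_empty
    have L3 := ext_le a1 (finite_singleton j) a2 (n2 + 1)
    have g3 : Ag n1 (γ2 - 1) γ1 := fun i hi => by simp [g2 i hi]
    refine ⟨⟨_, w, γ2 - 1, n2 + 1, ext_V a1 (finite_singleton j) a2 (n2 + 1), by omega⟩,
      L3.trans (L2.trans L1), by simp only; omega, (g3.mono h1).trans g1, Or.inl (Or.inr rfl),
      fun c hc g hg => ⟨⟨k1, (H1 c ((L3.trans L2).K hc) g ((hg.mono (by simp only; omega)).trans g3)).symm⟩,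
        k2, ?_⟩⟩
    rw [H2 c (L3.K hc) (g + 1) fun i hi => by simp [hg i (by simp only; omega)]]
    simp
  choose nx h1 h2 h3 h4 h5 using step
  obtain ⟨x0⟩ : Nonempty St := by
    let q0 : Cd := ⟨fun _ => 1, {pre 0 0}, {(0, 0)}, finite_singleton _, by
      rintro _ rfl k hk
      exact ⟨one_ne_zero, fun i _ _ _ h => by simp only at hk; omega⟩, by
      rintro _ rfl k hk
      rw [Nat.le_zero.1 hk]; rfl⟩
    have V0 : V q0 0 0 := ⟨⟨0, le_rfl, rfl⟩, fun _ _ _ h => by omega⟩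
    obtain ⟨c, a1, -, w, a2, -⟩ := approx V0 (self_mem _) finite_empty
    exact ⟨⟨_, w, 0, 1, ext_V a1 finite_empty a2 1, le_rfl⟩⟩
  let x : ℕ → St := fun j => Nat.rec x0 (fun j y => nx y j) j
  have hx : ∀ j, x (j + 1) = nx (x j) j := fun _ => rfl
  have mono : ∀ i j, i ≤ j → Le (x j).q (x i).q ∧ (x i).n ≤ (x j).n ∧ Ag (x i).n (x j).γ (x i).γ := by
    intro i j hij
    induction hij with
    | refl => exact ⟨⟨Subset.rfl, Subset.rfl, fun _ _ => rfl⟩, le_rfl, Ag.rfl⟩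
    | step _ ih => exact ⟨(h1 _ _).trans ih.1, ih.2.1.trans (h2 _ _).le,
        ((h3 _ _).mono ih.2.1).trans ih.2.2⟩
  have big : ∀ j, j ≤ (x j).n := by
    intro j
    induction j with
    | zero => omega
    | succ j ih => exact ih.trans_lt (h2 _ _)
  let c : C := fun j => (x (j + 1)).q.c j
  let g : G := fun j => (x (j + 1)).γ j
  have hc : ∀ i, c ∈ K (x i).q := by
    intro i
    refine (K_closed _).mem_of_tendsto (f := fun j => (x j).q.c) (b := atTop)
      (tendsto_pi_nhds.2 fun y => ?_)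
      ((eventually_ge_atTop i).mono fun j hj => (mono i j hj).1.K (self_mem _))
    exact tendsto_const_nhds.congr' ((eventually_ge_atTop (y + 1)).mono fun j hj =>
      ((mono _ j hj).1.c (h4 _ _)).symm)
  have hg : ∀ i, Ag (x i).n g (x i).γ := by
    intro i l hl
    exact ((mono (l + 1) (l + 1 + i) (by omega)).2.2 l (big (l + 1))).symm.trans
      ((mono i (l + 1 + i) (by omega)).2.2 l hl)
  refine ⟨c, g, Subset.antisymm ?_ ?_⟩
  · rintro _ ⟨j, rfl⟩
    exact (h5 _ j c (hc (j + 1)) g (hg (j + 1))).1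
  · rintro _ ⟨j, rfl⟩
    exact (h5 _ j c (hc (j + 1)) g (hg (j + 1))).2

end Pool.Agent.Lib.helper15.Tree
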