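import Mathlib

open Set Filter Topology BoundedContinuousFunction

namespace Pool.Agent.Lib.helper15.Vol

variable {E : Type} [NormedAddCommGroup E] [NormedSpace ℂ E] [CompleteSpace E] {b : ℝ}

noncomputable def cl (b x : ℝ) : ℝ := max 0 (min x b)

lemma cl_c : Continuous (cl b) := by unfold cl; fun_prop
lemma cl0 (x : ℝ) : 0 ≤ cl b x := le_max_left _ _
lemma cl1 (x : ℝ) : cl b x ≤ |b| := max_le (abs_nonneg _) ((min_le_right _ _).trans (le_abs_self _))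
lemma cl_eq {x : ℝ} (h : x ∈ Icc 0 b) : cl b x = x := by
  rw [cl, min_eq_left h.2, max_eq_right h.1]
lemma cl_le {x t : ℝ} (h0 : 0 ≤ t) (h : t ≤ cl b x) : cl b t = t := by
  rcases le_max_iff.1 h with h | h
  · obtain rfl : t = 0 := le_antisymm h h0
    exact max_eq_left (min_le_left _ _)
  · exact cl_eq ⟨h0, h.trans (min_le_right _ _)⟩

omit [CompleteSpace E] in
lemma cAy (A : ℝ →ᵇ (E →L[ℂ] E)) (y : ℝ →ᵇ E) : Continuous fun t => A t (y t) :=
  A.continuous.clm_apply y.continuous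

omit [CompleteSpace E] in
lemma Kb (A : ℝ →ᵇ (E →L[ℂ] E)) (y : ℝ →ᵇ E) (x : ℝ) :
    ‖∫ t in (0 : ℝ)..cl b x, A t (y t)‖ ≤ |b| * ‖A‖ * ‖y‖ := by
  refine (intervalIntegral.norm_integral_le_of_norm_le_const (C := ‖A‖ * ‖y‖) fun t _ =>
    ((A t).le_opNorm _).trans (mul_le_mul (A.norm_coe_le_norm t) (y.norm_coe_le_norm t)
      (norm_nonneg _) (norm_nonneg A))).trans ?_
  rw [sub_zero, abs_of_nonneg (cl0 x), mul_comm, mul_assoc]
  exact mul_le_mul_of_nonneg_right (cl1 x) (by positivity)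

noncomputable def K0 (b : ℝ) (A : ℝ →ᵇ (E →L[ℂ] E)) (y : ℝ →ᵇ E) : ℝ →ᵇ E :=
  ofNormedAddCommGroup (fun x => ∫ t in (0 : ℝ)..cl b x, A t (y t))
    ((intervalIntegral.continuous_primitive (fun _ _ => (cAy A y).intervalIntegrable _ _) 0).comp
      cl_c) _ (Kb A y)

omit [CompleteSpace E] in
lemma K0_ap (A : ℝ →ᵇ (E →L[ℂ] E)) (y : ℝ →ᵇ E) (x : ℝ) :
    K0 b A y x = ∫ t in (0 : ℝ)..cl b x, A t (y t) := rfl

noncomputable def K (b : ℝ) : (ℝ →ᵇ (E →L[ℂ] E)) →L[ℂ] (ℝ →ᵇ E) →L[ℂ] (ℝ →ᵇ E) :=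
  LinearMap.mkContinuous₂ (LinearMap.mk₂ ℂ (K0 (E := E) b)
    (fun A B y => BoundedContinuousFunction.ext fun _ => by
      simpa [K0_ap] using intervalIntegral.integral_add
        ((cAy A y).intervalIntegrable _ _) ((cAy B y).intervalIntegrable _ _))
    (fun c A y => BoundedContinuousFunction.ext fun _ => by simp [K0_ap])
    (fun A y z => BoundedContinuousFunction.ext fun _ => by
      simpa [K0_ap] using intervalIntegral.integral_add
        ((cAy A y).intervalIntegrable _ _) ((cAy A z).intervalIntegrable _ _))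
    (fun c A y => BoundedContinuousFunction.ext fun _ => by simp [K0_ap])) |b|
    fun A y => (norm_le (by positivity)).2 (Kb A y)

omit [CompleteSpace E] in
lemma K_ap (A : ℝ →ᵇ (E →L[ℂ] E)) (y : ℝ →ᵇ E) (x : ℝ) :
    K b A y x = ∫ t in (0 : ℝ)..cl b x, A t (y t) := rfl

omit [CompleteSpace E] in
lemma Kn (A : ℝ →ᵇ (E →L[ℂ] E)) (y : ℝ →ᵇ E) (n : ℕ) :
    ∀ x, ‖(K b A ^ n) y x‖ ≤ ‖y‖ * ((‖A‖ * cl b x) ^ n / n.factorial) := by
  induction n with
  | zero => simpa using y.norm_coe_le_norm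
  | succ n ih =>
    intro x
    rw [pow_succ', mul_apply_eq_comp, K_ap]
    refine (intervalIntegral.norm_integral_le_of_norm_le (cl0 x)
      (g := fun t => ‖A‖ * (‖y‖ * (‖A‖ ^ n / n.factorial)) * t ^ n) (Eventually.of_forall
      fun t ht => ?_) (Continuous.intervalIntegrable (by fun_prop) _ _)).trans_eq ?_
    · refine ((A t).le_opNorm _).trans ((mul_le_mul (A.norm_coe_le_norm t) (ih t)
        (norm_nonneg _) (norm_nonneg _)).trans_eq ?_)
      rw [cl_le ht.1.le ht.2]; ring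
    · rw [intervalIntegral.integral_const_mul, integral_pow, Nat.factorial_succ]
      push_cast
      field_simp
      ring

lemma unit (A : ℝ →ᵇ (E →L[ℂ] E)) : IsUnit (1 - K b A) := by
  obtain ⟨n, hn⟩ := ((FloorSemiring.tendsto_pow_div_factorial_atTop (‖A‖ * |b|)).eventually
    (gt_mem_nhds one_pos)).exists
  have h : ‖K b A ^ n‖ < 1 := lt_of_le_of_lt (ContinuousLinearMap.opNorm_le_bound _ (by positivity)
    fun y => (norm_le (by positivity)).2 fun x => (Kn A y n x).trans (by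
      rw [mul_comm]; have := cl0 (b := b) x; gcongr; exact cl1 x)) hn
  have := isUnit_one_sub_of_norm_lt_one h
  rw [← mul_neg_geom_sum] at this
  exact ((Commute.isUnit_mul_iff (Commute.sum_right _ _ _ fun i _ =>
    ((Commute.one_left _).sub_left (Commute.refl _)).pow_right i)).1 this).1

noncomputable def sol (b : ℝ) (A : ℝ →ᵇ (E →L[ℂ] E)) (v : E) : ℝ →ᵇ E :=
  Ring.inverse (1 - K b A) (const ℝ v)

lemma sol_eq (A : ℝ →ᵇ (E →L[ℂ] E)) (v : E) (x : ℝ) :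
    sol b A v x = v + ∫ t in (0 : ℝ)..cl b x, A t (sol b A v t) := by
  have := DFunLike.congr_fun (DFunLike.congr_fun (Ring.mul_inverse_cancel _ (unit (b := b) A))
    (const ℝ v)) x
  exact eq_add_of_sub_eq this

/-- solutions of `y' = A y` on `[0, b]` -/
def Sol (b : ℝ) (A : ℝ → E → E) (y : ℝ → E) : Prop :=
  ∀ x ∈ Icc 0 b, HasDerivWithinAt y (A x (y x)) (Icc 0 b) x

lemma sol_Sol (A : ℝ →ᵇ (E →L[ℂ] E)) (v : E) : Sol b (fun x => A x) (sol b A v) := fun x _ =>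
  ((((cAy A (sol b A v)).integral_hasStrictDerivAt 0 x).hasDerivAt.const_add v).hasDerivWithinAt).congr
    (fun t ht => by rw [sol_eq, cl_eq ht]) (by rw [sol_eq, cl_eq ‹_›])

lemma sol0 (hb : 0 ≤ b) (A : ℝ →ᵇ (E →L[ℂ] E)) (v : E) : sol b A v 0 = v := by
  rw [sol_eq, cl_eq ⟨le_rfl, hb⟩]; simp

lemma uniq (hb : 0 ≤ b) (A : ℝ →ᵇ (E →L[ℂ] E)) {y : ℝ → E} (h : Sol b (fun x => A x) y) :
    y b = sol b A (y 0) b := by
  refine ODE_solution_unique (K := ‖A‖₊) (v := fun x => A x) (a := 0) (b := b) (fun t => ?_)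
    (fun x hx => (h x hx).continuousWithinAt) (fun x hx => ?_)
    (sol b A (y 0)).continuous.continuousOn (fun x hx => ?_) (sol0 hb A _).symm ⟨hb, le_rfl⟩
  · exact (A t).lipschitz.weaken (A.nnnorm_coe_le_nnnorm t)
  · exact (h x (Ico_subset_Icc_self hx)).mono_of_mem_nhdsWithin (Icc_mem_nhdsGE_of_mem hx)
  · exact (sol_Sol A _ x (Ico_subset_Icc_self hx)).mono_of_mem_nhdsWithin (Icc_mem_nhdsGE_of_mem hx)

noncomputable def cst : E →L[ℂ] (ℝ →ᵇ E) :=
  LinearMap.mkContinuous ⟨⟨const ℝ, fun _ _ => rfl⟩, fun _ _ => rfl⟩ 1 fun v => by simp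

/-- the monodromy operator -/
noncomputable def T (b : ℝ) (A : ℝ →ᵇ (E →L[ℂ] E)) : E →L[ℂ] E :=
  (evalCLM ℂ b).comp ((Ring.inverse (1 - K b A)).comp cst)

omit [CompleteSpace E] in
lemma T_ap (A : ℝ →ᵇ (E →L[ℂ] E)) (v : E) : T b A v = sol b A v b := rfl

lemma T_an (A : ℝ →ᵇ (E →L[ℂ] E)) : AnalyticAt ℂ (T b) A := by
  have h : AnalyticAt ℂ (fun A : ℝ →ᵇ (E →L[ℂ] E) => Ring.inverse (1 - K b A)) A :=
    (analyticAt_inverse (𝕜 := ℂ) (unit (b := b) A).unit).comp_of_eq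
      (analyticAt_const.sub (ContinuousLinearMap.analyticAt (𝕜 := ℂ) (E := ℝ →ᵇ (E →L[ℂ] E))
        (F := (ℝ →ᵇ E) →L[ℂ] (ℝ →ᵇ E)) (K b) A)) rfl
  exact ((ContinuousLinearMap.compL ℂ E (ℝ →ᵇ E) E (evalCLM ℂ b)).comp
    ((ContinuousLinearMap.compL ℂ E (ℝ →ᵇ E) (ℝ →ᵇ E)).flip cst)).analyticAt _ |>.comp h

end Pool.Agent.Lib.helper15.Vol
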