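import Mathlib
import Pool.Agent.Lib.helper15.Vol1

open Set Filter Topology BoundedContinuousFunction Complex

namespace Pool.Agent.Lib.helper15.Vol

noncomputable def sm {E : Type} [NormedAddCommGroup E] [NormedSpace ℂ E] (B : E →L[ℂ] E) :
    (ℝ →ᵇ ℂ) →L[ℂ] (ℝ →ᵇ (E →L[ℂ] E)) :=
  ((ContinuousLinearMap.id ℂ ℂ).smulRight B).compLeftContinuousBounded ℝ

lemma sm_ap {E : Type} [NormedAddCommGroup E] [NormedSpace ℂ E] (B : E →L[ℂ] E) (f : ℝ →ᵇ ℂ)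
    (x : ℝ) : sm B f x = f x • B := rfl

noncomputable def A2 (f : ℝ →ᵇ ℂ) : ℝ →ᵇ (ℂ × ℂ →L[ℂ] ℂ × ℂ) :=
  const ℝ ((ContinuousLinearMap.snd ℂ ℂ ℂ).prod 0) +
    sm ((0 : ℂ × ℂ →L[ℂ] ℂ).prod (ContinuousLinearMap.fst ℂ ℂ ℂ)) f

lemma A2_ap (f : ℝ →ᵇ ℂ) (x : ℝ) (y : ℂ × ℂ) : A2 f x y = (y.2, f x * y.1) := by
  simp [A2, sm_ap]

noncomputable def Th (f : ℝ →ᵇ ℂ) : ℂ × ℂ →L[ℂ] ℂ × ℂ := T (2 * Real.pi) (A2 f)

lemma Th_an (f : ℝ →ᵇ ℂ) : AnalyticAt ℂ Th f :=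
  (T_an (A2 f)).comp (analyticAt_const.add (ContinuousLinearMap.analyticAt (𝕜 := ℂ) (E := ℝ →ᵇ ℂ)
    (F := ℝ →ᵇ (ℂ × ℂ →L[ℂ] ℂ × ℂ)) (sm _) f))

noncomputable def Δ (f : ℝ →ᵇ ℂ) : ℂ := (Th f (1, 0)).1 + (Th f (0, 1)).2

lemma ap_an (v : ℂ × ℂ) (f : ℝ →ᵇ ℂ) : AnalyticAt ℂ (fun f => Th f v) f :=
  ((ContinuousLinearMap.apply ℂ (ℂ × ℂ) v).analyticAt _).comp (Th_an f)

lemma Δ_an (f : ℝ →ᵇ ℂ) : AnalyticAt ℂ Δ f :=
  (analyticAt_fst.comp (ap_an _ f)).add (analyticAt_snd.comp (ap_an _ f))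

lemma b0 : 0 ≤ 2 * Real.pi := by positivity

lemma solH (f : ℝ →ᵇ ℂ) (v : ℂ × ℂ) {x : ℝ} (hx : x ∈ Icc 0 (2 * Real.pi)) :
    HasDerivWithinAt (fun x => (sol (2 * Real.pi) (A2 f) v x).1) (sol (2 * Real.pi) (A2 f) v x).2
      (Icc 0 (2 * Real.pi)) x ∧
    HasDerivWithinAt (fun x => (sol (2 * Real.pi) (A2 f) v x).2)
      (f x * (sol (2 * Real.pi) (A2 f) v x).1) (Icc 0 (2 * Real.pi)) x := by
  have h := sol_Sol (A2 f) v x hx
  simp only [A2_ap] at h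
  exact ⟨(ContinuousLinearMap.fst ℝ ℂ ℂ).hasFDerivAt.comp_hasDerivWithinAt x h,
    (ContinuousLinearMap.snd ℝ ℂ ℂ).hasFDerivAt.comp_hasDerivWithinAt x h⟩

lemma det (f : ℝ →ᵇ ℂ) : (Th f (1, 0)).1 * (Th f (0, 1)).2 - (Th f (1, 0)).2 * (Th f (0, 1)).1 = 1 := by
  have h := fun x hx => ((solH f (1, 0) (x := x) hx).1.mul (solH f (0, 1) hx).2).sub
    ((solH f (1, 0) hx).2.mul (solH f (0, 1) hx).1)
  have := constant_of_has_deriv_right_zero (fun x hx => (h x hx).continuousWithinAt) (fun x hx => by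
    convert (h x (Ico_subset_Icc_self hx)).mono_of_mem_nhdsWithin (Icc_mem_nhdsGE_of_mem hx) using 1
    ring) _ ⟨b0, le_rfl⟩
  simpa [sol0 b0, Th, T_ap] using this

lemma lin (f : ℝ →ᵇ ℂ) (v : ℂ × ℂ) : Th f v = v.1 • Th f (1, 0) + v.2 • Th f (0, 1) := by
  rw [← map_smul, ← map_smul, ← map_add]; simp

lemma eig {f : ℝ →ᵇ ℂ} {u u' : ℝ → ℂ} (h1 : ∀ x, HasDerivAt u (u' x) x)
    (h2 : ∀ x, HasDerivAt u' (f x * u x) x) (h0 : u 0 ≠ 0 ∨ u' 0 ≠ 0) {ρ : ℂ}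
    (e1 : u (2 * Real.pi) = ρ * u 0) (e2 : u' (2 * Real.pi) = ρ * u' 0) :
    ρ ^ 2 - Δ f * ρ + 1 = 0 := by
  have := uniq b0 (A2 f) (y := fun x => (u x, u' x)) fun x _ => by
    simp only [A2_ap]; exact ((h1 x).prodMk (h2 x)).hasDerivWithinAt
  rw [← T_ap, ← Th, lin] at this
  have a1 := congrArg Prod.fst this
  have a2 := congrArg Prod.snd this
  simp only [e1, e2, Prod.fst_add, Prod.snd_add, Prod.smul_fst, Prod.smul_snd, smul_eq_mul] at a1 a2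
  have d := det f
  rw [Δ]
  rcases h0 with h | h <;> refine mul_left_cancel₀ h ?_
  · linear_combination (ρ - (Th f (0, 1)).2) * a1 + (Th f (0, 1)).1 * a2 - u 0 * d
  · linear_combination (ρ - (Th f (1, 0)).1) * a2 + (Th f (1, 0)).2 * a1 - u' 0 * d

lemma real {f : ℝ →ᵇ ℂ} (hf : ∀ x, star (f x) = f x) : (Δ f).im = 0 := by
  have h : ∀ v, star v = v → star (Th f v) = Th f v := fun v hv => by
    have := uniq b0 (A2 f) (y := fun x => star (sol (2 * Real.pi) (A2 f) v x)) fun x hx => by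
      convert (sol_Sol (A2 f) v x hx).star using 1
      simp only [A2_ap]
      refine Prod.ext rfl ?_
      simp only [Prod.snd_star, Prod.fst_star, star_mul', hf]
    rwa [sol0 b0, hv] at this
  have a1 := congrArg Prod.fst (h (1, 0) (by ext <;> simp))
  have a2 := congrArg Prod.snd (h (0, 1) (by ext <;> simp))
  rw [Δ, add_im, conj_eq_iff_im.1 a1, conj_eq_iff_im.1 a2, add_zero]

noncomputable def Cs : ℝ →ᵇ ℂ := ofNormedAddCommGroup (fun x => cos x) (by fun_prop) 1 fun x => by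
  rw [← ofReal_cos, norm_real]; exact Real.abs_cos_le_one x
noncomputable def Sn : ℝ →ᵇ ℂ := ofNormedAddCommGroup (fun x => sin x) (by fun_prop) 1 fun x => by
  rw [← ofReal_sin, norm_real]; exact Real.abs_sin_le_one x

noncomputable def ff (a μ : ℂ) : ℝ →ᵇ ℂ := μ • 1 - (2 * a) • Cs + a ^ 2 • (Sn * Sn)

lemma ff_ap (a μ : ℂ) (x : ℝ) : ff a μ x = μ - 2 * a * cos x + a ^ 2 * (sin x * sin x) := by
  simp [ff, Cs, Sn]

lemma anti (a σ : ℂ) {g g' : ℂ → ℂ} (h1 : ∀ x, HasDerivAt g (g' x) x)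
    (h2 : ∀ x, HasDerivAt g' (-g x / 4) x) (h3 : ∀ x, -2 * sin x * g' x = (σ - cos x) * g x)
    (h0 : g 0 ≠ 0 ∨ g' 0 ≠ 0) (e1 : g (2 * Real.pi) = -g 0) (e2 : g' (2 * Real.pi) = -g' 0) :
    Δ (ff a (-1 / 4 + σ * a)) = -2 := by
  have he : ∀ x, HasDerivAt (fun x => exp (a * cos x)) (exp (a * cos x) * (a * -sin x)) x :=
    fun x => ((hasDerivAt_cos x).const_mul a).cexp
  have := eig (f := ff a (-1 / 4 + σ * a)) (u := fun x => g x * exp (a * cos x))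
    (u' := fun x => (g' x - a * sin x * g x) * exp (a * cos x)) (ρ := -1)
    (fun x => ((h1 x).fun_mul (he x)).comp_ofReal.congr_deriv (by ring))
    (fun x => (((h2 x).fun_sub (((hasDerivAt_sin x).const_mul a).fun_mul (h1 x))).fun_mul
      (he x)).comp_ofReal.congr_deriv (by
        rw [ff_ap]; linear_combination (a * exp (a * cos x)) * h3 x))
    (by simpa using h0) (by simp [e1]) (by simp [e2])
  linear_combination this

lemma antiC (a : ℂ) : Δ (ff a (-1 / 4 + 1 * a)) = -2 :=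
  anti a 1 (g := fun x => cos (x / 2)) (g' := fun x => -sin (x / 2) / 2)
    (fun x => ((hasDerivAt_id' x).div_const 2).ccos.congr_deriv (by ring))
    (fun x => ((((hasDerivAt_id' x).div_const 2).csin.fun_neg).div_const 2).congr_deriv (by ring))
    (fun x => by
      have h1 := sin_two_mul (x / 2)
      have h2 := cos_two_mul (x / 2)
      rw [mul_div_cancel₀ _ two_ne_zero] at h1 h2
      rw [h1, h2]
      linear_combination (2 * cos (x / 2)) * sin_sq_add_cos_sq (x / 2))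
    (by simp) (by simp) (by simp)

lemma antiS (a : ℂ) : Δ (ff a (-1 / 4 + -1 * a)) = -2 :=
  anti a (-1) (g := fun x => sin (x / 2)) (g' := fun x => cos (x / 2) / 2)
    (fun x => ((hasDerivAt_id' x).div_const 2).csin.congr_deriv (by ring))
    (fun x => ((((hasDerivAt_id' x).div_const 2).ccos).div_const 2).congr_deriv (by ring))
    (fun x => by
      have h1 := sin_two_mul (x / 2)
      have h2 := cos_two_mul (x / 2)
      rw [mul_div_cancel₀ _ two_ne_zero] at h1 h2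
      rw [h1, h2]
      ring)
    (by simp) (by simp) (by simp; ring)

lemma free (κ : ℂ) : exp (κ * (2 * Real.pi)) ^ 2 - Δ (ff 0 (κ ^ 2)) * exp (κ * (2 * Real.pi)) + 1 = 0 :=
  eig (u := fun x => exp (κ * x)) (u' := fun x => κ * exp (κ * x))
    (fun x => ((hasDerivAt_id' (x : ℂ)).const_mul κ).cexp.comp_ofReal.congr_deriv (by ring))
    (fun x => (((hasDerivAt_id' (x : ℂ)).const_mul κ).cexp.const_mul κ).comp_ofReal.congr_deriv
      (by rw [ff_ap]; ring)) (by simp) (by simp) (by simp; ring)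

lemma F_c : Continuous fun p : ℂ × ℂ => Δ (ff p.1 p.2) :=
  (continuous_iff_continuousAt.2 fun f => (Δ_an f).continuousAt).comp (by unfold ff; fun_prop)

lemma F_an (a μ : ℂ) : AnalyticAt ℂ (fun μ => ff a μ) μ := by unfold ff; fun_prop

attribute [irreducible] Δ ff

lemma crit : ∃ a μ : ℝ, deriv (fun m => Δ (ff a m)) μ = 0 ∧ Δ (ff a μ) ≠ 2 ∧ Δ (ff a μ) ≠ -2 ∧
    Δ (ff a (μ + 3 / 4)) ≠ Δ (ff a (μ - 3 / 4)) := by
  have h1 : Δ (ff 0 (-1 / 4)) ≠ 2 := by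
    have := antiC 0
    rw [mul_zero, add_zero] at this; rw [this]; norm_num
  have h2 : Δ (ff 0 (-1 / 4 + 3 / 4)) ≠ Δ (ff 0 (-1 / 4 - 3 / 4)) := by
    have a1 := free I
    have a2 := free (√(1 / 2) : ℝ)
    rw [mul_comm I, exp_two_pi_mul_I, I_sq] at a1
    rw [← ofReal_pow, Real.sq_sqrt (by norm_num)] at a2
    rw [show (-1 / 4 + 3 / 4 : ℂ) = (1 / 2 : ℝ) by push_cast; ring,
      show (-1 / 4 - 3 / 4 : ℂ) = -1 by ring]
    intro e
    have : (exp ((√(1 / 2) : ℝ) * (2 * Real.pi)) - 1) ^ 2 = 0 := by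
      linear_combination a2 + exp ((√(1 / 2) : ℝ) * (2 * Real.pi)) * (e - a1)
    have := sub_eq_zero.1 (pow_eq_zero_iff two_ne_zero |>.1 this)
    have : Real.exp (√(1 / 2) * (2 * Real.pi)) = 1 := by exact_mod_cast this
    exact absurd (Real.exp_eq_one_iff _ |>.1 this) (by positivity)
  have c1 : Continuous fun p : ℂ × ℂ => Δ (ff p.1 (p.2 + 3 / 4)) :=
    F_c.comp (f := fun p : ℂ × ℂ => (p.1, p.2 + 3 / 4)) (by fun_prop)
  have c2 : Continuous fun p : ℂ × ℂ => Δ (ff p.1 (p.2 - 3 / 4)) :=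
    F_c.comp (f := fun p : ℂ × ℂ => (p.1, p.2 - 3 / 4)) (by fun_prop)
  have ev : ∀ᶠ p : ℂ × ℂ in 𝓝 (0, -1 / 4), Δ (ff p.1 p.2) ≠ 2 ∧
      Δ (ff p.1 (p.2 + 3 / 4)) ≠ Δ (ff p.1 (p.2 - 3 / 4)) :=
    (F_c.continuousAt.eventually_ne h1).and
      ((isOpen_ne_fun c1 c2).mem_nhds h2)
  obtain ⟨δ, δ0, hδ⟩ := Metric.eventually_nhds_iff.1 ev
  set a := δ / 2 with ha
  have a0 : 0 < a := by positivity
  have hI : ∀ m ∈ Icc (-1 / 4 - a) (-1 / 4 + a), Δ (ff a (m : ℝ)) ≠ 2 ∧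
      Δ (ff a ((m : ℝ) + 3 / 4)) ≠ Δ (ff a ((m : ℝ) - 3 / 4)) := fun m hm =>
    hδ (y := (a, m)) (by
      rw [Prod.dist_eq, max_lt_iff, dist_zero_right, norm_real, Real.norm_eq_abs, abs_of_pos a0,
        dist_eq_norm, show ((m : ℂ) - -1 / 4) = (m + 1 / 4 : ℝ) by push_cast; ring, norm_real,
        Real.norm_eq_abs, abs_lt]
      refine ⟨by linarith, by linarith [hm.1], by linarith [hm.2]⟩)
  set D : ℂ → ℂ := fun m => Δ (ff a m) with hD
  have Dan : ∀ m, AnalyticAt ℂ D m := fun m => (Δ_an _).comp (F_an a m)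
  have Dim : ∀ m : ℝ, (D m).im = 0 := fun m => real fun x => by
    simp [ff_ap, ← ofReal_cos, ← ofReal_sin]
  have Dd : ∀ m : ℝ, HasDerivAt (fun x : ℝ => D x) (deriv D m) m := fun m =>
    (Dan m).differentiableAt.hasDerivAt.comp_ofReal
  have Dr : ∀ m : ℝ, HasDerivAt (fun x : ℝ => ((D x).re + 2) ^ 2)
      (2 * ((D m).re + 2) * (deriv D m).re) m := fun m =>
    (((reCLM.hasFDerivAt.comp_hasDerivAt m (Dd m)).add_const 2).fun_pow 2).congr_deriv (by simp)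
  obtain ⟨μ, hμ, hmax⟩ := isCompact_Icc.exists_isMaxOn
    (nonempty_Icc.2 (show -1 / 4 - a ≤ -1 / 4 + a by linarith))
    fun m _ => (Dr m).continuousAt.continuousWithinAt
  have n2 : (D μ).re + 2 ≠ 0 := fun e => by
    have z : ∀ m ∈ Icc (-1 / 4 - a) (-1 / 4 + a), D m = -2 := fun m hm => by
      have := hmax hm
      simp only [mem_ofPred_eq, e] at this
      exact Complex.ext (by simp; nlinarith) (by simpa using Dim m)
    have t : Tendsto (fun x : ℝ => (x : ℂ)) (𝓝[≠] (-1 / 4)) (𝓝[≠] ((-1 / 4 : ℝ) : ℂ)) :=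
      continuous_ofReal.continuousWithinAt.tendsto_nhdsWithin fun x hx => ofReal_injective.ne hx
    have := AnalyticOnNhd.eq_of_frequently_eq (f := D) (g := fun _ => -2) (fun m _ => Dan m)
      analyticOnNhd_const (t.frequently (Eventually.frequently (mem_nhdsWithin_of_mem_nhds
        (mem_of_superset (Icc_mem_nhds (by linarith) (by linarith)) z))))
    exact (hI μ hμ).2 ((congrFun this _).trans (congrFun this _).symm)
  have e1 : D (-1 / 4 + a : ℝ) = -2 := by rw [← antiC a]; push_cast; simp [hD]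
  have e2 : D (-1 / 4 - a : ℝ) = -2 := by rw [← antiS a]; push_cast; simp [hD, sub_eq_add_neg]
  have hl : IsLocalMax (fun x : ℝ => ((D x).re + 2) ^ 2) μ := hmax.isLocalMax (Icc_mem_nhds
    (hμ.1.lt_of_ne fun e => n2 (by rw [← e, e2]; simp)) (hμ.2.lt_of_ne fun e => n2 (by rw [e, e1]; simp)))
  refine ⟨a, μ, Complex.ext ?_ ?_, (hI μ hμ).1, fun e => n2 (by simp [hD, e]), (hI μ hμ).2⟩
  · exact (mul_eq_zero.1 (hl.hasDerivAt_eq_zero (Dr μ))).resolve_left (mul_ne_zero two_ne_zero n2)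
  · have := imCLM.hasFDerivAt.comp_hasDerivAt μ (Dd μ)
    rw [show (imCLM ∘ fun x : ℝ => D x) = fun _ => 0 from funext Dim] at this
    exact this.unique (hasDerivAt_const _ _)

end Pool.Agent.Lib.helper15.Vol
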