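import Mathlib

open Finset

namespace Pool.Agent.Lib.helper15.Wild

noncomputable def nm (D : ℕ) (a : ℕ → ℂ) : ℝ := ∑ k ∈ range D, ‖a k‖
noncomputable def cv (a b : ℕ → ℂ) (k : ℕ) : ℂ := ∑ u ∈ range (k + 1), a u * b (k - u)
noncomputable def cvn (a b : ℕ → ℂ) (k : ℕ) : ℝ := ∑ u ∈ range (k + 1), ‖a u‖ * ‖b (k - u)‖

lemma nm_nonneg (D : ℕ) (a : ℕ → ℂ) : 0 ≤ nm D a := sum_nonneg fun _ _ => norm_nonneg _

lemma le_nm {D k : ℕ} (hk : k < D) (a : ℕ → ℂ) : ‖a k‖ ≤ nm D a :=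
  single_le_sum (f := fun k => ‖a k‖) (fun _ _ => norm_nonneg _) (mem_range.2 hk)

lemma cv_le (a b : ℕ → ℂ) (k : ℕ) : ‖cv a b k‖ ≤ cvn a b k :=
  (norm_sum_le _ _).trans (le_of_eq (sum_congr rfl fun _ _ => norm_mul _ _))

lemma cvn_nonneg (a b : ℕ → ℂ) (k : ℕ) : 0 ≤ cvn a b k := sum_nonneg fun _ _ => by positivity

lemma sum_cvn_le (D : ℕ) (a b : ℕ → ℂ) : ∑ k ∈ range D, cvn a b k ≤ nm D a * nm D b := by
  unfold cvn nm
  rw [Finset.sum_range_diag_flip D (fun u v => ‖a u‖ * ‖b v‖), sum_mul]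
  refine sum_le_sum fun u _ => ?_
  rw [← mul_sum]
  exact mul_le_mul_of_nonneg_left (sum_le_sum_of_subset_of_nonneg
    (range_subset_range.2 (Nat.sub_le _ _)) fun _ _ _ => norm_nonneg _) (norm_nonneg _)

lemma nm_cv_le (D : ℕ) (a b : ℕ → ℂ) : nm D (cv a b) ≤ nm D a * nm D b :=
  (sum_le_sum fun k _ => cv_le a b k).trans (sum_cvn_le D a b)

lemma cv_ge (a b : ℕ → ℂ) (i j : ℕ) :
    2 * (‖a i‖ * ‖b j‖) - cvn a b (i + j) ≤ ‖cv a b (i + j)‖ := by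
  have hi : i ∈ range (i + j + 1) := mem_range.2 (by omega)
  unfold cv cvn
  rw [← add_sum_erase _ _ hi, ← add_sum_erase _ _ hi, Nat.add_sub_cancel_left]
  have h1 : ‖∑ u ∈ (range (i + j + 1)).erase i, a u * b (i + j - u)‖ ≤
      ∑ u ∈ (range (i + j + 1)).erase i, ‖a u‖ * ‖b (i + j - u)‖ :=
    (norm_sum_le _ _).trans (le_of_eq (sum_congr rfl fun _ _ => norm_mul _ _))
  have h2 := norm_sub_le (a i * b j + ∑ u ∈ (range (i + j + 1)).erase i, a u * b (i + j - u))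
    (∑ u ∈ (range (i + j + 1)).erase i, a u * b (i + j - u))
  rw [add_sub_cancel_right, norm_mul] at h2
  linarith

lemma nm_le_add (D : ℕ) (r c : ℕ → ℂ) : nm D r ≤ nm D c + nm D (r - c) := by
  unfold nm
  rw [← sum_add_distrib]
  refine sum_le_sum fun k _ => ?_
  have := norm_add_le (c k) (r k - c k)
  simpa using this

lemma dom_mul {D i j : ℕ} (hij : i + j < D) {a b r : ℕ → ℂ} (ha : nm D a ≤ 11 / 10 * ‖a i‖)
    (hb : nm D b ≤ 11 / 10 * ‖b j‖) (hr : nm D (r - cv a b) < ‖a i‖ * ‖b j‖ / 10) :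
    nm D r < 2 * ‖r (i + j)‖ := by
  have h1 : nm D a * nm D b ≤ 121 / 100 * (‖a i‖ * ‖b j‖) := by
    have := mul_le_mul ha hb (nm_nonneg _ _) (by positivity)
    linarith
  have h2 := nm_cv_le D a b
  have h3 := cv_ge a b i j
  have h4 : cvn a b (i + j) ≤ ∑ k ∈ range D, cvn a b k :=
    single_le_sum (f := fun k => cvn a b k) (fun _ _ => cvn_nonneg _ _ _) (mem_range.2 hij)
  have h5 := sum_cvn_le D a b
  have h6 := nm_le_add D r (cv a b)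
  have h7 := le_nm hij (r - cv a b)
  have h8 := norm_sub_le (r (i + j)) (r (i + j) - cv a b (i + j))
  rw [sub_sub_cancel] at h8
  have h9 := nm_nonneg D (r - cv a b)
  simp only [Pi.sub_apply] at h7
  linarith

lemma dom_uniq {D k l : ℕ} (hk : k < D) (hl : l < D) {r : ℕ → ℂ} (h1 : nm D r < 2 * ‖r k‖)
    (h2 : nm D r < 2 * ‖r l‖) : k = l := by
  by_contra h
  have : ∑ x ∈ ({k, l} : Finset ℕ), ‖r x‖ ≤ nm D r :=
    sum_le_sum_of_subset_of_nonneg (by simp [subset_iff, hk, hl]) fun _ _ _ => norm_nonneg _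
  rw [sum_pair h] at this
  linarith

noncomputable def sc (ρ : ℝ) (a : ℕ → ℂ) (k : ℕ) : ℂ := a k * (ρ : ℂ) ^ k

lemma norm_sc {ρ : ℝ} (h : 0 ≤ ρ) (a : ℕ → ℂ) (k : ℕ) : ‖sc ρ a k‖ = ‖a k‖ * ρ ^ k := by
  simp [sc, abs_of_nonneg h]

lemma cv_sc (ρ : ℝ) (a b : ℕ → ℂ) : cv (sc ρ a) (sc ρ b) = sc ρ (cv a b) := by
  funext k
  simp only [cv, sc, sum_mul]
  refine sum_congr rfl fun u hu => ?_
  have : (ρ : ℂ) ^ k = ρ ^ u * ρ ^ (k - u) := by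
    rw [← pow_add]; congr 1; have := mem_range.1 hu; omega
  rw [this]; ring

lemma dom_of {D i m1 m2 : ℕ} {θ : ℝ} (h0 : 0 < θ) (hθ : D * θ ≤ 1 / 10) (hi : i < D)
    (hm : m1 + 2 ≤ m2) (a : ℕ → ℂ)
    (h1 : ∀ k < D, ‖a k‖ * (θ ^ m1) ^ k ≤ ‖a i‖ * (θ ^ m1) ^ i)
    (h2 : ∀ k < D, ‖a k‖ * (θ ^ m2) ^ k ≤ ‖a i‖ * (θ ^ m2) ^ i) :
    nm D (sc (θ ^ (m1 + 1)) a) ≤ 11 / 10 * ‖sc (θ ^ (m1 + 1)) a i‖ := by
  have hD : (1 : ℝ) ≤ D := by exact_mod_cast (by omega : 1 ≤ D)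
  have hθ1 : θ ≤ 1 := by nlinarith
  have key : ∀ k ∈ (range D).erase i,
      ‖sc (θ ^ (m1 + 1)) a k‖ ≤ θ * ‖sc (θ ^ (m1 + 1)) a i‖ := by
    intro k hk
    obtain ⟨hki, hk'⟩ := mem_erase.1 hk
    clear hk
    rw [norm_sc (by positivity), norm_sc (by positivity)]
    rcases lt_or_gt_of_ne hki with h | h
    · obtain ⟨d, rfl⟩ := Nat.exists_eq_add_of_lt h
      obtain ⟨e, rfl⟩ := Nat.exists_eq_add_of_le hm
      have h3 := h2 k (mem_range.1 hk')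
      have e1 : (θ ^ (m1 + 2 + e)) ^ k = (θ ^ (m1 + 1)) ^ k * θ ^ ((e + 1) * k) := by ring
      have e2 : (θ ^ (m1 + 2 + e)) ^ (k + d + 1) = (θ * (θ ^ (m1 + 1)) ^ (k + d + 1) *
          θ ^ (e * d + e + d)) * θ ^ ((e + 1) * k) := by ring
      rw [e1, e2, ← mul_assoc, ← mul_assoc] at h3
      have h4 := le_of_mul_le_mul_right h3 (by positivity)
      have h5 : θ ^ (e * d + e + d) ≤ 1 := pow_le_one₀ h0.le hθ1
      have h6 : 0 ≤ ‖a (k + d + 1)‖ * (θ * (θ ^ (m1 + 1)) ^ (k + d + 1)) := by positivity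
      nlinarith
    · obtain ⟨d, rfl⟩ := Nat.exists_eq_add_of_lt h
      have h3 := mul_le_mul_of_nonneg_right (h1 _ (mem_range.1 hk'))
        (by positivity : 0 ≤ θ ^ (i + d + 1))
      have h5 : θ ^ d ≤ 1 := pow_le_one₀ h0.le hθ1
      have h6 : 0 ≤ θ * (‖a i‖ * (θ ^ (m1 + 1)) ^ i) := by positivity
      calc _ = ‖a (i + d + 1)‖ * (θ ^ m1) ^ (i + d + 1) * θ ^ (i + d + 1) := by ring
        _ ≤ _ := h3
        _ = θ * (‖a i‖ * (θ ^ (m1 + 1)) ^ i) * θ ^ d := by ring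
        _ ≤ _ := by nlinarith
  unfold nm
  rw [← add_sum_erase _ _ (mem_range.2 hi)]
  have h3 := sum_le_card_nsmul _ _ _ key
  have h4 : (((range D).erase i).card : ℝ) ≤ D := by
    exact_mod_cast (card_erase_le.trans (card_range D).le)
  rw [nsmul_eq_mul] at h3
  have h5 := norm_nonneg (sc (θ ^ (m1 + 1)) a i)
  have h6 : (((range D).erase i).card : ℝ) * θ ≤ 1 / 10 := by nlinarith
  nlinarith

lemma exists_dom {D : ℕ} (hD : 0 < D) {θ : ℝ} (h0 : 0 < θ) (hθ : D * θ ≤ 1 / 10)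
    (p : Fin (D + 1) → ℕ → ℂ) : ∃ m : ℕ, 1 ≤ m ∧ m ≤ 2 * D ^ (D + 1) ∧ ∃ w : Fin (D + 1) → ℕ,
      ∀ j, w j < D ∧ nm D (sc (θ ^ m) (p j)) ≤ 11 / 10 * ‖sc (θ ^ m) (p j) (w j)‖ := by
  have : Nonempty (Fin D) := ⟨⟨0, hD⟩⟩
  have h1 : ∀ (m : Fin (D ^ (D + 1) + 1)) (j : Fin (D + 1)), ∃ i : Fin D, ∀ k : Fin D,
      ‖p j k‖ * (θ ^ (2 * m.1)) ^ k.1 ≤ ‖p j i‖ * (θ ^ (2 * m.1)) ^ i.1 := fun m j =>
    Finite.exists_max fun k : Fin D => ‖p j k‖ * (θ ^ (2 * m.1)) ^ k.1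
  choose f hf using h1
  have key : ∀ x y, x < y → f x = f y → ∃ m : ℕ, 1 ≤ m ∧ m ≤ 2 * D ^ (D + 1) ∧
      ∃ w : Fin (D + 1) → ℕ,
      ∀ j, w j < D ∧ nm D (sc (θ ^ m) (p j)) ≤ 11 / 10 * ‖sc (θ ^ m) (p j) (w j)‖ := by
    intro x y hxy h
    have hxy' : x.1 < y.1 := hxy
    have hy := y.2
    refine ⟨2 * x.1 + 1, by omega, by omega, fun j => f x j, fun j => ⟨(f x j).2, ?_⟩⟩
    refine dom_of (m2 := 2 * y.1) h0 hθ (f x j).2 (by omega) _ (fun k hk => hf x j ⟨k, hk⟩)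
      fun k hk => ?_
    rw [h]; exact hf y j ⟨k, hk⟩
  obtain ⟨x, y, hxy, h⟩ := Fintype.exists_ne_map_eq_of_card_lt f (by simp)
  rcases lt_or_gt_of_ne hxy with h2 | h2
  · exact key x y h2 h
  · exact key y x h2 h.symm

lemma nm_sc_le {D : ℕ} {ρ ε : ℝ} (h0 : 0 ≤ ρ) (h1 : ρ ≤ 1) {a : ℕ → ℂ}
    (h : ∀ k < D, ‖a k‖ ≤ ε) : nm D (sc ρ a) ≤ D * ε := by
  have := sum_le_card_nsmul (range D) (fun k => ‖sc ρ a k‖) ε fun k hk => by
    rw [norm_sc h0]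
    exact (mul_le_of_le_one_right (norm_nonneg _) (pow_le_one₀ h0 h1)).trans (h k (mem_range.1 hk))
  simpa [nm] using this

lemma nm_sc_le' {D : ℕ} {ρ M : ℝ} (h0 : 0 ≤ ρ) (h1 : ρ ≤ 1) (hM : 0 ≤ M) {a : ℕ → ℂ}
    (ha : a 0 = 0) (h : ∀ k < D, ‖a k‖ ≤ M) : nm D (sc ρ a) ≤ D * (ρ * M) := by
  have := sum_le_card_nsmul (range D) (fun k => ‖sc ρ a k‖) (ρ * M) fun k hk => by
    rw [norm_sc h0]
    rcases k with _ | k
    · rw [ha, norm_zero, zero_mul]; positivity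
    · have h2 : ρ ^ (k + 1) ≤ ρ := pow_le_of_le_one h0 h1 (by omega)
      rw [mul_comm]
      exact mul_le_mul h2 (h _ (mem_range.1 hk)) (norm_nonneg _) h0
  simpa [nm] using this

noncomputable def th (D : ℕ) : ℝ := 1 / (10 * D)
noncomputable def tiny (D : ℕ) : ℝ := (th D ^ (2 * D ^ (D + 1))) ^ D

lemma th_pos {D : ℕ} (hD : 0 < D) : 0 < th D := by unfold th; positivity

lemma tiny_pos {D : ℕ} (hD : 0 < D) : 0 < tiny D := pow_pos (pow_pos (th_pos hD) _) _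

theorem core {D k0 : ℕ} (hk : 2 * k0 < D) (p : ℝ → ℕ → ℂ) {M δ ε : ℝ} (hM : 1 ≤ M) (hδ : 0 < δ)
    (hδ1 : δ ≤ 1)
    (h0 : ∀ t ∈ Set.Icc (1 : ℝ) 2, p t 0 = 0)
    (h1 : ∀ t ∈ Set.Icc (1 : ℝ) 2, ∀ k < D, ‖p t k‖ ≤ M)
    (h2 : ∀ s ∈ Set.Icc (1 : ℝ) 2, ∀ t ∈ Set.Icc (1 : ℝ) 2, ∀ k < D,
      ‖p (s + t) k - cv (p s) (p t) k‖ ≤ ε)
    (h3 : 4 * M * δ ≤ ‖p 3 k0‖) (h4 : M * th D < δ) (h5 : 10 * (D * ε) < δ ^ 2 * tiny D) :
    False := by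
  have hD : 0 < D := by omega
  have hD' : (1 : ℝ) ≤ D := by exact_mod_cast hD
  have hθ : D * th D = 1 / 10 := by unfold th; field_simp
  have hθ0 := th_pos hD
  have hθ1 : th D ≤ 1 := by nlinarith
  have hmem : ∀ j : ℕ, j ≤ D → (1 + j / D : ℝ) ∈ Set.Icc (1 : ℝ) 2 := fun j hj => by
    have : (j / D : ℝ) ≤ 1 := div_le_one_of_le₀ (by exact_mod_cast hj) (by positivity)
    have : (0 : ℝ) ≤ j / D := by positivity
    constructor <;> linarith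
  obtain ⟨m, hm1, hm2, w, hw⟩ := exists_dom hD hθ0 hθ.le fun j => p (1 + j.1 / D)
  set ρ := th D ^ m with hρ
  have hρ0 : 0 < ρ := pow_pos hθ0 m
  have hρθ : ρ ≤ th D := pow_le_of_le_one hθ0.le hθ1 (by omega)
  have hρ1 : ρ ≤ 1 := hρθ.trans hθ1
  have hx : 0 < ρ ^ k0 := pow_pos hρ0 _
  have hx1 : ρ ^ k0 ≤ 1 := pow_le_one₀ hρ0.le hρ1
  have ht : tiny D ≤ (ρ ^ k0) ^ 2 := by
    rw [← pow_mul]
    calc tiny D ≤ ρ ^ D := pow_le_pow_left₀ (by positivity)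
          (pow_le_pow_of_le_one hθ0.le hθ1 hm2) D
      _ ≤ _ := pow_le_pow_of_le_one hρ0.le hρ1 (by omega)
  have herr : ∀ s ∈ Set.Icc (1 : ℝ) 2, ∀ t ∈ Set.Icc (1 : ℝ) 2,
      nm D (sc ρ (p (s + t)) - cv (sc ρ (p s)) (sc ρ (p t))) < (δ * ρ ^ k0) ^ 2 / 10 := by
    intro s hs t ht'
    have e : sc ρ (p (s + t)) - cv (sc ρ (p s)) (sc ρ (p t)) =
        sc ρ (p (s + t) - cv (p s) (p t)) := by
      rw [cv_sc]; funext k; simp [sc, sub_mul]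
    rw [e]
    have := nm_sc_le hρ0.le hρ1 (a := p (s + t) - cv (p s) (p t)) (h2 s hs t ht')
    have h6 := mul_le_mul_of_nonneg_left ht (sq_nonneg δ)
    rw [mul_pow]
    linarith
  have hlow : ∀ s ∈ Set.Icc (1 : ℝ) 2, 2 * (δ * ρ ^ k0) ≤ nm D (sc ρ (p s)) := by
    intro s hs
    have hs' : 3 - s ∈ Set.Icc (1 : ℝ) 2 := ⟨by linarith [hs.2], by linarith [hs.1]⟩
    have a1 := herr s hs _ hs'
    rw [add_sub_cancel] at a1
    have a2 := nm_le_add D (sc ρ (p 3)) (cv (sc ρ (p s)) (sc ρ (p (3 - s))))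
    have a3 := nm_cv_le D (sc ρ (p s)) (sc ρ (p (3 - s)))
    have a4 := nm_sc_le' hρ0.le hρ1 (by linarith) (h0 _ hs') (h1 _ hs')
    have a5 : D * (ρ * M) ≤ M := by
      have : D * ρ ≤ 1 := by nlinarith
      nlinarith
    have a6 := le_nm (by omega : k0 < D) (sc ρ (p 3))
    rw [norm_sc hρ0.le] at a6
    have a7 := mul_le_mul_of_nonneg_right h3 hx.le
    have a8 := mul_le_mul_of_nonneg_left (a4.trans a5) (nm_nonneg D (sc ρ (p s)))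
    have a9 : δ * ρ ^ k0 ≤ 1 := by nlinarith
    have a10 : 0 < δ * ρ ^ k0 := by positivity
    have a11 : (δ * ρ ^ k0) ^ 2 ≤ M * (δ * ρ ^ k0) := by nlinarith
    by_contra hc
    have a12 := mul_lt_mul_of_pos_right (not_le.1 hc) (by linarith : 0 < M)
    nlinarith
  have hd : ∀ j : Fin (D + 1), δ * ρ ^ k0 ≤ ‖sc ρ (p (1 + j.1 / D)) (w j)‖ := fun j => by
    have a1 := hlow _ (hmem j (Nat.lt_succ_iff.1 j.2))
    have a2 := (hw j).2
    have a3 := norm_nonneg (sc ρ (p (1 + j.1 / D)) (w j))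
    linarith
  have hw1 : ∀ j : Fin (D + 1), 1 ≤ w j ∧ w j ≤ k0 := fun j => by
    have a1 := hd j
    have hj := hmem j (Nat.lt_succ_iff.1 j.2)
    rw [norm_sc hρ0.le] at a1
    have a10 : 0 < δ * ρ ^ k0 := by positivity
    constructor
    · by_contra hc
      rw [show w j = 0 by omega, h0 _ hj, norm_zero, zero_mul] at a1
      linarith
    · by_contra hc
      have a2 : ρ ^ w j ≤ ρ ^ (k0 + 1) := pow_le_pow_of_le_one hρ0.le hρ1 (by omega)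
      have a3 := mul_le_mul (h1 _ hj _ (hw j).1) a2 (by positivity) (by linarith)
      have a4 : M * ρ < δ := by nlinarith
      have a5 := mul_lt_mul_of_pos_right a4 hx
      rw [pow_succ] at a3
      nlinarith
  have hmul : ∀ i j : Fin (D + 1), nm D (sc ρ (p ((1 + i.1 / D) + (1 + j.1 / D)))) <
      2 * ‖sc ρ (p ((1 + i.1 / D) + (1 + j.1 / D))) (w i + w j)‖ := fun i j => by
    have := (hw1 i).2
    have := (hw1 j).2
    refine dom_mul (by omega) (hw i).2 (hw j).2 ((herr _ (hmem i (Nat.lt_succ_iff.1 i.2)) _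
      (hmem j (Nat.lt_succ_iff.1 j.2))).trans_le ?_)
    have := mul_le_mul (hd i) (hd j) (by positivity) (norm_nonneg _)
    rw [sq]; linarith
  have heq : ∀ i j k l : Fin (D + 1), i.1 + j.1 = k.1 + l.1 → w i + w j = w k + w l := by
    intro i j k l h
    have a1 := hmul i j
    have a2 := hmul k l
    have e : ((1 + i.1 / D) + (1 + j.1 / D) : ℝ) = (1 + k.1 / D) + (1 + l.1 / D) := by
      have : (i.1 + j.1 : ℝ) = k.1 + l.1 := by exact_mod_cast h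
      field_simp; linarith
    rw [e] at a1
    have := (hw1 i).2
    have := (hw1 j).2
    have := (hw1 k).2
    have := (hw1 l).2
    exact dom_uniq (by omega) (by omega) a1 a2
  have hlin : ∀ j (hj : j < D + 1), (w ⟨j, hj⟩ : ℤ) =
      w 0 + j * (w ⟨1, by omega⟩ - w 0 : ℤ) := by
    intro j
    induction j with
    | zero => intro hj; simp
    | succ j ih =>
      intro hj
      have a1 := heq ⟨j + 1, hj⟩ 0 ⟨j, by omega⟩ ⟨1, by omega⟩ (by simp)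
      have a2 := ih (by omega)
      have a3 : (w ⟨j + 1, hj⟩ : ℤ) + w 0 = w ⟨j, by omega⟩ + w ⟨1, by omega⟩ := by
        exact_mod_cast a1
      push_cast
      linarith
  have hlast : w (Fin.last D) = w 0 + w 0 := by
    have a1 := hmul 0 0
    have a2 := (hw (Fin.last D)).2
    have a3 := hd (Fin.last D)
    have e : ((1 + (0 : Fin (D + 1)).1 / D) + (1 + (0 : Fin (D + 1)).1 / D) : ℝ) =
        1 + (Fin.last D).1 / D := by
      simp only [Fin.val_zero, Fin.val_last]; field_simp; simp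
    rw [e] at a1
    have := (hw1 0).2
    have a10 : 0 < δ * ρ ^ k0 := by positivity
    exact dom_uniq (hw _).1 (by omega) (by linarith) a1
  have a1 := hlin D (by omega)
  have a2 : (w ⟨D, by omega⟩ : ℤ) = w 0 + w 0 := by exact_mod_cast hlast
  have a3 : (D : ℤ) ∣ w 0 := ⟨w ⟨1, by omega⟩ - w 0, by linarith⟩
  have a4 := Nat.le_of_dvd (hw1 0).1 (Int.natCast_dvd_natCast.1 a3)
  have := (hw1 0).2
  omega

end Pool.Agent.Lib.helper15.Wild
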