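import Mathlib

open Filter Topology

namespace Pool.Agent.Lib.helper15.Wild

abbrev P := {x : ℝ // 0 < x}
noncomputable abbrev L := lp (fun _ : P => ℂ) 1

open Classical in
noncomputable def e (s : P) : L := lp.single 1 s 1

lemma summ (x : L) : Summable fun n => ‖x n‖ := by
  simpa using (lp.memℓp x).summable (by simp)

lemma norm_eq (x : L) : ‖x‖ = ∑' n, ‖x n‖ := by
  simpa using lp.norm_eq_tsum_rpow (by simp) x

lemma norm_e (s : P) : ‖e s‖ = 1 := by
  classical
  unfold e
  convert (lp.norm_single (E := fun _ : P => ℂ) (p := 1) (by simp) s 1).trans norm_one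

open Classical in
lemma e_apply (s t : P) : e s t = if t = s then 1 else 0 := by
  unfold e
  rw [lp.single_apply, Pi.single_apply]

lemma hasSum_e (f : L) : HasSum (fun s => f s • e s) f := by
  classical
  convert lp.hasSum_single (by simp) f with s
  ext t
  rw [lp.coeFn_smul, Pi.smul_apply, e_apply, lp.single_apply, Pi.single_apply]
  simp

section
variable {E : Type} [NormedAddCommGroup E] [NormedSpace ℂ E]

lemma hasSum_clm (T : L →L[ℂ] E) (f : L) : HasSum (fun s => f s • T (e s)) (T f) := by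
  simpa [Function.comp_def] using (hasSum_e f).mapL T

lemma clm_ext {T T' : L →L[ℂ] E} (h : ∀ s, T (e s) = T' (e s)) (f : L) : T f = T' f :=
  (hasSum_clm T f).unique (by simpa only [h] using hasSum_clm T' f)

lemma clm_zero (T : L →L[ℂ] E) {f : L} (h : ∀ s, f s ≠ 0 → T (e s) = 0) : T f = 0 := by
  refine (hasSum_clm T f).unique ?_
  have : (fun s => f s • T (e s)) = fun _ => 0 := by
    funext s
    by_cases hs : f s = 0
    · rw [hs, zero_smul]
    · rw [h s hs, smul_zero]
  rw [this]; exact hasSum_zero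

lemma tsum_le (v : P → E) {c : ℝ} (hv : ∀ s, ‖v s‖ ≤ c) (f : L) :
    ‖∑' s, f s • v s‖ ≤ c * ‖f‖ := by
  rw [norm_eq, ← tsum_mul_left]
  refine tsum_of_norm_bounded ((summ f).mul_left c).hasSum fun s => ?_
  rw [norm_smul, mul_comm]
  exact mul_le_mul_of_nonneg_right (hv s) (norm_nonneg _)

lemma clm_le (T : L →L[ℂ] E) {c : ℝ} (h : ∀ s, ‖T (e s)‖ ≤ c) (f : L) : ‖T f‖ ≤ c * ‖f‖ := by
  rw [← (hasSum_clm T f).tsum_eq]; exact tsum_le _ h f

variable [CompleteSpace E]

lemma summ_smul (v : P → E) {c : ℝ} (hv : ∀ s, ‖v s‖ ≤ c) (f : L) :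
    Summable fun s => f s • v s := by
  refine Summable.of_norm_bounded ((summ f).mul_left c) fun s => ?_
  rw [norm_smul, mul_comm]
  exact mul_le_mul_of_nonneg_right (hv s) (norm_nonneg _)

noncomputable def ext (v : P → E) (c : ℝ) (hv : ∀ s, ‖v s‖ ≤ c) : L →L[ℂ] E :=
  LinearMap.mkContinuous
    { toFun := fun f => ∑' s, f s • v s
      map_add' := fun f g => by
        rw [← (summ_smul v hv f).tsum_add (summ_smul v hv g)]
        simp [add_smul]
      map_smul' := fun a f => by
        rw [RingHom.id_apply, ← (summ_smul v hv f).tsum_const_smul a]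
        simp [mul_smul] } c (tsum_le v hv)

lemma ext_e (v : P → E) (c : ℝ) (hv : ∀ s, ‖v s‖ ≤ c) (s : P) : ext v c hv (e s) = v s := by
  change ∑' t, e s t • v t = _
  rw [tsum_eq_single s fun t ht => by simp [e_apply, ht]]
  simp [e_apply]

lemma norm_ext (v : P → E) (c : ℝ) (hc : 0 ≤ c) (hv : ∀ s, ‖v s‖ ≤ c) : ‖ext v c hv‖ ≤ c :=
  LinearMap.mkContinuous_norm_le _ hc _

end

structure Wt where
  W : P → ℝ
  one_le : ∀ s, 1 ≤ W s
  sub : ∀ s t, W (s + t) ≤ W s * W t

variable (w : Wt)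

lemma Wt.ne (s : P) : (w.W s : ℂ) ≠ 0 := by
  have := w.one_le s
  exact_mod_cast (by linarith : w.W s ≠ 0)

open Classical in
noncomputable def pr (s t : P) : L :=
  if s.1 + t.1 < 1 then ((w.W (s + t) : ℂ) / (w.W s * w.W t)) • e (s + t) else 0

lemma norm_pr (s t : P) : ‖pr w s t‖ ≤ 1 := by
  unfold pr
  split_ifs
  · have h1 := w.one_le s
    have h2 := w.one_le t
    have h3 := w.one_le (s + t)
    rw [norm_smul, norm_e, mul_one, norm_div, norm_mul, Complex.norm_real, Complex.norm_real,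
      Complex.norm_real, Real.norm_of_nonneg (by linarith), Real.norm_of_nonneg (by linarith),
      Real.norm_of_nonneg (by linarith)]
    exact div_le_one_of_le₀ (w.sub s t) (by positivity)
  · simp

noncomputable def mu : L →L[ℂ] L →L[ℂ] L :=
  ext (fun s => ext (pr w s) 1 (norm_pr w s)) 1 fun s => norm_ext _ _ zero_le_one _

lemma mu_e (s t : P) : mu w (e s) (e t) = pr w s t := by
  unfold mu; rw [ext_e, ext_e]

lemma mu_le (f g : L) : ‖mu w f g‖ ≤ ‖f‖ * ‖g‖ := by
  have h : ‖mu w‖ ≤ 1 := norm_ext _ _ zero_le_one _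
  have := (mu w).le_opNorm₂ f g
  have h2 : 0 ≤ ‖f‖ * ‖g‖ := by positivity
  nlinarith

lemma mu_comm (f g : L) : mu w f g = mu w g f := by
  refine clm_ext (T := (mu w).flip g) (T' := mu w g) (fun s => ?_) f
  refine clm_ext (T := mu w (e s)) (T' := (mu w).flip (e s)) (fun t => ?_) g
  change _ = mu w (e t) (e s)
  rw [mu_e, mu_e]
  simp only [pr, add_comm s t, add_comm s.1 t.1, mul_comm (w.W s : ℂ)]

open Classical in
lemma mu3 (s t u : P) : mu w (mu w (e s) (e t)) (e u) = if s.1 + t.1 + u.1 < 1 then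
    ((w.W (s + t + u) : ℂ) / (w.W s * w.W t * w.W u)) • e (s + t + u) else 0 := by
  rw [mu_e, pr]
  split_ifs with h1 h2 h2
  · rw [map_smul, smul_apply, mu_e, pr, if_pos (show (s + t).1 + u.1 < 1 from h2), smul_smul]
    have := w.ne (s + t); have := w.ne s; have := w.ne t; have := w.ne u
    congr 1; field_simp
  · rw [map_smul, smul_apply, mu_e, pr, if_neg (show ¬ (s + t).1 + u.1 < 1 from h2), smul_zero]
  · exact absurd (by linarith [u.2]) h1
  · simp

lemma mu_assoc (f g h : L) : mu w (mu w f g) h = mu w f (mu w g h) := by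
  refine clm_ext (T := ((mu w).flip h).comp ((mu w).flip g)) (T' := (mu w).flip (mu w g h))
    (fun s => ?_) f
  refine clm_ext (T := ((mu w).flip h).comp (mu w (e s))) (T' := (mu w (e s)).comp ((mu w).flip h))
    (fun t => ?_) g
  refine clm_ext (T := mu w (mu w (e s) (e t))) (T' := (mu w (e s)).comp (mu w (e t)))
    (fun u => ?_) h
  change _ = mu w (e s) (mu w (e t) (e u))
  rw [mu_comm w (e s) (mu w _ _), mu3, mu3, add_comm (t + u) s, ← add_assoc,
    add_comm (t.1 + u.1) s.1, ← add_assoc, mul_comm (w.W t * w.W u : ℂ), ← mul_assoc]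

def R (_ : Wt) : Type := L

noncomputable instance : NormedAddCommGroup (R w) := inferInstanceAs (NormedAddCommGroup L)
noncomputable instance : NormedSpace ℂ (R w) := inferInstanceAs (NormedSpace ℂ L)
instance : CompleteSpace (R w) := inferInstanceAs (CompleteSpace L)

noncomputable instance : NonUnitalNormedCommRing (R w) :=
  { (inferInstance : NormedAddCommGroup (R w)) with
    mul := fun f g => mu w f g
    left_distrib := fun a b c => map_add (mu w a) b c
    right_distrib := fun a b c => map_add ((mu w).flip c) a b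
    zero_mul := fun a => congrArg (fun T : L →L[ℂ] L => T a) (map_zero (mu w))
    mul_zero := fun a => map_zero (mu w a)
    mul_assoc := mu_assoc w
    mul_comm := mu_comm w
    norm_mul_le := mu_le w }

instance : IsScalarTower ℂ (R w) (R w) := ⟨fun c f g => map_smul ((mu w).flip g) c f⟩
instance : SMulCommClass ℂ (R w) (R w) := ⟨fun c f g => (map_smul (mu w f) c g).symm⟩

def Sup (a : ℝ) (f : L) : Prop := ∀ s : P, f s ≠ 0 → a ≤ s.1

lemma mu_clm_zero {E : Type} [NormedAddCommGroup E] [NormedSpace ℂ E] (T : L →L[ℂ] E) {f g : L}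
    (h : ∀ s t, f s ≠ 0 → g t ≠ 0 → T (pr w s t) = 0) : T (mu w f g) = 0 := by
  refine clm_zero (T.comp ((mu w).flip g)) fun s hs => ?_
  refine clm_zero (T.comp (mu w (e s))) fun t ht => ?_
  change T (mu w (e s) (e t)) = 0
  rw [mu_e]; exact h s t hs ht

lemma Sup.mul {a b : ℝ} {f g : L} (hf : Sup a f) (hg : Sup b g) : Sup (a + b) (mu w f g) := by
  intro u hu
  by_contra hc
  refine hu (mu_clm_zero w (lp.evalCLM (𝕜 := ℂ) (fun _ : P => ℂ) 1 u) fun s t hs ht => ?_)
  change pr w s t u = 0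
  unfold pr
  split_ifs
  · rw [lp.coeFn_smul, Pi.smul_apply, e_apply, if_neg, smul_zero]
    rintro rfl
    exact hc (add_le_add (hf s hs) (hg t ht))
  · rfl

lemma Sup.mul_zero {a b : ℝ} {f g : L} (hf : Sup a f) (hg : Sup b g) (h : 1 ≤ a + b) :
    mu w f g = 0 := by
  refine mu_clm_zero w (ContinuousLinearMap.id ℂ L) fun s t hs ht => ?_
  change pr w s t = 0
  rw [pr, if_neg]
  have := hf s hs
  have := hg t ht
  linarith

lemma Sup.nil {a : ℝ} (ha : 0 < a) {f : R w} (hf : Sup a f) :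
    IsNilpotent (f : Unitization ℂ (R w)) := by
  have h : ∀ n : ℕ, ∃ y : R w, (f : Unitization ℂ (R w)) ^ (n + 1) = y ∧ Sup ((n + 1) * a) y := by
    intro n
    induction n with
    | zero => exact ⟨f, pow_one _, by simpa using hf⟩
    | succ n ih =>
      obtain ⟨y, h1, h2⟩ := ih
      refine ⟨y * f, by rw [pow_succ, h1, Unitization.inr_mul], ?_⟩
      have := h2.mul w hf
      push_cast
      rw [add_mul (n + 1 : ℝ), one_mul]
      exact this
  obtain ⟨n, hn⟩ := exists_nat_gt (1 / a)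
  obtain ⟨y, h1, h2⟩ := h n
  refine ⟨n + 2, ?_⟩
  have h3 : y * f = 0 := h2.mul_zero w hf (by rw [div_lt_iff₀ ha] at hn; nlinarith)
  rw [pow_succ, h1, ← Unitization.inr_mul, h3, Unitization.inr_zero]

lemma radical_of {A : Type} [NonUnitalNormedCommRing A] [NormedSpace ℂ A] [IsScalarTower ℂ A A]
    [SMulCommClass ℂ A A] [CompleteSpace A] (x : A)
    (h : ∀ ε > 0, ∃ y : A, IsNilpotent (y : Unitization ℂ A) ∧ ‖x - y‖ < ε) :
    spectrum ℂ (x : Unitization ℂ A) ⊆ {0} := by
  intro c hc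
  by_contra h0
  have h0 : c ≠ 0 := h0
  obtain ⟨y, hy, hxy⟩ := h ‖c‖ (norm_pos_iff.2 h0)
  have h1 : ‖WithLp.toLp 1 ((c⁻¹ • (x - y) : A) : Unitization ℂ A)‖ < 1 := by
    rw [WithLp.unitization_norm_inr, norm_smul, norm_inv, inv_mul_lt_iff₀ (norm_pos_iff.2 h0)]
    simpa using hxy
  have h2 : IsUnit (1 - ((c⁻¹ • (x - y) : A) : Unitization ℂ A)) := by
    have := (Units.oneSub _ h1).isUnit.map (WithLp.unitizationAlgEquiv (𝕜 := ℂ) (A := A) ℂ)
    rw [Units.val_oneSub, map_sub, map_one] at this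
    exact this
  have h3 : IsUnit (algebraMap ℂ (Unitization ℂ A) c) := (IsUnit.mk0 c h0).map _
  have h4 := hy.neg.isUnit_add_left_of_commute (h3.mul h2) (Commute.all _ _)
  refine hc ?_
  rw [spectrum.mem_resolventSet_iff]
  convert h4 using 1
  have h5 : algebraMap ℂ (Unitization ℂ A) c * ((c⁻¹ • (x - y) : A) : Unitization ℂ A) =
      (x : Unitization ℂ A) - y := by
    rw [← Algebra.smul_def]
    refine Unitization.ext ?_ ?_
    · simp [h0]
    · simp [smul_smul, h0]
  rw [mul_sub, mul_one, h5]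
  ring

lemma sup_e (c : ℂ) (s : P) : Sup s.1 (c • e s) := by
  intro t ht
  rw [lp.coeFn_smul, Pi.smul_apply, e_apply] at ht
  split_ifs at ht with h
  · rw [h]
  · simp at ht

lemma radical (x : R w) : spectrum ℂ (x : Unitization ℂ (R w)) ⊆ {0} := by
  refine radical_of x fun ε hε => ?_
  have h := (hasSum_e x).eventually (Metric.ball_mem_nhds _ hε)
  obtain ⟨F, hF⟩ := h.exists
  let g : P → R w := fun s => (show L from x) s • e s
  refine ⟨∑ s ∈ F, g s, ?_, ?_⟩
  · have : ((∑ s ∈ F, g s : R w) : Unitization ℂ (R w)) = ∑ s ∈ F, (g s : Unitization ℂ (R w)) :=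
      map_sum (Unitization.inrNonUnitalAlgHom ℂ (R w)) g F
    rw [this]
    exact isNilpotent_sum fun s _ => Sup.nil w s.2 (sup_e _ s)
  · rw [norm_sub_rev, ← dist_eq_norm]; exact hF

noncomputable def dl (s : P) : R w := (w.W s : ℂ) • e s

lemma dl_mul (s t : P) : dl w s * dl w t = if s.1 + t.1 < 1 then dl w (s + t) else 0 := by
  change mu w ((w.W s : ℂ) • e s) ((w.W t : ℂ) • e t) = _
  rw [map_smul, map_smul, smul_apply, mu_e, pr]
  have := w.ne s; have := w.ne t
  split_ifs
  · rw [smul_smul, smul_smul]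
    change _ = (w.W (s + t) : ℂ) • e (s + t)
    congr 1; field_simp
  · rw [smul_zero, smul_zero]; rfl

open Classical in
noncomputable def sg (t : ℝ) : R w := if h : 0 < t ∧ t < 1 then dl w ⟨t, h.1⟩ else 0

lemma sg_add (s t : ℝ) (hs : 0 < s) (ht : 0 < t) : sg w (s + t) = sg w s * sg w t := by
  unfold sg
  by_cases h : s + t < 1
  · rw [dif_pos ⟨by linarith, h⟩, dif_pos ⟨hs, by linarith⟩, dif_pos ⟨ht, by linarith⟩, dl_mul,
      if_pos h]
    rfl
  · rw [dif_neg fun h' => h h'.2]
    split_ifs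
    · rw [dl_mul, if_neg h]
    all_goals simp

lemma sg_ne {t : ℝ} (h0 : 0 < t) (h1 : t < 1) : sg w t ≠ 0 := by
  rw [sg, dif_pos ⟨h0, h1⟩]
  intro h
  have h2 : ‖(w.W ⟨t, h0⟩ : ℂ) • e ⟨t, h0⟩‖ = 0 := by
    change ‖dl w _‖ = 0
    rw [h, norm_zero]
  rw [norm_smul, norm_e, mul_one, norm_eq_zero] at h2
  exact w.ne _ h2

lemma inf_dim : ¬ FiniteDimensional ℂ (R w) := by
  intro h
  have h' : Module.Finite ℂ L := h
  have : Infinite P := Set.infinite_coe_iff.2 (Set.Ioi_infinite (0 : ℝ))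
  refine Module.Finite.not_linearIndependent_of_infinite (R := ℂ) e ?_
  rw [linearIndependent_iff']
  intro F g hg i hi
  have := congrArg (lp.evalCLM (𝕜 := ℂ) (fun _ : P => ℂ) 1 i) hg
  rw [map_sum, map_zero, Finset.sum_eq_single i] at this
  · rw [map_smul] at this
    change g i • e i i = 0 at this
    simpa [e_apply] using this
  · intro j _ hj
    rw [map_smul]
    change g j • e j i = 0
    simp [e_apply, hj.symm]
  · exact fun h => absurd hi h

end Pool.Agent.Lib.helper15.Wild
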