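import Mathlib
import Pool.Agent.Lib.helper15.Wild1
import Pool.Agent.Lib.helper15.Wild2

open Filter Topology

namespace Pool.Agent.Lib.helper15.Wild

def DD (m : ℕ) : ℕ := 2 * m * m.factorial

lemma le_DD (m : ℕ) : m ≤ DD m := by
  unfold DD
  have := m.factorial_pos
  nlinarith

noncomputable def bs := Module.Basis.ofVectorSpace ℚ ℝ

noncomputable def el (m : ℕ) : ℝ →ₗ[ℚ] ℝ :=
  bs.constr ℚ fun i => (m.factorial : ℝ) * ⌊3 * (m : ℝ) * bs i⌋

lemma el_prop (s : ℝ) : (∀ᶠ m in atTop, ∃ z : ℤ, el m s = z) ∧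
    ∃ B : ℝ, ∀ m : ℕ, |el m s - 3 * m * m.factorial * s| ≤ B * m.factorial := by
  rw [← bs.linearCombination_repr s, Finsupp.linearCombination_apply, Finsupp.sum]
  refine Finset.sum_induction _ (fun s : ℝ => (∀ᶠ m in atTop, ∃ z : ℤ, el m s = z) ∧
    ∃ B : ℝ, ∀ m : ℕ, |el m s - 3 * m * m.factorial * s| ≤ B * m.factorial) ?_ ?_ ?_
  · rintro x y ⟨h1, B, h2⟩ ⟨h3, C, h4⟩
    refine ⟨?_, B + C, fun m => ?_⟩
    · filter_upwards [h1, h3] with m ⟨z, hz⟩ ⟨z', hz'⟩
      exact ⟨z + z', by rw [map_add, hz, hz', Int.cast_add]⟩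
    · have a1 := abs_le.1 (h2 m)
      have a2 := abs_le.1 (h4 m)
      rw [map_add, abs_le]
      constructor <;> nlinarith [a1.1, a1.2, a2.1, a2.2]
  · exact ⟨Eventually.of_forall fun m => ⟨0, by simp⟩, 0, fun m => by simp⟩
  · intro i _
    set r := bs.repr s i
    have e : ∀ m, el m (r • bs i) = r * ((m.factorial : ℝ) * ⌊3 * (m : ℝ) * bs i⌋) := fun m => by
      rw [map_smul, el, Module.Basis.constr_basis, Rat.smul_def]
    refine ⟨?_, |(r : ℝ)|, fun m => ?_⟩
    · filter_upwards [eventually_ge_atTop r.den] with m hm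
      obtain ⟨c, hc⟩ := Nat.dvd_factorial r.den_pos hm
      refine ⟨r.num * c * ⌊3 * (m : ℝ) * bs i⌋, ?_⟩
      rw [e, hc, Rat.cast_def]
      have : (r.den : ℝ) ≠ 0 := by exact_mod_cast r.den_nz
      push_cast
      field_simp
    · rw [e, Rat.smul_def]
      have a1 := Int.floor_le (3 * (m : ℝ) * bs i)
      have a2 := Int.lt_floor_add_one (3 * (m : ℝ) * bs i)
      have a3 : |(⌊3 * (m : ℝ) * bs i⌋ : ℝ) - 3 * m * bs i| ≤ 1 := by
        rw [abs_le]; constructor <;> linarith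
      calc _ = |(r : ℝ)| * m.factorial * |(⌊3 * (m : ℝ) * bs i⌋ : ℝ) - 3 * m * bs i| := by
            rw [← Nat.abs_cast m.factorial, ← abs_mul, ← abs_mul, Nat.abs_cast]
            congr 1; ring
        _ ≤ _ := mul_le_of_le_one_right (by positivity) a3

def good (m : ℕ) (s : ℝ) : Prop :=
  (∃ z : ℕ, el m s = z) ∧ DD m * s ≤ el m s ∧ el m s ≤ 2 * DD m * s

lemma good_ev {s : ℝ} (hs : 0 < s) : ∃ n, ∀ m ≥ n, good m s := by
  obtain ⟨h1, B, h2⟩ := el_prop s
  rw [← eventually_atTop]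
  filter_upwards [h1, tendsto_natCast_atTop_atTop.eventually_ge_atTop (B / s)] with m ⟨z, hz⟩ hm
  have a1 := abs_le.1 (h2 m)
  have a2 : B * m.factorial ≤ m * s * m.factorial :=
    mul_le_mul_of_nonneg_right ((div_le_iff₀ hs).1 hm) (by positivity)
  have a3 : (DD m : ℝ) = 2 * m * m.factorial := by simp [DD]
  have a4 : DD m * s ≤ el m s := by rw [a3]; nlinarith [a1.1]
  refine ⟨?_, a4, by rw [a3]; nlinarith [a1.2]⟩
  have a5 : (0 : ℝ) ≤ z := hz ▸ le_trans (by positivity) a4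
  obtain ⟨z, rfl⟩ := Int.eq_ofNat_of_zero_le (by exact_mod_cast a5 : 0 ≤ z)
  exact ⟨z, by simpa using hz⟩

lemma good.add {m : ℕ} {s t : ℝ} (hs : good m s) (ht : good m t) : good m (s + t) := by
  obtain ⟨⟨z, hz⟩, h1, h2⟩ := hs
  obtain ⟨⟨z', hz'⟩, h3, h4⟩ := ht
  refine ⟨⟨z + z', by rw [map_add, hz, hz', Nat.cast_add]⟩, ?_, ?_⟩ <;> rw [map_add] <;> linarith

lemma good.pos {m : ℕ} {s : ℝ} (h : good m s) (hm : 1 ≤ m) (hs : 0 < s) : 0 < el m s := by
  have : (1 : ℝ) ≤ DD m := by exact_mod_cast hm.trans (le_DD m)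
  exact lt_of_lt_of_le (by positivity) h.2.1

lemma exists_lv (s : P) : ∃ l : ℕ, ∀ n, l ≤ n ↔ ∀ m ≥ n, good m s.1 := by
  classical
  exact ⟨Nat.find (good_ev s.2), fun n => ⟨fun h m hm => Nat.find_spec (good_ev s.2) m
    (le_trans h hm), fun h => Nat.find_min' _ h⟩⟩

noncomputable def lv (s : P) : ℕ := (exists_lv s).choose

lemma lv_le {s : P} {n : ℕ} : lv s ≤ n ↔ ∀ m ≥ n, good m s.1 := (exists_lv s).choose_spec n

lemma lv_add {s t : P} {n : ℕ} (hs : lv s ≤ n) (ht : lv t ≤ n) : lv (s + t) ≤ n :=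
  lv_le.2 fun m hm => (lv_le.1 hs m hm).add (lv_le.1 ht m hm)

noncomputable def Wn (n : ℕ) : ℝ := 1 + ∑ i ∈ Finset.range n, i * DD i / tiny (DD i)

lemma term_nonneg (i : ℕ) : 0 ≤ i * DD i / tiny (DD i) := by
  unfold tiny th; positivity

lemma Wn_mono : Monotone Wn := monotone_nat_of_le_succ fun n => by
  unfold Wn
  rw [Finset.sum_range_succ]
  linarith [term_nonneg n]

lemma one_le_Wn (n : ℕ) : 1 ≤ Wn n :=
  le_add_of_nonneg_right (Finset.sum_nonneg fun i _ => term_nonneg i)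

lemma le_Wn (n : ℕ) : n * DD n / tiny (DD n) ≤ Wn (n + 1) := by
  have := one_le_Wn n
  unfold Wn at *
  rw [Finset.sum_range_succ]
  linarith

noncomputable def w0 : Wt where
  W s := Wn (lv s)
  one_le s := one_le_Wn _
  sub s t := by
    have h1 := one_le_Wn (lv s)
    have h2 := one_le_Wn (lv t)
    rcases le_total (lv s) (lv t) with h | h
    · have := Wn_mono (lv_add h le_rfl); nlinarith
    · have := Wn_mono (lv_add le_rfl h); nlinarith

open Classical in
noncomputable def lm (n : ℕ) (r : ℝ) (s : P) : ℂ :=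
  if lv s ≤ n ∧ el n s.1 = r then (w0.W s : ℂ)⁻¹ else 0

lemma lm_le (n : ℕ) (r : ℝ) (s : P) : ‖lm n r s‖ ≤ 1 := by
  unfold lm
  have := w0.one_le s
  split_ifs
  · rw [norm_inv, Complex.norm_real, Real.norm_of_nonneg (by linarith)]
    exact inv_le_one_of_one_le₀ this
  · simp

noncomputable def lam (n : ℕ) (r : ℝ) : L →L[ℂ] ℂ := ext (lm n r) 1 (lm_le n r)

lemma lam_e (n : ℕ) (r : ℝ) (s : P) : lam n r (e s) = lm n r s := ext_e _ _ _ _

lemma lam_le (n : ℕ) (r : ℝ) (f : L) : ‖lam n r f‖ ≤ ‖f‖ := by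
  have := clm_le (lam n r) (fun s => (lam_e n r s).symm ▸ lm_le n r s) f
  rwa [one_mul] at this

lemma lam_zero {n : ℕ} (hn : 1 ≤ n) (f : L) : lam n (0 : ℕ) f = 0 := by
  refine clm_zero _ fun s _ => ?_
  rw [lam_e, lm, if_neg]
  rintro ⟨h1, h2⟩
  have := (lv_le.1 h1 n le_rfl).pos hn s.2
  simp [h2] at this

lemma approx_e {n k : ℕ} (hk : k < DD n) (s t : P) :
    ‖lam n k (pr w0 s t) - cv (fun u => lm n u s) (fun u => lm n u t) k‖ ≤ (Wn (n + 1))⁻¹ := by
  have hs0 := w0.ne s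
  have ht0 := w0.ne t
  have hst := w0.ne (s + t)
  have hW := one_le_Wn (n + 1)
  by_cases h : lv s ≤ n ∧ lv t ≤ n
  · obtain ⟨⟨a, ha⟩, a1, -⟩ := lv_le.1 h.1 n le_rfl
    obtain ⟨⟨b, hb⟩, b1, -⟩ := lv_le.1 h.2 n le_rfl
    have e1 : el n (s + t).1 = ((a + b : ℕ) : ℝ) := by
      rw [Positive.coe_add, map_add, ha, hb, Nat.cast_add]
    have e2 : cv (fun u => lm n u s) (fun u => lm n u t) k =
        if a + b = k then (w0.W s : ℂ)⁻¹ * (w0.W t : ℂ)⁻¹ else 0 := by
      simp only [cv, lm, h.1, h.2, true_and, ha, hb, Nat.cast_inj]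
      split_ifs with h3
      · rw [Finset.sum_eq_single a]
        · rw [if_pos rfl, if_pos (by omega)]
        · intro u _ hu; rw [if_neg hu.symm, zero_mul]
        · intro h4; exact absurd (Finset.mem_range.2 (by omega)) h4
      · refine Finset.sum_eq_zero fun u hu => ?_
        have := Finset.mem_range.1 hu
        by_cases h4 : a = u
        · rw [if_neg (show ¬ b = k - u by omega), mul_zero]
        · rw [if_neg h4, zero_mul]
    have e3 : lam n k (pr w0 s t) =
        if a + b = k then (w0.W s : ℂ)⁻¹ * (w0.W t : ℂ)⁻¹ else 0 := by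
      unfold pr
      split_ifs with h3 h4 h4
      · rw [map_smul, lam_e, lm, if_pos ⟨lv_add h.1 h.2, by rw [e1, h4]⟩, smul_eq_mul]
        field_simp
      · rw [map_smul, lam_e, lm, if_neg, smul_zero]
        rw [e1, Nat.cast_inj]; exact fun h => h4 h.2
      · exfalso
        have c1 : (a + b : ℝ) < DD n := by exact_mod_cast h4 ▸ hk
        have c2 : (0 : ℝ) ≤ DD n := by positivity
        rw [ha] at a1; rw [hb] at b1
        nlinarith
      · exact map_zero _
    rw [e2, e3, sub_self, norm_zero]; positivity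
  · have e2 : cv (fun u => lm n u s) (fun u => lm n u t) k = 0 := by
      refine Finset.sum_eq_zero fun u _ => ?_
      rcases not_and_or.1 h with h | h
      · simp [lm, h]
      · simp [lm, h]
    rw [e2, sub_zero, pr]
    have a1 := w0.one_le s
    have a2 := w0.one_le t
    have a3 : Wn (n + 1) ≤ w0.W s * w0.W t := by
      rcases not_and_or.1 h with h | h
      · have : Wn (n + 1) ≤ w0.W s := Wn_mono (not_le.1 h); nlinarith
      · have : Wn (n + 1) ≤ w0.W t := Wn_mono (not_le.1 h); nlinarith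
    split_ifs
    · rw [map_smul, lam_e, lm]
      split_ifs
      · have : ((w0.W (s + t) : ℂ) / (w0.W s * w0.W t)) • (w0.W (s + t) : ℂ)⁻¹ =
            (((w0.W s * w0.W t)⁻¹ : ℝ) : ℂ) := by
          rw [smul_eq_mul]; push_cast; field_simp
        rw [this, Complex.norm_real, Real.norm_of_nonneg (by positivity)]
        exact inv_anti₀ (by positivity) a3
      · rw [smul_zero, norm_zero]; positivity
    · rw [map_zero, norm_zero]; positivity

lemma approx {n k : ℕ} (hk : k < DD n) (f g : L) :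
    ‖lam n k (mu w0 f g) - cv (fun u => lam n u f) (fun u => lam n u g) k‖ ≤
      (Wn (n + 1))⁻¹ * ‖g‖ * ‖f‖ := by
  have h1 : ∀ s, ‖lam n k (mu w0 (e s) g) - cv (fun u => lm n u s) (fun u => lam n u g) k‖ ≤
      (Wn (n + 1))⁻¹ * ‖g‖ := fun s => by
    have := clm_le ((lam n k).comp (mu w0 (e s)) -
      ∑ u ∈ Finset.range (k + 1), lm n u s • lam n (k - u : ℕ)) (fun t => by
        simpa [cv, mu_e, lam_e, -Nat.cast_tsub] using approx_e hk s t) g
    simpa [cv, -Nat.cast_tsub] using this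
  have := clm_le ((lam n k).comp ((mu w0).flip g) -
      ∑ u ∈ Finset.range (k + 1), lam n (k - u : ℕ) g • lam n u) (fun s => by
        simpa [cv, lam_e, -Nat.cast_tsub, mul_comm] using h1 s) f
  simpa [cv, -Nat.cast_tsub, mul_comm] using this

lemma lam_lim (f : L) (q : P) :
    Tendsto (fun n => lam n (el n q.1) f) atTop (𝓝 (f q * (w0.W q : ℂ)⁻¹)) := by
  classical
  have h := tendsto_tsum_of_dominated_convergence (𝓕 := atTop)
    (f := fun n s => f s • lm n (el n q.1) s)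
    (g := fun s => if s = q then f q * (w0.W q : ℂ)⁻¹ else 0) (summ f) (fun s => ?_)
    (Eventually.of_forall fun n s => ?_)
  · rw [tsum_ite_eq] at h
    exact h
  · refine tendsto_const_nhds.congr' ?_
    by_cases hs : s = q
    · filter_upwards [eventually_ge_atTop (lv q)] with n hn
      simp [hs, lm, hn]
    · have h0 : 0 < |s.1 - q.1| := abs_pos.2 (sub_ne_zero.2 fun h => hs (Subtype.ext h))
      obtain ⟨N, hN⟩ := good_ev h0
      filter_upwards [eventually_ge_atTop N, eventually_ge_atTop 1] with n hn hn1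
      have h1 := (hN n hn).pos hn1 h0
      rw [if_neg hs, lm, if_neg, smul_zero]
      rintro ⟨-, h2⟩
      rcases abs_cases (s.1 - q.1) with h3 | h3 <;> simp [h3.1, h2] at h1
  · rw [norm_smul]
    exact mul_le_of_le_one_right (norm_nonneg _) (lm_le _ _ _)

lemma sup_of (a : ℝ → R w0) (ha : ∀ s t : ℝ, 0 < s → 0 < t → a (s + t) = a s * a t) {M : ℝ}
    (hM : 1 ≤ M) (hb : ∀ t ∈ Set.Icc (1 : ℝ) 2, ‖a t‖ ≤ M) : Sup (1 / 4) (a 3) := by
  intro q hq
  by_contra hq4
  have hq4 := not_le.1 hq4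
  set c := ‖(show L from a 3) q * (w0.W q : ℂ)⁻¹‖ with hc
  have hc0 : 0 < c := norm_pos_iff.2 (mul_ne_zero hq (inv_ne_zero (w0.ne q)))
  set δ := min 1 (c / (8 * M)) with hδ
  have hδ0 : 0 < δ := lt_min one_pos (by positivity)
  have hδ2 : δ * (8 * M) ≤ c := (le_div_iff₀ (by positivity)).1 (min_le_right _ _)
  have h1 := (lam_lim (a 3) q).norm.eventually (lt_mem_nhds (show c / 2 < c by linarith))
  obtain ⟨n, h1, h2, h3, h4, h5⟩ := (h1.and ((eventually_ge_atTop (lv q)).and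
    ((eventually_ge_atTop 1).and
    ((tendsto_natCast_atTop_atTop.eventually_gt_atTop (M / δ)).and
    (tendsto_natCast_atTop_atTop.eventually_gt_atTop (10 * M ^ 2 / δ ^ 2)))))).exists
  obtain ⟨⟨k0, hk0⟩, -, a1⟩ := lv_le.1 h2 n le_rfl
  have hD : (n : ℝ) ≤ DD n := by exact_mod_cast le_DD n
  have hn : (1 : ℝ) ≤ n := by exact_mod_cast h3
  have hD0 : 0 < DD n := lt_of_lt_of_le h3 (le_DD n)
  rw [hk0] at a1 h1
  refine core (D := DD n) (k0 := k0) ?_ (fun t k => lam n k (a t)) (ε := (Wn (n + 1))⁻¹ * M * M)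
    hM hδ0 (min_le_left _ _) (fun t _ => lam_zero h3 _)
    (fun t ht k _ => (lam_le _ _ _).trans (hb t ht)) (fun s hs t ht k hk => ?_) ?_ ?_ ?_
  · have : (2 * k0 : ℝ) < DD n := by nlinarith
    exact_mod_cast this
  · rw [ha s t (by linarith [hs.1]) (by linarith [ht.1])]
    refine (approx hk (a s) (a t)).trans ?_
    have := one_le_Wn (n + 1)
    exact mul_le_mul (mul_le_mul_of_nonneg_left (hb t ht) (by positivity)) (hb s hs)
      (norm_nonneg _) (by positivity)
  · linarith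
  · rw [div_lt_iff₀ hδ0] at h4
    rw [th, mul_one_div, div_lt_iff₀ (by positivity)]
    nlinarith
  · have a2 := le_Wn n
    have a3 := tiny_pos hD0
    have a4 := one_le_Wn (n + 1)
    rw [div_le_iff₀ a3] at a2
    rw [div_lt_iff₀ (by positivity)] at h5
    have a5 : DD n * (Wn (n + 1))⁻¹ * n ≤ tiny (DD n) := by
      rw [mul_right_comm, ← div_eq_mul_inv, div_le_iff₀ (by positivity)]
      linarith
    have a6 : 0 < DD n * (Wn (n + 1))⁻¹ := by positivity
    have a7 := mul_lt_mul_of_pos_left h5 a6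
    have a8 := mul_le_mul_of_nonneg_left a5 (sq_nonneg δ)
    nlinarith

theorem no_cont (b : ℝ → R w0) (hb : ∀ s t : ℝ, 0 < s → 0 < t → b (s + t) = b s * b t)
    (hc : ContinuousOn b (Set.Ioi 0)) {t : ℝ} (ht : 0 < t) : b t = 0 := by
  have h1 : ∀ t > 0, Sup (1 / 4) (b t) := fun t ht => by
    have h2 : ContinuousOn (fun s => b (t / 3 * s)) (Set.Icc 1 2) :=
      hc.comp (by fun_prop) fun s hs => by
        have : 0 < s := by linarith [hs.1]
        exact (by positivity : 0 < t / 3 * s)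
    obtain ⟨M, hM⟩ := isCompact_Icc.exists_bound_of_continuousOn h2
    have := sup_of (fun s => b (t / 3 * s)) (fun s u hs hu => by
      rw [mul_add]; exact hb _ _ (by positivity) (by positivity)) (le_max_left 1 M)
      fun s hs => (hM s hs).trans (le_max_right _ _)
    simpa using this
  have h2 : Sup (1 / 4 + 1 / 4) (b (t / 2)) := by
    rw [show t / 2 = t / 4 + t / 4 by ring, hb _ _ (by positivity) (by positivity)]
    exact (h1 _ (by positivity)).mul w0 (h1 _ (by positivity))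
  rw [← add_halves t, hb _ _ (by positivity) (by positivity)]
  exact h2.mul_zero w0 h2 (by norm_num)

end Pool.Agent.Lib.helper15.Wild
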