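import Mathlib

open Filter Topology

namespace Pool.Agent.Lib.helper15.Wild

lemma inr_mul_ex {A : Type} [NonUnitalNormedCommRing A] [NormedSpace ℂ A] [IsScalarTower ℂ A A]
    [SMulCommClass ℂ A A] (u : A) (z : Unitization ℂ A) :
    ∃ y : A, (u : Unitization ℂ A) * z = y :=
  ⟨((u : Unitization ℂ A) * z).snd, Unitization.ext (by simp) (by simp)⟩

theorem classV {A : Type} [NonUnitalNormedCommRing A] [NormedSpace ℂ A] [IsScalarTower ℂ A A]
    [SMulCommClass ℂ A A] [CompleteSpace A]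
    (hA : ∀ x : A, spectrum ℂ (x : Unitization ℂ A) ⊆ {0}) (u : ℕ → A)
    (hu : ∀ k, u k = u (k + 1) * u (k + 1) * (u (k + 1) * u (k + 1))) (h0 : u 0 ≠ 0) :
    ∃ b : A, b ≠ 0 ∧ b ∈ closure {y | ∃ x : A, y = b * b * x} := by
  let S : Set A := {b | ∃ (k : ℕ) (v : Unitization ℂ A), IsUnit v ∧ (b : Unitization ℂ A) = u k * v}
  have key : ∀ b ∈ S, ∀ ε > 0, ∃ b' ∈ S, ‖b' - b‖ < ε ∧ ∃ x, b = b' * b' * x := by
    rintro b ⟨k, v, hv, hb⟩ ε hε
    have hp : 0 < ‖u (k + 1)‖ + 1 := by positivity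
    set c : ℂ := ((ε / (‖u (k + 1)‖ + 1) : ℝ) : ℂ) with hc
    have hc0 : c ≠ 0 := by rw [hc]; exact_mod_cast (div_pos hε hp).ne'
    obtain ⟨y, hy⟩ := inr_mul_ex (u (k + 1)) (-(u (k + 1) * u (k + 1) * v))
    have h1 : IsUnit (algebraMap ℂ (Unitization ℂ A) c - y) := by
      by_contra h
      exact hc0 (hA y (spectrum.mem_iff.2 h))
    have h2 : ((b + c • u (k + 1) : A) : Unitization ℂ A) =
        u (k + 1) * (algebraMap ℂ (Unitization ℂ A) c - y) := by
      have : ((c • u (k + 1) : A) : Unitization ℂ A) =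
          algebraMap ℂ (Unitization ℂ A) c * u (k + 1) := by
        rw [← Algebra.smul_def]
        exact Unitization.ext (by simp) (by simp)
      rw [Unitization.inr_add, hb, this, ← hy, hu k]
      simp only [Unitization.inr_mul]
      ring
    refine ⟨b + c • u (k + 1), ⟨k + 1, _, h1, h2⟩, ?_, ?_⟩
    · rw [add_sub_cancel_left, norm_smul, hc, Complex.norm_real,
        Real.norm_of_nonneg (div_pos hε hp).le, div_mul_eq_mul_div, div_lt_iff₀ hp]
      nlinarith
    · obtain ⟨w, hw⟩ := h1.exists_right_inv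
      obtain ⟨x, hx⟩ := inr_mul_ex (u (k + 1)) (u (k + 1) * v * w * w)
      refine ⟨x, Unitization.inr_injective (R := ℂ) ?_⟩
      rw [Unitization.inr_mul, Unitization.inr_mul, h2, ← hx, hb, hu k]
      simp only [Unitization.inr_mul]
      linear_combination (-(u (k + 1) : Unitization ℂ A) ^ 4 * v *
        ((algebraMap ℂ (Unitization ℂ A) c - y) * w + 1)) * hw
  have : CompleteSpace (closure S) := isClosed_closure.completeSpace_coe
  let U : ℕ → Set (closure S) := fun j => {b | ∃ x : A, ‖b.1 - b.1 * b.1 * x‖ < 1 / (j + 1)}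
  have hU : ∀ j, IsOpen (U j) := fun j => by
    have : U j = ⋃ x : A, {b | ‖b.1 - b.1 * b.1 * x‖ < 1 / (j + 1)} := by ext; simp [U]
    rw [this]
    exact isOpen_iUnion fun x => isOpen_lt (by fun_prop) continuous_const
  have hD : ∀ j, Dense (U j) := fun j => by
    rw [Metric.dense_iff]
    intro b r hr
    obtain ⟨b1, hb1, h1⟩ := Metric.mem_closure_iff.1 b.2 (r / 2) (by positivity)
    obtain ⟨b2, hb2, h2, x, hx⟩ := key b1 hb1 (min (r / 2) (1 / (j + 1))) (by positivity)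
    refine ⟨⟨b2, subset_closure hb2⟩, ?_, x, ?_⟩
    · rw [Metric.mem_ball, Subtype.dist_eq]
      have h3 := dist_triangle b2 b1 b.1
      rw [dist_eq_norm b2 b1, dist_comm b1] at h3
      linarith [min_le_left (r / 2) (1 / (j + 1 : ℝ))]
    · rw [← hx]; exact h2.trans_le (min_le_right _ _)
  have h1 := dense_iInter_of_isOpen hU hD
  have h2 : IsOpen {b : closure S | b.1 ≠ 0} := isOpen_ne_fun continuous_subtype_val continuous_const
  obtain ⟨b, hb0, hb⟩ := h1.inter_open_nonempty _ h2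
    ⟨⟨u 0, subset_closure ⟨0, 1, isUnit_one, (mul_one _).symm⟩⟩, h0⟩
  refine ⟨b.1, hb0, Metric.mem_closure_iff.2 fun ε hε => ?_⟩
  obtain ⟨j, hj⟩ := exists_nat_one_div_lt hε
  obtain ⟨x, hx⟩ := Set.mem_iInter.1 hb j
  exact ⟨_, ⟨x, rfl⟩, by rw [dist_eq_norm]; exact hx.trans hj⟩

end Pool.Agent.Lib.helper15.Wild
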